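import Pool.Agent.GP.Defs

/-! Module ALG: representation of complex numbers by matrices over Z[X] (X = theta). -/

set_option autoImplicit false

namespace Pool.Agent.GP

open Polynomial IntermediateField

/-- length of an integer polynomial -/
noncomputable def l1 (f : ℤ[X]) : ℝ := ∑ i ∈ f.support, |(f.coeff i : ℝ)|

theorem l1_eq_sum (f : ℤ[X]) {s : Finset ℕ} (hs : f.support ⊆ s) :
    l1 f = ∑ i ∈ s, |(f.coeff i : ℝ)| := by
  refine Finset.sum_subset hs fun i _ hi => ?_
  rw [notMem_support_iff.1 hi]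
  simp

theorem l1_nonneg (f : ℤ[X]) : 0 ≤ l1 f := Finset.sum_nonneg fun _ _ => abs_nonneg _

theorem l1_zero : l1 (0 : ℤ[X]) = 0 := by simp [l1]

theorem l1_add (f g : ℤ[X]) : l1 (f + g) ≤ l1 f + l1 g := by
  rw [l1_eq_sum (f + g) (support_add), l1_eq_sum f (Finset.subset_union_left (s₂ := g.support)),
    l1_eq_sum g (Finset.subset_union_right (s₁ := f.support)), ← Finset.sum_add_distrib]
  refine Finset.sum_le_sum fun i _ => ?_
  rw [coeff_add]
  push_cast
  exact abs_add_le _ _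

theorem l1_sum {ι : Type*} (s : Finset ι) (f : ι → ℤ[X]) :
    l1 (∑ i ∈ s, f i) ≤ ∑ i ∈ s, l1 (f i) := by
  classical
  induction s using Finset.induction_on with
  | empty => simp [l1_zero]
  | insert a s ha ih =>
    rw [Finset.sum_insert ha, Finset.sum_insert ha]
    exact (l1_add _ _).trans (by linarith)

theorem l1_monomial_mul (n : ℕ) (a : ℤ) (g : ℤ[X]) :
    l1 (monomial n a * g) ≤ |(a : ℝ)| * l1 g := by
  classical
  have hsub : (monomial n a * g).support ⊆ g.support.map (addRightEmbedding n) := by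
    intro i hi
    rw [mem_support_iff] at hi
    rw [Finset.mem_map]
    by_cases h : n ≤ i
    · obtain ⟨j, rfl⟩ := Nat.exists_eq_add_of_le h
      rw [Nat.add_comm n j, coeff_monomial_mul] at hi
      refine ⟨j, mem_support_iff.2 (right_ne_zero_of_mul hi), ?_⟩
      simp [Nat.add_comm]
    · exfalso
      apply hi
      rw [coeff_mul]
      refine Finset.sum_eq_zero fun x hx => ?_
      rw [coeff_monomial, if_neg, zero_mul]
      have hx := Finset.HasAntidiagonal.mem_antidiagonal.1 hx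
      omega
  rw [l1_eq_sum _ hsub, Finset.sum_map, l1, Finset.mul_sum]
  refine Finset.sum_le_sum fun j _ => ?_
  simp only [addRightEmbedding_apply]
  rw [coeff_monomial_mul]
  push_cast
  rw [abs_mul]

theorem l1_mul (f g : ℤ[X]) : l1 (f * g) ≤ l1 f * l1 g := by
  conv_lhs => rw [f.as_sum_support, Finset.sum_mul]
  refine (l1_sum _ _).trans ?_
  rw [l1, Finset.sum_mul]
  exact Finset.sum_le_sum fun i _ => l1_monomial_mul _ _ _

theorem coeff_le_l1 (f : ℤ[X]) (i : ℕ) : |(f.coeff i : ℝ)| ≤ l1 f := by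
  by_cases h : i ∈ f.support
  · exact Finset.single_le_sum (f := fun i => |(f.coeff i : ℝ)|) (fun _ _ => abs_nonneg _) h
  · rw [notMem_support_iff.1 h]
    simpa using l1_nonneg f

theorem norm_aeval_le (f : ℤ[X]) (θ : ℂ) {E : ℕ} (hE : f.natDegree ≤ E) :
    ‖aeval θ f‖ ≤ l1 f * (max 1 ‖θ‖) ^ E := by
  rw [aeval_eq_sum_range, l1_eq_sum f (s := Finset.range (f.natDegree + 1))
    (fun i hi => Finset.mem_range.2 (Nat.lt_succ_of_le (le_natDegree_of_mem_supp i hi))),
    Finset.sum_mul]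
  refine (norm_sum_le _ _).trans (Finset.sum_le_sum fun i hi => ?_)
  rw [zsmul_eq_mul, norm_mul, norm_pow, Complex.norm_intCast]
  refine mul_le_mul_of_nonneg_left ?_ (abs_nonneg _)
  calc ‖θ‖ ^ i ≤ (max 1 ‖θ‖) ^ i := pow_le_pow_left₀ (norm_nonneg _) (le_max_right _ _) _
    _ ≤ (max 1 ‖θ‖) ^ E := pow_le_pow_right₀ (le_max_left _ _)
        ((Nat.le_of_lt_succ (Finset.mem_range.1 hi)).trans hE)

/-- c acts on the basis om through a matrix over Z[X] of degree at most E and length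
at most X -/
def Rep (δ : ℕ) (ω : Fin δ → ℂ) (θ c : ℂ) (E : ℕ) (X : ℝ) : Prop :=
  ∃ M : Matrix (Fin δ) (Fin δ) ℤ[X], (∀ l, ∑ m, aeval θ (M l m) * ω m = c * ω l) ∧
    (∀ l m, (M l m).natDegree ≤ E) ∧ ∀ l m, l1 (M l m) ≤ X

theorem Rep.mul {δ : ℕ} {ω : Fin δ → ℂ} {θ c c' : ℂ} {E E' : ℕ} {X X' : ℝ}
    (h : Rep δ ω θ c E X) (h' : Rep δ ω θ c' E' X') (hδ : 0 < δ) :
    Rep δ ω θ (c * c') (E + E') (δ * X * X') := by
  obtain ⟨M, hM, hE, hX⟩ := h
  obtain ⟨M', hM', hE', hX'⟩ := h'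
  have hX0 : 0 ≤ X := (l1_nonneg _).trans (hX ⟨0, hδ⟩ ⟨0, hδ⟩)
  refine ⟨M * M', fun l => ?_, fun l m => ?_, fun l m => ?_⟩
  · simp only [Matrix.mul_apply, map_sum, map_mul, Finset.sum_mul]
    rw [Finset.sum_comm]
    have : ∀ n, ∑ m, aeval θ (M l n) * aeval θ (M' n m) * ω m
        = aeval θ (M l n) * (c' * ω n) := fun n => by
      rw [← hM' n, Finset.mul_sum]
      exact Finset.sum_congr rfl fun m _ => by ring
    simp only [this]
    rw [mul_comm c c', mul_assoc, ← hM l, Finset.mul_sum]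
    exact Finset.sum_congr rfl fun m _ => by ring
  · rw [Matrix.mul_apply]
    refine natDegree_sum_le_of_forall_le _ _ fun n _ => ?_
    exact natDegree_mul_le.trans (Nat.add_le_add (hE _ _) (hE' _ _))
  · rw [Matrix.mul_apply]
    refine (l1_sum _ _).trans ?_
    calc ∑ n, l1 (M l n * M' n m) ≤ ∑ _n : Fin δ, X * X' := by
          refine Finset.sum_le_sum fun n _ => (l1_mul _ _).trans ?_
          exact mul_le_mul (hX _ _) (hX' _ _) (l1_nonneg _) hX0
      _ = δ * X * X' := by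
          rw [Finset.sum_const, Finset.card_univ, Fintype.card_fin, nsmul_eq_mul]
          ring

theorem Rep.add {δ : ℕ} {ω : Fin δ → ℂ} {θ c c' : ℂ} {E E' : ℕ} {X X' : ℝ}
    (h : Rep δ ω θ c E X) (h' : Rep δ ω θ c' E' X') :
    Rep δ ω θ (c + c') (max E E') (X + X') := by
  obtain ⟨M, hM, hE, hX⟩ := h
  obtain ⟨M', hM', hE', hX'⟩ := h'
  refine ⟨M + M', fun l => ?_, fun l m => ?_, fun l m => ?_⟩
  · simp only [Matrix.add_apply, map_add, add_mul, Finset.sum_add_distrib, hM, hM']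
  · rw [Matrix.add_apply]
    exact natDegree_add_le_of_degree_le ((hE _ _).trans (le_max_left _ _))
      ((hE' _ _).trans (le_max_right _ _))
  · rw [Matrix.add_apply]
    exact (l1_add _ _).trans (add_le_add (hX _ _) (hX' _ _))

theorem Rep.zero {δ : ℕ} (ω : Fin δ → ℂ) (θ : ℂ) (E : ℕ) : Rep δ ω θ 0 E 0 := by
  refine ⟨0, fun l => ?_, fun l m => ?_, fun l m => ?_⟩
  · simp
  · simp
  · simp [l1_zero]

theorem Rep.sum {δ : ℕ} {ω : Fin δ → ℂ} {θ : ℂ} {ι : Type*} (S : Finset ι) {c : ι → ℂ}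
    {E : ℕ} {X : ι → ℝ} (h : ∀ i ∈ S, Rep δ ω θ (c i) E (X i)) :
    Rep δ ω θ (∑ i ∈ S, c i) E (∑ i ∈ S, X i) := by
  classical
  induction S using Finset.induction_on with
  | empty => simpa using Rep.zero ω θ E
  | insert a s ha ih =>
    rw [Finset.sum_insert ha, Finset.sum_insert ha]
    have := (h a (Finset.mem_insert_self _ _)).add
      (ih fun i hi => h i (Finset.mem_insert_of_mem hi))
    rwa [max_self] at this

theorem Rep.poly {δ : ℕ} (ω : Fin δ → ℂ) (θ : ℂ) (f : ℤ[X]) :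
    Rep δ ω θ (aeval θ f) f.natDegree (l1 f) := by
  refine ⟨Matrix.diagonal fun _ => f, fun l => ?_, fun l m => ?_, fun l m => ?_⟩
  · rw [Finset.sum_eq_single l]
    · simp
    · intro m _ hm
      rw [Matrix.diagonal_apply_ne' _ hm]
      simp
    · simp
  · by_cases h : l = m
    · subst h; simp
    · rw [Matrix.diagonal_apply_ne _ h]; simp
  · by_cases h : l = m
    · subst h; simp
    · rw [Matrix.diagonal_apply_ne _ h, l1_zero]
      exact l1_nonneg _

theorem l1_C (z : ℤ) : l1 (C z) = |(z : ℝ)| := by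
  rw [l1_eq_sum (C z) (s := {0}) (support_C_subset _)]
  simp

/-- monotonicity -/
theorem Rep.mono {δ : ℕ} {ω : Fin δ → ℂ} {θ c : ℂ} {E E' : ℕ} {X X' : ℝ}
    (h : Rep δ ω θ c E X) (hE : E ≤ E') (hX : X ≤ X') : Rep δ ω θ c E' X' := by
  obtain ⟨M, hM, h1, h2⟩ := h
  exact ⟨M, hM, fun l m => (h1 l m).trans hE, fun l m => (h2 l m).trans hX⟩

theorem Rep.int {δ : ℕ} (ω : Fin δ → ℂ) (θ : ℂ) (z : ℤ) :
    Rep δ ω θ (z : ℂ) 0 |(z : ℝ)| := by
  have := Rep.poly ω θ (C z)
  rw [l1_C, natDegree_C, aeval_C] at this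
  simpa using this

theorem Rep.mul_pow {δ : ℕ} {ω : Fin δ → ℂ} {θ c d : ℂ} {E E' : ℕ} {X X' : ℝ} (hδ : 0 < δ)
    (h : Rep δ ω θ c E X) (h' : Rep δ ω θ d E' X') (l : ℕ) :
    Rep δ ω θ (d * c ^ l) (E' + l * E) (X' * (δ * X) ^ l) := by
  induction l with
  | zero => simpa using h'
  | succ l ih =>
    have := ih.mul h hδ
    rw [pow_succ, ← mul_assoc]
    refine this.mono (le_of_eq (by ring)) (le_of_eq (by ring))

/-- product of a finite family of powers -/
theorem Rep.prod_pow {δ : ℕ} {ω : Fin δ → ℂ} {θ : ℂ} {ι : Type*} (S : Finset ι)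
    {c : ι → ℂ} {E : ℕ} {X : ℝ} (hδ : 0 < δ) (hX : 1 ≤ X)
    (h : ∀ i ∈ S, Rep δ ω θ (c i) E X) (l : ι → ℕ) {s : ℕ} (hl : ∑ i ∈ S, l i ≤ s) :
    Rep δ ω θ (∏ i ∈ S, c i ^ l i) (s * E) ((δ * X) ^ s) := by
  classical
  have key : Rep δ ω θ (∏ i ∈ S, c i ^ l i) ((∑ i ∈ S, l i) * E) ((δ * X) ^ (∑ i ∈ S, l i)) := by
    clear hl
    induction S using Finset.induction_on with
    | empty =>
      have := Rep.int ω θ 1
      simpa using this
    | insert a S ha ih =>
      rw [Finset.prod_insert ha, Finset.sum_insert ha, mul_comm (c a ^ l a)]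
      have := Rep.mul_pow hδ (h a (Finset.mem_insert_self _ _))
        (ih fun i hi => h i (Finset.mem_insert_of_mem hi)) (l a)
      refine this.mono (le_of_eq (by ring)) (le_of_eq (by rw [pow_add]; ring))
  refine key.mono (Nat.mul_le_mul_right _ hl) (pow_le_pow_right₀ ?_ hl)
  have : (1 : ℝ) ≤ δ := by exact_mod_cast hδ
  nlinarith

/-- every element of Q(theta) is a quotient of integer polynomials in theta -/
theorem exists_quot {θ : ℂ} (r : ℂ) (hr : r ∈ ℚ⟮θ⟯) :
    ∃ a b : ℤ[X], aeval θ b ≠ 0 ∧ aeval θ b * r = aeval θ a := by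
  obtain ⟨f, g, rfl⟩ := (IntermediateField.mem_adjoin_simple_iff ℚ r).1 hr
  have clear : ∀ f : ℚ[X], ∃ (n : ℤ) (f' : ℤ[X]), n ≠ 0 ∧ aeval θ f' = (n : ℂ) * aeval θ f := by
    intro f
    obtain ⟨b, hb0, hb⟩ := IsLocalization.integerNormalization_spec (nonZeroDivisors ℤ) f
    refine ⟨(b : ℤ), IsLocalization.integerNormalization (nonZeroDivisors ℤ) f,
      nonZeroDivisors.ne_zero hb0, ?_⟩
    have h2 := congrArg (aeval θ) hb
    rw [aeval_map_algebraMap] at h2
    rw [h2]
    simp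
  by_cases hg : aeval θ g = 0
  · exact ⟨0, 1, by simp, by simp [hg]⟩
  obtain ⟨n, f', hn, hf'⟩ := clear f
  obtain ⟨m, g', hm, hg'⟩ := clear g
  refine ⟨C m * f', C n * g', ?_, ?_⟩
  · rw [map_mul, hg', aeval_C]
    simp only [algebraMap_int_eq, eq_intCast, ne_eq, mul_eq_zero, Int.cast_eq_zero, not_or]
    exact ⟨hn, hm, hg⟩
  · rw [map_mul, map_mul, hg', hf', aeval_C, aeval_C]
    simp only [algebraMap_int_eq, eq_intCast]
    field_simp

theorem aeval_mem_adjoin_int (θ : ℂ) (s : ℤ[X]) : aeval θ s ∈ ℚ⟮θ⟯ := by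
  have h1 : aeval θ (s.map (algebraMap ℤ ℚ)) = aeval θ s := by rw [aeval_map_algebraMap]
  rw [← h1]
  exact (IntermediateField.mem_adjoin_simple_iff ℚ _).2
    ⟨s.map (algebraMap ℤ ℚ), 1, by simp⟩

theorem aeval_int_eq_zero {θ : ℂ} (hθ : Transcendental ℚ θ) {s : ℤ[X]} (h : aeval θ s = 0) :
    s = 0 := by
  have h1 : aeval θ (s.map (algebraMap ℤ ℚ)) = 0 := by rwa [aeval_map_algebraMap]
  have h2 := (transcendental_iff.1 hθ) _ h1
  exact (Polynomial.map_eq_zero_iff (RingHom.injective_int (algebraMap ℤ ℚ))).1 h2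

/-- a common basis for finitely many numbers algebraic over Q(theta) -/
theorem exists_basis {θ : ℂ} (hθ : Transcendental ℚ θ) {ι : Type*} [Fintype ι] (g : ι → ℂ)
    (hg : ∀ i, IsAlgebraic ℚ⟮θ⟯ (g i)) :
    ∃ (δ : ℕ) (ω : Fin (δ + 1) → ℂ) (D0 : ℤ[X]) (E : ℕ) (X : ℝ), ω 0 = 1 ∧ D0 ≠ 0 ∧
      (∀ s : Fin (δ + 1) → ℤ[X], ∑ m, aeval θ (s m) * ω m = 0 → s = 0) ∧
      ∀ i, Rep (δ + 1) ω θ (aeval θ D0 * g i) E X := by
  classical
  -- the finite extension
  let K := ℚ⟮θ⟯
  let L : IntermediateField K ℂ := IntermediateField.adjoin K (Set.range g)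
  have hfin : FiniteDimensional K L := by
    refine IntermediateField.finiteDimensional_adjoin ?_
    rintro _ ⟨i, rfl⟩
    exact (hg i).isIntegral
  -- a basis containing 1
  have hli : LinearIndepOn K id ({1} : Set L) := by
    rw [linearIndepOn_singleton_iff]
    exact one_ne_zero
  obtain ⟨δ, b, hb0⟩ : ∃ (δ : ℕ) (b : Module.Basis (Fin (δ + 1)) K L), b 0 = 1 := by
    let b1 := Module.Basis.extend hli
    have h1mem : (1 : L) ∈ hli.extend (Set.subset_univ _) :=
      hli.subset_extend (Set.subset_univ _) (Set.mem_singleton _)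
    have : Finite (hli.extend (Set.subset_univ ({1} : Set L))) :=
      Module.Finite.finite_basis b1
    let _ : Fintype (hli.extend (Set.subset_univ ({1} : Set L))) := Fintype.ofFinite _
    have : Nonempty (hli.extend (Set.subset_univ ({1} : Set L))) := ⟨⟨1, h1mem⟩⟩
    obtain ⟨δ, hδ⟩ : ∃ δ, Fintype.card (hli.extend (Set.subset_univ ({1} : Set L))) = δ + 1 :=
      Nat.exists_eq_succ_of_ne_zero Fintype.card_ne_zero
    let e := Fintype.equivFinOfCardEq hδ
    refine ⟨δ, (b1.reindex e).reindex (Equiv.swap (e ⟨1, h1mem⟩) 0), ?_⟩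
    simp [b1]
  let ω : Fin (δ + 1) → ℂ := fun m => (b m : ℂ)
  -- multiplication by g i on the basis
  have hgL : ∀ i, g i ∈ L := fun i => IntermediateField.subset_adjoin _ _ ⟨i, rfl⟩
  have hr : ∀ (i : ι) (l m : Fin (δ + 1)), ∃ a c : ℤ[X], aeval θ c ≠ 0 ∧
      aeval θ c * ((b.repr (⟨g i, hgL i⟩ * b l) m : K) : ℂ) = aeval θ a := fun i l m =>
    exists_quot _ (b.repr (⟨g i, hgL i⟩ * b l) m).2
  choose a c hc hac using hr
  let D0 : ℤ[X] := ∏ i, ∏ l, ∏ m, c i l m
  have hdvd : ∀ i l m, c i l m ∣ D0 := fun i l m =>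
    ((Finset.dvd_prod_of_mem _ (Finset.mem_univ m)).trans
      (Finset.dvd_prod_of_mem (fun l => ∏ m, c i l m) (Finset.mem_univ l))).trans
      (Finset.dvd_prod_of_mem (fun i => ∏ l, ∏ m, c i l m) (Finset.mem_univ i))
  choose d hd using hdvd
  refine ⟨δ, ω, D0, ∑ i, ∑ l, ∑ m, (a i l m * d i l m).natDegree,
    ∑ i, ∑ l, ∑ m, l1 (a i l m * d i l m), ?_, ?_, ?_, ?_⟩
  · simp [ω, hb0]
  · refine Finset.prod_ne_zero_iff.2 fun i _ => Finset.prod_ne_zero_iff.2 fun l _ =>
      Finset.prod_ne_zero_iff.2 fun m _ h => hc i l m ?_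
    rw [h, map_zero]
  · intro s hs
    have h1 : ∀ m, aeval θ (s m) ∈ K := fun m =>
      aeval_mem_adjoin_int θ (s m)
    have h2 : ∑ m, (⟨aeval θ (s m), h1 m⟩ : K) • b m = 0 := by
      apply Subtype.ext
      rw [AddSubmonoidClass.coe_finsetSum]
      simpa [ω, Algebra.smul_def] using hs
    have h3 := (Fintype.linearIndependent_iff.1 b.linearIndependent) _ h2
    funext m
    exact aeval_int_eq_zero hθ (congrArg Subtype.val (h3 m))
  · intro i
    refine ⟨fun l m => a i l m * d i l m, fun l => ?_, fun l m => ?_, fun l m => ?_⟩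
    · have h1 := congrArg (fun x : L => (x : ℂ)) (b.sum_repr (⟨g i, hgL i⟩ * b l))
      simp only [AddSubmonoidClass.coe_finsetSum] at h1
      have h2 : g i * ω l = ∑ m, ((b.repr (⟨g i, hgL i⟩ * b l) m : K) : ℂ) * ω m := by
        rw [show g i * ω l = (((⟨g i, hgL i⟩ : L) * b l : L) : ℂ) from rfl, ← h1]
        rfl
      rw [mul_assoc, h2, Finset.mul_sum]
      refine Finset.sum_congr rfl fun m _ => ?_
      have h3 : aeval θ D0 = aeval θ (c i l m) * aeval θ (d i l m) := by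
        rw [hd i l m]
        exact map_mul _ _ _
      have h4 : aeval θ (a i l m * d i l m) = aeval θ (a i l m) * aeval θ (d i l m) :=
        map_mul _ _ _
      rw [h4, h3, ← hac i l m]
      ring
    · refine le_trans ?_ (Finset.single_le_sum (f := fun i => ∑ l, ∑ m,
        (a i l m * d i l m).natDegree) (fun _ _ => Nat.zero_le _) (Finset.mem_univ i))
      refine le_trans ?_ (Finset.single_le_sum (f := fun l => ∑ m,
        (a i l m * d i l m).natDegree) (fun _ _ => Nat.zero_le _) (Finset.mem_univ l))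
      exact Finset.single_le_sum (f := fun m => (a i l m * d i l m).natDegree)
        (fun _ _ => Nat.zero_le _) (Finset.mem_univ m)
    · refine le_trans ?_ (Finset.single_le_sum (f := fun i => ∑ l, ∑ m,
        l1 (a i l m * d i l m)) (fun _ _ => Finset.sum_nonneg fun _ _ =>
          Finset.sum_nonneg fun _ _ => l1_nonneg _) (Finset.mem_univ i))
      refine le_trans ?_ (Finset.single_le_sum (f := fun l => ∑ m,
        l1 (a i l m * d i l m)) (fun _ _ => Finset.sum_nonneg fun _ _ => l1_nonneg _)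
          (Finset.mem_univ l))
      exact Finset.single_le_sum (f := fun m => l1 (a i l m * d i l m))
        (fun _ _ => l1_nonneg _) (Finset.mem_univ m)

theorem l1_one : l1 (1 : ℤ[X]) = 1 := by
  have := l1_C 1
  simpa using this

theorem l1_prod {ι : Type*} (s : Finset ι) (f : ι → ℤ[X]) :
    l1 (∏ i ∈ s, f i) ≤ ∏ i ∈ s, l1 (f i) := by
  classical
  induction s using Finset.induction_on with
  | empty => simp [l1_one]
  | insert a s ha ih =>
    rw [Finset.prod_insert ha, Finset.prod_insert ha]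
    exact (l1_mul _ _).trans (mul_le_mul_of_nonneg_left ih (l1_nonneg _))

theorem l1_neg (f : ℤ[X]) : l1 (-f) = l1 f := by
  simp [l1]

theorem l1_sign_smul {n : ℕ} (σ : Equiv.Perm (Fin n)) (f : ℤ[X]) :
    l1 (Equiv.Perm.sign σ • f) = l1 f := by
  rcases Int.units_eq_one_or (Equiv.Perm.sign σ) with h | h
  · rw [h, one_smul]
  · rw [h, Units.neg_smul, one_smul, l1_neg]

theorem l1_det {n : ℕ} (M : Matrix (Fin n) (Fin n) ℤ[X]) {X : ℝ}
    (hM : ∀ l m, l1 (M l m) ≤ X) : l1 M.det ≤ n.factorial * X ^ n := by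
  rw [Matrix.det_apply]
  refine (l1_sum _ _).trans ?_
  calc ∑ σ : Equiv.Perm (Fin n), l1 (Equiv.Perm.sign σ • ∏ i, M (σ i) i)
      ≤ ∑ _σ : Equiv.Perm (Fin n), X ^ n := by
        refine Finset.sum_le_sum fun σ _ => ?_
        rw [l1_sign_smul]
        refine (l1_prod _ _).trans ?_
        calc ∏ i, l1 (M (σ i) i) ≤ ∏ _i : Fin n, X :=
              Finset.prod_le_prod (fun _ _ => l1_nonneg _) fun _ _ => hM _ _
          _ = X ^ n := by simp
    _ = n.factorial * X ^ n := by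
        rw [Finset.sum_const, Finset.card_univ, Fintype.card_perm, Fintype.card_fin,
          nsmul_eq_mul]

theorem natDegree_det_le {n : ℕ} (M : Matrix (Fin n) (Fin n) ℤ[X]) {E : ℕ}
    (hM : ∀ l m, (M l m).natDegree ≤ E) : M.det.natDegree ≤ n * E := by
  rw [Matrix.det_apply]
  refine natDegree_sum_le_of_forall_le _ _ fun σ _ => ?_
  have h1 : (∏ i, M (σ i) i).natDegree ≤ n * E := by
    refine (natDegree_prod_le _ _).trans ?_
    calc ∑ i, (M (σ i) i).natDegree ≤ ∑ _i : Fin n, E := Finset.sum_le_sum fun _ _ => hM _ _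
      _ = n * E := by simp
  rcases Int.units_eq_one_or (Equiv.Perm.sign σ) with h | h
  · rwa [h, one_smul]
  · rwa [h, Units.neg_smul, one_smul, natDegree_neg]

theorem norm_det_le_row {n : ℕ} (N : Matrix (Fin (n + 1)) (Fin (n + 1)) ℂ) {B : ℝ}
    (r : Fin (n + 1)) (hr : ∀ m, ‖N r m‖ ≤ 1) (h : ∀ l m, l ≠ r → ‖N l m‖ ≤ B) :
    ‖N.det‖ ≤ (n + 1).factorial * B ^ n := by
  rw [Matrix.det_apply]
  refine (norm_sum_le _ _).trans ?_
  calc ∑ σ : Equiv.Perm (Fin (n + 1)), ‖Equiv.Perm.sign σ • ∏ i, N (σ i) i‖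
      ≤ ∑ _σ : Equiv.Perm (Fin (n + 1)), B ^ n := by
        refine Finset.sum_le_sum fun σ _ => ?_
        have h1 : ‖Equiv.Perm.sign σ • ∏ i, N (σ i) i‖ = ‖∏ i, N (σ i) i‖ := by
          rcases Int.units_eq_one_or (Equiv.Perm.sign σ) with h | h
          · rw [h, one_smul]
          · rw [h, Units.neg_smul, one_smul, norm_neg]
        rw [h1, norm_prod, ← Equiv.prod_comp σ.symm]
        simp only [Equiv.apply_symm_apply]
        rw [← Finset.mul_prod_erase _ _ (Finset.mem_univ r)]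
        calc ‖N r (σ.symm r)‖ * ∏ x ∈ Finset.univ.erase r, ‖N x (σ.symm x)‖
            ≤ 1 * ∏ _x ∈ Finset.univ.erase r, B := by
              refine mul_le_mul (hr _) ?_ (Finset.prod_nonneg fun _ _ => norm_nonneg _)
                zero_le_one
              exact Finset.prod_le_prod (fun _ _ => norm_nonneg _) fun x hx =>
                h _ _ (Finset.ne_of_mem_erase hx)
          _ = B ^ n := by
              rw [one_mul, Finset.prod_const, Finset.card_erase_of_mem (Finset.mem_univ _)]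
              simp
    _ = (n + 1).factorial * B ^ n := by
        rw [Finset.sum_const, Finset.card_univ, Fintype.card_perm, Fintype.card_fin,
          nsmul_eq_mul]

/-- the norm: a represented nonzero number gives a nonzero integer polynomial -/
theorem exists_norm {δ : ℕ} {ω : Fin (δ + 1) → ℂ} {θ : ℂ}
    (hω : ∀ s : Fin (δ + 1) → ℤ[X], ∑ m, aeval θ (s m) * ω m = 0 → s = 0) (hω0 : ω 0 = 1) :
    ∃ C : ℝ, 1 ≤ C ∧ ∀ (c : ℂ) (E : ℕ) (X : ℝ), c ≠ 0 → 1 ≤ X → Rep (δ + 1) ω θ c E X →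
      ∃ A : ℤ[X], A ≠ 0 ∧ A.natDegree ≤ (δ + 1) * E ∧ (∀ i, |(A.coeff i : ℝ)| ≤ C * X ^ (δ + 1)) ∧
        ‖aeval θ A‖ ≤ C ^ (E + 1) * X ^ δ * ‖c‖ := by
  classical
  set R : ℝ := max 1 ‖θ‖ with hR
  have hR1 : 1 ≤ R := le_max_left _ _
  set W : ℝ := ∑ m, ‖ω m‖ with hW
  have hW0 : 0 ≤ W := Finset.sum_nonneg fun _ _ => norm_nonneg _
  set Fc : ℝ := (((δ + 1).factorial : ℕ) : ℝ) with hFc
  have hF1 : 1 ≤ Fc := by
    rw [hFc]
    exact_mod_cast Nat.succ_le_of_lt (Nat.factorial_pos _)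
  set C : ℝ := max (Fc * (1 + W)) (R ^ δ) with hC
  have hC1 : Fc * (1 + W) ≤ C := le_max_left _ _
  have hC2 : R ^ δ ≤ C := le_max_right _ _
  have hC0 : 1 ≤ C := by nlinarith
  have hCF : Fc ≤ C := by nlinarith
  refine ⟨C, hC0, fun c E X hc hX hrep => ?_⟩
  obtain ⟨M, hM, hE, hl⟩ := hrep
  refine ⟨M.det, ?_, natDegree_det_le M hE, fun i => ?_, ?_⟩
  · intro hdet
    obtain ⟨v, hv0, hv⟩ := Matrix.exists_vecMul_eq_zero_iff.2 hdet
    apply hv0
    apply hω
    have h1 : c * ∑ l, aeval θ (v l) * ω l = 0 := by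
      calc c * ∑ l, aeval θ (v l) * ω l = ∑ l, aeval θ (v l) * (c * ω l) := by
            rw [Finset.mul_sum]
            exact Finset.sum_congr rfl fun l _ => by ring
        _ = ∑ l, ∑ m, aeval θ (v l) * (aeval θ (M l m) * ω m) := by
            refine Finset.sum_congr rfl fun l _ => ?_
            rw [← hM l, Finset.mul_sum]
        _ = ∑ m, aeval θ ((Matrix.vecMul v M) m) * ω m := by
            rw [Finset.sum_comm]
            refine Finset.sum_congr rfl fun m _ => ?_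
            simp only [Matrix.vecMul, dotProduct, map_sum, map_mul, Finset.sum_mul]
            exact Finset.sum_congr rfl fun l _ => by ring
        _ = 0 := by rw [hv]; simp
    exact (mul_eq_zero.1 h1).resolve_left hc
  · refine (coeff_le_l1 _ _).trans ((l1_det M hl).trans ?_)
    exact mul_le_mul_of_nonneg_right hCF (by positivity)
  · set N : Matrix (Fin (δ + 1)) (Fin (δ + 1)) ℂ := M.map (aeval θ) with hN
    have hdet : aeval θ M.det = N.det := by
      rw [hN]
      exact RingHom.map_det (aeval θ : ℤ[X] →ₐ[ℤ] ℂ).toRingHom M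
    have hNω : N.mulVec ω = c • ω := by
      funext l
      simp only [Matrix.mulVec, dotProduct, hN, Matrix.map_apply, Pi.smul_apply, smul_eq_mul]
      exact hM l
    have h1 : N.det = c * ∑ m, N.adjugate 0 m * ω m := by
      have h2 : (N.adjugate * N).mulVec ω = N.det • ω := by
        rw [Matrix.adjugate_mul, Matrix.smul_mulVec, Matrix.one_mulVec]
      rw [← Matrix.mulVec_mulVec, hNω, Matrix.mulVec_smul] at h2
      have h3 := congrFun h2 0
      simp only [Pi.smul_apply, smul_eq_mul, hω0, mul_one] at h3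
      rw [← h3]
      rfl
    have hadj : ∀ m, ‖N.adjugate 0 m‖ ≤ Fc * (X * R ^ E) ^ δ := by
      intro m
      rw [Matrix.adjugate_apply]
      refine norm_det_le_row _ m (fun j => ?_) (fun l j hlj => ?_)
      · rw [Matrix.updateRow_self]
        by_cases hj : j = 0
        · subst hj; simp
        · simp [hj]
      · rw [Matrix.updateRow_ne hlj, hN, Matrix.map_apply]
        refine (norm_aeval_le _ θ (hE l j)).trans ?_
        exact mul_le_mul_of_nonneg_right (hl l j) (by positivity)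
    rw [hdet, h1, norm_mul]
    have h4 : ‖∑ m, N.adjugate 0 m * ω m‖ ≤ Fc * (X * R ^ E) ^ δ * W := by
      refine (norm_sum_le _ _).trans ?_
      rw [hW, Finset.mul_sum]
      refine Finset.sum_le_sum fun m _ => ?_
      rw [norm_mul]
      exact mul_le_mul_of_nonneg_right (hadj m) (norm_nonneg _)
    have h5 : Fc * (X * R ^ E) ^ δ * W ≤ C ^ (E + 1) * X ^ δ := by
      have h6 : (R ^ E) ^ δ ≤ C ^ E := by
        rw [← pow_mul, mul_comm E δ, pow_mul]
        exact pow_le_pow_left₀ (by positivity) hC2 E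
      calc Fc * (X * R ^ E) ^ δ * W = (Fc * W) * (R ^ E) ^ δ * X ^ δ := by
            rw [mul_pow]; ring
        _ ≤ C * C ^ E * X ^ δ := by
            refine mul_le_mul_of_nonneg_right ?_ (by positivity)
            refine mul_le_mul ?_ h6 (by positivity) (by positivity)
            nlinarith
        _ = C ^ (E + 1) * X ^ δ := by ring
    calc ‖c‖ * ‖∑ m, N.adjugate 0 m * ω m‖ ≤ ‖c‖ * (C ^ (E + 1) * X ^ δ) :=
          mul_le_mul_of_nonneg_left (h4.trans h5) (norm_nonneg _)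
      _ = C ^ (E + 1) * X ^ δ * ‖c‖ := by ring

end Pool.Agent.GP
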