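import Mathlib

/-! Regular representation of finitely many numbers algebraic over Q(θ), by integral matrices
over Z[X]. -/

set_option autoImplicit false

namespace GP

open Polynomial Finset

/-- Data for the regular representation of numbers algebraic over `Q(θ)`. -/
structure RegRep (θ : ℂ) {κ : Type} (x : κ → ℂ) where
  d : ℕ
  b : Fin d → ℂ
  dl : ℤ[X]
  M : κ → Matrix (Fin d) (Fin d) ℤ[X]
  MB : Fin d → Matrix (Fin d) (Fin d) ℤ[X]
  hdl : aeval θ dl ≠ 0
  hM : ∀ k j, aeval θ dl * x k * b j = ∑ i, aeval θ (M k i j) * b i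
  hMB : ∀ c j, aeval θ dl * b c * b j = ∑ i, aeval θ (MB c i j) * b i
  hlin : ∀ a : Fin d → ℤ[X], ∑ i, aeval θ (a i) * b i = 0 → a = 0
  hne : ∃ i, b i ≠ 0

namespace RR

/-- an element of Q(θ) has a denominator in Z[X] -/
lemma exists_den {θ : ℂ} {f : ℂ} (hf : f ∈ IntermediateField.adjoin ℚ ({θ} : Set ℂ)) :
    ∃ δ P : ℤ[X], aeval θ δ ≠ 0 ∧ aeval θ δ * f = aeval θ P := by
  rw [IntermediateField.mem_adjoin_simple_iff] at hf
  obtain ⟨r, s, hrs⟩ := hf
  by_cases hs : aeval θ s = 0
  · refine ⟨1, 0, by simp, ?_⟩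
    rw [hrs, hs]; simp
  · obtain ⟨⟨b, hb⟩, h1⟩ := IsLocalization.integerNormalization_map_to_map (nonZeroDivisors ℤ) r
    obtain ⟨⟨c, hc⟩, h2⟩ := IsLocalization.integerNormalization_map_to_map (nonZeroDivisors ℤ) s
    set R := IsLocalization.integerNormalization (nonZeroDivisors ℤ) r
    set S := IsLocalization.integerNormalization (nonZeroDivisors ℤ) s
    have hb0 : b ≠ 0 := nonZeroDivisors.ne_zero hb
    have hc0 : c ≠ 0 := nonZeroDivisors.ne_zero hc
    have e1 : aeval θ R = (b : ℂ) * aeval θ r := by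
      have : aeval θ R = aeval θ (R.map (algebraMap ℤ ℚ)) := by
        rw [aeval_map_algebraMap]
      rw [this, h1]
      simp
    have e2 : aeval θ S = (c : ℂ) * aeval θ s := by
      have : aeval θ S = aeval θ (S.map (algebraMap ℤ ℚ)) := by
        rw [aeval_map_algebraMap]
      rw [this, h2]
      simp
    refine ⟨C b * S, C c * R, ?_, ?_⟩
    · rw [map_mul, aeval_C, e2]
      simp only [algebraMap_int_eq, eq_intCast]
      exact mul_ne_zero (by exact_mod_cast hb0) (mul_ne_zero (by exact_mod_cast hc0) hs)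
    · rw [map_mul, map_mul, aeval_C, aeval_C, e1, e2, hrs]
      simp only [algebraMap_int_eq, eq_intCast]
      field_simp

/-- common denominators -/
lemma exists_common_den {θ : ℂ} {α : Type} [DecidableEq α] (S : Finset α) (f : α → ℂ)
    (hf : ∀ a ∈ S, f a ∈ IntermediateField.adjoin ℚ ({θ} : Set ℂ)) :
    ∃ δ : ℤ[X], aeval θ δ ≠ 0 ∧ ∃ P : α → ℤ[X], ∀ a ∈ S, aeval θ δ * f a = aeval θ (P a) := by
  induction S using Finset.induction_on with
  | empty => exact ⟨1, by simp, fun _ => 0, by simp⟩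
  | insert a S ha ih =>
    obtain ⟨δ, hδ, P, hP⟩ := ih fun a h => hf a (mem_insert_of_mem h)
    obtain ⟨δ', P', hδ', hP'⟩ := exists_den (hf a (mem_insert_self _ _))
    refine ⟨δ * δ', by rw [map_mul]; exact mul_ne_zero hδ hδ',
      fun a' => if a' = a then δ * P' else δ' * P a', ?_⟩
    intro a' ha'
    by_cases h : a' = a
    · simp only [if_pos h]
      rw [map_mul, map_mul, h, ← hP']; ring
    · simp only [if_neg h]
      rw [map_mul, map_mul, ← hP a' (mem_of_mem_insert_of_ne ha' h)]; ring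

end RR

theorem exists_regRep {θ : ℂ} (hθ : Transcendental ℚ θ) {κ : Type} [Fintype κ] [DecidableEq κ]
    (x : κ → ℂ) (hx : ∀ k, IsAlgebraic (IntermediateField.adjoin ℚ ({θ} : Set ℂ)) (x k)) :
    Nonempty (RegRep θ x) := by
  classical
  let F := IntermediateField.adjoin ℚ ({θ} : Set ℂ)
  let E := IntermediateField.adjoin F (Set.range x)
  have hfd : FiniteDimensional F E := by
    have : Finite (Set.range x) := Set.finite_range x
    apply IntermediateField.finiteDimensional_adjoin
    rintro y ⟨k, rfl⟩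
    exact (hx k).isIntegral
  let n := Module.finrank F E
  let B : Module.Basis (Fin n) F E := Module.finBasis F E
  have hxE : ∀ k, x k ∈ E := fun k => IntermediateField.subset_adjoin F _ ⟨k, rfl⟩
  let xe : κ → E := fun k => ⟨x k, hxE k⟩
  -- the matrix entries
  let f : (κ ⊕ Fin n) × Fin n × Fin n → ℂ := fun q =>
    match q.1 with
    | Sum.inl k => ((B.repr (xe k * B q.2.2) q.2.1 : F) : ℂ)
    | Sum.inr c => ((B.repr (B c * B q.2.2) q.2.1 : F) : ℂ)
  have hf : ∀ a ∈ (univ : Finset ((κ ⊕ Fin n) × Fin n × Fin n)), f a ∈ F := by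
    rintro ⟨k | c, i, j⟩ _
    · exact (B.repr (xe k * B j) i : F).2
    · exact (B.repr (B c * B j) i : F).2
  obtain ⟨δ, hδ, P, hP⟩ := RR.exists_common_den univ f hf
  have hsum : ∀ y : E, (y : ℂ) = ∑ i, ((B.repr y i : F) : ℂ) * ((B i : E) : ℂ) := by
    intro y
    have h1 := congrArg (fun z : E => (z : ℂ)) (B.sum_repr y)
    rw [← h1]
    push_cast
    apply sum_congr rfl
    intro i _
    rfl
  refine ⟨⟨n, fun i => ((B i : E) : ℂ), δ, fun k => Matrix.of fun i j => P (Sum.inl k, i, j),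
    fun c => Matrix.of fun i j => P (Sum.inr c, i, j), hδ, ?_, ?_, ?_, ?_⟩⟩
  · intro k j
    have h1 := hsum (xe k * B j)
    have h2 : ((xe k * B j : E) : ℂ) = x k * ((B j : E) : ℂ) := rfl
    rw [h2] at h1
    rw [mul_assoc, h1, mul_sum]
    apply sum_congr rfl
    intro i _
    have h3 := hP (Sum.inl k, i, j) (mem_univ _)
    simp only [f] at h3
    rw [← mul_assoc, h3]
    rfl
  · intro c j
    have h1 := hsum (B c * B j)
    have h2 : ((B c * B j : E) : ℂ) = ((B c : E) : ℂ) * ((B j : E) : ℂ) := rfl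
    rw [h2] at h1
    rw [mul_assoc, h1, mul_sum]
    apply sum_congr rfl
    intro i _
    have h3 := hP (Sum.inr c, i, j) (mem_univ _)
    simp only [f] at h3
    rw [← mul_assoc, h3]
    rfl
  · intro a ha
    have hmem : ∀ Q : ℤ[X], aeval θ Q ∈ F := by
      intro Q
      have h1 : aeval θ Q = aeval θ (Q.map (algebraMap ℤ ℚ)) := by rw [aeval_map_algebraMap]
      rw [h1]
      have h2 : θ ∈ F := IntermediateField.subset_adjoin ℚ _ rfl
      have h3 := aeval_algebraMap_apply ℂ (⟨θ, h2⟩ : F) (Q.map (algebraMap ℤ ℚ))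
      have h4 : algebraMap F ℂ (⟨θ, h2⟩ : F) = θ := rfl
      rw [h4] at h3
      rw [h3]
      exact (aeval (⟨θ, h2⟩ : F) (Q.map (algebraMap ℤ ℚ))).2
    have h1 : ∑ i, (⟨aeval θ (a i), hmem (a i)⟩ : F) • (B i : E) = 0 := by
      apply Subtype.ext
      push_cast
      exact ha
    have h2 := Fintype.linearIndependent_iff.1 B.linearIndependent _ h1
    funext i
    have h3 := congrArg (fun z : F => (z : ℂ)) (h2 i)
    have h4 : aeval θ (a i) = 0 := h3
    by_contra hne
    have hθ' : Transcendental ℤ θ := by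
      intro h
      exact hθ ((IsFractionRing.isAlgebraic_iff ℤ ℚ ℂ).1 h)
    exact hθ' ⟨a i, hne, h4⟩
  · by_contra hcon
    push Not at hcon
    have h1 := hsum 1
    rw [sum_congr rfl fun i _ => by rw [hcon i, mul_zero], sum_const_zero] at h1
    exact one_ne_zero h1

end GP
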