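import Mathlib

/-!
# From a number field to the integers: the norm of a polynomial
-/

namespace GP

open Polynomial Finset

namespace NP

/-- the sum of the absolute values of the coefficients -/
noncomputable def l1 (p : ℂ[X]) : ℝ := p.sum fun _ a => ‖a‖

theorem l1_eq {p : ℂ[X]} {n : ℕ} (h : p.natDegree < n) : l1 p = ∑ i ∈ range n, ‖p.coeff i‖ :=
  Polynomial.sum_over_range' _ (fun _ => norm_zero) n h

theorem l1_nonneg (p : ℂ[X]) : 0 ≤ l1 p := Finset.sum_nonneg fun _ _ => norm_nonneg _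

theorem norm_coeff_le_l1 (p : ℂ[X]) (i : ℕ) : ‖p.coeff i‖ ≤ l1 p := by
  rw [l1_eq (Nat.lt_succ_of_le (le_max_left p.natDegree i))]
  exact Finset.single_le_sum (f := fun i => ‖p.coeff i‖) (fun _ _ => norm_nonneg _)
    (Finset.mem_range.2 (Nat.lt_succ_of_le (le_max_right _ _)))

theorem l1_add_le (p q : ℂ[X]) : l1 (p + q) ≤ l1 p + l1 q := by
  set n := max p.natDegree q.natDegree + 1 with hn
  have hp : p.natDegree < n := by omega
  have hq : q.natDegree < n := by omega
  have hpq : (p + q).natDegree < n := (natDegree_add_le p q).trans_lt (by omega)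
  rw [l1_eq hp, l1_eq hq, l1_eq hpq, ← Finset.sum_add_distrib]
  refine Finset.sum_le_sum fun i _ => ?_
  rw [coeff_add]
  exact norm_add_le _ _

theorem l1_sum_le {ι : Type*} (s : Finset ι) (f : ι → ℂ[X]) :
    l1 (∑ i ∈ s, f i) ≤ ∑ i ∈ s, l1 (f i) := by
  classical
  induction s using Finset.induction with
  | empty => simp [l1]
  | insert a s ha ih =>
    rw [Finset.sum_insert ha, Finset.sum_insert ha]
    exact (l1_add_le _ _).trans (by gcongr)

theorem l1_monomial (n : ℕ) (a : ℂ) : l1 (monomial n a) = ‖a‖ := by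
  exact Polynomial.sum_monomial_index a (fun _ b => ‖b‖) norm_zero

theorem l1_mul_le (p q : ℂ[X]) : l1 (p * q) ≤ l1 p * l1 q := by
  have e : p * q = ∑ i ∈ p.support, ∑ j ∈ q.support, monomial (i + j) (p.coeff i * q.coeff j) := by
    rw [Polynomial.mul_eq_sum_sum]
    rfl
  rw [e]
  refine (l1_sum_le _ _).trans ?_
  have e2 : l1 p * l1 q = ∑ i ∈ p.support, ∑ j ∈ q.support, ‖p.coeff i‖ * ‖q.coeff j‖ := by
    unfold l1 Polynomial.sum
    rw [Finset.sum_mul_sum]
  rw [e2]
  refine Finset.sum_le_sum fun i _ => (l1_sum_le _ _).trans ?_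
  refine Finset.sum_le_sum fun j _ => ?_
  rw [l1_monomial, norm_mul]

theorem l1_prod_le {ι : Type*} (s : Finset ι) (f : ι → ℂ[X]) :
    l1 (∏ i ∈ s, f i) ≤ ∏ i ∈ s, l1 (f i) := by
  classical
  induction s using Finset.induction with
  | empty =>
    simp only [Finset.prod_empty]
    have : (1 : ℂ[X]) = monomial 0 1 := by simp
    rw [this, l1_monomial, norm_one]
  | insert a s ha ih =>
    rw [Finset.prod_insert ha, Finset.prod_insert ha]
    exact (l1_mul_le _ _).trans (by gcongr; exact l1_nonneg _)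

theorem norm_eval_le_l1 (p : ℂ[X]) {d : ℕ} (hd : p.natDegree ≤ d) (z : ℂ) :
    ‖p.eval z‖ ≤ l1 p * max 1 ‖z‖ ^ d := by
  rw [eval_eq_sum_range' (Nat.lt_succ_of_le hd), l1_eq (Nat.lt_succ_of_le hd), Finset.sum_mul]
  refine (norm_sum_le _ _).trans (Finset.sum_le_sum fun i hi => ?_)
  rw [norm_mul, norm_pow]
  have h1 : ‖z‖ ^ i ≤ max 1 ‖z‖ ^ d :=
    (pow_le_pow_left₀ (norm_nonneg _) (le_max_right _ _) i).trans
      (pow_le_pow_right₀ (le_max_left _ _) (Nat.lt_succ_iff.1 (Finset.mem_range.1 hi)))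
  gcongr

variable {K : Type} [Field K] [NumberField K]

/-- the product over the embeddings -/
noncomputable def pr (P : K[X]) : ℂ[X] := ∏ s : K →+* ℂ, P.map s

theorem natDegree_pr_le {P : K[X]} {d : ℕ} (hd : P.natDegree ≤ d) :
    (pr P).natDegree ≤ Module.finrank ℚ K * d := by
  unfold pr
  refine (natDegree_prod_le _ _).trans ?_
  refine (Finset.sum_le_card_nsmul _ _ d fun s _ => ?_).trans (le_of_eq ?_)
  · exact natDegree_map_le.trans hd
  · rw [Finset.card_univ, NumberField.Embeddings.card, smul_eq_mul]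

theorem pr_ne_zero {P : K[X]} (hP : P ≠ 0) : pr P ≠ 0 := by
  unfold pr
  refine Finset.prod_ne_zero_iff.2 fun s _ => ?_
  rwa [Ne, Polynomial.map_eq_zero_iff s.injective]

theorem eval_pr (P : K[X]) (z : ℂ) : (pr P).eval z = ∏ s : K →+* ℂ, P.eval₂ s z := by
  unfold pr
  rw [eval_prod]
  simp only [eval_map]

theorem eval_pr_nat (P : K[X]) (k : ℕ) :
    (pr P).eval (k : ℂ) = ((Algebra.norm ℚ (P.eval (k : K)) : ℚ) : ℂ) := by
  have h := Algebra.norm_eq_prod_embeddings ℚ (E := ℂ) (P.eval (k : K))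
  rw [eval_pr]
  have h2 : ((Algebra.norm ℚ (P.eval (k : K)) : ℚ) : ℂ) =
      algebraMap ℚ ℂ (Algebra.norm ℚ (P.eval (k : K))) := rfl
  rw [h2, h]
  refine Fintype.prod_equiv (RingHom.equivRatAlgHom K ℂ) _ _ fun s => ?_
  rw [show ((RingHom.equivRatAlgHom K ℂ s : K →ₐ[ℚ] ℂ) (P.eval (k : K))) = s (P.eval (k : K))
    from rfl]
  rw [← Polynomial.eval₂_at_natCast]

/-- the coefficients are rational -/
theorem coeff_pr_rat (P : K[X]) : ∃ q : ℚ[X], q.map (algebraMap ℚ ℂ) = pr P := by
  set n := (pr P).natDegree with hn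
  have hv : Set.InjOn (fun k : ℕ => (k : ℚ)) (range (n + 1) : Finset ℕ) :=
    fun a _ b _ h => Nat.cast_injective h
  have hv' : Set.InjOn (fun k : ℕ => (k : ℂ)) (range (n + 1) : Finset ℕ) :=
    fun a _ b _ h => Nat.cast_injective h
  refine ⟨Lagrange.interpolate (range (n + 1)) (fun k : ℕ => (k : ℚ))
    (fun k => Algebra.norm ℚ (P.eval (k : K))), ?_⟩
  refine Polynomial.eq_of_degrees_lt_of_eval_index_eq (range (n + 1)) hv' ?_ ?_ fun k hk => ?_
  · refine lt_of_le_of_lt degree_map_le ?_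
    exact Lagrange.degree_interpolate_lt _ hv
  · rw [Finset.card_range]
    refine degree_le_natDegree.trans_lt ?_
    exact_mod_cast Nat.lt_succ_self _
  · rw [eval_pr_nat, show ((k : ℕ) : ℂ) = algebraMap ℚ ℂ ((k : ℕ) : ℚ) by simp, eval_map,
      eval₂_at_apply, Lagrange.eval_interpolate_at_node _ hv hk]
    rfl

/-- the coefficients are algebraic integers -/
theorem isIntegral_coeff_pr {P : K[X]} (h : ∀ i, IsIntegral ℤ (P.coeff i)) (i : ℕ) :
    IsIntegral ℤ ((pr P).coeff i) := by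
  have h1 : pr P ∈ lifts (algebraMap (integralClosure ℤ ℂ) ℂ) := by
    unfold pr
    refine Subsemiring.prod_mem _ fun s _ => ?_
    rw [lifts_iff_coeff_lifts]
    intro j
    rw [coeff_map]
    exact ⟨⟨s (P.coeff j), (h j).map s.toIntAlgHom⟩, rfl⟩
  rw [lifts_iff_coeff_lifts] at h1
  obtain ⟨⟨x, hx⟩, hx'⟩ := h1 i
  rw [← hx']
  exact hx

/-- the coefficients are integers -/
theorem exists_int {P : K[X]} (h : ∀ i, IsIntegral ℤ (P.coeff i)) :
    ∃ B : ℤ[X], B.map (Int.castRingHom ℂ) = pr P := by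
  rw [← mem_lifts, lifts_iff_coeff_lifts]
  intro i
  obtain ⟨q, hq⟩ := coeff_pr_rat P
  have h1 := isIntegral_coeff_pr h i
  rw [← hq, coeff_map] at h1 ⊢
  have h2 : IsIntegral ℤ (q.coeff i) :=
    (isIntegral_algebraMap_iff (algebraMap ℚ ℂ).injective).1 h1
  obtain ⟨z, hz⟩ := IsIntegrallyClosed.isIntegral_iff.1 h2
  refine ⟨z, ?_⟩
  rw [← hz]
  simp

end NP

open NP

/-- from a small value of a polynomial over the integers of a number field to a small value of an
integer polynomial -/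
theorem norm_poly (K : Type) [Field K] [NumberField K] (io : K →+* ℂ) (th : ℂ) (d : ℕ) (h G : ℝ)
    (P : Polynomial K) (hint : ∀ i, IsIntegral ℤ (P.coeff i)) (hdeg : P.natDegree ≤ d)
    (hh0 : 0 ≤ h) (hh : ∀ i, NumberField.house (P.coeff i) ≤ Real.exp h) (hne : P ≠ 0)
    (hv : ‖P.eval₂ io th‖ ≤ Real.exp (-G)) :
    ∃ B : Polynomial ℤ, B ≠ 0 ∧ B.natDegree ≤ Module.finrank ℚ K * d ∧
      (∀ i, |(B.coeff i : ℝ)| ≤
        Real.exp (Module.finrank ℚ K * (h + Real.log (d + 1)))) ∧
      ‖Polynomial.aeval th B‖ ≤ Real.exp (-G + Module.finrank ℚ K *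
        (h + Real.log (d + 1) + d * Real.log (max 1 ‖th‖))) := by
  classical
  obtain ⟨B, hB⟩ := exists_int hint
  set n := Module.finrank ℚ K with hn
  have hd0 : (0 : ℝ) < d + 1 := by positivity
  have hlog : 0 ≤ Real.log ((d : ℝ) + 1) := Real.log_nonneg (by
    have : (0 : ℝ) ≤ d := by positivity
    linarith)
  have hT : 1 ≤ max 1 ‖th‖ := le_max_left _ _
  have hlogT : 0 ≤ Real.log (max 1 ‖th‖) := Real.log_nonneg hT
  -- the L1 norms of the factors
  have hl1 : ∀ s : K →+* ℂ, l1 (P.map s) ≤ Real.exp (h + Real.log (d + 1)) := by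
    intro s
    rw [l1_eq (Nat.lt_succ_of_le (natDegree_map_le.trans hdeg)), Real.exp_add,
      Real.exp_log hd0]
    refine (Finset.sum_le_card_nsmul _ _ (Real.exp h) fun i _ => ?_).trans (le_of_eq ?_)
    · rw [coeff_map]
      refine le_trans ?_ (hh i)
      rw [NumberField.house]
      exact norm_le_pi_norm (NumberField.canonicalEmbedding K (P.coeff i)) s
    · rw [Finset.card_range, nsmul_eq_mul]
      push_cast
      ring
  have hcard : Fintype.card (K →+* ℂ) = n := NumberField.Embeddings.card K ℂ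
  have hinj : Function.Injective (Int.castRingHom ℂ) := Int.cast_injective
  refine ⟨B, ?_, ?_, fun i => ?_, ?_⟩
  · rintro rfl
    rw [Polynomial.map_zero] at hB
    exact pr_ne_zero hne hB.symm
  · rw [← natDegree_map_eq_of_injective hinj, hB]
    exact natDegree_pr_le hdeg
  · have h1 : ‖(pr P).coeff i‖ = |(B.coeff i : ℝ)| := by
      rw [← hB, coeff_map, eq_intCast, Complex.norm_intCast]
    rw [← h1]
    refine (norm_coeff_le_l1 _ i).trans ?_
    unfold pr
    refine (l1_prod_le _ _).trans ?_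
    refine (Finset.prod_le_prod (fun s _ => l1_nonneg _) fun s _ => hl1 s).trans (le_of_eq ?_)
    rw [Finset.prod_const, Finset.card_univ, hcard, ← Real.exp_nat_mul]
  · have h1 : aeval th B = (pr P).eval th := by
      rw [← hB, eval_map]
      rfl
    have hfac : ∀ s : K →+* ℂ, ‖P.eval₂ s th‖ ≤
        Real.exp (h + Real.log (d + 1) + d * Real.log (max 1 ‖th‖)) := by
      intro s
      rw [← eval_map]
      refine (norm_eval_le_l1 _ (natDegree_map_le.trans hdeg) th).trans ?_
      rw [Real.exp_add (h + Real.log (d + 1)), Real.exp_nat_mul, Real.exp_log (by positivity)]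
      have := hl1 s
      gcongr
    rw [h1, eval_pr, norm_prod, ← Finset.mul_prod_erase univ _ (Finset.mem_univ io),
      Real.exp_add]
    have h2 : ∏ s ∈ univ.erase io, ‖P.eval₂ s th‖ ≤
        Real.exp (n * (h + Real.log (d + 1) + d * Real.log (max 1 ‖th‖))) := by
      refine (Finset.prod_le_prod (fun s _ => norm_nonneg _) fun s _ => hfac s).trans ?_
      rw [Finset.prod_const, Finset.card_erase_of_mem (Finset.mem_univ io), Finset.card_univ,
        hcard, Real.exp_nat_mul]
      refine pow_le_pow_right₀ (Real.one_le_exp (by positivity)) (Nat.sub_le _ _)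
    exact mul_le_mul hv h2 (Finset.prod_nonneg fun _ _ => norm_nonneg _) (Real.exp_pos _).le

end GP
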