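import Mathlib
import Pool.Agent.GP.NormPoly
import Pool.Agent.GP.AlgReg

/-! Sizes of integer polynomials, vectors and matrices; the norm step. -/

set_option autoImplicit false

namespace GP

open Polynomial Finset

/-- sum of the absolute values of the coefficients -/
noncomputable def lz (P : ℤ[X]) : ℝ := NP.l1 (P.map (Int.castRingHom ℂ))

lemma lz_nonneg (P : ℤ[X]) : 0 ≤ lz P := NP.l1_nonneg _

lemma lz_zero : lz 0 = 0 := by simp [lz, NP.l1]

lemma lz_add_le (P Q : ℤ[X]) : lz (P + Q) ≤ lz P + lz Q := by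
  unfold lz; rw [Polynomial.map_add]; exact NP.l1_add_le _ _

lemma lz_mul_le (P Q : ℤ[X]) : lz (P * Q) ≤ lz P * lz Q := by
  unfold lz; rw [Polynomial.map_mul]; exact NP.l1_mul_le _ _

lemma lz_sum_le {ι : Type*} (s : Finset ι) (f : ι → ℤ[X]) :
    lz (∑ i ∈ s, f i) ≤ ∑ i ∈ s, lz (f i) := by
  unfold lz; rw [Polynomial.map_sum]; exact NP.l1_sum_le _ _

lemma lz_prod_le {ι : Type*} (s : Finset ι) (f : ι → ℤ[X]) :
    lz (∏ i ∈ s, f i) ≤ ∏ i ∈ s, lz (f i) := by
  unfold lz; rw [Polynomial.map_prod]; exact NP.l1_prod_le _ _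

lemma lz_monomial (n : ℕ) (a : ℤ) : lz (monomial n a) = |(a : ℝ)| := by
  unfold lz
  rw [Polynomial.map_monomial, NP.l1_monomial, eq_intCast, Complex.norm_intCast]

lemma lz_C (a : ℤ) : lz (C a) = |(a : ℝ)| := by rw [← monomial_zero_left, lz_monomial]

lemma lz_one : lz 1 = 1 := by rw [← C_1, lz_C]; simp

lemma lz_X_pow (n : ℕ) : lz (X ^ n) = 1 := by
  rw [← monomial_one_right_eq_X_pow, lz_monomial]; simp

lemma lz_pow_le (P : ℤ[X]) (n : ℕ) : lz (P ^ n) ≤ lz P ^ n := by
  have := lz_prod_le (range n) fun _ => P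
  simpa using this

lemma lz_C_mul_le (a : ℤ) (P : ℤ[X]) : lz (C a * P) ≤ |(a : ℝ)| * lz P := by
  have := lz_mul_le (C a) P
  rwa [lz_C] at this

lemma lz_neg (P : ℤ[X]) : lz (-P) = lz P := by
  apply le_antisymm
  · have := lz_C_mul_le (-1) P
    simpa using this
  · have := lz_C_mul_le (-1) (-P)
    simpa using this

lemma coeff_le_lz (P : ℤ[X]) (i : ℕ) : |(P.coeff i : ℝ)| ≤ lz P := by
  have := NP.norm_coeff_le_l1 (P.map (Int.castRingHom ℂ)) i
  rwa [coeff_map, eq_intCast, Complex.norm_intCast] at this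

lemma norm_aeval_le (P : ℤ[X]) {d : ℕ} (hd : P.natDegree ≤ d) (z : ℂ) :
    ‖aeval z P‖ ≤ lz P * max 1 ‖z‖ ^ d := by
  have := NP.norm_eval_le_l1 (P.map (Int.castRingHom ℂ)) (natDegree_map_le.trans hd) z
  rw [eval_map] at this
  exact this

/-- size of a vector -/
noncomputable def lv {d : ℕ} (v : Fin d → ℤ[X]) : ℝ := ∑ i, lz (v i)

/-- size of a matrix -/
noncomputable def lm {d : ℕ} (M : Matrix (Fin d) (Fin d) ℤ[X]) : ℝ := ∑ i, ∑ j, lz (M i j)

lemma lv_nonneg {d : ℕ} (v : Fin d → ℤ[X]) : 0 ≤ lv v := sum_nonneg fun _ _ => lz_nonneg _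

lemma lm_nonneg {d : ℕ} (M : Matrix (Fin d) (Fin d) ℤ[X]) : 0 ≤ lm M :=
  sum_nonneg fun _ _ => sum_nonneg fun _ _ => lz_nonneg _

lemma lz_le_lv {d : ℕ} (v : Fin d → ℤ[X]) (i : Fin d) : lz (v i) ≤ lv v :=
  single_le_sum (f := fun i => lz (v i)) (fun _ _ => lz_nonneg _) (mem_univ i)

lemma lz_le_lm {d : ℕ} (M : Matrix (Fin d) (Fin d) ℤ[X]) (i j : Fin d) : lz (M i j) ≤ lm M :=
  (single_le_sum (f := fun j => lz (M i j)) (fun _ _ => lz_nonneg _) (mem_univ j)).trans
    (single_le_sum (f := fun i => ∑ j, lz (M i j))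
      (fun _ _ => sum_nonneg fun _ _ => lz_nonneg _) (mem_univ i))

lemma lv_sum_le {d : ℕ} {ι : Type*} (s : Finset ι) (f : ι → Fin d → ℤ[X]) :
    lv (fun i => ∑ k ∈ s, f k i) ≤ ∑ k ∈ s, lv (f k) := by
  unfold lv
  rw [sum_comm]
  exact sum_le_sum fun i _ => lz_sum_le _ _

lemma lv_mul_le {d : ℕ} (P : ℤ[X]) (v : Fin d → ℤ[X]) : lv (fun i => P * v i) ≤ lz P * lv v := by
  unfold lv
  rw [mul_sum]
  exact sum_le_sum fun i _ => lz_mul_le _ _

lemma lv_mulVec_le {d : ℕ} (M : Matrix (Fin d) (Fin d) ℤ[X]) (v : Fin d → ℤ[X]) :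
    lv (fun i => ∑ j, M i j * v j) ≤ lm M * lv v := by
  unfold lv lm
  rw [sum_mul]
  apply sum_le_sum
  intro i _
  refine (lz_sum_le _ _).trans ?_
  rw [sum_mul]
  apply sum_le_sum
  intro j _
  refine (lz_mul_le _ _).trans ?_
  exact mul_le_mul_of_nonneg_left (lz_le_lv v j) (lz_nonneg _)

lemma lz_det_le {d : ℕ} (M : Matrix (Fin d) (Fin d) ℤ[X]) {B : ℝ} (hB : ∀ i j, lz (M i j) ≤ B) :
    lz M.det ≤ (d.factorial : ℝ) * B ^ d := by
  rw [Matrix.det_apply']
  refine (lz_sum_le _ _).trans ?_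
  have h1 : ∀ σ ∈ (univ : Finset (Equiv.Perm (Fin d))),
      lz (((Equiv.Perm.sign σ : ℤ) : ℤ[X]) * ∏ i, M (σ i) i) ≤ B ^ d := by
    intro σ _
    have h2 : lz (∏ i, M (σ i) i) ≤ B ^ d := by
      refine (lz_prod_le _ _).trans ?_
      refine (prod_le_prod (fun _ _ => lz_nonneg _) fun i _ => hB _ _).trans ?_
      rw [prod_const, card_univ, Fintype.card_fin]
    rcases Int.units_eq_one_or (Equiv.Perm.sign σ) with h | h
    · rw [h]; simpa using h2
    · rw [h]
      have : (((-1 : ℤˣ) : ℤ) : ℤ[X]) * ∏ i, M (σ i) i = -∏ i, M (σ i) i := by simp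
      rw [this, lz_neg]; exact h2
  refine (sum_le_sum h1).trans ?_
  rw [sum_const, card_univ, Fintype.card_perm, Fintype.card_fin, nsmul_eq_mul]

lemma natDegree_det_le {d D : ℕ} (M : Matrix (Fin d) (Fin d) ℤ[X])
    (hD : ∀ i j, (M i j).natDegree ≤ D) : M.det.natDegree ≤ d * D := by
  rw [Matrix.det_apply']
  apply natDegree_sum_le_of_forall_le
  intro σ _
  refine (natDegree_mul_le).trans ?_
  have h1 : (((Equiv.Perm.sign σ : ℤ) : ℤ[X])).natDegree = 0 := natDegree_intCast _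
  rw [h1, zero_add]
  refine (natDegree_prod_le _ _).trans ?_
  refine (sum_le_card_nsmul _ _ D fun i _ => hD _ _).trans ?_
  rw [card_univ, Fintype.card_fin, smul_eq_mul]

/-- the norm step -/
theorem norm_step {θ : ℂ} {κ : Type} {x : κ → ℂ} (rr : RegRep θ x) :
    ∃ (D0 : ℕ) (C : ℝ), 1 ≤ C ∧ ∀ (D : ℕ) (S : ℝ), 1 ≤ S → ∀ a : Fin rr.d → ℤ[X],
      (∀ i, (a i).natDegree ≤ D) → (∀ i, lz (a i) ≤ S) →
      ∑ i, aeval θ (a i) * rr.b i ≠ 0 →
      ∃ A : ℤ[X], A ≠ 0 ∧ A.natDegree ≤ rr.d * (D + D0) ∧ lz A ≤ (C * S) ^ rr.d ∧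
        ‖aeval θ A‖ ≤ ‖∑ i, aeval θ (a i) * rr.b i‖ * (C * S * max 1 ‖θ‖ ^ D) ^ rr.d := by
  classical
  obtain ⟨i0, hi0⟩ := rr.hne
  have hd : 0 < rr.d := i0.pos
  set T : ℝ := max 1 ‖θ‖ with hT
  have hT1 : 1 ≤ T := le_max_left _ _
  set D0 : ℕ := univ.sup fun q : Fin rr.d × Fin rr.d × Fin rr.d =>
    (rr.MB q.1 q.2.1 q.2.2).natDegree with hD0
  set S0 : ℝ := 1 + ∑ c, lm (rr.MB c) with hS0
  have hS0' : 1 ≤ S0 := by
    have : 0 ≤ ∑ c, lm (rr.MB c) := sum_nonneg fun _ _ => lm_nonneg _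
    linarith
  set C1 : ℝ := rr.d.factorial * S0 * T ^ D0 with hC1
  have hfac : (1 : ℝ) ≤ rr.d.factorial := by exact_mod_cast Nat.factorial_pos _
  have hC1' : 1 ≤ C1 := by
    calc (1 : ℝ) = 1 * 1 * 1 := by ring
      _ ≤ rr.d.factorial * S0 * T ^ D0 := by
        gcongr
        exact one_le_pow₀ hT1
  set C2 : ℝ := 1 + ‖aeval θ rr.dl‖ * ((∑ j, ‖rr.b j‖) / ‖rr.b i0‖) with hC2
  have hC2' : 1 ≤ C2 := by
    have : 0 ≤ ‖aeval θ rr.dl‖ * ((∑ j, ‖rr.b j‖) / ‖rr.b i0‖) := by positivity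
    linarith
  refine ⟨D0, C1 * C2, ?_, ?_⟩
  · calc (1 : ℝ) = 1 * 1 := by ring
      _ ≤ C1 * C2 := by gcongr
  intro D S hS a haD haS hx
  set y : ℂ := ∑ i, aeval θ (a i) * rr.b i with hy
  let M : Matrix (Fin rr.d) (Fin rr.d) ℤ[X] := fun i j => ∑ c, a c * rr.MB c i j
  have hMdeg : ∀ i j, (M i j).natDegree ≤ D + D0 := by
    intro i j
    apply natDegree_sum_le_of_forall_le
    intro c _
    refine natDegree_mul_le.trans (Nat.add_le_add (haD c) ?_)
    exact le_sup (f := fun q : Fin rr.d × Fin rr.d × Fin rr.d =>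
      (rr.MB q.1 q.2.1 q.2.2).natDegree) (mem_univ (c, i, j))
  have hMS : ∀ i j, lz (M i j) ≤ S0 * S := by
    intro i j
    refine (lz_sum_le _ _).trans ?_
    calc ∑ c, lz (a c * rr.MB c i j) ≤ ∑ c, S * lm (rr.MB c) := by
          apply sum_le_sum
          intro c _
          refine (lz_mul_le _ _).trans ?_
          exact mul_le_mul (haS c) (lz_le_lm _ _ _) (lz_nonneg _) (by linarith)
      _ = S * ∑ c, lm (rr.MB c) := by rw [mul_sum]
      _ ≤ S0 * S := by rw [hS0]; nlinarith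
  -- the eigenvector identity
  have heig : ∀ j, ∑ i, rr.b i * aeval θ (M i j) = (aeval θ rr.dl * y) * rr.b j := by
    intro j
    have h1 : ∀ i, rr.b i * aeval θ (M i j) =
        ∑ c, aeval θ (a c) * (aeval θ (rr.MB c i j) * rr.b i) := by
      intro i
      simp only [M]
      rw [map_sum, mul_sum]
      apply sum_congr rfl
      intro c _
      rw [map_mul]; ring
    rw [sum_congr rfl fun i _ => h1 i, sum_comm, hy, mul_sum, sum_mul]
    apply sum_congr rfl
    intro c _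
    rw [← mul_sum, ← rr.hMB c j]; ring
  -- the determinant is not zero
  have hdet : M.det ≠ 0 := by
    intro h0
    obtain ⟨v, hv, hMv⟩ := Matrix.exists_mulVec_eq_zero_iff.2 h0
    apply hv
    apply rr.hlin
    have h1 : (aeval θ rr.dl * y) * ∑ j, aeval θ (v j) * rr.b j = 0 := by
      calc (aeval θ rr.dl * y) * ∑ j, aeval θ (v j) * rr.b j
          = ∑ j, aeval θ (v j) * ((aeval θ rr.dl * y) * rr.b j) := by
            rw [mul_sum]; apply sum_congr rfl; intro j _; ring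
        _ = ∑ j, aeval θ (v j) * ∑ i, rr.b i * aeval θ (M i j) := by
            apply sum_congr rfl; intro j _; rw [heig j]
        _ = ∑ i, rr.b i * ∑ j, aeval θ (M i j) * aeval θ (v j) := by
            simp_rw [mul_sum]
            rw [sum_comm]
            apply sum_congr rfl; intro i _; apply sum_congr rfl; intro j _; ring
        _ = ∑ i, rr.b i * aeval θ ((M.mulVec v) i) := by
            apply sum_congr rfl
            intro i _
            congr 1
            simp only [Matrix.mulVec, dotProduct]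
            rw [map_sum]
            apply sum_congr rfl; intro j _; rw [map_mul]
        _ = 0 := by rw [hMv]; simp
    rcases mul_eq_zero.1 h1 with h2 | h2
    · exact absurd h2 (mul_ne_zero rr.hdl hx)
    · exact h2
  refine ⟨M.det, hdet, natDegree_det_le M hMdeg, ?_, ?_⟩
  · refine (lz_det_le M hMS).trans ?_
    calc (rr.d.factorial : ℝ) * (S0 * S) ^ rr.d
        ≤ (rr.d.factorial : ℝ) ^ rr.d * (S0 * S) ^ rr.d := by
          gcongr
          exact le_self_pow₀ hfac hd.ne'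
      _ = (rr.d.factorial * S0 * 1 * 1 * S) ^ rr.d := by rw [← mul_pow]; congr 1; ring
      _ ≤ (C1 * C2 * S) ^ rr.d := by
          rw [hC1]
          gcongr
          exact one_le_pow₀ hT1
  · -- the value at θ
    let Mt : Matrix (Fin rr.d) (Fin rr.d) ℂ := M.map (aeval θ)
    have hdetT : aeval θ M.det = Mt.det := by
      have := AlgHom.map_det (aeval θ : ℤ[X] →ₐ[ℤ] ℂ) M
      exact this
    have hent : ∀ i j, ‖Mt i j‖ ≤ S0 * S * T ^ (D + D0) := by
      intro i j
      refine (norm_aeval_le _ (hMdeg i j) θ).trans ?_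
      gcongr
      exact hMS i j
    set Bd : ℝ := S0 * S * T ^ (D + D0) with hBd
    have hBd1 : 1 ≤ Bd := by
      calc (1 : ℝ) = 1 * 1 * 1 := by ring
        _ ≤ S0 * S * T ^ (D + D0) := by
          gcongr
          exact one_le_pow₀ hT1
    have hadj : ∀ i j, ‖Mt.adjugate i j‖ ≤ rr.d.factorial * Bd ^ rr.d := by
      intro i j
      rw [Matrix.adjugate_apply]
      have := Matrix.det_le (A := Mt.updateRow j (Pi.single i 1))
        (abv := (NormedField.toAbsoluteValue ℂ)) (x := Bd) (by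
          intro k l
          by_cases hk : k = j
          · rw [hk, Matrix.updateRow_self]
            by_cases hl : l = i
            · rw [hl]; simpa using hBd1
            · rw [Pi.single_eq_of_ne hl]
              simp only [map_zero]
              linarith
          · rw [Matrix.updateRow_ne hk]
            exact hent k l)
      rw [Fintype.card_fin, nsmul_eq_mul] at this
      exact this
    have hmain : Mt.det * rr.b i0 = (aeval θ rr.dl * y) * ∑ j, rr.b j * Mt.adjugate j i0 := by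
      have h1 : ∑ j, (∑ i, rr.b i * Mt i j) * Mt.adjugate j i0 = Mt.det * rr.b i0 := by
        have h2 : Mt * Mt.adjugate = Mt.det • (1 : Matrix _ _ ℂ) := Matrix.mul_adjugate _
        calc ∑ j, (∑ i, rr.b i * Mt i j) * Mt.adjugate j i0
            = ∑ i, rr.b i * (Mt * Mt.adjugate) i i0 := by
              simp_rw [sum_mul, Matrix.mul_apply, mul_sum]
              rw [sum_comm]
              apply sum_congr rfl; intro i _; apply sum_congr rfl; intro j _; ring
          _ = ∑ i, rr.b i * (Mt.det * (1 : Matrix (Fin rr.d) (Fin rr.d) ℂ) i i0) := by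
              rw [h2]; rfl
          _ = Mt.det * rr.b i0 := by
              rw [sum_eq_single i0]
              · rw [Matrix.one_apply_eq]; ring
              · intro i _ hi
                rw [Matrix.one_apply_ne hi]; ring
              · intro h; exact absurd (mem_univ _) h
      rw [← h1, mul_sum]
      apply sum_congr rfl
      intro j _
      have h3 : ∑ i, rr.b i * Mt i j = (aeval θ rr.dl * y) * rr.b j := heig j
      rw [h3]; ring
    have hb0 : 0 < ‖rr.b i0‖ := norm_pos_iff.2 hi0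
    have h4 : ‖Mt.det‖ * ‖rr.b i0‖ ≤
        (‖aeval θ rr.dl‖ * ‖y‖) * ((∑ j, ‖rr.b j‖) * (rr.d.factorial * Bd ^ rr.d)) := by
      rw [← norm_mul, hmain, norm_mul, norm_mul]
      gcongr
      refine (norm_sum_le _ _).trans ?_
      rw [sum_mul]
      apply sum_le_sum
      intro j _
      rw [norm_mul]
      gcongr
      exact hadj _ _
    have h5 : ‖Mt.det‖ ≤ ‖y‖ * (C2 * (rr.d.factorial * Bd ^ rr.d)) := by
      rw [← le_div_iff₀ hb0] at h4
      refine h4.trans ?_
      have e1 : ‖aeval θ rr.dl‖ * ‖y‖ * ((∑ j, ‖rr.b j‖) * (rr.d.factorial * Bd ^ rr.d)) /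
          ‖rr.b i0‖ = ‖y‖ * ((‖aeval θ rr.dl‖ * ((∑ j, ‖rr.b j‖) / ‖rr.b i0‖)) *
            (rr.d.factorial * Bd ^ rr.d)) := by
        field_simp
      rw [e1]
      gcongr
      rw [hC2]; linarith
    rw [hdetT]
    refine h5.trans ?_
    gcongr
    calc C2 * (rr.d.factorial * Bd ^ rr.d)
        ≤ C2 ^ rr.d * ((rr.d.factorial : ℝ) ^ rr.d * Bd ^ rr.d) := by
          gcongr
          · exact le_self_pow₀ hC2' hd.ne'
          · exact le_self_pow₀ hfac hd.ne'
      _ = (C1 * C2 * S * T ^ D) ^ rr.d := by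
          rw [← mul_pow, ← mul_pow]
          congr 1
          rw [hBd, hC1, pow_add]; ring

end GP
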