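import Mathlib

/-!
Denominators of products of power series whose `ν`-th coefficient has denominator `p^(2ν) ν`.
-/

set_option autoImplicit false

open Finset

namespace GP

/-- `∏_{i=1}^{s} lcm(1..⌊N/i⌋)`. -/
def lcmProd (N s : ℕ) : ℕ := ∏ i ∈ range s, Nat.lcmUpto (N / (i + 1))

theorem lcmProd_pos (N s : ℕ) : 0 < lcmProd N s := prod_pos fun _ _ => Nat.lcmUpto_pos _

theorem lcmProd_succ (N s : ℕ) :
    lcmProd N (s + 1) = lcmProd N s * Nat.lcmUpto (N / (s + 1)) := prod_range_succ _ _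

theorem lcmProd_dvd_of_le (N : ℕ) {s s' : ℕ} (h : s ≤ s') : lcmProd N s ∣ lcmProd N s' :=
  prod_dvd_prod_of_subset _ _ _ (by simpa using h)

/-- A product of `s` positive integers with sum at most `N` divides `lcmProd N s`. -/
theorem prod_dvd_lcmProd {κ : Type*} [DecidableEq κ] (N : ℕ) :
    ∀ (s : ℕ) (S : Finset κ) (ν : κ → ℕ), S.card = s → (∀ x ∈ S, 0 < ν x) →
      ∑ x ∈ S, ν x ≤ N → ∏ x ∈ S, ν x ∣ lcmProd N s := by
  intro s
  induction s with
  | zero =>
    intro S ν hS _ _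
    rw [Finset.card_eq_zero] at hS
    subst hS
    simp
  | succ s ih =>
    intro S ν hS hpos hsum
    have hne : S.Nonempty := by
      rw [← Finset.card_pos, hS]
      exact Nat.succ_pos s
    obtain ⟨m, hm, hmin⟩ := exists_min_image S ν hne
    have h1 : (s + 1) * ν m ≤ N := by
      calc (s + 1) * ν m = ∑ _x ∈ S, ν m := by rw [sum_const, hS, smul_eq_mul]
        _ ≤ ∑ x ∈ S, ν x := sum_le_sum fun x hx => hmin x hx
        _ ≤ N := hsum
    have h2 : ν m ∣ Nat.lcmUpto (N / (s + 1)) := by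
      apply Finset.dvd_lcm (f := id) (b := ν m)
      rw [mem_Icc]
      exact ⟨hpos m hm, (Nat.le_div_iff_mul_le (Nat.succ_pos s)).2 (by rwa [mul_comm] at h1)⟩
    have h3 : ∏ x ∈ S.erase m, ν x ∣ lcmProd N s := by
      apply ih (S.erase m) ν
      · rw [card_erase_of_mem hm, hS]; rfl
      · intro x hx
        exact hpos x (mem_of_mem_erase hx)
      · exact (sum_le_sum_of_subset (erase_subset m S)).trans hsum
    rw [← prod_erase_mul S ν hm, lcmProd_succ]
    exact mul_dvd_mul h3 h2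

section Ring

variable {A : Type*} [CommRing A] (O : Subring A)

theorem natCast_mul_mem_of_dvd {a b : ℕ} (h : a ∣ b) {x : A} (hx : (a : A) * x ∈ O) :
    (b : A) * x ∈ O := by
  obtain ⟨c, rfl⟩ := h
  have : ((a * c : ℕ) : A) * x = (c : A) * ((a : A) * x) := by push_cast; ring
  rw [this]
  exact O.mul_mem (natCast_mem O c) hx

/-- The series `f` has zero constant term and its `ν`-th coefficient has denominator
`p^(2ν) ν`. -/
def HasDen (p : ℕ) (f : PowerSeries A) : Prop :=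
  PowerSeries.coeff 0 f = 0 ∧
    ∀ ν : ℕ, 0 < ν → ((p ^ (2 * ν) * ν : ℕ) : A) * PowerSeries.coeff ν f ∈ O

variable {O}

theorem prod_coeff_mem {κ : Type*} [DecidableEq κ] {p : ℕ} {N : ℕ}
    (S : Finset κ) (f : κ → PowerSeries A) (hf : ∀ x ∈ S, HasDen O p (f x))
    {ν : ℕ} (hν : ν ≤ N) :
    ((p ^ (2 * N) * lcmProd N S.card : ℕ) : A) * PowerSeries.coeff ν (∏ x ∈ S, f x) ∈ O := by
  rw [PowerSeries.coeff_prod, mul_sum]
  apply O.sum_mem
  intro l hl
  rw [mem_finsuppAntidiag] at hl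
  by_cases hz : ∃ x ∈ S, l x = 0
  · obtain ⟨x, hx, hlx⟩ := hz
    have : ∏ i ∈ S, PowerSeries.coeff (l i) (f i) = 0 := by
      apply prod_eq_zero hx
      rw [hlx]
      exact (hf x hx).1
    rw [this, mul_zero]
    exact O.zero_mem
  · push Not at hz
    have hz' : ∀ x ∈ S, 0 < l x := fun x hx => Nat.pos_of_ne_zero (hz x hx)
    have h1 : ((∏ x ∈ S, (p ^ (2 * l x) * l x) : ℕ) : A) *
        ∏ i ∈ S, PowerSeries.coeff (l i) (f i) ∈ O := by
      rw [Nat.cast_prod, ← prod_mul_distrib]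
      exact O.prod_mem fun x hx => (hf x hx).2 (l x) (hz' x hx)
    refine natCast_mul_mem_of_dvd O ?_ h1
    rw [prod_mul_distrib]
    apply mul_dvd_mul
    · rw [prod_pow_eq_pow_sum]
      apply pow_dvd_pow
      rw [← mul_sum]
      have : ∑ x ∈ S, l x = ν := hl.1
      omega
    · apply prod_dvd_lcmProd N S.card S (fun x => l x) rfl hz'
      have : ∑ x ∈ S, l x = ν := hl.1
      omega

theorem mul_prod_coeff_mem {κ : Type*} [DecidableEq κ] {p : ℕ} {N s : ℕ}
    (S : Finset κ) (hS : S.card ≤ s) (f : κ → PowerSeries A) (hf : ∀ x ∈ S, HasDen O p (f x))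
    (X : PowerSeries A) (hX : ∀ ν, PowerSeries.coeff ν X ∈ O)
    {ν : ℕ} (hν : ν ≤ N) :
    ((p ^ (2 * N) * lcmProd N s : ℕ) : A) * PowerSeries.coeff ν (X * ∏ x ∈ S, f x) ∈ O := by
  rw [PowerSeries.coeff_mul, mul_sum]
  apply O.sum_mem
  intro a ha
  rw [Finset.HasAntidiagonal.mem_antidiagonal] at ha
  rw [mul_left_comm]
  apply O.mul_mem (hX _)
  refine natCast_mul_mem_of_dvd O ?_ (prod_coeff_mem S f hf (N := N) (ν := a.2) (by omega))
  exact mul_dvd_mul_left _ (lcmProd_dvd_of_le N hS)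

/-- The denominator bound for a product of factors `f_x + b_x` with `f_x` as above and constants
`b_x` with `D b_x` integral. -/
theorem mul_prod_add_coeff_mem {κ : Type*} [DecidableEq κ] {p D : ℕ} {N s : ℕ}
    (S : Finset κ) (hS : S.card ≤ s) (f : κ → PowerSeries A) (hf : ∀ x ∈ S, HasDen O p (f x))
    (b : κ → A) (hb : ∀ x ∈ S, (D : A) * b x ∈ O)
    (X : PowerSeries A) (hX : ∀ ν, PowerSeries.coeff ν X ∈ O)
    {ν : ℕ} (hν : ν ≤ N) :
    ((D ^ s * (p ^ (2 * N) * lcmProd N s) : ℕ) : A) *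
      PowerSeries.coeff ν (X * ∏ x ∈ S, (f x + PowerSeries.C (b x))) ∈ O := by
  rw [prod_add, mul_sum, map_sum, mul_sum]
  apply O.sum_mem
  intro R hR
  rw [mem_powerset] at hR
  have e1 : X * ((∏ x ∈ R, f x) * ∏ x ∈ S \ R, PowerSeries.C (b x)) =
      PowerSeries.C (∏ x ∈ S \ R, b x) * (X * ∏ x ∈ R, f x) := by
    rw [map_prod]; ring
  rw [e1, PowerSeries.coeff_C_mul]
  have e2 : ((D ^ s * (p ^ (2 * N) * lcmProd N s) : ℕ) : A) *
      ((∏ x ∈ S \ R, b x) * PowerSeries.coeff ν (X * ∏ x ∈ R, f x)) =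
      (((D ^ s : ℕ) : A) * ∏ x ∈ S \ R, b x) *
        (((p ^ (2 * N) * lcmProd N s : ℕ) : A) * PowerSeries.coeff ν (X * ∏ x ∈ R, f x)) := by
    push_cast; ring
  rw [e2]
  apply O.mul_mem
  · have h1 : ((D ^ (S \ R).card : ℕ) : A) * ∏ x ∈ S \ R, b x ∈ O := by
      have : ((D ^ (S \ R).card : ℕ) : A) * ∏ x ∈ S \ R, b x = ∏ x ∈ S \ R, ((D : A) * b x) := by
        rw [prod_mul_distrib, prod_const]; push_cast; rfl
      rw [this]
      exact O.prod_mem fun x hx => hb x (mem_sdiff.1 hx).1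
    refine natCast_mul_mem_of_dvd O ?_ h1
    exact pow_dvd_pow _ ((card_le_card sdiff_subset).trans hS)
  · exact mul_prod_coeff_mem R ((card_le_card hR).trans hS) f (fun x hx => hf x (hR hx)) X hX hν

end Ring

/-- Size of the denominator. -/
theorem log_lcmProd_le (N s : ℕ) :
    Real.log (lcmProd N s) ≤ (Real.log 4 + 4) * N * (1 + Real.log (s + 1)) := by
  have h4 : (0 : ℝ) ≤ Real.log 4 + 4 := by
    have := Real.log_nonneg (by norm_num : (1 : ℝ) ≤ 4)
    linarith
  have h1 : Real.log (lcmProd N s) = ∑ i ∈ range s, Chebyshev.psi ((N / (i + 1) : ℕ) : ℝ) := by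
    unfold lcmProd
    push_cast
    rw [Real.log_prod]
    · exact sum_congr rfl fun i _ => (Chebyshev.psi_eq_log_lcmUpto _).symm
    · intro i _
      exact_mod_cast (Nat.lcmUpto_pos _).ne'
  have h2 : ∑ i ∈ range s, Chebyshev.psi ((N / (i + 1) : ℕ) : ℝ) ≤
      ∑ i ∈ range s, (Real.log 4 + 4) * N * ((i : ℝ) + 1)⁻¹ := by
    apply sum_le_sum
    intro i _
    refine (Chebyshev.psi_le_const_mul_self (Nat.cast_nonneg _)).trans ?_
    rw [mul_assoc]
    apply mul_le_mul_of_nonneg_left _ h4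
    have := @Nat.cast_div_le ℝ _ _ _ N (i + 1)
    push_cast at this
    rwa [div_eq_mul_inv] at this
  have h3 : ∑ i ∈ range s, ((i : ℝ) + 1)⁻¹ ≤ 1 + Real.log (s + 1) := by
    have h := harmonic_le_one_add_log s
    have e : ((harmonic s : ℚ) : ℝ) = ∑ i ∈ range s, ((i : ℝ) + 1)⁻¹ := by
      unfold harmonic
      push_cast
      rfl
    rw [← e]
    refine h.trans ?_
    rcases Nat.eq_zero_or_pos s with hs | hs
    · subst hs; simp
    · have : Real.log (s : ℝ) ≤ Real.log ((s : ℝ) + 1) :=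
        Real.log_le_log (by exact_mod_cast hs) (by linarith)
      linarith
  rw [h1]
  refine h2.trans ?_
  rw [← mul_sum]
  exact mul_le_mul_of_nonneg_left h3 (mul_nonneg h4 (Nat.cast_nonneg _))

end GP
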