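import Mathlib

/-!
Siegel's lemma over the ring of integers of a number field, for systems with at least twice as
many unknowns as equations.
-/

set_option autoImplicit false

open Finset NumberField Matrix

namespace GP

theorem siegel_aux (K : Type*) [Field K] [NumberField K] :
    ∃ c : ℝ, ∀ (α β : Type) [Fintype α] [Fintype β] (a : Matrix α β (𝓞 K)) (p q : ℕ) (A : ℝ),
      a ≠ 0 → 0 < p → p < q → Fintype.card α = p → Fintype.card β = q →
      (∀ k l, house ((algebraMap (𝓞 K) K) (a k l)) ≤ A) →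
      ∃ ξ : β → 𝓞 K, ξ ≠ 0 ∧ a *ᵥ ξ = 0 ∧
        ∀ l, house (ξ l).1 ≤ c * ((c * q * A) ^ ((p : ℝ) / (q - p))) := by
  classical
  exact ⟨_, fun α β _ _ a p q A ha hp hpq hα hβ habs =>
    NumberField.house.exists_ne_zero_int_vec_house_le K a ha hp hpq hβ habs hα⟩

theorem house_one' (K : Type*) [Field K] [NumberField K] : house (1 : K) = 1 := by
  have := house_intCast (K := K) 1
  simpa using this

theorem siegel_aux' (K : Type*) [Field K] [NumberField K] :
    ∃ c : ℝ, 0 ≤ c ∧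
      ∀ (α β : Type) [Fintype α] [Fintype β] (a : Matrix α β (𝓞 K)) (p q : ℕ) (A : ℝ),
      a ≠ 0 → 0 < p → p < q → Fintype.card α = p → Fintype.card β = q →
      (∀ k l, house ((algebraMap (𝓞 K) K) (a k l)) ≤ A) →
      ∃ ξ : β → 𝓞 K, ξ ≠ 0 ∧ a *ᵥ ξ = 0 ∧
        ∀ l, house (ξ l).1 ≤ c * ((c * q * A) ^ ((p : ℝ) / (q - p))) := by
  obtain ⟨c, hc⟩ := siegel_aux K
  refine ⟨c, ?_, hc⟩
  by_contra hneg
  push Not at hneg
  obtain ⟨ξ, hξ0, -, hξb⟩ := hc (Fin 1) (Fin 3) (fun _ _ => 1) 1 3 1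
    (fun h => one_ne_zero (congrFun (congrFun h 0) 0)) one_pos (by norm_num)
    (Fintype.card_fin 1) (Fintype.card_fin 3)
    (fun k l => by rw [map_one]; exact (house_one' K).le)
  obtain ⟨x, hx⟩ : ∃ x, ξ x ≠ 0 := by
    by_contra hcon
    push Not at hcon
    exact hξ0 (funext hcon)
  have h2 : 1 ≤ house (ξ x).1 :=
    one_le_house_of_isIntegral (ξ x).2 (fun h => hx (Subtype.ext h))
  have h3 := hξb x
  have h4 : (c * ((3 : ℕ) : ℝ) * 1) ^ (((1 : ℕ) : ℝ) / (((3 : ℕ) : ℝ) - ((1 : ℕ) : ℝ))) = 0 := by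
    have hb : c * ((3 : ℕ) : ℝ) * 1 < 0 := by
      push_cast
      linarith
    rw [Real.rpow_def_of_neg hb]
    have : (((1 : ℕ) : ℝ) / (((3 : ℕ) : ℝ) - ((1 : ℕ) : ℝ))) * Real.pi = Real.pi / 2 := by
      push_cast
      ring
    rw [this, Real.cos_pi_div_two, mul_zero]
  rw [h4, mul_zero] at h3
  linarith

/-- Siegel's lemma with at least twice as many unknowns as equations. -/
theorem siegel (K : Type*) [Field K] [NumberField K] :
    ∃ c : ℝ, 1 ≤ c ∧ ∀ (α β : Type) [Fintype α] [Fintype β] (a : Matrix α β (𝓞 K)) (A : ℝ),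
      1 ≤ A → 0 < Fintype.card β → 2 * Fintype.card α ≤ Fintype.card β →
      (∀ k l, house ((algebraMap (𝓞 K) K) (a k l)) ≤ A) →
      ∃ ξ : β → 𝓞 K, ξ ≠ 0 ∧ a *ᵥ ξ = 0 ∧ ∀ l, house (ξ l).1 ≤ c * Fintype.card β * A := by
  obtain ⟨c, hc0, hc⟩ := siegel_aux' K
  refine ⟨(max 1 c) ^ 2, one_le_pow₀ (le_max_left _ _), ?_⟩
  intro α β _ _ a A hA hβ hαβ habs
  have hβ1 : (1 : ℝ) ≤ Fintype.card β := by exact_mod_cast hβ
  have hc1 : (1 : ℝ) ≤ max 1 c := le_max_left _ _
  by_cases ha : a = 0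
  · refine ⟨fun _ => 1, ?_, ?_, ?_⟩
    · intro h
      obtain ⟨l⟩ := Fintype.card_pos_iff.1 hβ
      exact one_ne_zero (congrFun h l)
    · rw [ha, Matrix.zero_mulVec]
    · intro l
      change house (1 : K) ≤ _
      rw [house_one']
      calc (1 : ℝ) = 1 * 1 * 1 := by ring
        _ ≤ (max 1 c) ^ 2 * Fintype.card β * A := by
          gcongr
          exact one_le_pow₀ hc1
  · -- there is an equation
    have hα : 0 < Fintype.card α := by
      rw [Fintype.card_pos_iff]
      by_contra hne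
      rw [not_nonempty_iff] at hne
      exact ha (Matrix.ext fun k => (hne.false k).elim)
    obtain ⟨ξ, hξ0, hξ, hξb⟩ := hc α β a _ _ A ha hα (by omega) rfl rfl habs
    refine ⟨ξ, hξ0, hξ, fun l => (hξb l).trans ?_⟩
    have hPQ : 2 * (Fintype.card α : ℝ) ≤ Fintype.card β := by exact_mod_cast hαβ
    have hP0 : 0 < (Fintype.card α : ℝ) := by exact_mod_cast hα
    generalize (Fintype.card α : ℝ) = P at *
    generalize (Fintype.card β : ℝ) = Q at *
    have hexp : P / (Q - P) ≤ 1 := by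
      rw [div_le_one (by linarith)]
      linarith
    have hexp0 : 0 ≤ P / (Q - P) := div_nonneg hP0.le (by linarith)
    have hb : (1 : ℝ) ≤ max 1 c * Q * A := by
      calc (1 : ℝ) = 1 * 1 * 1 := by ring
        _ ≤ max 1 c * Q * A := by gcongr
    have hle : (c * Q * A) ^ (P / (Q - P)) ≤ max 1 c * Q * A := by
      calc (c * Q * A) ^ (P / (Q - P)) ≤ (max 1 c * Q * A) ^ (P / (Q - P)) := by
              apply Real.rpow_le_rpow (by positivity) _ hexp0
              gcongr
              exact le_max_right _ _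
          _ ≤ (max 1 c * Q * A) ^ (1 : ℝ) := Real.rpow_le_rpow_of_exponent_le hb hexp
          _ = max 1 c * Q * A := Real.rpow_one _
    calc c * (c * Q * A) ^ (P / (Q - P)) ≤ max 1 c * (max 1 c * Q * A) := by
            gcongr
            exact le_max_right _ _
      _ = (max 1 c) ^ 2 * Q * A := by ring

end GP
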