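import Mathlib
import Pool.Agent.GP.ArSiegel

/-!
Submultiplicative norms: the sum of the houses of the coefficients of a polynomial over a number
field, and truncated weighted norms of power series over a seminormed ring.
-/

set_option autoImplicit false

open Finset NumberField Polynomial

namespace GP

section PS

variable {A : Type*} [CommRing A] (μ : RingSeminorm A)

/-- Truncated weighted norm `∑_{i ≤ N} μ(f_i) 2^{-i}`. -/
noncomputable def wS (N : ℕ) (f : PowerSeries A) : ℝ :=
  ∑ i ∈ range (N + 1), μ (PowerSeries.coeff i f) * (1 / 2 : ℝ) ^ i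

theorem wS_nonneg (N : ℕ) (f : PowerSeries A) : 0 ≤ wS μ N f :=
  sum_nonneg fun _ _ => mul_nonneg (apply_nonneg μ _) (by positivity)

theorem coeff_le_wS {N ν : ℕ} (hν : ν ≤ N) (f : PowerSeries A) :
    μ (PowerSeries.coeff ν f) ≤ 2 ^ ν * wS μ N f := by
  have h1 : μ (PowerSeries.coeff ν f) * (1 / 2 : ℝ) ^ ν ≤ wS μ N f :=
    single_le_sum (f := fun i => μ (PowerSeries.coeff i f) * (1 / 2 : ℝ) ^ i)
      (fun _ _ => mul_nonneg (apply_nonneg μ _) (by positivity)) (by simpa using by omega)
  have h2 : (2 : ℝ) ^ ν * (1 / 2 : ℝ) ^ ν = 1 := by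
    rw [← mul_pow]; norm_num
  calc μ (PowerSeries.coeff ν f) = 2 ^ ν * (μ (PowerSeries.coeff ν f) * (1 / 2 : ℝ) ^ ν) := by
        rw [mul_left_comm, h2, mul_one]
    _ ≤ 2 ^ ν * wS μ N f := by gcongr

theorem wS_add_le (N : ℕ) (f g : PowerSeries A) : wS μ N (f + g) ≤ wS μ N f + wS μ N g := by
  unfold wS
  rw [← sum_add_distrib]
  apply sum_le_sum
  intro i _
  rw [← add_mul, map_add]
  gcongr
  exact map_add_le_add μ _ _

theorem wS_sum_le {κ : Type*} (N : ℕ) (S : Finset κ) (f : κ → PowerSeries A) :
    wS μ N (∑ x ∈ S, f x) ≤ ∑ x ∈ S, wS μ N (f x) := by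
  classical
  induction S using Finset.induction_on with
  | empty => simp [wS]
  | insert a S ha ih =>
    rw [sum_insert ha, sum_insert ha]
    exact (wS_add_le μ N _ _).trans (by gcongr)

theorem sn_sum_le {κ : Type*} (S : Finset κ) (f : κ → A) :
    μ (∑ x ∈ S, f x) ≤ ∑ x ∈ S, μ (f x) := by
  classical
  induction S using Finset.induction_on with
  | empty => simp
  | insert a S ha ih =>
    rw [sum_insert ha, sum_insert ha]
    exact (map_add_le_add μ _ _).trans (by gcongr)

theorem wS_mul_le (N : ℕ) (f g : PowerSeries A) : wS μ N (f * g) ≤ wS μ N f * wS μ N g := by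
  classical
  unfold wS
  rw [sum_mul_sum, ← sum_product']
  set F : ℕ × ℕ → ℝ := fun x => μ (PowerSeries.coeff x.1 f) * (1 / 2 : ℝ) ^ x.1 *
    (μ (PowerSeries.coeff x.2 g) * (1 / 2 : ℝ) ^ x.2) with hF
  have hF0 : ∀ x, 0 ≤ F x := fun x =>
    mul_nonneg (mul_nonneg (apply_nonneg μ _) (by positivity))
      (mul_nonneg (apply_nonneg μ _) (by positivity))
  have h1 : ∀ i ∈ range (N + 1), μ (PowerSeries.coeff i (f * g)) * (1 / 2 : ℝ) ^ i ≤
      ∑ x ∈ (range (N + 1) ×ˢ range (N + 1)) with x.1 + x.2 = i, F x := by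
    intro i hi
    rw [mem_range] at hi
    have e1 : (range (N + 1) ×ˢ range (N + 1)).filter (fun x => x.1 + x.2 = i) =
        HasAntidiagonal.antidiagonal i := by
      ext x
      simp only [mem_filter, mem_product, mem_range, HasAntidiagonal.mem_antidiagonal]
      omega
    rw [e1, PowerSeries.coeff_mul]
    have h2 : μ (∑ x ∈ HasAntidiagonal.antidiagonal i,
        PowerSeries.coeff x.1 f * PowerSeries.coeff x.2 g) ≤
        ∑ x ∈ HasAntidiagonal.antidiagonal i,
          μ (PowerSeries.coeff x.1 f) * μ (PowerSeries.coeff x.2 g) := by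
      refine (sn_sum_le μ _ _).trans ?_
      exact sum_le_sum fun x _ => map_mul_le_mul μ _ _
    calc μ (∑ x ∈ HasAntidiagonal.antidiagonal i,
        PowerSeries.coeff x.1 f * PowerSeries.coeff x.2 g) * (1 / 2 : ℝ) ^ i
        ≤ (∑ x ∈ HasAntidiagonal.antidiagonal i,
          μ (PowerSeries.coeff x.1 f) * μ (PowerSeries.coeff x.2 g)) * (1 / 2 : ℝ) ^ i := by
          gcongr
      _ = ∑ x ∈ HasAntidiagonal.antidiagonal i, F x := by
          rw [sum_mul]
          apply sum_congr rfl
          intro x hx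
          rw [HasAntidiagonal.mem_antidiagonal] at hx
          rw [hF, ← hx, pow_add]
          ring
  refine (sum_le_sum h1).trans ?_
  rw [← sum_filter_add_sum_filter_not (range (N + 1) ×ˢ range (N + 1))
    (fun x => x.1 + x.2 ∈ range (N + 1)) F]
  have h3 : ∑ i ∈ range (N + 1), ∑ x ∈ (range (N + 1) ×ˢ range (N + 1)) with x.1 + x.2 = i, F x =
      ∑ x ∈ (range (N + 1) ×ˢ range (N + 1)).filter (fun x => x.1 + x.2 ∈ range (N + 1)), F x := by
    rw [← sum_fiberwise_of_maps_to (s := (range (N + 1) ×ˢ range (N + 1)).filter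
      (fun x => x.1 + x.2 ∈ range (N + 1))) (t := range (N + 1)) (g := fun x => x.1 + x.2)
      (fun x hx => (mem_filter.1 hx).2) F]
    apply sum_congr rfl
    intro i hi
    apply sum_congr _ fun _ _ => rfl
    ext x
    simp only [mem_filter, mem_product, mem_range]
    rw [mem_range] at hi
    constructor
    · rintro ⟨h, h'⟩
      exact ⟨⟨h, by omega⟩, h'⟩
    · rintro ⟨⟨h, -⟩, h'⟩
      exact ⟨h, h'⟩
  rw [h3]
  exact le_add_of_nonneg_right (sum_nonneg fun x _ => hF0 x)

theorem wS_C_le (N : ℕ) (a : A) : wS μ N (PowerSeries.C a) ≤ μ a := by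
  unfold wS
  rw [sum_range_succ']
  have h0 : ∑ k ∈ range N, μ (PowerSeries.coeff (k + 1) (PowerSeries.C a)) * (1 / 2 : ℝ) ^ (k + 1)
      = 0 := by
    apply sum_eq_zero
    intro k _
    rw [PowerSeries.coeff_C, if_neg (Nat.succ_ne_zero k), map_zero, zero_mul]
  rw [h0, zero_add, PowerSeries.coeff_C, if_pos rfl, pow_zero, mul_one]

theorem wS_prod_le (hμ : μ 1 ≤ 1) {κ : Type*} (N : ℕ) (S : Finset κ) (f : κ → PowerSeries A) :
    wS μ N (∏ x ∈ S, f x) ≤ ∏ x ∈ S, wS μ N (f x) := by
  classical
  induction S using Finset.induction_on with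
  | empty =>
    rw [prod_empty, prod_empty]
    have := wS_C_le μ N (1 : A)
    rw [map_one] at this
    exact this.trans hμ
  | insert a S ha ih =>
    rw [prod_insert ha, prod_insert ha]
    exact (wS_mul_le μ N _ _).trans (mul_le_mul_of_nonneg_left ih (wS_nonneg μ N _))

theorem wS_pow_le (hμ : μ 1 ≤ 1) (N k : ℕ) (f : PowerSeries A) :
    wS μ N (f ^ k) ≤ wS μ N f ^ k := by
  have := wS_prod_le μ hμ N (range k) (fun _ => f)
  simpa using this

end PS

section Poly

variable (K : Type*) [Field K] [NumberField K]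

theorem house_zero' : house (0 : K) = 0 := by
  simp [house]

theorem house_neg' (a : K) : house (-a) = house a := by
  simp [house]

theorem polyH_eq (f : K[X]) (S : Finset ℕ) (h : f.support ⊆ S) :
    ∑ k ∈ S, house (f.coeff k) = ∑ k ∈ f.support, house (f.coeff k) := by
  refine (sum_subset h ?_).symm
  intro k _ hk
  rw [notMem_support_iff.1 hk, house_zero']

/-- The sum of the houses of the coefficients. -/
noncomputable def polyH : RingSeminorm K[X] where
  toFun f := ∑ k ∈ f.support, house (f.coeff k)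
  map_zero' := by simp
  add_le' f g := by
    rw [← polyH_eq K (f + g) (f.support ∪ g.support) support_add,
      ← polyH_eq K f (f.support ∪ g.support) subset_union_left,
      ← polyH_eq K g (f.support ∪ g.support) subset_union_right, ← sum_add_distrib]
    apply sum_le_sum
    intro k _
    rw [coeff_add]
    exact house_add_le _ _
  neg' f := by
    rw [support_neg]
    apply sum_congr rfl
    intro k _
    rw [coeff_neg, house_neg']
  mul_le' f g := by
    have hadd : ∀ (S : Finset ℕ) (F : ℕ → K[X]),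
        (∑ k ∈ (∑ i ∈ S, F i).support, house ((∑ i ∈ S, F i).coeff k)) ≤
        ∑ i ∈ S, ∑ k ∈ (F i).support, house ((F i).coeff k) := by
      intro S F
      classical
      induction S using Finset.induction_on with
      | empty => simp
      | insert a S ha ih =>
        rw [sum_insert ha, sum_insert ha]
        refine le_trans ?_ (add_le_add_right ih _)
        set G := ∑ i ∈ S, F i
        rw [← polyH_eq K (F a + G) ((F a).support ∪ G.support) support_add,
          ← polyH_eq K (F a) ((F a).support ∪ G.support) subset_union_left,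
          ← polyH_eq K G ((F a).support ∪ G.support) subset_union_right, ← sum_add_distrib]
        apply sum_le_sum
        intro k _
        rw [coeff_add]
        exact house_add_le _ _
    rw [Polynomial.mul_eq_sum_sum]
    refine (hadd _ _).trans ?_
    rw [sum_mul_sum]
    apply sum_le_sum
    intro i _
    rw [Polynomial.sum_def]
    refine (hadd _ _).trans ?_
    apply sum_le_sum
    intro j _
    rw [← polyH_eq K _ {i + j} (support_monomial_subset _ _), sum_singleton, coeff_monomial_same]
    exact house_mul_le _ _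

variable {K}

theorem polyH_apply (f : K[X]) : polyH K f = ∑ k ∈ f.support, house (f.coeff k) := rfl

theorem house_coeff_le (f : K[X]) (k : ℕ) : house (f.coeff k) ≤ polyH K f := by
  rw [polyH_apply]
  by_cases hk : k ∈ f.support
  · exact single_le_sum (f := fun k => house (f.coeff k)) (fun _ _ => house_nonneg _) hk
  · rw [notMem_support_iff.1 hk, house_zero']
    exact sum_nonneg fun _ _ => house_nonneg _

theorem polyH_monomial (k : ℕ) (a : K) : polyH K (monomial k a) ≤ house a := by
  rw [polyH_apply, ← polyH_eq K _ {k} (support_monomial_subset _ _), sum_singleton,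
    coeff_monomial_same]

theorem polyH_C (a : K) : polyH K (C a) ≤ house a := by
  rw [← monomial_zero_left]
  exact polyH_monomial 0 a

theorem polyH_X_pow (k : ℕ) : polyH K (X ^ k) ≤ 1 := by
  rw [← monomial_one_right_eq_X_pow]
  exact (polyH_monomial k 1).trans (house_one' K).le

theorem polyH_one : polyH K 1 ≤ 1 := by
  have := polyH_X_pow (K := K) 0
  rwa [pow_zero] at this

theorem polyH_natCast_mul (n : ℕ) (f : K[X]) : polyH K ((n : K[X]) * f) ≤ n * polyH K f := by
  refine (map_mul_le_mul (polyH K) _ _).trans ?_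
  gcongr
  have h : ((n : ℕ) : K[X]) = C (n : K) := by simp
  rw [h]
  refine (polyH_C _).trans ?_
  have := house_intCast (K := K) (n : ℤ)
  push_cast at this
  rw [this]
  simp

/-- The value of a polynomial at a complex number. -/
theorem norm_eval_le (ι : K →+* ℂ) (θ : ℂ) (f : K[X]) {d : ℕ} (hd : f.natDegree ≤ d) :
    ‖f.eval₂ ι θ‖ ≤ polyH K f * (max 1 ‖θ‖) ^ d := by
  rw [eval₂_eq_sum, Polynomial.sum_def, polyH_apply, sum_mul]
  refine (norm_sum_le _ _).trans ?_
  apply sum_le_sum
  intro k hk
  rw [norm_mul, norm_pow]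
  have h1 : ‖θ‖ ^ k ≤ (max 1 ‖θ‖) ^ d := by
    calc ‖θ‖ ^ k ≤ (max 1 ‖θ‖) ^ k := by gcongr; exact le_max_right _ _
      _ ≤ (max 1 ‖θ‖) ^ d :=
        pow_le_pow_right₀ (le_max_left _ _) ((le_natDegree_of_mem_supp k hk).trans hd)
  exact mul_le_mul (norm_embedding_le_house _ _) h1 (by positivity) (house_nonneg _)

end Poly

end GP
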