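import Mathlib
import Pool.Agent.GP.AlgSize
import Pool.Agent.GP.ArDen
import Pool.Agent.GP.ArNorm

/-! The linear forms with coefficients in Z[X] for the coefficients of the auxiliary series. -/

set_option autoImplicit false

namespace GP

open Polynomial Finset

variable {θ : ℂ} {κ : Type} {x : κ → ℂ}

lemma aeval_Cz (z : ℂ) (n : ℤ) : aeval z (C n : ℤ[X]) = (n : ℂ) := by
  rw [aeval_C]; simp

/-- degree constant of a regular representation -/
def RegRep.D0 [Fintype κ] (rr : RegRep θ x) : ℕ :=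
  max rr.dl.natDegree (univ.sup fun q : κ × Fin rr.d × Fin rr.d => (rr.M q.1 q.2.1 q.2.2).natDegree)

/-- size constant of a regular representation -/
noncomputable def RegRep.S0 [Fintype κ] (rr : RegRep θ x) : ℝ :=
  1 + lz rr.dl + ∑ k, lm (rr.M k)

lemma RegRep.dl_deg [Fintype κ] (rr : RegRep θ x) : rr.dl.natDegree ≤ rr.D0 := le_max_left _ _

lemma RegRep.M_deg [Fintype κ] (rr : RegRep θ x) (k : κ) (i j : Fin rr.d) :
    (rr.M k i j).natDegree ≤ rr.D0 :=
  (le_sup (f := fun q : κ × Fin rr.d × Fin rr.d => (rr.M q.1 q.2.1 q.2.2).natDegree)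
    (mem_univ (k, i, j))).trans (le_max_right _ _)

lemma RegRep.one_le_S0 [Fintype κ] (rr : RegRep θ x) : 1 ≤ rr.S0 := by
  have h1 := lz_nonneg rr.dl
  have h2 : 0 ≤ ∑ k, lm (rr.M k) := sum_nonneg fun _ _ => lm_nonneg _
  unfold RegRep.S0; linarith

lemma RegRep.dl_le [Fintype κ] (rr : RegRep θ x) : lz rr.dl ≤ rr.S0 := by
  have h2 : 0 ≤ ∑ k, lm (rr.M k) := sum_nonneg fun _ _ => lm_nonneg _
  unfold RegRep.S0; linarith

lemma RegRep.M_le [Fintype κ] (rr : RegRep θ x) (k : κ) : lm (rr.M k) ≤ rr.S0 := by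
  have h1 := lz_nonneg rr.dl
  have h2 : lm (rr.M k) ≤ ∑ k, lm (rr.M k) :=
    single_le_sum (f := fun k => lm (rr.M k)) (fun _ _ => lm_nonneg _) (mem_univ k)
  unfold RegRep.S0; linarith

/-- products of integral linear combinations of the `x k` -/
lemma prod_repr [Fintype κ] (rr : RegRep θ x) {σ : Type} [DecidableEq σ] (S : Finset σ)
    (u : σ → κ → ℤ) {U : ℝ} (hU : 1 ≤ U) (hu : ∀ q ∈ S, ∑ k, |(u q k : ℝ)| ≤ U) (c : Fin rr.d) :
    ∃ V : Fin rr.d → ℤ[X], (∀ i, (V i).natDegree ≤ S.card * rr.D0) ∧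
      lv V ≤ (rr.S0 * U) ^ S.card ∧
      aeval θ rr.dl ^ S.card * (∏ q ∈ S, ∑ k, (u q k : ℂ) * x k) * rr.b c =
        ∑ i, aeval θ (V i) * rr.b i := by
  classical
  have hS0 := rr.one_le_S0
  induction S using Finset.induction_on with
  | empty =>
    refine ⟨Pi.single c 1, ?_, ?_, ?_⟩
    · intro i
      by_cases h : i = c
      · rw [h, Pi.single_eq_same]; simp
      · rw [Pi.single_eq_of_ne h]; simp
    · unfold lv
      rw [sum_eq_single c]
      · rw [Pi.single_eq_same, lz_one]; simp
      · intro i _ h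
        rw [Pi.single_eq_of_ne h, lz_zero]
      · intro h; exact absurd (mem_univ _) h
    · rw [sum_eq_single c]
      · rw [Pi.single_eq_same]; simp
      · intro i _ h
        rw [Pi.single_eq_of_ne h]; simp
      · intro h; exact absurd (mem_univ _) h
  | insert q S hq ih =>
    obtain ⟨V, hV1, hV2, hV3⟩ := ih fun q' h => hu q' (mem_insert_of_mem h)
    refine ⟨fun i => ∑ k, C (u q k) * ∑ j, rr.M k i j * V j, ?_, ?_, ?_⟩
    · intro i
      rw [card_insert_of_notMem hq]
      apply natDegree_sum_le_of_forall_le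
      intro k _
      refine (natDegree_C_mul_le _ _).trans ?_
      apply natDegree_sum_le_of_forall_le
      intro j _
      refine natDegree_mul_le.trans ?_
      have h1 := rr.M_deg k i j
      have h2 := hV1 j
      rw [add_mul, one_mul]; omega
    · rw [card_insert_of_notMem hq]
      refine (lv_sum_le univ fun k i => C (u q k) * ∑ j, rr.M k i j * V j).trans ?_
      calc ∑ k, lv (fun i => C (u q k) * ∑ j, rr.M k i j * V j)
          ≤ ∑ k, |(u q k : ℝ)| * (rr.S0 * (rr.S0 * U) ^ S.card) := by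
            apply sum_le_sum
            intro k _
            refine (lv_mul_le _ _).trans ?_
            rw [lz_C]
            apply mul_le_mul_of_nonneg_left _ (abs_nonneg _)
            refine (lv_mulVec_le _ _).trans ?_
            exact mul_le_mul (rr.M_le k) hV2 (lv_nonneg _) (by linarith)
        _ = (∑ k, |(u q k : ℝ)|) * (rr.S0 * (rr.S0 * U) ^ S.card) := by rw [sum_mul]
        _ ≤ U * (rr.S0 * (rr.S0 * U) ^ S.card) := by
            gcongr
            exact hu q (mem_insert_self _ _)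
        _ = (rr.S0 * U) ^ (S.card + 1) := by rw [pow_succ]; ring
    · rw [card_insert_of_notMem hq, prod_insert hq]
      have h1 : ∀ k, aeval θ rr.dl * x k * ∑ j, aeval θ (V j) * rr.b j =
          ∑ i, (∑ j, aeval θ (rr.M k i j) * aeval θ (V j)) * rr.b i := by
        intro k
        calc aeval θ rr.dl * x k * ∑ j, aeval θ (V j) * rr.b j
            = ∑ j, aeval θ (V j) * (aeval θ rr.dl * x k * rr.b j) := by
              rw [mul_sum]; apply sum_congr rfl; intro j _; ring
          _ = ∑ j, aeval θ (V j) * ∑ i, aeval θ (rr.M k i j) * rr.b i := by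
              apply sum_congr rfl; intro j _; rw [rr.hM k j]
          _ = _ := by
              simp_rw [mul_sum, sum_mul]
              rw [sum_comm]
              apply sum_congr rfl; intro i _; apply sum_congr rfl; intro j _; ring
      calc aeval θ rr.dl ^ (S.card + 1) * ((∑ k, (u q k : ℂ) * x k) *
            ∏ q ∈ S, ∑ k, (u q k : ℂ) * x k) * rr.b c
          = (∑ k, (u q k : ℂ) * (aeval θ rr.dl * x k)) *
            (aeval θ rr.dl ^ S.card * (∏ q ∈ S, ∑ k, (u q k : ℂ) * x k) * rr.b c) := by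
            have e : ∑ k, (u q k : ℂ) * (aeval θ rr.dl * x k) =
                aeval θ rr.dl * ∑ k, (u q k : ℂ) * x k := by
              rw [mul_sum]; apply sum_congr rfl; intro k _; ring
            rw [e, pow_succ]; ring
        _ = ∑ k, (u q k : ℂ) * (aeval θ rr.dl * x k * ∑ j, aeval θ (V j) * rr.b j) := by
            rw [hV3, sum_mul]; apply sum_congr rfl; intro k _; ring
        _ = ∑ k, (u q k : ℂ) * ∑ i, (∑ j, aeval θ (rr.M k i j) * aeval θ (V j)) * rr.b i := by
            apply sum_congr rfl; intro k _; rw [h1 k]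
        _ = _ := by
            simp only [map_sum, map_mul, aeval_Cz]
            simp_rw [mul_sum, sum_mul]
            rw [sum_comm]
            apply sum_congr rfl; intro i _
            apply sum_congr rfl; intro k _
            rw [mul_sum]
            apply sum_congr rfl; intro j _; ring

/-- the subring of the integers -/
def ZC : Subring ℂ := (Int.castRingHom ℂ).range

lemma mem_ZC {z : ℂ} : z ∈ ZC ↔ ∃ n : ℤ, (n : ℂ) = z := by
  unfold ZC; rw [RingHom.mem_range]; rfl

/-- The coefficient of `w^ν` of `X ∏ (G_t + y_t)^{j_t}`, times `θ^h b_c` and a denominator, as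
a vector over `Z[X]`. -/
lemma coeff_repr [Fintype κ] (rr : RegRep θ x) {τ : Type} [Fintype τ] [DecidableEq τ]
    (Y : PowerSeries ℂ) (hY : ∀ ν, PowerSeries.coeff ν Y ∈ ZC) {p : ℕ}
    (G : τ → PowerSeries ℂ) (hG : ∀ t, HasDen ZC p (G t)) (j : τ → ℕ) {s : ℕ}
    (hs : ∑ t, j t ≤ s) {N : ℕ} {Z : ℝ}
    (hZ : ∀ R ⊆ (univ : Finset τ).sigma (fun t => range (j t)), ∀ ν ≤ N,
      ‖PowerSeries.coeff ν (Y * ∏ q ∈ R, G q.1)‖ ≤ Z)
    (u : τ → κ → ℤ) {U : ℝ} (hU : 1 ≤ U) (hu : ∀ t, ∑ k, |(u t k : ℝ)| ≤ U)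
    {ν : ℕ} (hν : ν ≤ N) (c : Fin rr.d) (h : ℕ) :
    ∃ W : Fin rr.d → ℤ[X], (∀ i, (W i).natDegree ≤ s * rr.D0 + h) ∧
      lv W ≤ 2 ^ s * ((p ^ (2 * N) * lcmProd N s : ℕ) * Z) * (rr.S0 * U) ^ s ∧
      aeval θ rr.dl ^ s * ((p ^ (2 * N) * lcmProd N s : ℕ) *
        PowerSeries.coeff ν (Y * ∏ t, (G t + PowerSeries.C (∑ k, (u t k : ℂ) * x k)) ^ (j t))) *
        (θ ^ h * rr.b c) = ∑ i, aeval θ (W i) * rr.b i := by
  classical
  have hS0 := rr.one_le_S0
  set S : Finset (Σ _ : τ, ℕ) := (univ : Finset τ).sigma (fun t => range (j t)) with hS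
  have hScard : S.card ≤ s := by
    rw [hS, card_sigma]; simpa using hs
  set y : τ → ℂ := fun t => ∑ k, (u t k : ℂ) * x k with hy
  set Dn : ℕ := p ^ (2 * N) * lcmProd N s with hDn
  have hZ0 : 0 ≤ Z := (norm_nonneg _).trans (hZ ∅ (empty_subset _) 0 (Nat.zero_le _))
  -- integers
  have hint : ∀ R : Finset (Σ _ : τ, ℕ), ∃ z : ℤ, R ⊆ S →
      (z : ℂ) = (Dn : ℂ) * PowerSeries.coeff ν (Y * ∏ q ∈ R, G q.1) := by
    intro R
    by_cases hR : R ⊆ S
    · have h1 := mul_prod_coeff_mem (O := ZC) (p := p) (N := N) (s := s) R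
        ((card_le_card hR).trans hScard) (fun q => G q.1) (fun q _ => hG q.1) Y hY hν
      rw [mem_ZC] at h1
      obtain ⟨z, hz⟩ := h1
      exact ⟨z, fun _ => hz⟩
    · exact ⟨0, fun h => absurd h hR⟩
  choose z hz using hint
  have hzb : ∀ R ⊆ S, |(z R : ℝ)| ≤ Dn * Z := by
    intro R hR
    have h1 := hz R hR
    have h2 : |(z R : ℝ)| = ‖((z R : ℤ) : ℂ)‖ := by rw [Complex.norm_intCast]
    rw [h2, h1, norm_mul, Complex.norm_natCast]
    gcongr
    exact hZ R hR ν hν
  have hV := fun R : Finset (Σ _ : τ, ℕ) => prod_repr rr (S \ R) (fun q => u q.1) hU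
    (fun q _ => hu q.1) c
  choose V hV1 hV2 hV3 using hV
  refine ⟨fun i => ∑ R ∈ S.powerset, C (z R) * rr.dl ^ (s - (S \ R).card) * X ^ h * V R i,
    ?_, ?_, ?_⟩
  · intro i
    apply natDegree_sum_le_of_forall_le
    intro R hR
    have hc : (S \ R).card ≤ s := (card_le_card sdiff_subset).trans hScard
    refine natDegree_mul_le.trans ?_
    have h1 : (C (z R) * rr.dl ^ (s - (S \ R).card) * X ^ h : ℤ[X]).natDegree ≤
        (s - (S \ R).card) * rr.D0 + h := by
      refine natDegree_mul_le.trans ?_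
      rw [natDegree_X_pow]
      apply Nat.add_le_add_right
      refine (natDegree_C_mul_le _ _).trans ?_
      refine natDegree_pow_le.trans ?_
      exact Nat.mul_le_mul_left _ rr.dl_deg
    have h2 := hV1 R i
    calc _ ≤ ((s - (S \ R).card) * rr.D0 + h) + (S \ R).card * rr.D0 := Nat.add_le_add h1 h2
      _ = s * rr.D0 + h := by
        have : (s - (S \ R).card) * rr.D0 + (S \ R).card * rr.D0 = s * rr.D0 := by
          rw [← add_mul]; congr 1; omega
        omega
  · refine (lv_sum_le S.powerset fun R i =>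
      C (z R) * rr.dl ^ (s - (S \ R).card) * X ^ h * V R i).trans ?_
    have hb1 : 1 ≤ rr.S0 * U := by
      calc (1 : ℝ) = 1 * 1 := by ring
        _ ≤ rr.S0 * U := by gcongr
    calc ∑ R ∈ S.powerset, lv (fun i => C (z R) * rr.dl ^ (s - (S \ R).card) * X ^ h * V R i)
        ≤ ∑ R ∈ S.powerset, (Dn * Z) * (rr.S0 * U) ^ s := by
          apply sum_le_sum
          intro R hR
          rw [mem_powerset] at hR
          have hc : (S \ R).card ≤ s := (card_le_card sdiff_subset).trans hScard
          refine (lv_mul_le _ _).trans ?_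
          have h1 : lz (C (z R) * rr.dl ^ (s - (S \ R).card) * X ^ h : ℤ[X]) ≤
              (Dn * Z) * (rr.S0 * U) ^ (s - (S \ R).card) := by
            refine (lz_mul_le _ _).trans ?_
            rw [lz_X_pow, mul_one]
            refine (lz_C_mul_le _ _).trans ?_
            apply mul_le_mul (hzb R hR) _ (lz_nonneg _) (by positivity)
            refine (lz_pow_le _ _).trans ?_
            apply pow_le_pow_left₀ (lz_nonneg _)
            refine rr.dl_le.trans ?_
            nlinarith
          calc _ ≤ ((Dn * Z) * (rr.S0 * U) ^ (s - (S \ R).card)) *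
                (rr.S0 * U) ^ (S \ R).card := by
                apply mul_le_mul h1 (hV2 R) (lv_nonneg _) (by positivity)
            _ = (Dn * Z) * (rr.S0 * U) ^ s := by
                rw [mul_assoc, ← pow_add]
                congr 2
                omega
      _ = 2 ^ S.card * ((Dn * Z) * (rr.S0 * U) ^ s) := by
          rw [sum_const, card_powerset, nsmul_eq_mul]; push_cast; ring
      _ ≤ 2 ^ s * ((Dn * Z) * (rr.S0 * U) ^ s) := by
          gcongr
          norm_num
      _ = _ := by ring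
  · have hprod : ∏ t, (G t + PowerSeries.C (y t)) ^ (j t) =
        ∏ q ∈ S, (G q.1 + PowerSeries.C (y q.1)) := by
      rw [hS, prod_sigma]
      apply prod_congr rfl
      intro t _
      simp only [prod_const, card_range]
    have hcoef : PowerSeries.coeff ν (Y * ∏ t, (G t + PowerSeries.C (y t)) ^ (j t)) =
        ∑ R ∈ S.powerset, (∏ q ∈ S \ R, y q.1) *
          PowerSeries.coeff ν (Y * ∏ q ∈ R, G q.1) := by
      rw [hprod, prod_add, mul_sum, map_sum]
      apply sum_congr rfl
      intro R _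
      have e1 : Y * ((∏ q ∈ R, G q.1) * ∏ q ∈ S \ R, PowerSeries.C (y q.1)) =
          PowerSeries.C (∏ q ∈ S \ R, y q.1) * (Y * ∏ q ∈ R, G q.1) := by
        rw [map_prod]; ring
      rw [e1, PowerSeries.coeff_C_mul]
    have hcoef' : PowerSeries.coeff ν
        (Y * ∏ t, (G t + PowerSeries.C (∑ k, (u t k : ℂ) * x k)) ^ (j t)) =
        ∑ R ∈ S.powerset, (∏ q ∈ S \ R, y q.1) *
          PowerSeries.coeff ν (Y * ∏ q ∈ R, G q.1) := hcoef
    rw [hcoef']
    calc aeval θ rr.dl ^ s * ((Dn : ℂ) * ∑ R ∈ S.powerset, (∏ q ∈ S \ R, y q.1) *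
          PowerSeries.coeff ν (Y * ∏ q ∈ R, G q.1)) * (θ ^ h * rr.b c)
        = ∑ R ∈ S.powerset, ((z R : ℤ) : ℂ) * aeval θ rr.dl ^ (s - (S \ R).card) * θ ^ h *
            (aeval θ rr.dl ^ (S \ R).card * (∏ q ∈ S \ R, y q.1) * rr.b c) := by
          rw [mul_sum, mul_sum, sum_mul]
          apply sum_congr rfl
          intro R hR
          rw [mem_powerset] at hR
          have hc : (S \ R).card ≤ s := (card_le_card sdiff_subset).trans hScard
          rw [hz R hR]
          have e : aeval θ rr.dl ^ s =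
              aeval θ rr.dl ^ (s - (S \ R).card) * aeval θ rr.dl ^ (S \ R).card := by
            rw [← pow_add]; congr 1; omega
          rw [e]; ring
      _ = ∑ R ∈ S.powerset, ((z R : ℤ) : ℂ) * aeval θ rr.dl ^ (s - (S \ R).card) * θ ^ h *
            ∑ i, aeval θ (V R i) * rr.b i := by
          apply sum_congr rfl
          intro R _
          rw [← hV3 R]
      _ = _ := by
          simp only [map_sum, map_mul, map_pow, aeval_Cz, aeval_X]
          simp_rw [mul_sum, sum_mul]
          rw [sum_comm]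
          apply sum_congr rfl; intro i _; apply sum_congr rfl; intro R _; ring

end GP
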