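import Mathlib
import Pool.Agent.GP.AlgForm

/-! Siegel's lemma over Z and the construction of the auxiliary series, generic form. -/

set_option autoImplicit false

namespace GP

open Polynomial Finset Matrix

attribute [local instance] Matrix.seminormedAddCommGroup in
/-- Siegel's lemma over the integers with at least twice as many unknowns as equations. -/
theorem siegelZ {α β : Type} [Fintype α] [Fintype β] (A : Matrix α β ℤ) {B : ℝ} (hB : 1 ≤ B)
    (hβ : 0 < Fintype.card β) (h : 2 * Fintype.card α ≤ Fintype.card β)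
    (hA : ∀ i j, |(A i j : ℝ)| ≤ B) :
    ∃ t : β → ℤ, t ≠ 0 ∧ A *ᵥ t = 0 ∧ ∀ j, |(t j : ℝ)| ≤ Fintype.card β * B := by
  classical
  have hβ1 : (1 : ℝ) ≤ Fintype.card β := by exact_mod_cast hβ
  rcases Nat.eq_zero_or_pos (Fintype.card α) with h0 | h0
  · refine ⟨fun _ => 1, ?_, ?_, ?_⟩
    · intro hcon
      obtain ⟨l⟩ := Fintype.card_pos_iff.1 hβ
      exact one_ne_zero (congrFun hcon l)
    · rw [Fintype.card_eq_zero_iff] at h0
      funext i
      exact (h0.false i).elim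
    · intro j
      push_cast
      rw [abs_one]
      nlinarith
  · obtain ⟨t, ht0, htA, htn⟩ := Int.Matrix.exists_ne_zero_int_vec_norm_le A (by omega) h0
    refine ⟨t, ht0, htA, ?_⟩
    intro j
    have h1 : |(t j : ℝ)| ≤ ‖t‖ := by
      have := norm_le_pi_norm t j
      rwa [Int.norm_eq_abs] at this
    refine h1.trans (htn.trans ?_)
    have hnA : ‖A‖ ≤ B := by
      rw [Matrix.norm_le_iff (by linarith)]
      intro i j
      rw [Int.norm_eq_abs]
      exact hA i j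
    have hmax : max 1 ‖A‖ ≤ B := max_le hB hnA
    have hmax1 : 1 ≤ max 1 ‖A‖ := le_max_left _ _
    have hPQ : 2 * (Fintype.card α : ℝ) ≤ Fintype.card β := by exact_mod_cast h
    have hP0 : 0 < (Fintype.card α : ℝ) := by exact_mod_cast h0
    have hexp : (Fintype.card α : ℝ) / ((Fintype.card β : ℝ) - Fintype.card α) ≤ 1 := by
      rw [div_le_one (by linarith)]
      linarith
    have hb : (1 : ℝ) ≤ Fintype.card β * max 1 ‖A‖ := by
      calc (1 : ℝ) = 1 * 1 := by ring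
        _ ≤ _ := by gcongr
    calc ((Fintype.card β : ℝ) * max 1 ‖A‖) ^
          ((Fintype.card α : ℝ) / ((Fintype.card β : ℝ) - Fintype.card α))
        ≤ ((Fintype.card β : ℝ) * max 1 ‖A‖) ^ (1 : ℝ) :=
          Real.rpow_le_rpow_of_exponent_le hb hexp
      _ = (Fintype.card β : ℝ) * max 1 ‖A‖ := Real.rpow_one _
      _ ≤ Fintype.card β * B := by gcongr

/-- the auxiliary series -/
noncomputable def xser {τ : Type} [Fintype τ] [DecidableEq τ] {L1 L : ℕ} (p : ℕ)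
    (G : τ → PowerSeries ℂ) (y : τ → ℂ) (P : Fin (L1 + 1) → (τ → Fin L) → ℂ) : PowerSeries ℂ :=
  ∑ i : Fin (L1 + 1), ∑ m : τ → Fin L, PowerSeries.C (P i m) * PowerSeries.X ^ (p * (i : ℕ)) *
    ∏ t, (G t + PowerSeries.C (y t)) ^ ((m t : Fin L) : ℕ)

lemma coeff_xser {τ : Type} [Fintype τ] [DecidableEq τ] {L1 L : ℕ} (p : ℕ)
    (G : τ → PowerSeries ℂ) (y : τ → ℂ) (P : Fin (L1 + 1) → (τ → Fin L) → ℂ) (ν : ℕ) :
    PowerSeries.coeff ν (xser p G y P) = ∑ i : Fin (L1 + 1), ∑ m : τ → Fin L, P i m *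
      PowerSeries.coeff ν (PowerSeries.X ^ (p * (i : ℕ)) *
        ∏ t, (G t + PowerSeries.C (y t)) ^ ((m t : Fin L) : ℕ)) := by
  unfold xser
  rw [map_sum]
  apply sum_congr rfl; intro i _
  rw [map_sum]
  apply sum_congr rfl; intro m _
  rw [mul_assoc, PowerSeries.coeff_C_mul]

/-- the construction with explicit bounds -/
theorem ar_core {θ : ℂ} {κ : Type} [Fintype κ] {x : κ → ℂ} (rr : RegRep θ x)
    {τ : Type} [Fintype τ] [DecidableEq τ] {p : ℕ} (hp : 0 < p)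
    (G : τ → PowerSeries ℂ) (hG : ∀ t, HasDen ZC p (G t)) {L s : ℕ} (hL : 0 < L)
    (hs : s = Fintype.card τ * L) {N L1 : ℕ} {Z U W T : ℝ}
    (hZ : ∀ (i : ℕ) (m : τ → Fin L), ∀ R ⊆ (univ : Finset τ).sigma (fun t => range (m t : ℕ)),
      ∀ ν ≤ N, ‖PowerSeries.coeff ν ((PowerSeries.X : PowerSeries ℂ) ^ (p * i) *
        ∏ q ∈ R, G q.1)‖ ≤ Z)
    (hU : 1 ≤ U) (hW : 1 ≤ W)
    (hWb : 2 ^ s * ((p ^ (2 * N) * lcmProd N s : ℕ) * Z) * (rr.S0 * U) ^ s ≤ W)
    (hT : T = max 1 ‖θ‖)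
    {υ : Type} (uu : υ → τ → κ → ℤ) (S : Finset υ) (S' : Set υ) (hSS : ∀ u ∈ S, u ∈ S')
    (hu : ∀ u ∈ S', ∀ t, ∑ k, |(uu u t k : ℝ)| ≤ U)
    (hcount : 4 * S.card * N ≤ (L1 + 1) * L ^ (Fintype.card τ)) {Kn : ℝ}
    (hKn : Kn = ((L1 + 1) * L ^ (Fintype.card τ) * ((s * rr.D0 + 1) * rr.d) : ℕ)) :
    ∃ P : Fin (L1 + 1) → (τ → Fin L) → ℂ, P ≠ 0 ∧
      (∀ i m, ‖P i m‖ ≤ (Kn * W) * ((s * rr.D0 + 1) * T ^ (s * rr.D0 + 1) * ∑ c, ‖rr.b c‖)) ∧
      (∀ u ∈ S, ∀ ν < N,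
        PowerSeries.coeff ν (xser p G (fun t => ∑ k, (uu u t k : ℂ) * x k) P) = 0) ∧
      ∀ u ∈ S', ∀ ν ≤ N, ∃ a : Fin rr.d → ℤ[X],
        (∀ l, (a l).natDegree ≤ 2 * (s * rr.D0 + 1)) ∧ (∀ l, lz (a l) ≤ Kn * (Kn * W) * W) ∧
        aeval θ rr.dl ^ s * ((p ^ (2 * N) * lcmProd N s : ℕ) *
          PowerSeries.coeff ν (xser p G (fun t => ∑ k, (uu u t k : ℂ) * x k) P)) =
          ∑ l, aeval θ (a l) * rr.b l := by
  classical
  set H : ℕ := s * rr.D0 + 1 with hH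
  have hd : 0 < rr.d := by obtain ⟨i, _⟩ := rr.hne; exact i.pos
  have hT1 : 1 ≤ T := by rw [hT]; exact le_max_left _ _
  set Dn : ℕ := p ^ (2 * N) * lcmProd N s with hDn
  -- the vectors
  have hms : ∀ m : τ → Fin L, ∑ t, ((m t : Fin L) : ℕ) ≤ s := by
    intro m
    rw [hs]
    calc ∑ t, ((m t : Fin L) : ℕ) ≤ ∑ _t : τ, L := sum_le_sum fun t _ => (m t).2.le
      _ = Fintype.card τ * L := by rw [sum_const, card_univ, smul_eq_mul]
  have hX : ∀ (i ν : ℕ), PowerSeries.coeff ν ((PowerSeries.X : PowerSeries ℂ) ^ (p * i)) ∈ ZC := by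
    intro i ν
    rw [PowerSeries.coeff_X_pow]
    split_ifs
    · exact ZC.one_mem
    · exact ZC.zero_mem
  have hrep : ∀ (u : υ) (ν i : ℕ) (m : τ → Fin L) (h : ℕ) (c : Fin rr.d),
      ∃ V : Fin rr.d → ℤ[X], u ∈ S' → ν ≤ N → (∀ l, (V l).natDegree ≤ s * rr.D0 + h) ∧
        lv V ≤ W ∧ aeval θ rr.dl ^ s * ((Dn : ℂ) * PowerSeries.coeff ν
          (PowerSeries.X ^ (p * i) * ∏ t, (G t + PowerSeries.C (∑ k, (uu u t k : ℂ) * x k)) ^
            ((m t : Fin L) : ℕ))) * (θ ^ h * rr.b c) = ∑ l, aeval θ (V l) * rr.b l := by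
    intro u ν i m h c
    by_cases huν : u ∈ S' ∧ ν ≤ N
    · obtain ⟨V, hV1, hV2, hV3⟩ := coeff_repr rr (PowerSeries.X ^ (p * i)) (hX i) G hG
        (fun t => ((m t : Fin L) : ℕ)) (hms m) (hZ i m) (uu u) hU (hu u huν.1) huν.2 c h
      exact ⟨V, fun _ _ => ⟨hV1, hV2.trans hWb, hV3⟩⟩
    · exact ⟨0, fun h1 h2 => absurd ⟨h1, h2⟩ huν⟩
  choose V hV using hrep
  -- the linear system
  let Unk := (Fin (L1 + 1) × (τ → Fin L)) × (Fin H × Fin rr.d)
  let Eqn := ({u // u ∈ S} × Fin N) × (Fin rr.d × Fin (2 * H))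
  let A : Matrix Eqn Unk ℤ := fun e q =>
    (V e.1.1.1 e.1.2 q.1.1 q.1.2 q.2.1 q.2.2 e.2.1).coeff e.2.2
  have hcU : Fintype.card Unk = (L1 + 1) * L ^ (Fintype.card τ) * (H * rr.d) := by
    simp [Unk]
  have hcE : Fintype.card Eqn = (S.card * N) * (rr.d * (2 * H)) := by
    simp [Eqn]
  have hKn' : Kn = (Fintype.card Unk : ℝ) := by rw [hcU, hKn]
  have hKn0 : 0 ≤ Kn := by rw [hKn']; positivity
  obtain ⟨t, ht0, htA, htb⟩ := siegelZ A hW
    (by rw [hcU]; positivity)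
    (by
      rw [hcU, hcE]
      calc 2 * (S.card * N * (rr.d * (2 * H))) = (4 * S.card * N) * (H * rr.d) := by ring
        _ ≤ ((L1 + 1) * L ^ (Fintype.card τ)) * (H * rr.d) := Nat.mul_le_mul_right _ hcount)
    (by
      rintro ⟨⟨u, ν⟩, ⟨l, e⟩⟩ ⟨⟨i, m⟩, ⟨h, c⟩⟩
      have h1 := hV u.1 ν i m h c (hSS _ u.2) ν.2.le
      exact (coeff_le_lz _ _).trans ((lz_le_lv _ l).trans h1.2.1))
  rw [← hKn'] at htb
  let P : Fin (L1 + 1) → (τ → Fin L) → ℂ := fun i m =>
    ∑ q : Fin H × Fin rr.d, (t ((i, m), q) : ℂ) * (θ ^ (q.1 : ℕ) * rr.b q.2)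
  let a : υ → ℕ → Fin rr.d → ℤ[X] := fun u ν l =>
    ∑ q : Unk, C (t q) * V u ν q.1.1 q.1.2 q.2.1 q.2.2 l
  have ha : ∀ u ∈ S', ∀ ν ≤ N, aeval θ rr.dl ^ s * ((Dn : ℂ) *
      PowerSeries.coeff ν (xser p G (fun t => ∑ k, (uu u t k : ℂ) * x k) P)) =
      ∑ l, aeval θ (a u ν l) * rr.b l := by
    intro u hu' ν hν
    rw [coeff_xser]
    have e1 : ∀ (i : Fin (L1 + 1)) (m : τ → Fin L), aeval θ rr.dl ^ s * ((Dn : ℂ) * (P i m *
        PowerSeries.coeff ν (PowerSeries.X ^ (p * (i : ℕ)) *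
          ∏ t, (G t + PowerSeries.C (∑ k, (uu u t k : ℂ) * x k)) ^ ((m t : Fin L) : ℕ)))) =
        ∑ q : Fin H × Fin rr.d, (t ((i, m), q) : ℂ) * ∑ l, aeval θ (V u ν i m q.1 q.2 l) * rr.b l := by
      intro i m
      simp only [P]
      rw [sum_mul, mul_sum, mul_sum]
      apply sum_congr rfl
      intro q _
      rw [← (hV u ν i m q.1 q.2 hu' hν).2.2]
      ring
    calc _ = ∑ i : Fin (L1 + 1), ∑ m : τ → Fin L, ∑ q : Fin H × Fin rr.d,
          (t ((i, m), q) : ℂ) * ∑ l, aeval θ (V u ν i m q.1 q.2 l) * rr.b l := by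
          rw [mul_sum, mul_sum]
          apply sum_congr rfl; intro i _
          rw [mul_sum, mul_sum]
          apply sum_congr rfl; intro m _
          exact e1 i m
      _ = ∑ q : Unk, (t q : ℂ) * ∑ l, aeval θ (V u ν q.1.1 q.1.2 q.2.1 q.2.2 l) * rr.b l := by
          rw [Fintype.sum_prod_type, Fintype.sum_prod_type]
      _ = _ := by
          simp only [a, map_sum, map_mul, aeval_Cz]
          simp_rw [mul_sum, sum_mul]
          rw [sum_comm]
          apply sum_congr rfl; intro l _; apply sum_congr rfl; intro q _; ring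
  have hadeg : ∀ u ∈ S', ∀ ν ≤ N, ∀ l, (a u ν l).natDegree < 2 * H := by
    intro u hu' ν hν l
    have h1 : (a u ν l).natDegree ≤ 2 * H - 1 := by
      apply natDegree_sum_le_of_forall_le
      intro q _
      refine (natDegree_C_mul_le _ _).trans ?_
      refine ((hV u ν q.1.1 q.1.2 q.2.1 q.2.2 hu' hν).1 l).trans ?_
      have := q.2.1.2
      omega
    omega
  refine ⟨P, ?_, ?_, ?_, ?_⟩
  · -- P is not zero
    intro hP
    apply ht0
    funext q
    obtain ⟨⟨i, m⟩, ⟨h, c⟩⟩ := q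
    have h1 : P i m = 0 := by rw [hP]; rfl
    have h2 : ∑ c : Fin rr.d, aeval θ (∑ h : Fin H, C (t ((i, m), (h, c))) * X ^ (h : ℕ)) *
        rr.b c = 0 := by
      rw [← h1]
      simp only [P, map_sum, map_mul, map_pow, aeval_Cz, aeval_X]
      rw [Fintype.sum_prod_type, sum_comm]
      apply sum_congr rfl; intro c _
      rw [sum_mul]
      apply sum_congr rfl; intro h _; ring
    have h3 := congrFun (rr.hlin _ h2) c
    have h4 := congrArg (fun Q : ℤ[X] => Q.coeff h) h3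
    simp only [Pi.zero_apply, coeff_zero, finsetSum_coeff, coeff_C_mul, coeff_X_pow] at h4
    rw [sum_eq_single h] at h4
    · simpa using h4
    · intro h' _ hne
      rw [if_neg (by intro hh; exact hne (Fin.ext hh.symm))]; ring
    · intro hh; exact absurd (mem_univ _) hh
  · -- the size of P
    intro i m
    simp only [P]
    refine (norm_sum_le _ _).trans ?_
    have h1 : ∀ q : Fin H × Fin rr.d, ‖(t ((i, m), q) : ℂ) * (θ ^ (q.1 : ℕ) * rr.b q.2)‖ ≤
        (Kn * W) * (T ^ H * ‖rr.b q.2‖) := by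
      intro q
      rw [norm_mul, norm_mul, norm_pow, Complex.norm_intCast]
      have h2 : ‖θ‖ ^ (q.1 : ℕ) ≤ T ^ H := by
        calc ‖θ‖ ^ (q.1 : ℕ) ≤ T ^ (q.1 : ℕ) := by
              apply pow_le_pow_left₀ (norm_nonneg _)
              rw [hT]; exact le_max_right _ _
          _ ≤ T ^ H := pow_le_pow_right₀ hT1 q.1.2.le
      have h3 := htb ((i, m), q)
      gcongr
    refine (sum_le_sum fun q _ => h1 q).trans ?_
    rw [← mul_sum, Fintype.sum_prod_type]
    simp only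
    rw [sum_const, card_univ, Fintype.card_fin, nsmul_eq_mul, ← mul_sum]
    apply le_of_eq
    rw [hH]; push_cast; ring
  · -- vanishing
    intro u hu' ν hν
    have h1 := ha u (hSS u hu') ν hν.le
    have h2 : ∀ l, a u ν l = 0 := by
      intro l
      ext e
      rw [coeff_zero]
      rcases lt_or_ge e (2 * H) with he | he
      · have h3 := congrFun htA ((⟨u, hu'⟩, ⟨ν, hν⟩), (l, ⟨e, he⟩))
        simp only [Matrix.mulVec, dotProduct, A, Pi.zero_apply] at h3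
        simp only [a, finsetSum_coeff, coeff_C_mul]
        rw [← h3]
        apply sum_congr rfl; intro q _; ring
      · exact coeff_eq_zero_of_natDegree_lt (lt_of_lt_of_le (hadeg u (hSS u hu') ν hν.le l) he)
    rw [sum_congr rfl fun l _ => by rw [h2 l, map_zero, zero_mul], sum_const_zero] at h1
    rcases mul_eq_zero.1 h1 with h3 | h3
    · exact absurd h3 (pow_ne_zero _ rr.hdl)
    · rcases mul_eq_zero.1 h3 with h4 | h4
      · exfalso
        have h5 : Dn = 0 := by exact_mod_cast h4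
        rw [hDn, mul_eq_zero] at h5
        rcases h5 with h5 | h5
        · exact (pow_ne_zero _ hp.ne') h5
        · exact (lcmProd_pos N s).ne' h5
      · exact h4
  · intro u hu' ν hν
    refine ⟨a u ν, fun l => (hadeg u hu' ν hν l).le, ?_, ha u hu' ν hν⟩
    intro l
    refine (lz_sum_le _ _).trans ?_
    have h1 : ∀ q ∈ (univ : Finset Unk), lz (C (t q) * V u ν q.1.1 q.1.2 q.2.1 q.2.2 l) ≤
        (Kn * W) * W := by
      intro q _
      refine (lz_C_mul_le _ _).trans ?_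
      have h2 := (hV u ν q.1.1 q.1.2 q.2.1 q.2.2 hu' hν).2.1
      have h3 := (lz_le_lv _ l).trans h2
      have h4 := htb q
      exact mul_le_mul h4 h3 (lz_nonneg _) (by positivity)
    refine (sum_le_sum h1).trans ?_
    rw [sum_const, card_univ, nsmul_eq_mul, ← hKn']
    apply le_of_eq; ring

end GP
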