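import Mathlib
import Pool.Agent.GP.AlgSieg

/-! The construction of the auxiliary series with bounds of the form exp (C log (L+2) N). -/

set_option autoImplicit false

namespace GP

open Polynomial Finset Matrix

lemma absorb_const {K : ℝ} {N : ℕ} (h : K ≤ N) : K ≤ Real.exp N := by
  have := Real.add_one_le_exp (N : ℝ)
  linarith

lemma aux_lin {a b Λ N : ℝ} (ha : 0 ≤ a) (h : N ≤ Λ * N) :
    a * N + b * Λ * N ≤ (a + b) * (Λ * N) := by
  calc a * N + b * Λ * N ≤ a * (Λ * N) + b * Λ * N := by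
        have := mul_le_mul_of_nonneg_left h ha
        linarith
    _ = _ := by ring

lemma aux_log {x Λ : ℝ} (hx : 0 ≤ x) (h : 1 ≤ Λ) : 1 + x + Λ ≤ (2 + x) * Λ := by nlinarith

lemma aux_s {n L : ℝ} (_hn : 0 ≤ n) (hL : 0 ≤ L) : n * L + 1 ≤ (n + 1) * (L + 2) := by nlinarith

lemma aux_deg {n L D0 D1 : ℝ} (hn : 0 ≤ n) (hL : 2 ≤ L) (hD0 : 0 ≤ D0) (hD1 : 0 ≤ D1) :
    2 * (n * L * D0 + 1) + D1 ≤ 2 * (n * D0 + 1 + D1) * L := by nlinarith

lemma aux_ge {N Λ : ℝ} (hN : 0 ≤ N) (h : 1 ≤ Λ) : N ≤ Λ * N := by nlinarith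

lemma absorb_lin {K : ℝ} (_hK : 0 ≤ K) {N : ℕ} (h : 4 * K ≤ N) : ((N : ℝ) + 1) * K ≤ Real.exp N := by
  have h1 := Real.add_one_le_exp ((N : ℝ) / 2)
  have h2 : Real.exp N = Real.exp ((N : ℝ) / 2) * Real.exp ((N : ℝ) / 2) := by
    rw [← Real.exp_add]; congr 1; ring
  rw [h2]
  have h3 : (0 : ℝ) ≤ N := Nat.cast_nonneg _
  calc ((N : ℝ) + 1) * K ≤ ((N : ℝ) / 2 + 1) * ((N : ℝ) / 2 + 1) := by nlinarith
    _ ≤ Real.exp ((N : ℝ) / 2) * Real.exp ((N : ℝ) / 2) := by gcongr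

/-- sizes of the coefficients of the monomials -/
lemma coeff_size {τ : Type} [DecidableEq τ] {p : ℕ} (G : τ → PowerSeries ℂ)
    (hGs : ∀ t ν, ‖PowerSeries.coeff ν (G t)‖ ≤ p) (hp : 0 < p) (i N : ℕ)
    (R : Finset (Σ _ : τ, ℕ)) {s : ℕ} (hR : R.card ≤ s) {ν : ℕ} (hν : ν ≤ N) :
    ‖PowerSeries.coeff ν ((PowerSeries.X : PowerSeries ℂ) ^ (p * i) * ∏ q ∈ R, G q.1)‖ ≤
      2 ^ N * (2 * p) ^ s := by
  classical
  have hμ : (normRingSeminorm ℂ) (1 : ℂ) ≤ 1 := by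
    change ‖(1 : ℂ)‖ ≤ 1
    rw [norm_one]
  have hp1 : (1 : ℝ) ≤ p := by exact_mod_cast hp
  have h1 := coeff_le_wS (normRingSeminorm ℂ) hν
    ((PowerSeries.X : PowerSeries ℂ) ^ (p * i) * ∏ q ∈ R, G q.1)
  have h1' : ‖PowerSeries.coeff ν ((PowerSeries.X : PowerSeries ℂ) ^ (p * i) *
      ∏ q ∈ R, G q.1)‖ ≤ 2 ^ ν * wS (normRingSeminorm ℂ) N
        ((PowerSeries.X : PowerSeries ℂ) ^ (p * i) * ∏ q ∈ R, G q.1) := h1
  have hG : ∀ t, wS (normRingSeminorm ℂ) N (G t) ≤ 2 * p := by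
    intro t
    unfold wS
    calc ∑ i ∈ range (N + 1), (normRingSeminorm ℂ) (PowerSeries.coeff i (G t)) * (1 / 2 : ℝ) ^ i
        ≤ ∑ i ∈ range (N + 1), (p : ℝ) * (1 / 2 : ℝ) ^ i := by
          apply sum_le_sum
          intro i _
          have := hGs t i
          have h2 : (normRingSeminorm ℂ) (PowerSeries.coeff i (G t)) ≤ p := this
          gcongr
      _ = p * ∑ i ∈ range (N + 1), (1 / 2 : ℝ) ^ i := by rw [mul_sum]
      _ ≤ p * 2 := by
          gcongr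
          rw [geom_sum_eq (by norm_num)]
          have : (0 : ℝ) < (1 / 2 : ℝ) ^ (N + 1) := by positivity
          have h3 : ((1 / 2 : ℝ) ^ (N + 1) - 1) / (1 / 2 - 1) = 2 - 2 * (1 / 2 : ℝ) ^ (N + 1) := by
            ring
          rw [h3]; linarith
      _ = 2 * p := by ring
  have hX : wS (normRingSeminorm ℂ) N ((PowerSeries.X : PowerSeries ℂ) ^ (p * i)) ≤ 1 := by
    refine (wS_pow_le (normRingSeminorm ℂ) hμ N (p * i) PowerSeries.X).trans ?_
    apply pow_le_one₀ (wS_nonneg _ _ _)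
    unfold wS
    calc ∑ i ∈ range (N + 1), (normRingSeminorm ℂ) (PowerSeries.coeff i (PowerSeries.X : PowerSeries ℂ)) *
          (1 / 2 : ℝ) ^ i
        ≤ ∑ i ∈ range (N + 1), (if i = 1 then (1 : ℝ) / 2 else 0) := by
          apply sum_le_sum
          intro i _
          rw [PowerSeries.coeff_X]
          split_ifs with h
          · rw [h]
            have h1 : ‖(1 : ℂ)‖ = 1 := norm_one
            have h2 : (normRingSeminorm ℂ) (1 : ℂ) = 1 := h1
            rw [h2]; norm_num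
          · rw [map_zero]; simp
      _ ≤ 1 := by
          rw [sum_ite_eq']
          split_ifs <;> norm_num
  have hprod : wS (normRingSeminorm ℂ) N (∏ q ∈ R, G q.1) ≤ (2 * p) ^ s := by
    refine (wS_prod_le (normRingSeminorm ℂ) hμ N R fun q => G q.1).trans ?_
    refine (prod_le_prod (fun _ _ => wS_nonneg _ _ _) fun q _ => hG q.1).trans ?_
    rw [prod_const]
    apply pow_le_pow_right₀ _ hR
    linarith
  refine h1'.trans ?_
  have h2 : wS (normRingSeminorm ℂ) N ((PowerSeries.X : PowerSeries ℂ) ^ (p * i) *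
      ∏ q ∈ R, G q.1) ≤ 1 * (2 * p) ^ s := by
    refine (wS_mul_le _ _ _ _).trans ?_
    exact mul_le_mul hX hprod (wS_nonneg _ _ _) zero_le_one
  rw [one_mul] at h2
  have h3 : (2 : ℝ) ^ ν ≤ 2 ^ N := pow_le_pow_right₀ (by norm_num) hν
  have h4 := wS_nonneg (normRingSeminorm ℂ) N ((PowerSeries.X : PowerSeries ℂ) ^ (p * i) *
      ∏ q ∈ R, G q.1)
  exact mul_le_mul h3 h2 h4 (by positivity)

/-- the arithmetic part of the proof, generic form -/
theorem ar_main {θ : ℂ} (hθ : Transcendental ℚ θ) {κ : Type} [Fintype κ] [DecidableEq κ]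
    (x : κ → ℂ) (hx : ∀ k, IsAlgebraic (IntermediateField.adjoin ℚ ({θ} : Set ℂ)) (x k))
    {τ : Type} [Fintype τ] [DecidableEq τ] {p : ℕ} (hp : 0 < p)
    (G : τ → PowerSeries ℂ) (hG : ∀ t, HasDen ZC p (G t))
    (hGs : ∀ t ν, ‖PowerSeries.coeff ν (G t)‖ ≤ p) :
    ∃ C : ℝ, 4 ≤ C ∧ ∀ (L : ℕ) (U : ℝ), 2 ≤ L → 1 ≤ U → ∃ N0 : ℕ, ∀ N L1 : ℕ, N0 ≤ N → L1 ≤ N →
      ∀ {υ : Type} (uu : υ → τ → κ → ℤ) (S : Finset υ) (S' : Set υ), (∀ u ∈ S, u ∈ S') →
      (∀ u ∈ S', ∀ t, ∑ k, |(uu u t k : ℝ)| ≤ U) →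
      C * S.card * N ≤ ((L1 : ℝ) + 1) * (L : ℝ) ^ (Fintype.card τ) →
      ∃ P : Fin (L1 + 1) → (τ → Fin L) → ℂ, P ≠ 0 ∧
        (∀ i m, ‖P i m‖ ≤ Real.exp (C * Real.log (L + 2) * N)) ∧
        (∀ u ∈ S, ∀ ν < N,
          PowerSeries.coeff ν (xser p G (fun t => ∑ k, (uu u t k : ℂ) * x k) P) = 0) ∧
        ∀ u ∈ S', ∀ ν ≤ N,
          PowerSeries.coeff ν (xser p G (fun t => ∑ k, (uu u t k : ℂ) * x k) P) ≠ 0 →
          ∃ A : ℤ[X], A ≠ 0 ∧ (A.natDegree : ℝ) ≤ C * L ∧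
            (∀ i, |(A.coeff i : ℝ)| ≤ Real.exp (C * Real.log (L + 2) * N)) ∧
            ‖aeval θ A‖ ≤ Real.exp (C * Real.log (L + 2) * N) *
              ‖PowerSeries.coeff ν (xser p G (fun t => ∑ k, (uu u t k : ℂ) * x k) P)‖ := by
  classical
  obtain ⟨rr⟩ := exists_regRep hθ x hx
  obtain ⟨D1, C2, hC2, hnorm⟩ := norm_step rr
  have hd : 0 < rr.d := by obtain ⟨i, _⟩ := rr.hne; exact i.pos
  set n : ℕ := Fintype.card τ with hn
  set d : ℕ := rr.d with hdd
  have hS0 := rr.one_le_S0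
  have hp1 : (1 : ℝ) ≤ p := by exact_mod_cast hp
  set T : ℝ := max 1 ‖θ‖ with hT
  have hT1 : 1 ≤ T := le_max_left _ _
  -- the main constant for W
  set c4 : ℝ := Real.log 4 + 4 with hc4
  have hc4' : 0 ≤ c4 := by
    have := Real.log_nonneg (by norm_num : (1 : ℝ) ≤ 4)
    linarith
  set C1 : ℝ := 2 * Real.log p + Real.log 2 + c4 * (2 + Real.log (n + 1)) + 1 with hC1
  have hlogp : 0 ≤ Real.log p := Real.log_nonneg hp1
  have hlog2 : 0 ≤ Real.log 2 := Real.log_nonneg (by norm_num)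
  have hlogn : 0 ≤ Real.log ((n : ℝ) + 1) := Real.log_nonneg (by
    have : (0 : ℝ) ≤ n := Nat.cast_nonneg _
    linarith)
  have hC1' : 1 ≤ C1 := by
    have : 0 ≤ c4 * (2 + Real.log (n + 1)) := mul_nonneg hc4' (by linarith)
    rw [hC1]; linarith
  set Cd : ℝ := 2 * d * (n * rr.D0 + 1 + D1) with hCd
  have hCd0 : 0 ≤ Cd := by rw [hCd]; positivity
  refine ⟨4 + Cd + (2 + C1) + (1 + C1) + d * (3 + 2 * C1), ?_, ?_⟩
  · have : 0 ≤ (d : ℝ) * (3 + 2 * C1) := by positivity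
    linarith
  set C : ℝ := 4 + Cd + (2 + C1) + (1 + C1) + d * (3 + 2 * C1) with hC
  intro L U hL hU
  set s : ℕ := n * L with hs
  set H : ℕ := s * rr.D0 + 1 with hH
  -- the quantities to be absorbed
  set K1 : ℝ := s * Real.log 2 + s * Real.log (2 * p) + s * Real.log (rr.S0 * U) with hK1
  set K2 : ℝ := (L : ℝ) ^ n * (H * d) with hK2
  set K3 : ℝ := H * T ^ H * ∑ c, ‖rr.b c‖ with hK3
  set K4 : ℝ := C2 * T ^ (2 * H) with hK4
  set K5 : ℝ := ‖aeval θ rr.dl‖ ^ s with hK5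
  have hSU : 1 ≤ rr.S0 * U := by
    calc (1 : ℝ) = 1 * 1 := by ring
      _ ≤ _ := by gcongr
  have hK1' : 0 ≤ K1 := by
    have h1 := Real.log_nonneg hSU
    have h2 : 0 ≤ Real.log (2 * p) := Real.log_nonneg (by linarith)
    rw [hK1]; positivity
  have hK2' : 0 ≤ K2 := by rw [hK2]; positivity
  have hK3' : 0 ≤ K3 := by rw [hK3]; positivity
  have hK4' : 0 ≤ K4 := by rw [hK4]; positivity
  have hK5' : 0 ≤ K5 := by rw [hK5]; positivity
  refine ⟨⌈K1 + 4 * K2 + K3 + K4 + K5⌉₊, ?_⟩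
  intro N L1 hN hL1 υ uu S S' hSS hu hcount
  have hN' : K1 + 4 * K2 + K3 + K4 + K5 ≤ N := by
    refine (Nat.le_ceil _).trans ?_
    exact_mod_cast hN
  set Λ : ℝ := Real.log (L + 2) with hΛ
  have hL2 : (2 : ℝ) ≤ L := by exact_mod_cast hL
  have hΛ1 : 1 ≤ Λ := by
    rw [hΛ, Real.le_log_iff_exp_le (by linarith)]
    have := Real.exp_one_lt_d9
    linarith
  have hN0 : (0 : ℝ) ≤ N := Nat.cast_nonneg _
  have hΛN : (N : ℝ) ≤ Λ * N := aux_ge hN0 hΛ1
  set W : ℝ := Real.exp (C1 * Λ * N) with hW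
  have hW1 : 1 ≤ W := Real.one_le_exp (by positivity)
  set Dn : ℕ := p ^ (2 * N) * lcmProd N s with hDn
  have hDnpos : 0 < Dn := Nat.mul_pos (pow_pos hp _) (lcmProd_pos N s)
  -- size of Dn
  have hlogs : Real.log ((s : ℝ) + 1) ≤ Real.log (n + 1) + Λ := by
    rw [hΛ, ← Real.log_mul (by positivity) (by positivity)]
    apply Real.log_le_log (by positivity)
    rw [hs]
    push_cast
    exact aux_s (Nat.cast_nonneg _) (Nat.cast_nonneg _)
  have hlcm : (lcmProd N s : ℝ) ≤ Real.exp (c4 * N * (1 + Real.log (n + 1) + Λ)) := by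
    have h1 := log_lcmProd_le N s
    have h2 : (0 : ℝ) < lcmProd N s := by exact_mod_cast lcmProd_pos N s
    rw [← Real.exp_log h2]
    apply Real.exp_le_exp.2
    refine h1.trans ?_
    rw [hc4] at hc4' ⊢
    have : (1 : ℝ) + Real.log (s + 1) ≤ 1 + Real.log (n + 1) + Λ := by linarith
    gcongr
  have hDnb : (Dn : ℝ) ≤ Real.exp (2 * N * Real.log p + c4 * N * (1 + Real.log (n + 1) + Λ)) := by
    rw [hDn, Real.exp_add]
    push_cast
    have h1 : (p : ℝ) ^ (2 * N) = Real.exp (2 * N * Real.log p) := by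
      rw [← Real.rpow_natCast, Real.rpow_def_of_pos (by linarith)]
      congr 1
      push_cast; ring
    rw [h1]
    gcongr
  have hexpo : 2 * N * Real.log p + c4 * N * (1 + Real.log (n + 1) + Λ) + N * Real.log 2 + N ≤
      C1 * Λ * N := by
    have e1 : 2 * N * Real.log p ≤ 2 * Real.log p * (Λ * N) := by
      have h0 : 0 ≤ 2 * Real.log p := by positivity
      calc 2 * N * Real.log p = 2 * Real.log p * N := by ring
        _ ≤ _ := mul_le_mul_of_nonneg_left hΛN h0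
    have e2 : c4 * N * (1 + Real.log (n + 1) + Λ) ≤ c4 * (2 + Real.log (n + 1)) * (Λ * N) := by
      have h1 : (1 : ℝ) + Real.log (n + 1) + Λ ≤ (2 + Real.log (n + 1)) * Λ := aux_log hlogn hΛ1
      have h2 : 0 ≤ c4 * N := by positivity
      calc c4 * N * (1 + Real.log (n + 1) + Λ) ≤ c4 * N * ((2 + Real.log (n + 1)) * Λ) := by gcongr
        _ = _ := by ring
    have e3 : N * Real.log 2 ≤ Real.log 2 * (Λ * N) := by
      calc N * Real.log 2 = Real.log 2 * N := by ring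
        _ ≤ _ := mul_le_mul_of_nonneg_left hΛN hlog2
    have e4 : (N : ℝ) ≤ 1 * (Λ * N) := by linarith
    calc _ ≤ 2 * Real.log p * (Λ * N) + c4 * (2 + Real.log (n + 1)) * (Λ * N) +
          Real.log 2 * (Λ * N) + 1 * (Λ * N) := by linarith
      _ = C1 * Λ * N := by rw [hC1]; ring
  -- the size of the vectors
  have hWb : 2 ^ s * ((Dn : ℕ) * (2 ^ N * (2 * (p : ℝ)) ^ s)) * (rr.S0 * U) ^ s ≤ W := by
    have e1 : (2 : ℝ) ^ s * (2 * (p : ℝ)) ^ s * (rr.S0 * U) ^ s = Real.exp K1 := by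
      rw [hK1, Real.exp_add, Real.exp_add, Real.exp_nat_mul, Real.exp_nat_mul, Real.exp_nat_mul,
        Real.exp_log (by norm_num), Real.exp_log (by linarith), Real.exp_log (by linarith)]
    have e2 : (2 : ℝ) ^ N = Real.exp (N * Real.log 2) := by
      rw [Real.exp_nat_mul, Real.exp_log (by norm_num)]
    calc 2 ^ s * ((Dn : ℕ) * (2 ^ N * (2 * (p : ℝ)) ^ s)) * (rr.S0 * U) ^ s
        = (Dn : ℝ) * 2 ^ N * ((2 : ℝ) ^ s * (2 * (p : ℝ)) ^ s * (rr.S0 * U) ^ s) := by ring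
      _ = (Dn : ℝ) * Real.exp (N * Real.log 2) * Real.exp K1 := by rw [e1, e2]
      _ ≤ Real.exp (2 * N * Real.log p + c4 * N * (1 + Real.log (n + 1) + Λ)) *
          Real.exp (N * Real.log 2) * Real.exp N := by
          gcongr
          linarith
      _ = Real.exp (2 * N * Real.log p + c4 * N * (1 + Real.log (n + 1) + Λ) +
          N * Real.log 2 + N) := by rw [← Real.exp_add, ← Real.exp_add]
      _ ≤ W := Real.exp_le_exp.2 hexpo
  have hDnW : (Dn : ℝ) ≤ W := by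
    refine hDnb.trans (Real.exp_le_exp.2 ?_)
    have : 0 ≤ N * Real.log 2 := by positivity
    linarith
  -- count
  have hcount' : 4 * S.card * N ≤ (L1 + 1) * L ^ (Fintype.card τ) := by
    have h1 : (4 : ℝ) * S.card * N ≤ ((L1 : ℝ) + 1) * (L : ℝ) ^ (Fintype.card τ) := by
      refine le_trans ?_ hcount
      have h4 : (4 : ℝ) ≤ C := by
        have : 0 ≤ (d : ℝ) * (3 + 2 * C1) := by positivity
        rw [hC]; linarith
      gcongr
    exact_mod_cast h1
  obtain ⟨P, hP0, hPb, hPv, hPn⟩ := ar_core rr hp G hG (L := L) (s := s) (by omega)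
    (by rw [hs]) (N := N) (L1 := L1) (Z := 2 ^ N * (2 * (p : ℝ)) ^ s) (U := U) (W := W) (T := T)
    (by
      intro i m R hR ν hν
      apply coeff_size G hGs hp i N R _ hν
      refine (card_le_card hR).trans ?_
      rw [card_sigma]
      calc ∑ t, (range (m t : ℕ)).card ≤ ∑ _t : τ, L := by
            apply sum_le_sum
            intro t _
            rw [card_range]; exact (m t).2.le
        _ = s := by rw [sum_const, card_univ, smul_eq_mul])
    hU hW1 hWb hT uu S S' hSS hu hcount' rfl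
  set Kn : ℝ := (((L1 + 1) * L ^ (Fintype.card τ) * ((s * rr.D0 + 1) * rr.d) : ℕ) : ℝ) with hKn
  have hKnb : Kn ≤ Real.exp N := by
    have h1 : Kn ≤ ((N : ℝ) + 1) * K2 := by
      rw [hKn, hK2]
      push_cast
      have h2 : (L1 : ℝ) ≤ N := by exact_mod_cast hL1
      have h3 : ((H : ℕ) : ℝ) = (s : ℝ) * rr.D0 + 1 := by rw [hH]; push_cast; ring
      rw [h3]
      calc ((L1 : ℝ) + 1) * (L : ℝ) ^ n * (((s : ℝ) * rr.D0 + 1) * d)
          ≤ ((N : ℝ) + 1) * (L : ℝ) ^ n * (((s : ℝ) * rr.D0 + 1) * d) := by gcongr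
        _ = _ := by ring
    refine h1.trans (absorb_lin hK2' (by linarith))
  have hKn0 : 0 ≤ Kn := by rw [hKn]; positivity
  have hCΛ : ∀ a : ℝ, a ≤ C * Λ * N → Real.exp a ≤ Real.exp (C * Λ * N) :=
    fun a h => Real.exp_le_exp.2 h
  have hdpos : (0 : ℝ) ≤ d := Nat.cast_nonneg _
  have hd3 : 0 ≤ (d : ℝ) * (3 + 2 * C1) := by positivity
  refine ⟨P, hP0, ?_, hPv, ?_⟩
  · intro i m
    refine (hPb i m).trans ?_
    have h1 : ((s : ℝ) * rr.D0 + 1) * T ^ (s * rr.D0 + 1) * ∑ c, ‖rr.b c‖ ≤ Real.exp N := by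
      have h2 : ((s : ℝ) * rr.D0 + 1) * T ^ (s * rr.D0 + 1) * ∑ c, ‖rr.b c‖ = K3 := by
        rw [hK3, hH]; push_cast; ring
      rw [h2]
      exact absorb_const (by linarith)
    calc Kn * W * (((s : ℝ) * rr.D0 + 1) * T ^ (s * rr.D0 + 1) * ∑ c, ‖rr.b c‖)
        ≤ Real.exp N * W * Real.exp N := by gcongr
      _ = Real.exp (2 * N + C1 * Λ * N) := by
          rw [hW, ← Real.exp_add, ← Real.exp_add]; congr 1; ring
      _ ≤ Real.exp (C * Λ * N) := by
          apply hCΛ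
          have h3 : 2 * N + C1 * Λ * N ≤ (2 + C1) * (Λ * N) := aux_lin (by norm_num) hΛN
          have h4 : (2 + C1) * (Λ * N) ≤ C * (Λ * N) := by
            apply mul_le_mul_of_nonneg_right _ (by positivity)
            rw [hC]; linarith
          calc 2 * N + C1 * Λ * N ≤ (2 + C1) * (Λ * N) := h3
            _ ≤ C * (Λ * N) := h4
            _ = C * Λ * N := by ring
  · intro u hu' ν hν hne
    obtain ⟨a, ha1, ha2, ha3⟩ := hPn u hu' ν hν
    set cν := PowerSeries.coeff ν (xser p G (fun t => ∑ k, (uu u t k : ℂ) * x k) P) with hcν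
    set Sz : ℝ := Kn * (Kn * W) * W with hSz
    set Sz' : ℝ := max 1 Sz with hSz'
    have hSzb : Sz' ≤ Real.exp (2 * N + 2 * C1 * Λ * N) := by
      apply max_le
      · apply Real.one_le_exp; positivity
      · calc Sz ≤ Real.exp N * (Real.exp N * W) * W := by rw [hSz]; gcongr
          _ = Real.exp (2 * N + 2 * C1 * Λ * N) := by
            rw [hW, ← Real.exp_add, ← Real.exp_add, ← Real.exp_add]; congr 1; ring
    have hy : ∑ l, aeval θ (a l) * rr.b l ≠ 0 := by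
      rw [← ha3]
      apply mul_ne_zero (pow_ne_zero _ rr.hdl)
      apply mul_ne_zero _ hne
      exact_mod_cast hDnpos.ne'
    obtain ⟨A, hA0, hAd, hAl, hAn⟩ := hnorm (2 * H) Sz' (le_max_left _ _) a ha1
      (fun l => (ha2 l).trans (le_max_right _ _)) hy
    have hCS : C2 * Sz' * T ^ (2 * H) ≤ Real.exp (3 * N + 2 * C1 * Λ * N) := by
      calc C2 * Sz' * T ^ (2 * H) = K4 * Sz' := by rw [hK4]; ring
        _ ≤ Real.exp N * Real.exp (2 * N + 2 * C1 * Λ * N) := by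
          gcongr
          exact absorb_const (by linarith)
        _ = _ := by rw [← Real.exp_add]; congr 1; ring
    have hCS' : C2 * Sz' ≤ Real.exp (3 * N + 2 * C1 * Λ * N) := by
      refine le_trans ?_ hCS
      have h1 : 0 ≤ C2 * Sz' := by positivity
      have h2 : 1 ≤ T ^ (2 * H) := one_le_pow₀ hT1
      exact le_mul_of_one_le_right h1 h2
    have hexpd : ((Real.exp (3 * N + 2 * C1 * Λ * N)) ^ d : ℝ) =
        Real.exp (d * (3 * N + 2 * C1 * Λ * N)) := by rw [← Real.exp_nat_mul]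
    have hdle : (d : ℝ) * (3 * N + 2 * C1 * Λ * N) ≤ d * (3 + 2 * C1) * (Λ * N) := by
      have : 3 * N + 2 * C1 * Λ * N ≤ (3 + 2 * C1) * (Λ * N) := aux_lin (by norm_num) hΛN
      calc (d : ℝ) * (3 * N + 2 * C1 * Λ * N) ≤ d * ((3 + 2 * C1) * (Λ * N)) := by gcongr
        _ = _ := by ring
    refine ⟨A, hA0, ?_, ?_, ?_⟩
    · have h1 : (A.natDegree : ℝ) ≤ d * (2 * H + D1) := by exact_mod_cast hAd
      refine h1.trans ?_
      have h2 : ((H : ℕ) : ℝ) = (n : ℝ) * L * rr.D0 + 1 := by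
        rw [hH, hs]; push_cast; ring
      rw [h2]
      have h3 : (d : ℝ) * (2 * ((n : ℝ) * L * rr.D0 + 1) + D1) ≤ Cd * L := by
        rw [hCd]
        have h4 : (2 * ((n : ℝ) * L * rr.D0 + 1) + D1) ≤ 2 * (n * rr.D0 + 1 + D1) * L :=
          aux_deg (Nat.cast_nonneg _) hL2 (Nat.cast_nonneg _) (Nat.cast_nonneg _)
        calc (d : ℝ) * (2 * ((n : ℝ) * L * rr.D0 + 1) + D1)
            ≤ d * (2 * (n * rr.D0 + 1 + D1) * L) := by gcongr
          _ = _ := by ring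
      refine h3.trans ?_
      have h4 : Cd ≤ C := by rw [hC]; linarith
      have h5 : (0 : ℝ) ≤ L := Nat.cast_nonneg _
      gcongr
    · intro i
      refine (coeff_le_lz A i).trans (hAl.trans ?_)
      calc (C2 * Sz') ^ d ≤ (Real.exp (3 * N + 2 * C1 * Λ * N)) ^ d := by
            apply pow_le_pow_left₀ (by positivity) hCS'
        _ = Real.exp (d * (3 * N + 2 * C1 * Λ * N)) := hexpd
        _ ≤ Real.exp (C * Λ * N) := by
            apply hCΛ
            refine hdle.trans ?_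
            have h4 : (d : ℝ) * (3 + 2 * C1) ≤ C := by rw [hC]; linarith
            calc (d : ℝ) * (3 + 2 * C1) * (Λ * N) ≤ C * (Λ * N) := by gcongr
              _ = _ := by ring
    · refine hAn.trans ?_
      rw [← ha3, norm_mul, norm_mul, norm_pow, Complex.norm_natCast]
      have h1 : ‖aeval θ rr.dl‖ ^ s ≤ Real.exp N := absorb_const (by linarith)
      calc ‖aeval θ rr.dl‖ ^ s * ((Dn : ℝ) * ‖cν‖) * (C2 * Sz' * T ^ (2 * H)) ^ d
          ≤ Real.exp N * (W * ‖cν‖) * (Real.exp (3 * N + 2 * C1 * Λ * N)) ^ d := by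
            gcongr
        _ = Real.exp (N + C1 * Λ * N + d * (3 * N + 2 * C1 * Λ * N)) * ‖cν‖ := by
            rw [hexpd, Real.exp_add, Real.exp_add, hW]; ring
        _ ≤ Real.exp (C * Λ * N) * ‖cν‖ := by
            gcongr
            have h3 : 1 * N + C1 * Λ * N ≤ (1 + C1) * (Λ * N) := aux_lin (by norm_num) hΛN
            have h4 : (1 + C1) + (d : ℝ) * (3 + 2 * C1) ≤ C := by rw [hC]; linarith
            have h5 : ((1 + C1) + (d : ℝ) * (3 + 2 * C1)) * (Λ * N) ≤ C * (Λ * N) :=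
              mul_le_mul_of_nonneg_right h4 (by positivity)
            calc N + C1 * Λ * N + d * (3 * N + 2 * C1 * Λ * N)
                = (1 * N + C1 * Λ * N) + d * (3 * N + 2 * C1 * Λ * N) := by ring
              _ ≤ (1 + C1) * (Λ * N) + d * (3 + 2 * C1) * (Λ * N) := add_le_add h3 hdle
              _ = ((1 + C1) + (d : ℝ) * (3 + 2 * C1)) * (Λ * N) := by ring
              _ ≤ C * (Λ * N) := h5
              _ = C * Λ * N := by ring

end GP
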