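import Mathlib

/-!
Module Z0 of the project MP_c2409d_nt (helper25): an element `u` of small size for which the
auxiliary function vanishes to order at most `p * L1`.
-/

open Finset

namespace GP

/-- The composition of a polynomial with a linear map, as a polynomial. -/
noncomputable def compLin {κ : Type*} {m : ℕ} (Q : MvPolynomial κ ℂ)
    (A : (Fin m → ℂ) →ₗ[ℂ] (κ → ℂ)) : MvPolynomial (Fin m) ℂ :=
  MvPolynomial.aeval (fun t => ∑ i : Fin m,
    MvPolynomial.C (A (Pi.single i 1) t) * MvPolynomial.X i) Q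

theorem eval_compLin {κ : Type*} {m : ℕ} (Q : MvPolynomial κ ℂ)
    (A : (Fin m → ℂ) →ₗ[ℂ] (κ → ℂ)) (x : Fin m → ℂ) :
    MvPolynomial.eval x (compLin Q A) = MvPolynomial.eval (A x) Q := by
  unfold compLin
  have h1 : MvPolynomial.eval x (MvPolynomial.aeval (fun t => ∑ i : Fin m,
      MvPolynomial.C (A (Pi.single i 1) t) * MvPolynomial.X i) Q)
      = MvPolynomial.eval (fun t => MvPolynomial.eval x (∑ i : Fin m,
      MvPolynomial.C (A (Pi.single i 1) t) * MvPolynomial.X i)) Q := by
    induction Q using MvPolynomial.induction_on with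
    | C a => simp
    | add p q hp hq => simp only [map_add, hp, hq]
    | mul_X p n hp => simp only [map_mul, hp, MvPolynomial.aeval_X, MvPolynomial.eval_X]
  rw [h1]
  congr 2
  funext t
  have h2 : x = ∑ i : Fin m, x i • (Pi.single i (1:ℂ) : Fin m → ℂ) := by
    funext s
    simp [Finset.sum_apply, Pi.single_apply]
  conv_rhs => rw [h2]
  simp [map_sum, Finset.sum_apply, mul_comm]

theorem totalDegree_compLin {κ : Type*} {m : ℕ} (Q : MvPolynomial κ ℂ)
    (A : (Fin m → ℂ) →ₗ[ℂ] (κ → ℂ)) :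
    (compLin Q A).totalDegree ≤ Q.totalDegree := by
  unfold compLin
  rw [MvPolynomial.aeval_def, MvPolynomial.eval₂_eq]
  refine (MvPolynomial.totalDegree_finsetSum _ _).trans ?_
  refine Finset.sup_le fun s hs => ?_
  refine (MvPolynomial.totalDegree_mul _ _).trans ?_
  have h0 : (algebraMap ℂ (MvPolynomial (Fin m) ℂ) (Q.coeff s)).totalDegree = 0 := by
    rw [MvPolynomial.algebraMap_eq]; exact MvPolynomial.totalDegree_C _
  rw [h0, zero_add]
  refine (MvPolynomial.totalDegree_finsetProd _ _).trans ?_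
  have h1 : ∀ t : κ, (∑ i : Fin m, MvPolynomial.C (A (Pi.single i 1) t) *
      (MvPolynomial.X i : MvPolynomial (Fin m) ℂ)).totalDegree ≤ 1 := by
    intro t
    refine (MvPolynomial.totalDegree_finsetSum _ _).trans ?_
    refine Finset.sup_le fun i _ => ?_
    refine (MvPolynomial.totalDegree_mul _ _).trans ?_
    rw [MvPolynomial.totalDegree_C, MvPolynomial.totalDegree_X]
  calc ∑ t ∈ s.support, ((∑ i : Fin m, MvPolynomial.C (A (Pi.single i 1) t) *
      (MvPolynomial.X i : MvPolynomial (Fin m) ℂ)) ^ (s t)).totalDegree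
      ≤ ∑ t ∈ s.support, s t * 1 := by
        refine Finset.sum_le_sum fun t _ => ?_
        refine (MvPolynomial.totalDegree_pow _ _).trans ?_
        exact Nat.mul_le_mul_left _ (h1 t)
    _ = s.sum (fun _ e => e) := by simp [Finsupp.sum]
    _ ≤ Q.totalDegree := MvPolynomial.le_totalDegree hs

/-- A nonzero polynomial of total degree at most `d` composed with a surjective linear map
does not vanish on the grid `{0, ..., d} ^ m`. -/
theorem exists_grid {κ : Type*} {m d : ℕ} (Q : MvPolynomial κ ℂ) (hQ : Q ≠ 0)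
    (hd : Q.totalDegree ≤ d) (A : (Fin m → ℂ) →ₗ[ℂ] (κ → ℂ)) (hA : Function.Surjective A) :
    ∃ v : Fin m → ℕ, (∀ i, v i ≤ d) ∧
      MvPolynomial.eval (A (fun i => (v i : ℂ))) Q ≠ 0 := by
  by_contra hcon
  push Not at hcon
  apply hQ
  have hR : compLin Q A = 0 := by
    apply MvPolynomial.eq_zero_of_eval_zero_at_prod_finset (compLin Q A)
      (fun _ => (Finset.range (d+1)).image (fun k : ℕ => (k : ℂ)))
    · intro i
      rw [Finset.card_image_of_injective _ Nat.cast_injective, Finset.card_range]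
      have := MvPolynomial.degreeOf_le_totalDegree (compLin Q A) i
      have := totalDegree_compLin Q A
      omega
    · intro x hx
      have h1 : ∀ i, ∃ k : ℕ, k ≤ d ∧ (k : ℂ) = x i := by
        intro i
        have := hx i
        simp only [Finset.mem_image, Finset.mem_range] at this
        obtain ⟨k, hk, he⟩ := this
        exact ⟨k, by omega, he⟩
      choose v hv hx' using h1
      have h2 := hcon v hv
      rw [eval_compLin]
      have h3 : (fun i => (v i : ℂ)) = x := funext hx'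
      rwa [h3] at h2
  apply MvPolynomial.funext
  intro y
  obtain ⟨x, rfl⟩ := hA y
  rw [← eval_compLin, hR]
  simp

/-- Vandermonde surjectivity. -/
theorem vander_surj {κ : Type*} [Fintype κ] {m : ℕ} (hcard : Fintype.card κ ≤ m)
    (x : κ → ℂ) (hx : Function.Injective x) (b : κ → ℂ) (hb : ∀ t, b t ≠ 0) (y : κ → ℂ) :
    ∃ v : Fin m → ℂ, ∀ t, b t * ∑ i : Fin m, v i * x t ^ (i : ℕ) = y t := by
  classical
  set F : Polynomial ℂ := Lagrange.interpolate Finset.univ x (fun t => y t / b t) with hF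
  have hdeg : F.degree < (Fintype.card κ : ℕ) := by
    have := Lagrange.degree_interpolate_lt (s := (Finset.univ : Finset κ)) (v := x)
      (fun t => y t / b t) hx.injOn
    rw [Finset.card_univ] at this
    exact this
  refine ⟨fun i => F.coeff i, fun t => ?_⟩
  have he : F.eval (x t) = y t / b t :=
    Lagrange.eval_interpolate_at_node _ hx.injOn (Finset.mem_univ t)
  have h2 : ∑ i : Fin m, F.coeff i * x t ^ (i : ℕ) = F.eval (x t) := by
    rw [Finset.sum_range (fun i => F.coeff i * x t ^ i) |>.symm]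
    rw [Polynomial.eval_eq_sum_range' (n := m)]
    by_cases h0 : F = 0
    · simp only [h0, Polynomial.natDegree_zero]
      have : 0 < Fintype.card κ := Fintype.card_pos_iff.mpr ⟨t⟩
      omega
    · have := (Polynomial.natDegree_lt_iff_degree_lt h0).mpr hdeg
      omega
  rw [h2, he]
  field_simp [hb t]

/-- The polynomial in an auxiliary variable `k` whose value at `k` is the auxiliary series of
`k v`, where `a = A v`. -/
noncomputable def kpol {κ : Type*} [Fintype κ] [DecidableEq κ] {L1 L : ℕ}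
    (X1 X0 : PowerSeries ℂ) (G : κ → PowerSeries ℂ) (a : κ → ℂ)
    (P : Fin (L1+1) → (κ → Fin L) → ℂ) : Polynomial (PowerSeries ℂ) :=
  ∑ i : Fin (L1+1), ∑ j : κ → Fin L,
    Polynomial.C (PowerSeries.C (P i j) * X1 ^ (i : ℕ) * X0 ^ (L1 - (i : ℕ))) *
      ∏ t, (Polynomial.C (G t) + Polynomial.C (PowerSeries.C (a t)) * Polynomial.X) ^ (j t : ℕ)

/-- The auxiliary series. -/
noncomputable def aser {κ : Type*} [Fintype κ] [DecidableEq κ] {L1 L : ℕ}
    (X1 X0 : PowerSeries ℂ) (G : κ → PowerSeries ℂ) (b : κ → ℂ)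
    (P : Fin (L1+1) → (κ → Fin L) → ℂ) : PowerSeries ℂ :=
  ∑ i : Fin (L1+1), ∑ j : κ → Fin L,
    PowerSeries.C (P i j) * X1 ^ (i : ℕ) * X0 ^ (L1 - (i : ℕ)) *
      ∏ t, (G t + PowerSeries.C (b t)) ^ (j t : ℕ)

theorem eval_kpol {κ : Type*} [Fintype κ] [DecidableEq κ] {L1 L : ℕ}
    (X1 X0 : PowerSeries ℂ) (G : κ → PowerSeries ℂ) (a : κ → ℂ)
    (P : Fin (L1+1) → (κ → Fin L) → ℂ) (k : ℂ) :
    (kpol X1 X0 G a P).eval (PowerSeries.C k) = aser X1 X0 G (fun t => k * a t) P := by
  unfold kpol aser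
  simp only [Polynomial.eval_finsetSum, Polynomial.eval_mul, Polynomial.eval_C,
    Polynomial.eval_prod, Polynomial.eval_pow, Polynomial.eval_add, Polynomial.eval_X, map_mul]
  simp only [mul_comm]

theorem coeff_prod_le {R κ : Type*} [CommRing R] [DecidableEq κ] (s : Finset κ)
    (f : κ → Polynomial R) (e : κ → ℕ) (h : ∀ t, (f t).natDegree ≤ e t) :
    (∏ t ∈ s, f t).coeff (∑ t ∈ s, e t) = ∏ t ∈ s, (f t).coeff (e t) := by
  induction s using Finset.induction_on with
  | empty => simp
  | insert a s ha ih =>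
    rw [Finset.prod_insert ha, Finset.sum_insert ha, Finset.prod_insert ha, ← ih]
    apply Polynomial.coeff_mul_add_eq_of_natDegree_le (h a)
    refine (Polynomial.natDegree_prod_le _ _).trans ?_
    exact Finset.sum_le_sum fun t _ => h t

/-- Coefficient of `k ^ d` of a product of linear factors with at most `d` factors. -/
theorem coeff_prod_lin {R κ : Type*} [CommRing R] [Fintype κ] [DecidableEq κ]
    (g c : κ → R) (e : κ → ℕ) (d : ℕ) (hd : ∑ t, e t ≤ d) :
    (∏ t, (Polynomial.C (g t) + Polynomial.C (c t) * Polynomial.X) ^ (e t)).natDegree ≤ d ∧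
    (∏ t, (Polynomial.C (g t) + Polynomial.C (c t) * Polynomial.X) ^ (e t)).coeff d =
      if ∑ t, e t = d then ∏ t, (c t) ^ (e t) else 0 := by
  have h1 : ∀ t, (Polynomial.C (g t) + Polynomial.C (c t) * Polynomial.X).natDegree ≤ 1 := by
    intro t
    rw [add_comm]
    exact Polynomial.natDegree_linear_le
  have h2 : ∀ t, ((Polynomial.C (g t) + Polynomial.C (c t) * Polynomial.X) ^ (e t)).natDegree
      ≤ e t := by
    intro t
    refine Polynomial.natDegree_pow_le.trans ?_
    have := Nat.mul_le_mul_left (e t) (h1 t)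
    simpa using this
  have h3 : (∏ t, (Polynomial.C (g t) + Polynomial.C (c t) * Polynomial.X) ^ (e t)).natDegree
      ≤ ∑ t, e t := by
    refine (Polynomial.natDegree_prod_le _ _).trans ?_
    exact Finset.sum_le_sum fun t _ => h2 t
  refine ⟨h3.trans hd, ?_⟩
  split_ifs with h
  · have h4 : (∏ t, (Polynomial.C (g t) + Polynomial.C (c t) * Polynomial.X) ^ (e t)).coeff
        (∑ t, e t) = ∏ t, ((Polynomial.C (g t) + Polynomial.C (c t) * Polynomial.X) ^
          (e t)).coeff (e t) :=
      coeff_prod_le _ _ _ h2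
    rw [← h, h4]
    refine Finset.prod_congr rfl fun t _ => ?_
    have h5 : ((Polynomial.C (g t) + Polynomial.C (c t) * Polynomial.X) ^ (e t)).coeff
        (e t * 1) = (Polynomial.C (g t) + Polynomial.C (c t) * Polynomial.X).coeff 1 ^ (e t) :=
      Polynomial.coeff_pow_of_natDegree_le (h1 t)
    rw [mul_one] at h5
    rw [h5]
    congr 1
    simp [Polynomial.coeff_C]
  · apply Polynomial.coeff_eq_zero_of_natDegree_lt
    omega

/-- The lowest coefficient of a nonzero form in `X1`, `X0`. -/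
theorem form_coeff {L1 p : ℕ} (hp : 0 < p) (X1 X0 : PowerSeries ℂ)
    (hX1 : ∀ ν < p, PowerSeries.coeff ν X1 = 0) (q : Fin (L1+1) → ℂ) (i0 : Fin (L1+1))
    (hmin : ∀ i < i0, q i = 0) :
    PowerSeries.coeff (p * (i0 : ℕ)) (∑ i : Fin (L1+1),
      PowerSeries.C (q i) * X1 ^ (i : ℕ) * X0 ^ (L1 - (i : ℕ))) =
      q i0 * (PowerSeries.coeff p X1) ^ (i0 : ℕ) *
        (PowerSeries.constantCoeff X0) ^ (L1 - (i0 : ℕ)) := by
  obtain ⟨Y, hY⟩ := PowerSeries.X_pow_dvd_iff.mpr hX1
  have hYp : PowerSeries.coeff p X1 = PowerSeries.constantCoeff Y := by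
    rw [hY, PowerSeries.coeff_X_pow_mul', if_pos le_rfl, Nat.sub_self,
      PowerSeries.coeff_zero_eq_constantCoeff_apply]
  rw [map_sum, Finset.sum_eq_single i0]
  · have h1 : PowerSeries.C (q i0) * X1 ^ (i0 : ℕ) * X0 ^ (L1 - (i0 : ℕ)) =
        PowerSeries.X ^ (p * (i0 : ℕ)) *
          (PowerSeries.C (q i0) * Y ^ (i0 : ℕ) * X0 ^ (L1 - (i0 : ℕ))) := by
      rw [hY, mul_pow, ← pow_mul]; ring
    rw [h1, PowerSeries.coeff_X_pow_mul', if_pos le_rfl, Nat.sub_self,
      PowerSeries.coeff_zero_eq_constantCoeff_apply, hYp]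
    simp
  · intro i _ hi
    rcases lt_or_gt_of_ne hi with h | h
    · rw [hmin i h]; simp
    · have h1 : PowerSeries.C (q i) * X1 ^ (i : ℕ) * X0 ^ (L1 - (i : ℕ)) =
          PowerSeries.X ^ (p * (i : ℕ)) *
            (PowerSeries.C (q i) * Y ^ (i : ℕ) * X0 ^ (L1 - (i : ℕ))) := by
        rw [hY, mul_pow, ← pow_mul]; ring
      rw [h1, PowerSeries.coeff_X_pow_mul', if_neg]
      have h2 : (i0 : ℕ) < (i : ℕ) := h
      have := Nat.mul_lt_mul_of_pos_left h2 hp
      omega
  · intro h; exact absurd (Finset.mem_univ _) h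

/-- Core of (Z0). -/
theorem zed_core {κ : Type*} [Fintype κ] [DecidableEq κ] {m L1 L p : ℕ} (hp : 0 < p)
    (X1 X0 : PowerSeries ℂ) (hX1 : ∀ ν < p, PowerSeries.coeff ν X1 = 0)
    (hX1p : PowerSeries.coeff p X1 ≠ 0) (hX0 : PowerSeries.constantCoeff X0 ≠ 0)
    (G : κ → PowerSeries ℂ) (A : (Fin m → ℂ) →ₗ[ℂ] (κ → ℂ)) (hA : Function.Surjective A)
    (P : Fin (L1+1) → (κ → Fin L) → ℂ) (hP : P ≠ 0) :
    ∃ v : Fin m → ℕ, (∀ i, v i ≤ Fintype.card κ * (L - 1)) ∧
      ∃ k ≤ Fintype.card κ * (L - 1), ∃ ν ≤ p * L1,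
        PowerSeries.coeff ν (aser X1 X0 G (fun t => (k : ℂ) * A (fun i => (v i : ℂ)) t) P) ≠ 0 := by
  classical
  -- the maximal degree
  obtain ⟨i1, j1, hij1, hmax⟩ : ∃ i1 j1, P i1 j1 ≠ 0 ∧ ∀ i j, P i j ≠ 0 →
      ∑ t, (j t : ℕ) ≤ ∑ t, (j1 t : ℕ) := by
    have hne : (Finset.univ.filter (fun ij : Fin (L1+1) × (κ → Fin L) =>
        P ij.1 ij.2 ≠ 0)).Nonempty := by
      by_contra hem
      rw [Finset.not_nonempty_iff_eq_empty] at hem
      apply hP
      funext i j
      by_contra h
      have : ((i, j) : Fin (L1+1) × (κ → Fin L)) ∈ Finset.univ.filter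
          (fun ij : Fin (L1+1) × (κ → Fin L) => P ij.1 ij.2 ≠ 0) := by
        simp only [Finset.mem_filter, Finset.mem_univ, true_and]
        exact h
      rw [hem] at this
      simp at this
    obtain ⟨ij, hm, hmx⟩ := Finset.exists_max_image _
      (fun ij : Fin (L1+1) × (κ → Fin L) => ∑ t, (ij.2 t : ℕ)) hne
    refine ⟨ij.1, ij.2, by simpa using hm, fun i j h => ?_⟩
    exact hmx (i, j) (by simp only [Finset.mem_filter, Finset.mem_univ, true_and]; exact h)
  set d : ℕ := ∑ t, (j1 t : ℕ) with hd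
  have hdle : d ≤ Fintype.card κ * (L - 1) := by
    rw [hd]
    refine (Finset.sum_le_sum (fun t _ => (Nat.le_sub_one_of_lt (j1 t).isLt))).trans ?_
    simp
  -- the top form
  set toF : (κ → Fin L) → (κ →₀ ℕ) := fun j => Finsupp.equivFunOnFinite.symm
    (fun t => (j t : ℕ)) with htoF
  have htoFinj : Function.Injective toF := by
    intro j j' h
    funext t
    have := DFunLike.congr_fun h t
    simpa [htoF, Fin.ext_iff] using this
  set Q : MvPolynomial κ ℂ := ∑ j : κ → Fin L, if ∑ t, (j t : ℕ) = d then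
    MvPolynomial.monomial (toF j) (P i1 j) else 0 with hQdef
  have hQ : Q ≠ 0 := by
    intro h0
    have h1 : MvPolynomial.coeff (toF j1) Q = P i1 j1 := by
      rw [hQdef, MvPolynomial.coeff_sum, Finset.sum_eq_single j1]
      · rw [if_pos hd.symm, MvPolynomial.coeff_monomial, if_pos rfl]
      · intro j _ hj
        split_ifs
        · rw [MvPolynomial.coeff_monomial, if_neg]
          intro h; exact hj (htoFinj h)
        · simp
      · intro h; exact absurd (Finset.mem_univ _) h
    rw [h0] at h1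
    simp at h1
    exact hij1 h1.symm
  have hQd : Q.totalDegree ≤ d := by
    rw [hQdef]
    refine (MvPolynomial.totalDegree_finsetSum _ _).trans ?_
    refine Finset.sup_le fun j _ => ?_
    split_ifs with h
    · refine (MvPolynomial.totalDegree_monomial_le _ _).trans ?_
      rw [← h, Finsupp.sum_fintype _ _ (by simp)]
      simp [htoF]
    · simp
  have hQe : ∀ x : κ → ℂ, MvPolynomial.eval x Q = ∑ j : κ → Fin L,
      if ∑ t, (j t : ℕ) = d then P i1 j * ∏ t, x t ^ (j t : ℕ) else 0 := by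
    intro x
    rw [hQdef, map_sum]
    refine Finset.sum_congr rfl fun j _ => ?_
    split_ifs
    · rw [MvPolynomial.eval_monomial, Finsupp.prod_fintype _ _ (by simp)]
      simp [htoF]
    · simp
  obtain ⟨v, hv, hQv⟩ := exists_grid Q hQ hQd A hA
  set a : κ → ℂ := A (fun i => (v i : ℂ)) with ha
  set q : Fin (L1+1) → ℂ := fun i => ∑ j : κ → Fin L,
      if ∑ t, (j t : ℕ) = d then P i j * ∏ t, a t ^ (j t : ℕ) else 0 with hq
  have hqi1 : q i1 ≠ 0 := by
    rw [hQe] at hQv
    exact hQv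
  obtain ⟨i0, hi0, hmin⟩ : ∃ i0, q i0 ≠ 0 ∧ ∀ i < i0, q i = 0 := by
    have hne : (Finset.univ.filter (fun i : Fin (L1+1) => q i ≠ 0)).Nonempty :=
      ⟨i1, by simp only [Finset.mem_filter, Finset.mem_univ, true_and]; exact hqi1⟩
    refine ⟨(Finset.univ.filter (fun i : Fin (L1+1) => q i ≠ 0)).min' hne, ?_, ?_⟩
    · have := Finset.min'_mem _ hne
      simpa using this
    · intro i hi
      by_contra hne'
      have := Finset.min'_le (Finset.univ.filter (fun i : Fin (L1+1) => q i ≠ 0)) i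
        (by simp only [Finset.mem_filter, Finset.mem_univ, true_and]; exact hne')
      exact absurd hi (not_lt.mpr this)
  refine ⟨v, fun i => (hv i).trans hdle, ?_⟩
  by_contra hcon
  push Not at hcon
  -- the polynomial in `k`
  set K := kpol X1 X0 G a P with hK
  have hterm : ∀ (i : Fin (L1+1)) (j : κ → Fin L),
      (Polynomial.C (PowerSeries.C (P i j) * X1 ^ (i : ℕ) * X0 ^ (L1 - (i : ℕ))) *
      ∏ t, (Polynomial.C (G t) + Polynomial.C (PowerSeries.C (a t)) * Polynomial.X) ^
        (j t : ℕ)).natDegree ≤ d ∧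
      (Polynomial.C (PowerSeries.C (P i j) * X1 ^ (i : ℕ) * X0 ^ (L1 - (i : ℕ))) *
      ∏ t, (Polynomial.C (G t) + Polynomial.C (PowerSeries.C (a t)) * Polynomial.X) ^
        (j t : ℕ)).coeff d = PowerSeries.C (if ∑ t, (j t : ℕ) = d then
          P i j * ∏ t, a t ^ (j t : ℕ) else 0) * X1 ^ (i : ℕ) * X0 ^ (L1 - (i : ℕ)) := by
    intro i j
    by_cases h0 : P i j = 0
    · simp [h0]
    have hj := hmax i j h0
    obtain ⟨hA1, hA2⟩ := coeff_prod_lin G (fun t => PowerSeries.C (a t))
      (fun t => (j t : ℕ)) d hj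
    refine ⟨(Polynomial.natDegree_C_mul_le _ _).trans hA1, ?_⟩
    rw [Polynomial.coeff_C_mul, hA2]
    split_ifs with h
    · simp only [map_mul, map_prod, map_pow]
      ring
    · simp
  have hKd : K.natDegree ≤ d := by
    rw [hK]
    unfold kpol
    refine Polynomial.natDegree_sum_le_of_forall_le _ _ fun i _ => ?_
    refine Polynomial.natDegree_sum_le_of_forall_le _ _ fun j _ => ?_
    exact (hterm i j).1
  have hKc : K.coeff d = ∑ i : Fin (L1+1),
      PowerSeries.C (q i) * X1 ^ (i : ℕ) * X0 ^ (L1 - (i : ℕ)) := by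
    rw [hK]
    unfold kpol
    rw [Polynomial.finsetSum_coeff]
    refine Finset.sum_congr rfl fun i _ => ?_
    rw [Polynomial.finsetSum_coeff, Finset.sum_congr rfl (fun j _ => (hterm i j).2), hq]
    simp only
    rw [map_sum, Finset.sum_mul, Finset.sum_mul]
  set ν : ℕ := p * (i0 : ℕ) with hν
  have hνle : ν ≤ p * L1 := Nat.mul_le_mul_left _ (Nat.lt_succ_iff.mp i0.isLt)
  set F : Polynomial ℂ := ∑ s ∈ Finset.range (d+1),
    Polynomial.monomial s (PowerSeries.coeff ν (K.coeff s)) with hF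
  have hFe : ∀ z : ℂ, F.eval z = PowerSeries.coeff ν (aser X1 X0 G (fun t => z * a t) P) := by
    intro z
    rw [← eval_kpol, ← hK, Polynomial.eval_eq_sum_range' (Nat.lt_succ_of_le hKd), map_sum, hF,
      Polynomial.eval_finsetSum]
    refine Finset.sum_congr rfl fun s _ => ?_
    rw [Polynomial.eval_monomial, ← map_pow, mul_comm (K.coeff s), PowerSeries.coeff_C_mul]
    ring
  have hFd : F.natDegree < d + 1 := by
    rw [hF, Nat.lt_succ_iff]
    refine Polynomial.natDegree_sum_le_of_forall_le _ _ fun s hs => ?_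
    refine (Polynomial.natDegree_monomial_le _).trans ?_
    exact Nat.lt_succ_iff.mp (Finset.mem_range.mp hs)
  have hF0 : F = 0 := by
    apply Polynomial.eq_zero_of_natDegree_lt_card_of_eval_eq_zero' F
      ((Finset.range (d+1)).image (fun k : ℕ => (k : ℂ)))
    · intro z hz
      simp only [Finset.mem_image, Finset.mem_range] at hz
      obtain ⟨k, hk, rfl⟩ := hz
      rw [hFe]
      exact hcon k (by omega) ν hνle
    · rw [Finset.card_image_of_injective _ Nat.cast_injective, Finset.card_range]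
      exact hFd
  have hFc : F.coeff d = PowerSeries.coeff ν (K.coeff d) := by
    rw [hF, Polynomial.finsetSum_coeff, Finset.sum_eq_single d]
    · simp
    · intro s _ hs
      rw [Polynomial.coeff_monomial, if_neg hs]
    · intro h; exact absurd (Finset.mem_range.mpr (Nat.lt_succ_self d)) h
  rw [hF0, hKc, hν, form_coeff hp X1 X0 hX1 q i0 hmin] at hFc
  simp only [Polynomial.coeff_zero] at hFc
  exact (mul_ne_zero (mul_ne_zero hi0 (pow_ne_zero _ hX1p)) (pow_ne_zero _ hX0)) hFc.symm

end GP
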