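import Mathlib
import Pool.Agent.GP.ArDen
import Pool.Agent.GP.ArNorm
import Pool.Agent.GP.Zed

/-!
The linear forms: the coefficients of the auxiliary function as polynomials in `θ` over a number
field; degrees, denominators, sizes.
-/

set_option autoImplicit false

open Finset NumberField Polynomial

namespace GP

/-- All coefficients of the power series `f` over `R[X]` have degree at most `d`. -/
def DegLE {R : Type*} [CommRing R] (d : ℕ) (f : PowerSeries R[X]) : Prop :=
  ∀ ν, (PowerSeries.coeff ν f).natDegree ≤ d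

section Deg

variable {R : Type*} [CommRing R]

theorem DegLE.mono {d e : ℕ} (h : d ≤ e) {f : PowerSeries R[X]} (hf : DegLE d f) : DegLE e f :=
  fun ν => (hf ν).trans h

theorem DegLE.mul {d e : ℕ} {f g : PowerSeries R[X]} (hf : DegLE d f) (hg : DegLE e g) :
    DegLE (d + e) (f * g) := by
  intro ν
  rw [PowerSeries.coeff_mul]
  apply natDegree_sum_le_of_forall_le
  intro x _
  exact natDegree_mul_le.trans (add_le_add (hf _) (hg _))

theorem DegLE.add {d : ℕ} {f g : PowerSeries R[X]} (hf : DegLE d f) (hg : DegLE d g) :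
    DegLE d (f + g) := by
  intro ν
  rw [map_add]
  exact (natDegree_add_le _ _).trans (max_le (hf ν) (hg ν))

theorem DegLE.C {d : ℕ} {a : R[X]} (h : a.natDegree ≤ d) : DegLE d (PowerSeries.C a) := by
  intro ν
  rw [PowerSeries.coeff_C]
  split_ifs
  · exact h
  · simp

theorem DegLE.one : DegLE 0 (1 : PowerSeries R[X]) := by
  have := DegLE.C (R := R) (d := 0) (a := 1) (by simp)
  rwa [map_one] at this

theorem DegLE.prod {κ : Type*} [DecidableEq κ] (S : Finset κ) (f : κ → PowerSeries R[X])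
    (d : κ → ℕ) (h : ∀ x ∈ S, DegLE (d x) (f x)) : DegLE (∑ x ∈ S, d x) (∏ x ∈ S, f x) := by
  induction S using Finset.induction_on with
  | empty => simpa using DegLE.one
  | insert a S ha ih =>
    rw [sum_insert ha, prod_insert ha]
    exact (h a (mem_insert_self a S)).mul (ih fun x hx => h x (mem_insert_of_mem hx))

theorem DegLE.pow {d : ℕ} {f : PowerSeries R[X]} (hf : DegLE d f) (k : ℕ) :
    DegLE (k * d) (f ^ k) := by
  have := DegLE.prod (range k) (fun _ => f) (fun _ => d) (fun _ _ => hf)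
  simpa using this

theorem DegLE.map_int (f : PowerSeries ℤ) : DegLE 0 (f.map (Int.castRingHom R[X])) := by
  intro ν
  rw [PowerSeries.coeff_map]
  simp

end Deg

section Forms

variable {T : Type} [Fintype T] {K : Type} [Field K] [NumberField K]

/-- The factor `θ^a G + θ^b v`. -/
noncomputable def facK (G : T → PowerSeries ℚ) (a b : T → ℕ) (v : T → K) (t : T) :
    PowerSeries K[X] :=
  PowerSeries.C (X ^ a t) * (G t).map (algebraMap ℚ K[X]) + PowerSeries.C (monomial (b t) (v t))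

/-- The product `X1^i X0^(L1-i) ∏ (θ^a G + θ^b v)^j`. -/
noncomputable def termK (X1 X0 : PowerSeries ℤ) (G : T → PowerSeries ℚ) (a b : T → ℕ) (v : T → K)
    (L1 i : ℕ) (j : T → ℕ) : PowerSeries K[X] :=
  (X1.map (Int.castRingHom K[X])) ^ i * (X0.map (Int.castRingHom K[X])) ^ (L1 - i) *
    ∏ t, facK G a b v t ^ j t

omit [Fintype T] in
theorem map_facK (ι : K →+* ℂ) (θ : ℂ) (G : T → PowerSeries ℚ) (a b : T → ℕ) (v : T → K)
    (β : T → ℂ) (hβ : ∀ t, β t * θ ^ a t = ι (v t) * θ ^ b t) (t : T) :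
    (facK G a b v t).map (eval₂RingHom ι θ) =
      PowerSeries.C (θ ^ a t) * ((G t).map (algebraMap ℚ ℂ) + PowerSeries.C (β t)) := by
  unfold facK
  rw [map_add, map_mul, PowerSeries.map_C, PowerSeries.map_C, mul_add, ← map_mul]
  congr 1
  · congr 1
    · simp
    · ext n
      simp only [PowerSeries.coeff_map]
      simp
  · congr 1
    rw [coe_eval₂RingHom, eval₂_monomial, ← hβ t, mul_comm]

theorem map_termK (ι : K →+* ℂ) (θ : ℂ) (X1 X0 : PowerSeries ℤ) (G : T → PowerSeries ℚ)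
    (a b : T → ℕ) (v : T → K)
    (β : T → ℂ) (hβ : ∀ t, β t * θ ^ a t = ι (v t) * θ ^ b t) (L1 i : ℕ) (j : T → ℕ) :
    (termK X1 X0 G a b v L1 i j).map (eval₂RingHom ι θ) =
      PowerSeries.C (θ ^ ∑ t, a t * j t) * (X1.map (Int.castRingHom ℂ)) ^ i *
        (X0.map (Int.castRingHom ℂ)) ^ (L1 - i) *
        ∏ t, ((G t).map (algebraMap ℚ ℂ) + PowerSeries.C (β t)) ^ j t := by
  unfold termK
  have hX : ∀ Y : PowerSeries ℤ, PowerSeries.map (eval₂RingHom ι θ)
      (Y.map (Int.castRingHom K[X])) = Y.map (Int.castRingHom ℂ) := by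
    intro Y
    ext n
    simp [PowerSeries.coeff_map]
  rw [map_mul, map_mul, map_pow, map_pow, hX, hX, map_prod]
  have h1 : ∏ t, PowerSeries.map (eval₂RingHom ι θ) (facK G a b v t ^ j t) =
      PowerSeries.C (θ ^ ∑ t, a t * j t) *
        ∏ t, ((G t).map (algebraMap ℚ ℂ) + PowerSeries.C (β t)) ^ j t := by
    rw [← prod_pow_eq_pow_sum, map_prod, ← prod_mul_distrib]
    apply prod_congr rfl
    intro t _
    rw [map_pow, map_facK ι θ G a b v β hβ, mul_pow, pow_mul, ← map_pow]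
  rw [h1]
  ring

omit [Fintype T] in
theorem degLE_facK (G : T → PowerSeries ℚ) (a b : T → ℕ) (v : T → K) (t : T) :
    DegLE (a t + b t) (facK G a b v t) := by
  unfold facK
  apply DegLE.add
  · intro ν
    rw [PowerSeries.coeff_C_mul, PowerSeries.coeff_map]
    refine natDegree_mul_le.trans ?_
    rw [natDegree_X_pow]
    have : (algebraMap ℚ K[X] (PowerSeries.coeff ν (G t))).natDegree = 0 := by
      rw [Polynomial.algebraMap_apply]
      exact natDegree_C _
    omega
  · apply DegLE.C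
    exact (natDegree_monomial_le _).trans (Nat.le_add_left _ _)

theorem degLE_termK (X1 X0 : PowerSeries ℤ) (G : T → PowerSeries ℚ) (a b : T → ℕ) (v : T → K)
    (L1 i : ℕ) (j : T → ℕ) (L : ℕ) (hj : ∀ t, j t ≤ L) :
    DegLE (L * ∑ t, (a t + b t)) (termK X1 X0 G a b v L1 i j) := by
  classical
  unfold termK
  have h1 := (DegLE.map_int (R := K) X1).pow i
  have h2 := (DegLE.map_int (R := K) X0).pow (L1 - i)
  have h3 := DegLE.prod univ (fun t => facK G a b v t ^ j t) (fun t => j t * (a t + b t))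
    (fun t _ => (degLE_facK G a b v t).pow (j t))
  refine ((h1.mul h2).mul h3).mono ?_
  rw [mul_zero, mul_zero, zero_add, zero_add, mul_sum]
  exact sum_le_sum fun t _ => Nat.mul_le_mul_right _ (hj t)

/-- The subring of polynomials with integral coefficients. -/
noncomputable def intPoly (K : Type) [Field K] [NumberField K] : Subring K[X] :=
  (mapRingHom (algebraMap (𝓞 K) K)).range

theorem mem_intPoly {f : K[X]} : f ∈ intPoly K ↔ ∀ k, IsIntegral ℤ (f.coeff k) := by
  constructor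
  · rintro ⟨g, rfl⟩ k
    rw [coe_mapRingHom, coeff_map]
    exact RingOfIntegers.isIntegral_coe _
  · intro h
    have h1 : f ∈ lifts (algebraMap (𝓞 K) K) := by
      rw [lifts_iff_coeff_lifts]
      intro n
      exact ⟨⟨f.coeff n, h n⟩, rfl⟩
    obtain ⟨g, hg⟩ := (mem_lifts f).1 h1
    exact ⟨g, hg⟩

theorem monomial_mem_intPoly (k : ℕ) {x : K} (hx : IsIntegral ℤ x) :
    monomial k x ∈ intPoly K := by
  rw [mem_intPoly]
  intro n
  rw [coeff_monomial]
  split_ifs
  · exact hx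
  · exact isIntegral_zero

theorem intCast_mem_intPoly (z : ℤ) : ((z : ℤ) : K[X]) ∈ intPoly K := intCast_mem _ z

omit [Fintype T] in
theorem hasDen_facK {p : ℕ} (G : T → PowerSeries ℚ) (a : T → ℕ) (t : T)
    (h0 : PowerSeries.coeff 0 (G t) = 0)
    (h : ∀ ν : ℕ, 0 < ν → ∃ z : ℤ, ((p ^ (2 * ν) * ν : ℕ) : ℚ) * PowerSeries.coeff ν (G t) = z) :
    HasDen (intPoly K) p (PowerSeries.C (X ^ a t) * (G t).map (algebraMap ℚ K[X])) := by
  constructor
  · rw [PowerSeries.coeff_C_mul, PowerSeries.coeff_map, h0, map_zero, mul_zero]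
  · intro ν hν
    obtain ⟨z, hz⟩ := h ν hν
    rw [PowerSeries.coeff_C_mul, PowerSeries.coeff_map, mul_left_comm]
    apply (intPoly K).mul_mem
    · rw [← monomial_one_right_eq_X_pow]
      exact monomial_mem_intPoly _ isIntegral_one
    · have : ((p ^ (2 * ν) * ν : ℕ) : K[X]) * algebraMap ℚ K[X] (PowerSeries.coeff ν (G t)) =
          ((z : ℤ) : K[X]) := by
        rw [← map_natCast (algebraMap ℚ K[X]) (p ^ (2 * ν) * ν), ← map_mul, hz, map_intCast]
      rw [this]
      exact intCast_mem_intPoly z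

/-- Denominators of the coefficients of `termK`. -/
theorem termK_coeff_mem [DecidableEq T] {p D N s : ℕ} (X1 X0 : PowerSeries ℤ)
    (G : T → PowerSeries ℚ) (a b : T → ℕ) (v : T → K) (L1 i : ℕ) (j : T → ℕ)
    (h0 : ∀ t, PowerSeries.coeff 0 (G t) = 0)
    (h : ∀ t, ∀ ν : ℕ, 0 < ν → ∃ z : ℤ, ((p ^ (2 * ν) * ν : ℕ) : ℚ) * PowerSeries.coeff ν (G t) = z)
    (hv : ∀ t, IsIntegral ℤ ((D : K) * v t)) (hj : ∑ t, j t ≤ s) {ν : ℕ} (hν : ν ≤ N) :
    ((D ^ s * (p ^ (2 * N) * lcmProd N s) : ℕ) : K[X]) *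
      PowerSeries.coeff ν (termK X1 X0 G a b v L1 i j) ∈ intPoly K := by
  have e1 : ∏ t, facK G a b v t ^ j t =
      ∏ x ∈ univ.sigma (fun t => range (j t)),
        (PowerSeries.C (X ^ a x.1) * (G x.1).map (algebraMap ℚ K[X]) +
          PowerSeries.C (monomial (b x.1) (v x.1))) := by
    rw [prod_sigma]
    apply prod_congr rfl
    intro t _
    simp only [prod_const, card_range]
    rfl
  unfold termK
  rw [e1]
  apply mul_prod_add_coeff_mem
  · rw [card_sigma]
    simpa using hj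
  · intro x _
    exact hasDen_facK G a x.1 (h0 _) (h _)
  · intro x _
    have : ((D : ℕ) : K[X]) * monomial (b x.1) (v x.1) = monomial (b x.1) ((D : K) * v x.1) := by
      rw [← C_mul_monomial]
      simp
    rw [this]
    exact monomial_mem_intPoly _ (hv _)
  · have hX : ∀ (Y : PowerSeries ℤ) (k : ℕ),
        ∀ ν, PowerSeries.coeff ν ((Y.map (Int.castRingHom K[X])) ^ k) ∈ intPoly K := by
      intro Y k ν
      rw [← map_pow, PowerSeries.coeff_map]
      exact intCast_mem_intPoly _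
    intro ν
    rw [PowerSeries.coeff_mul]
    apply (intPoly K).sum_mem
    intro x _
    exact (intPoly K).mul_mem (hX _ _ _) (hX _ _ _)
  · exact hν

theorem house_ratCast (q : ℚ) : house ((q : ℚ) : K) = |(q : ℝ)| := by
  unfold house
  have : canonicalEmbedding K (q : K) = fun _ => (q : ℂ) := by
    funext τ
    simp [canonicalEmbedding.apply_at]
  rw [this]
  have : Nonempty (K →+* ℂ) := inferInstance
  rw [pi_norm_const]
  rw [show (q : ℂ) = ((q : ℝ) : ℂ) by push_cast; rfl, Complex.norm_real, Real.norm_eq_abs]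

theorem wS_map_rat (N : ℕ) (G : PowerSeries ℚ) :
    wS (polyH K) N (G.map (algebraMap ℚ K[X])) ≤
      ∑ i ∈ range (N + 1), |((PowerSeries.coeff i G : ℚ) : ℝ)| * (1 / 2 : ℝ) ^ i := by
  unfold wS
  apply sum_le_sum
  intro i _
  apply mul_le_mul_of_nonneg_right _ (by positivity)
  rw [PowerSeries.coeff_map, Polynomial.algebraMap_apply]
  refine (polyH_C _).trans ?_
  rw [← house_ratCast (K := K)]
  rfl

theorem wS_map_int (N : ℕ) (G : PowerSeries ℤ) :
    wS (polyH K) N (G.map (Int.castRingHom K[X])) ≤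
      ∑ i ∈ range (N + 1), |((PowerSeries.coeff i G : ℤ) : ℝ)| * (1 / 2 : ℝ) ^ i := by
  unfold wS
  apply sum_le_sum
  intro i _
  apply mul_le_mul_of_nonneg_right _ (by positivity)
  rw [PowerSeries.coeff_map]
  have : (Int.castRingHom K[X]) (PowerSeries.coeff i G) =
      C (((PowerSeries.coeff i G : ℤ) : K)) := by simp
  rw [this]
  refine (polyH_C _).trans ?_
  rw [house_intCast]
  simp

/-- Size of the coefficients of `termK`. -/
theorem polyH_termK_le (X1 X0 : PowerSeries ℤ) (G : T → PowerSeries ℚ) (a b : T → ℕ) (v : T → K)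
    (L1 i : ℕ) (hi : i ≤ L1) (j : T → ℕ) {CX CG Cv : ℝ} (hCX : 1 ≤ CX) (hCG : 1 ≤ CG + Cv)
    {N s : ℕ}
    (hX1 : ∑ i ∈ range (N + 1), |((PowerSeries.coeff i X1 : ℤ) : ℝ)| * (1 / 2 : ℝ) ^ i ≤ CX)
    (hX0 : ∑ i ∈ range (N + 1), |((PowerSeries.coeff i X0 : ℤ) : ℝ)| * (1 / 2 : ℝ) ^ i ≤ CX)
    (hG : ∀ t, ∑ i ∈ range (N + 1), |((PowerSeries.coeff i (G t) : ℚ) : ℝ)| * (1 / 2 : ℝ) ^ i ≤ CG)
    (hv : ∀ t, house (v t) ≤ Cv) (hj : ∑ t, j t ≤ s) {ν : ℕ} (hν : ν ≤ N) :
    polyH K (PowerSeries.coeff ν (termK X1 X0 G a b v L1 i j)) ≤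
      2 ^ N * (CX ^ L1 * (CG + Cv) ^ s) := by
  have hfac : ∀ t, wS (polyH K) N (facK G a b v t) ≤ CG + Cv := by
    intro t
    unfold facK
    refine (wS_add_le _ _ _ _).trans ?_
    apply add_le_add
    · refine (wS_mul_le _ _ _ _).trans ?_
      have h1 : wS (polyH K) N (PowerSeries.C (X ^ a t)) ≤ 1 :=
        (wS_C_le _ _ _).trans (polyH_X_pow _)
      have h2 := (wS_map_rat (K := K) N (G t)).trans (hG t)
      calc _ ≤ 1 * CG := mul_le_mul h1 h2 (wS_nonneg _ _ _) zero_le_one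
        _ = CG := one_mul _
    · exact (wS_C_le _ _ _).trans ((polyH_monomial _ _).trans (hv t))
  have hterm : wS (polyH K) N (termK X1 X0 G a b v L1 i j) ≤ CX ^ L1 * (CG + Cv) ^ s := by
    unfold termK
    refine (wS_mul_le _ _ _ _).trans ?_
    apply mul_le_mul _ _ (wS_nonneg _ _ _) (by positivity)
    · refine (wS_mul_le _ _ _ _).trans ?_
      have h1 : wS (polyH K) N ((X1.map (Int.castRingHom K[X])) ^ i) ≤ CX ^ i :=
        (wS_pow_le _ polyH_one _ _ _).trans
          (pow_le_pow_left₀ (wS_nonneg _ _ _) ((wS_map_int N X1).trans hX1) _)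
      have h2 : wS (polyH K) N ((X0.map (Int.castRingHom K[X])) ^ (L1 - i)) ≤ CX ^ (L1 - i) :=
        (wS_pow_le _ polyH_one _ _ _).trans
          (pow_le_pow_left₀ (wS_nonneg _ _ _) ((wS_map_int N X0).trans hX0) _)
      calc _ ≤ CX ^ i * CX ^ (L1 - i) := mul_le_mul h1 h2 (wS_nonneg _ _ _) (by positivity)
        _ = CX ^ L1 := by rw [← pow_add, Nat.add_sub_cancel' hi]
    · refine (wS_prod_le _ polyH_one _ _ _).trans ?_
      calc ∏ t, wS (polyH K) N (facK G a b v t ^ j t) ≤ ∏ t, (CG + Cv) ^ j t := by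
            apply prod_le_prod (fun _ _ => wS_nonneg _ _ _)
            intro t _
            exact (wS_pow_le _ polyH_one _ _ _).trans
              (pow_le_pow_left₀ (wS_nonneg _ _ _) (hfac t) _)
        _ = (CG + Cv) ^ ∑ t, j t := prod_pow_eq_pow_sum _ _ _
        _ ≤ (CG + Cv) ^ s := pow_le_pow_right₀ hCG hj
  refine (coeff_le_wS (polyH K) hν _).trans ?_
  have : (2 : ℝ) ^ ν ≤ 2 ^ N := pow_le_pow_right₀ (by norm_num) hν
  exact mul_le_mul this hterm (wS_nonneg _ _ _) (by positivity)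

end Forms

end GP
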