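import Mathlib
import Pool.Agent.GP.ArForms

/-!
Construction of the auxiliary function by Siegel's lemma.
-/

set_option autoImplicit false

open Finset NumberField Polynomial

namespace GP

/-- The common denominator of the coefficients up to `N`. -/
def denN (D p N s : ℕ) : ℕ := D ^ s * (p ^ (2 * N) * lcmProd N s)

theorem denN_pos {D p : ℕ} (hD : 0 < D) (hp : 0 < p) (N s : ℕ) : 0 < denN D p N s :=
  Nat.mul_pos (pow_pos hD _) (Nat.mul_pos (pow_pos hp _) (lcmProd_pos N s))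

section

variable {T Λ : Type} [Fintype T] [DecidableEq T] {K : Type} [Field K] [NumberField K]

/-- The auxiliary series over `K[θ]`. -/
noncomputable def serK (X1 X0 : PowerSeries ℤ) (G : T → PowerSeries ℚ) (a b : T → ℕ) (v : T → K)
    {L1 L : ℕ} (P : Fin (L1 + 1) → (T → Fin L) → K[X]) : PowerSeries K[X] :=
  ∑ i : Fin (L1 + 1), ∑ j : T → Fin L,
    PowerSeries.C (P i j) * termK X1 X0 G a b v L1 i (fun t => j t)

theorem coeff_serK (X1 X0 : PowerSeries ℤ) (G : T → PowerSeries ℚ) (a b : T → ℕ) (v : T → K)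
    {L1 L : ℕ} (P : Fin (L1 + 1) → (T → Fin L) → K[X]) (ν : ℕ) :
    PowerSeries.coeff ν (serK X1 X0 G a b v P) = ∑ i : Fin (L1 + 1), ∑ j : T → Fin L,
      P i j * PowerSeries.coeff ν (termK X1 X0 G a b v L1 i (fun t => j t)) := by
  unfold serK
  simp only [map_sum, PowerSeries.coeff_C_mul]

theorem map_serK (ι : K →+* ℂ) (θ : ℂ) (X1 X0 : PowerSeries ℤ) (G : T → PowerSeries ℚ)
    (a b : T → ℕ) (v : T → K) (β : T → ℂ) (hβ : ∀ t, β t * θ ^ a t = ι (v t) * θ ^ b t)
    {L1 L : ℕ} (P : Fin (L1 + 1) → (T → Fin L) → K[X]) :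
    (serK X1 X0 G a b v P).map (eval₂RingHom ι θ) =
      aser (X1.map (Int.castRingHom ℂ)) (X0.map (Int.castRingHom ℂ))
        (fun t => (G t).map (algebraMap ℚ ℂ)) β
        (fun i j => (P i j).eval₂ ι θ * θ ^ ∑ t, a t * (j t : ℕ)) := by
  unfold serK aser
  rw [map_sum]
  apply sum_congr rfl
  intro i _
  rw [map_sum]
  apply sum_congr rfl
  intro j _
  rw [map_mul, map_termK ι θ X1 X0 G a b v β hβ, PowerSeries.map_C, coe_eval₂RingHom,
    PowerSeries.C.map_mul]
  ring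

theorem degLE_serK (X1 X0 : PowerSeries ℤ) (G : T → PowerSeries ℚ) (a b : T → ℕ) (v : T → K)
    {L1 L : ℕ} (P : Fin (L1 + 1) → (T → Fin L) → K[X]) {d : ℕ} (hP : ∀ i j, (P i j).natDegree ≤ d) :
    DegLE (d + L * ∑ t, (a t + b t)) (serK X1 X0 G a b v P) := by
  intro ν
  rw [coeff_serK]
  apply natDegree_sum_le_of_forall_le
  intro i _
  apply natDegree_sum_le_of_forall_le
  intro j _
  exact natDegree_mul_le.trans (add_le_add (hP i j)
    (degLE_termK X1 X0 G a b v L1 i _ L (fun t => (j t).2.le) ν))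

omit [NumberField K] in
theorem coeff_monomial_mul' (f : K[X]) (h k : ℕ) (r : K) :
    (monomial h r * f).coeff k = if h ≤ k then r * f.coeff (k - h) else 0 := by
  split_ifs with hk
  · obtain ⟨d, rfl⟩ := Nat.exists_eq_add_of_le hk
    rw [Nat.add_sub_cancel_left, Nat.add_comm h d, coeff_monomial_mul]
  · rw [← C_mul_X_pow_eq_monomial, mul_assoc, coeff_C_mul, coeff_X_pow_mul', if_neg hk, mul_zero]

theorem construct (K : Type) [Field K] [NumberField K] : ∃ cK : ℝ, 1 ≤ cK ∧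
    ∀ (ι : K →+* ℂ) (θ : ℂ) (_hθ0 : θ ≠ 0) (_hθ : ∀ f : K[X], f ≠ 0 → f.eval₂ ι θ ≠ 0)
      (X1 X0 : PowerSeries ℤ) (G : T → PowerSeries ℚ) (a b : T → ℕ) (v : Λ → T → K)
      (β : Λ → T → ℂ) (_hβ : ∀ u t, β u t * θ ^ a t = ι (v u t) * θ ^ b t)
      (p D N s L1 L H : ℕ) (_hp : 0 < p) (_hD : 0 < D) (_hL : 0 < L) (_hH : 0 < H)
      (_hHL : L * ∑ t, (a t + b t) ≤ H)
      (_h0 : ∀ t, PowerSeries.coeff 0 (G t) = 0)
      (_hden : ∀ t, ∀ ν : ℕ, 0 < ν →
        ∃ z : ℤ, ((p ^ (2 * ν) * ν : ℕ) : ℚ) * PowerSeries.coeff ν (G t) = z)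
      (_hs : Fintype.card T * L ≤ s)
      (CX CG Cv : ℝ) (_hCX : 1 ≤ CX) (_hCG : 1 ≤ CG + Cv)
      (_hX1 : ∑ i ∈ range (N + 1), |((PowerSeries.coeff i X1 : ℤ) : ℝ)| * (1 / 2 : ℝ) ^ i ≤ CX)
      (_hX0 : ∑ i ∈ range (N + 1), |((PowerSeries.coeff i X0 : ℤ) : ℝ)| * (1 / 2 : ℝ) ^ i ≤ CX)
      (_hG : ∀ t, ∑ i ∈ range (N + 1),
        |((PowerSeries.coeff i (G t) : ℚ) : ℝ)| * (1 / 2 : ℝ) ^ i ≤ CG)
      (BB : Set Λ) (U : Finset Λ) (_hU : ∀ u ∈ U, u ∈ BB)
      (_hv : ∀ u, ∀ t, IsIntegral ℤ ((D : K) * v u t))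
      (_hvh : ∀ u ∈ BB, ∀ t, house (v u t) ≤ Cv)
      (_hcard : 2 * (N * U.card * (2 * H)) ≤ (L1 + 1) * L ^ Fintype.card T * H),
      ∃ P : Fin (L1 + 1) → (T → Fin L) → ℂ, P ≠ 0 ∧
        (∀ i j, ‖P i j‖ ≤ cK * (((L1 + 1) * L ^ Fintype.card T * H : ℕ) : ℝ) ^ 2 *
          (denN D p N s * (2 ^ N * (CX ^ L1 * (CG + Cv) ^ s))) * (max 1 ‖θ‖) ^ (2 * H)) ∧
        (∀ u ∈ U, ∀ ν < N, PowerSeries.coeff ν
          (aser (X1.map (Int.castRingHom ℂ)) (X0.map (Int.castRingHom ℂ))
            (fun t => (G t).map (algebraMap ℚ ℂ)) (β u) P) = 0) ∧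
        (∀ u ∈ BB, ∀ ν ≤ N, ∃ A : K[X], (∀ k, IsIntegral ℤ (A.coeff k)) ∧ A.natDegree ≤ 2 * H ∧
          polyH K A ≤ cK * (((L1 + 1) * L ^ Fintype.card T * H : ℕ) : ℝ) ^ 2 *
            (denN D p N s * (2 ^ N * (CX ^ L1 * (CG + Cv) ^ s))) ^ 2 ∧
          A.eval₂ ι θ = (denN D p N s : ℂ) * PowerSeries.coeff ν
            (aser (X1.map (Int.castRingHom ℂ)) (X0.map (Int.castRingHom ℂ))
              (fun t => (G t).map (algebraMap ℚ ℂ)) (β u) P)) := by
  classical
  obtain ⟨cK, hcK, hsie⟩ := siegel K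
  refine ⟨cK, hcK, ?_⟩
  intro ι θ hθ0 hθ X1 X0 G a b v β hβ p D N s L1 L H hp hD hL hH hHL h0 hden hs CX CG Cv
    hCX hCG hX1 hX0 hG BB U hU hv hvh hcard
  have hjs : ∀ j : T → Fin L, ∑ t, (j t : ℕ) ≤ s := by
    intro j
    refine le_trans ?_ hs
    calc ∑ t, (j t : ℕ) ≤ ∑ _t : T, L := sum_le_sum fun t _ => (j t).2.le
      _ = Fintype.card T * L := by rw [sum_const, card_univ, smul_eq_mul]
  -- abbreviation for the coefficients of the basic products
  set E : Λ → Fin (L1 + 1) → (T → Fin L) → ℕ → K[X] := fun u i j ν =>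
    PowerSeries.coeff ν (termK X1 X0 G a b (v u) L1 i (fun t => j t)) with hE
  set Den : ℕ := denN D p N s with hDen
  have hDen0 : 0 < Den := denN_pos hD hp N s
  have hDen1 : (1 : ℝ) ≤ Den := by exact_mod_cast hDen0
  have hEint : ∀ u i j ν, ν ≤ N → (Den : K[X]) * E u i j ν ∈ intPoly K := by
    intro u i j ν hν
    exact termK_coeff_mem X1 X0 G a b (v u) L1 i _ h0 hden (hv u) (hjs j) hν
  set M1 : ℝ := 2 ^ N * (CX ^ L1 * (CG + Cv) ^ s) with hM1
  have hM1one : 1 ≤ M1 := by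
    have h1 : (1 : ℝ) ≤ 2 ^ N := one_le_pow₀ (by norm_num)
    have h2 : (1 : ℝ) ≤ CX ^ L1 := one_le_pow₀ hCX
    have h3 : (1 : ℝ) ≤ (CG + Cv) ^ s := one_le_pow₀ hCG
    calc (1 : ℝ) = 1 * (1 * 1) := by ring
      _ ≤ M1 := by rw [hM1]; gcongr
  have hEsize : ∀ u ∈ BB, ∀ i j ν, ν ≤ N → polyH K (E u i j ν) ≤ M1 := by
    intro u hu i j ν hν
    exact polyH_termK_le X1 X0 G a b (v u) L1 i (Nat.lt_succ_iff.1 i.2) _ hCX hCG hX1 hX0 hG
      (hvh u hu) (hjs j) hν
  have hEsize' : ∀ u ∈ BB, ∀ i j ν, ν ≤ N → polyH K ((Den : K[X]) * E u i j ν) ≤ Den * M1 := by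
    intro u hu i j ν hν
    refine (polyH_natCast_mul _ _).trans ?_
    have := hEsize u hu i j ν hν
    gcongr
  -- integral entries
  have hent : ∀ (u : Λ) (i : Fin (L1 + 1)) (j : T → Fin L) (ν : ℕ) (k : ℕ), ν ≤ N →
      ∃ z : 𝓞 K, (z : K) = ((Den : K[X]) * E u i j ν).coeff k := by
    intro u i j ν k hν
    exact ⟨⟨_, mem_intPoly.1 (hEint u i j ν hν) k⟩, rfl⟩
  choose! ent hent using hent
  -- the linear system
  set mat : Matrix (Fin N × U × Fin (2 * H)) (Fin (L1 + 1) × (T → Fin L) × Fin H) (𝓞 K) :=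
    fun e x => if (x.2.2 : ℕ) ≤ (e.2.2 : ℕ) then
      ent e.2.1 x.1 x.2.1 e.1 ((e.2.2 : ℕ) - (x.2.2 : ℕ)) else 0 with hmat
  have hcardα : Fintype.card (Fin N × U × Fin (2 * H)) = N * (U.card * (2 * H)) := by
    simp [Fintype.card_prod]
  have hcardβ : Fintype.card (Fin (L1 + 1) × (T → Fin L) × Fin H) =
      (L1 + 1) * L ^ Fintype.card T * H := by
    simp [Fintype.card_prod, mul_assoc]
  obtain ⟨ξ, hξ0, hξ, hξb⟩ := hsie _ _ mat (Den * M1)
    (by calc (1 : ℝ) = 1 * 1 := by ring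
          _ ≤ Den * M1 := by gcongr)
    (by rw [hcardβ]; positivity)
    (by rw [hcardα, hcardβ]; calc 2 * (N * (U.card * (2 * H))) = 2 * (N * U.card * (2 * H)) := by ring
          _ ≤ _ := hcard)
    (by
      intro e x
      change house (((mat e x : 𝓞 K) : K)) ≤ _
      rw [hmat]
      dsimp only
      split_ifs with hle
      · rw [hent _ _ _ _ _ e.1.2.le]
        exact (house_coeff_le _ _).trans (hEsize' _ (hU _ e.2.1.2) _ _ _ e.1.2.le)
      · have : ((0 : 𝓞 K) : K) = 0 := rfl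
        rw [this, house_zero']
        positivity)
  rw [hcardβ] at hξb
  set q : ℕ := (L1 + 1) * L ^ Fintype.card T * H with hq
  -- the polynomials
  set Pp : Fin (L1 + 1) → (T → Fin L) → K[X] := fun i j =>
    ∑ h : Fin H, monomial (h : ℕ) ((ξ (i, j, h) : 𝓞 K) : K) with hPp
  have hPpdeg : ∀ i j, (Pp i j).natDegree ≤ H - 1 := by
    intro i j
    apply natDegree_sum_le_of_forall_le
    intro h _
    exact (natDegree_monomial_le _).trans (by have := h.2; omega)
  have hPpint : ∀ i j, Pp i j ∈ intPoly K := by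
    intro i j
    apply (intPoly K).sum_mem
    intro h _
    exact monomial_mem_intPoly _ (RingOfIntegers.isIntegral_coe _)
  have hPpsize : ∀ i j, polyH K (Pp i j) ≤ H * (cK * q * (Den * M1)) := by
    intro i j
    refine (sn_sum_le (polyH K) _ _).trans ?_
    calc ∑ h : Fin H, polyH K (monomial (h : ℕ) ((ξ (i, j, h) : 𝓞 K) : K))
        ≤ ∑ _h : Fin H, cK * q * (Den * M1) :=
          sum_le_sum fun h _ => (polyH_monomial _ _).trans (hξb (i, j, h))
      _ = H * (cK * q * (Den * M1)) := by simp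
  have hPpcoeff : ∀ i j (h : Fin H), (Pp i j).coeff h = ((ξ (i, j, h) : 𝓞 K) : K) := by
    intro i j h
    rw [hPp]
    simp only [finsetSum_coeff, coeff_monomial]
    rw [sum_eq_single h]
    · simp
    · intro h' _ hne
      rw [if_neg]
      intro heq
      exact hne (Fin.ext heq)
    · intro hh
      exact absurd (mem_univ h) hh
  -- vanishing
  have hvan : ∀ u ∈ U, ∀ ν < N, PowerSeries.coeff ν (serK X1 X0 G a b (v u) Pp) = 0 := by
    intro u hu ν hν
    have hden0 : (Den : K[X]) ≠ 0 := by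
      exact_mod_cast hDen0.ne'
    have h1 : (Den : K[X]) * PowerSeries.coeff ν (serK X1 X0 G a b (v u) Pp) = 0 := by
      ext k
      rw [coeff_zero]
      by_cases hk : k < 2 * H
      · have h2 := congrFun hξ (⟨ν, hν⟩, ⟨u, hu⟩, ⟨k, hk⟩)
        rw [Matrix.mulVec, dotProduct] at h2
        have h3 := congrArg (algebraMap (𝓞 K) K) h2
        simp only [Pi.zero_apply, map_zero, map_sum, map_mul] at h3
        rw [coeff_serK, mul_sum, finsetSum_coeff, ← h3, Fintype.sum_prod_type]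
        apply sum_congr rfl
        intro i _
        rw [mul_sum, finsetSum_coeff, Fintype.sum_prod_type]
        apply sum_congr rfl
        intro j _
        have h4 : (Den : K[X]) * (Pp i j * PowerSeries.coeff ν
            (termK X1 X0 G a b (v u) L1 i (fun t => j t))) =
            ∑ h : Fin H, monomial (h : ℕ) ((ξ (i, j, h) : 𝓞 K) : K) *
              ((Den : K[X]) * E u i j ν) := by
          rw [← sum_mul]
          change (Den : K[X]) * (Pp i j * E u i j ν) = Pp i j * ((Den : K[X]) * E u i j ν)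
          ring
        rw [h4, finsetSum_coeff]
        apply sum_congr rfl
        intro h _
        rw [coeff_monomial_mul', hmat]
        dsimp only
        split_ifs with hle
        · have := hent u i j ν (k - (h : ℕ)) hν.le
          rw [← this, mul_comm]
        · rw [map_zero, zero_mul]
      · apply coeff_eq_zero_of_natDegree_lt
        have h5 := degLE_serK X1 X0 G a b (v u) Pp hPpdeg ν
        have h6 : ((Den : K[X]) * PowerSeries.coeff ν (serK X1 X0 G a b (v u) Pp)).natDegree ≤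
            (PowerSeries.coeff ν (serK X1 X0 G a b (v u) Pp)).natDegree := by
          refine natDegree_mul_le.trans ?_
          rw [natDegree_natCast, zero_add]
        omega
    exact (mul_eq_zero.1 h1).resolve_left hden0
  -- the complex coefficients
  refine ⟨fun i j => (Pp i j).eval₂ ι θ * θ ^ ∑ t, a t * (j t : ℕ), ?_, ?_, ?_, ?_⟩
  · intro hP0
    apply hξ0
    funext x
    obtain ⟨i, j, h⟩ := x
    have h1 := congrFun (congrFun hP0 i) j
    simp only [Pi.zero_apply] at h1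
    have h2 : (Pp i j).eval₂ ι θ = 0 :=
      (mul_eq_zero.1 h1).resolve_right (pow_ne_zero _ hθ0)
    have h3 : Pp i j = 0 := by
      by_contra hne
      exact hθ _ hne h2
    have h4 := hPpcoeff i j h
    rw [h3, coeff_zero] at h4
    exact Subtype.ext h4.symm
  · intro i j
    rw [norm_mul, norm_pow]
    have h1 := norm_eval_le ι θ (Pp i j) (d := H) ((hPpdeg i j).trans (Nat.sub_le _ _))
    have h2 : ‖θ‖ ^ ∑ t, a t * (j t : ℕ) ≤ (max 1 ‖θ‖) ^ H := by
      calc ‖θ‖ ^ ∑ t, a t * (j t : ℕ) ≤ (max 1 ‖θ‖) ^ ∑ t, a t * (j t : ℕ) := by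
            gcongr; exact le_max_right _ _
        _ ≤ (max 1 ‖θ‖) ^ H := by
          apply pow_le_pow_right₀ (le_max_left _ _)
          refine le_trans ?_ hHL
          rw [mul_sum]
          apply sum_le_sum
          intro t _
          rw [mul_comm]
          exact Nat.mul_le_mul (j t).2.le (Nat.le_add_right _ _)
    have hHq : (H : ℝ) ≤ q := by
      rw [hq]
      push_cast
      have : (1 : ℝ) ≤ ((L1 : ℝ) + 1) * (L : ℝ) ^ Fintype.card T := by
        have hL1 : (1 : ℝ) ≤ L := by exact_mod_cast hL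
        have h5 : (1 : ℝ) ≤ (L : ℝ) ^ Fintype.card T := one_le_pow₀ hL1
        have h6 : (0 : ℝ) ≤ L1 := Nat.cast_nonneg _
        nlinarith
      have hH0 : (0 : ℝ) ≤ H := Nat.cast_nonneg _
      nlinarith
    calc ‖(Pp i j).eval₂ ι θ‖ * ‖θ‖ ^ ∑ t, a t * (j t : ℕ)
        ≤ ((H * (cK * q * (Den * M1))) * (max 1 ‖θ‖) ^ H) * (max 1 ‖θ‖) ^ H := by
          apply mul_le_mul _ h2 (by positivity) (by positivity)
          exact h1.trans (mul_le_mul_of_nonneg_right (hPpsize i j) (by positivity))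
      _ ≤ ((q * (cK * q * (Den * M1))) * (max 1 ‖θ‖) ^ H) * (max 1 ‖θ‖) ^ H := by gcongr
      _ = cK * (q : ℝ) ^ 2 * (Den * M1) * (max 1 ‖θ‖) ^ (2 * H) := by
          rw [two_mul, pow_add]
          ring
  · intro u hu ν hν
    rw [← map_serK ι θ X1 X0 G a b (v u) (β u) (hβ u) Pp, PowerSeries.coeff_map,
      hvan u hu ν hν, map_zero]
  · intro u hu ν hν
    refine ⟨(Den : K[X]) * PowerSeries.coeff ν (serK X1 X0 G a b (v u) Pp), ?_, ?_, ?_, ?_⟩
    · rw [← mem_intPoly, coeff_serK, mul_sum]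
      apply (intPoly K).sum_mem
      intro i _
      rw [mul_sum]
      apply (intPoly K).sum_mem
      intro j _
      rw [mul_left_comm]
      exact (intPoly K).mul_mem (hPpint i j) (hEint u i j ν hν)
    · refine natDegree_mul_le.trans ?_
      rw [natDegree_natCast, zero_add]
      have h5 := degLE_serK X1 X0 G a b (v u) Pp hPpdeg ν
      omega
    · rw [coeff_serK, mul_sum]
      refine (sn_sum_le (polyH K) _ _).trans ?_
      have hterm : ∀ i j, polyH K (Pp i j * ((Den : K[X]) * E u i j ν)) ≤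
          (H * (cK * q * (Den * M1))) * (Den * M1) := by
        intro i j
        refine (map_mul_le_mul (polyH K) _ _).trans ?_
        exact mul_le_mul (hPpsize i j) (hEsize' u hu i j ν hν) (apply_nonneg _ _) (by positivity)
      calc ∑ i : Fin (L1 + 1), polyH K ((Den : K[X]) * ∑ j : T → Fin L, Pp i j *
            PowerSeries.coeff ν (termK X1 X0 G a b (v u) L1 i (fun t => j t)))
          ≤ ∑ _i : Fin (L1 + 1), ∑ _j : T → Fin L,
              (H * (cK * q * (Den * M1))) * (Den * M1) := by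
            apply sum_le_sum
            intro i _
            rw [mul_sum]
            refine (sn_sum_le (polyH K) _ _).trans ?_
            apply sum_le_sum
            intro j _
            rw [mul_left_comm]
            exact hterm i j
        _ = ((L1 + 1) * (L : ℝ) ^ Fintype.card T) * ((H * (cK * q * (Den * M1))) * (Den * M1)) := by
            simp [mul_assoc]
        _ = cK * (q : ℝ) ^ 2 * (Den * M1) ^ 2 := by
            rw [hq]
            push_cast
            ring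
    · rw [eval₂_mul, eval₂_natCast, ← map_serK ι θ X1 X0 G a b (v u) (β u) (hβ u) Pp,
        PowerSeries.coeff_map]
      rfl

end

end GP
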