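import Mathlib
import Pool.Agent.GP.ArCons

/-!
Numerical lemmas for the choice of the parameters.
-/

set_option autoImplicit false

open Finset Filter

namespace GP

theorem eventually_le_natCast (C : ℝ) : ∀ᶠ N : ℕ in atTop, C ≤ N :=
  tendsto_natCast_atTop_atTop.eventually_ge_atTop C

theorem eventually_sq_le_exp (C : ℝ) : ∀ᶠ N : ℕ in atTop, C * ((N : ℝ) + 1) ^ 2 ≤ Real.exp N := by
  have h1 : Tendsto (fun x : ℝ => Real.exp x / x ^ 2) atTop atTop :=
    Real.tendsto_exp_div_pow_atTop 2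
  have h2 := (h1.comp tendsto_natCast_atTop_atTop).eventually_ge_atTop (|C| * 4)
  filter_upwards [h2, eventually_ge_atTop 1] with N hN h1N
  have hN1 : (1 : ℝ) ≤ N := by exact_mod_cast h1N
  have hpos : (0 : ℝ) < (N : ℝ) ^ 2 := by positivity
  simp only [Function.comp_apply] at hN
  rw [le_div_iff₀ hpos] at hN
  calc C * ((N : ℝ) + 1) ^ 2 ≤ |C| * ((N : ℝ) + 1) ^ 2 := by
        gcongr
        exact le_abs_self C
    _ ≤ |C| * (4 * (N : ℝ) ^ 2) := by
        gcongr
        nlinarith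
    _ = |C| * 4 * (N : ℝ) ^ 2 := by ring
    _ ≤ Real.exp N := hN

theorem one_le_log_add_two {L : ℕ} (hL : 1 ≤ L) : 1 ≤ Real.log ((L : ℝ) + 2) := by
  have hL1 : (1 : ℝ) ≤ L := by exact_mod_cast hL
  rw [Real.le_log_iff_exp_le (by positivity)]
  have := Real.exp_one_lt_d9
  linarith

theorem exists_large (m : ℕ) (C : ℝ) : ∃ L : ℕ, 1 ≤ L ∧ C * Real.log ((L : ℝ) + 2) ^ m ≤ L := by
  have h1 : (fun x : ℝ => Real.log x ^ m) =o[atTop] fun x => x :=
    Real.isLittleO_pow_log_id_atTop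
  have h2 : Tendsto (fun L : ℕ => (L : ℝ) + 2) atTop atTop :=
    tendsto_natCast_atTop_atTop.atTop_add tendsto_const_nhds
  have hc : (0 : ℝ) < 1 / (3 * (|C| + 1)) := by positivity
  have h3 := h2.eventually (h1.def hc)
  obtain ⟨L, hL, h1L⟩ := (h3.and (eventually_ge_atTop 1)).exists
  refine ⟨L, h1L, ?_⟩
  have hL1 : (1 : ℝ) ≤ L := by exact_mod_cast h1L
  have hlog := one_le_log_add_two h1L
  rw [Real.norm_of_nonneg (by positivity), Real.norm_of_nonneg (by positivity)] at hL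
  have hC : C ≤ |C| + 1 := (le_abs_self C).trans (by linarith)
  calc C * Real.log ((L : ℝ) + 2) ^ m ≤ (|C| + 1) * Real.log ((L : ℝ) + 2) ^ m := by gcongr
    _ ≤ (|C| + 1) * (1 / (3 * (|C| + 1)) * ((L : ℝ) + 2)) := by gcongr
    _ = ((L : ℝ) + 2) / 3 := by
        have : |C| + 1 ≠ 0 := by positivity
        field_simp
    _ ≤ L := by linarith

/-- The exponential rate of the denominators and coefficients. -/
noncomputable def rate (p n L : ℕ) (CX : ℝ) : ℝ :=
  2 * Real.log p + (Real.log 4 + 4) * (1 + Real.log ((n * L : ℕ) + 1)) + Real.log 2 + Real.log CX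

theorem rate_nonneg (p n L : ℕ) {CX : ℝ} (hCX : 1 ≤ CX) : 0 ≤ rate p n L CX := by
  unfold rate
  have h1 : 0 ≤ Real.log p := Real.log_natCast_nonneg p
  have h2 : 0 ≤ Real.log 4 := Real.log_nonneg (by norm_num)
  have h3 : 0 ≤ Real.log (((n * L : ℕ) : ℝ) + 1) :=
    Real.log_nonneg (by have : (0 : ℝ) ≤ ((n * L : ℕ) : ℝ) := Nat.cast_nonneg _; linarith)
  have h4 : 0 ≤ Real.log 2 := Real.log_nonneg (by norm_num)
  have h5 : 0 ≤ Real.log CX := Real.log_nonneg hCX
  positivity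

theorem rate_le (p n : ℕ) {CX : ℝ} (hCX : 1 ≤ CX) : ∃ c1 : ℝ, 0 ≤ c1 ∧ ∀ L : ℕ, 1 ≤ L →
    rate p n L CX ≤ c1 * Real.log ((L : ℝ) + 2) := by
  have h1 : 0 ≤ Real.log p := Real.log_natCast_nonneg p
  have h2 : 0 ≤ Real.log 4 := Real.log_nonneg (by norm_num)
  have h4 : 0 ≤ Real.log 2 := Real.log_nonneg (by norm_num)
  have h5 : 0 ≤ Real.log CX := Real.log_nonneg hCX
  have h6 : 0 ≤ Real.log ((n : ℝ) + 1) :=
    Real.log_nonneg (by have : (0 : ℝ) ≤ (n : ℝ) := Nat.cast_nonneg _; linarith)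
  refine ⟨2 * Real.log p + (Real.log 4 + 4) * (2 + Real.log ((n : ℝ) + 1)) + Real.log 2 +
    Real.log CX, by positivity, ?_⟩
  intro L hL
  have hlog := one_le_log_add_two hL
  set lam := Real.log ((L : ℝ) + 2) with hlam
  have hL1 : (1 : ℝ) ≤ L := by exact_mod_cast hL
  have h7 : Real.log (((n * L : ℕ) : ℝ) + 1) ≤ Real.log ((n : ℝ) + 1) + lam := by
    rw [hlam, ← Real.log_mul (by positivity) (by positivity)]
    apply Real.log_le_log (by positivity)
    push_cast
    have : (0 : ℝ) ≤ n := Nat.cast_nonneg _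
    nlinarith
  unfold rate
  have h8 : (Real.log 4 + 4) * (1 + Real.log (((n * L : ℕ) : ℝ) + 1)) ≤
      (Real.log 4 + 4) * ((2 + Real.log ((n : ℝ) + 1)) * lam) := by
    apply mul_le_mul_of_nonneg_left _ (by linarith)
    nlinarith
  nlinarith

/-- Bound for the denominators times the sizes. -/
theorem denN_mul_le {D p n L N L1 : ℕ} (hD : 0 < D) (hp : 0 < p) {CX Cg : ℝ} (hCX : 1 ≤ CX)
    (hCg : 1 ≤ Cg) (hL1 : L1 ≤ N) :
    (denN D p N (n * L) : ℝ) * (2 ^ N * (CX ^ L1 * Cg ^ (n * L))) ≤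
      (D : ℝ) ^ (n * L) * Cg ^ (n * L) * Real.exp (rate p n L CX * N) := by
  have h1 : ((lcmProd N (n * L) : ℕ) : ℝ) ≤
      Real.exp ((Real.log 4 + 4) * N * (1 + Real.log ((n * L : ℕ) + 1))) := by
    rw [← Real.log_le_iff_le_exp (by exact_mod_cast lcmProd_pos N (n * L))]
    exact log_lcmProd_le N (n * L)
  have hp1 : (0 : ℝ) < p := by exact_mod_cast hp
  have h2 : ((p : ℝ)) ^ (2 * N) = Real.exp (2 * Real.log p * N) := by
    rw [← Real.exp_log hp1, ← Real.exp_nat_mul, Real.log_exp]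
    congr 1
    push_cast
    ring
  have h3 : (2 : ℝ) ^ N = Real.exp (Real.log 2 * N) := by
    rw [mul_comm, Real.exp_nat_mul, Real.exp_log (by norm_num)]
  have h4 : CX ^ L1 ≤ Real.exp (Real.log CX * N) := by
    rw [mul_comm, Real.exp_nat_mul, Real.exp_log (by linarith)]
    exact pow_le_pow_right₀ hCX hL1
  unfold denN
  push_cast
  calc (D : ℝ) ^ (n * L) * ((p : ℝ) ^ (2 * N) * (lcmProd N (n * L) : ℝ)) *
        (2 ^ N * (CX ^ L1 * Cg ^ (n * L)))
      ≤ (D : ℝ) ^ (n * L) * (Real.exp (2 * Real.log p * N) *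
          Real.exp ((Real.log 4 + 4) * N * (1 + Real.log ((n * L : ℕ) + 1)))) *
        (Real.exp (Real.log 2 * N) * (Real.exp (Real.log CX * N) * Cg ^ (n * L))) := by
        rw [h2, h3]
        gcongr
    _ = (D : ℝ) ^ (n * L) * Cg ^ (n * L) * Real.exp (rate p n L CX * N) := by
        have : rate p n L CX * N = 2 * Real.log p * N +
          (Real.log 4 + 4) * N * (1 + Real.log ((n * L : ℕ) + 1)) + Real.log 2 * N +
            Real.log CX * N := by
          unfold rate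
          ring
        rw [this, Real.exp_add, Real.exp_add, Real.exp_add]
        ring

end GP
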