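import Pool.Agent.GP.Defs

/-! Denominators and size of the binomial coefficients `rc`. -/

set_option autoImplicit false

namespace Pool.Agent.GP

open Finset

theorem choose_mul_factorial (r : ℚ) (n : ℕ) :
    Ring.choose r n * n.factorial = ∏ i ∈ range n, (r - i) := by
  have h1 := Ring.descPochhammer_eq_factorial_smul_choose r n
  rw [← Polynomial.aeval_eq_smeval] at h1
  have h2 : Polynomial.aeval r (descPochhammer ℤ n) = (descPochhammer ℚ n).eval r := by
    rw [← descPochhammer_map (Int.castRingHom ℚ), Polynomial.eval_map, Polynomial.aeval_def]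
    rfl
  rw [h2, descPochhammer_eval_eq_prod_range, nsmul_eq_mul] at h1
  rw [h1, mul_comm]

theorem factorial_dvd_prod_int (y : ℤ) (n : ℕ) : (n.factorial : ℤ) ∣ ∏ i ∈ range n, (y - i) := by
  have h1 := Ring.descPochhammer_eq_factorial_smul_choose y n
  rw [← Polynomial.aeval_eq_smeval, Polynomial.coe_aeval_eq_eval,
    descPochhammer_eval_eq_prod_range, nsmul_eq_mul] at h1
  exact ⟨_, h1⟩

theorem factorial_dvd_pow_mul_prod (p : ℕ) (x : ℤ) (n : ℕ) :
    (n.factorial : ℤ) ∣ (p : ℤ) ^ n * ∏ i ∈ range n, (x - i * p) := by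
  rw [Int.natCast_dvd, Nat.dvd_iff_prime_pow_dvd_dvd]
  intro q k hq hk
  rw [← Int.natCast_dvd]
  by_cases hqp : q ∣ p
  · refine Dvd.dvd.mul_right ?_ _
    have hkn : k ≤ n := by
      by_contra hlt
      push Not at hlt
      have h2 : k ≤ padicValNat q n.factorial := by
        have := Fact.mk hq
        exact (padicValNat_dvd_iff_le (Nat.factorial_ne_zero n)).1 hk
      have h3 : padicValNat q n.factorial ≤ n := by
        have := Fact.mk hq
        have h4 := sub_one_mul_padicValNat_factorial (p := q) n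
        have h5 : 1 ≤ q - 1 := by have := hq.two_le; omega
        calc padicValNat q n.factorial ≤ (q - 1) * padicValNat q n.factorial :=
              Nat.le_mul_of_pos_left _ h5
          _ = n - (q.digits n).sum := h4
          _ ≤ n := Nat.sub_le _ _
      omega
    have h6 : q ^ k ∣ p ^ n := (pow_dvd_pow q hkn).trans (pow_dvd_pow_of_dvd hqp n)
    exact_mod_cast h6
  · refine Dvd.dvd.mul_left ?_ _
    have hcop : IsCoprime (p : ℤ) ((q ^ k : ℕ) : ℤ) := by
      rw [Nat.isCoprime_iff_coprime]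
      exact (Nat.Coprime.pow_left k ((Nat.Prime.coprime_iff_not_dvd hq).2 hqp)).symm
    obtain ⟨u, v, huv⟩ := hcop
    -- u * p + v * q ^ k = 1
    have h1 : ((q ^ k : ℕ) : ℤ) ∣ ∏ i ∈ range n, (u * x - i) :=
      (Int.natCast_dvd_natCast.2 hk).trans (factorial_dvd_prod_int _ _)
    have h2 : ((q ^ k : ℕ) : ℤ) ∣ u ^ n * ∏ i ∈ range n, (x - i * p) - ∏ i ∈ range n, (u * x - i) := by
      have h3 : u ^ n * ∏ i ∈ range n, (x - i * p) = ∏ i ∈ range n, (u * (x - i * p)) := by
        rw [prod_mul_distrib]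
        simp
      rw [h3]
      apply (Int.modEq_iff_dvd).1
      refine Int.ModEq.prod fun i _ => ?_
      rw [Int.modEq_iff_dvd]
      refine ⟨i * v, ?_⟩
      linear_combination (-(i : ℤ)) * huv
    have h4 : ((q ^ k : ℕ) : ℤ) ∣ u ^ n * ∏ i ∈ range n, (x - i * p) := by
      have := dvd_add h2 h1
      rwa [sub_add_cancel] at this
    have h5 : IsCoprime ((q ^ k : ℕ) : ℤ) (u ^ n) := by
      refine IsCoprime.pow_right ?_
      exact ⟨v, p, by linear_combination huv⟩
    exact h5.dvd_of_dvd_mul_left h4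

theorem choose_eq_prod {p b : ℕ} (hp : 0 < p) (n : ℕ) :
    Ring.choose ((b : ℚ) / p - 1) n * ((p : ℚ) ^ n * n.factorial)
      = ((∏ i ∈ range n, (((b : ℤ) - p) - i * p) : ℤ) : ℚ) := by
  have hp' : (p : ℚ) ≠ 0 := by positivity
  rw [mul_comm ((p : ℚ) ^ n), ← mul_assoc, choose_mul_factorial]
  have h1 : (p : ℚ) ^ n = ∏ _i ∈ range n, (p : ℚ) := by simp
  rw [h1, ← prod_mul_distrib]
  push_cast
  refine prod_congr rfl fun i _ => ?_
  field_simp

theorem rc_zero {p a b : ℕ} (hA : Adm p a b) : rc p a b 0 = 0 := by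
  rw [rc, if_neg]
  have := hA.a0
  rw [Nat.zero_mod]
  omega

theorem rc_int {p a b : ℕ} (hA : Adm p a b) (ν : ℕ) :
    ∃ z : ℤ, (p : ℚ) ^ (2 * ν) * (ν : ℚ) * rc p a b ν = z := by
  have hp : 0 < p := lt_trans hA.a0 hA.ap
  have hp' : (p : ℚ) ≠ 0 := by positivity
  by_cases h : ν % p = a
  · have hν : 0 < ν := by
      rcases Nat.eq_zero_or_pos ν with h0 | h0
      · subst h0
        rw [Nat.zero_mod] at h
        have := hA.a0
        omega
      · exact h0
    set n := (ν - a) / p with hn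
    have hnν : n ≤ ν := (Nat.div_le_self _ _).trans (Nat.sub_le _ _)
    obtain ⟨z, hz⟩ := factorial_dvd_pow_mul_prod p ((b : ℤ) - p) n
    have h1 := choose_eq_prod (b := b) hp n
    have hf : (n.factorial : ℚ) ≠ 0 := by exact_mod_cast Nat.factorial_ne_zero n
    have h2 : (p : ℚ) ^ n * (((∏ i ∈ range n, (((b : ℤ) - p) - i * p) : ℤ) : ℚ))
        = n.factorial * z := by
      exact_mod_cast hz
    have h3 : (p : ℚ) ^ (2 * n) * Ring.choose ((b : ℚ) / p - 1) n = z := by
      apply mul_left_cancel₀ hf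
      rw [← h2, ← h1]
      ring
    refine ⟨(-1) ^ n * p ^ (2 * ν + 1 - 2 * n) * z, ?_⟩
    have hν' : (ν : ℚ) ≠ 0 := by positivity
    rw [rc, if_pos h, ← hn]
    push_cast
    rw [← h3]
    have h4 : (p : ℚ) ^ (2 * ν) * p = (p : ℚ) ^ (2 * ν + 1 - 2 * n) * (p : ℚ) ^ (2 * n) := by
      rw [← pow_add, ← pow_succ]
      congr 1
      omega
    calc (p : ℚ) ^ (2 * ν) * (ν : ℚ) * ((-1) ^ n * Ring.choose ((b : ℚ) / p - 1) n / (ν / p))
        = ((p : ℚ) ^ (2 * ν) * p) * (-1) ^ n * Ring.choose ((b : ℚ) / p - 1) n := by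
          field_simp
      _ = _ := by rw [h4]; ring
  · exact ⟨0, by rw [rc, if_neg h]; simp⟩

theorem abs_choose_le {p b : ℕ} (h0 : 0 < b) (hb : b < p) (n : ℕ) :
    |Ring.choose ((b : ℚ) / p - 1) n| ≤ 1 := by
  have hp : 0 < p := lt_trans h0 hb
  have hf : (0 : ℚ) < n.factorial := by exact_mod_cast Nat.factorial_pos n
  have h1 := choose_mul_factorial ((b : ℚ) / p - 1) n
  have hb1 : (b : ℚ) / p ≤ 1 := by
    rw [div_le_one (by positivity)]
    exact_mod_cast hb.le
  have hb0 : 0 ≤ (b : ℚ) / p := by positivity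
  have h2 : |∏ i ∈ range n, ((b : ℚ) / p - 1 - i)| ≤ n.factorial := by
    rw [abs_prod, ← prod_range_add_one_eq_factorial]
    push_cast
    refine prod_le_prod (fun _ _ => abs_nonneg _) fun i _ => ?_
    rw [abs_le]
    constructor
    · linarith
    · have : (0 : ℚ) ≤ i := by positivity
      linarith
  rw [← h1, abs_mul, abs_of_pos hf] at h2
  exact le_of_mul_le_mul_right (by rwa [one_mul]) hf

theorem rc_le {p a b : ℕ} (hA : Adm p a b) (ν : ℕ) : |rc p a b ν| ≤ p := by
  have hp : 0 < p := lt_trans hA.a0 hA.ap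
  by_cases h : ν % p = a
  · have hν : 0 < ν := by
      rcases Nat.eq_zero_or_pos ν with h0 | h0
      · subst h0
        rw [Nat.zero_mod] at h
        have := hA.a0
        omega
      · exact h0
    rw [rc, if_pos h, abs_div, abs_mul, abs_pow, abs_neg, abs_one, one_pow, one_mul]
    have h1 := abs_choose_le hA.b0 hA.bp ((ν - a) / p)
    have h2 : (1 : ℚ) / p ≤ |(ν : ℚ) / p| := by
      rw [abs_of_nonneg (by positivity)]
      gcongr
      exact_mod_cast hν
    have hpos : (0 : ℚ) < 1 / p := by positivity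
    rw [div_le_iff₀ (lt_of_lt_of_le hpos h2)]
    calc |Ring.choose ((b : ℚ) / p - 1) ((ν - a) / p)| ≤ 1 := h1
      _ = p * (1 / p) := by field_simp
      _ ≤ p * |(ν : ℚ) / p| := by gcongr
  · rw [rc, if_neg h, abs_zero]
    positivity

end Pool.Agent.GP
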