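import Pool.Agent.GP.Coc
import Pool.Agent.GP.Zed

/-! Module ZER: number of small elements, and the zero estimate (section 5). -/

set_option autoImplicit false

namespace Pool.Agent.GP

open Complex

theorem zet_prim {p : ℕ} (hp : 2 ≤ p) : IsPrimitiveRoot (zet p) p := by
  unfold zet
  have h := Complex.isPrimitiveRoot_exp p (by omega)
  exact h

theorem zet_pow_inj {p : ℕ} (hp : 2 ≤ p) :
    Function.Injective (fun t : Un p => zet p ^ (t : ℕ)) := by
  intro s t h
  have hs : (s : ℕ) < p := (mem_Un.mp s.2).1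
  have ht : (t : ℕ) < p := (mem_Un.mp t.2).1
  exact Subtype.ext ((zet_prim hp).pow_inj hs ht h)

/-- surjectivity for a subset of the conjugates, with arbitrary nonzero factors -/
theorem sg_surj_sub {p : ℕ} (hp : 2 ≤ p) {T : Finset ℕ} (hT : T ⊆ Un p) (b : T → ℂ)
    (hb : ∀ t, b t ≠ 0) (y : T → ℂ) : ∃ v : Fin p.totient → ℂ, ∀ t : T,
      b t * ∑ i : Fin p.totient, v i * zet p ^ ((t : ℕ) * (i : ℕ)) = y t := by
  have hcard : Fintype.card T ≤ p.totient := by
    rw [Fintype.card_coe, ← card_Un p]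
    exact Finset.card_le_card hT
  have hinj : Function.Injective (fun t : T => zet p ^ (t : ℕ)) := by
    intro s t h
    have := @zet_pow_inj p hp ⟨s, hT s.2⟩ ⟨t, hT t.2⟩ h
    exact Subtype.ext (Subtype.mk.inj this)
  obtain ⟨v, hv⟩ := GP.vander_surj hcard (fun t : T => zet p ^ (t : ℕ)) hinj b hb y
  refine ⟨v, fun t => ?_⟩
  rw [← hv t]
  simp only [pow_mul]

/-- the embeddings are linearly independent -/
theorem sg_surj {p : ℕ} (hp : 2 ≤ p) : Function.Bijective
    (fun (v : Fin p.totient → ℂ) (t : Un p) =>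
      ∑ i : Fin p.totient, v i * zet p ^ ((t : ℕ) * (i : ℕ))) := by
  set A : (Fin p.totient → ℂ) →ₗ[ℂ] (Un p → ℂ) :=
    { toFun := fun v t => ∑ i : Fin p.totient, v i * zet p ^ ((t : ℕ) * (i : ℕ))
      map_add' := by
        intro u v; funext t; simp [add_mul, Finset.sum_add_distrib]
      map_smul' := by
        intro c v; funext t; simp [Finset.mul_sum, mul_assoc] } with hA
  have hsurj : Function.Surjective A := by
    intro y
    obtain ⟨v, hv⟩ := sg_surj_sub hp (le_refl (Un p)) (fun _ => 1) (fun _ => one_ne_zero) y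
    refine ⟨v, funext fun t => ?_⟩
    have := hv t
    rw [one_mul] at this
    exact this
  have hfin : Module.finrank ℂ (Fin p.totient → ℂ) = Module.finrank ℂ (Un p → ℂ) := by
    simp [card_Un]
  exact ⟨(LinearMap.injective_iff_surjective_of_finrank_eq_finrank hfin).mpr hsurj, hsurj⟩

theorem nrm_ge {p : ℕ} (hp : 2 ≤ p) : ∃ c : ℝ, 0 < c ∧ ∀ u : Fin p.totient → ℤ,
    c * ∑ i, (u i : ℝ) ^ 2 ≤ nrm p u := by
  set A : (Fin p.totient → ℂ) →ₗ[ℂ] (Un p → ℂ) :=
    { toFun := fun v t => ∑ i : Fin p.totient, v i * zet p ^ ((t : ℕ) * (i : ℕ))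
      map_add' := by
        intro u v; funext t; simp [add_mul, Finset.sum_add_distrib]
      map_smul' := by
        intro c v; funext t; simp [Finset.mul_sum, mul_assoc] } with hA
  have hbij := sg_surj hp
  set e := LinearEquiv.ofBijective A hbij with he
  set B := LinearMap.toContinuousLinearMap (e.symm : (Un p → ℂ) →ₗ[ℂ] (Fin p.totient → ℂ)) with hB
  have hle : ∀ v : Fin p.totient → ℂ, ‖v‖ ≤ ‖B‖ * ‖A v‖ := by
    intro v
    have h1 : B (A v) = v := by
      rw [hB]
      simp only [LinearMap.coe_toContinuousLinearMap', LinearEquiv.coe_coe]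
      exact e.symm_apply_apply v
    calc ‖v‖ = ‖B (A v)‖ := by rw [h1]
      _ ≤ ‖B‖ * ‖A v‖ := B.le_opNorm _
  set m : ℝ := (p.totient : ℝ) with hm
  set K : ℝ := m * (‖B‖ + 1) ^ 2 + 1 with hK
  have hm0 : 0 ≤ m := by positivity
  have hK0 : 0 < K := by positivity
  refine ⟨1 / K, by positivity, fun u => ?_⟩
  have h1 := hle (fun i => (u i : ℂ))
  have hnn : 0 ≤ nrm p u := Finset.sum_nonneg fun t _ => by positivity
  -- the norm of A u is at most the square root of nrm
  have h2 : ‖A (fun i => (u i : ℂ))‖ ≤ Real.sqrt (nrm p u) := by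
    rw [pi_norm_le_iff_of_nonneg (Real.sqrt_nonneg _)]
    intro t
    apply Real.le_sqrt_of_sq_le
    have h3 : A (fun i => (u i : ℂ)) t = sg p t u := rfl
    rw [h3]
    exact Finset.single_le_sum (f := fun t => ‖sg p t u‖ ^ 2) (fun t _ => by positivity) t.2
  have h4 : ∀ i, (u i : ℝ) ^ 2 ≤ (‖B‖ + 1) ^ 2 * nrm p u := by
    intro i
    have h5 : |(u i : ℝ)| ≤ (‖B‖ + 1) * Real.sqrt (nrm p u) := by
      have h6 : ‖((u i : ℤ) : ℂ)‖ ≤ ‖(fun i => (u i : ℂ))‖ := norm_le_pi_norm (fun i => (u i : ℂ)) i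
      have h7 : ‖((u i : ℤ) : ℂ)‖ = |(u i : ℝ)| := by
        rw [Complex.norm_intCast]
      rw [← h7]
      refine h6.trans (h1.trans ?_)
      have := norm_nonneg B
      have h8 := norm_nonneg (A (fun i => (u i : ℂ)))
      nlinarith [Real.sqrt_nonneg (nrm p u)]
    have h9 : (u i : ℝ) ^ 2 = |(u i : ℝ)| ^ 2 := (sq_abs _).symm
    rw [h9]
    calc |(u i : ℝ)| ^ 2 ≤ ((‖B‖ + 1) * Real.sqrt (nrm p u)) ^ 2 := by gcongr
      _ = (‖B‖ + 1) ^ 2 * nrm p u := by rw [mul_pow, Real.sq_sqrt hnn]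
  have h10 : ∑ i, (u i : ℝ) ^ 2 ≤ m * ((‖B‖ + 1) ^ 2 * nrm p u) := by
    refine (Finset.sum_le_sum fun i _ => h4 i).trans ?_
    simp [hm]
  rw [one_div, inv_mul_le_iff₀ hK0]
  calc ∑ i, (u i : ℝ) ^ 2 ≤ m * ((‖B‖ + 1) ^ 2 * nrm p u) := h10
    _ ≤ K * nrm p u := by
      rw [hK]; nlinarith

theorem nrm_card {p : ℕ} (hp : 2 ≤ p) : ∃ C : ℝ, 0 < C ∧ ∀ r : ℝ, 0 ≤ r →
    ∃ S : Finset (Fin p.totient → ℤ), (∀ u, u ∈ S ↔ nrm p u < r) ∧
      (S.card : ℝ) ≤ C * (1 + r) ^ ((p.totient : ℝ) / 2) := by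
  obtain ⟨c, hc, hge⟩ := nrm_ge hp
  set K : ℝ := 2 * Real.sqrt (1 / c) + 1 with hK
  have hK0 : 0 < K := by positivity
  refine ⟨K ^ p.totient, by positivity, fun r hr => ?_⟩
  set R : ℤ := ⌊Real.sqrt (r / c)⌋ with hR
  have hR0 : 0 ≤ R := Int.floor_nonneg.mpr (Real.sqrt_nonneg _)
  set Box : Finset (Fin p.totient → ℤ) := Fintype.piFinset (fun _ => Finset.Icc (-R) R) with hBox
  have hmem : ∀ u, nrm p u < r → u ∈ Box := by
    intro u hu
    rw [hBox, Fintype.mem_piFinset]
    intro i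
    have h1 : (u i : ℝ) ^ 2 ≤ r / c := by
      rw [le_div_iff₀ hc, mul_comm]
      have h2 : (u i : ℝ) ^ 2 ≤ ∑ i, (u i : ℝ) ^ 2 :=
        Finset.single_le_sum (f := fun i => (u i : ℝ) ^ 2) (fun i _ => by positivity)
          (Finset.mem_univ i)
      have h3 := hge u
      nlinarith
    have h4 : |(u i : ℝ)| ≤ Real.sqrt (r / c) := Real.abs_le_sqrt h1
    have h5 : |u i| ≤ R := by
      rw [hR]
      apply Int.le_floor.mpr
      push_cast
      exact h4
    rw [Finset.mem_Icc]
    exact abs_le.mp h5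
  refine ⟨Box.filter (fun u => nrm p u < r), ?_, ?_⟩
  · intro u
    rw [Finset.mem_filter]
    exact ⟨fun h => h.2, fun h => ⟨hmem u h, h⟩⟩
  · have h1 : ((Box.filter (fun u => nrm p u < r)).card : ℝ) ≤ Box.card := by
      exact_mod_cast Finset.card_filter_le _ _
    have h2 : (Box.card : ℝ) = (2 * (R : ℝ) + 1) ^ p.totient := by
      have h3 : Box.card = (2 * R + 1).toNat ^ p.totient := by
        rw [hBox, Fintype.card_piFinset]
        simp only [Int.card_Icc, Finset.prod_const, Finset.card_univ, Fintype.card_fin]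
        congr 2
        ring
      rw [h3]
      push_cast
      have h4 : (((2 * R + 1).toNat : ℕ) : ℝ) = ((2 * R + 1 : ℤ) : ℝ) := by
        have : (((2 * R + 1).toNat : ℕ) : ℤ) = 2 * R + 1 := Int.toNat_of_nonneg (by omega)
        exact_mod_cast this
      rw [h4]
      push_cast
      ring
    have h5 : 2 * (R : ℝ) + 1 ≤ K * Real.sqrt (1 + r) := by
      have h6 : (R : ℝ) ≤ Real.sqrt (r / c) := Int.floor_le _
      have h7 : Real.sqrt (r / c) ≤ Real.sqrt (1 / c) * Real.sqrt (1 + r) := by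
        rw [← Real.sqrt_mul (by positivity)]
        apply Real.sqrt_le_sqrt
        rw [div_mul_eq_mul_div, one_mul]
        gcongr
        linarith
      have h8 : 1 ≤ Real.sqrt (1 + r) := by
        rw [Real.one_le_sqrt]
        linarith
      rw [hK]
      nlinarith
    calc ((Box.filter (fun u => nrm p u < r)).card : ℝ) ≤ (2 * (R : ℝ) + 1) ^ p.totient := by
          rw [← h2]; exact h1
      _ ≤ (K * Real.sqrt (1 + r)) ^ p.totient := by
          have : (0 : ℝ) ≤ R := by exact_mod_cast hR0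
          gcongr
      _ = K ^ p.totient * (1 + r) ^ ((p.totient : ℝ) / 2) := by
          rw [mul_pow]
          congr 1
          rw [Real.sqrt_eq_rpow, ← Real.rpow_natCast, ← Real.rpow_mul (by linarith)]
          congr 1
          ring

theorem zero_est {p j k : ℕ} (hD : Dat p j k) {T : Finset ℕ} (hT : T ⊆ Un p) (L : ℕ) :
    ∃ B : ℝ, ∀ (L1 : ℕ) (P : Fin (L1 + 1) → (T → Fin L) → ℂ), P ≠ 0 →
      ∃ u : Fin p.totient → ℤ, nrm p u ≤ B ∧
        ∃ ν ≤ p * L1, PowerSeries.coeff ν (fx p j k T L L1 P u) ≠ 0 := by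
  have hp3 := hD.p3
  have hp2 : 2 ≤ p := by omega
  set b : T → ℂ := fun t => bet p (at' p j t) (at' p k t) with hb
  have hb0 : ∀ t, b t ≠ 0 := fun t => bet_ne_zero (hD.adm (hT t.2))
  set A : (Fin p.totient → ℂ) →ₗ[ℂ] (T → ℂ) :=
    { toFun := fun v t => b t * ∑ i : Fin p.totient, v i * zet p ^ ((t : ℕ) * (i : ℕ))
      map_add' := by
        intro u v; funext t; simp [add_mul, mul_add, Finset.sum_add_distrib]
      map_smul' := by
        intro c v; funext t
        simp only [Pi.smul_apply, smul_eq_mul, RingHom.id_apply, Finset.mul_sum]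
        refine Finset.sum_congr rfl fun i _ => ?_
        ring } with hA
  have hAs : Function.Surjective A := by
    intro y
    obtain ⟨v, hv⟩ := sg_surj_sub hp2 hT b hb0 y
    exact ⟨v, funext hv⟩
  set D : ℕ := Fintype.card T * (L - 1) with hDdef
  refine ⟨(Un p).card * (p.totient * ((D : ℝ) * D)) ^ 2, fun L1 P hP => ?_⟩
  have hXp : PowerSeries.coeff p (PowerSeries.X ^ p : PowerSeries ℂ) ≠ 0 := by
    rw [PowerSeries.coeff_X_pow_self]; exact one_ne_zero
  obtain ⟨v, hv, n, hn, ν, hν, hne⟩ := GP.zed_core (by omega : 0 < p)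
    (PowerSeries.X ^ p : PowerSeries ℂ) 1
    (fun ν hν => by rw [PowerSeries.coeff_X_pow, if_neg hν.ne]) hXp (by simp)
    (fun t : T => Rs p (at' p j t) (at' p k t)) A hAs P hP
  refine ⟨fun i => (n : ℤ) * v i, ?_, ν, hν, ?_⟩
  · have hsg : ∀ t, ‖sg p t (fun i => (n : ℤ) * v i)‖ ≤ p.totient * ((D : ℝ) * D) := by
      intro t
      unfold sg
      refine (norm_sum_le _ _).trans ?_
      have h1 : ∀ i : Fin p.totient,
          ‖(((n : ℤ) * v i : ℤ) : ℂ) * zet p ^ (t * (i : ℕ))‖ ≤ (D : ℝ) * D := by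
        intro i
        have hz : ‖zet p‖ = 1 := (zet_prim hp2).norm'_eq_one (by omega)
        rw [norm_mul, norm_pow, hz, one_pow, mul_one]
        push_cast
        rw [norm_mul, Complex.norm_natCast, Complex.norm_natCast]
        have h2 : (n : ℝ) ≤ D := by exact_mod_cast hn
        have h3 : (v i : ℝ) ≤ D := by exact_mod_cast hv i
        gcongr
      refine (Finset.sum_le_sum fun i _ => h1 i).trans ?_
      simp
    unfold nrm
    refine (Finset.sum_le_sum fun t _ => pow_le_pow_left₀ (norm_nonneg _) (hsg t) 2).trans ?_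
    rw [Finset.sum_const, nsmul_eq_mul]
  · have heq : GP.aser (PowerSeries.X ^ p : PowerSeries ℂ) 1
        (fun t : T => Rs p (at' p j t) (at' p k t))
        (fun t => (n : ℂ) * A (fun i => (v i : ℂ)) t) P =
        fx p j k T L L1 P (fun i => (n : ℤ) * v i) := by
      unfold GP.aser fx
      refine Finset.sum_congr rfl fun i _ => ?_
      refine Finset.sum_congr rfl fun m _ => ?_
      rw [one_pow, mul_one, ← pow_mul]
      congr 1
      refine Finset.prod_congr rfl fun t _ => ?_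
      have hx : (n : ℂ) * A (fun i => (v i : ℂ)) t =
          bet p (at' p j t) (at' p k t) * sg p t (fun i => (n : ℤ) * v i) := by
        rw [hA]
        simp only [LinearMap.coe_mk, AddHom.coe_mk, hb]
        unfold sg
        rw [Finset.mul_sum, Finset.mul_sum, Finset.mul_sum]
        refine Finset.sum_congr rfl fun i _ => ?_
        push_cast
        ring
      show (Rs p (at' p j t) (at' p k t) + PowerSeries.C ((n : ℂ) * A (fun i => (v i : ℂ)) t)) ^
        (m t : ℕ) = _
      rw [hx]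
    rw [← heq]
    exact hne

end Pool.Agent.GP
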