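import Pool.Agent.GP.AlgAri
import Pool.Agent.GP.Rc
import Pool.Agent.GP.Zer

/-! Module ARI: construction of the auxiliary functions by Siegel's lemma and the
arithmetic of the first nonzero coefficient. -/

set_option autoImplicit false

namespace Pool.Agent.GP

open Polynomial IntermediateField

theorem zet_isAlgebraic {p : ℕ} (hp : 0 < p) : IsAlgebraic ℚ (zet p) := by
  have h1 : zet p ^ p = 1 := by
    have := (Complex.isPrimitiveRoot_exp p hp.ne').pow_eq_one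
    exact this
  apply IsAlgebraic.of_pow hp
  rw [h1]; exact isAlgebraic_one

theorem ari {p j k : ℕ} (hD : Dat p j k) {T : Finset ℕ} (hT : T ⊆ Un p) {θ : ℂ}
    (hθ : Transcendental ℚ θ)
    (hβ : ∀ t ∈ T, IsAlgebraic ℚ⟮θ⟯ (bet p (at' p j t) (at' p k t))) :
    ∃ C : ℝ, 0 < C ∧ ∀ (L : ℕ) (S : Finset (Fin p.totient → ℤ)) (B : ℝ), 2 ≤ L →
      ∃ N0 : ℕ, ∀ N L1 : ℕ, N0 ≤ N → L1 ≤ N →
        C * S.card * N ≤ ((L1 : ℝ) + 1) * (L : ℝ) ^ T.card →
        ∃ P : Fin (L1 + 1) → (T → Fin L) → ℂ, P ≠ 0 ∧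
          (∀ i m, ‖P i m‖ ≤ Real.exp (C * Real.log (L + 2) * N)) ∧
          (∀ u ∈ S, ∀ ν < N, PowerSeries.coeff ν (fx p j k T L L1 P u) = 0) ∧
          ∀ u : Fin p.totient → ℤ, nrm p u ≤ B → ∀ ν ≤ N,
            PowerSeries.coeff ν (fx p j k T L L1 P u) ≠ 0 →
            ∃ A : ℤ[X], A ≠ 0 ∧ (A.natDegree : ℝ) ≤ C * L ∧
              (∀ i, |(A.coeff i : ℝ)| ≤ Real.exp (C * Real.log (L + 2) * N)) ∧
              ‖aeval θ A‖ ≤ Real.exp (C * Real.log (L + 2) * N)
                * ‖PowerSeries.coeff ν (fx p j k T L L1 P u)‖ := by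
  classical
  have hp3 := hD.p3
  have hp : 0 < p := by omega
  have hadm : ∀ t : T, Adm p (at' p j t) (at' p k t) := fun t => hD.adm (hT t.2)
  let G : T → PowerSeries ℂ := fun t => Rs p (at' p j t) (at' p k t)
  have hcoef : ∀ (t : T) (ν : ℕ), PowerSeries.coeff ν (G t) =
      ((rc p (at' p j t) (at' p k t) ν : ℚ) : ℂ) := by
    intro t ν
    simp [G, Rs]
  have hG : ∀ t, _root_.GP.HasDen _root_.GP.ZC p (G t) := by
    intro t
    constructor
    · rw [hcoef, rc_zero (hadm t)]; simp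
    · intro ν _
      obtain ⟨z, hz⟩ := rc_int (hadm t) ν
      rw [_root_.GP.mem_ZC, hcoef]
      refine ⟨z, ?_⟩
      have : ((z : ℚ) : ℂ) = (((p : ℚ) ^ (2 * ν) * (ν : ℚ) *
          rc p (at' p j t) (at' p k t) ν : ℚ) : ℂ) := by rw [hz]
      push_cast at this ⊢
      rw [this]
  have hGs : ∀ t ν, ‖PowerSeries.coeff ν (G t)‖ ≤ p := by
    intro t ν
    rw [hcoef, Complex.norm_ratCast]
    have := rc_le (hadm t) ν
    exact_mod_cast this
  let x : T × Fin p.totient → ℂ := fun q =>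
    bet p (at' p j q.1) (at' p k q.1) * zet p ^ ((q.1 : ℕ) * (q.2 : ℕ))
  have hx : ∀ q, IsAlgebraic (IntermediateField.adjoin ℚ ({θ} : Set ℂ)) (x q) := by
    intro q
    apply IsAlgebraic.mul (hβ q.1 q.1.2)
    exact ((zet_isAlgebraic hp).pow _).tower_top _
  obtain ⟨C, hC4, hC⟩ := _root_.GP.ar_main hθ x hx hp G hG hGs
  refine ⟨C, by linarith, ?_⟩
  intro L S B hL
  obtain ⟨c, hc, hnrm⟩ := nrm_ge (p := p) (by omega)
  set R : ℝ := 1 + |B| / c + ∑ u ∈ S, ∑ i, |(u i : ℝ)| with hR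
  have hsum0 : 0 ≤ ∑ u ∈ S, ∑ i, |(u i : ℝ)| :=
    Finset.sum_nonneg fun _ _ => Finset.sum_nonneg fun _ _ => abs_nonneg _
  have hR0 : 0 ≤ R := by
    have : 0 ≤ |B| / c := by positivity
    linarith
  let S' : Set (Fin p.totient → ℤ) := {u | ∀ i, |(u i : ℝ)| ≤ R}
  let uu : (Fin p.totient → ℤ) → T → T × Fin p.totient → ℤ := fun u t q =>
    if q.1 = t then u q.2 else 0
  obtain ⟨N0, hN0⟩ := hC L (1 + p.totient * R) hL (by
    have : 0 ≤ (p.totient : ℝ) * R := by positivity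
    linarith)
  refine ⟨N0, ?_⟩
  intro N L1 hN hL1 hcount
  have hSS : ∀ u ∈ S, u ∈ S' := by
    intro u hu i
    have h1 : |(u i : ℝ)| ≤ ∑ i, |(u i : ℝ)| :=
      Finset.single_le_sum (f := fun i => |(u i : ℝ)|) (fun _ _ => abs_nonneg _) (Finset.mem_univ i)
    have h2 : ∑ i, |(u i : ℝ)| ≤ ∑ u ∈ S, ∑ i, |(u i : ℝ)| :=
      Finset.single_le_sum (f := fun u : Fin p.totient → ℤ => ∑ i, |(u i : ℝ)|)
        (fun _ _ => Finset.sum_nonneg fun _ _ => abs_nonneg _) hu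
    have h3 : 0 ≤ |B| / c := by positivity
    linarith
  have hBS : ∀ u : Fin p.totient → ℤ, nrm p u ≤ B → u ∈ S' := by
    intro u hu i
    have h1 : (u i : ℝ) ^ 2 ≤ ∑ i, (u i : ℝ) ^ 2 :=
      Finset.single_le_sum (f := fun i => (u i : ℝ) ^ 2) (fun _ _ => sq_nonneg _) (Finset.mem_univ i)
    have h2 := hnrm u
    have h3 : (u i : ℝ) ^ 2 ≤ |B| / c := by
      rw [le_div_iff₀ hc]
      have h4 : c * (u i : ℝ) ^ 2 ≤ c * ∑ i, (u i : ℝ) ^ 2 := mul_le_mul_of_nonneg_left h1 hc.le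
      have h5 := le_abs_self B
      linarith
    have h4 : |(u i : ℝ)| ≤ 1 + (u i : ℝ) ^ 2 := by
      have := sq_abs (u i : ℝ)
      nlinarith [sq_nonneg (|(u i : ℝ)| - 1), abs_nonneg (u i : ℝ)]
    linarith
  have huu : ∀ u ∈ S', ∀ t, ∑ q, |(uu u t q : ℝ)| ≤ 1 + p.totient * R := by
    intro u hu t
    rw [Fintype.sum_prod_type]
    have h1 : ∀ t' : T, ∑ i, |(uu u t (t', i) : ℝ)| =
        if t' = t then ∑ i, |(u i : ℝ)| else 0 := by
      intro t'
      simp only [uu]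
      split_ifs <;> simp
    rw [Finset.sum_congr rfl fun t' _ => h1 t', Finset.sum_ite_eq' Finset.univ t]
    rw [if_pos (Finset.mem_univ _)]
    have h2 : ∑ i, |(u i : ℝ)| ≤ ∑ _i : Fin p.totient, R := Finset.sum_le_sum fun i _ => hu i
    rw [Finset.sum_const, Finset.card_univ, Fintype.card_fin, nsmul_eq_mul] at h2
    linarith
  have hy : ∀ (u : Fin p.totient → ℤ) (t : T), ∑ q, (uu u t q : ℂ) * x q =
      bet p (at' p j t) (at' p k t) * sg p t u := by
    intro u t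
    rw [Fintype.sum_prod_type]
    have h1 : ∀ t' : T, ∑ i, (uu u t (t', i) : ℂ) * x (t', i) =
        if t' = t then bet p (at' p j t) (at' p k t) * sg p t u else 0 := by
      intro t'
      simp only [uu, x]
      split_ifs with h
      · rw [h]
        unfold sg
        rw [Finset.mul_sum]
        apply Finset.sum_congr rfl
        intro i _
        ring
      · simp
    rw [Finset.sum_congr rfl fun t' _ => h1 t', Finset.sum_ite_eq' Finset.univ t]
    rw [if_pos (Finset.mem_univ _)]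
  have hfx : ∀ (P : Fin (L1 + 1) → (T → Fin L) → ℂ) (u : Fin p.totient → ℤ),
      _root_.GP.xser p G (fun t => ∑ q, (uu u t q : ℂ) * x q) P = fx p j k T L L1 P u := by
    intro P u
    have h1 : (fun t : T => ∑ q, (uu u t q : ℂ) * x q) =
        fun t : T => bet p (at' p j t) (at' p k t) * sg p t u := funext fun t => hy u t
    rw [h1]
    rfl
  have hcard : Fintype.card T = T.card := Fintype.card_coe T
  obtain ⟨P, hP0, hPb, hPv, hPn⟩ := hN0 N L1 hN hL1 uu S S' hSS huu (by rw [hcard]; exact hcount)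
  refine ⟨P, hP0, hPb, ?_, ?_⟩
  · intro u hu ν hν
    rw [← hfx]
    exact hPv u hu ν hν
  · intro u hu ν hν hne
    rw [← hfx] at hne ⊢
    exact hPn u (hBS u hu) ν hν hne

end Pool.Agent.GP
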