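import Pool.Agent.GP.Defs

/-! Module LW: the infinite products. -/

set_option autoImplicit false

namespace Pool.Agent.GP

open Complex Metric

/-! ### estimates -/

theorem norm_log_one_add_le_mul {z : ℂ} {r : ℝ} (hr : r < 1) (hz : ‖z‖ ≤ r) :
    ‖Complex.log (1 + z)‖ ≤ ‖z‖ * (1 + (1 - r)⁻¹) := by
  have h0 : 0 ≤ ‖z‖ := norm_nonneg z
  have hz1 : ‖z‖ < 1 := lt_of_le_of_lt hz hr
  refine (Complex.norm_log_one_add_le hz1).trans ?_
  have h1 : (1 - ‖z‖)⁻¹ ≤ (1 - r)⁻¹ := by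
    apply inv_anti₀ (by linarith) (by linarith)
  have h2 : 0 < (1 - ‖z‖)⁻¹ := inv_pos.mpr (by linarith)
  have h3 : ‖z‖ ^ 2 * (1 - ‖z‖)⁻¹ / 2 ≤ ‖z‖ * (1 - r)⁻¹ := by
    have h4 : ‖z‖ ^ 2 ≤ ‖z‖ := by nlinarith
    calc ‖z‖ ^ 2 * (1 - ‖z‖)⁻¹ / 2 ≤ ‖z‖ ^ 2 * (1 - ‖z‖)⁻¹ := by
          have : 0 ≤ ‖z‖ ^ 2 * (1 - ‖z‖)⁻¹ := by positivity
          linarith
      _ ≤ ‖z‖ * (1 - r)⁻¹ := mul_le_mul h4 h1 h2.le h0
  linarith

theorem norm_log_one_sub_le_mul {z : ℂ} {r : ℝ} (hr : r < 1) (hz : ‖z‖ ≤ r) :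
    ‖Complex.log (1 - z)‖ ≤ ‖z‖ * (1 + (1 - r)⁻¹) := by
  have h := norm_log_one_add_le_mul (z := -z) hr (by rwa [norm_neg])
  rwa [norm_neg, ← sub_eq_add_neg] at h

theorem slit_one_add {z : ℂ} (hz : ‖z‖ < 1) : 1 + z ∈ slitPlane := by
  left
  have h1 : |z.re| ≤ ‖z‖ := Complex.abs_re_le_norm z
  have h2 := (abs_le.mp h1).1
  rw [add_re, one_re]
  linarith

theorem slit_one_sub {z : ℂ} (hz : ‖z‖ < 1) : 1 - z ∈ slitPlane := by
  rw [sub_eq_add_neg]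
  exact slit_one_add (by rwa [norm_neg])

theorem pow_norm_lt {q : ℂ} (hq : ‖q‖ < 1) (n : ℕ) : ‖q ^ (n + 1)‖ < 1 := by
  rw [norm_pow]
  exact pow_lt_one₀ (norm_nonneg q) hq (Nat.succ_ne_zero n)

theorem pow_norm_le {q : ℂ} {r : ℝ} (hr : r < 1) (hq : ‖q‖ ≤ r) (n : ℕ) :
    ‖q ^ (n + 1)‖ ≤ r ^ (n + 1) ∧ ‖q ^ (n + 1)‖ ≤ r := by
  have h0 : 0 ≤ r := (norm_nonneg q).trans hq
  have h1 : ‖q ^ (n + 1)‖ ≤ r ^ (n + 1) := by
    rw [norm_pow]
    exact pow_le_pow_left₀ (norm_nonneg q) hq _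
  refine ⟨h1, h1.trans ?_⟩
  calc r ^ (n + 1) ≤ r ^ 1 := pow_le_pow_of_le_one h0 hr.le (by omega)
    _ = r := pow_one r

/-- general term of the series of logarithms -/
theorem term_bound {q : ℂ} {r : ℝ} (hr : r < 1) (hq : ‖q‖ ≤ r) (n : ℕ) :
    ‖Complex.log (1 - q ^ (2 * n + 2))‖ ≤ r ^ n * (1 + (1 - r)⁻¹) ∧
    ‖Complex.log (1 + q ^ (2 * n + 2))‖ ≤ r ^ n * (1 + (1 - r)⁻¹) ∧
    ‖Complex.log (1 - q ^ (2 * n + 1))‖ ≤ r ^ n * (1 + (1 - r)⁻¹) := by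
  have h0 : 0 ≤ r := (norm_nonneg q).trans hq
  have hc : 0 ≤ 1 + (1 - r)⁻¹ := by
    have : 0 < (1 - r)⁻¹ := inv_pos.mpr (by linarith)
    linarith
  have e1 : r ^ (2 * n + 1 + 1) ≤ r ^ n := pow_le_pow_of_le_one h0 hr.le (by omega)
  have e2 : r ^ (2 * n + 1) ≤ r ^ n := pow_le_pow_of_le_one h0 hr.le (by omega)
  obtain ⟨a1, a2⟩ := pow_norm_le hr hq (2 * n + 1)
  obtain ⟨b1, b2⟩ := pow_norm_le hr hq (2 * n)
  refine ⟨?_, ?_, ?_⟩
  · exact (norm_log_one_sub_le_mul hr a2).trans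
      (mul_le_mul_of_nonneg_right (a1.trans e1) hc)
  · exact (norm_log_one_add_le_mul hr a2).trans
      (mul_le_mul_of_nonneg_right (a1.trans e1) hc)
  · exact (norm_log_one_sub_le_mul hr b2).trans
      (mul_le_mul_of_nonneg_right (b1.trans e2) hc)

theorem summable_bd {r : ℝ} (h0 : 0 ≤ r) (hr : r < 1) :
    Summable fun n : ℕ => 12 * (r ^ n * (1 + (1 - r)⁻¹)) :=
  ((summable_geometric_of_lt_one h0 hr).mul_right _).mul_left _

theorem t2_bound {q : ℂ} {r : ℝ} (hr : r < 1) (hq : ‖q‖ ≤ r) (n : ℕ) :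
    ‖4 * Complex.log (1 - q ^ (2 * n + 2)) + 8 * Complex.log (1 + q ^ (2 * n + 2))‖
      ≤ 12 * (r ^ n * (1 + (1 - r)⁻¹)) := by
  obtain ⟨h1, h2, -⟩ := term_bound hr hq n
  refine (norm_add_le _ _).trans ?_
  rw [norm_mul, norm_mul]
  have e4 : ‖(4 : ℂ)‖ = 4 := by norm_num
  have e8 : ‖(8 : ℂ)‖ = 8 := by norm_num
  rw [e4, e8]
  linarith

theorem t4_bound {q : ℂ} {r : ℝ} (hr : r < 1) (hq : ‖q‖ ≤ r) (n : ℕ) :
    ‖4 * Complex.log (1 - q ^ (2 * n + 2)) + 8 * Complex.log (1 - q ^ (2 * n + 1))‖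
      ≤ 12 * (r ^ n * (1 + (1 - r)⁻¹)) := by
  obtain ⟨h1, -, h3⟩ := term_bound hr hq n
  refine (norm_add_le _ _).trans ?_
  rw [norm_mul, norm_mul]
  have e4 : ‖(4 : ℂ)‖ = 4 := by norm_num
  have e8 : ‖(8 : ℂ)‖ = 8 := by norm_num
  rw [e4, e8]
  linarith

theorem lW2_summable {q : ℂ} (hq : ‖q‖ < 1) : Summable fun n : ℕ =>
    (4 * Complex.log (1 - q ^ (2 * n + 2)) + 8 * Complex.log (1 + q ^ (2 * n + 2))) :=
  Summable.of_norm_bounded (summable_bd (norm_nonneg q) hq) fun n => t2_bound hq le_rfl n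

theorem lW4_summable {q : ℂ} (hq : ‖q‖ < 1) : Summable fun n : ℕ =>
    (4 * Complex.log (1 - q ^ (2 * n + 2)) + 8 * Complex.log (1 - q ^ (2 * n + 1))) :=
  Summable.of_norm_bounded (summable_bd (norm_nonneg q) hq) fun n => t4_bound hq le_rfl n

theorem diff_one_sub (k : ℕ) :
    DifferentiableOn ℂ (fun q : ℂ => Complex.log (1 - q ^ (k + 1))) (ball 0 1) := by
  intro q hq
  rw [mem_ball_zero_iff] at hq
  have h : DifferentiableAt ℂ (fun q : ℂ => 1 - q ^ (k + 1)) q := by fun_prop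
  exact (h.clog (slit_one_sub (pow_norm_lt hq k))).differentiableWithinAt

theorem diff_one_add (k : ℕ) :
    DifferentiableOn ℂ (fun q : ℂ => Complex.log (1 + q ^ (k + 1))) (ball 0 1) := by
  intro q hq
  rw [mem_ball_zero_iff] at hq
  have h : DifferentiableAt ℂ (fun q : ℂ => 1 + q ^ (k + 1)) q := by fun_prop
  exact (h.clog (slit_one_add (pow_norm_lt hq k))).differentiableWithinAt

theorem diff_of_balls {f : ℂ → ℂ}
    (h : ∀ r : ℝ, 0 < r → r < 1 → DifferentiableOn ℂ f (ball 0 r)) :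
    DifferentiableOn ℂ f (ball 0 1) := by
  intro q hq
  rw [mem_ball_zero_iff] at hq
  obtain ⟨r, h1, h2⟩ := exists_between hq
  have h3 : 0 < r := (norm_nonneg q).trans_lt h1
  exact ((h r h3 h2).differentiableAt
    (isOpen_ball.mem_nhds (mem_ball_zero_iff.mpr h1))).differentiableWithinAt

theorem lW2_diff : DifferentiableOn ℂ lW2 (ball 0 1) := by
  refine diff_of_balls fun r h0 hr => ?_
  refine differentiableOn_tsum_of_summable_norm (summable_bd h0.le hr) (fun n => ?_) isOpen_ball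
    (fun n w hw => t2_bound hr (mem_ball_zero_iff.mp hw).le n)
  exact (((diff_one_sub (2 * n + 1)).mono (ball_subset_ball hr.le)).const_mul 4).add
    (((diff_one_add (2 * n + 1)).mono (ball_subset_ball hr.le)).const_mul 8)

theorem lW4_diff : DifferentiableOn ℂ lW4 (ball 0 1) := by
  refine diff_of_balls fun r h0 hr => ?_
  refine differentiableOn_tsum_of_summable_norm (summable_bd h0.le hr) (fun n => ?_) isOpen_ball
    (fun n w hw => t4_bound hr (mem_ball_zero_iff.mp hw).le n)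
  exact (((diff_one_sub (2 * n + 1)).mono (ball_subset_ball hr.le)).const_mul 4).add
    (((diff_one_sub (2 * n)).mono (ball_subset_ball hr.le)).const_mul 8)

theorem lW2_zero : lW2 0 = 0 := by
  unfold lW2
  simp

theorem lW4_zero : lW4 0 = 0 := by
  unfold lW4
  simp

theorem lW2_neg (q : ℂ) : lW2 (-q) = lW2 q := by
  unfold lW2
  have h : ∀ n : ℕ, (-q) ^ (2 * n + 2) = q ^ (2 * n + 2) := fun n =>
    Even.neg_pow ⟨n + 1, by ring⟩ q
  simp only [h]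

theorem exp_term {x y : ℂ} (hx : x ≠ 0) (hy : y ≠ 0) :
    cexp (4 * Complex.log x + 8 * Complex.log y) = x ^ 4 * y ^ 8 := by
  have h4 : (4 : ℂ) * Complex.log x = ((4 : ℕ) : ℂ) * Complex.log x := by norm_num
  have h8 : (8 : ℂ) * Complex.log y = ((8 : ℕ) : ℂ) * Complex.log y := by norm_num
  rw [h4, h8, Complex.exp_add, Complex.exp_nat_mul, Complex.exp_nat_mul, Complex.exp_log hx,
    Complex.exp_log hy]

theorem exp_lW2 {q : ℂ} (hq : ‖q‖ < 1) :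
    HasProd (fun n : ℕ => (1 - q ^ (2 * n + 2)) ^ 4 * (1 + q ^ (2 * n + 2)) ^ 8)
      (cexp (lW2 q)) := by
  have h := (lW2_summable hq).hasSum.cexp
  have e : (fun n : ℕ => (1 - q ^ (2 * n + 2)) ^ 4 * (1 + q ^ (2 * n + 2)) ^ 8) =
      cexp ∘ fun n : ℕ =>
        (4 * Complex.log (1 - q ^ (2 * n + 2)) + 8 * Complex.log (1 + q ^ (2 * n + 2))) := by
    funext n
    exact (exp_term (slitPlane_ne_zero (slit_one_sub (pow_norm_lt hq (2 * n + 1))))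
      (slitPlane_ne_zero (slit_one_add (pow_norm_lt hq (2 * n + 1))))).symm
  rw [e]
  exact h

theorem exp_lW4 {q : ℂ} (hq : ‖q‖ < 1) :
    HasProd (fun n : ℕ => (1 - q ^ (2 * n + 2)) ^ 4 * (1 - q ^ (2 * n + 1)) ^ 8)
      (cexp (lW4 q)) := by
  have h := (lW4_summable hq).hasSum.cexp
  have e : (fun n : ℕ => (1 - q ^ (2 * n + 2)) ^ 4 * (1 - q ^ (2 * n + 1)) ^ 8) =
      cexp ∘ fun n : ℕ =>
        (4 * Complex.log (1 - q ^ (2 * n + 2)) + 8 * Complex.log (1 - q ^ (2 * n + 1))) := by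
    funext n
    exact (exp_term (slitPlane_ne_zero (slit_one_sub (pow_norm_lt hq (2 * n + 1))))
      (slitPlane_ne_zero (slit_one_sub (pow_norm_lt hq (2 * n))))).symm
  rw [e]
  exact h

theorem log_conj_one_add {z : ℂ} (hz : ‖z‖ < 1) :
    Complex.log (1 + starRingEnd ℂ z) = starRingEnd ℂ (Complex.log (1 + z)) := by
  have h : (1 + z).arg ≠ Real.pi := (Complex.mem_slitPlane_iff_arg.mp (slit_one_add hz)).1
  rw [← Complex.log_conj _ h, map_add, map_one]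

theorem log_conj_one_sub {z : ℂ} (hz : ‖z‖ < 1) :
    Complex.log (1 - starRingEnd ℂ z) = starRingEnd ℂ (Complex.log (1 - z)) := by
  have h : (1 - z).arg ≠ Real.pi := (Complex.mem_slitPlane_iff_arg.mp (slit_one_sub hz)).1
  rw [← Complex.log_conj _ h, map_sub, map_one]

theorem lW2_conj {q : ℂ} (hq : ‖q‖ < 1) : lW2 (starRingEnd ℂ q) = starRingEnd ℂ (lW2 q) := by
  unfold lW2
  rw [Complex.conj_tsum]
  refine tsum_congr fun n => ?_
  rw [← map_pow, log_conj_one_sub (pow_norm_lt hq (2 * n + 1)),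
    log_conj_one_add (pow_norm_lt hq (2 * n + 1)), map_add, map_mul, map_mul, conj_ofNat,
    conj_ofNat]

theorem lW4_conj {q : ℂ} (hq : ‖q‖ < 1) : lW4 (starRingEnd ℂ q) = starRingEnd ℂ (lW4 q) := by
  unfold lW4
  rw [Complex.conj_tsum]
  refine tsum_congr fun n => ?_
  rw [← map_pow, ← map_pow, log_conj_one_sub (pow_norm_lt hq (2 * n + 1)),
    log_conj_one_sub (pow_norm_lt hq (2 * n)), map_add, map_mul, map_mul, conj_ofNat,
    conj_ofNat]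

theorem norm_nm (τ : ℂ) : ‖nm τ‖ = Real.exp (-(Real.pi * τ.im)) := by
  unfold nm
  rw [Complex.norm_exp]
  congr 1
  simp

theorem norm_wn {p : ℕ} (hp : 0 < p) (τ : ℂ) :
    ‖wn p τ‖ = Real.exp (-(Real.pi * τ.im / p)) := by
  unfold wn
  rw [Complex.norm_exp]
  congr 1
  rw [Complex.div_natCast_re]
  simp [neg_div]

theorem nm_norm_lt {τ : ℂ} (h : 0 < τ.im) : ‖nm τ‖ < 1 := by
  rw [norm_nm, Real.exp_lt_one_iff]
  have := mul_pos Real.pi_pos h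
  linarith

theorem wn_norm_lt {p : ℕ} (hp : 0 < p) {τ : ℂ} (h : 0 < τ.im) : ‖wn p τ‖ < 1 := by
  rw [norm_wn hp, Real.exp_lt_one_iff]
  have h1 : (0 : ℝ) < p := by exact_mod_cast hp
  have := div_pos (mul_pos Real.pi_pos h) h1
  linarith

theorem wn_pow {p : ℕ} (hp : 0 < p) (τ : ℂ) : wn p τ ^ p = nm τ := by
  unfold wn nm
  rw [← Complex.exp_nat_mul]
  congr 1
  have h1 : (p : ℂ) ≠ 0 := by exact_mod_cast hp.ne'
  field_simp

end Pool.Agent.GP
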