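import Mathlib

set_option autoImplicit false

/-!
# The fourth powers of the theta functions as eta quotients

`th2 = 16 η(2z)⁸/η(z)⁴`, `th4 = η(z/2)⁸/η(z)⁴`, `th3(z) = th4(z+1)`, `lam = th2/th3`.
-/

open Complex Filter Topology MatrixGroups
open scoped Real ModularForm

namespace GP

/-! ## Euler's product -/

/-- Euler's product -/
noncomputable def EE (q : ℂ) : ℂ := ∏' n : ℕ, (1 - q ^ (n + 1))

theorem differentiableOn_EE : DifferentiableOn ℂ EE (Metric.ball 0 1) :=
  ModularForm.differentiableOn_tprod_one_sub_pow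

theorem EE_zero : EE 0 = 1 := by
  unfold EE
  rw [show (fun n : ℕ => (1 : ℂ) - 0 ^ (n + 1)) = fun _ => 1 by
    funext n; rw [zero_pow (Nat.succ_ne_zero n), sub_zero]]
  exact tprod_one

theorem EE_ne_zero {q : ℂ} (hq : ‖q‖ < 1) : EE q ≠ 0 := by
  have h : (fun n : ℕ => (1 : ℂ) - q ^ (n + 1)) = fun n : ℕ => 1 + (-q ^ (n + 1)) := by
    funext n; ring
  unfold EE
  rw [h]
  refine tprod_one_add_ne_zero_of_summable (f := fun n : ℕ => -q ^ (n + 1)) (fun i hi => ?_) ?_
  · have h1 : q ^ (i + 1) = 1 := by linear_combination -hi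
    have h2 : ‖q ^ (i + 1)‖ < 1 := by
      rw [norm_pow]
      exact pow_lt_one₀ (norm_nonneg q) hq (Nat.succ_ne_zero i)
    rw [h1, norm_one] at h2
    exact lt_irrefl _ h2
  · simp only [norm_neg, norm_pow]
    exact (summable_nat_add_iff 1).mpr (summable_geometric_of_lt_one (norm_nonneg _) hq)

/-- `e^{π i z}` -/
noncomputable def qq (z : ℂ) : ℂ := cexp (π * I * z)

theorem qq_add (z w : ℂ) : qq (z + w) = qq z * qq w := by
  unfold qq
  rw [mul_add, Complex.exp_add]

theorem qq_one : qq 1 = -1 := by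
  unfold qq
  rw [mul_one, Complex.exp_pi_mul_I]

theorem qq_add_one (z : ℂ) : qq (z + 1) = -qq z := by
  rw [qq_add, qq_one, mul_neg_one]

theorem norm_qq (z : ℂ) : ‖qq z‖ = Real.exp (-(π * z.im)) := by
  unfold qq
  rw [Complex.norm_exp]
  congr 1
  simp

theorem norm_qq_lt {z : ℂ} (hz : 0 < z.im) : ‖qq z‖ < 1 := by
  rw [norm_qq, Real.exp_lt_one_iff]
  have := mul_pos Real.pi_pos hz
  linarith

theorem qq_ne_zero (z : ℂ) : qq z ≠ 0 := Complex.exp_ne_zero _

theorem hasDerivAt_qq (z : ℂ) : HasDerivAt qq (π * I * qq z) z := by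
  unfold qq
  have h := ((hasDerivAt_id z).const_mul (π * I)).cexp
  simp only [id, mul_one] at h
  exact h.congr_deriv (mul_comm _ _)

theorem eta_eq (z : ℂ) : ModularForm.eta z = Function.Periodic.qParam 24 z * EE (qq (2 * z)) := by
  unfold ModularForm.eta EE
  congr 2
  funext n
  rw [ModularForm.eta_q_eq_pow]
  congr 2
  unfold qq
  ring_nf

theorem qParam24_pow (z : ℂ) (n : ℕ) :
    Function.Periodic.qParam 24 z ^ n = cexp (n * (2 * π * I * z / 24)) := by
  unfold Function.Periodic.qParam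
  rw [← Complex.exp_nat_mul]
  norm_num

/-! ## The functions -/

/-- the fourth power of the theta function `θ₂` -/
noncomputable def th2 (z : ℂ) : ℂ := 16 * ModularForm.eta (2 * z) ^ 8 / ModularForm.eta z ^ 4

/-- the fourth power of the theta function `θ₄` -/
noncomputable def th4 (z : ℂ) : ℂ := ModularForm.eta (z / 2) ^ 8 / ModularForm.eta z ^ 4

/-- the fourth power of the theta function `θ₃` -/
noncomputable def th3 (z : ℂ) : ℂ := th4 (z + 1)

/-- the modular lambda function -/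
noncomputable def lam (z : ℂ) : ℂ := th2 z / th3 z

/-- `th4 z = phi4 (e^{π i z})` -/
noncomputable def phi4 (q : ℂ) : ℂ := EE q ^ 8 / EE (q ^ 2) ^ 4

/-- `th2 z = 16 q phi2 q`, `q = e^{π i z}` -/
noncomputable def phi2 (q : ℂ) : ℂ := EE (q ^ 4) ^ 8 / EE (q ^ 2) ^ 4

theorem phi4_zero : phi4 0 = 1 := by simp [phi4, EE_zero]

theorem phi2_zero : phi2 0 = 1 := by simp [phi2, EE_zero]

theorem norm_pow_lt_one {q : ℂ} (hq : ‖q‖ < 1) {n : ℕ} (hn : n ≠ 0) : ‖q ^ n‖ < 1 := by
  rw [norm_pow]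
  exact pow_lt_one₀ (norm_nonneg q) hq hn

theorem phi4_ne_zero {q : ℂ} (hq : ‖q‖ < 1) : phi4 q ≠ 0 :=
  div_ne_zero (pow_ne_zero _ (EE_ne_zero hq))
    (pow_ne_zero _ (EE_ne_zero (norm_pow_lt_one hq two_ne_zero)))

theorem phi2_ne_zero {q : ℂ} (hq : ‖q‖ < 1) : phi2 q ≠ 0 :=
  div_ne_zero (pow_ne_zero _ (EE_ne_zero (norm_pow_lt_one hq four_ne_zero)))
    (pow_ne_zero _ (EE_ne_zero (norm_pow_lt_one hq two_ne_zero)))

theorem differentiableOn_EE_pow {n : ℕ} (hn : n ≠ 0) :
    DifferentiableOn ℂ (fun q => EE (q ^ n)) (Metric.ball 0 1) := by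
  refine differentiableOn_EE.comp (differentiableOn_id.pow n) (fun q hq => ?_)
  rw [mem_ball_zero_iff] at hq ⊢
  exact norm_pow_lt_one hq hn

theorem differentiableOn_phi4 : DifferentiableOn ℂ phi4 (Metric.ball 0 1) :=
  (differentiableOn_EE.pow 8).div ((differentiableOn_EE_pow two_ne_zero).pow 4)
    (fun _ hq => pow_ne_zero _ (EE_ne_zero (norm_pow_lt_one (mem_ball_zero_iff.1 hq) two_ne_zero)))

theorem differentiableOn_phi2 : DifferentiableOn ℂ phi2 (Metric.ball 0 1) :=
  ((differentiableOn_EE_pow four_ne_zero).pow 8).div ((differentiableOn_EE_pow two_ne_zero).pow 4)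
    (fun _ hq => pow_ne_zero _ (EE_ne_zero (norm_pow_lt_one (mem_ball_zero_iff.1 hq) two_ne_zero)))

theorem qq_mul_nat (z : ℂ) (n : ℕ) : qq (n * z) = qq z ^ n := by
  unfold qq
  rw [← Complex.exp_nat_mul]
  ring_nf

theorem th4_eq (z : ℂ) : th4 z = phi4 (qq z) := by
  unfold th4 phi4
  rw [eta_eq, eta_eq, mul_pow, mul_pow, qParam24_pow, qParam24_pow,
    show (2 : ℂ) * (z / 2) = z by ring, show qq (2 * z) = qq z ^ 2 by exact_mod_cast qq_mul_nat z 2]
  have h : cexp ((8 : ℕ) * (2 * π * I * (z / 2) / 24)) = cexp ((4 : ℕ) * (2 * π * I * z / 24)) := by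
    congr 1
    push_cast
    ring
  rw [h, mul_div_mul_left _ _ (Complex.exp_ne_zero _)]

theorem th2_eq (z : ℂ) : th2 z = 16 * qq z * phi2 (qq z) := by
  unfold th2 phi2
  rw [eta_eq, eta_eq, mul_pow, mul_pow, qParam24_pow, qParam24_pow,
    show qq (2 * z) = qq z ^ 2 by exact_mod_cast qq_mul_nat z 2,
    show qq (2 * (2 * z)) = qq z ^ 4 by
      rw [← mul_assoc]; norm_num; exact_mod_cast qq_mul_nat z 4]
  have h : cexp ((8 : ℕ) * (2 * π * I * (2 * z) / 24)) =
      cexp ((4 : ℕ) * (2 * π * I * z / 24)) * qq z := by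
    unfold qq
    rw [← Complex.exp_add]
    congr 1
    push_cast
    ring
  rw [h]
  have h1 := Complex.exp_ne_zero ((4 : ℕ) * (2 * π * I * z / 24))
  rw [show 16 * (cexp ((4 : ℕ) * (2 * π * I * z / 24)) * qq z * EE (qq z ^ 4) ^ 8) =
    cexp ((4 : ℕ) * (2 * π * I * z / 24)) * (16 * qq z * EE (qq z ^ 4) ^ 8) by ring,
    mul_div_mul_left _ _ h1]
  ring

theorem th3_eq (z : ℂ) : th3 z = phi4 (-qq z) := by
  rw [th3, th4_eq, qq_add_one]

theorem th2_ne_zero {z : ℂ} (hz : 0 < z.im) : th2 z ≠ 0 := by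
  rw [th2_eq]
  exact mul_ne_zero (mul_ne_zero (by norm_num) (qq_ne_zero z)) (phi2_ne_zero (norm_qq_lt hz))

theorem th4_ne_zero {z : ℂ} (hz : 0 < z.im) : th4 z ≠ 0 := by
  rw [th4_eq]
  exact phi4_ne_zero (norm_qq_lt hz)

theorem th3_ne_zero {z : ℂ} (hz : 0 < z.im) : th3 z ≠ 0 := by
  rw [th3_eq]
  refine phi4_ne_zero ?_
  rw [norm_neg]
  exact norm_qq_lt hz

/-! ## Translation -/

theorem th2_add_one (z : ℂ) : th2 (z + 1) = -th2 z := by
  rw [th2_eq, th2_eq, qq_add_one]
  have h : phi2 (-qq z) = phi2 (qq z) := by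
    unfold phi2
    rw [show (-qq z) ^ 4 = qq z ^ 4 by ring, show (-qq z) ^ 2 = qq z ^ 2 by ring]
  rw [h]
  ring

theorem th4_add_one (z : ℂ) : th4 (z + 1) = th3 z := rfl

theorem th3_add_one (z : ℂ) : th3 (z + 1) = th4 z := by
  rw [th3_eq, th4_eq, qq_add_one, neg_neg]

/-! ## Inversion -/

theorem neg_one_div_im {z : ℂ} (hz : 0 < z.im) : 0 < (-1 / z).im := by
  rw [neg_div, one_div, Complex.neg_im, Complex.inv_im]
  have hz0 : z ≠ 0 := by
    rintro rfl
    simp at hz
  have := Complex.normSq_pos.2 hz0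
  rw [neg_div, neg_neg]
  positivity

theorem ne_zero_of_im {z : ℂ} (hz : 0 < z.im) : z ≠ 0 := by
  rintro rfl
  simp at hz

theorem sqrt_pow_four (z : ℂ) : Complex.sqrt z ^ 4 = z ^ 2 := by
  unfold Complex.sqrt
  rw [← Complex.cpow_nat_mul, ← Complex.cpow_natCast]
  norm_num

theorem eta_inv {z : ℂ} (hz : 0 < z.im) :
    ModularForm.eta (-1 / z) ^ 4 = -z ^ 2 * ModularForm.eta z ^ 4 := by
  have h := ModularForm.eta_comp_eq_csqrt_I_inv (show z ∈ UpperHalfPlane.upperHalfPlaneSet from hz)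
  have h1 : ModularForm.eta (-1 / z) =
      (Complex.sqrt I)⁻¹ * (Complex.sqrt z * ModularForm.eta z) := h
  rw [h1, mul_pow, mul_pow, inv_pow, sqrt_pow_four, sqrt_pow_four,
    I_sq]
  ring

theorem th4_neg_inv {z : ℂ} (hz : 0 < z.im) : th4 (-1 / z) = -z ^ 2 * th2 z := by
  have hz0 := ne_zero_of_im hz
  have h2 : 0 < (2 * z).im := by simpa using hz
  have h1 := eta_inv hz
  have h3 := eta_inv h2
  unfold th4 th2
  rw [show -1 / z / 2 = -1 / (2 * z) by field_simp,
    show ModularForm.eta (-1 / (2 * z)) ^ 8 = (ModularForm.eta (-1 / (2 * z)) ^ 4) ^ 2 by ring,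
    h3, h1]
  have h4 : ModularForm.eta z ≠ 0 := ModularForm.eta_ne_zero hz
  field_simp
  ring

theorem th2_neg_inv {z : ℂ} (hz : 0 < z.im) : th2 (-1 / z) = -z ^ 2 * th4 z := by
  have hz0 := ne_zero_of_im hz
  have h2 : 0 < (z / 2).im := by
    rw [show z / 2 = ((1 / 2 : ℝ) : ℂ) * z by push_cast; ring, Complex.im_ofReal_mul]
    positivity
  have h1 := eta_inv hz
  have h3 := eta_inv h2
  unfold th4 th2
  rw [show 2 * (-1 / z) = -1 / (z / 2) by field_simp,
    show ModularForm.eta (-1 / (z / 2)) ^ 8 = (ModularForm.eta (-1 / (z / 2)) ^ 4) ^ 2 by ring,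
    h3, h1]
  have h4 : ModularForm.eta z ≠ 0 := ModularForm.eta_ne_zero hz
  field_simp
  ring

theorem th3_neg_inv {z : ℂ} (hz : 0 < z.im) : th3 (-1 / z) = -z ^ 2 * th3 z := by
  have hz0 := ne_zero_of_im hz
  have hz1 : 0 < (z - 1).im := by simpa using hz
  have hz10 := ne_zero_of_im hz1
  have hw : 0 < (-1 / (z - 1)).im := neg_one_div_im hz1
  have hw' : 0 < (-1 / (z - 1) - 1).im := by simpa using hw
  set w := -1 / (z - 1) - 1 with hwdef
  have hw0 := ne_zero_of_im hw'
  have e1 : -1 / z + 1 = -1 / w := by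
    rw [hwdef] at hw0 ⊢
    field_simp at hw0 ⊢
    ring_nf at hw0 ⊢
    field_simp
  have e2 : th2 w = (z - 1) ^ 2 * th4 (z - 1) := by
    have h := th2_add_one w
    rw [show w + 1 = -1 / (z - 1) by rw [hwdef]; ring, th2_neg_inv hz1] at h
    linear_combination h
  have e3 : th4 (z - 1) = th3 z := by
    have h := th3_add_one (z - 1)
    rw [sub_add_cancel] at h
    exact h.symm
  have e4 : w * (z - 1) = -z := by
    rw [hwdef]
    field_simp
    ring
  rw [th3, e1, th4_neg_inv hw', e2, e3]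
  linear_combination (-(w * (z - 1)) + z) * th3 z * e4

/-! ## Differentiability -/

theorem qq_mem {z : ℂ} (hz : 0 < z.im) : qq z ∈ Metric.ball (0 : ℂ) 1 :=
  mem_ball_zero_iff.2 (norm_qq_lt hz)

theorem neg_qq_mem {z : ℂ} (hz : 0 < z.im) : -qq z ∈ Metric.ball (0 : ℂ) 1 :=
  mem_ball_zero_iff.2 (by rw [norm_neg]; exact norm_qq_lt hz)

theorem hasDerivAt_phi4 {q : ℂ} (hq : q ∈ Metric.ball (0 : ℂ) 1) :
    HasDerivAt phi4 (deriv phi4 q) q :=
  ((differentiableOn_phi4 q hq).differentiableAt (Metric.isOpen_ball.mem_nhds hq)).hasDerivAt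

theorem hasDerivAt_phi2 {q : ℂ} (hq : q ∈ Metric.ball (0 : ℂ) 1) :
    HasDerivAt phi2 (deriv phi2 q) q :=
  ((differentiableOn_phi2 q hq).differentiableAt (Metric.isOpen_ball.mem_nhds hq)).hasDerivAt

theorem hasDerivAt_th4 {z : ℂ} (hz : 0 < z.im) :
    HasDerivAt th4 (deriv phi4 (qq z) * (π * I * qq z)) z := by
  rw [show th4 = fun z => phi4 (qq z) from funext th4_eq]
  exact (hasDerivAt_phi4 (qq_mem hz)).comp z (hasDerivAt_qq z)

theorem hasDerivAt_th3 {z : ℂ} (hz : 0 < z.im) :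
    HasDerivAt th3 (deriv phi4 (-qq z) * -(π * I * qq z)) z := by
  rw [show th3 = fun z => phi4 (-qq z) from funext th3_eq]
  exact (hasDerivAt_phi4 (neg_qq_mem hz)).comp z (hasDerivAt_qq z).neg

theorem hasDerivAt_th2 {z : ℂ} (hz : 0 < z.im) :
    HasDerivAt th2 (π * I * th2 z + 16 * qq z * (deriv phi2 (qq z) * (π * I * qq z))) z := by
  have h1 := (((hasDerivAt_qq z).const_mul 16).mul
    ((hasDerivAt_phi2 (qq_mem hz)).comp z (hasDerivAt_qq z)))
  rw [show th2 = fun z => 16 * qq z * phi2 (qq z) from funext th2_eq]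
  refine h1.congr_deriv ?_
  simp only [Function.comp]
  ring

theorem differentiableAt_th2 {z : ℂ} (hz : 0 < z.im) : DifferentiableAt ℂ th2 z :=
  (hasDerivAt_th2 hz).differentiableAt

theorem differentiableAt_th3 {z : ℂ} (hz : 0 < z.im) : DifferentiableAt ℂ th3 z :=
  (hasDerivAt_th3 hz).differentiableAt

theorem differentiableAt_th4 {z : ℂ} (hz : 0 < z.im) : DifferentiableAt ℂ th4 z :=
  (hasDerivAt_th4 hz).differentiableAt

/-! ## Cusp forms of weight four -/

theorem isOpen_im_pos : IsOpen {z : ℂ | 0 < z.im} := isOpen_lt continuous_const Complex.continuous_im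

theorem cusp4_eq_zero {f : ℂ → ℂ} (hd : DifferentiableOn ℂ f {z : ℂ | 0 < z.im})
    (hT : ∀ z : ℂ, 0 < z.im → f (z + 1) = f z)
    (hS : ∀ z : ℂ, 0 < z.im → f (-1 / z) = z ^ 4 * f z)
    (h0 : Tendsto (fun τ : UpperHalfPlane => f τ) UpperHalfPlane.atImInfty (𝓝 0)) :
    ∀ z : ℂ, 0 < z.im → f z = 0 := by
  set g : UpperHalfPlane → ℂ := fun τ => f τ with hg
  have hgS : g ∣[(4 : ℤ)] ModularGroup.S = g := by
    ext τ
    rw [ModularForm.SL_slash_apply, UpperHalfPlane.modular_S_smul, ModularGroup.denom_S]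
    have h1 := hS τ τ.2
    have h2 : (τ : ℂ) ≠ 0 := UpperHalfPlane.ne_zero τ
    simp only [hg]
    have h3 : f (-1 / (τ : ℂ)) = f (-(τ : ℂ)⁻¹) := by rw [neg_div, one_div]
    rw [h3] at h1
    simp only [zpow_neg]
    rw [inv_neg, h1]
    have h4 : (τ : ℂ) ^ 4 ≠ 0 := pow_ne_zero _ h2
    field_simp
  have hgT : g ∣[(4 : ℤ)] ModularGroup.T = g := by
    ext τ
    have hden : UpperHalfPlane.denom ModularGroup.T τ = 1 := by
      have h1 : UpperHalfPlane.denom ModularGroup.T τ =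
          ((ModularGroup.T 1 0 : ℤ) : ℂ) * τ + ((ModularGroup.T 1 1 : ℤ) : ℂ) :=
        ModularGroup.denom_apply _ _
      rw [h1]
      simp [ModularGroup.T]
    rw [ModularForm.SL_slash_apply, UpperHalfPlane.modular_T_smul, hden]
    have h1 := hT τ τ.2
    simp only [hg, UpperHalfPlane.coe_vadd, Complex.ofReal_one, one_zpow, mul_one]
    rw [add_comm, h1]
  have hinv := SlashInvariantForm.slash_action_generators_SL2Z hgS hgT
  let F : CuspForm 𝒮ℒ 4 :=
    { toFun := g
      slash_action_eq' := by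
        intro A hA
        obtain ⟨A, rfl⟩ := hA
        exact hinv A
      holo' := by
        rw [UpperHalfPlane.mdifferentiable_iff]
        refine hd.congr fun z hz => ?_
        simp [hg, UpperHalfPlane.ofComplex_apply_of_im_pos hz]
      zero_at_cusps' := by
        intro c hc
        rw [Subgroup.IsArithmetic.isCusp_iff_isCusp_SL2Z] at hc
        rw [OnePoint.isZeroAt_iff_forall_SL2Z hc]
        intro γ _
        rw [hinv]
        exact h0 }
  have hF : F = 0 := by
    have h := CuspForm.rank_eq_zero_of_weight_lt_twelve (k := 4) (by norm_num)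
    exact rank_zero_iff_forall_zero.1 h F
  intro z hz
  have h1 : F ⟨z, hz⟩ = 0 := by rw [hF]; rfl
  exact h1

/-! ## Jacobi's identity -/

theorem tendsto_qq : Tendsto (fun τ : UpperHalfPlane => qq τ) UpperHalfPlane.atImInfty (𝓝 0) := by
  rw [tendsto_zero_iff_norm_tendsto_zero]
  simp only [norm_qq]
  have h1 : Tendsto (fun τ : UpperHalfPlane => π * (τ : ℂ).im) UpperHalfPlane.atImInfty atTop :=
    Tendsto.const_mul_atTop Real.pi_pos tendsto_comap
  exact Real.tendsto_exp_neg_atTop_nhds_zero.comp h1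

theorem tendsto_comp_qq {f : ℂ → ℂ} (hf : DifferentiableOn ℂ f (Metric.ball 0 1)) :
    Tendsto (fun τ : UpperHalfPlane => f (qq τ)) UpperHalfPlane.atImInfty (𝓝 (f 0)) := by
  have h0 : (0 : ℂ) ∈ Metric.ball (0 : ℂ) 1 := Metric.mem_ball_self one_pos
  have h1 : ContinuousAt f 0 :=
    ((hf 0 h0).differentiableAt (Metric.isOpen_ball.mem_nhds h0)).continuousAt
  exact h1.tendsto.comp tendsto_qq

theorem tendsto_comp_neg_qq {f : ℂ → ℂ} (hf : DifferentiableOn ℂ f (Metric.ball 0 1)) :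
    Tendsto (fun τ : UpperHalfPlane => f (-qq τ)) UpperHalfPlane.atImInfty (𝓝 (f 0)) := by
  have h0 : (0 : ℂ) ∈ Metric.ball (0 : ℂ) 1 := Metric.mem_ball_self one_pos
  have h1 : ContinuousAt f 0 :=
    ((hf 0 h0).differentiableAt (Metric.isOpen_ball.mem_nhds h0)).continuousAt
  refine h1.tendsto.comp ?_
  have h2 := tendsto_qq.neg
  rwa [neg_zero] at h2

theorem tendsto_th4 :
    Tendsto (fun τ : UpperHalfPlane => th4 τ) UpperHalfPlane.atImInfty (𝓝 1) := by
  have h := tendsto_comp_qq differentiableOn_phi4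
  rw [phi4_zero] at h
  exact h.congr fun τ => (th4_eq τ).symm

theorem tendsto_th3 :
    Tendsto (fun τ : UpperHalfPlane => th3 τ) UpperHalfPlane.atImInfty (𝓝 1) := by
  have h := tendsto_comp_neg_qq differentiableOn_phi4
  rw [phi4_zero] at h
  exact h.congr fun τ => (th3_eq τ).symm

theorem tendsto_th2 :
    Tendsto (fun τ : UpperHalfPlane => th2 τ) UpperHalfPlane.atImInfty (𝓝 0) := by
  have h := (tendsto_qq.const_mul 16).mul (tendsto_comp_qq differentiableOn_phi2)
  rw [mul_zero, zero_mul] at h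
  exact h.congr fun τ => (th2_eq τ).symm

theorem add_one_im {z : ℂ} (hz : 0 < z.im) : 0 < (z + 1).im := by simpa using hz

/-- Jacobi's identity -/
theorem jacobi {z : ℂ} (hz : 0 < z.im) : th3 z = th2 z + th4 z := by
  have h := cusp4_eq_zero (f := fun z => (th2 z + th4 z - th3 z) ^ 2) ?_ ?_ ?_ ?_ z hz
  · have h1 : th2 z + th4 z - th3 z = 0 := pow_eq_zero_iff two_ne_zero |>.1 h
    linear_combination -h1
  · intro w hw
    exact ((((differentiableAt_th2 hw).add (differentiableAt_th4 hw)).sub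
      (differentiableAt_th3 hw)).pow 2).differentiableWithinAt
  · intro w _
    simp only [th2_add_one, th4_add_one, th3_add_one]
    ring
  · intro w hw
    simp only [th2_neg_inv hw, th4_neg_inv hw, th3_neg_inv hw]
    ring
  · have h1 := (((tendsto_th2.add tendsto_th4).sub tendsto_th3)).pow 2
    simpa using h1

/-! ## The derivative of `lam` -/

theorem lderiv_inv {F G : ℂ → ℂ} (hF : ∀ z : ℂ, 0 < z.im → DifferentiableAt ℂ F z)
    (hG : ∀ z : ℂ, 0 < z.im → DifferentiableAt ℂ G z) (hG0 : ∀ z : ℂ, 0 < z.im → G z ≠ 0)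
    (h : ∀ z : ℂ, 0 < z.im → F (-1 / z) = -z ^ 2 * G z) {z : ℂ} (hz : 0 < z.im) :
    logDeriv F (-1 / z) = z ^ 2 * logDeriv G z + 2 * z := by
  have hz0 := ne_zero_of_im hz
  have h1 : HasDerivAt (fun w : ℂ => -1 / w) (1 / z ^ 2) z := by
    have := (hasDerivAt_inv hz0).const_mul (-1)
    refine (this.congr_deriv (by field_simp)).congr_of_eventuallyEq ?_
    exact Eventually.of_forall fun w => by simp [div_eq_mul_inv]
  have h2 := (hF _ (neg_one_div_im hz)).hasDerivAt.comp z h1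
  have h3 : HasDerivAt (fun w : ℂ => -w ^ 2 * G w) (-(2 * z) * G z + -z ^ 2 * deriv G z) z := by
    have h4 : HasDerivAt (fun w : ℂ => -w ^ 2) (-(2 * z)) z := by
      have := (hasDerivAt_pow 2 z).neg
      refine this.congr_deriv (by norm_num)
    exact h4.mul (hG z hz).hasDerivAt
  have h4 : (F ∘ fun w : ℂ => -1 / w) =ᶠ[𝓝 z] fun w : ℂ => -w ^ 2 * G w := by
    filter_upwards [isOpen_im_pos.mem_nhds hz] with w hw
    exact h w hw
  have h5 := h2.unique (h3.congr_of_eventuallyEq h4)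
  rw [logDeriv_apply, logDeriv_apply, h z hz]
  have h6 := hG0 z hz
  have h7 : deriv F (-1 / z) = z ^ 2 * (-(2 * z) * G z + -z ^ 2 * deriv G z) := by
    rw [← h5]
    field_simp
  rw [h7]
  field_simp
  ring

theorem lderiv_add_one (F G : ℂ → ℂ) (c : ℂ) (hc : c ≠ 0) (h : ∀ z, F (z + 1) = c * G z) (z : ℂ) :
    logDeriv F (z + 1) = logDeriv G z := by
  have h1 : deriv F (z + 1) = c * deriv G z := by
    rw [← deriv_comp_add_const, show (fun z => F (z + 1)) = fun z => c * G z from funext h]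
    exact deriv_const_mul_field c
  rw [logDeriv_apply, logDeriv_apply, h1, h, mul_div_mul_left _ _ hc]

/-- `L₂ - L₃ - π i th4` -/
noncomputable def gA (z : ℂ) : ℂ := logDeriv th2 z - logDeriv th3 z - π * I * th4 z

/-- `L₄ - L₃ + π i th2` -/
noncomputable def gB (z : ℂ) : ℂ := logDeriv th4 z - logDeriv th3 z + π * I * th2 z

theorem gA_add_one {z : ℂ} (hz : 0 < z.im) : gA (z + 1) = gA z - gB z := by
  unfold gA gB
  rw [lderiv_add_one th2 th2 (-1) (by norm_num) (fun z => by rw [th2_add_one, neg_one_mul]),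
    lderiv_add_one th3 th4 1 one_ne_zero (fun z => by rw [th3_add_one, one_mul]), th4_add_one,
    jacobi hz]
  ring

theorem gB_add_one (z : ℂ) : gB (z + 1) = -gB z := by
  unfold gB
  rw [lderiv_add_one th3 th4 1 one_ne_zero (fun z => by rw [th3_add_one, one_mul]),
    lderiv_add_one th4 th3 1 one_ne_zero (fun z => by rw [th4_add_one, one_mul]), th2_add_one]
  ring

theorem gA_neg_inv {z : ℂ} (hz : 0 < z.im) : gA (-1 / z) = z ^ 2 * gB z := by
  unfold gA gB
  rw [lderiv_inv (fun _ => differentiableAt_th2) (fun _ => differentiableAt_th4)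
      (fun _ => th4_ne_zero) (fun _ => th2_neg_inv) hz,
    lderiv_inv (fun _ => differentiableAt_th3) (fun _ => differentiableAt_th3)
      (fun _ => th3_ne_zero) (fun _ => th3_neg_inv) hz, th4_neg_inv hz]
  ring

theorem gB_neg_inv {z : ℂ} (hz : 0 < z.im) : gB (-1 / z) = z ^ 2 * gA z := by
  unfold gA gB
  rw [lderiv_inv (fun _ => differentiableAt_th4) (fun _ => differentiableAt_th2)
      (fun _ => th2_ne_zero) (fun _ => th4_neg_inv) hz,
    lderiv_inv (fun _ => differentiableAt_th3) (fun _ => differentiableAt_th3)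
      (fun _ => th3_ne_zero) (fun _ => th3_neg_inv) hz, th2_neg_inv hz]
  ring

theorem differentiableOn_logDeriv {F : ℂ → ℂ} (hF : ∀ z : ℂ, 0 < z.im → DifferentiableAt ℂ F z)
    (hF0 : ∀ z : ℂ, 0 < z.im → F z ≠ 0) : DifferentiableOn ℂ (logDeriv F) {z : ℂ | 0 < z.im} := by
  have h1 : DifferentiableOn ℂ F {z : ℂ | 0 < z.im} := fun z hz => (hF z hz).differentiableWithinAt
  exact (h1.deriv isOpen_im_pos).div h1 hF0

theorem differentiableOn_gA : DifferentiableOn ℂ gA {z : ℂ | 0 < z.im} :=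
  ((differentiableOn_logDeriv (fun _ => differentiableAt_th2) (fun _ => th2_ne_zero)).sub
    (differentiableOn_logDeriv (fun _ => differentiableAt_th3) (fun _ => th3_ne_zero))).sub
    (fun _ hz => ((differentiableAt_th4 hz).const_mul _).differentiableWithinAt)

theorem differentiableOn_gB : DifferentiableOn ℂ gB {z : ℂ | 0 < z.im} :=
  ((differentiableOn_logDeriv (fun _ => differentiableAt_th4) (fun _ => th4_ne_zero)).sub
    (differentiableOn_logDeriv (fun _ => differentiableAt_th3) (fun _ => th3_ne_zero))).add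
    (fun _ hz => ((differentiableAt_th2 hz).const_mul _).differentiableWithinAt)

theorem logDeriv_th4 {z : ℂ} (hz : 0 < z.im) :
    logDeriv th4 z = deriv phi4 (qq z) * (π * I * qq z) / phi4 (qq z) := by
  rw [logDeriv_apply, (hasDerivAt_th4 hz).deriv, th4_eq]

theorem logDeriv_th3 {z : ℂ} (hz : 0 < z.im) :
    logDeriv th3 z = deriv phi4 (-qq z) * -(π * I * qq z) / phi4 (-qq z) := by
  rw [logDeriv_apply, (hasDerivAt_th3 hz).deriv, th3_eq]

theorem logDeriv_th2 {z : ℂ} (hz : 0 < z.im) :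
    logDeriv th2 z = π * I + deriv phi2 (qq z) * (π * I * qq z) / phi2 (qq z) := by
  have h1 := qq_ne_zero z
  have h2 := phi2_ne_zero (norm_qq_lt hz)
  rw [logDeriv_apply, (hasDerivAt_th2 hz).deriv, th2_eq]
  field_simp

theorem tendsto_logDeriv_th4 :
    Tendsto (fun τ : UpperHalfPlane => logDeriv th4 τ) UpperHalfPlane.atImInfty (𝓝 0) := by
  have h1 := tendsto_comp_qq (differentiableOn_phi4.deriv Metric.isOpen_ball)
  have h2 := (h1.mul (tendsto_qq.const_mul (π * I))).div (tendsto_comp_qq differentiableOn_phi4)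
    (by rw [phi4_zero]; exact one_ne_zero)
  rw [mul_zero, mul_zero, zero_div] at h2
  exact h2.congr fun τ => (logDeriv_th4 τ.2).symm

theorem tendsto_logDeriv_th3 :
    Tendsto (fun τ : UpperHalfPlane => logDeriv th3 τ) UpperHalfPlane.atImInfty (𝓝 0) := by
  have h1 := tendsto_comp_neg_qq (differentiableOn_phi4.deriv Metric.isOpen_ball)
  have h2 := (h1.mul (tendsto_qq.const_mul (π * I)).neg).div
    (tendsto_comp_neg_qq differentiableOn_phi4) (by rw [phi4_zero]; exact one_ne_zero)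
  rw [mul_zero, neg_zero, mul_zero, zero_div] at h2
  exact h2.congr fun τ => (logDeriv_th3 τ.2).symm

theorem tendsto_logDeriv_th2 :
    Tendsto (fun τ : UpperHalfPlane => logDeriv th2 τ) UpperHalfPlane.atImInfty (𝓝 (π * I)) := by
  have h1 := tendsto_comp_qq (differentiableOn_phi2.deriv Metric.isOpen_ball)
  have h2 := ((h1.mul (tendsto_qq.const_mul (π * I))).div (tendsto_comp_qq differentiableOn_phi2)
    (by rw [phi2_zero]; exact one_ne_zero)).const_add (π * I)
  rw [mul_zero, mul_zero, zero_div, add_zero] at h2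
  exact h2.congr fun τ => (logDeriv_th2 τ.2).symm

theorem gAB_eq_zero {z : ℂ} (hz : 0 < z.im) : gA z ^ 2 - gA z * gB z + gB z ^ 2 = 0 := by
  refine cusp4_eq_zero (f := fun z => gA z ^ 2 - gA z * gB z + gB z ^ 2) ?_ ?_ ?_ ?_ z hz
  · exact ((differentiableOn_gA.pow 2).sub (differentiableOn_gA.mul differentiableOn_gB)).add
      (differentiableOn_gB.pow 2)
  · intro w hw
    simp only [gA_add_one hw, gB_add_one]
    ring
  · intro w hw
    simp only [gA_neg_inv hw, gB_neg_inv hw]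
    ring
  · have hA : Tendsto (fun τ : UpperHalfPlane => gA τ) UpperHalfPlane.atImInfty (𝓝 0) := by
      have h := (tendsto_logDeriv_th2.sub tendsto_logDeriv_th3).sub
        (tendsto_th4.const_mul (π * I))
      rw [sub_zero, mul_one, sub_self] at h
      exact h
    have hB : Tendsto (fun τ : UpperHalfPlane => gB τ) UpperHalfPlane.atImInfty (𝓝 0) := by
      have h := (tendsto_logDeriv_th4.sub tendsto_logDeriv_th3).add
        (tendsto_th2.const_mul (π * I))
      rw [sub_zero, mul_zero, add_zero] at h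
      exact h
    have h := ((hA.pow 2).sub (hA.mul hB)).add (hB.pow 2)
    simpa using h

theorem gAB_zero_aux {ρ : ℂ} (hρ : 2 * ρ - 1 ≠ 0)
    (h : ∀ z ∈ {z : ℂ | 0 < z.im}, gA z - ρ * gB z = 0) {z : ℂ} (hz : 0 < z.im) :
    gA z = 0 ∧ gB z = 0 := by
  have h1 := h z hz
  have h2 := h (z + 1) (add_one_im hz)
  rw [gA_add_one hz, gB_add_one] at h2
  have h3 : (2 * ρ - 1) * gB z = 0 := by linear_combination h2 - h1
  have h4 : gB z = 0 := (mul_eq_zero.1 h3).resolve_left hρ
  rw [h4, mul_zero, sub_zero] at h1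
  exact ⟨h1, h4⟩

theorem gA_gB_zero {z : ℂ} (hz : 0 < z.im) : gA z = 0 ∧ gB z = 0 := by
  obtain ⟨s, hs⟩ : ∃ s : ℂ, s ^ 2 = -3 := IsAlgClosed.exists_pow_nat_eq (-3) two_pos
  have hs0 : s ≠ 0 := by
    rintro rfl
    norm_num at hs
  have hlin : ∀ c : ℂ, AnalyticOnNhd ℂ (fun z => gA z - c * gB z) {z : ℂ | 0 < z.im} := fun c =>
    (differentiableOn_gA.sub (differentiableOn_gB.const_mul c)).analyticOnNhd isOpen_im_pos
  have hprod : ∀ w ∈ {z : ℂ | 0 < z.im},
      (gA w - (1 + s) / 2 * gB w) * (gA w - (1 - s) / 2 * gB w) = 0 := fun w hw => by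
    have h1 := gAB_eq_zero hw
    linear_combination h1 - gB w ^ 2 / 4 * hs
  rcases AnalyticOnNhd.eq_zero_or_eq_zero_of_mul_eq_zero (hlin ((1 + s) / 2))
      (hlin ((1 - s) / 2)) hprod (convex_halfSpace_im_gt 0).isPreconnected with h | h
  · exact gAB_zero_aux (by ring_nf; exact hs0) h hz
  · exact gAB_zero_aux (by ring_nf; exact neg_ne_zero.2 hs0) h hz

theorem logDeriv_th2_sub {z : ℂ} (hz : 0 < z.im) :
    logDeriv th2 z - logDeriv th3 z = π * I * th4 z := by
  have h := (gA_gB_zero hz).1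
  unfold gA at h
  linear_combination h

theorem logDeriv_th4_sub {z : ℂ} (hz : 0 < z.im) :
    logDeriv th4 z - logDeriv th3 z = -(π * I * th2 z) := by
  have h := (gA_gB_zero hz).2
  unfold gB at h
  linear_combination h

theorem hasDerivAt_lam {z : ℂ} (hz : 0 < z.im) :
    HasDerivAt lam (π * I * lam z * th4 z) z := by
  have h2 := (differentiableAt_th2 hz).hasDerivAt
  have h3 := (differentiableAt_th3 hz).hasDerivAt
  have h4 := h2.div h3 (th3_ne_zero hz)
  refine h4.congr_deriv ?_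
  have h5 := logDeriv_th2_sub hz
  rw [logDeriv_apply, logDeriv_apply] at h5
  have e2 := th2_ne_zero hz
  have e3 := th3_ne_zero hz
  unfold lam
  field_simp at h5 ⊢
  exact h5

end GP
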