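import Mathlib
import Pool.Agent.GP.Mod

set_option autoImplicit false

/-!
# Roots of the theta functions and the integrals of the Beta function
-/

open Complex Filter Topology Metric
open scoped Real

namespace GP

/-! ## Continuous functions whose `N`-th power is one -/

theorem const_of_pow_eq_one {α : Type*} [TopologicalSpace α] {s : Set α} (hs : IsPreconnected s)
    {f : α → ℂ} (hf : ContinuousOn f s) {N : ℕ} (hN : N ≠ 0) (h : ∀ x ∈ s, f x ^ N = 1)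
    {x y : α} (hx : x ∈ s) (hy : y ∈ s) : f x = f y := by
  have hfin : {z : ℂ | z ^ N = 1}.Finite := by
    have h1 : {z : ℂ | z ^ N = 1} ⊆ ((Polynomial.nthRoots N (1 : ℂ)).toFinset : Set ℂ) := by
      intro z hz
      simp only [Finset.mem_coe, Multiset.mem_toFinset]
      exact (Polynomial.mem_nthRoots (Nat.pos_of_ne_zero hN)).2 hz
    exact (Finset.finite_toSet _).subset h1
  have : DiscreteTopology {z : ℂ | z ^ N = 1} := hfin.instDiscreteTopology
  exact hs.constant_of_mapsTo (isDiscrete_iff_discreteTopology.2 this) hf h hx hy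

/-- two functions with the same `N`-th power that agree at a point -/
theorem eq_of_pow_eq {α : Type*} [TopologicalSpace α] {s : Set α} (hs : IsPreconnected s)
    {f g : α → ℂ} (hf : ContinuousOn f s) (hg : ContinuousOn g s) (hg0 : ∀ x ∈ s, g x ≠ 0)
    {N : ℕ} (hN : N ≠ 0) (h : ∀ x ∈ s, f x ^ N = g x ^ N) {x₀ : α} (hx₀ : x₀ ∈ s)
    (h0 : f x₀ = g x₀) {x : α} (hx : x ∈ s) : f x = g x := by
  have h1 := const_of_pow_eq_one hs (hf.div hg hg0) hN (fun x hx => by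
    rw [Pi.div_apply, div_pow, h x hx, div_self (pow_ne_zero _ (hg0 x hx))]) hx hx₀
  rw [Pi.div_apply, Pi.div_apply, h0, div_self (hg0 x₀ hx₀)] at h1
  exact (div_eq_one_iff_eq (hg0 x hx)).1 h1

/-! ## Roots on the unit disc -/

theorem exists_nth_root {φ : ℂ → ℂ} (hφ : DifferentiableOn ℂ φ (ball 0 1))
    (h0 : ∀ q ∈ ball (0 : ℂ) 1, φ q ≠ 0) (h1 : φ 0 = 1) {N : ℕ} (hN : N ≠ 0) :
    ∃ ρ : ℂ → ℂ, DifferentiableOn ℂ ρ (ball 0 1) ∧ (∀ q ∈ ball (0 : ℂ) 1, ρ q ^ N = φ q) ∧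
      ρ 0 = 1 := by
  have hz : (0 : ℂ) ∈ ball (0 : ℂ) 1 := mem_ball_self one_pos
  have hL : DifferentiableOn ℂ (fun q => deriv φ q / φ q) (ball 0 1) :=
    (hφ.deriv isOpen_ball).div hφ h0
  obtain ⟨g, hg0, hg⟩ := hL.isExactOn_ball.with_val_at 0 0
  have hN' : (N : ℂ) ≠ 0 := Nat.cast_ne_zero.2 hN
  have hgd : DifferentiableOn ℂ g (ball 0 1) := fun q hq =>
    (hg q hq).differentiableAt.differentiableWithinAt
  refine ⟨fun q => cexp (g q / N), ?_, fun q hq => ?_, ?_⟩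
  · exact (hgd.div_const _).cexp
  · have key : ∀ q ∈ ball (0 : ℂ) 1, cexp (-g q) * φ q = 1 := by
      intro q hq
      have hd : ∀ w ∈ ball (0 : ℂ) 1, HasDerivAt (fun w => cexp (-g w) * φ w) 0 w := by
        intro w hw
        have e1 := (hg w hw).neg.cexp
        have e2 := ((hφ w hw).differentiableAt (isOpen_ball.mem_nhds hw)).hasDerivAt
        refine (e1.mul e2).congr_deriv ?_
        have := h0 w hw
        field_simp
        ring
      have hc := (convex_ball (0 : ℂ) 1).is_const_of_fderivWithin_eq_zero (𝕜 := ℂ)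
        (f := fun w => cexp (-g w) * φ w)
        (fun w hw => (hd w hw).differentiableAt.differentiableWithinAt)
        (fun w hw => by
          rw [fderivWithin_of_isOpen isOpen_ball hw]
          ext
          simp [(hd w hw).hasFDerivAt.fderiv]) hq hz
      rw [hc, hg0, h1]
      simp
    have h2 := key q hq
    rw [← Complex.exp_nat_mul, mul_div_cancel₀ _ hN']
    rw [Complex.exp_neg] at h2
    have h3 := Complex.exp_ne_zero (g q)
    field_simp at h2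
    exact h2.symm
  · simp only [hg0]
    simp

/-- the `N`-th root of `phi4` -/
noncomputable def rho4 (N : ℕ) : ℂ → ℂ :=
  if hN : N ≠ 0 then (exists_nth_root differentiableOn_phi4
    (fun _ hq => phi4_ne_zero (mem_ball_zero_iff.1 hq)) phi4_zero hN).choose else fun _ => 1

/-- the `N`-th root of `phi2` -/
noncomputable def rho2 (N : ℕ) : ℂ → ℂ :=
  if hN : N ≠ 0 then (exists_nth_root differentiableOn_phi2
    (fun _ hq => phi2_ne_zero (mem_ball_zero_iff.1 hq)) phi2_zero hN).choose else fun _ => 1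

theorem rho4_spec {N : ℕ} (hN : N ≠ 0) : DifferentiableOn ℂ (rho4 N) (ball 0 1) ∧
    (∀ q ∈ ball (0 : ℂ) 1, rho4 N q ^ N = phi4 q) ∧ rho4 N 0 = 1 := by
  unfold rho4
  rw [dif_pos hN]
  exact (exists_nth_root differentiableOn_phi4
    (fun _ hq => phi4_ne_zero (mem_ball_zero_iff.1 hq)) phi4_zero hN).choose_spec

theorem rho2_spec {N : ℕ} (hN : N ≠ 0) : DifferentiableOn ℂ (rho2 N) (ball 0 1) ∧
    (∀ q ∈ ball (0 : ℂ) 1, rho2 N q ^ N = phi2 q) ∧ rho2 N 0 = 1 := by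
  unfold rho2
  rw [dif_pos hN]
  exact (exists_nth_root differentiableOn_phi2
    (fun _ hq => phi2_ne_zero (mem_ball_zero_iff.1 hq)) phi2_zero hN).choose_spec

/-! ## Real values -/

theorem EE_conj {q : ℂ} (hq : ‖q‖ < 1) : EE ((starRingEnd ℂ) q) = (starRingEnd ℂ) (EE q) := by
  unfold EE
  rw [(ModularForm.multipliable_one_sub_pow hq).map_tprod (starRingEnd ℂ) Complex.continuous_conj]
  congr 1
  funext n
  rw [map_sub, map_one, map_pow]

theorem EE_real {x : ℝ} (hx : x ∈ Set.Ioo (-1 : ℝ) 1) : ∃ r : ℝ, r ≠ 0 ∧ EE (x : ℂ) = r := by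
  have hq : ‖(x : ℂ)‖ < 1 := by
    rw [Complex.norm_real, Real.norm_eq_abs, abs_lt]
    exact hx
  have h := EE_conj hq
  rw [Complex.conj_ofReal] at h
  obtain ⟨r, hr⟩ := Complex.conj_eq_iff_real.1 h.symm
  refine ⟨r, ?_, hr⟩
  rintro rfl
  exact EE_ne_zero hq (by rw [hr, Complex.ofReal_zero])

theorem pow_mem_Ioo {x : ℝ} (hx : x ∈ Set.Ioo (-1 : ℝ) 1) {n : ℕ} (hn : n ≠ 0) :
    x ^ n ∈ Set.Ioo (-1 : ℝ) 1 := by
  rw [Set.mem_Ioo, ← abs_lt] at hx ⊢
  rw [abs_pow]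
  exact pow_lt_one₀ (abs_nonneg x) hx hn

theorem phi4_real {x : ℝ} (hx : x ∈ Set.Ioo (-1 : ℝ) 1) : ∃ r : ℝ, 0 < r ∧ phi4 (x : ℂ) = r := by
  obtain ⟨r, hr, h1⟩ := EE_real hx
  obtain ⟨s, hs, h2⟩ := EE_real (pow_mem_Ioo hx two_ne_zero)
  refine ⟨r ^ 8 / s ^ 4, by positivity, ?_⟩
  rw [Complex.ofReal_pow] at h2
  unfold phi4
  rw [h1, h2]
  push_cast
  rfl

theorem phi2_real {x : ℝ} (hx : x ∈ Set.Ioo (-1 : ℝ) 1) : ∃ r : ℝ, 0 < r ∧ phi2 (x : ℂ) = r := by
  obtain ⟨r, hr, h1⟩ := EE_real (pow_mem_Ioo hx four_ne_zero)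
  obtain ⟨s, hs, h2⟩ := EE_real (pow_mem_Ioo hx two_ne_zero)
  refine ⟨r ^ 8 / s ^ 4, by positivity, ?_⟩
  rw [Complex.ofReal_pow] at h1 h2
  unfold phi2
  rw [h1, h2]
  push_cast
  rfl

theorem root_real {φ ρ : ℂ → ℂ} (hφ : DifferentiableOn ℂ φ (ball 0 1))
    (hφr : ∀ x : ℝ, x ∈ Set.Ioo (-1 : ℝ) 1 → ∃ r : ℝ, 0 < r ∧ φ (x : ℂ) = r)
    (hρ : DifferentiableOn ℂ ρ (ball 0 1)) {N : ℕ} (hN : N ≠ 0)
    (h : ∀ q ∈ ball (0 : ℂ) 1, ρ q ^ N = φ q) (h0 : ρ 0 = 1) {x : ℝ}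
    (hx : x ∈ Set.Ioo (-1 : ℝ) 1) : ρ (x : ℂ) = (((φ x).re ^ (1 / N : ℝ) : ℝ) : ℂ) := by
  have hb : ∀ x : ℝ, x ∈ Set.Ioo (-1 : ℝ) 1 → (x : ℂ) ∈ ball (0 : ℂ) 1 := fun x hx => by
    rw [mem_ball_zero_iff, Complex.norm_real, Real.norm_eq_abs, abs_lt]
    exact hx
  have hre : ∀ x : ℝ, x ∈ Set.Ioo (-1 : ℝ) 1 → 0 < (φ x).re ∧ φ x = ((φ x).re : ℂ) := by
    intro x hx
    obtain ⟨r, hr, h1⟩ := hφr x hx
    rw [h1, Complex.ofReal_re]
    exact ⟨hr, rfl⟩
  have h00 : (0 : ℝ) ∈ Set.Ioo (-1 : ℝ) 1 := by norm_num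
  have hφ0 : φ 0 = 1 := by rw [← h 0 (mem_ball_self one_pos), h0, one_pow]
  refine eq_of_pow_eq (s := Set.Ioo (-1 : ℝ) 1) isPreconnected_Ioo
    (f := fun x : ℝ => ρ x) (g := fun x : ℝ => (((φ x).re ^ (1 / N : ℝ) : ℝ) : ℂ)) ?_ ?_ ?_ hN ?_
    h00 ?_ hx
  · exact hρ.continuousOn.comp Complex.continuous_ofReal.continuousOn hb
  · refine Complex.continuous_ofReal.comp_continuousOn ?_
    refine ContinuousOn.rpow_const ?_ (fun x hx => Or.inl (hre x hx).1.ne')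
    exact Complex.continuous_re.comp_continuousOn
      (hφ.continuousOn.comp Complex.continuous_ofReal.continuousOn hb)
  · intro x hx
    exact Complex.ofReal_ne_zero.2 (Real.rpow_pos_of_pos (hre x hx).1 _).ne'
  · intro x hx
    rw [h x (hb x hx), ← Complex.ofReal_pow, ← Real.rpow_natCast, ← Real.rpow_mul (hre x hx).1.le,
      one_div_mul_cancel (Nat.cast_ne_zero.2 hN), Real.rpow_one]
    exact (hre x hx).2
  · simp only [Complex.ofReal_zero]
    rw [h0, hφ0, Complex.one_re, Real.one_rpow, Complex.ofReal_one]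

theorem rho4_real {N : ℕ} (hN : N ≠ 0) {x : ℝ} (hx : x ∈ Set.Ioo (-1 : ℝ) 1) :
    rho4 N (x : ℂ) = (((phi4 x).re ^ (1 / N : ℝ) : ℝ) : ℂ) :=
  root_real differentiableOn_phi4 (fun _ => phi4_real) (rho4_spec hN).1 hN (rho4_spec hN).2.1
    (rho4_spec hN).2.2 hx

theorem rho2_real {N : ℕ} (hN : N ≠ 0) {x : ℝ} (hx : x ∈ Set.Ioo (-1 : ℝ) 1) :
    rho2 N (x : ℂ) = (((phi2 x).re ^ (1 / N : ℝ) : ℝ) : ℂ) :=
  root_real differentiableOn_phi2 (fun _ => phi2_real) (rho2_spec hN).1 hN (rho2_spec hN).2.1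
    (rho2_spec hN).2.2 hx

/-! ## Roots of the theta functions -/

/-- the `N`-th root of 16 -/
noncomputable def r16 (N : ℕ) : ℂ := (((16 : ℝ) ^ (1 / N : ℝ) : ℝ) : ℂ)

theorem r16_ne_zero (N : ℕ) : r16 N ≠ 0 :=
  Complex.ofReal_ne_zero.2 (Real.rpow_pos_of_pos (by norm_num) _).ne'

theorem r16_pow {N : ℕ} (hN : N ≠ 0) : r16 N ^ N = 16 := by
  unfold r16
  rw [← Complex.ofReal_pow, ← Real.rpow_natCast, ← Real.rpow_mul (by norm_num),
    one_div_mul_cancel (Nat.cast_ne_zero.2 hN), Real.rpow_one]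
  norm_num

/-- the `N`-th root of `th2`, positive on the imaginary axis -/
noncomputable def rt2 (N : ℕ) (z : ℂ) : ℂ := r16 N * cexp (π * I * z / N) * rho2 N (qq z)

/-- the `N`-th root of `th4`, positive on the imaginary axis -/
noncomputable def rt4 (N : ℕ) (z : ℂ) : ℂ := rho4 N (qq z)

/-- the `N`-th root of `th3`, positive on the imaginary axis -/
noncomputable def rt3 (N : ℕ) (z : ℂ) : ℂ := rho4 N (-qq z)

section

variable {N : ℕ} (hN : N ≠ 0)

include hN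

theorem rt4_pow {z : ℂ} (hz : 0 < z.im) : rt4 N z ^ N = th4 z := by
  rw [rt4, (rho4_spec hN).2.1 _ (qq_mem hz), th4_eq]

theorem rt3_pow {z : ℂ} (hz : 0 < z.im) : rt3 N z ^ N = th3 z := by
  rw [rt3, (rho4_spec hN).2.1 _ (neg_qq_mem hz), th3_eq]

theorem rt2_pow {z : ℂ} (hz : 0 < z.im) : rt2 N z ^ N = th2 z := by
  rw [rt2, mul_pow, mul_pow, (rho2_spec hN).2.1 _ (qq_mem hz), th2_eq, r16_pow hN,
    ← Complex.exp_nat_mul, mul_div_cancel₀ _ (Nat.cast_ne_zero.2 hN)]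
  rfl

theorem rt4_ne_zero {z : ℂ} (hz : 0 < z.im) : rt4 N z ≠ 0 := by
  intro h
  have h1 := rt4_pow hN hz
  rw [h, zero_pow hN] at h1
  exact th4_ne_zero hz h1.symm

theorem rt3_ne_zero {z : ℂ} (hz : 0 < z.im) : rt3 N z ≠ 0 := by
  intro h
  have h1 := rt3_pow hN hz
  rw [h, zero_pow hN] at h1
  exact th3_ne_zero hz h1.symm

theorem rt2_ne_zero {z : ℂ} (hz : 0 < z.im) : rt2 N z ≠ 0 := by
  intro h
  have h1 := rt2_pow hN hz
  rw [h, zero_pow hN] at h1
  exact th2_ne_zero hz h1.symm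

theorem differentiableAt_rt4 {z : ℂ} (hz : 0 < z.im) : DifferentiableAt ℂ (rt4 N) z :=
  (((rho4_spec hN).1 _ (qq_mem hz)).differentiableAt (isOpen_ball.mem_nhds (qq_mem hz))).comp z
    (hasDerivAt_qq z).differentiableAt

theorem differentiableAt_rt3 {z : ℂ} (hz : 0 < z.im) : DifferentiableAt ℂ (rt3 N) z :=
  (((rho4_spec hN).1 _ (neg_qq_mem hz)).differentiableAt
    (isOpen_ball.mem_nhds (neg_qq_mem hz))).comp z (hasDerivAt_qq z).neg.differentiableAt

theorem differentiableAt_rt2 {z : ℂ} (hz : 0 < z.im) : DifferentiableAt ℂ (rt2 N) z := by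
  have h1 : DifferentiableAt ℂ (fun z : ℂ => rho2 N (qq z)) z :=
    (((rho2_spec hN).1 _ (qq_mem hz)).differentiableAt (isOpen_ball.mem_nhds (qq_mem hz))).comp z
      (hasDerivAt_qq z).differentiableAt
  have h2 : DifferentiableAt ℂ (fun z : ℂ => r16 N * cexp (π * I * z / N)) z := by fun_prop
  exact h2.mul h1

omit hN in
theorem rt4_add_one (z : ℂ) : rt4 N (z + 1) = rt3 N z := by rw [rt4, rt3, qq_add_one]

omit hN in
theorem rt3_add_one (z : ℂ) : rt3 N (z + 1) = rt4 N z := by rw [rt4, rt3, qq_add_one, neg_neg]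

omit hN in
theorem rt4_add_two (z : ℂ) : rt4 N (z + 2) = rt4 N z := by
  rw [show z + 2 = z + 1 + 1 by ring, rt4_add_one, rt3_add_one]

omit hN in
theorem rt3_add_two (z : ℂ) : rt3 N (z + 2) = rt3 N z := by
  rw [show z + 2 = z + 1 + 1 by ring, rt3_add_one, rt4_add_one]

omit hN in
theorem qq_add_two (z : ℂ) : qq (z + 2) = qq z := by
  rw [show z + 2 = z + 1 + 1 by ring, qq_add_one, qq_add_one, neg_neg]

/-- the root of unity -/
noncomputable def zN (N : ℕ) : ℂ := cexp (2 * π * I / N)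

omit hN in
theorem rt2_add_two (z : ℂ) : rt2 N (z + 2) = zN N * rt2 N z := by
  unfold rt2 zN
  rw [qq_add_two, show (π : ℂ) * I * (z + 2) / N = 2 * π * I / N + π * I * z / N by ring,
    Complex.exp_add]
  ring

end

/-! ## The integrals -/

open scoped Nat

/-- Taylor coefficients at zero -/
noncomputable def tco (R : ℂ → ℂ) (k : ℕ) : ℂ := (k ! : ℂ)⁻¹ * iteratedDeriv k R 0

theorem hasSum_tco {R : ℂ → ℂ} (hR : DifferentiableOn ℂ R (ball 0 1)) {q : ℂ}
    (hq : q ∈ ball (0 : ℂ) 1) : HasSum (fun k => tco R k * q ^ k) (R q) := by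
  have h := hasSum_taylorSeries_on_ball hR hq
  have e : (fun n : ℕ => (n ! : ℂ)⁻¹ • (q - 0) ^ n • iteratedDeriv n R 0) =
      fun k => tco R k * q ^ k := by
    funext k
    rw [tco, sub_zero, smul_eq_mul, smul_eq_mul]
    ring
  rwa [e] at h

theorem summable_norm_tco {R : ℂ → ℂ} (hR : DifferentiableOn ℂ R (ball 0 1)) {r : ℝ}
    (hr0 : 0 ≤ r) (hr : r < 1) : Summable fun k => ‖tco R k‖ * r ^ k := by
  have hq : (r : ℂ) ∈ ball (0 : ℂ) 1 := by
    rw [mem_ball_zero_iff, Complex.norm_real, Real.norm_of_nonneg hr0]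
    exact hr
  have h := (hasSum_tco hR hq).summable.norm
  refine h.congr fun k => ?_
  rw [norm_mul, norm_pow, Complex.norm_real, Real.norm_of_nonneg hr0]

/-- the solution of `A S + q S' = R` -/
noncomputable def SS (R : ℂ → ℂ) (A : ℝ) (q : ℂ) : ℂ := ∑' k : ℕ, tco R k / (k + A) * q ^ k

theorem norm_coef_le {A : ℝ} (hA : 0 < A) (c : ℂ) (k : ℕ) : ‖c / (k + A)‖ ≤ ‖c‖ * A⁻¹ := by
  rw [norm_div, div_eq_mul_inv]
  refine mul_le_mul_of_nonneg_left ?_ (norm_nonneg c)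
  have h1 : ((k : ℂ) + A) = ((k + A : ℝ) : ℂ) := by push_cast; rfl
  rw [h1, Complex.norm_real, Real.norm_of_nonneg (by positivity)]
  exact inv_anti₀ hA (by have := Nat.cast_nonneg (α := ℝ) k; linarith)

theorem summable_SS {R : ℂ → ℂ} (hR : DifferentiableOn ℂ R (ball 0 1)) {A : ℝ} (hA : 0 < A)
    {q : ℂ} (hq : q ∈ ball (0 : ℂ) 1) : Summable fun k : ℕ => tco R k / (k + A) * q ^ k := by
  have h := summable_norm_tco hR (norm_nonneg q) (mem_ball_zero_iff.1 hq)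
  refine Summable.of_norm_bounded (h.mul_right A⁻¹) fun k => ?_
  rw [norm_mul, norm_pow]
  calc ‖tco R k / (k + A)‖ * ‖q‖ ^ k ≤ ‖tco R k‖ * A⁻¹ * ‖q‖ ^ k :=
        mul_le_mul_of_nonneg_right (norm_coef_le hA _ _) (by positivity)
    _ = ‖tco R k‖ * ‖q‖ ^ k * A⁻¹ := by ring

theorem hasDerivAt_SS_aux {R : ℂ → ℂ} (hR : DifferentiableOn ℂ R (ball 0 1)) {A : ℝ} (hA : 0 < A)
    {q : ℂ} (hq : q ∈ ball (0 : ℂ) 1) :
    HasDerivAt (SS R A) (∑' k : ℕ, tco R k / (k + A) * (k * q ^ (k - 1))) q := by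
  obtain ⟨r, hr1, hr2⟩ := exists_between (mem_ball_zero_iff.1 hq)
  have hr0 : 0 < r := (norm_nonneg q).trans_lt hr1
  have hu : Summable fun k : ℕ => ‖tco R k‖ * r ^ k * r⁻¹ :=
    (summable_norm_tco hR hr0.le hr2).mul_right _
  have hqr : q ∈ ball (0 : ℂ) r := mem_ball_zero_iff.2 hr1
  refine hasDerivAt_tsum_of_isPreconnected (g := fun k y => tco R k / (k + A) * y ^ k)
    (g' := fun k y => tco R k / (k + A) * (k * y ^ (k - 1))) (t := ball (0 : ℂ) r) hu isOpen_ball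
    (convex_ball _ _).isPreconnected (fun k y _ => ?_) (fun k y hy => ?_)
    hqr (summable_SS hR hA hq) hqr
  · exact (hasDerivAt_pow k y).const_mul _
  · rcases Nat.eq_zero_or_pos k with rfl | hk
    · simp only [Nat.cast_zero, zero_mul, mul_zero, norm_zero]
      positivity
    · have hkA : (0 : ℝ) < k + A := by positivity
      have h1 : ((k : ℂ) + A) = ((k + A : ℝ) : ℂ) := by push_cast; rfl
      have hy' := mem_ball_zero_iff.1 hy
      rw [norm_mul, norm_mul, norm_div, h1, Complex.norm_real, Real.norm_of_nonneg hkA.le,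
        Complex.norm_natCast, norm_pow]
      have h2 : (k : ℝ) / (k + A) ≤ 1 := (div_le_one hkA).2 (by linarith)
      have h3 : ‖y‖ ^ (k - 1) ≤ r ^ (k - 1) := pow_le_pow_left₀ (norm_nonneg y) hy'.le _
      have h4 : r ^ k * r⁻¹ = r ^ (k - 1) := by
        rw [← Nat.sub_add_cancel hk, pow_succ, Nat.add_sub_cancel]
        field_simp
      calc ‖tco R k‖ / (k + A) * (k * ‖y‖ ^ (k - 1))
          = ‖tco R k‖ * (k / (k + A)) * ‖y‖ ^ (k - 1) := by ring
        _ ≤ ‖tco R k‖ * 1 * r ^ (k - 1) := by gcongr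
        _ = ‖tco R k‖ * r ^ k * r⁻¹ := by rw [mul_assoc ‖tco R k‖ (r ^ k), h4]; ring

theorem hasDerivAt_SS {R : ℂ → ℂ} (hR : DifferentiableOn ℂ R (ball 0 1)) {A : ℝ} (hA : 0 < A)
    {q : ℂ} (hq : q ∈ ball (0 : ℂ) 1) : HasDerivAt (SS R A) (deriv (SS R A) q) q :=
  (hasDerivAt_SS_aux hR hA hq).differentiableAt.hasDerivAt

theorem SS_ode {R : ℂ → ℂ} (hR : DifferentiableOn ℂ R (ball 0 1)) {A : ℝ} (hA : 0 < A)
    {q : ℂ} (hq : q ∈ ball (0 : ℂ) 1) : A * SS R A q + q * deriv (SS R A) q = R q := by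
  have h1 := summable_SS hR hA hq
  have h0 := hasSum_tco hR hq
  have e : ∀ k : ℕ, tco R k * q ^ k - A * (tco R k / (k + A) * q ^ k) =
      q * (tco R k / (k + A) * (k * q ^ (k - 1))) := by
    intro k
    have hkA : (k : ℂ) + A ≠ 0 := by
      have h1 : ((k : ℂ) + A) = ((k + A : ℝ) : ℂ) := by push_cast; rfl
      rw [h1, Complex.ofReal_ne_zero]
      positivity
    rcases Nat.eq_zero_or_pos k with rfl | hk
    · simp only [Nat.cast_zero, zero_add, pow_zero, mul_one, zero_mul, mul_zero] at hkA ⊢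
      field_simp
      ring
    · have h4 : q * q ^ (k - 1) = q ^ k := by
        rw [← pow_succ', Nat.sub_add_cancel hk]
      rw [← h4]
      field_simp
      ring
  rw [(hasDerivAt_SS_aux hR hA hq).deriv, ← tsum_mul_left, ← (hasSum_tco hR hq).tsum_eq]
  unfold SS
  rw [← tsum_mul_left]
  have h2 : Summable fun k : ℕ => q * (tco R k / (k + A) * (k * q ^ (k - 1))) := by
    refine (h0.summable.sub (h1.mul_left (A : ℂ))).congr fun k => e k
  rw [← (h1.mul_left (A : ℂ)).tsum_add h2]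
  refine tsum_congr fun k => ?_
  rw [← e]
  ring

end GP
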