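import Mathlib
import Pool.Agent.GP.ModF

set_option autoImplicit false

/-!
# The functions `F_{a,b}`
-/

open Complex Filter Topology Metric
open scoped Real

namespace GP

/-- `e^{π i z / N}` -/
noncomputable def wN (N : ℕ) (z : ℂ) : ℂ := cexp (π * I * z / N)

/-- `ρ₂ᵃ ρ₄(q)ᵇ ρ₄(-q)^(N-a-b)` -/
noncomputable def RR (N a b : ℕ) (q : ℂ) : ℂ :=
  rho2 N q ^ a * rho4 N q ^ b * rho4 N (-q) ^ ((N : ℤ) - a - b)

/-- the integral `F_{a,b}` -/
noncomputable def FF (N a b : ℕ) (z : ℂ) : ℂ :=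
  r16 N ^ a * wN N z ^ a * SS (RR N a b) ((a : ℝ) / N) (qq z)

theorem wN_ne_zero (N : ℕ) (z : ℂ) : wN N z ≠ 0 := Complex.exp_ne_zero _

theorem hasDerivAt_wN (N : ℕ) (z : ℂ) : HasDerivAt (wN N) (π * I / N * wN N z) z := by
  unfold wN
  have h := (((hasDerivAt_id z).const_mul (π * I)).div_const (N : ℂ)).cexp
  simp only [id, mul_one] at h
  exact h.congr_deriv (mul_comm _ _)

theorem wN_add_two (N : ℕ) (z : ℂ) : wN N (z + 2) = zN N * wN N z := by
  unfold wN zN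
  rw [← Complex.exp_add]
  congr 1
  ring

section

variable {N : ℕ} (hN : N ≠ 0)

include hN

theorem rho4_ne_zero {q : ℂ} (hq : q ∈ ball (0 : ℂ) 1) : rho4 N q ≠ 0 := by
  intro h
  have h1 := (rho4_spec hN).2.1 q hq
  rw [h, zero_pow hN] at h1
  exact phi4_ne_zero (mem_ball_zero_iff.1 hq) h1.symm

theorem rho2_ne_zero {q : ℂ} (hq : q ∈ ball (0 : ℂ) 1) : rho2 N q ≠ 0 := by
  intro h
  have h1 := (rho2_spec hN).2.1 q hq
  rw [h, zero_pow hN] at h1
  exact phi2_ne_zero (mem_ball_zero_iff.1 hq) h1.symm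

theorem differentiableOn_RR (a b : ℕ) : DifferentiableOn ℂ (RR N a b) (ball 0 1) := by
  have h1 := (rho2_spec hN).1
  have h2 := (rho4_spec hN).1
  have hneg : Set.MapsTo (fun q : ℂ => -q) (ball (0 : ℂ) 1) (ball (0 : ℂ) 1) := fun q hq => by
    rw [mem_ball_zero_iff] at hq ⊢
    rwa [norm_neg]
  have h3 : DifferentiableOn ℂ (fun q => rho4 N (-q)) (ball 0 1) :=
    h2.comp differentiableOn_id.neg hneg
  refine ((h1.pow a).mul (h2.pow b)).mul ?_
  intro q hq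
  exact (((hasDerivAt_zpow _ _ (Or.inl (rho4_ne_zero hN (hneg hq)))).differentiableAt).comp q
    ((h3 q hq).differentiableAt (isOpen_ball.mem_nhds hq))).differentiableWithinAt

theorem RR_zero (a b : ℕ) : RR N a b 0 = 1 := by
  unfold RR
  rw [neg_zero, (rho2_spec hN).2.2, (rho4_spec hN).2.2]
  simp

omit hN in
theorem rt_prod (a b : ℕ) (z : ℂ) :
    rt2 N z ^ a * rt4 N z ^ b * rt3 N z ^ ((N : ℤ) - a - b) =
      r16 N ^ a * wN N z ^ a * RR N a b (qq z) := by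
  unfold rt2 rt4 rt3 RR wN
  rw [mul_pow, mul_pow]
  ring

theorem hasDerivAt_FF {a : ℕ} (ha : 0 < a) (b : ℕ) {z : ℂ} (hz : 0 < z.im) :
    HasDerivAt (FF N a b)
      (π * I * (rt2 N z ^ a * rt4 N z ^ b * rt3 N z ^ ((N : ℤ) - a - b))) z := by
  have hNR : (0 : ℝ) < N := Nat.cast_pos.2 (Nat.pos_of_ne_zero hN)
  have hA : (0 : ℝ) < (a : ℝ) / N := by positivity
  have hR := differentiableOn_RR hN a b
  have h1 := ((hasDerivAt_wN N z).pow a).const_mul (r16 N ^ a)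
  have h2 := (hasDerivAt_SS hR hA (qq_mem hz)).comp z (hasDerivAt_qq z)
  have h3 := h1.mul h2
  refine h3.congr_deriv ?_
  rw [rt_prod, ← SS_ode hR hA (qq_mem hz)]
  have hw : wN N z ^ (a - 1) * wN N z = wN N z ^ a := by
    rw [← pow_succ, Nat.sub_add_cancel ha]
  simp only [Function.comp, Pi.pow_apply]
  push_cast
  rw [← hw]
  ring

omit hN in
/-- (1.1) -/
theorem FF_add_two (a b : ℕ) (z : ℂ) : FF N a b (z + 2) = zN N ^ a * FF N a b z := by
  unfold FF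
  rw [qq_add_two, wN_add_two, mul_pow]
  ring

/-! ## The imaginary axis -/

omit hN in
theorem qq_I_mul (y : ℝ) : qq (I * y) = ((Real.exp (-(π * y)) : ℝ) : ℂ) := by
  unfold qq
  rw [Complex.ofReal_exp]
  congr 1
  push_cast
  linear_combination (π * y : ℂ) * I_sq

omit hN in
theorem exp_mem {y : ℝ} (hy : 0 < y) : Real.exp (-(π * y)) ∈ Set.Ioo (-1 : ℝ) 1 := by
  have h1 := Real.exp_pos (-(π * y))
  have h2 : Real.exp (-(π * y)) < 1 := by
    rw [Real.exp_lt_one_iff]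
    have := mul_pos Real.pi_pos hy
    linarith
  exact ⟨by linarith, h2⟩

theorem rt4_imag {y : ℝ} (hy : 0 < y) : ∃ r : ℝ, 0 < r ∧ rt4 N (I * y) = r := by
  obtain ⟨s, hs, h1⟩ := phi4_real (exp_mem hy)
  refine ⟨s ^ (1 / N : ℝ), Real.rpow_pos_of_pos hs _, ?_⟩
  rw [rt4, qq_I_mul, rho4_real hN (exp_mem hy), h1, Complex.ofReal_re]

theorem rt3_imag {y : ℝ} (hy : 0 < y) : ∃ r : ℝ, 0 < r ∧ rt3 N (I * y) = r := by
  have hm : -Real.exp (-(π * y)) ∈ Set.Ioo (-1 : ℝ) 1 := by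
    have := exp_mem hy
    exact ⟨by linarith [this.2], by linarith [this.1]⟩
  obtain ⟨s, hs, h1⟩ := phi4_real hm
  refine ⟨s ^ (1 / N : ℝ), Real.rpow_pos_of_pos hs _, ?_⟩
  rw [rt3, qq_I_mul, ← Complex.ofReal_neg, rho4_real hN hm, h1, Complex.ofReal_re]

theorem rt2_imag {y : ℝ} (hy : 0 < y) : ∃ r : ℝ, 0 < r ∧ rt2 N (I * y) = r := by
  obtain ⟨s, hs, h1⟩ := phi2_real (exp_mem hy)
  refine ⟨(16 : ℝ) ^ (1 / N : ℝ) * Real.exp (-(π * y / N)) * s ^ (1 / N : ℝ),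
    mul_pos (mul_pos (Real.rpow_pos_of_pos (by norm_num) _) (Real.exp_pos _))
      (Real.rpow_pos_of_pos hs _), ?_⟩
  rw [rt2, qq_I_mul, rho2_real hN (exp_mem hy), h1, Complex.ofReal_re, r16]
  push_cast
  congr 2
  congr 1
  have hN' : (N : ℂ) ≠ 0 := Nat.cast_ne_zero.2 hN
  field_simp
  linear_combination (y : ℂ) * I_sq

omit hN in
theorem im_I_mul {y : ℝ} (hy : 0 < y) : 0 < (I * (y : ℂ)).im := by simpa using hy

/-! ## Inversion -/

omit hN in
/-- the `N`-th root of `-z²` -/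
noncomputable def sN (N : ℕ) (z : ℂ) : ℂ := cexp (2 / N * Complex.log (-I * z))

omit hN in
theorem neg_I_mul_mem {z : ℂ} (hz : 0 < z.im) : -I * z ∈ Complex.slitPlane := by
  left
  simpa using hz

theorem sN_pow {z : ℂ} (hz : 0 < z.im) : sN N z ^ N = -z ^ 2 := by
  have h0 : -I * z ≠ 0 := Complex.slitPlane_ne_zero (neg_I_mul_mem hz)
  have hN' : (N : ℂ) ≠ 0 := Nat.cast_ne_zero.2 hN
  unfold sN
  rw [← Complex.exp_nat_mul, show (N : ℂ) * (2 / N * Complex.log (-I * z)) =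
    (2 : ℕ) * Complex.log (-I * z) by field_simp; push_cast; ring, Complex.exp_nat_mul,
    Complex.exp_log h0]
  rw [mul_pow, neg_sq, I_sq]
  ring

omit hN in
theorem sN_ne_zero (z : ℂ) : sN N z ≠ 0 := Complex.exp_ne_zero _

omit hN in
theorem sN_I : sN N I = 1 := by
  unfold sN
  rw [neg_mul, I_mul_I, neg_neg, Complex.log_one, mul_zero, Complex.exp_zero]

omit hN in
theorem continuousOn_sN : ContinuousOn (sN N) {z : ℂ | 0 < z.im} := by
  intro z hz
  have h1 : DifferentiableAt ℂ (fun z => Complex.log (-I * z)) z :=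
    DifferentiableAt.clog (by fun_prop) (neg_I_mul_mem hz)
  exact ((h1.const_mul _).cexp).continuousAt.continuousWithinAt

omit hN in
theorem continuousOn_inv' : ContinuousOn (fun z : ℂ => -1 / z) {z : ℂ | 0 < z.im} :=
  continuousOn_const.div continuousOn_id fun _ hz => ne_zero_of_im hz

theorem real_pow_inj {r s : ℝ} (hr : 0 < r) (hs : 0 < s) (h : (r : ℂ) ^ N = (s : ℂ) ^ N) :
    (r : ℂ) = s := by
  have h1 : r ^ N = s ^ N := by exact_mod_cast h
  rw [(pow_left_inj₀ hr.le hs.le hN).1 h1]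

theorem rt_inv_aux {f g : ℂ → ℂ} (hf : ∀ z : ℂ, 0 < z.im → DifferentiableAt ℂ f z)
    (hg : ∀ z : ℂ, 0 < z.im → DifferentiableAt ℂ g z) (hg0 : ∀ z : ℂ, 0 < z.im → g z ≠ 0)
    (h : ∀ z : ℂ, 0 < z.im → f (-1 / z) ^ N = -z ^ 2 * g z ^ N)
    (hfi : ∃ r : ℝ, 0 < r ∧ f I = r) (hgi : ∃ r : ℝ, 0 < r ∧ g I = r) {z : ℂ} (hz : 0 < z.im) :
    f (-1 / z) = sN N z * g z := by
  have hI : (0 : ℝ) < I.im := by simp
  have hinv : -1 / I = I := by
    rw [div_eq_iff I_ne_zero, I_mul_I]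
  refine eq_of_pow_eq (s := {z : ℂ | 0 < z.im}) (convex_halfSpace_im_gt 0).isPreconnected
    (f := fun z => f (-1 / z)) (g := fun z => sN N z * g z) ?_ ?_ ?_ hN ?_
    (x₀ := I) hI ?_ hz
  · refine ContinuousOn.comp (t := {z : ℂ | 0 < z.im}) (fun z hz => ?_) continuousOn_inv'
      (fun z hz => neg_one_div_im hz)
    exact (hf z hz).continuousAt.continuousWithinAt
  · exact continuousOn_sN.mul fun z hz => (hg z hz).continuousAt.continuousWithinAt
  · intro z hz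
    exact mul_ne_zero (sN_ne_zero z) (hg0 z hz)
  · intro z hz
    rw [mul_pow, sN_pow hN hz]
    exact h z hz
  · obtain ⟨r, hr, h1⟩ := hfi
    obtain ⟨s, hs, h2⟩ := hgi
    have h3 := h I hI
    rw [hinv] at h3 ⊢
    rw [sN_I, one_mul, h1, h2]
    rw [h1, h2, I_sq, neg_neg, one_mul] at h3
    exact real_pow_inj hN hr hs h3

omit hN in
theorem rt_I (f : ℂ → ℂ) (h : ∀ y : ℝ, 0 < y → ∃ r : ℝ, 0 < r ∧ f (I * y) = r) :
    ∃ r : ℝ, 0 < r ∧ f I = r := by
  have := h 1 one_pos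
  rwa [Complex.ofReal_one, mul_one] at this

theorem rt2_neg_inv {z : ℂ} (hz : 0 < z.im) : rt2 N (-1 / z) = sN N z * rt4 N z :=
  rt_inv_aux hN (fun _ => differentiableAt_rt2 hN) (fun _ => differentiableAt_rt4 hN)
    (fun _ => rt4_ne_zero hN) (fun z hz => by
      rw [rt2_pow hN (neg_one_div_im hz), rt4_pow hN hz, th2_neg_inv hz])
    (rt_I _ fun _ => rt2_imag hN) (rt_I _ fun _ => rt4_imag hN) hz

theorem rt4_neg_inv {z : ℂ} (hz : 0 < z.im) : rt4 N (-1 / z) = sN N z * rt2 N z :=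
  rt_inv_aux hN (fun _ => differentiableAt_rt4 hN) (fun _ => differentiableAt_rt2 hN)
    (fun _ => rt2_ne_zero hN) (fun z hz => by
      rw [rt4_pow hN (neg_one_div_im hz), rt2_pow hN hz, th4_neg_inv hz])
    (rt_I _ fun _ => rt4_imag hN) (rt_I _ fun _ => rt2_imag hN) hz

theorem rt3_neg_inv {z : ℂ} (hz : 0 < z.im) : rt3 N (-1 / z) = sN N z * rt3 N z :=
  rt_inv_aux hN (fun _ => differentiableAt_rt3 hN) (fun _ => differentiableAt_rt3 hN)
    (fun _ => rt3_ne_zero hN) (fun z hz => by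
      rw [rt3_pow hN (neg_one_div_im hz), rt3_pow hN hz, th3_neg_inv hz])
    (rt_I _ fun _ => rt3_imag hN) (rt_I _ fun _ => rt3_imag hN) hz

/-- `F_{a,b}(-1/z) + F_{b,a}(z)` is constant -/
theorem FF_inv_const {a b : ℕ} (ha : 0 < a) (hb : 0 < b) :
    ∃ c : ℂ, ∀ z : ℂ, 0 < z.im → FF N a b (-1 / z) = c - FF N b a z := by
  have hd : ∀ z : ℂ, 0 < z.im → HasDerivAt (fun z => FF N a b (-1 / z) + FF N b a z) 0 z := by
    intro z hz
    have hz0 := ne_zero_of_im hz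
    have h1 : HasDerivAt (fun w : ℂ => -1 / w) (1 / z ^ 2) z := by
      have := (hasDerivAt_inv hz0).const_mul (-1)
      refine (this.congr_deriv (by field_simp)).congr_of_eventuallyEq ?_
      exact Eventually.of_forall fun w => by simp [div_eq_mul_inv]
    have h2 := (hasDerivAt_FF hN ha b (neg_one_div_im hz)).comp z h1
    have h3 := hasDerivAt_FF hN hb a hz
    refine (h2.add h3).congr_deriv ?_
    rw [rt2_neg_inv hN hz, rt4_neg_inv hN hz, rt3_neg_inv hN hz, mul_pow, mul_pow, mul_zpow]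
    have hs0 := sN_ne_zero (N := N) z
    have h4 : sN N z ^ a * sN N z ^ b * sN N z ^ ((N : ℤ) - a - b) = -z ^ 2 := by
      rw [← sN_pow hN hz, ← zpow_natCast, ← zpow_natCast, ← zpow_natCast, ← zpow_add₀ hs0,
        ← zpow_add₀ hs0]
      congr 1
      ring
    have h5 : sN N z ^ a * rt4 N z ^ a * (sN N z ^ b * rt2 N z ^ b) *
        (sN N z ^ ((N : ℤ) - a - b) * rt3 N z ^ ((N : ℤ) - a - b)) =
        -z ^ 2 * (rt4 N z ^ a * rt2 N z ^ b * rt3 N z ^ ((N : ℤ) - a - b)) := by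
      rw [← h4]; ring
    rw [h5, show (N : ℤ) - b - a = (N : ℤ) - a - b by ring]
    field_simp
    ring
  have hI : (0 : ℝ) < I.im := by simp
  refine ⟨FF N a b (-1 / I) + FF N b a I, fun z hz => ?_⟩
  have hc := (convex_halfSpace_im_gt 0).is_const_of_fderivWithin_eq_zero (𝕜 := ℂ)
    (f := fun z => FF N a b (-1 / z) + FF N b a z)
    (fun w hw => (hd w hw).differentiableAt.differentiableWithinAt)
    (fun w hw => by
      rw [fderivWithin_of_isOpen isOpen_im_pos hw]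
      ext
      simp [(hd w hw).hasFDerivAt.fderiv]) hz hI
  rw [← hc]
  ring

end

end GP
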