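import Mathlib
import Pool.Agent.GP.ModG

set_option autoImplicit false

/-!
# The value of `F_{a,b}` at the cusp zero: the Beta function
-/

open Complex Filter Topology Metric MeasureTheory
open scoped Real

namespace GP

theorem lam_neg_inv {z : ℂ} (hz : 0 < z.im) : lam (-1 / z) = 1 - lam z := by
  have hz0 := ne_zero_of_im hz
  have h3 := th3_ne_zero hz
  have hj := jacobi hz
  unfold lam
  rw [th2_neg_inv hz, th3_neg_inv hz]
  field_simp
  linear_combination -hj

/-- the three positive numbers -/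
theorem exists_roots {N : ℕ} (hN : N ≠ 0) {y : ℝ} (hy : 0 < y) : ∃ r2 r3 r4 : ℝ, 0 < r2 ∧ 0 < r3 ∧
    0 < r4 ∧ rt2 N (I * y) = r2 ∧ rt3 N (I * y) = r3 ∧ rt4 N (I * y) = r4 ∧
    r3 ^ N = r2 ^ N + r4 ^ N ∧ lam (I * y) = ((r2 ^ N / r3 ^ N : ℝ) : ℂ) ∧
    th4 (I * y) = ((r4 ^ N : ℝ) : ℂ) := by
  obtain ⟨r2, h2, e2⟩ := rt2_imag hN hy
  obtain ⟨r3, h3, e3⟩ := rt3_imag hN hy
  obtain ⟨r4, h4, e4⟩ := rt4_imag hN hy
  have hz := im_I_mul hy
  have f2 := rt2_pow hN hz
  have f3 := rt3_pow hN hz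
  have f4 := rt4_pow hN hz
  rw [e2] at f2
  rw [e3] at f3
  rw [e4] at f4
  refine ⟨r2, r3, r4, h2, h3, h4, e2, e3, e4, ?_, ?_, ?_⟩
  · have hj := jacobi hz
    rw [← f2, ← f3, ← f4] at hj
    exact_mod_cast hj
  · rw [lam, ← f2, ← f3]
    push_cast
    rfl
  · rw [← f4]
    push_cast
    rfl

/-- the values of `lam` on the imaginary axis -/
noncomputable def xx (y : ℝ) : ℝ := (lam (I * y)).re

theorem xx_spec {y : ℝ} (hy : 0 < y) : lam (I * y) = (xx y : ℂ) ∧ xx y ∈ Set.Ioo (0 : ℝ) 1 := by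
  obtain ⟨r2, r3, r4, h2, h3, h4, -, -, -, e, e1, -⟩ := exists_roots one_ne_zero hy
  have h : xx y = r2 ^ 1 / r3 ^ 1 := by rw [xx, e1, Complex.ofReal_re]
  refine ⟨by rw [e1, h], ?_⟩
  rw [h]
  simp only [pow_one] at e ⊢
  refine ⟨by positivity, ?_⟩
  rw [div_lt_one h3, e]
  linarith

theorem hasDerivAt_I_mul (y : ℝ) : HasDerivAt (fun y : ℝ => I * (y : ℂ)) I y := by
  have := (Complex.ofRealCLM.hasDerivAt (x := y)).const_mul I
  simpa using this

theorem hasDerivAt_xx {y : ℝ} (hy : 0 < y) :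
    HasDerivAt xx (-(π * xx y * (th4 (I * y)).re)) y := by
  have h1 := (hasDerivAt_lam (im_I_mul hy)).comp y (hasDerivAt_I_mul y)
  have h2 := Complex.reCLM.hasFDerivAt.comp_hasDerivAt y h1
  refine h2.congr_deriv ?_
  obtain ⟨r2, r3, r4, -, -, -, -, -, -, -, e1, e2⟩ := exists_roots one_ne_zero hy
  rw [(xx_spec hy).1, e2, Complex.ofReal_re]
  rw [show π * I * (xx y : ℂ) * ((r4 ^ 1 : ℝ) : ℂ) * I = ((-(π * xx y * r4 ^ 1) : ℝ) : ℂ) by
    push_cast
    linear_combination (π * xx y * r4 : ℂ) * I_sq]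
  exact Complex.ofReal_re _

/-- the integrand of the Beta integral -/
noncomputable def bf (N a b : ℕ) (t : ℝ) : ℂ :=
  (t : ℂ) ^ ((a : ℂ) / N - 1) * (1 - (t : ℂ)) ^ ((b : ℂ) / N - 1)

/-- the incomplete Beta integral -/
noncomputable def HH (N a b : ℕ) (x : ℝ) : ℂ := ∫ t in (0 : ℝ)..x, bf N a b t

section

variable {N : ℕ} (hN : N ≠ 0)

include hN

theorem bf_integrable {a b : ℕ} (ha : 0 < a) (hb : 0 < b) :
    IntervalIntegrable (bf N a b) volume 0 1 := by
  have hNR : (0 : ℝ) < N := Nat.cast_pos.2 (Nat.pos_of_ne_zero hN)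
  have e : ∀ c : ℕ, ((c : ℂ) / N).re = (c : ℝ) / N := fun c => by
    rw [show ((c : ℂ) / N) = (((c : ℝ) / N : ℝ) : ℂ) by push_cast; rfl, Complex.ofReal_re]
  exact Complex.betaIntegral_convergent (by rw [e]; positivity) (by rw [e]; positivity)

omit hN in
theorem bf_real (a b : ℕ) {t : ℝ} (ht : t ∈ Set.Ioo (0 : ℝ) 1) :
    bf N a b t = ((t ^ ((a : ℝ) / N - 1) * (1 - t) ^ ((b : ℝ) / N - 1) : ℝ) : ℂ) := by
  unfold bf
  rw [Complex.ofReal_mul, Complex.ofReal_cpow ht.1.le, Complex.ofReal_cpow (by linarith [ht.2])]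
  push_cast
  rfl

omit hN in
theorem continuousAt_bf (a b : ℕ) {t : ℝ} (ht : t ∈ Set.Ioo (0 : ℝ) 1) :
    ContinuousAt (bf N a b) t := by
  have h : bf N a b =ᶠ[𝓝 t] fun t =>
      ((t ^ ((a : ℝ) / N - 1) * (1 - t) ^ ((b : ℝ) / N - 1) : ℝ) : ℂ) := by
    filter_upwards [isOpen_Ioo.mem_nhds ht] with s hs
    exact bf_real a b hs
  refine ContinuousAt.congr ?_ h.symm
  have h1 : ContinuousAt (fun t : ℝ => t ^ ((a : ℝ) / N - 1)) t :=
    Real.continuousAt_rpow_const _ _ (Or.inl ht.1.ne')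
  have h2 : ContinuousAt (fun t : ℝ => (1 - t) ^ ((b : ℝ) / N - 1)) t :=
    ContinuousAt.rpow_const (by fun_prop) (Or.inl (by linarith [ht.2] : 1 - t ≠ 0))
  exact Complex.continuous_ofReal.continuousAt.comp (h1.mul h2)

theorem hasDerivAt_HH {a b : ℕ} (ha : 0 < a) (hb : 0 < b) {t : ℝ} (ht : t ∈ Set.Ioo (0 : ℝ) 1) :
    HasDerivAt (HH N a b) (bf N a b t) t := by
  have hi := bf_integrable hN ha hb
  refine intervalIntegral.integral_hasDerivAt_right ?_ ?_ (continuousAt_bf a b ht)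
  · exact hi.mono_set (by
      rw [Set.uIcc_of_le ht.1.le, Set.uIcc_of_le zero_le_one]
      exact Set.Icc_subset_Icc_right ht.2.le)
  · exact ContinuousOn.stronglyMeasurableAtFilter isOpen_Ioo
      (fun s hs => (continuousAt_bf a b hs).continuousWithinAt) t ht

theorem continuousOn_HH {a b : ℕ} (ha : 0 < a) (hb : 0 < b) :
    ContinuousOn (HH N a b) (Set.Icc (0 : ℝ) 1) := by
  have hi := bf_integrable hN ha hb
  have h := intervalIntegral.continuousOn_primitive_interval' hi Set.left_mem_uIcc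
  rwa [Set.uIcc_of_le zero_le_one] at h

omit hN in
theorem HH_zero (a b : ℕ) : HH N a b 0 = 0 := by simp [HH]

omit hN in
theorem HH_one (a b : ℕ) : HH N a b 1 = Complex.betaIntegral ((a : ℂ) / N) ((b : ℂ) / N) := rfl

omit hN in
theorem hasDerivAt_FF_I' {f : ℂ → ℂ} {f' : ℂ} {y : ℝ} (h : HasDerivAt f f' (I * y)) :
    HasDerivAt (fun y : ℝ => f (I * y)) (f' * I) y := h.comp y (hasDerivAt_I_mul y)

theorem rpow_root {r : ℝ} (hr : 0 < r) (a : ℕ) : (r ^ N) ^ ((a : ℝ) / N) = r ^ a := by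
  rw [← Real.rpow_natCast r N, ← Real.rpow_mul hr.le, mul_div_cancel₀ _ (Nat.cast_ne_zero.2 hN),
    Real.rpow_natCast]

theorem FF_sub_HH_deriv {a b : ℕ} (ha : 0 < a) (hb : 0 < b) {y : ℝ} (hy : 0 < y) :
    HasDerivAt (fun y : ℝ => FF N a b (I * y) - HH N a b (xx y)) 0 y := by
  obtain ⟨r2, r3, r4, h2, h3, h4, e2, e3, e4, e, el, et⟩ := exists_roots hN hy
  obtain ⟨hx1, hx2⟩ := xx_spec hy
  have hxx : xx y = r2 ^ N / r3 ^ N := by
    rw [hx1] at el
    exact_mod_cast el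
  have h1x : 1 - xx y = r4 ^ N / r3 ^ N := by
    rw [hxx, e]
    have : r2 ^ N + r4 ^ N ≠ 0 := by positivity
    field_simp
    ring
  have d1 := hasDerivAt_FF_I' (hasDerivAt_FF hN ha b (im_I_mul hy))
  have d2 := (hasDerivAt_HH hN ha hb hx2).scomp y (hasDerivAt_xx hy)
  refine (d1.sub d2).congr_deriv ?_
  rw [e2, e3, e4, et, Complex.ofReal_re, bf_real a b hx2]
  have key : xx y ^ ((a : ℝ) / N - 1) * (1 - xx y) ^ ((b : ℝ) / N - 1) * (xx y * r4 ^ N) =
      r2 ^ a * r4 ^ b * (r3 ^ ((N : ℤ) - a - b)) := by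
    have k1 : 0 < xx y := hx2.1
    have k2 : 0 < 1 - xx y := by linarith [hx2.2]
    rw [Real.rpow_sub_one k1.ne', Real.rpow_sub_one k2.ne', h1x, hxx,
      Real.div_rpow (by positivity) (by positivity), Real.div_rpow (by positivity) (by positivity),
      rpow_root hN h2, rpow_root hN h3, rpow_root hN h4, rpow_root hN h3]
    have e5 : r3 ^ ((N : ℤ) - a - b) = r3 ^ N / (r3 ^ a * r3 ^ b) := by
      rw [zpow_sub₀ h3.ne', zpow_sub₀ h3.ne', zpow_natCast, zpow_natCast, zpow_natCast]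
      field_simp
    rw [e5]
    field_simp
  have key' : (((xx y ^ ((a : ℝ) / N - 1) * (1 - xx y) ^ ((b : ℝ) / N - 1) : ℝ) : ℂ)) *
      ((xx y : ℂ) * (r4 : ℂ) ^ N) = (r2 : ℂ) ^ a * (r4 : ℂ) ^ b * ((r3 : ℂ) ^ ((N : ℤ) - a - b)) := by
    have h := congrArg (fun t : ℝ => (t : ℂ)) key
    push_cast at h
    push_cast
    exact h
  rw [← key']
  simp only [Complex.real_smul]
  push_cast
  linear_combination ((π : ℂ) * (((xx y ^ ((a : ℝ) / N - 1) : ℝ) : ℂ) *
    (((1 - xx y) ^ ((b : ℝ) / N - 1) : ℝ) : ℂ)) * ((xx y : ℂ) * (r4 : ℂ) ^ N)) * I_sq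

omit hN in
theorem tendsto_qq_I : Tendsto (fun y : ℝ => qq (I * y)) atTop (𝓝 0) := by
  have h1 : Tendsto (fun y : ℝ => Real.exp (-(π * y))) atTop (𝓝 0) :=
    Real.tendsto_exp_neg_atTop_nhds_zero.comp (tendsto_id.const_mul_atTop Real.pi_pos)
  have h2 := (Complex.continuous_ofReal.tendsto 0).comp h1
  rw [Complex.ofReal_zero] at h2
  exact h2.congr fun y => (qq_I_mul y).symm

omit hN in
theorem continuousAt_of_ball {f : ℂ → ℂ} (hf : DifferentiableOn ℂ f (ball 0 1)) :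
    ContinuousAt f 0 :=
  ((hf 0 (mem_ball_self one_pos)).differentiableAt
    (isOpen_ball.mem_nhds (mem_ball_self one_pos))).continuousAt

theorem tendsto_FF_I {a b : ℕ} (ha : 0 < a) :
    Tendsto (fun y : ℝ => FF N a b (I * y)) atTop (𝓝 0) := by
  have hNR : (0 : ℝ) < N := Nat.cast_pos.2 (Nat.pos_of_ne_zero hN)
  have hA : (0 : ℝ) < (a : ℝ) / N := by positivity
  have h1 : Tendsto (fun y : ℝ => wN N (I * y)) atTop (𝓝 0) := by
    have e : ∀ y : ℝ, wN N (I * y) = ((Real.exp (-(π / N * y)) : ℝ) : ℂ) := by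
      intro y
      unfold wN
      rw [Complex.ofReal_exp]
      congr 1
      push_cast
      have hN' : (N : ℂ) ≠ 0 := Nat.cast_ne_zero.2 hN
      field_simp
      linear_combination (y : ℂ) * I_sq
    have h1 : Tendsto (fun y : ℝ => Real.exp (-(π / N * y))) atTop (𝓝 0) :=
      Real.tendsto_exp_neg_atTop_nhds_zero.comp (tendsto_id.const_mul_atTop (by positivity))
    have h2 := (Complex.continuous_ofReal.tendsto 0).comp h1
    rw [Complex.ofReal_zero] at h2
    exact h2.congr fun y => (e y).symm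
  have h2 : Tendsto (fun y : ℝ => SS (RR N a b) ((a : ℝ) / N) (qq (I * y))) atTop
      (𝓝 (SS (RR N a b) ((a : ℝ) / N) 0)) :=
    ((hasDerivAt_SS (differentiableOn_RR hN a b) hA
      (mem_ball_self one_pos)).continuousAt.tendsto).comp tendsto_qq_I
  have h3 := ((h1.pow a).const_mul (r16 N ^ a)).mul h2
  rw [zero_pow ha.ne', mul_zero, zero_mul] at h3
  exact h3

omit hN in
theorem tendsto_xx : Tendsto xx atTop (𝓝 0) := by
  have h2 : Tendsto (fun y : ℝ => th2 (I * y)) atTop (𝓝 0) := by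
    have h := (tendsto_qq_I.const_mul 16).mul
      ((continuousAt_of_ball differentiableOn_phi2).tendsto.comp tendsto_qq_I)
    rw [mul_zero, zero_mul] at h
    exact h.congr fun y => (th2_eq _).symm
  have h3 : Tendsto (fun y : ℝ => th3 (I * y)) atTop (𝓝 1) := by
    have h := tendsto_qq_I.neg
    rw [neg_zero] at h
    have h' := (continuousAt_of_ball differentiableOn_phi4).tendsto.comp h
    rw [phi4_zero] at h'
    exact h'.congr fun y => (th3_eq _).symm
  have h4 := h2.div h3 one_ne_zero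
  rw [zero_div] at h4
  have h5 := (Complex.continuous_re.tendsto 0).comp h4
  rw [Complex.zero_re] at h5
  exact h5

theorem FF_I_eq {a b : ℕ} (ha : 0 < a) (hb : 0 < b) {y : ℝ} (hy : 0 < y) :
    FF N a b (I * y) = HH N a b (xx y) := by
  have hH : Tendsto (fun y : ℝ => HH N a b (xx y)) atTop (𝓝 0) := by
    have h1 := continuousOn_HH hN ha hb 0 (by simp)
    have h2 : Tendsto xx atTop (𝓝[Set.Icc (0 : ℝ) 1] 0) := by
      refine tendsto_nhdsWithin_iff.2 ⟨tendsto_xx, ?_⟩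
      filter_upwards [eventually_gt_atTop 0] with y hy
      exact Set.Ioo_subset_Icc_self (xx_spec hy).2
    have h3 := h1.tendsto.comp h2
    rw [HH_zero] at h3
    exact h3
  have hlim : Tendsto (fun y : ℝ => FF N a b (I * y) - HH N a b (xx y)) atTop (𝓝 0) := by
    have h := (tendsto_FF_I hN (b := b) ha).sub hH
    rwa [sub_zero] at h
  have hc : ∀ w : ℝ, 0 < w → FF N a b (I * w) - HH N a b (xx w) =
      FF N a b (I * y) - HH N a b (xx y) := by
    intro w hw
    exact (convex_Ioi (0 : ℝ)).is_const_of_fderivWithin_eq_zero (𝕜 := ℝ)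
      (f := fun y : ℝ => FF N a b (I * y) - HH N a b (xx y))
      (fun w hw => (FF_sub_HH_deriv hN ha hb hw).differentiableAt.differentiableWithinAt)
      (fun w hw => by
        rw [fderivWithin_of_isOpen isOpen_Ioi hw]
        ext
        simp [(FF_sub_HH_deriv hN ha hb hw).hasFDerivAt.fderiv]) hw hy
  have hlim' : Tendsto (fun w : ℝ => FF N a b (I * w) - HH N a b (xx w)) atTop
      (𝓝 (FF N a b (I * y) - HH N a b (xx y))) := by
    refine tendsto_const_nhds.congr' ?_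
    filter_upwards [eventually_gt_atTop 0] with w hw
    exact (hc w hw).symm
  exact sub_eq_zero.1 (tendsto_nhds_unique hlim' hlim)

/-- (1.2) -/
theorem FF_neg_inv {a b : ℕ} (ha : 0 < a) (hb : 0 < b) {z : ℂ} (hz : 0 < z.im) :
    FF N a b (-1 / z) = Complex.betaIntegral ((a : ℂ) / N) ((b : ℂ) / N) - FF N b a z := by
  obtain ⟨c, hc⟩ := FF_inv_const hN ha hb
  rw [hc z hz]
  congr 1
  have e1 : ∀ y : ℝ, 0 < y → c = HH N a b (1 - xx y) + FF N b a (I * y) := by
    intro y hy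
    have hz := im_I_mul hy
    have hy0 : (y : ℂ) ≠ 0 := Complex.ofReal_ne_zero.2 hy.ne'
    have h1 := hc _ hz
    have h2 : -1 / (I * (y : ℂ)) = I * ((1 / y : ℝ) : ℂ) := by
      push_cast
      field_simp
      rw [I_sq]
    have h3 : xx (1 / y) = 1 - xx y := by
      unfold xx
      rw [← h2, lam_neg_inv hz, Complex.sub_re, Complex.one_re]
    rw [h2, FF_I_eq hN ha hb (by positivity : (0 : ℝ) < 1 / y), h3] at h1
    rw [h1]
    ring
  have hH : Tendsto (fun y : ℝ => HH N a b (1 - xx y)) atTop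
      (𝓝 (Complex.betaIntegral ((a : ℂ) / N) ((b : ℂ) / N))) := by
    have h1 := continuousOn_HH hN ha hb 1 (by simp)
    have h2 : Tendsto (fun y => 1 - xx y) atTop (𝓝[Set.Icc (0 : ℝ) 1] 1) := by
      refine tendsto_nhdsWithin_iff.2 ⟨?_, ?_⟩
      · have := tendsto_xx.const_sub 1
        rwa [sub_zero] at this
      · filter_upwards [eventually_gt_atTop 0] with y hy
        have := (xx_spec hy).2
        exact ⟨by linarith [this.2], by linarith [this.1]⟩
    exact h1.tendsto.comp h2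
  have h4 := hH.add (tendsto_FF_I hN (b := a) hb)
  rw [add_zero] at h4
  have h5 : Tendsto (fun y : ℝ => HH N a b (1 - xx y) + FF N b a (I * y)) atTop (𝓝 c) := by
    refine tendsto_const_nhds.congr' ?_
    filter_upwards [eventually_gt_atTop 0] with w hw
    exact e1 w hw
  exact tendsto_nhds_unique h5 h4

end

end GP
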