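import Mathlib
import Pool.Agent.GP.ModH
import Pool.Agent.Helper32.GP.Cusp2

set_option autoImplicit false

/-!
# The cocycle law
-/

open Complex Filter Topology Metric MeasureTheory UpperHalfPlane ModularGroup
open scoped Real MatrixGroups Polynomial

namespace GP

theorem coe_T2_smul (z : ℍ) : (((T ^ 2 : SL(2, ℤ)) • z : ℍ) : ℂ) = z + 2 := by
  rw [pow_two, mul_smul, UpperHalfPlane.modular_T_smul, UpperHalfPlane.modular_T_smul]
  simp only [UpperHalfPlane.coe_vadd]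
  push_cast
  ring

theorem coe_S_smul (z : ℍ) : ((S • z : ℍ) : ℂ) = -1 / z := by
  rw [UpperHalfPlane.modular_S_smul]
  change (-(z : ℂ))⁻¹ = _
  rw [neg_div, one_div, inv_neg]

theorem S_inv_smul (z : ℍ) : (S⁻¹ : SL(2, ℤ)) • z = S • z := by
  have h : (S⁻¹ : SL(2, ℤ)) = -S := by decide
  rw [h, SL_neg_smul]

theorem coe_g2_smul (z : ℍ) :
    (((S * T ^ 2 * S⁻¹ : SL(2, ℤ)) • z : ℍ) : ℂ) = -1 / (-1 / (z : ℂ) + 2) := by
  rw [mul_smul, mul_smul, S_inv_smul, coe_S_smul, coe_T2_smul, coe_S_smul]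

/-- `c z + d` -/
noncomputable def cd (γ : SL(2, ℤ)) (z : ℂ) : ℂ := (γ 1 0 : ℂ) * z + (γ 1 1 : ℂ)

theorem coe_smul_eq (γ : SL(2, ℤ)) (z : ℍ) :
    ((γ • z : ℍ) : ℂ) = ((γ 0 0 : ℂ) * z + (γ 0 1 : ℂ)) / cd γ z := by
  rw [coe_specialLinearGroup_apply]
  simp [cd]

theorem cd_ne_zero (γ : SL(2, ℤ)) (z : ℍ) : cd γ z ≠ 0 := by
  have h := UpperHalfPlane.denom_ne_zero (γ : GL (Fin 2) ℝ) z
  rw [ModularGroup.denom_apply] at h
  exact h

theorem cd_mul (γ δ : SL(2, ℤ)) (z : ℍ) : cd (γ * δ) z = cd γ (δ • z : ℍ) * cd δ z := by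
  have h := cd_ne_zero δ z
  rw [coe_smul_eq δ z]
  have e1 : cd γ (((δ 0 0 : ℂ) * z + (δ 0 1 : ℂ)) / cd δ z) * cd δ z
      = (γ 1 0 : ℂ) * ((δ 0 0 : ℂ) * z + (δ 0 1 : ℂ)) + (γ 1 1 : ℂ) * cd δ z := by
    rw [cd, add_mul, mul_assoc, div_mul_cancel₀ _ h]
  rw [e1, cd, cd]
  simp only [Matrix.SpecialLinearGroup.coe_mul, Matrix.mul_apply, Fin.sum_univ_two]
  push_cast
  ring

theorem cd_T2 (z : ℂ) : cd (T ^ 2) z = 1 := by
  have h1 : (T ^ 2 : SL(2, ℤ)) 1 0 = 0 := by decide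
  have h2 : (T ^ 2 : SL(2, ℤ)) 1 1 = 1 := by decide
  rw [cd, h1, h2]; simp

theorem cd_g2 (z : ℂ) : cd (S * T ^ 2 * S⁻¹) z = 1 - 2 * z := by
  have h1 : (S * T ^ 2 * S⁻¹ : SL(2, ℤ)) 1 0 = -2 := by decide
  have h2 : (S * T ^ 2 * S⁻¹ : SL(2, ℤ)) 1 1 = 1 := by decide
  rw [cd, h1, h2]; push_cast; ring

theorem cd_one (z : ℂ) : cd 1 z = 1 := by
  have h1 : (1 : SL(2, ℤ)) 1 0 = 0 := by decide
  have h2 : (1 : SL(2, ℤ)) 1 1 = 1 := by decide
  rw [cd, h1, h2]; simp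

/-- functions of weight two for the group -/
theorem weight_two (f : ℂ → ℂ) (h1 : ∀ z, 0 < z.im → f (z + 2) = f z)
    (h2 : ∀ z, 0 < z.im → f (-1 / (-1 / z + 2)) = (1 - 2 * z) ^ 2 * f z) {γ : SL(2, ℤ)}
    (hγ : γ ∈ Gam) : ∀ z : ℍ, f ((γ • z : ℍ) : ℂ) = cd γ z ^ 2 * f z := by
  induction hγ using Subgroup.closure_induction with
  | mem x hx =>
    intro z
    simp only [Set.mem_insert_iff, Set.mem_singleton_iff] at hx
    rcases hx with rfl | rfl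
    · rw [coe_T2_smul, cd_T2, h1 _ z.im_pos]; ring
    · rw [coe_g2_smul, cd_g2, h2 _ z.im_pos]
  | one => intro z; rw [one_smul, cd_one]; ring
  | mul x y _ _ hx hy =>
    intro z
    rw [mul_smul, hx, hy, cd_mul]; ring
  | inv x _ hx =>
    intro z
    have h := hx (x⁻¹ • z)
    rw [smul_inv_smul] at h
    have h3 : cd x (x⁻¹ • z : ℍ) * cd x⁻¹ z = 1 := by
      rw [← cd_mul, mul_inv_cancel, cd_one]
    have h4 : cd x (x⁻¹ • z : ℍ) ^ 2 * cd x⁻¹ z ^ 2 = 1 := by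
      rw [← mul_pow, h3, one_pow]
    rw [h]
    linear_combination (-f ((x⁻¹ • z : ℍ) : ℂ)) * h4

theorem w_im {z : ℂ} (hz : 0 < z.im) : 0 < (-1 / z + 2).im := by
  have h := neg_one_div_im hz
  simpa using h

theorem th2_Gam {γ : SL(2, ℤ)} (hγ : γ ∈ Gam) (z : ℍ) :
    th2 ((γ • z : ℍ) : ℂ) = cd γ z ^ 2 * th2 z := by
  refine weight_two th2 (fun z _ => ?_) (fun z hz => ?_) hγ z
  · rw [show z + 2 = z + 1 + 1 by ring, th2_add_one, th2_add_one, neg_neg]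
  · have hz0 := ne_zero_of_im hz
    rw [th2_neg_inv (w_im hz), show -1 / z + 2 = -1 / z + 1 + 1 by ring, th4_add_one, th3_add_one,
      th4_neg_inv hz]
    field_simp
    ring

theorem th4_Gam {γ : SL(2, ℤ)} (hγ : γ ∈ Gam) (z : ℍ) :
    th4 ((γ • z : ℍ) : ℂ) = cd γ z ^ 2 * th4 z := by
  refine weight_two th4 (fun z _ => ?_) (fun z hz => ?_) hγ z
  · rw [show z + 2 = z + 1 + 1 by ring, th4_add_one, th3_add_one]
  · have hz0 := ne_zero_of_im hz
    rw [th4_neg_inv (w_im hz), show -1 / z + 2 = -1 / z + 1 + 1 by ring, th2_add_one, th2_add_one,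
      th2_neg_inv hz]
    field_simp
    ring

theorem th3_Gam {γ : SL(2, ℤ)} (hγ : γ ∈ Gam) (z : ℍ) :
    th3 ((γ • z : ℍ) : ℂ) = cd γ z ^ 2 * th3 z := by
  rw [jacobi (γ • z).im_pos, jacobi z.im_pos, th2_Gam hγ, th4_Gam hγ]; ring


section

variable {N : ℕ} (hN : N ≠ 0)

include hN in
theorem zN_pow : zN N ^ N = 1 := by
  have h : (N : ℂ) ≠ 0 := by exact_mod_cast hN
  rw [zN, ← Complex.exp_nat_mul, mul_div_cancel₀ _ h, Complex.exp_two_pi_mul_I]

include hN in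
theorem zN_prim : IsPrimitiveRoot (zN N) N := Complex.isPrimitiveRoot_exp N hN

omit hN in
theorem zN_ne_zero : zN N ≠ 0 := Complex.exp_ne_zero _

include hN in
theorem zN_pow_mod {a b : ℕ} (h : a ≡ b [MOD N]) : zN N ^ a = zN N ^ b := by
  rw [← Nat.mod_add_div a N, ← Nat.mod_add_div b N, pow_add, pow_add, pow_mul, pow_mul, zN_pow hN,
    one_pow, one_pow, h]

theorem betaIntegral_symm' (u v : ℂ) : Complex.betaIntegral u v = Complex.betaIntegral v u := by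
  rw [Complex.betaIntegral_symm]

include hN in
/-- the law for the second generator -/
theorem FF_g2 {a b : ℕ} (ha : 0 < a) (hb : 0 < b) {z : ℂ} (hz : 0 < z.im) :
    FF N a b (-1 / (-1 / z + 2)) = zN N ^ b * FF N a b z +
      Complex.betaIntegral ((a : ℂ) / N) ((b : ℂ) / N) * (1 - zN N ^ b) := by
  rw [FF_neg_inv hN ha hb (w_im hz), FF_add_two, FF_neg_inv hN hb ha hz,
    betaIntegral_symm' ((b : ℂ) / N) ((a : ℂ) / N)]
  ring

include hN in
/-- **the cocycle law** (1.3) -/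
theorem FF_Gam (j k : ℕ) {γ : SL(2, ℤ)} (hγ : γ ∈ Gam) : ∃ κ : ℕ, ∃ P : ℤ[X], ∀ t a b : ℕ,
    0 < a → 0 < b → a ≡ t * j [MOD N] → b ≡ t * k [MOD N] → ∀ z : ℍ,
    FF N a b ((γ • z : ℍ) : ℂ) = (zN N ^ t) ^ κ * FF N a b z +
      Complex.betaIntegral ((a : ℂ) / N) ((b : ℂ) / N) * Polynomial.aeval (zN N ^ t) P := by
  induction hγ using Subgroup.closure_induction with
  | mem x hx =>
    simp only [Set.mem_insert_iff, Set.mem_singleton_iff] at hx
    rcases hx with rfl | rfl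
    · refine ⟨j, 0, fun t a b ha hb hat hbt z => ?_⟩
      rw [coe_T2_smul, FF_add_two, zN_pow_mod hN hat, pow_mul, map_zero, mul_zero, add_zero]
    · refine ⟨k, 1 - Polynomial.X ^ k, fun t a b ha hb hat hbt z => ?_⟩
      rw [coe_g2_smul, FF_g2 hN ha hb z.im_pos, zN_pow_mod hN hbt, pow_mul]
      simp
  | one =>
    refine ⟨0, 0, fun t a b ha hb hat hbt z => ?_⟩
    rw [one_smul, pow_zero, map_zero]; ring
  | mul x y _ _ hx hy =>
    obtain ⟨κ₁, P₁, h₁⟩ := hx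
    obtain ⟨κ₂, P₂, h₂⟩ := hy
    refine ⟨κ₁ + κ₂, Polynomial.X ^ κ₁ * P₂ + P₁, fun t a b ha hb hat hbt z => ?_⟩
    rw [mul_smul, h₁ t a b ha hb hat hbt, h₂ t a b ha hb hat hbt, map_add, map_mul, map_pow,
      Polynomial.aeval_X, pow_add]
    ring
  | inv x _ hx =>
    obtain ⟨κ, P, h⟩ := hx
    refine ⟨(N - 1) * κ, -(Polynomial.X ^ ((N - 1) * κ) * P), fun t a b ha hb hat hbt z => ?_⟩
    have h1 := h t a b ha hb hat hbt (x⁻¹ • z)
    rw [smul_inv_smul] at h1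
    have h2 : (zN N ^ t) ^ ((N - 1) * κ) * (zN N ^ t) ^ κ = 1 := by
      rw [← pow_add]
      have : (N - 1) * κ + κ = N * κ := by
        obtain ⟨m, rfl⟩ := Nat.exists_eq_succ_of_ne_zero hN
        simp only [Nat.succ_eq_add_one, Nat.add_sub_cancel]
        ring
      rw [this, ← pow_mul, show t * (N * κ) = N * (t * κ) by ring, pow_mul, zN_pow hN, one_pow]
    rw [h1, map_neg, map_mul, map_pow, Polynomial.aeval_X]
    linear_combination (-FF N a b ((x⁻¹ • z : ℍ) : ℂ)) * h2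

include hN in
/-- **the cocycle law**, with coordinates -/
theorem FF_Gam' (j k : ℕ) {γ : SL(2, ℤ)} (hγ : γ ∈ Gam) : ∃ κ : ℕ, ∃ u : Fin (N.totient) → ℤ,
    ∀ t a b : ℕ, t.Coprime N →
    0 < a → 0 < b → a ≡ t * j [MOD N] → b ≡ t * k [MOD N] → ∀ z : ℍ,
    FF N a b ((γ • z : ℍ) : ℂ) = zN N ^ (t * κ) * FF N a b z +
      Complex.betaIntegral ((a : ℂ) / N) ((b : ℂ) / N) * ∑ i, (u i : ℂ) * zN N ^ (t * i) := by
  obtain ⟨κ, P, h⟩ := FF_Gam hN j k hγ
  set Q := P %ₘ Polynomial.cyclotomic N ℤ with hQ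
  have hdeg : Q.natDegree < N.totient := by
    have h1 := Polynomial.natDegree_modByMonic_lt P (Polynomial.cyclotomic.monic N ℤ) (by
      intro h1
      have h2 := congrArg Polynomial.natDegree h1
      rw [Polynomial.natDegree_cyclotomic, Polynomial.natDegree_one] at h2
      exact (Nat.totient_pos.2 (Nat.pos_of_ne_zero hN)).ne' h2)
    rwa [Polynomial.natDegree_cyclotomic] at h1
  refine ⟨κ, fun i => Q.coeff i, fun t a b ht ha hb hat hbt z => ?_⟩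
  rw [h t a b ha hb hat hbt z, pow_mul]
  congr 2
  have hprim : IsPrimitiveRoot (zN N ^ t) N := (zN_prim hN).pow_of_coprime t ht
  have hroot : Polynomial.aeval (zN N ^ t) (Polynomial.cyclotomic N ℤ) = 0 := by
    have h1 := hprim.isRoot_cyclotomic (Nat.pos_of_ne_zero hN)
    rw [Polynomial.IsRoot.def, ← Polynomial.map_cyclotomic_int, Polynomial.eval_map] at h1
    exact h1
  have h1 : Polynomial.aeval (zN N ^ t) P = Polynomial.aeval (zN N ^ t) Q := by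
    conv_lhs => rw [← Polynomial.modByMonic_add_div P (Polynomial.cyclotomic N ℤ)]
    rw [map_add, map_mul, hroot, zero_mul, add_zero]
  rw [h1, Polynomial.aeval_eq_sum_range' hdeg, Finset.sum_range]
  refine Finset.sum_congr rfl fun i _ => ?_
  rw [← pow_mul, zsmul_eq_mul]

end

end GP
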