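import Mathlib
import Pool.Agent.GP.LW
import Pool.Agent.GP.ModI

set_option autoImplicit false

/-!
# Comparison of the two sets of definitions
-/

open Complex Filter Topology Metric
open scoped Real

namespace GP

theorem EE_hasProd {q : ℂ} (hq : ‖q‖ < 1) : HasProd (fun n : ℕ => 1 - q ^ (n + 1)) (EE q) :=
  (ModularForm.multipliable_one_sub_pow hq).hasProd

theorem hasProd_aux {q : ℂ} (hq : ‖q‖ < 1) (s : ℂ) (hs : ‖s‖ ≤ 1) {f : ℕ → ℕ}
    (hf : Function.Injective f) : Multipliable (fun n : ℕ => 1 + s * q ^ (f n)) := by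
  refine multipliable_one_add_of_summable ?_
  refine Summable.of_nonneg_of_le (fun _ => norm_nonneg _) (fun n => ?_)
    ((summable_geometric_of_lt_one (norm_nonneg _) hq).comp_injective hf)
  rw [norm_mul, norm_pow]
  exact mul_le_of_le_one_left (by positivity) hs

theorem exp_lW4_eq {q : ℂ} (hq : ‖q‖ < 1) : cexp (Pool.Agent.GP.lW4 q) = phi4 q := by
  have hq2 : ‖q ^ 2‖ < 1 := norm_pow_lt_one hq two_ne_zero
  obtain ⟨O, hO⟩ := hasProd_aux hq (-1) (by simp) (f := fun n => 2 * n + 1)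
    (fun a b h => by simpa using h)
  have h1 : HasProd (fun n : ℕ => 1 - q ^ (2 * n + 2)) (EE (q ^ 2)) := by
    refine (EE_hasProd hq2).congr_fun ?_
    intro n
    rw [← pow_mul]
    ring_nf
  have h2 : EE q = O * EE (q ^ 2) := by
    have h3 : HasProd (fun n : ℕ => 1 - q ^ (n + 1)) (O * EE (q ^ 2)) := by
      refine HasProd.even_mul_odd ?_ ?_
      · refine hO.congr_fun ?_
        intro n
        ring
      · exact h1
    exact (EE_hasProd hq).unique h3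
  have h4 : HasProd (fun n : ℕ => (1 - q ^ (2 * n + 2)) ^ 4 * (1 - q ^ (2 * n + 1)) ^ 8)
      (EE (q ^ 2) ^ 4 * O ^ 8) := by
    refine (h1.pow 4).mul ((hO.pow 8).congr_fun ?_)
    intro n
    ring
  have h5 := (Pool.Agent.GP.exp_lW4 hq).unique h4
  have h6 := EE_ne_zero hq2
  rw [h5, phi4, h2]
  field_simp

theorem exp_lW2_eq {q : ℂ} (hq : ‖q‖ < 1) : cexp (Pool.Agent.GP.lW2 q) = phi2 q := by
  have hq2 : ‖q ^ 2‖ < 1 := norm_pow_lt_one hq two_ne_zero
  have hq4 : ‖q ^ 4‖ < 1 := norm_pow_lt_one hq (by norm_num)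
  obtain ⟨O, hO⟩ := hasProd_aux hq 1 (by simp) (f := fun n => 2 * n + 2)
    (fun a b h => by simpa using h)
  have h1 : HasProd (fun n : ℕ => 1 - q ^ (2 * n + 2)) (EE (q ^ 2)) := by
    refine (EE_hasProd hq2).congr_fun ?_
    intro n
    rw [← pow_mul]
    ring_nf
  have h2 : EE (q ^ 4) = EE (q ^ 2) * O := by
    refine (EE_hasProd hq4).unique ((h1.mul hO).congr_fun ?_)
    intro n
    ring
  have h4 : HasProd (fun n : ℕ => (1 - q ^ (2 * n + 2)) ^ 4 * (1 + q ^ (2 * n + 2)) ^ 8)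
      (EE (q ^ 2) ^ 4 * O ^ 8) := by
    refine (h1.pow 4).mul ((hO.pow 8).congr_fun ?_)
    intro n
    ring
  have h5 := (Pool.Agent.GP.exp_lW2 hq).unique h4
  have h6 := EE_ne_zero hq2
  rw [h5, phi2, h2]
  field_simp

theorem nm_eq (z : ℂ) : Pool.Agent.GP.nm z = qq z := rfl

theorem wn_eq (N : ℕ) (z : ℂ) : Pool.Agent.GP.wn N z = wN N z := rfl

theorem zet_eq (N : ℕ) : Pool.Agent.GP.zet N = zN N := rfl

theorem th2_eq' {z : ℂ} (hz : 0 < z.im) : Pool.Agent.GP.th2 z = th2 z := by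
  rw [Pool.Agent.GP.th2, nm_eq, exp_lW2_eq (norm_qq_lt hz), th2_eq]

theorem th4_eq' {z : ℂ} (hz : 0 < z.im) : Pool.Agent.GP.th4 z = th4 z := by
  rw [Pool.Agent.GP.th4, nm_eq, exp_lW4_eq (norm_qq_lt hz), th4_eq]

theorem th3_eq' {z : ℂ} (hz : 0 < z.im) : Pool.Agent.GP.th3 z = th3 z := by
  rw [Pool.Agent.GP.th3, nm_eq, exp_lW4_eq (by rw [norm_neg]; exact norm_qq_lt hz), th3_eq]

theorem lam_eq' {z : ℂ} (hz : 0 < z.im) : Pool.Agent.GP.lam z = lam z := by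
  rw [Pool.Agent.GP.lam, th2_eq' hz, th3_eq' hz, lam]

section

variable {N : ℕ} (hN : N ≠ 0)

include hN

theorem rho4_eq {q : ℂ} (hq : q ∈ ball (0 : ℂ) 1) :
    cexp (Pool.Agent.GP.lW4 q / N) = rho4 N q := by
  have hN' : (N : ℂ) ≠ 0 := by exact_mod_cast hN
  refine eq_of_pow_eq (s := ball (0 : ℂ) 1) (convex_ball _ _).isPreconnected
    (f := fun q => cexp (Pool.Agent.GP.lW4 q / N)) (g := rho4 N)
    ((Pool.Agent.GP.lW4_diff.div_const _).cexp.continuousOn) (rho4_spec hN).1.continuousOn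
    (fun x hx => rho4_ne_zero hN hx) hN (fun x hx => ?_) (mem_ball_self one_pos) ?_ hq
  · rw [← Complex.exp_nat_mul, mul_div_cancel₀ _ hN', exp_lW4_eq (mem_ball_zero_iff.1 hx),
      (rho4_spec hN).2.1 x hx]
  · rw [Pool.Agent.GP.lW4_zero, zero_div, Complex.exp_zero, (rho4_spec hN).2.2]

theorem rho2_eq {q : ℂ} (hq : q ∈ ball (0 : ℂ) 1) :
    cexp (Pool.Agent.GP.lW2 q / N) = rho2 N q := by
  have hN' : (N : ℂ) ≠ 0 := by exact_mod_cast hN
  refine eq_of_pow_eq (s := ball (0 : ℂ) 1) (convex_ball _ _).isPreconnected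
    (f := fun q => cexp (Pool.Agent.GP.lW2 q / N)) (g := rho2 N)
    ((Pool.Agent.GP.lW2_diff.div_const _).cexp.continuousOn) (rho2_spec hN).1.continuousOn
    (fun x hx => rho2_ne_zero hN hx) hN (fun x hx => ?_) (mem_ball_self one_pos) ?_ hq
  · rw [← Complex.exp_nat_mul, mul_div_cancel₀ _ hN', exp_lW2_eq (mem_ball_zero_iff.1 hx),
      (rho2_spec hN).2.1 x hx]
  · rw [Pool.Agent.GP.lW2_zero, zero_div, Complex.exp_zero, (rho2_spec hN).2.2]

theorem Sq_eq (a b : ℕ) {q : ℂ} (hq : q ∈ ball (0 : ℂ) 1) :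
    Pool.Agent.GP.Sq N a b q = RR N a b q := by
  have hN' : (N : ℂ) ≠ 0 := by exact_mod_cast hN
  have hq' : -q ∈ ball (0 : ℂ) 1 := by
    rw [mem_ball_zero_iff] at hq ⊢
    rwa [norm_neg]
  rw [Pool.Agent.GP.Sq, RR, ← rho2_eq hN hq, ← rho4_eq hN hq, ← rho4_eq hN hq',
    ← Complex.exp_nat_mul, ← Complex.exp_nat_mul, ← Complex.exp_int_mul, ← Complex.exp_add,
    ← Complex.exp_add]
  congr 1
  push_cast
  field_simp

theorem sc_eq (a b k : ℕ) : Pool.Agent.GP.sc N a b k = tco (RR N a b) k := by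
  have h : Pool.Agent.GP.Sq N a b =ᶠ[𝓝 0] RR N a b := by
    filter_upwards [isOpen_ball.mem_nhds (mem_ball_self (x := (0 : ℂ)) one_pos)] with q hq
    exact Sq_eq hN a b hq
  rw [Pool.Agent.GP.sc, tco, h.iteratedDeriv_eq]
  ring

end

end GP
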