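import Pool.Agent.GP.LW
import Pool.Agent.GP.Bri

/-! Module FW: the integrals as power series in the local parameter, their derivative. -/

set_option autoImplicit false

namespace Pool.Agent.GP

open Complex Metric

theorem Sq_diff (p a b : ℕ) : DifferentiableOn ℂ (Sq p a b) (ball 0 1) := by
  have hneg : Set.MapsTo (fun q : ℂ => -q) (ball (0 : ℂ) 1) (ball (0 : ℂ) 1) := fun q hq => by
    rw [mem_ball_zero_iff] at hq ⊢
    rwa [norm_neg]
  have h3 : DifferentiableOn ℂ (fun q => lW4 (-q)) (ball 0 1) :=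
    lW4_diff.comp differentiableOn_id.neg hneg
  exact ((((lW2_diff.const_mul _).add (lW4_diff.const_mul _)).add (h3.const_mul _)).div_const
    _).cexp

theorem sc_eq_tco (p a b k : ℕ) : sc p a b k = _root_.GP.tco (Sq p a b) k := by
  rw [sc, _root_.GP.tco, div_eq_inv_mul]

theorem Sq_hasSum (p a b : ℕ) {q : ℂ} (hq : ‖q‖ < 1) :
    HasSum (fun k => sc p a b k * q ^ k) (Sq p a b q) := by
  refine (_root_.GP.hasSum_tco (Sq_diff p a b) (mem_ball_zero_iff.2 hq)).congr_fun fun k => ?_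
  rw [sc_eq_tco]

theorem Sq_zero (p a b : ℕ) : Sq p a b 0 = 1 := by
  rw [Sq, neg_zero, lW2_zero, lW4_zero]
  simp

theorem sc_zero (p a b : ℕ) : sc p a b 0 = 1 := by
  rw [sc, iteratedDeriv_zero, Sq_zero]
  simp

theorem fc_eq_zero {p a b ν : ℕ} (h : ν % p ≠ a) : fc p a b ν = 0 := if_neg h

theorem fc_eq_zero_of_lt {p a b ν : ℕ} (hA : Adm p a b) (h : ν < a) : fc p a b ν = 0 := by
  refine fc_eq_zero ?_
  rw [Nat.mod_eq_of_lt (h.trans hA.ap)]
  exact h.ne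

theorem Adm.pos {p a b : ℕ} (hA : Adm p a b) : 0 < p := lt_of_le_of_lt (Nat.zero_le _) hA.ap

theorem Adm.symm {p a b : ℕ} (hA : Adm p a b) : Adm p b a :=
  ⟨hA.b0, hA.bp, hA.a0, hA.ap, by rw [add_comm]; exact hA.ab⟩

/-- the constant -/
noncomputable def c16 (p a : ℕ) : ℂ := (((16 : ℝ) ^ ((a : ℝ) / p) : ℝ) : ℂ)

theorem c16_eq (p a : ℕ) : c16 p a = _root_.GP.r16 p ^ a := by
  unfold c16 _root_.GP.r16
  rw [← Complex.ofReal_pow, ← Real.rpow_natCast, ← Real.rpow_mul (by norm_num)]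
  congr 2
  ring

theorem fc_apply {p a b : ℕ} (hA : Adm p a b) (k : ℕ) :
    fc p a b (p * k + a) =
      c16 p a * (sc p a b k / ((k : ℂ) + (((a : ℝ) / p : ℝ) : ℂ))) := by
  have hp : 0 < p := hA.pos
  have h1 : (p * k + a) % p = a := by rw [Nat.mul_add_mod]; exact Nat.mod_eq_of_lt hA.ap
  have h2 : (p * k + a - a) / p = k := by rw [Nat.add_sub_cancel, Nat.mul_div_cancel_left _ hp]
  have hp' : (p : ℂ) ≠ 0 := by exact_mod_cast hp.ne'
  rw [fc, if_pos h1, h2, c16]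
  congr 2
  push_cast
  field_simp

theorem inj_mul_add {p : ℕ} (hp : 0 < p) (a : ℕ) : Function.Injective fun k : ℕ => p * k + a := by
  intro k l h
  have : p * k = p * l := by simpa using h
  exact Nat.eq_of_mul_eq_mul_left hp this

theorem fc_support {p a b : ℕ} (f : ℕ → ℂ) :
    ∀ n ∉ Set.range (fun k : ℕ => p * k + a), fc p a b n * f n = 0 := by
  intro n hn
  rw [fc_eq_zero, zero_mul]
  intro h
  exact hn ⟨n / p, by rw [← h]; exact Nat.div_add_mod n p⟩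

theorem div_pos' {p a b : ℕ} (hA : Adm p a b) : (0 : ℝ) < (a : ℝ) / p := by
  have h1 : (0 : ℝ) < a := by exact_mod_cast hA.a0
  have h2 : (0 : ℝ) < p := by exact_mod_cast hA.pos
  positivity

theorem pow_mem_ball {p : ℕ} (hp : 0 < p) {w : ℂ} (hw : ‖w‖ < 1) : w ^ p ∈ ball (0 : ℂ) 1 := by
  rw [mem_ball_zero_iff, norm_pow]
  exact pow_lt_one₀ (norm_nonneg _) hw hp.ne'

theorem Fw_hasSum' {p a b : ℕ} (hA : Adm p a b) {w : ℂ} (hw : ‖w‖ < 1) :
    HasSum (fun ν => fc p a b ν * w ^ ν)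
      (c16 p a * w ^ a * _root_.GP.SS (Sq p a b) ((a : ℝ) / p) (w ^ p)) := by
  rw [← (inj_mul_add hA.pos a).hasSum_iff (fc_support _)]
  have h := (_root_.GP.summable_SS (Sq_diff p a b) (div_pos' hA)
    (pow_mem_ball hA.pos hw)).hasSum.mul_left (c16 p a * w ^ a)
  refine h.congr_fun fun k => ?_
  show fc p a b (p * k + a) * w ^ (p * k + a) = _
  rw [fc_apply hA, sc_eq_tco, pow_add, pow_mul]
  ring

theorem Fw_eq {p a b : ℕ} (hA : Adm p a b) {w : ℂ} (hw : ‖w‖ < 1) :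
    Fw p a b w = c16 p a * w ^ a * _root_.GP.SS (Sq p a b) ((a : ℝ) / p) (w ^ p) :=
  (Fw_hasSum' hA hw).tsum_eq

theorem Fw_summable {p a b : ℕ} (hA : Adm p a b) {w : ℂ} (hw : ‖w‖ < 1) :
    Summable (fun ν => ‖fc p a b ν * w ^ ν‖) := (Fw_hasSum' hA hw).summable.norm

theorem Fw_hasSum {p a b : ℕ} (hA : Adm p a b) {w : ℂ} (hw : ‖w‖ < 1) :
    HasSum (fun ν => fc p a b ν * w ^ ν) (Fw p a b w) := (Fw_hasSum' hA hw).summable.hasSum

theorem Fw_diff {p a b : ℕ} (hA : Adm p a b) : DifferentiableOn ℂ (Fw p a b) (ball 0 1) := by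
  have h1 : DifferentiableOn ℂ (fun w : ℂ => c16 p a * w ^ a *
      _root_.GP.SS (Sq p a b) ((a : ℝ) / p) (w ^ p)) (ball 0 1) := by
    intro w hw
    have h2 := (_root_.GP.hasDerivAt_SS (Sq_diff p a b) (div_pos' hA)
      (pow_mem_ball hA.pos (mem_ball_zero_iff.1 hw))).differentiableAt
    exact (((differentiableAt_pow a).const_mul _).mul
      (h2.comp w (differentiableAt_pow p))).differentiableWithinAt
  exact h1.congr fun w hw => Fw_eq hA (mem_ball_zero_iff.1 hw)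

theorem Fw_zero {p a b : ℕ} (hA : Adm p a b) : Fw p a b 0 = 0 := by
  rw [Fw_eq hA (by simp), zero_pow hA.a0.ne']
  ring

theorem F_eq_SS {p a b : ℕ} (hA : Adm p a b) {τ : ℂ} (hτ : 0 < τ.im) :
    F p a b τ = c16 p a * wn p τ ^ a * _root_.GP.SS (Sq p a b) ((a : ℝ) / p) (nm τ) := by
  rw [F, Fw_eq hA (wn_norm_lt hA.pos hτ), wn_pow hA.pos]

theorem F_eq_FF {p a b : ℕ} (hA : Adm p a b) {τ : ℂ} (hτ : 0 < τ.im) :
    F p a b τ = _root_.GP.FF p a b τ := by
  rw [F_eq_SS hA hτ, _root_.GP.FF, c16_eq]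
  unfold _root_.GP.SS
  simp only [← _root_.GP.sc_eq hA.pos.ne' a b, ← sc_eq_tco]
  rfl

theorem gd_eq {p a b : ℕ} (hA : Adm p a b) {τ : ℂ} (hτ : 0 < τ.im) :
    gd p a b τ = Real.pi * I * (_root_.GP.rt2 p τ ^ a * _root_.GP.rt4 p τ ^ b *
      _root_.GP.rt3 p τ ^ ((p : ℤ) - a - b)) := by
  rw [_root_.GP.rt_prod, gd, ← _root_.GP.Sq_eq hA.pos.ne' a b (_root_.GP.qq_mem hτ), ← c16_eq,
    _root_.GP.wN, ← Complex.exp_nat_mul]
  have e : (a : ℂ) * (Real.pi * I * τ / p) = Real.pi * I * τ * (a / p) := by ring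
  rw [e, ← _root_.GP.nm_eq, c16]
  ring

theorem F_hasDerivAt {p a b : ℕ} (hA : Adm p a b) {τ : ℂ} (hτ : 0 < τ.im) :
    HasDerivAt (F p a b) (gd p a b τ) τ := by
  have h := _root_.GP.hasDerivAt_FF hA.pos.ne' hA.a0 b hτ
  rw [gd_eq hA hτ]
  refine h.congr_of_eventuallyEq ?_
  filter_upwards [_root_.GP.isOpen_im_pos.mem_nhds hτ] with z hz
  exact F_eq_FF hA hz

theorem add_two_im {τ : ℂ} (hτ : 0 < τ.im) : 0 < (τ + 2).im := by simpa using hτ

theorem F_add_two {p a b : ℕ} (hA : Adm p a b) {τ : ℂ} (hτ : 0 < τ.im) :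
    F p a b (τ + 2) = zet p ^ a * F p a b τ := by
  rw [F_eq_FF hA hτ, F_eq_FF hA (add_two_im hτ), _root_.GP.FF_add_two]
  rfl

theorem F_add_two_mul {p a b : ℕ} (hA : Adm p a b) {τ : ℂ} (hτ : 0 < τ.im) (m : ℤ) :
    F p a b (τ + 2 * m) = (zet p ^ a) ^ m * F p a b τ := by
  have hz : zet p ^ a ≠ 0 := pow_ne_zero _ (Complex.exp_ne_zero _)
  have him : ∀ m : ℤ, 0 < (τ + 2 * m).im := fun m => by
    have : ((2 : ℂ) * m).im = 0 := by simp
    rw [Complex.add_im, this, add_zero]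
    exact hτ
  induction m using Int.induction_on with
  | zero => simp
  | succ n ih =>
    have h := F_add_two hA (him n)
    rw [ih] at h
    rw [zpow_add_one₀ hz]
    have e : τ + 2 * (((n : ℤ) + 1 : ℤ) : ℂ) = τ + 2 * ((n : ℤ) : ℂ) + 2 := by push_cast; ring
    rw [e, h]
    ring
  | pred n ih =>
    have h := F_add_two hA (him (-(n : ℤ) - 1))
    have e : τ + 2 * ((-(n : ℤ) - 1 : ℤ) : ℂ) + 2 = τ + 2 * ((-(n : ℤ) : ℤ) : ℂ) := by
      push_cast; ring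
    rw [e, ih] at h
    rw [zpow_sub_one₀ hz]
    field_simp
    linear_combination -h

/-- bounds and exponential decay for Im tau bounded below -/
theorem F_decay {p a b : ℕ} (hA : Adm p a b) {c : ℝ} (hc : 0 < c) :
    ∃ C : ℝ, 0 < C ∧ ∀ τ : ℂ, c ≤ τ.im →
      ‖F p a b τ‖ ≤ C * Real.exp (-(Real.pi * τ.im / p)) := by
  have hpi := Real.pi_pos
  have hp : (0 : ℝ) < p := by exact_mod_cast hA.pos
  have hr1 : Real.exp (-(Real.pi * c)) < 1 := by
    rw [Real.exp_lt_one_iff]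
    have := mul_pos hpi hc
    linarith
  have hcont : ContinuousOn (_root_.GP.SS (Sq p a b) ((a : ℝ) / p))
      (closedBall (0 : ℂ) (Real.exp (-(Real.pi * c)))) := by
    intro q hq
    have hq' : q ∈ ball (0 : ℂ) 1 := by
      rw [mem_closedBall_zero_iff] at hq
      rw [mem_ball_zero_iff]
      exact hq.trans_lt hr1
    exact (_root_.GP.hasDerivAt_SS (Sq_diff p a b) (div_pos' hA)
      hq').continuousAt.continuousWithinAt
  obtain ⟨B, hB⟩ := (isCompact_closedBall (0 : ℂ) _).exists_bound_of_continuousOn hcont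
  refine ⟨‖c16 p a‖ * |B| + 1, by positivity, fun τ hτ => ?_⟩
  have hτ0 : 0 < τ.im := hc.trans_le hτ
  have hq : nm τ ∈ closedBall (0 : ℂ) (Real.exp (-(Real.pi * c))) := by
    rw [mem_closedBall_zero_iff, norm_nm]
    apply Real.exp_le_exp.2
    have := mul_le_mul_of_nonneg_left hτ hpi.le
    linarith
  have h1 := (hB _ hq).trans (le_abs_self B)
  have h2 : ‖wn p τ‖ ^ a ≤ Real.exp (-(Real.pi * τ.im / p)) := by
    rw [norm_wn hA.pos]
    exact pow_le_of_le_one (Real.exp_pos _).le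
      (Real.exp_le_one_iff.2 (by have : 0 ≤ Real.pi * τ.im / p := by positivity
                                 linarith)) hA.a0.ne'
  rw [F_eq_SS hA hτ0, norm_mul, norm_mul, norm_pow]
  calc ‖c16 p a‖ * ‖wn p τ‖ ^ a * ‖_root_.GP.SS (Sq p a b) ((a : ℝ) / p) (nm τ)‖
      ≤ ‖c16 p a‖ * Real.exp (-(Real.pi * τ.im / p)) * |B| := by gcongr
    _ ≤ (‖c16 p a‖ * |B| + 1) * Real.exp (-(Real.pi * τ.im / p)) := by
      have := Real.exp_pos (-(Real.pi * τ.im / p))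
      nlinarith

theorem norm_gd {p a b : ℕ} (hA : Adm p a b) {τ : ℂ} (hτ : 0 < τ.im) :
    ‖gd p a b τ‖ = Real.pi * ‖th2 τ‖ ^ ((a : ℝ) / p) * ‖th4 τ‖ ^ ((b : ℝ) / p)
      * ‖th3 τ‖ ^ (((p : ℝ) - a - b) / p) := by
  have hp : (0 : ℝ) < p := by exact_mod_cast hA.pos
  have h2 : ‖th2 τ‖ ^ ((a : ℝ) / p) = (16 : ℝ) ^ ((a : ℝ) / p) *
      Real.exp (-(Real.pi * τ.im * (a / p))) * Real.exp ((a * (lW2 (nm τ)).re) / p) := by
    rw [th2, norm_mul, norm_mul, norm_nm, Complex.norm_exp, Complex.norm_ofNat,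
      Real.mul_rpow (by positivity) (by positivity), Real.mul_rpow (by positivity) (by positivity),
      ← Real.exp_mul, ← Real.exp_mul]
    have e1 : -(Real.pi * τ.im) * ((a : ℝ) / p) = -(Real.pi * τ.im * (a / p)) := by ring
    have e2 : (lW2 (nm τ)).re * ((a : ℝ) / p) = (a * (lW2 (nm τ)).re) / p := by ring
    rw [e1, e2]
  have h4 : ‖th4 τ‖ ^ ((b : ℝ) / p) = Real.exp ((b * (lW4 (nm τ)).re) / p) := by
    rw [th4, Complex.norm_exp, ← Real.exp_mul]
    congr 1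
    ring
  have h3 : ‖th3 τ‖ ^ (((p : ℝ) - a - b) / p) =
      Real.exp ((((p : ℝ) - a - b) * (lW4 (-nm τ)).re) / p) := by
    rw [th3, Complex.norm_exp, ← Real.exp_mul]
    congr 1
    ring
  have h5 : ‖Sq p a b (nm τ)‖ = Real.exp ((a * (lW2 (nm τ)).re) / p) *
      Real.exp ((b * (lW4 (nm τ)).re) / p) *
      Real.exp ((((p : ℝ) - a - b) * (lW4 (-nm τ)).re) / p) := by
    rw [Sq, Complex.norm_exp, ← Real.exp_add, ← Real.exp_add]
    congr 1
    have e : (((a : ℂ) * lW2 (nm τ) + (b : ℂ) * lW4 (nm τ) + ((p : ℂ) - a - b) * lW4 (-nm τ)) / p)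
        = (((a : ℝ) : ℂ) * lW2 (nm τ) + ((b : ℝ) : ℂ) * lW4 (nm τ) +
          (((p : ℝ) - a - b : ℝ) : ℂ) * lW4 (-nm τ)) / ((p : ℝ) : ℂ) := by push_cast; rfl
    rw [e, Complex.div_ofReal_re, Complex.add_re, Complex.add_re, Complex.re_ofReal_mul,
      Complex.re_ofReal_mul, Complex.re_ofReal_mul]
    ring
  have h6 : ‖cexp (Real.pi * I * τ * (a / p))‖ = Real.exp (-(Real.pi * τ.im * (a / p))) := by
    rw [Complex.norm_exp]
    congr 1
    have e : (Real.pi : ℂ) * I * τ * (a / p) = ((Real.pi * (a / p) : ℝ) : ℂ) * (I * τ) := by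
      push_cast; ring
    rw [e, Complex.re_ofReal_mul, Complex.I_mul_re]
    ring
  rw [gd, norm_mul, norm_mul, norm_mul, norm_mul, h5, h6, h2, h3, h4, Complex.norm_I,
    Complex.norm_real, Complex.norm_real, Real.norm_of_nonneg Real.pi_pos.le,
    Real.norm_of_nonneg (by positivity)]
  ring

/-- the derivative as a power series: nu-th coefficient (pi i nu / p) fc -/
theorem gd_hasSum {p a b : ℕ} (hA : Adm p a b) {τ : ℂ} (hτ : 0 < τ.im) :
    HasSum (fun ν : ℕ => fc p a b ν * (Real.pi * I * ν / p) * wn p τ ^ ν) (gd p a b τ) := by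
  have hp' : (p : ℂ) ≠ 0 := by exact_mod_cast hA.pos.ne'
  have h0 : ∀ ν : ℕ, fc p a b ν * (Real.pi * I * ν / p) * wn p τ ^ ν =
      fc p a b ν * ((Real.pi * I * ν / p) * wn p τ ^ ν) := fun ν => by ring
  simp only [h0]
  rw [← (inj_mul_add hA.pos a).hasSum_iff (fc_support _)]
  have h := (Sq_hasSum p a b (nm_norm_lt hτ)).mul_left
    (Real.pi * I * c16 p a * wn p τ ^ a)
  have e1 : Real.pi * I * c16 p a * wn p τ ^ a * Sq p a b (nm τ) = gd p a b τ := by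
    rw [gd, wn, ← Complex.exp_nat_mul, c16]
    have e : (a : ℂ) * (Real.pi * I * τ / p) = Real.pi * I * τ * (a / p) := by ring
    rw [e]
  rw [e1] at h
  refine h.congr_fun fun k => ?_
  show fc p a b (p * k + a) * ((Real.pi * I * ((p * k + a : ℕ) : ℂ) / p) *
    wn p τ ^ (p * k + a)) = _
  have h1 : ((k : ℂ) + (((a : ℝ) / p : ℝ) : ℂ)) ≠ 0 := by
    have h2 : ((k : ℂ) + (((a : ℝ) / p : ℝ) : ℂ)) = (((k : ℝ) + (a : ℝ) / p : ℝ) : ℂ) := by
      push_cast; rfl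
    rw [h2, Complex.ofReal_ne_zero]
    have := div_pos' hA
    positivity
  have h3 : (((p * k + a : ℕ) : ℂ)) = p * ((k : ℂ) + (((a : ℝ) / p : ℝ) : ℂ)) := by
    push_cast
    field_simp
  rw [fc_apply hA, pow_add, pow_mul, wn_pow hA.pos, h3]
  field_simp

/-- F is real and positive on the imaginary axis -/
theorem F_im_axis {p a b : ℕ} (hA : Adm p a b) {y : ℝ} (hy : 0 < y) :
    (F p a b (I * y)).im = 0 := by
  rw [F_eq_FF hA (_root_.GP.im_I_mul hy), _root_.GP.FF_I_eq hA.pos.ne' hA.a0 hA.b0 hy,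
    _root_.GP.HH]
  obtain ⟨hx0, hx1⟩ := (_root_.GP.xx_spec hy).2
  have e : ∫ t in (0 : ℝ)..(_root_.GP.xx y), _root_.GP.bf p a b t =
      ∫ t in (0 : ℝ)..(_root_.GP.xx y),
        ((t ^ ((a : ℝ) / p - 1) * (1 - t) ^ ((b : ℝ) / p - 1) : ℝ) : ℂ) := by
    refine intervalIntegral.integral_congr_ae (Filter.Eventually.of_forall fun t ht => ?_)
    rw [Set.uIoc_of_le hx0.le] at ht
    exact _root_.GP.bf_real a b ⟨ht.1, ht.2.trans_lt hx1⟩
  rw [e, intervalIntegral.integral_ofReal, Complex.ofReal_im]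

end Pool.Agent.GP
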