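import Pool.Agent.GP.Perm
import Pool.Agent.GP.FW

/-! Module BLO: the integrals of the first kind are Bloch functions. -/

set_option autoImplicit false

namespace Pool.Agent.GP

open Complex MatrixGroups UpperHalfPlane

/-- the exponents attached to `(th2, th3, th4)` -/
noncomputable def ex (p a b : ℕ) : Fin 3 → ℝ :=
  ![(a : ℝ) / p, ((p : ℝ) - a - b) / p, (b : ℝ) / p]

theorem ex_sum {p a b : ℕ} (hA : Adm p a b) : ∑ i, ex p a b i = 1 := by
  have hp : (p : ℝ) ≠ 0 := by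
    have : 0 < p := lt_trans hA.a0 hA.ap
    exact_mod_cast this.ne'
  rw [Fin.sum_univ_three]
  show (a : ℝ) / p + ((p : ℝ) - a - b) / p + (b : ℝ) / p = 1
  field_simp
  ring

theorem gd_eq_prod {p a b : ℕ} (hA : Adm p a b) (z : ℍ) :
    ‖gd p a b (z : ℂ)‖ * z.im = Real.pi * ∏ i, (mt i (z : ℂ)) ^ (ex p a b i) := by
  have hz : 0 < (z : ℂ).im := z.im_pos
  have him : z.im = (z : ℂ).im := rfl
  have hsum := ex_sum hA
  rw [Fin.sum_univ_three] at hsum
  have e0 : ex p a b 0 = (a : ℝ) / p := rfl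
  have e1 : ex p a b 1 = ((p : ℝ) - a - b) / p := rfl
  have e2 : ex p a b 2 = (b : ℝ) / p := rfl
  rw [e0, e1, e2] at hsum
  rw [norm_gd hA hz, Fin.prod_univ_three, e0, e1, e2, mt_zero, mt_one, mt_two,
    Real.mul_rpow (norm_nonneg _) hz.le, Real.mul_rpow (norm_nonneg _) hz.le,
    Real.mul_rpow (norm_nonneg _) hz.le, him]
  have h1 : (z : ℂ).im ^ ((a : ℝ) / p) * (z : ℂ).im ^ (((p : ℝ) - a - b) / p)
      * (z : ℂ).im ^ ((b : ℝ) / p) = (z : ℂ).im := by
    rw [← Real.rpow_add hz, ← Real.rpow_add hz, hsum, Real.rpow_one]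
  calc Real.pi * ‖th2 (z : ℂ)‖ ^ ((a : ℝ) / p) * ‖th4 (z : ℂ)‖ ^ ((b : ℝ) / p)
        * ‖th3 (z : ℂ)‖ ^ (((p : ℝ) - a - b) / p) * (z : ℂ).im
      = Real.pi * ‖th2 (z : ℂ)‖ ^ ((a : ℝ) / p) * ‖th4 (z : ℂ)‖ ^ ((b : ℝ) / p)
        * ‖th3 (z : ℂ)‖ ^ (((p : ℝ) - a - b) / p)
        * ((z : ℂ).im ^ ((a : ℝ) / p) * (z : ℂ).im ^ (((p : ℝ) - a - b) / p)
          * (z : ℂ).im ^ ((b : ℝ) / p)) := by rw [h1]
    _ = _ := by ring

theorem prod_le {α : Fin 3 → ℝ} (hα : ∀ i, 0 < α i) (hs : ∑ i, α i = 1) :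
    ∃ C : ℝ, 0 < C ∧ ∀ z : ℍ, ∏ i, (mt i (z : ℂ)) ^ (α i) ≤ C := by
  obtain ⟨C, hC, h⟩ := mt_bound_high
  obtain ⟨i₀, -, hi₀⟩ := Finset.exists_min_image Finset.univ α ⟨0, Finset.mem_univ _⟩
  set m := α i₀ with hm
  have hm0 : 0 < m := hα i₀
  have hpi := Real.pi_pos
  refine ⟨C / (Real.pi * m), by positivity, fun z => ?_⟩
  obtain ⟨g, hg⟩ := ModularGroup.exists_smul_mem_fd z
  obtain ⟨σ, hσ⟩ := mt_perm g⁻¹
  have hv : ∀ i, mt i (z : ℂ) = mt (σ i) ((g • z : ℍ) : ℂ) := by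
    intro i
    have h1 := hσ (g • z) i
    rwa [inv_smul_smul] at h1
  set w := g • z with hw
  have hwim : (5:ℝ)/6 ≤ w.im := fd_im hg
  have hw0 := w.im_pos
  obtain ⟨hb0, hb⟩ := h w (by linarith)
  have hCw : 0 < C * w.im := by positivity
  have hfac : ∀ i, (mt i (z : ℂ)) ^ (α i) ≤
      (C * w.im) ^ (α i) * (if σ i = 0 then Real.exp (-(Real.pi * w.im * m)) else 1) := by
    intro i
    rw [hv i]
    by_cases hi : σ i = 0
    · rw [if_pos hi, hi]
      calc (mt 0 (w : ℂ)) ^ (α i) ≤ (C * w.im * Real.exp (-(Real.pi * w.im))) ^ (α i) :=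
            Real.rpow_le_rpow (mt_pos _ _).le hb0 (hα i).le
        _ = (C * w.im) ^ (α i) * Real.exp (-(Real.pi * w.im)) ^ (α i) :=
            Real.mul_rpow hCw.le (Real.exp_pos _).le
        _ ≤ (C * w.im) ^ (α i) * Real.exp (-(Real.pi * w.im * m)) := by
            apply mul_le_mul_of_nonneg_left _ (Real.rpow_nonneg hCw.le _)
            rw [← Real.exp_mul]
            apply Real.exp_le_exp.mpr
            have h1 := hi₀ i (Finset.mem_univ _)
            have h2 : 0 < Real.pi * w.im := by positivity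
            nlinarith
    · rw [if_neg hi, mul_one]
      exact Real.rpow_le_rpow (mt_pos _ _).le (hb _) (hα i).le
  calc ∏ i, (mt i (z : ℂ)) ^ (α i)
      ≤ ∏ i, ((C * w.im) ^ (α i)
          * (if σ i = 0 then Real.exp (-(Real.pi * w.im * m)) else 1)) :=
        Finset.prod_le_prod (fun i _ => Real.rpow_nonneg (mt_pos _ _).le _) (fun i _ => hfac i)
    _ = (∏ i, (C * w.im) ^ (α i))
          * ∏ i, (if σ i = 0 then Real.exp (-(Real.pi * w.im * m)) else 1) :=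
        Finset.prod_mul_distrib
    _ = (C * w.im) * Real.exp (-(Real.pi * w.im * m)) := by
        congr 1
        · rw [← Real.rpow_sum_of_pos hCw, hs, Real.rpow_one]
        · rw [Finset.prod_eq_single (σ⁻¹ 0)]
          · rw [if_pos (by simp)]
          · intro j _ hj
            rw [if_neg]
            intro h0
            apply hj
            rw [← h0]; simp
          · intro h0; exact absurd (Finset.mem_univ _) h0
    _ ≤ C / (Real.pi * m) := by
        have h1 : Real.pi * w.im * m ≤ Real.exp (Real.pi * w.im * m) := by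
          linarith [Real.add_one_le_exp (Real.pi * w.im * m)]
        rw [Real.exp_neg, ← div_eq_mul_inv, div_le_div_iff₀ (Real.exp_pos _) (by positivity)]
        have hC0 : 0 < C := by linarith
        nlinarith [mul_le_mul_of_nonneg_left h1 hC0.le]

/-- Bloch bound (only for a + b < p) -/
theorem gd_le {p a b : ℕ} (hA : Adm p a b) (h : a + b < p) :
    ∃ C : ℝ, 0 < C ∧ ∀ z : ℂ, 0 < z.im → ‖gd p a b z‖ * z.im ≤ C := by
  have hp : (0:ℝ) < p := by
    have : 0 < p := lt_trans hA.a0 hA.ap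
    exact_mod_cast this
  have ha : (0:ℝ) < a := by exact_mod_cast hA.a0
  have hb : (0:ℝ) < b := by exact_mod_cast hA.b0
  have hab : (a:ℝ) + b < p := by exact_mod_cast h
  have hα : ∀ i, 0 < ex p a b i := by
    intro i
    fin_cases i
    · exact div_pos ha hp
    · exact div_pos (by linarith) hp
    · exact div_pos hb hp
  obtain ⟨C, hC, hle⟩ := prod_le hα (ex_sum hA)
  refine ⟨Real.pi * C, mul_pos Real.pi_pos hC, fun z hz => ?_⟩
  have h1 := gd_eq_prod hA ⟨z, hz⟩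
  have h2 : ‖gd p a b z‖ * z.im = Real.pi * ∏ i, (mt i z) ^ (ex p a b i) := h1
  rw [h2]
  exact mul_le_mul_of_nonneg_left (hle ⟨z, hz⟩) Real.pi_pos.le

theorem mt_ge (K : ℝ) : ∃ c : ℝ, 0 < c ∧ ∀ z : ℍ, (∀ g : SL(2, ℤ), (g • z).im ≤ K) →
    ∀ i, c ≤ mt i (z : ℂ) := by
  have hcomp := ModularGroup.isCompact_truncatedFundamentalDomain K
  have h1 : ∀ i : Fin 3, ∃ c : ℝ, 0 < c ∧ ∀ w ∈ ModularGroup.truncatedFundamentalDomain K,
      c ≤ mt i (w : ℂ) := by
    intro i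
    by_cases hne : (ModularGroup.truncatedFundamentalDomain K).Nonempty
    · obtain ⟨w₀, -, hw₀⟩ := hcomp.exists_isMinOn hne (mt_continuous i).continuousOn
      exact ⟨mt i (w₀ : ℂ), mt_pos _ _, fun w hw => hw₀ hw⟩
    · refine ⟨1, one_pos, fun w hw => absurd ⟨w, hw⟩ hne⟩
  choose c hc0 hc using h1
  refine ⟨min (c 0) (min (c 1) (c 2)), lt_min (hc0 0) (lt_min (hc0 1) (hc0 2)), fun z hz i => ?_⟩
  obtain ⟨g, hg⟩ := ModularGroup.exists_smul_mem_fd z
  obtain ⟨σ, hσ⟩ := mt_perm g⁻¹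
  have h1 := hσ (g • z) i
  rw [inv_smul_smul] at h1
  rw [h1]
  refine le_trans ?_ (hc (σ i) (g • z) ⟨hg, hz g⟩)
  have : ∀ j : Fin 3, min (c 0) (min (c 1) (c 2)) ≤ c j := by
    intro j
    fin_cases j
    · exact min_le_left _ _
    · exact (min_le_right _ _).trans (min_le_left _ _)
    · exact (min_le_right _ _).trans (min_le_right _ _)
  exact this _

theorem rpow_ge_min {x c C α : ℝ} (hc : 0 < c) (h1 : c ≤ x) (h2 : x ≤ C) :
    min (c ^ α) (C ^ α) ≤ x ^ α := by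
  have hx : 0 < x := lt_of_lt_of_le hc h1
  rcases le_or_gt 0 α with hα | hα
  · exact (min_le_left _ _).trans (Real.rpow_le_rpow hc.le h1 hα)
  · exact (min_le_right _ _).trans (Real.rpow_le_rpow_of_nonpos hx h2 hα.le)

/-- lower bound on the thick part -/
theorem gd_ge {p a b : ℕ} (hA : Adm p a b) (K : ℝ) :
    ∃ c : ℝ, 0 < c ∧ ∀ z : ℍ, (∀ g : SL(2, ℤ), (g • z).im ≤ K) →
      c ≤ ‖gd p a b (z : ℂ)‖ * z.im := by
  obtain ⟨c, hc0, hc⟩ := mt_ge K
  obtain ⟨C, hC1, hC⟩ := mt_le_of_bound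
  set D : ℝ := max c (C * K) with hD
  have hD0 : 0 < D := lt_of_lt_of_le hc0 (le_max_left _ _)
  refine ⟨Real.pi * ∏ i, min (c ^ (ex p a b i)) (D ^ (ex p a b i)), ?_, fun z hz => ?_⟩
  · apply mul_pos Real.pi_pos
    apply Finset.prod_pos
    intro i _
    exact lt_min (Real.rpow_pos_of_pos hc0 _) (Real.rpow_pos_of_pos hD0 _)
  · rw [gd_eq_prod hA z]
    apply mul_le_mul_of_nonneg_left _ Real.pi_pos.le
    apply Finset.prod_le_prod
    · intro i _
      exact (lt_min (Real.rpow_pos_of_pos hc0 _) (Real.rpow_pos_of_pos hD0 _)).le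
    · intro i _
      exact rpow_ge_min hc0 (hc z hz i) ((hC K z hz i).trans (le_max_right _ _))

end Pool.Agent.GP
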