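import Pool.Agent.GP.Slaw

/-! Module COC: automorphy of all the integrals under the group Gam, arithmetic of the
exponents, the ring Z[zeta] in coordinates. -/

set_option autoImplicit false

namespace Pool.Agent.GP

open Complex MatrixGroups UpperHalfPlane

theorem mem_Un {p t : ℕ} : t ∈ Un p ↔ t < p ∧ p.Coprime t := by
  simp [Un]

theorem card_Un (p : ℕ) : (Un p).card = p.totient := rfl

theorem Dat.adm {p j k : ℕ} (hD : Dat p j k) {t : ℕ} (ht : t ∈ Un p) :
    Adm p (at' p j t) (at' p k t) := by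
  obtain ⟨ht1, ht2⟩ := mem_Un.1 ht
  have hp : 0 < p := by have := hD.p3; omega
  have h3 := hD.p3
  have hk : ¬ p ∣ t * k := fun h => hD.k0 (ht2.dvd_of_dvd_mul_left h)
  have hj : ¬ p ∣ t * j := fun h => by
    have h1 := ht2.dvd_of_dvd_mul_left h
    have h2 := Nat.Coprime.eq_one_of_dvd hD.j0.symm h1
    omega
  refine ⟨?_, Nat.mod_lt _ hp, ?_, Nat.mod_lt _ hp, ?_⟩
  · exact Nat.pos_of_ne_zero fun h => hj (Nat.dvd_of_mod_eq_zero h)
  · exact Nat.pos_of_ne_zero fun h => hk (Nat.dvd_of_mod_eq_zero h)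
  · intro h
    apply hD.jk
    refine ht2.dvd_of_dvd_mul_left (?_ : p ∣ t * (j + k))
    rw [mul_add, Nat.dvd_iff_mod_eq_zero, Nat.add_mod]
    change (at' p j t + at' p k t) % p = 0
    rw [h, Nat.mod_self]

/-- different conjugates have different exponents -/
theorem at_inj {p j k : ℕ} (hD : Dat p j k) {s t : ℕ} (hs : s ∈ Un p) (ht : t ∈ Un p)
    (h : at' p j s = at' p j t) : s = t := by
  have h1 : s * j ≡ t * j [MOD p] := h
  have h2 : s ≡ t [MOD p] := Nat.ModEq.cancel_right_of_coprime hD.j0.symm h1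
  exact Nat.ModEq.eq_of_lt_of_lt h2 (mem_Un.1 hs).1 (mem_Un.1 ht).1

theorem Un_pos {p t : ℕ} (hp : 2 ≤ p) (ht : t ∈ Un p) : 0 < t := by
  rcases Nat.eq_zero_or_pos t with rfl | h
  · have := (mem_Un.1 ht).2
    rw [Nat.coprime_zero_right] at this
    omega
  · exact h

theorem sub_mem_Un {p t : ℕ} (hp : 2 ≤ p) (ht : t ∈ Un p) : p - t ∈ Un p := by
  have h0 := Un_pos hp ht
  obtain ⟨h1, h2⟩ := mem_Un.1 ht
  rw [mem_Un]
  exact ⟨by omega, (Nat.coprime_self_sub_right h1.le).2 h2⟩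

theorem at_neg {p j t : ℕ} (h : t ≤ p) (h0 : 0 < at' p j t) (hp : 0 < p) :
    at' p j (p - t) = p - at' p j t := by
  have hlt : at' p j t < p := Nat.mod_lt _ hp
  have h1 : at' p j (p - t) < p := Nat.mod_lt _ hp
  have h2 : (at' p j (p - t) + at' p j t) % p = 0 := by
    unfold at'
    rw [← Nat.add_mod, ← add_mul, Nat.sub_add_cancel h, Nat.mul_mod_right]
  have h3 : p ∣ at' p j (p - t) + at' p j t := Nat.dvd_of_mod_eq_zero h2
  obtain ⟨c, hc⟩ := h3
  have h4 : c = 1 := by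
    have h5 : 0 < c := by
      rcases Nat.eq_zero_or_pos c with rfl | h
      · omega
      · exact h
    have h6 : c < 2 := by
      by_contra hcon
      have : 2 ≤ c := by omega
      have : p * 2 ≤ p * c := Nat.mul_le_mul_left p this
      omega
    omega
  subst h4
  omega

/-- complex conjugation exchanges the first kind and the second kind -/
theorem Phi_neg {p j k : ℕ} (hD : Dat p j k) {t : ℕ} (ht : t ∈ Un p) :
    t ∈ Phi p j k ↔ p - t ∉ Phi p j k := by
  have h3 := hD.p3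
  have hs := sub_mem_Un (by omega) ht
  have hA := hD.adm ht
  have h1 := (mem_Un.1 ht).1
  unfold Phi
  rw [Finset.mem_filter, Finset.mem_filter, at_neg h1.le hA.a0 (by omega),
    at_neg h1.le hA.b0 (by omega)]
  have ha := hA.a0
  have hap := hA.ap
  have hb := hA.b0
  have hbp := hA.bp
  have hab := hA.ab
  simp only [ht, hs, true_and]
  omega

theorem zet_pow {p : ℕ} (hp : 0 < p) : zet p ^ p = 1 := _root_.GP.zN_pow hp.ne'

theorem zet_norm {p : ℕ} (hp : 0 < p) : ‖zet p‖ = 1 :=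
  (_root_.GP.zN_prim hp.ne').norm'_eq_one hp.ne'

theorem sg_conj {p : ℕ} (hp : 2 ≤ p) {t : ℕ} (ht : t ∈ Un p) (u : Fin p.totient → ℤ) :
    sg p (p - t) u = starRingEnd ℂ (sg p t u) := by
  have h1 := (mem_Un.1 ht).1
  unfold sg
  rw [map_sum]
  refine Finset.sum_congr rfl fun i _ => ?_
  rw [map_mul, map_pow]
  congr 1
  · simp
  · have hz0 : zet p ≠ 0 := Complex.exp_ne_zero _
    have hc : (starRingEnd ℂ) (zet p) = (zet p)⁻¹ := by
      rw [Complex.inv_def, Complex.normSq_eq_norm_sq, zet_norm (by omega)]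
      simp
    rw [hc, inv_pow]
    refine eq_inv_of_mul_eq_one_left ?_
    rw [← pow_add, ← add_mul, Nat.sub_add_cancel h1.le, pow_mul, zet_pow (by omega), one_pow]

theorem nrm_eq {p j k : ℕ} (hD : Dat p j k) (u : Fin p.totient → ℤ) :
    nrm p u = 2 * ∑ t ∈ Phi p j k, ‖sg p t u‖ ^ 2 := by
  classical
  have h3 := hD.p3
  have hsub : Phi p j k ⊆ Un p := Finset.filter_subset _ _
  have h1 : ∑ t ∈ Un p \ Phi p j k, ‖sg p t u‖ ^ 2 = ∑ t ∈ Phi p j k, ‖sg p t u‖ ^ 2 := by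
    refine Finset.sum_nbij' (fun t => p - t) (fun t => p - t) ?_ ?_ ?_ ?_ ?_
    · intro t ht
      rw [Finset.mem_sdiff] at ht
      by_contra h
      exact ht.2 ((Phi_neg hD ht.1).2 h)
    · intro t ht
      have ht' := hsub ht
      rw [Finset.mem_sdiff]
      exact ⟨sub_mem_Un (by omega) ht', (Phi_neg hD ht').1 ht⟩
    · intro t ht
      have := (mem_Un.1 (Finset.mem_sdiff.1 ht).1).1
      show p - (p - t) = t
      omega
    · intro t ht
      have := (mem_Un.1 (hsub ht)).1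
      show p - (p - t) = t
      omega
    · intro t ht
      rw [sg_conj (by omega) (Finset.mem_sdiff.1 ht).1, RCLike.norm_conj]
  rw [nrm, ← Finset.sum_sdiff hsub, h1]
  ring

theorem sg_add (p t : ℕ) (u v : Fin p.totient → ℤ) :
    sg p t (u + v) = sg p t u + sg p t v := by
  unfold sg
  rw [← Finset.sum_add_distrib]
  refine Finset.sum_congr rfl fun i _ => ?_
  rw [Pi.add_apply]
  push_cast
  ring

open Polynomial in
/-- coordinates of the value of an integer polynomial -/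
theorem exists_sg {p : ℕ} (hp : 0 < p) (P : ℤ[X]) :
    ∃ v : Fin p.totient → ℤ, ∀ t : ℕ, p.Coprime t → sg p t v = aeval (zet p ^ t) P := by
  set Q := P %ₘ cyclotomic p ℤ with hQ
  have hdeg : Q.natDegree < p.totient := by
    have h1 := natDegree_modByMonic_lt P (cyclotomic.monic p ℤ) (by
      intro h1
      have h2 := congrArg natDegree h1
      rw [natDegree_cyclotomic, natDegree_one] at h2
      exact (Nat.totient_pos.2 hp).ne' h2)
    rwa [natDegree_cyclotomic] at h1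
  refine ⟨fun i => Q.coeff i, fun t ht => ?_⟩
  have hprim : IsPrimitiveRoot (zet p ^ t) p :=
    (_root_.GP.zN_prim hp.ne').pow_of_coprime t ht.symm
  have hroot : aeval (zet p ^ t) (cyclotomic p ℤ) = 0 := by
    have h1 := hprim.isRoot_cyclotomic hp
    rw [IsRoot.def, ← map_cyclotomic_int, eval_map] at h1
    exact h1
  have h1 : aeval (zet p ^ t) P = aeval (zet p ^ t) Q := by
    conv_lhs => rw [← modByMonic_add_div P (cyclotomic p ℤ)]
    rw [map_add, map_mul, hroot, zero_mul, add_zero]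
  rw [h1, aeval_eq_sum_range' hdeg, Finset.sum_range, sg]
  refine Finset.sum_congr rfl fun i _ => ?_
  rw [← pow_mul, zsmul_eq_mul]

open Polynomial in
/-- multiplication by a power of zeta in coordinates -/
theorem sg_mul_zet {p : ℕ} (hp : 0 < p) (κ : ℕ) (u : Fin p.totient → ℤ) :
    ∃ v : Fin p.totient → ℤ, ∀ t : ℕ, p.Coprime t → sg p t v = zet p ^ (t * κ) * sg p t u := by
  obtain ⟨v, hv⟩ := exists_sg hp (X ^ κ * ∑ i : Fin p.totient, C (u i) * X ^ (i : ℕ))
  refine ⟨v, fun t ht => ?_⟩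
  rw [hv t ht, map_mul, map_pow, aeval_X, map_sum, pow_mul, sg]
  congr 1
  refine Finset.sum_congr rfl fun i _ => ?_
  rw [map_mul, map_pow, aeval_X, aeval_C, pow_mul]
  simp

theorem coc_g2_eq : g2 = ModularGroup.S * ModularGroup.T ^ 2 * ModularGroup.S⁻¹ := by
  apply Subtype.ext
  decide

theorem coc_Gam_eq : Gam = _root_.GP.GamPM := by
  rw [Gam, _root_.GP.GamPM, coc_g2_eq]

theorem Gam_entries {g : SL(2, ℤ)} (hg : g ∈ Gam) :
    Odd (g 0 0) ∧ Even (g 0 1) ∧ Even (g 1 0) ∧ Odd (g 1 1) := by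
  rw [coc_Gam_eq] at hg
  exact _root_.GP.Gam_parity hg

theorem T2_mem (m : ℤ) : ModularGroup.T ^ (2 * m) ∈ Gam := by
  rw [zpow_mul]
  exact Gam.zpow_mem (Subgroup.subset_closure (by
    left
    norm_cast)) m

theorem g2_mem : g2 ∈ Gam := Subgroup.subset_closure (by simp)

theorem cd_neg (γ : SL(2, ℤ)) (z : ℂ) : _root_.GP.cd (-γ) z = -_root_.GP.cd γ z := by
  unfold _root_.GP.cd
  simp only [Matrix.SpecialLinearGroup.coe_neg, Matrix.neg_apply]
  push_cast
  ring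

/-- automorphy of the theta functions -/
theorem th_Gam {g : SL(2, ℤ)} (hg : g ∈ Gam) (z : ℍ) :
    th2 ((g • z : ℍ) : ℂ) = ((g 1 0 : ℤ) * (z : ℂ) + (g 1 1 : ℤ)) ^ 2 * th2 z ∧
    th3 ((g • z : ℍ) : ℂ) = ((g 1 0 : ℤ) * (z : ℂ) + (g 1 1 : ℤ)) ^ 2 * th3 z ∧
    th4 ((g • z : ℍ) : ℂ) = ((g 1 0 : ℤ) * (z : ℂ) + (g 1 1 : ℤ)) ^ 2 * th4 z := by
  rw [coc_Gam_eq] at hg
  rw [_root_.GP.th2_eq' (g • z).im_pos, _root_.GP.th3_eq' (g • z).im_pos,
    _root_.GP.th4_eq' (g • z).im_pos, _root_.GP.th2_eq' z.im_pos, _root_.GP.th3_eq' z.im_pos,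
    _root_.GP.th4_eq' z.im_pos]
  rcases _root_.GP.mem_GamPM_iff hg with h | h
  · exact ⟨_root_.GP.th2_Gam h z, _root_.GP.th3_Gam h z, _root_.GP.th4_Gam h z⟩
  · have h2 := _root_.GP.th2_Gam h z
    have h3 := _root_.GP.th3_Gam h z
    have h4 := _root_.GP.th4_Gam h z
    rw [ModularGroup.SL_neg_smul, cd_neg, neg_sq] at h2 h3 h4
    exact ⟨h2, h3, h4⟩

/-- automorphy of the integrals -/
theorem exists_Coc {p j k : ℕ} (hD : Dat p j k) {g : SL(2, ℤ)} (hg : g ∈ Gam) :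
    ∃ (κ : ℕ) (u : Fin p.totient → ℤ), Coc p j k g κ u := by
  have hp : p ≠ 0 := by have := hD.p3; omega
  have key : ∀ γ : SL(2, ℤ), γ ∈ _root_.GP.Gam →
      ∃ (κ : ℕ) (u : Fin p.totient → ℤ), Coc p j k γ κ u := by
    intro γ hγ
    obtain ⟨κ, u, h⟩ := _root_.GP.FF_Gam' hp j k hγ
    refine ⟨κ, u, fun z t ht => ?_⟩
    have hA := hD.adm ht
    rw [F_eq_FF hA (γ • z).im_pos, F_eq_FF hA z.im_pos]
    exact h t _ _ (mem_Un.1 ht).2.symm hA.a0 hA.b0 (Nat.mod_modEq _ _) (Nat.mod_modEq _ _) z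
  rw [coc_Gam_eq] at hg
  rcases _root_.GP.mem_GamPM_iff hg with h | h
  · exact key g h
  · obtain ⟨κ, u, hc⟩ := key (-g) h
    refine ⟨κ, u, fun z t ht => ?_⟩
    have h1 := hc z t ht
    rwa [ModularGroup.SL_neg_smul] at h1

/-- translating by T^(2 p m) does not change the automorphy data -/
theorem Coc_T {p j k : ℕ} (hD : Dat p j k) {g : SL(2, ℤ)} {κ : ℕ} {u : Fin p.totient → ℤ}
    (h : Coc p j k g κ u) (m : ℤ) : Coc p j k (ModularGroup.T ^ (2 * (p : ℤ) * m) * g) κ u := by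
  have hp : 0 < p := by have := hD.p3; omega
  intro z t ht
  have hA := hD.adm ht
  rw [mul_smul, ← h z t ht]
  have e : ((ModularGroup.T ^ (2 * (p : ℤ) * m) • (g • z) : ℍ) : ℂ) =
      ((g • z : ℍ) : ℂ) + 2 * (((p : ℤ) * m : ℤ) : ℂ) := by
    rw [ModularGroup.coe_T_zpow_smul_eq]
    push_cast
    ring
  rw [e, F_add_two_mul hA (g • z).im_pos, zpow_mul, zpow_natCast, ← pow_mul, mul_comm _ p,
    pow_mul, zet_pow hp, one_pow, one_zpow, one_mul]

end Pool.Agent.GP
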