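import Pool.Agent.GP.Coc
import Pool.Agent.Helper32.GP.Cusp4

/-! Module CUSP: reduction theory for the group Gam and the size of the cusp regions. -/

set_option autoImplicit false

namespace Pool.Agent.GP

open Complex MatrixGroups UpperHalfPlane MeasureTheory

theorem rep_conj (g : SL(2, ℤ)) : ∀ δ ∈ _root_.GP.GamPM,
    g * δ * g⁻¹ ∈ _root_.GP.GamPM ∧ g⁻¹ * δ * g ∈ _root_.GP.GamPM := by
  have hg : g ∈ Subgroup.closure ({ModularGroup.S, ModularGroup.T} : Set SL(2, ℤ)) := by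
    rw [SpecialLinearGroup.SL2Z_generators]; trivial
  induction hg using Subgroup.closure_induction with
  | mem x hx =>
    intro δ hδ
    simp only [Set.mem_insert_iff, Set.mem_singleton_iff] at hx
    rcases hx with rfl | rfl
    · refine ⟨_root_.GP.conj_S hδ, ?_⟩
      have h1 : (ModularGroup.S⁻¹ : SL(2, ℤ)) = -ModularGroup.S := by decide
      have h3 : ModularGroup.S = (-(ModularGroup.S⁻¹) : SL(2, ℤ)) := by decide
      have e : ModularGroup.S⁻¹ * δ * ModularGroup.S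
            = ModularGroup.S * δ * ModularGroup.S⁻¹ := by
        calc ModularGroup.S⁻¹ * δ * ModularGroup.S
            = (-ModularGroup.S) * δ * (-(ModularGroup.S⁻¹)) := by rw [← h1, ← h3]
          _ = _ := by rw [neg_mul, neg_mul_neg]
      rw [e]; exact _root_.GP.conj_S hδ
    · refine ⟨_root_.GP.conj_T hδ, ?_⟩
      have e : ModularGroup.T⁻¹ * δ * ModularGroup.T
            = (ModularGroup.T ^ 2)⁻¹ * (ModularGroup.T * δ * ModularGroup.T⁻¹)
              * (ModularGroup.T ^ 2) := by group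
      rw [e]
      exact _root_.GP.GamPM.mul_mem (_root_.GP.GamPM.mul_mem
          (_root_.GP.GamPM.inv_mem _root_.GP.T2_mem') (_root_.GP.conj_T hδ)) _root_.GP.T2_mem'
  | one => intro δ hδ; simpa using hδ
  | mul x y _ _ hx hy =>
    intro δ hδ
    have e : x * y * δ * (x * y)⁻¹ = x * (y * δ * y⁻¹) * x⁻¹ := by group
    have e' : (x * y)⁻¹ * δ * (x * y) = y⁻¹ * (x⁻¹ * δ * x) * y := by group
    rw [e, e']
    exact ⟨(hx _ (hy δ hδ).1).1, (hy _ (hx δ hδ).2).2⟩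
  | inv x _ hx =>
    intro δ hδ
    rw [inv_inv]
    exact ⟨(hx δ hδ).2, (hx δ hδ).1⟩

theorem red_aux (z : ℍ) {K : ℝ} (hK : 1 ≤ K) (h : ∀ g : SL(2, ℤ), (g • z).im ≤ K) :
    ∃ γ ∈ _root_.GP.GamPM, ∃ z' : ℍ, z = γ • z' ∧ 1 / (2 * K) ≤ z'.im ∧ z'.im ≤ K := by
  obtain ⟨g, hg⟩ := ModularGroup.exists_smul_mem_fd z
  obtain ⟨γ₀, hγ₀, r, hr, hgr⟩ := _root_.GP.PS_all g⁻¹
  set w := g • z with hw
  have hzw : z = γ₀ • (r • w) := by
    rw [← mul_smul, ← hgr, hw, inv_smul_smul]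
  have hwK : w.im ≤ K := h g
  have hw3 := ModularGroup.three_le_four_mul_im_sq_of_mem_fd hg
  have hw0 := w.im_pos
  have hwre : |w.re| ≤ 1 / 2 := hg.2
  have hn : 1 ≤ w.re ^ 2 + w.im ^ 2 := by
    have := hg.1
    rw [Complex.normSq_apply] at this
    have e1 : (w : ℂ).re = w.re := rfl
    have e2 : (w : ℂ).im = w.im := rfl
    rw [e1, e2] at this
    nlinarith
  have hre2 := abs_le.mp hwre
  have hv : (5:ℝ)/6 ≤ w.im := by
    by_contra hlt
    push Not at hlt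
    nlinarith
  have hKv : w.im * w.im ≤ w.im * K := mul_le_mul_of_nonneg_left hwK hw0.le
  have hKv1 : w.im ≤ w.im * K := by nlinarith
  obtain ⟨hc, hd⟩ := _root_.GP.reps_bottom hr
  -- the generic estimate
  have main : ∀ (s : SL(2, ℤ)) (d : ℝ), (s 1 0 : ℝ) = 1 → (s 1 1 : ℝ) = d →
      (w.re + d) ^ 2 ≤ w.im → 1 / (2 * K) ≤ (s • w).im := by
    intro s d hs1 hs2 hle
    rw [_root_.GP.im_smul_eq', hs1, hs2, one_mul, one_mul,
      div_le_div_iff₀ (by linarith) (by positivity)]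
    nlinarith
  by_cases hc0 : r 1 0 = 0
  · refine ⟨γ₀, hγ₀, r • w, hzw, ?_, ?_⟩
    · have hd1 : r 1 1 = 1 := by
        rcases hd with hd | hd
        · have hdet := r.det_coe
          rw [Matrix.det_fin_two] at hdet
          have h1 : (r : Matrix (Fin 2) (Fin 2) ℤ) 1 0 = 0 := hc0
          have h2 : (r : Matrix (Fin 2) (Fin 2) ℤ) 1 1 = 0 := hd
          rw [h1, h2] at hdet
          norm_num at hdet
        · exact hd
      rw [_root_.GP.im_smul_eq', hc0, hd1]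
      push_cast
      rw [div_le_div_iff₀ (by linarith) (by norm_num)]
      nlinarith
    · rw [hw, ← mul_smul]; exact h _
  · have hc1 : r 1 0 = 1 := by
      rcases hc with hc | hc
      · exact absurd hc hc0
      · exact hc
    rcases hd with hd | hd
    · refine ⟨γ₀, hγ₀, r • w, hzw, ?_, ?_⟩
      · apply main r 0 (by rw [hc1]; norm_num) (by rw [hd]; norm_num)
        nlinarith
      · rw [hw, ← mul_smul]; exact h _
    · rcases le_or_gt w.re 0 with hre | hre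
      · refine ⟨γ₀, hγ₀, r • w, hzw, ?_, ?_⟩
        · apply main r 1 (by rw [hc1]; norm_num) (by rw [hd]; norm_num)
          -- (1 - s)^2 ≤ v with v^2 ≥ 1 - s^2
          have h1 : (w.re + 1) ^ 2 ≤ 1 := by nlinarith
          by_contra hlt
          push Not at hlt
          have h2 : w.im < 1 := by linarith
          nlinarith [sq_nonneg (w.re), mul_pos hw0 hw0]
        · rw [hw, ← mul_smul]; exact h _
      · set r' := r * (ModularGroup.T ^ 2)⁻¹ with hr'
        have hγ' : γ₀ * (r * ModularGroup.T ^ 2 * r⁻¹) ∈ _root_.GP.GamPM :=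
          _root_.GP.GamPM.mul_mem hγ₀ (rep_conj r _ _root_.GP.T2_mem').1
        have hz' : z = (γ₀ * (r * ModularGroup.T ^ 2 * r⁻¹)) • (r' • w) := by
          rw [← mul_smul, hr']
          have e : γ₀ * (r * ModularGroup.T ^ 2 * r⁻¹) * (r * (ModularGroup.T ^ 2)⁻¹) = γ₀ * r := by
            group
          rw [e, mul_smul]; exact hzw
        have hr1 : r' 1 0 = 1 ∧ r' 1 1 = -1 := by
          simp only [_root_.GP.reps, List.mem_cons, List.not_mem_nil, or_false] at hr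
          rcases hr with h1 | h1 | h1 | h1 | h1 | h1 <;> rw [h1] at hc1 hd
          · exact absurd hc1 (by decide)
          · exact absurd hc1 (by decide)
          · exact absurd hd (by decide)
          · exact absurd hd (by decide)
          · rw [hr', h1]; decide
          · rw [hr', h1]; decide
        refine ⟨_, hγ', r' • w, hz', ?_, ?_⟩
        · apply main r' (-1) (by rw [hr1.1]; norm_num) (by rw [hr1.2]; norm_num)
          have h1 : (w.re + -1) ^ 2 ≤ 1 := by nlinarith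
          by_contra hlt
          push Not at hlt
          have h2 : w.im < 1 := by linarith
          nlinarith [sq_nonneg (w.re), mul_pos hw0 hw0]
        · rw [hw, ← mul_smul]; exact h _

/-- reduction of a point of the thick part -/
theorem red (z : ℍ) {K : ℝ} (hK : 1 ≤ K) (h : ∀ g : SL(2, ℤ), (g • z).im ≤ K) :
    ∃ γ ∈ Gam, ∃ z' : ℍ, z = γ • z' ∧ |z'.re| ≤ 1 ∧ 1 / (2 * K) ≤ z'.im ∧ z'.im ≤ K := by
  obtain ⟨γ₀, hγ₀, z'', hz'', hlow, hup⟩ := red_aux z hK h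
  set m : ℤ := round (z''.re / 2) with hm
  have hround : |z''.re / 2 - m| ≤ 1 / 2 := abs_sub_round _
  have hTm : ModularGroup.T ^ (2 * m) ∈ _root_.GP.GamPM := by
    rw [_root_.zpow_mul]
    have : (ModularGroup.T ^ (2:ℤ) : SL(2, ℤ)) = ModularGroup.T ^ 2 := by norm_cast
    rw [this]
    exact _root_.GP.GamPM.zpow_mem _root_.GP.T2_mem' m
  set z' := ModularGroup.T ^ (-(2 * m)) • z'' with hz'
  have hzz : z = (γ₀ * ModularGroup.T ^ (2 * m)) • z' := by
    rw [mul_smul, hz', ← mul_smul (ModularGroup.T ^ (2*m)), ← _root_.zpow_add, add_neg_cancel,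
      zpow_zero, one_smul]
    exact hz''
  have hre' : |z'.re| ≤ 1 := by
    rw [hz', ModularGroup.re_T_zpow_smul]
    have h1 := abs_le.mp hround
    rw [abs_le]
    push_cast
    constructor <;> linarith [h1.1, h1.2]
  have him' : z'.im = z''.im := by rw [hz', ModularGroup.im_T_zpow_smul]
  rw [coc_Gam_eq]
  exact ⟨_, _root_.GP.GamPM.mul_mem hγ₀ hTm, z', hzz, hre', by rw [him']; exact hlow,
    by rw [him']; exact hup⟩

/-- the thin part of a horocycle is small -/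
theorem deep {p : ℕ} (hp : 0 < p) {h K : ℝ} (h0 : 0 < h) (h1 : h ≤ 1) (hK : 1 ≤ K) :
    volume {x : ℝ | x ∈ Set.Icc (0 : ℝ) (2 * p) ∧
      ∃ g : SL(2, ℤ), K < (g • (⟨(x : ℂ) + Complex.I * h, by simpa using h0⟩ : ℍ)).im}
      ≤ ENNReal.ofReal (8 * p / K) := by
  have hsub : {x : ℝ | x ∈ Set.Icc (0 : ℝ) (2 * p) ∧
      ∃ g : SL(2, ℤ), K < (g • (⟨(x : ℂ) + Complex.I * h, by simpa using h0⟩ : ℍ)).im}
      ⊆ _root_.GP.deep p h K := by
    rintro x ⟨hx, g, hg⟩
    refine _root_.GP.deep_of_im hx.1 hx.2 _ ?_ ?_ g hg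
    · show ((x : ℂ) + Complex.I * h).re = x
      simp
    · show ((x : ℂ) + Complex.I * h).im = h
      simp
  refine (measure_mono hsub).trans ((_root_.GP.volume_deep_le hp h0 h1 hK).trans ?_)
  apply ENNReal.ofReal_le_ofReal
  have hp0 : (0:ℝ) < p := by exact_mod_cast hp
  apply div_le_div_of_nonneg_right _ (by linarith)
  linarith

/-- distance to the cusp a/c -/
theorem cusp_dist (γ : SL(2, ℤ)) (z' : ℍ) (hc : γ 1 0 ≠ 0) :
    ‖((γ • z' : ℍ) : ℂ) - ((γ 0 0 : ℤ) : ℂ) / ((γ 1 0 : ℤ) : ℂ)‖ ^ 2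
      * ((γ 1 0 : ℤ) : ℝ) ^ 2 * z'.im = (γ • z').im := by
  have hz' := z'.im_pos
  have hcR : (γ 1 0 : ℝ) ≠ 0 := by exact_mod_cast hc
  rw [_root_.GP.smul_sub_cusp γ z' hc, norm_div, norm_neg, norm_one, norm_mul,
    ModularGroup.im_smul_eq_div_normSq, Complex.normSq_eq_norm_sq]
  have h10 : ‖(γ 1 0 : ℂ)‖ = |(γ 1 0 : ℝ)| := Complex.norm_intCast _
  rw [h10]
  have hdn : ‖denom γ z'‖ ≠ 0 := norm_ne_zero_iff.mpr (denom_ne_zero _ _)
  have habs : |(γ 1 0 : ℝ)| ^ 2 = (γ 1 0 : ℝ) ^ 2 := sq_abs _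
  rw [div_pow, mul_pow, habs, one_pow]
  field_simp

theorem cusp_im (γ : SL(2, ℤ)) (z' : ℍ) :
    ((γ 1 0 : ℤ) : ℝ) ^ 2 * (γ • z').im * z'.im ≤ 1 := by
  have hz' := z'.im_pos
  have h3 := normSq_denom_pos (γ : GL (Fin 2) ℝ) (z := (z' : ℂ)) hz'.ne'
  rw [ModularGroup.im_smul_eq_div_normSq]
  have e : ((γ 1 0 : ℤ) : ℝ) ^ 2 * (z'.im / normSq (denom γ z')) * z'.im
      = (((γ 1 0 : ℤ) : ℝ) * z'.im) ^ 2 / normSq (denom γ z') := by ring
  rw [e, div_le_one h3, _root_.GP.normSq_denom_eq]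
  nlinarith [sq_nonneg ((γ 1 0 : ℝ) * z'.re + (γ 1 1 : ℝ))]

/-- the excursion into the cusp a/c seen from the horocycle of height y -/
theorem cusp_in (γ : SL(2, ℤ)) (z' : ℍ) {x y : ℝ} (hy : 0 < y) (hc : 0 < γ 1 0)
    (hz : ((γ • z' : ℍ) : ℂ) = (x : ℂ) + Complex.I * y)
    (hx : |x - ((γ 0 0 : ℤ) : ℝ) / ((γ 1 0 : ℤ) : ℝ)| ≤ y) :
    1 / (2 * ((γ 1 0 : ℤ) : ℝ) ^ 2 * y) ≤ z'.im ∧ z'.im ≤ 1 / (((γ 1 0 : ℤ) : ℝ) ^ 2 * y) ∧
    ‖((γ 1 0 : ℤ) : ℂ) * (z' : ℂ) + ((γ 1 1 : ℤ) : ℂ)‖ ^ 2 = z'.im / y := by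
  have hre : (γ • z').re = x := by
    show ((γ • z' : ℍ) : ℂ).re = x
    rw [hz]; simp
  have him : (γ • z').im = y := by
    show ((γ • z' : ℍ) : ℂ).im = y
    rw [hz]; simp
  have h1 := _root_.GP.im_inv_smul_bounds (γ := γ) (γ • z') hc.ne' (by rw [hre, him]; exact hx)
  rw [inv_smul_smul, him] at h1
  have h2 := _root_.GP.norm_denom_of_smul (γ := γ) (z := γ • z') (z' := z') rfl
  rw [him, ModularGroup.denom_apply] at h2
  exact ⟨h1.1, h1.2, h2⟩

end Pool.Agent.GP
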