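import Mathlib

/-! Littlewood-Offord for random signs and a bound for the number of words with sum zero. -/

namespace Pool.Agent.GP.Ded

open Finset

/-- the sign of a Boolean -/
def sg (b : Bool) : ℤ := if b then 1 else -1

lemma sg_not (b : Bool) : sg (!b) = - sg b := by cases b <;> rfl

/-- Littlewood-Offord (Erdos) -/
theorem littlewood_offord {α : Type} [Fintype α] [DecidableEq α] (w : α → ℚ)
    (hw : ∀ i, w i ≠ 0) (x : ℚ) :
    (univ.filter fun ε : α → Bool => ∑ i, (sg (ε i) : ℚ) * w i = x).card ≤
      (Fintype.card α).choose (Fintype.card α / 2) := by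
  classical
  let A : (α → Bool) → Finset α := fun ε => univ.filter fun i => (ε i = true ↔ 0 < w i)
  have hAinj : Function.Injective A := by
    intro ε ε' h
    funext i
    have h1 : i ∈ A ε ↔ i ∈ A ε' := by rw [h]
    simp only [A, mem_filter, mem_univ, true_and] at h1
    by_cases h : 0 < w i
    · simp only [h, iff_true] at h1
      exact Bool.eq_iff_iff.2 h1
    · simp only [h, iff_false, Bool.not_eq_true] at h1
      cases h2 : ε i
      · exact (h1.1 h2).symm
      · cases h3 : ε' i
        · rw [h1.2 h3] at h2; exact absurd h2 (by decide)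
        · rfl
  have hterm : ∀ ε i, (sg (ε i) : ℚ) * w i = if i ∈ A ε then |w i| else -|w i| := by
    intro ε i
    simp only [A, mem_filter, mem_univ, true_and]
    rcases lt_or_gt_of_ne (hw i) with h | h
    · rw [abs_of_neg h]
      cases h2 : ε i
      · have : ((false = true) ↔ 0 < w i) := by simp [h.le]
        rw [if_pos this]; simp [sg]
      · have : ¬ ((true = true) ↔ 0 < w i) := by simp [h.le]
        rw [if_neg this]; simp [sg]
    · rw [abs_of_pos h]
      cases h2 : ε i
      · have : ¬ ((false = true) ↔ 0 < w i) := by simp [h]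
        rw [if_neg this]; simp [sg]
      · have : ((true = true) ↔ 0 < w i) := by simp [h]
        rw [if_pos this]; simp [sg]
  set S := univ.filter fun ε : α → Bool => ∑ i, (sg (ε i) : ℚ) * w i = x with hS
  have hanti : IsAntichain (· ⊆ ·) ((S.image A : Finset (Finset α)) : Set (Finset α)) := by
    intro a ha b hb hne hsub
    rw [Finset.mem_coe, mem_image] at ha hb
    obtain ⟨ε, hε, rfl⟩ := ha
    obtain ⟨ε', hε', rfl⟩ := hb
    rw [hS, mem_filter] at hε hε'
    have h1 : ∑ i, (sg (ε i) : ℚ) * w i < ∑ i, (sg (ε' i) : ℚ) * w i := by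
      obtain ⟨i0, hi0, hi0'⟩ : ∃ i ∈ A ε', i ∉ A ε := by
        by_contra hcon
        push Not at hcon
        exact hne (Subset.antisymm hsub hcon)
      apply Finset.sum_lt_sum
      · intro i _
        rw [hterm, hterm]
        by_cases h2 : i ∈ A ε
        · rw [if_pos h2, if_pos (hsub h2)]
        · rw [if_neg h2]
          split_ifs
          · linarith [abs_nonneg (w i)]
          · exact le_refl _
      · refine ⟨i0, mem_univ _, ?_⟩
        rw [hterm, hterm, if_neg hi0', if_pos hi0]
        have := abs_pos.2 (hw i0)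
        linarith
    rw [hε.2, hε'.2] at h1
    exact lt_irrefl _ h1
  have h := hanti.sperner
  rwa [card_image_of_injective _ hAinj] at h

/-- the central binomial coefficient -/
lemma central_sq (k : ℕ) : (2 * k + 1) * (Nat.centralBinom k) ^ 2 ≤ 16 ^ k := by
  induction k with
  | zero => simp
  | succ k ih =>
    have h1 := Nat.succ_mul_centralBinom_succ k
    -- (k+1) C(k+1) = 2 (2k+1) C(k)
    have h2 : (k + 1) ^ 2 * ((2 * (k + 1) + 1) * (Nat.centralBinom (k + 1)) ^ 2) ≤
        (k + 1) ^ 2 * 16 ^ (k + 1) := by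
      calc (k + 1) ^ 2 * ((2 * (k + 1) + 1) * (Nat.centralBinom (k + 1)) ^ 2)
          = (2 * k + 3) * ((k + 1) * Nat.centralBinom (k + 1)) ^ 2 := by ring
        _ = (2 * k + 3) * (2 * (2 * k + 1) * Nat.centralBinom k) ^ 2 := by rw [h1]
        _ = (4 * (2 * k + 3) * (2 * k + 1)) * ((2 * k + 1) * (Nat.centralBinom k) ^ 2) := by ring
        _ ≤ (4 * (2 * k + 3) * (2 * k + 1)) * 16 ^ k := Nat.mul_le_mul_left _ ih
        _ ≤ (16 * (k + 1) ^ 2) * 16 ^ k := by
            apply Nat.mul_le_mul_right
            nlinarith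
        _ = (k + 1) ^ 2 * 16 ^ (k + 1) := by ring
    exact Nat.le_of_mul_le_mul_left h2 (by positivity)

lemma choose_middle_sq (m : ℕ) : (m + 1) * (m.choose (m / 2)) ^ 2 ≤ 4 ^ m := by
  rcases Nat.even_or_odd' m with ⟨k, rfl | rfl⟩
  · have h1 : 2 * k / 2 = k := by omega
    rw [h1]
    have h2 := central_sq k
    rw [Nat.centralBinom_eq_two_mul_choose] at h2
    calc (2 * k + 1) * ((2 * k).choose k) ^ 2 ≤ 16 ^ k := h2
      _ = 4 ^ (2 * k) := by rw [pow_mul]; norm_num
  · have h1 : (2 * k + 1) / 2 = k := by omega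
    rw [h1]
    have h2 := central_sq (k + 1)
    rw [Nat.centralBinom_eq_two_mul_choose] at h2
    have h3 : (2 * (k + 1)).choose (k + 1) = 2 * (2 * k + 1).choose k := by
      have h4 : (2 * k + 1 + 1).choose (k + 1) = (2 * k + 1).choose k + (2 * k + 1).choose (k + 1) :=
        Nat.choose_succ_succ _ _
      have h5 : (2 * k + 1).choose (k + 1) = (2 * k + 1).choose k := by
        have := Nat.choose_symm_half k
        exact this
      have h6 : 2 * (k + 1) = 2 * k + 1 + 1 := by ring
      rw [h6, h4, h5]; ring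
    rw [h3] at h2
    have h4 : 4 * ((2 * k + 1 + 1) * ((2 * k + 1).choose k) ^ 2) ≤ 4 * 4 ^ (2 * k + 1) := by
      calc 4 * ((2 * k + 1 + 1) * ((2 * k + 1).choose k) ^ 2)
          ≤ (2 * (k + 1) + 1) * (2 * (2 * k + 1).choose k) ^ 2 := by
            have : (2 * (k + 1) + 1) * (2 * (2 * k + 1).choose k) ^ 2 =
              4 * ((2 * k + 3) * ((2 * k + 1).choose k) ^ 2) := by ring
            rw [this]
            apply Nat.mul_le_mul_left
            apply Nat.mul_le_mul_right
            omega
        _ ≤ 16 ^ (k + 1) := h2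
        _ = 4 * 4 ^ (2 * k + 1) := by
            rw [show (16 : ℕ) = 4 ^ 2 by norm_num, ← pow_mul, ← pow_succ']
            congr 1
    exact Nat.le_of_mul_le_mul_left h4 (by norm_num)

end Pool.Agent.GP.Ded
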