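import Mathlib
import Pool.Agent.GP.DedLO

/-! The number of words with sum zero under an odd function (abstract form). -/

namespace Pool.Agent.GP.Ded

open Finset

/-- the number of nonzero letters -/
noncomputable def nz {ι V : Type} [Fintype ι] [Zero V] (v : ι → V) : ℕ := by
  classical exact (univ.filter fun i => v i ≠ 0).card

/-- signs with vanishing sum -/
theorem sign_count {ι V : Type} [Fintype ι] [DecidableEq ι] [AddCommGroup V] [Module ℚ V]
    (v : ι → V) (x : V) (S : Finset (ι → Bool)) (hS : ∀ ε ∈ S, ∑ i, (sg (ε i)) • v i = x) :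
    (nz v + 1) * S.card ^ 2 ≤ 4 ^ Fintype.card ι := by
  classical
  obtain ⟨f, hf⟩ := Module.exists_dual_forall_apply_ne_zero (K := ℚ)
    (fun i : {i // v i ≠ 0} => v i.1) (fun i => i.2)
  let w : {i // v i ≠ 0} → ℚ := fun i => f (v i.1)
  let e := Equiv.piEquivPiSubtypeProd (fun i : ι => v i ≠ 0) (fun _ => Bool)
  set T : Finset ({i // v i ≠ 0} → Bool) :=
    univ.filter fun ε => ∑ i, (sg (ε i) : ℚ) * w i = f x with hT
  have hTc := littlewood_offord w hf (f x)
  have hcard : Fintype.card {i // v i ≠ 0} = nz v := by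
    rw [Fintype.card_subtype]; rfl
  have hSsub : S ⊆ (T ×ˢ (univ : Finset ({i // ¬ v i ≠ 0} → Bool))).image e.symm := by
    intro ε hε
    rw [mem_image]
    refine ⟨e ε, ?_, e.symm_apply_apply ε⟩
    rw [mem_product]
    refine ⟨?_, mem_univ _⟩
    rw [hT, mem_filter]
    refine ⟨mem_univ _, ?_⟩
    have h1 := congrArg f (hS ε hε)
    rw [map_sum] at h1
    have h2 : ∀ i, f (sg (ε i) • v i) = (sg (ε i) : ℚ) * f (v i) := by
      intro i
      rw [map_zsmul, zsmul_eq_mul]
    rw [sum_congr rfl fun i _ => h2 i] at h1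
    rw [← h1]
    have h3 : ∑ i : {i // v i ≠ 0}, (sg ((e ε).1 i) : ℚ) * w i =
        ∑ i ∈ univ.filter (fun i => v i ≠ 0), (sg (ε i) : ℚ) * f (v i) := by
      rw [← Finset.sum_subtype_eq_sum_filter]
      simp only [subtype_univ]
      rfl
    rw [h3]
    apply sum_subset (filter_subset _ _)
    intro i _ hi
    rw [mem_filter] at hi
    push Not at hi
    rw [hi (mem_univ _), map_zero, mul_zero]
  have hSc : S.card ≤ T.card * 2 ^ (Fintype.card ι - nz v) := by
    refine (card_le_card hSsub).trans (card_image_le.trans ?_)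
    rw [card_product, card_univ, Fintype.card_fun, Fintype.card_bool, Fintype.card_subtype_compl,
      hcard]
  have hle : nz v ≤ Fintype.card ι := by
    rw [← hcard]; exact Fintype.card_subtype_le _
  have hTc' : T.card ≤ (nz v).choose (nz v / 2) := by
    rw [← hcard]; exact hTc
  calc (nz v + 1) * S.card ^ 2
      ≤ (nz v + 1) * ((nz v).choose (nz v / 2) * 2 ^ (Fintype.card ι - nz v)) ^ 2 := by
        gcongr
        exact hSc.trans (Nat.mul_le_mul_right _ hTc')
    _ = ((nz v + 1) * ((nz v).choose (nz v / 2)) ^ 2) * 4 ^ (Fintype.card ι - nz v) := by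
        rw [mul_pow, ← pow_mul, mul_comm (Fintype.card ι - nz v) 2, pow_mul]
        ring
    _ ≤ 4 ^ nz v * 4 ^ (Fintype.card ι - nz v) := Nat.mul_le_mul_right _ (choose_middle_sq _)
    _ = 4 ^ Fintype.card ι := by rw [← pow_add, Nat.add_sub_cancel' hle]

/-- the harmonic moment of the number of nonzero letters -/
theorem harm_count {A V : Type} [Fintype A] [Zero V] (φ : A → V) (r : ℕ) :
    ((r : ℝ) + 1) * (nz φ) * ∑ j : Fin r → A, (1 : ℝ) / (nz (fun i => φ (j i)) + 1) ≤
      (Fintype.card A : ℝ) ^ (r + 1) := by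
  classical
  have key : ∀ i : Fin (r + 1),
      ∑ k : Fin (r + 1) → A, (if φ (k i) ≠ 0 then (1 : ℝ) / (nz (fun i => φ (k i))) else 0) =
        (nz φ) * ∑ j : Fin r → A, (1 : ℝ) / (nz (fun i => φ (j i)) + 1) := by
    intro i
    rw [← (Fin.insertNthEquiv (fun _ => A) i).sum_comp, Fintype.sum_prod_type]
    have h1 : ∀ a : A, ∑ j : Fin r → A,
        (if φ ((Fin.insertNthEquiv (fun _ => A) i (a, j)) i) ≠ 0 then
          (1 : ℝ) / (nz (fun l => φ ((Fin.insertNthEquiv (fun _ => A) i (a, j)) l))) else 0) =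
        if φ a ≠ 0 then ∑ j : Fin r → A, (1 : ℝ) / (nz (fun i => φ (j i)) + 1) else 0 := by
      intro a
      split_ifs with ha
      · apply sum_congr rfl
        intro j _
        have h2 : (Fin.insertNthEquiv (fun _ => A) i (a, j)) i = a := by
          simp [Fin.insertNthEquiv]
        rw [if_pos (by rw [h2]; exact ha)]
        have h3 : nz (fun l => φ ((Fin.insertNthEquiv (fun _ => A) i (a, j)) l)) =
            nz (fun i => φ (j i)) + 1 := by
          unfold nz
          rw [card_filter, card_filter, Fin.sum_univ_succAbove _ i]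
          have h4 : ∀ l, (Fin.insertNthEquiv (fun _ => A) i (a, j)) (i.succAbove l) = j l := by
            intro l; simp [Fin.insertNthEquiv]
          simp only [h2, h4]
          rw [if_pos ha, add_comm]
        rw [h3]; push_cast; rfl
      · apply sum_eq_zero
        intro j _
        have h2 : (Fin.insertNthEquiv (fun _ => A) i (a, j)) i = a := by
          simp [Fin.insertNthEquiv]
        rw [if_neg (by rw [h2]; exact ha)]
    rw [sum_congr rfl fun a _ => h1 a, ← sum_filter, sum_const, nsmul_eq_mul]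
    rfl
  have h2 : ∑ i : Fin (r + 1),
      ∑ k : Fin (r + 1) → A, (if φ (k i) ≠ 0 then (1 : ℝ) / (nz (fun i => φ (k i))) else 0) =
      ((r : ℝ) + 1) * (nz φ) * ∑ j : Fin r → A, (1 : ℝ) / (nz (fun i => φ (j i)) + 1) := by
    rw [sum_congr rfl fun i _ => key i, sum_const, card_univ, Fintype.card_fin, nsmul_eq_mul]
    push_cast; ring
  rw [← h2, sum_comm]
  have h3 : ∀ k : Fin (r + 1) → A,
      ∑ i : Fin (r + 1), (if φ (k i) ≠ 0 then (1 : ℝ) / (nz (fun i => φ (k i))) else 0) ≤ 1 := by
    intro k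
    rw [← sum_filter, sum_const, nsmul_eq_mul]
    have h4 : ((univ.filter fun i => φ (k i) ≠ 0).card : ℝ) = nz (fun i => φ (k i)) := rfl
    rw [h4, mul_one_div]
    exact div_self_le_one _
  calc _ ≤ ∑ k : Fin (r + 1) → A, (1 : ℝ) := sum_le_sum fun k _ => h3 k
    _ = (Fintype.card A : ℝ) ^ (r + 1) := by
      rw [sum_const, card_univ, Fintype.card_fun, Fintype.card_fin, nsmul_eq_mul, mul_one]
      push_cast; rfl

/-- words with a given sum under an odd function -/
theorem word_count {A V : Type} [Fintype A] [AddCommGroup V] [Module ℚ V] (ng : A → A)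
    (hng : ∀ a, ng (ng a) = a) (φ : A → V) (hφ : ∀ a, φ (ng a) = - φ a) (r : ℕ) (x : V)
    (S : Finset (Fin r → A)) (hS : ∀ j ∈ S, ∑ i, φ (j i) = x) :
    ((r : ℝ) + 1) * (nz φ) * (S.card : ℝ) ^ 2 ≤ (Fintype.card A : ℝ) ^ (2 * r + 1) := by
  classical
  let flip : (Fin r → Bool) → (Fin r → A) → (Fin r → A) :=
    fun ε j i => if ε i then j i else ng (j i)
  have hflip : ∀ ε, Function.Involutive (flip ε) := by
    intro ε j
    funext i
    simp only [flip]
    split_ifs
    · rfl
    · exact hng _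
  have h1 : ∀ ε, (univ.filter fun j => flip ε j ∈ S).card = S.card := by
    intro ε
    apply card_bij (fun j _ => flip ε j)
    · intro j hj; exact (mem_filter.1 hj).2
    · intro j _ j' _ h; exact (hflip ε).injective h
    · intro j hj
      refine ⟨flip ε j, ?_, hflip ε j⟩
      rw [mem_filter]
      exact ⟨mem_univ _, by rw [hflip ε j]; exact hj⟩
  have h2 : (2 : ℝ) ^ r * S.card =
      ∑ j : Fin r → A, ((univ.filter fun ε : Fin r → Bool => flip ε j ∈ S).card : ℝ) := by
    have h3 : ∑ ε : Fin r → Bool, (univ.filter fun j => flip ε j ∈ S).card =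
        ∑ j : Fin r → A, (univ.filter fun ε : Fin r → Bool => flip ε j ∈ S).card := by
      simp_rw [card_filter]
      exact sum_comm
    rw [sum_congr rfl fun ε _ => h1 ε, sum_const, card_univ, Fintype.card_fun, Fintype.card_bool,
      Fintype.card_fin, smul_eq_mul] at h3
    exact_mod_cast h3
  have h4 : ∀ j : Fin r → A, ((univ.filter fun ε : Fin r → Bool => flip ε j ∈ S).card : ℝ) ≤
      2 ^ r * √ (1 / (nz (fun i => φ (j i)) + 1)) := by
    intro j
    have h5 := sign_count (fun i => φ (j i)) x (univ.filter fun ε : Fin r → Bool => flip ε j ∈ S)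
      (by
        intro ε hε
        have h6 := hS _ (mem_filter.1 hε).2
        rw [← h6]
        apply sum_congr rfl
        intro i _
        simp only [flip]
        cases h : ε i
        · simp [sg, hφ]
        · simp [sg])
    rw [Fintype.card_fin] at h5
    set c := (univ.filter fun ε : Fin r → Bool => flip ε j ∈ S).card
    have h6 : ((nz (fun i => φ (j i)) : ℝ) + 1) * (c : ℝ) ^ 2 ≤ 4 ^ r := by exact_mod_cast h5
    have h7 : (0 : ℝ) < (nz (fun i => φ (j i)) : ℝ) + 1 := by positivity
    have h8 : (c : ℝ) ^ 2 ≤ (2 ^ r * √ (1 / (nz (fun i => φ (j i)) + 1))) ^ 2 := by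
      rw [mul_pow, Real.sq_sqrt (by positivity), ← pow_mul, mul_comm r 2, pow_mul, mul_one_div,
        le_div_iff₀ h7]
      calc (c : ℝ) ^ 2 * ((nz (fun i => φ (j i)) : ℝ) + 1) ≤ 4 ^ r := by linarith
        _ = (2 ^ 2) ^ r := by norm_num
    exact (pow_le_pow_iff_left₀ (by positivity) (by positivity) two_ne_zero).1 h8
  have h5 : (S.card : ℝ) ≤ ∑ j : Fin r → A, √ (1 / (nz (fun i => φ (j i)) + 1) : ℝ) := by
    have h6 : (2 : ℝ) ^ r * S.card ≤ 2 ^ r * ∑ j : Fin r → A, √ (1 / (nz (fun i => φ (j i)) + 1) : ℝ) := by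
      rw [h2, mul_sum]
      exact sum_le_sum fun j _ => h4 j
    exact le_of_mul_le_mul_left h6 (by positivity)
  have h6 : (S.card : ℝ) ^ 2 ≤ (Fintype.card A : ℝ) ^ r *
      ∑ j : Fin r → A, (1 : ℝ) / (nz (fun i => φ (j i)) + 1) := by
    calc (S.card : ℝ) ^ 2 ≤ (∑ j : Fin r → A, √ (1 / (nz (fun i => φ (j i)) + 1) : ℝ)) ^ 2 := by
          gcongr
      _ ≤ (univ : Finset (Fin r → A)).card *
          ∑ j : Fin r → A, (√ (1 / (nz (fun i => φ (j i)) + 1) : ℝ)) ^ 2 :=
          sq_sum_le_card_mul_sum_sq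
      _ = _ := by
          rw [card_univ, Fintype.card_fun, Fintype.card_fin]
          push_cast
          congr 1
          apply sum_congr rfl
          intro j _
          rw [Real.sq_sqrt (by positivity)]
  calc ((r : ℝ) + 1) * (nz φ) * (S.card : ℝ) ^ 2
      ≤ ((r : ℝ) + 1) * (nz φ) * ((Fintype.card A : ℝ) ^ r *
      ∑ j : Fin r → A, (1 : ℝ) / (nz (fun i => φ (j i)) + 1)) := by gcongr
    _ = (Fintype.card A : ℝ) ^ r * (((r : ℝ) + 1) * (nz φ) *
      ∑ j : Fin r → A, (1 : ℝ) / (nz (fun i => φ (j i)) + 1)) := by ring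
    _ ≤ (Fintype.card A : ℝ) ^ r * (Fintype.card A : ℝ) ^ (r + 1) := by
      gcongr
      exact harm_count φ r
    _ = (Fintype.card A : ℝ) ^ (2 * r + 1) := by rw [← pow_add]; congr 1; ring

end Pool.Agent.GP.Ded
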