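import Mathlib
import Pool.Agent.GP.DedWord

/-! Classes of gamma values modulo a group of logarithms. -/

namespace Pool.Agent.GP.DedM

open Finset

variable (M : Submodule ℚ ℝ)

lemma alg_zpow {x : ℝ} (hx : IsAlgebraic ℚ x) (a : ℤ) : IsAlgebraic ℚ (x ^ a) := by
  rcases Int.le_total 0 a with h | h
  · lift a to ℕ using h
    rw [zpow_natCast]; exact hx.pow a
  · obtain ⟨b, rfl⟩ : ∃ b : ℕ, a = -(b : ℤ) := ⟨a.natAbs, by omega⟩
    rw [zpow_neg, zpow_natCast]; exact (hx.pow b).inv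

/-- the class of a real number -/
noncomputable def cl : ℝ →ₗ[ℚ] (ℝ ⧸ M) := M.mkQ

/-- the class of the logarithm of a gamma value -/
noncomputable def gc (x : ℚ) : ℝ ⧸ M := cl M (Real.log (Real.Gamma x))

variable {M}

lemma cl_eq_zero {y : ℝ} : cl M y = 0 ↔ y ∈ M := Submodule.Quotient.mk_eq_zero _

lemma cl_eq {y z : ℝ} : cl M y = cl M z ↔ y - z ∈ M := Submodule.Quotient.eq _

/-- all logarithms of positive algebraic numbers belong to M -/
def HasAlg (M : Submodule ℚ ℝ) : Prop := ∀ x : ℝ, 0 < x → IsAlgebraic ℚ x → Real.log x ∈ M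

lemma gc_refl (hM : HasAlg M) (hpi : Real.log Real.pi ∈ M) {x : ℚ} (h0 : 0 < x) (h1 : x < 1) : gc M (1 - x) = - gc M x := by
  have h0' : (0 : ℝ) < x := by exact_mod_cast h0
  have h1' : (x : ℝ) < 1 := by exact_mod_cast h1
  have g1 : 0 < Real.Gamma (x : ℝ) := Real.Gamma_pos_of_pos h0'
  have g2 : 0 < Real.Gamma (1 - (x : ℝ)) := Real.Gamma_pos_of_pos (by linarith)
  have hs : 0 < Real.sin (Real.pi * x) :=
    Real.sin_pos_of_pos_of_lt_pi (by positivity) (by nlinarith [Real.pi_pos])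
  rw [eq_neg_iff_add_eq_zero]
  unfold gc
  rw [← map_add, cl_eq_zero]
  have h3 : Real.log (Real.Gamma ((1 - x : ℚ) : ℝ)) + Real.log (Real.Gamma (x : ℝ)) =
      Real.log Real.pi - Real.log (Real.sin (Real.pi * x)) := by
    push_cast
    rw [← Real.log_mul g2.ne' g1.ne', ← Real.log_div Real.pi_ne_zero hs.ne', mul_comm]
    rw [Real.Gamma_mul_Gamma_one_sub]
  rw [h3]
  apply M.sub_mem hpi
  apply hM _ hs
  rw [mul_comm]
  exact (IsFractionRing.isAlgebraic_iff ℤ ℚ ℝ).1 (Real.isAlgebraic_sin_rat_mul_pi x)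

lemma gc_succ (hM : HasAlg M) {x : ℚ} (h0 : 0 < x) : gc M (x + 1) = gc M x := by
  have h0' : (0 : ℝ) < x := by exact_mod_cast h0
  have g1 : 0 < Real.Gamma (x : ℝ) := Real.Gamma_pos_of_pos h0'
  unfold gc
  rw [cl_eq]
  push_cast
  rw [Real.Gamma_add_one h0'.ne', Real.log_mul h0'.ne' g1.ne', add_sub_cancel_right]
  exact hM _ h0' (isAlgebraic_algebraMap (A := ℝ) x)

lemma gc_one : gc M 1 = 0 := by
  unfold gc
  rw [cl_eq_zero]
  push_cast
  rw [Real.Gamma_one, Real.log_one]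
  exact M.zero_mem

lemma gc_half (hM : HasAlg M) (hpi : Real.log Real.pi ∈ M) : gc M (1 / 2) = 0 := by
  have h := gc_refl hM hpi (x := 1 / 2) (by norm_num) (by norm_num)
  have h2 : (1 : ℚ) - 1 / 2 = 1 / 2 := by norm_num
  rw [h2, eq_neg_iff_add_eq_zero, ← two_smul ℚ] at h
  rcases smul_eq_zero.1 h with h3 | h3
  · norm_num at h3
  · exact h3

/-- duplication -/
lemma gc_dup (hM : HasAlg M) (hpi : Real.log Real.pi ∈ M) {x : ℚ} (h0 : 0 < x) : gc M x + gc M (x + 1 / 2) = gc M (2 * x) := by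
  have h0' : (0 : ℝ) < x := by exact_mod_cast h0
  have g1 : 0 < Real.Gamma (x : ℝ) := Real.Gamma_pos_of_pos h0'
  have g2 : 0 < Real.Gamma ((x : ℝ) + 1 / 2) := Real.Gamma_pos_of_pos (by linarith)
  have g3 : 0 < Real.Gamma (2 * (x : ℝ)) := Real.Gamma_pos_of_pos (by linarith)
  unfold gc
  rw [← map_add, cl_eq]
  push_cast
  have h1 := Real.Gamma_mul_Gamma_add_half (x : ℝ)
  have h2 : (0 : ℝ) < 2 ^ (1 - 2 * (x : ℝ)) := by positivity
  rw [← Real.log_mul g1.ne' g2.ne', h1, Real.log_mul (mul_pos g3 h2).ne'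
    (Real.sqrt_pos.2 Real.pi_pos).ne', Real.log_mul g3.ne' h2.ne', Real.log_sqrt Real.pi_pos.le]
  have h3 : Real.log (Real.Gamma (2 * (x : ℝ))) + Real.log (2 ^ (1 - 2 * (x : ℝ))) +
      Real.log Real.pi / 2 - Real.log (Real.Gamma (2 * (x : ℝ))) =
      (1 - 2 * x : ℚ) • Real.log 2 + (1 / 2 : ℚ) • Real.log Real.pi := by
    rw [Real.log_rpow two_pos, Rat.smul_def, Rat.smul_def]
    push_cast; ring
  rw [h3]
  apply M.add_mem
  · apply M.smul_mem
    apply hM _ two_pos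
    exact isAlgebraic_algebraMap (A := ℝ) (2 : ℚ)
  · exact M.smul_mem _ hpi

/-- the diagonal beta values -/
def BadM (M : Submodule ℚ ℝ) (x : ℝ) : Prop :=
  (2 : ℚ) • Real.log (Real.Gamma x) - Real.log (Real.Gamma (2 * x)) ∈ M

lemma badM_iff {x : ℚ} : BadM M (x : ℝ) ↔ (2 : ℚ) • gc M x = gc M (2 * x) := by
  unfold gc
  rw [← map_smul, cl_eq]
  unfold BadM
  push_cast
  rfl

end Pool.Agent.GP.DedM
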