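import Mathlib
import Pool.Agent.GP.DedMa

/-! Counting letters: from the beta values of all levels to the gamma values of one denominator. -/

namespace Pool.Agent.GP.DedM

open Finset

variable {M : Submodule ℚ ℝ}

open Classical in
/-- Theorem A for one level: among the phi(N) numbers B(t/N,t/N), t prime to N, at most half
have their logarithm in M -/
def ThmA (M : Submodule ℚ ℝ) (N : ℕ) : Prop :=
  2 * ((Finset.Ico 1 N).filter fun t : ℕ => Nat.Coprime t N ∧ BadM M ((t : ℝ) / N)).card ≤
    Nat.totient N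

/-- the letters 1..D-1 except D/2 -/
def lets (D : ℕ) : Finset ℕ := (Finset.Ico 1 D).filter fun j => 2 * j ≠ D

open Classical in
theorem bad_count (D : ℕ) (hA : ∀ N, N ∣ D → 3 ≤ N → ThmA M N) :
    2 * ((lets D).filter fun j : ℕ => BadM M ((j : ℝ) / D)).card ≤ (lets D).card := by
  set f : ℕ → ℕ := fun j => D / Nat.gcd j D with hf
  set I := (lets D).image f with hI
  have h1 : (lets D).card = ∑ N ∈ I, ((lets D).filter fun j => f j = N).card :=
    card_eq_sum_card_image f _
  have h2 : ((lets D).filter fun j : ℕ => BadM M ((j : ℝ) / D)).card =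
      ∑ N ∈ I, (((lets D).filter fun j : ℕ => BadM M ((j : ℝ) / D)).filter fun j => f j = N).card := by
    apply card_eq_sum_card_fiberwise
    intro j hj
    exact mem_image_of_mem f (mem_filter.1 hj).1
  rw [h1, h2, mul_sum]
  apply sum_le_sum
  intro N hN
  rw [hI, mem_image] at hN
  obtain ⟨j0, hj0, hj0'⟩ := hN
  rw [lets, mem_filter, mem_Ico] at hj0
  have hDpos : 0 < D := by omega
  have hg : 0 < Nat.gcd j0 D := Nat.gcd_pos_of_pos_right _ hDpos
  have hgD : Nat.gcd j0 D ∣ D := Nat.gcd_dvd_right _ _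
  have hND : N ∣ D := by
    rw [← hj0', hf]; exact Nat.div_dvd_of_dvd hgD
  set g := Nat.gcd j0 D with hgdef
  have hDN : N * g = D := by
    rw [← hj0', hf]; exact Nat.div_mul_cancel hgD
  have hNpos : 0 < N := Nat.pos_of_ne_zero (by rintro rfl; omega)
  have hN3 : 3 ≤ N := by
    obtain ⟨t, ht⟩ : g ∣ j0 := Nat.gcd_dvd_left _ _
    by_contra hlt
    have h3 : N = 1 ∨ N = 2 := by omega
    rcases h3 with h3 | h3
    · rw [h3, one_mul] at hDN
      have := Nat.le_of_dvd (by omega) (Nat.gcd_dvd_left j0 D)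
      omega
    · rw [h3] at hDN
      have h4 : t < 2 := by
        by_contra h5
        have : 2 * g ≤ t * g := Nat.mul_le_mul_right _ (by omega)
        rw [mul_comm t g, ← ht] at this
        omega
      have h5 : t = 0 ∨ t = 1 := by omega
      rcases h5 with h5 | h5
      · rw [h5] at ht; omega
      · rw [h5] at ht; omega
  have hfib : ∀ P : ℕ → Prop, (((lets D).filter fun j => P j).filter fun j => f j = N).card =
      ((Finset.Ico 1 N).filter fun t => Nat.Coprime t N ∧ P (t * g)).card := by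
    intro P
    symm
    apply card_bij (fun t _ => t * g)
    · intro t ht
      rw [mem_filter, mem_Ico] at ht
      obtain ⟨⟨ht1, ht2⟩, ht3, ht4⟩ := ht
      rw [mem_filter, mem_filter, lets, mem_filter, mem_Ico]
      have h3 : t * g < D := by rw [← hDN]; exact Nat.mul_lt_mul_of_pos_right ht2 hg
      have h4 : 0 < t * g := Nat.mul_pos ht1 hg
      refine ⟨⟨⟨⟨h4, h3⟩, ?_⟩, ht4⟩, ?_⟩
      · intro h5
        have h6 : 2 * t = N := by
          apply Nat.eq_of_mul_eq_mul_right hg
          rw [hDN, ← h5]; ring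
        have h7 : Nat.gcd t N = t := by
          rw [← h6]; exact Nat.gcd_eq_left (Dvd.intro_left 2 rfl)
        rw [Nat.Coprime, h7] at ht3
        omega
      · rw [hf]
        have h5 : Nat.gcd (t * g) D = g := by
          rw [← hDN, Nat.gcd_mul_right, Nat.Coprime.gcd_eq_one ht3, one_mul]
        simp only [h5]
        rw [← hDN]; exact Nat.mul_div_cancel _ hg
    · intro t _ t' _ h
      exact Nat.eq_of_mul_eq_mul_right hg h
    · intro j hj
      rw [mem_filter, mem_filter, lets, mem_filter, mem_Ico] at hj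
      obtain ⟨⟨⟨⟨hj1, hj2⟩, hj3⟩, hj4⟩, hj5⟩ := hj
      have h3 : Nat.gcd j D = g := by
        have h4 : N * Nat.gcd j D = N * g := by
          rw [hDN, ← hj5, hf]; exact Nat.div_mul_cancel (Nat.gcd_dvd_right _ _)
        exact Nat.eq_of_mul_eq_mul_left hNpos h4
      obtain ⟨t, ht⟩ : g ∣ j := by rw [← h3]; exact Nat.gcd_dvd_left _ _
      have ht' : t * g = j := by rw [ht, mul_comm]
      refine ⟨t, ?_, ht'⟩
      rw [mem_filter, mem_Ico]
      refine ⟨⟨?_, ?_⟩, ?_, ?_⟩
      · rcases Nat.eq_zero_or_pos t with h | h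
        · rw [h] at ht'; omega
        · exact h
      · apply Nat.lt_of_mul_lt_mul_right (a := g)
        rw [ht', hDN]; exact hj2
      · have h4 : Nat.gcd t N * g = 1 * g := by
          rw [← Nat.gcd_mul_right, ht', hDN, h3, one_mul]
        exact Nat.eq_of_mul_eq_mul_right hg h4
      · rw [ht']; exact hj4
  have h3 : ((lets D).filter fun j => f j = N).card = Nat.totient N := by
    have h4 := hfib (fun _ => True)
    simp only [filter_true, and_true] at h4
    rw [h4, Nat.totient_eq_card_coprime]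
    congr 1
    ext t
    rw [mem_filter, mem_filter, mem_Ico, mem_range]
    constructor
    · rintro ⟨⟨_, h5⟩, h6⟩; exact ⟨h5, h6.symm⟩
    · rintro ⟨h5, h6⟩
      refine ⟨⟨?_, h5⟩, h6.symm⟩
      rcases Nat.eq_zero_or_pos t with h | h
      · rw [h, Nat.coprime_zero_right] at h6; omega
      · exact h
  rw [h3, hfib]
  have h4 := hA N hND hN3
  unfold ThmA at h4
  refine le_trans (le_of_eq ?_) h4
  congr 2
  apply filter_congr
  intro t _
  have h5 : (((t * g : ℕ) : ℝ) / D) = (t : ℝ) / N := by
    rw [← hDN]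
    have hg' : (g : ℝ) ≠ 0 := by positivity
    push_cast
    rw [mul_div_mul_right _ _ hg']
  rw [h5]

open Classical in
/-- the letters with nonzero class -/
noncomputable def good (M : Submodule ℚ ℝ) (D : ℕ) : Finset ℕ :=
  (Finset.Ico 1 D).filter fun j : ℕ => gc M ((j : ℚ) / D) ≠ 0

lemma card_lets (D : ℕ) : D ≤ (lets D).card + 2 := by
  classical
  have h1 : Finset.Ico 1 D ⊆ insert (D / 2) (lets D) := by
    intro j hj
    rw [mem_insert, lets, mem_filter]
    by_cases h : 2 * j = D
    · left; omega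
    · right; exact ⟨hj, h⟩
  have h2 := card_le_card h1
  have h3 := card_insert_le (D / 2) (lets D)
  rw [Nat.card_Ico] at h2
  omega

lemma card_lets_odd {D : ℕ} (hD : Odd D) : D ≤ (lets D).card + 1 := by
  classical
  have h1 : Finset.Ico 1 D ⊆ lets D := by
    intro j hj
    rw [lets, mem_filter]
    refine ⟨hj, ?_⟩
    obtain ⟨e, he⟩ := hD
    omega
  have h2 := card_le_card h1
  rw [Nat.card_Ico] at h2
  omega

lemma gc_mod (hM : HasAlg M) {D a : ℕ} (hD : 0 < D) (ha : ¬ D ∣ a) (ha2 : a < 2 * D) :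
    gc M ((a : ℚ) / D) = gc M (((a % D : ℕ) : ℚ) / D) := by
  have hD' : (D : ℚ) ≠ 0 := by positivity
  rcases lt_or_ge a D with h | h
  · rw [Nat.mod_eq_of_lt h]
  · have h1 : a % D = a - D := by
      rw [Nat.mod_eq_sub_mod h, Nat.mod_eq_of_lt (by omega)]
    have h2 : a ≠ D := by rintro rfl; exact ha dvd_rfl
    have h3 : (a : ℚ) / D = ((a - D : ℕ) : ℚ) / D + 1 := by
      rw [Nat.cast_sub h]
      field_simp
      ring
    have h4 : (0 : ℚ) < ((a - D : ℕ) : ℚ) / D := by
      apply div_pos
      · have : 0 < a - D := by omega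
        exact_mod_cast this
      · exact_mod_cast hD
    rw [h1, h3, gc_succ hM h4]

lemma not_dvd_of {D a : ℕ} (h0 : 0 < a) (h1 : a < 2 * D) (h2 : a ≠ D) : ¬ D ∣ a := by
  rintro ⟨c, hc⟩
  rcases Nat.lt_or_ge c 1 with h7 | h7
  · have : c = 0 := by omega
    rw [this] at hc; omega
  · rcases Nat.lt_or_ge c 2 with h8 | h8
    · have : c = 1 := by omega
      rw [this] at hc; omega
    · have : D * 2 ≤ D * c := Nat.mul_le_mul_left _ h8
      omega

lemma mod_pos {D a : ℕ} (h0 : 0 < a) (h1 : a < 2 * D) (h2 : a ≠ D) : 1 ≤ a % D := by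
  have := not_dvd_of h0 h1 h2
  rw [Nat.dvd_iff_mod_eq_zero] at this
  omega

/-- combining: a map e on the letters such that for good beta values one of x, e x is good -/
theorem combine {D c : ℕ} (hA : ∀ N, N ∣ D → 3 ≤ N → ThmA M N) (e : ℕ → ℕ)
    (he1 : ∀ j ∈ lets D, ¬ BadM M ((j : ℝ) / D) → j ∈ good M D ∨ e j ∈ good M D)
    (he2 : ∀ b, ((lets D).filter fun j => e j = b).card ≤ c) :
    (lets D).card ≤ 2 * (1 + c) * (good M D).card := by
  classical
  have h0 := bad_count D hA
  set B := (lets D).filter fun j : ℕ => BadM M ((j : ℝ) / D) with hB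
  have hsub : lets D \ B ⊆ ((lets D).filter fun j => j ∈ good M D) ∪
      ((lets D).filter fun j => e j ∈ good M D) := by
    intro j hj
    rw [mem_sdiff] at hj
    rw [mem_union, mem_filter, mem_filter]
    rcases he1 j hj.1 (fun h => hj.2 (mem_filter.2 ⟨hj.1, h⟩)) with h | h
    · left; exact ⟨hj.1, h⟩
    · right; exact ⟨hj.1, h⟩
  have h1 : (lets D).card ≤ 2 * (lets D \ B).card := by
    have hBs : B ⊆ lets D := filter_subset _ _
    have h2 := card_sdiff_add_card_eq_card hBs
    omega
  have h2 : (lets D \ B).card ≤ (good M D).card + c * (good M D).card := by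
    refine (card_le_card hsub).trans ((card_union_le _ _).trans ?_)
    apply Nat.add_le_add
    · apply card_le_card
      intro j hj
      exact (mem_filter.1 hj).2
    · set S := (lets D).filter fun j => e j ∈ good M D with hS
      have h3 : S.card ≤ c * (S.image e).card := by
        apply card_le_mul_card_image
        intro b _
        refine le_trans (card_le_card ?_) (he2 b)
        intro j hj
        rw [mem_filter] at hj ⊢
        exact ⟨(mem_filter.1 hj.1).1, hj.2⟩
      refine h3.trans (Nat.mul_le_mul_left _ (card_le_card ?_))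
      intro b hb
      rw [mem_image] at hb
      obtain ⟨j, hj, rfl⟩ := hb
      exact (mem_filter.1 hj).2
  calc (lets D).card ≤ 2 * ((good M D).card + c * (good M D).card) := by omega
    _ = 2 * (1 + c) * (good M D).card := by ring

lemma dbl_prop (hM : HasAlg M) {D j : ℕ} (hj : j ∈ lets D) (h1 : ¬ BadM M ((j : ℝ) / D)) :
    j ∈ good M D ∨ (2 * j) % D ∈ good M D := by
  classical
  have hj' := hj
  rw [lets, mem_filter, mem_Ico] at hj'
  have hD : 0 < D := by omega
  have h2 := badM_iff (M := M) (x := (j : ℚ) / D)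
  push_cast at h2
  rw [h2] at h1
  have h3 : gc M (2 * ((j : ℚ) / D)) = gc M ((((2 * j) % D : ℕ) : ℚ) / D) := by
    have h4 : 2 * ((j : ℚ) / D) = (((2 * j : ℕ)) : ℚ) / D := by
      push_cast; ring
    rw [h4]
    exact gc_mod hM hD (not_dvd_of (by omega) (by omega) hj'.2) (by omega)
  rw [h3] at h1
  by_contra hcon
  push Not at hcon
  have h5 : gc M ((j : ℚ) / D) = 0 := by
    by_contra h6
    exact hcon.1 (mem_filter.2 ⟨mem_Ico.2 hj'.1, h6⟩)
  have h6 : gc M ((((2 * j) % D : ℕ) : ℚ) / D) = 0 := by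
    by_contra h7
    apply hcon.2
    refine mem_filter.2 ⟨?_, h7⟩
    rw [mem_Ico]
    exact ⟨mod_pos (by omega) (by omega) hj'.2, Nat.mod_lt _ hD⟩
  rw [h5, h6, smul_zero] at h1
  exact h1 rfl

/-- general M: at least a sixth -/
theorem good_six (hM : HasAlg M) (D : ℕ) (hA : ∀ N, N ∣ D → 3 ≤ N → ThmA M N) :
    D ≤ 6 * (good M D).card + 2 := by
  classical
  have h1 := combine (c := 2) hA (fun j => (2 * j) % D) (fun j hj h => dbl_prop hM hj h) (by
    intro b
    have h2 : (lets D).filter (fun j => (2 * j) % D = b) ⊆ {b / 2, (b + D) / 2} := by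
      intro j hj
      rw [mem_filter, lets, mem_filter, mem_Ico] at hj
      rw [mem_insert, mem_singleton]
      have h4 := hj.2
      rcases lt_or_ge (2 * j) D with h | h
      · rw [Nat.mod_eq_of_lt h] at h4; left; omega
      · rw [Nat.mod_eq_sub_mod h, Nat.mod_eq_of_lt (by omega)] at h4; right; omega
    exact (card_le_card h2).trans card_le_two)
  have h2 := card_lets D
  omega

/-- odd D, general M: at least a quarter -/
theorem good_four_odd (hM : HasAlg M) {D : ℕ} (hD : Odd D)
    (hA : ∀ N, N ∣ D → 3 ≤ N → ThmA M N) : D ≤ 4 * (good M D).card + 1 := by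
  classical
  have h1 := combine (c := 1) hA (fun j => (2 * j) % D) (fun j hj h => dbl_prop hM hj h) (by
    intro b
    rw [card_le_one]
    intro j hj j' hj'
    rw [mem_filter, lets, mem_filter, mem_Ico] at hj hj'
    have h4 := hj.2
    have h5 := hj'.2
    obtain ⟨e, he⟩ := hD
    rcases lt_or_ge (2 * j) D with h | h <;> rcases lt_or_ge (2 * j') D with h' | h'
    · rw [Nat.mod_eq_of_lt h] at h4; rw [Nat.mod_eq_of_lt h'] at h5; omega
    · rw [Nat.mod_eq_of_lt h] at h4
      rw [Nat.mod_eq_sub_mod h', Nat.mod_eq_of_lt (by omega)] at h5; omega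
    · rw [Nat.mod_eq_sub_mod h, Nat.mod_eq_of_lt (by omega)] at h4
      rw [Nat.mod_eq_of_lt h'] at h5; omega
    · rw [Nat.mod_eq_sub_mod h, Nat.mod_eq_of_lt (by omega)] at h4
      rw [Nat.mod_eq_sub_mod h', Nat.mod_eq_of_lt (by omega)] at h5; omega)
  have h2 := card_lets_odd hD
  omega

/-- even D, M containing log pi: at least a quarter -/
theorem good_four_even (hM : HasAlg M) (hpi : Real.log Real.pi ∈ M) {D E : ℕ} (hE : D = 2 * E)
    (hA : ∀ N, N ∣ D → 3 ≤ N → ThmA M N) : D ≤ 4 * (good M D).card + 2 := by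
  classical
  have h1 := combine (c := 1) hA (fun j => (j + E) % D) (by
    intro j hj h1
    have hj' := hj
    rw [lets, mem_filter, mem_Ico] at hj'
    have hD : 0 < D := by omega
    have hDq : (0 : ℚ) < D := by exact_mod_cast hD
    have hjq : (0 : ℚ) < (j : ℚ) / D := by
      apply div_pos _ hDq
      exact_mod_cast hj'.1.1
    have h2 := badM_iff (M := M) (x := (j : ℚ) / D)
    push_cast at h2
    rw [h2, ← gc_dup hM hpi hjq, two_smul] at h1
    have hne : j + E ≠ D := by omega
    have h3 : gc M ((j : ℚ) / D + 1 / 2) = gc M ((((j + E) % D : ℕ) : ℚ) / D) := by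
      have h4 : (j : ℚ) / D + 1 / 2 = (((j + E : ℕ)) : ℚ) / D := by
        have h5 : (D : ℚ) = 2 * E := by exact_mod_cast hE
        have h6 : (E : ℚ) ≠ 0 := by
          have : 0 < E := by omega
          positivity
        rw [h5]; push_cast; field_simp
      rw [h4]
      exact gc_mod hM hD (not_dvd_of (by omega) (by omega) hne) (by omega)
    rw [h3] at h1
    by_contra hcon
    push Not at hcon
    have h5 : gc M ((j : ℚ) / D) = 0 := by
      by_contra h6
      exact hcon.1 (mem_filter.2 ⟨mem_Ico.2 hj'.1, h6⟩)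
    have h6 : gc M ((((j + E) % D : ℕ) : ℚ) / D) = 0 := by
      by_contra h7
      apply hcon.2
      refine mem_filter.2 ⟨?_, h7⟩
      rw [mem_Ico]
      exact ⟨mod_pos (by omega) (by omega) hne, Nat.mod_lt _ hD⟩
    rw [h5, h6] at h1
    exact h1 rfl) (by
    intro b
    rw [card_le_one]
    intro j hj j' hj'
    rw [mem_filter, lets, mem_filter, mem_Ico] at hj hj'
    have h4 := hj.2
    have h5 := hj'.2
    rcases lt_or_ge (j + E) D with h | h <;> rcases lt_or_ge (j' + E) D with h' | h'
    · rw [Nat.mod_eq_of_lt h] at h4; rw [Nat.mod_eq_of_lt h'] at h5; omega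
    · rw [Nat.mod_eq_of_lt h] at h4
      rw [Nat.mod_eq_sub_mod h', Nat.mod_eq_of_lt (by omega)] at h5; omega
    · rw [Nat.mod_eq_sub_mod h, Nat.mod_eq_of_lt (by omega)] at h4
      rw [Nat.mod_eq_of_lt h'] at h5; omega
    · rw [Nat.mod_eq_sub_mod h, Nat.mod_eq_of_lt (by omega)] at h4
      rw [Nat.mod_eq_sub_mod h', Nat.mod_eq_of_lt (by omega)] at h5; omega)
  have h2 := card_lets D
  omega

/-- M containing log pi: at least (D-2)/4 classes are nonzero -/
theorem good_four (hM : HasAlg M) (hpi : Real.log Real.pi ∈ M) (D : ℕ)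
    (hA : ∀ N, N ∣ D → 3 ≤ N → ThmA M N) : D ≤ 4 * (good M D).card + 2 := by
  rcases Nat.even_or_odd' D with ⟨E, hE | hE⟩
  · exact good_four_even hM hpi hE hA
  · have := good_four_odd hM (⟨E, hE⟩ : Odd D) hA
    omega

end Pool.Agent.GP.DedM
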