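import Mathlib
import Pool.Agent.GP.DedMb

/-! Theorems B and C, and the only-if half of the question for many classes. -/

namespace Pool.Agent.GP.DedM

open Finset

variable {M : Submodule ℚ ℝ}

lemma sum_gc {D : ℕ} (hD : 0 < D) {r : ℕ} (j : Fin r → ℕ) (hj : ∀ i, 0 < j i) :
    ∑ i, gc M ((j i : ℚ) / D) = cl M (Real.log (∏ i, Real.Gamma ((j i : ℝ) / D))) := by
  unfold gc
  rw [← map_sum, Real.log_prod]
  · congr 1
    apply sum_congr rfl
    intro i _
    push_cast; rfl
  · intro i _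
    apply ne_of_gt
    apply Real.Gamma_pos_of_pos
    have h1 : (0 : ℝ) < j i := by exact_mod_cast hj i
    have h2 : (0 : ℝ) < D := by exact_mod_cast hD
    positivity

/-- the letters 1..D -/
abbrev LetA (D : ℕ) := {j : ℕ // j ∈ Finset.Icc 1 D}

/-- Theorem C, generic form: a set of tuples whose gamma products have the same class -/
theorem words (hM : HasAlg M) (hpi : Real.log Real.pi ∈ M) (D : ℕ) (hD : 3 ≤ D)
    (hA : ∀ N, N ∣ D → 3 ≤ N → ThmA M N) (r : ℕ) (T : Finset (Fin r → ℕ))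
    (hT : ∀ j ∈ T, ∀ i, j i ∈ Finset.Icc 1 D)
    (hcl : ∀ j ∈ T, ∀ j' ∈ T, Real.log (∏ i, Real.Gamma ((j i : ℝ) / D)) -
      Real.log (∏ i, Real.Gamma ((j' i : ℝ) / D)) ∈ M) :
    (T.card : ℝ) ≤ √ (6 / (r + 1)) * (D : ℝ) ^ r := by
  classical
  have hDpos : 0 < D := by omega
  let φ : LetA D → (ℝ ⧸ M) := fun a => gc M ((a.1 : ℚ) / D)
  let ng : LetA D → LetA D := fun a => if h : a.1 = D then a else ⟨D - a.1, by
    have := mem_Icc.1 a.2
    rw [mem_Icc]; omega⟩
  have hng1 : ∀ a : LetA D, a.1 ≠ D → (ng a).1 = D - a.1 := by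
    intro a ha
    simp only [ng, dif_neg ha]
  have hng : ∀ a, ng (ng a) = a := by
    intro a
    have ha := mem_Icc.1 a.2
    by_cases h : a.1 = D
    · simp only [ng, dif_pos h]
    · apply Subtype.ext
      rw [hng1 _ (by rw [hng1 a h]; omega), hng1 a h]; omega
  have hDq : (0 : ℚ) < D := by exact_mod_cast hDpos
  have hφ : ∀ a, φ (ng a) = - φ a := by
    intro a
    have ha := mem_Icc.1 a.2
    by_cases h : a.1 = D
    · simp only [ng, dif_pos h, φ]
      rw [h, div_self hDq.ne', gc_one, neg_zero]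
    · simp only [φ]
      rw [hng1 a h, Nat.cast_sub ha.2]
      have h1 : ((D : ℚ) - (a.1 : ℚ)) / D = 1 - (a.1 : ℚ) / D := by
        rw [sub_div, div_self hDq.ne']
      rw [h1]
      apply gc_refl hM hpi
      · apply div_pos _ hDq
        exact_mod_cast ha.1
      · rw [div_lt_one hDq]
        exact_mod_cast (lt_of_le_of_ne ha.2 h)
  have hcard : Fintype.card (LetA D) = D := by
    rw [Fintype.card_coe, Nat.card_Icc]; omega
  have hnz : (good M D).card ≤ Ded.nz φ := by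
    unfold Ded.nz
    have h1 : good M D ⊆ (univ.filter fun a : LetA D => φ a ≠ 0).image (fun a => a.1) := by
      intro j hj
      have hj' := hj
      unfold good at hj'
      rw [mem_filter, mem_Ico] at hj'
      rw [mem_image]
      refine ⟨⟨j, mem_Icc.2 ⟨hj'.1.1, hj'.1.2.le⟩⟩, ?_, rfl⟩
      rw [mem_filter]
      exact ⟨mem_univ _, hj'.2⟩
    exact (card_le_card h1).trans card_image_le
  have hg := good_four hM hpi D hA
  have hg1 : 1 ≤ (good M D).card := by omega
  rcases T.eq_empty_or_nonempty with h0 | ⟨j0, hj0⟩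
  · rw [h0, card_empty]; push_cast; positivity
  have hcls : ∀ j ∈ T, ∑ i, gc M ((j i : ℚ) / D) = ∑ i, gc M ((j0 i : ℚ) / D) := by
    intro j hj
    rw [sum_gc hDpos j (fun i => (mem_Icc.1 (hT j hj i)).1),
      sum_gc hDpos j0 (fun i => (mem_Icc.1 (hT j0 hj0 i)).1), cl_eq]
    exact hcl j hj j0 hj0
  set x := ∑ i, gc M ((j0 i : ℚ) / D) with hx
  let S : Finset (Fin r → LetA D) := univ.filter fun j => ∑ i, φ (j i) = x
  have hTS : T.card ≤ S.card := by
    have h1 : T ⊆ S.image (fun j i => (j i).1) := by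
      intro j hj
      rw [mem_image]
      refine ⟨fun i => ⟨j i, hT j hj i⟩, ?_, rfl⟩
      rw [mem_filter]
      exact ⟨mem_univ _, hcls j hj⟩
    exact (card_le_card h1).trans card_image_le
  have hw := Ded.word_count ng hng φ hφ r x S (fun j hj => (mem_filter.1 hj).2)
  rw [hcard] at hw
  have hy : (D : ℝ) ≤ 6 * Ded.nz φ := by
    have : D ≤ 6 * Ded.nz φ := by omega
    exact_mod_cast this
  have hDr : (0 : ℝ) < D := by exact_mod_cast hDpos
  have h6 : ((r : ℝ) + 1) * (S.card : ℝ) ^ 2 ≤ 6 * (D : ℝ) ^ (2 * r) := by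
    have h7 : (D : ℝ) * (((r : ℝ) + 1) * (S.card : ℝ) ^ 2) ≤ D * (6 * (D : ℝ) ^ (2 * r)) := by
      calc (D : ℝ) * (((r : ℝ) + 1) * (S.card : ℝ) ^ 2)
          ≤ (6 * Ded.nz φ) * (((r : ℝ) + 1) * (S.card : ℝ) ^ 2) :=
            mul_le_mul_of_nonneg_right hy (by positivity)
        _ = 6 * (((r : ℝ) + 1) * (Ded.nz φ) * (S.card : ℝ) ^ 2) := by ring
        _ ≤ 6 * (D : ℝ) ^ (2 * r + 1) := by gcongr
        _ = D * (6 * (D : ℝ) ^ (2 * r)) := by ring
    exact le_of_mul_le_mul_left h7 hDr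
  have h8 : (S.card : ℝ) ≤ √ (6 / (r + 1)) * (D : ℝ) ^ r := by
    have h9 : (S.card : ℝ) ^ 2 ≤ (√ (6 / (r + 1)) * (D : ℝ) ^ r) ^ 2 := by
      rw [mul_pow, Real.sq_sqrt (by positivity), ← pow_mul, mul_comm r 2, div_mul_eq_mul_div,
        le_div_iff₀ (by positivity)]
      linarith
    exact (pow_le_pow_iff_left₀ (by positivity) (by positivity) two_ne_zero).1 h9
  exact le_trans (by exact_mod_cast hTS) h8

end Pool.Agent.GP.DedM
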