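import Mathlib

/-!
Definitions for the transcendence theorem on Beta and Gamma values (helper54).
`nm` is the nome, `th2, th3, th4` are the fourth powers of the Jacobi theta functions,
`F p a b` is the abelian integral of the differential x^(a/p-1) (1-x)^(b/p-1) dx from 0
to the modular function `lam`, as a function on the upper half plane. The level is p (any
integer at least 3, the letter p does not mean prime).
-/

set_option autoImplicit false

namespace Pool.Agent.GP

open Complex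

noncomputable section

/-- the nome exp (pi i tau) -/
def nm (τ : ℂ) : ℂ := cexp (Real.pi * I * τ)

/-- the local parameter exp (pi i tau / p) -/
def wn (p : ℕ) (τ : ℂ) : ℂ := cexp (Real.pi * I * τ / p)

/-- logarithm of prod (1 - q^(2n))^4 (1 + q^(2n))^8 -/
def lW2 (q : ℂ) : ℂ :=
  ∑' n : ℕ, (4 * Complex.log (1 - q ^ (2 * n + 2)) + 8 * Complex.log (1 + q ^ (2 * n + 2)))

/-- logarithm of prod (1 - q^(2n))^4 (1 - q^(2n-1))^8 -/
def lW4 (q : ℂ) : ℂ :=
  ∑' n : ℕ, (4 * Complex.log (1 - q ^ (2 * n + 2)) + 8 * Complex.log (1 - q ^ (2 * n + 1)))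

/-- fourth power of the Jacobi theta function theta_2 -/
def th2 (τ : ℂ) : ℂ := 16 * nm τ * cexp (lW2 (nm τ))

/-- fourth power of the Jacobi theta function theta_4 -/
def th4 (τ : ℂ) : ℂ := cexp (lW4 (nm τ))

/-- fourth power of the Jacobi theta function theta_3 -/
def th3 (τ : ℂ) : ℂ := cexp (lW4 (-nm τ))

/-- the modular lambda function -/
def lam (τ : ℂ) : ℂ := th2 τ / th3 τ

/-- the three functions |theta_i^4| Im tau, permuted by the modular group -/
def mt (i : Fin 3) (z : ℂ) : ℝ := ![‖th2 z‖, ‖th3 z‖, ‖th4 z‖] i * z.im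

/-- the function (W2^a W4^b W3^(p-a-b))^(1/p) on the unit disc -/
def Sq (p a b : ℕ) (q : ℂ) : ℂ :=
  cexp (((a : ℂ) * lW2 q + (b : ℂ) * lW4 q + ((p : ℂ) - a - b) * lW4 (-q)) / p)

/-- Taylor coefficients of `Sq p a b` at 0 -/
def sc (p a b : ℕ) (k : ℕ) : ℂ := iteratedDeriv k (Sq p a b) 0 / (k.factorial : ℂ)

/-- coefficients of `F p a b` as a power series in the local parameter `wn p` -/
def fc (p a b : ℕ) (ν : ℕ) : ℂ :=
  if ν % p = a then
    (((16 : ℝ) ^ ((a : ℝ) / p) : ℝ) : ℂ) * (sc p a b ((ν - a) / p) / ((ν : ℂ) / p))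
  else 0

/-- the integral `F p a b` as a function on the unit disc of the local parameter -/
def Fw (p a b : ℕ) (w : ℂ) : ℂ := ∑' ν : ℕ, fc p a b ν * w ^ ν

/-- F(tau) = int_0^{lam tau} x^(a/p-1) (1-x)^(b/p-1) dx -/
def F (p a b : ℕ) (τ : ℂ) : ℂ := Fw p a b (wn p τ)

/-- the derivative of `F p a b` -/
def gd (p a b : ℕ) (τ : ℂ) : ℂ :=
  Real.pi * I * (((16 : ℝ) ^ ((a : ℝ) / p) : ℝ) : ℂ) * cexp (Real.pi * I * τ * (a / p))
    * Sq p a b (nm τ)

/-- the Euler beta value B(a/p, b/p) -/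
def bet (p a b : ℕ) : ℂ := Complex.betaIntegral ((a : ℂ) / p) ((b : ℂ) / p)

/-- exponents of the t-th conjugate -/
def at' (p j t : ℕ) : ℕ := t * j % p

/-- the units modulo p -/
def Un (p : ℕ) : Finset ℕ := (Finset.range p).filter p.Coprime

/-- primitive p-th root of unity -/
def zet (p : ℕ) : ℂ := cexp (2 * Real.pi * I / p)

/-- the embedding zeta -> zeta^t applied to u = sum_i u_i zeta^i -/
def sg (p t : ℕ) (u : Fin p.totient → ℤ) : ℂ :=
  ∑ i : Fin p.totient, (u i : ℂ) * zet p ^ (t * (i : ℕ))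

/-- sum of the squares of the absolute values of all conjugates -/
def nrm (p : ℕ) (u : Fin p.totient → ℤ) : ℝ := ∑ t ∈ Un p, ‖sg p t u‖ ^ 2

/-- the indices of the first kind integrals -/
def Phi (p j k : ℕ) : Finset ℕ := (Un p).filter (fun t => at' p j t + at' p k t < p)

open Matrix MatrixGroups in
/-- tau -> tau / (1 - 2 tau) -/
def g2 : SL(2, ℤ) := ⟨!![1, 0; -2, 1], by simp [Matrix.det_fin_two]⟩

open MatrixGroups in
/-- the group generated by tau -> tau + 2, tau -> tau / (1 - 2 tau) and minus the identity -/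
def Gam : Subgroup SL(2, ℤ) := Subgroup.closure {ModularGroup.T ^ 2, g2, -1}

/-- hypotheses on the exponents -/
structure Adm (p a b : ℕ) : Prop where
  a0 : 0 < a
  ap : a < p
  b0 : 0 < b
  bp : b < p
  ab : a + b ≠ p

/-- hypotheses on the level and the pair (j, k) -/
structure Dat (p j k : ℕ) : Prop where
  p3 : 3 ≤ p
  j0 : j.Coprime p
  k0 : ¬ p ∣ k
  jk : ¬ p ∣ (j + k)

open MatrixGroups in
/-- the automorphy relation of all the integrals for the matrix g -/
def Coc (p j k : ℕ) (g : SL(2, ℤ)) (κ : ℕ) (u : Fin p.totient → ℤ) : Prop :=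
  ∀ z : UpperHalfPlane, ∀ t ∈ Un p,
    F p (at' p j t) (at' p k t) ((g • z : UpperHalfPlane) : ℂ)
      = zet p ^ (t * κ) * F p (at' p j t) (at' p k t) (z : ℂ)
        + bet p (at' p j t) (at' p k t) * sg p t u

/-- the auxiliary function f_u on the disc of the local parameter w -/
def fw (p j k : ℕ) (T : Finset ℕ) (L L1 : ℕ) (P : Fin (L1 + 1) → (T → Fin L) → ℂ)
    (u : Fin p.totient → ℤ) (w : ℂ) : ℂ :=
  ∑ i : Fin (L1 + 1), ∑ m : T → Fin L, P i m * (16 * w ^ p * cexp (lW2 (w ^ p))) ^ (i : ℕ)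
    * (cexp (lW4 (-w ^ p))) ^ (L1 - (i : ℕ))
    * ∏ t : T, (Fw p (at' p j t) (at' p k t) w
        + bet p (at' p j t) (at' p k t) * sg p t u) ^ ((m t : Fin L) : ℕ)

/-- rational coefficients of the expansion of the integral in powers of x^(1/p) -/
def rc (p a b : ℕ) (ν : ℕ) : ℚ :=
  if ν % p = a then
    (-1) ^ ((ν - a) / p) * Ring.choose ((b : ℚ) / p - 1) ((ν - a) / p) / ((ν : ℚ) / p)
  else 0

/-- the expansion of the integral in powers of x^(1/p) -/
def Rs (p a b : ℕ) : PowerSeries ℂ := PowerSeries.mk (fun ν => ((rc p a b ν : ℚ) : ℂ))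

/-- the expansion of the auxiliary function in powers of x^(1/p), x = lam -/
def fx (p j k : ℕ) (T : Finset ℕ) (L L1 : ℕ) (P : Fin (L1 + 1) → (T → Fin L) → ℂ)
    (u : Fin p.totient → ℤ) : PowerSeries ℂ :=
  ∑ i : Fin (L1 + 1), ∑ m : T → Fin L, PowerSeries.C (P i m) * PowerSeries.X ^ (p * (i : ℕ))
    * ∏ t : T, (Rs p (at' p j t) (at' p k t)
        + PowerSeries.C (bet p (at' p j t) (at' p k t) * sg p t u)) ^ ((m t : Fin L) : ℕ)

end

end Pool.Agent.GP
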