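import Pool.Agent.GP.DedMc
import Pool.Agent.GP.Defs

/-! Numbers algebraic over Q(theta); transcendence and algebraic independence statements. -/

set_option autoImplicit false

namespace Pool.Agent.GP.DedM

open Finset IntermediateField

/-- the logarithms of the positive real numbers algebraic over `ℚ(θ)` -/
noncomputable def LA (θ : ℂ) : Submodule ℚ ℝ where
  carrier := {y | IsAlgebraic ℚ⟮θ⟯ ((Real.exp y : ℝ) : ℂ)}
  zero_mem' := by
    change IsAlgebraic ℚ⟮θ⟯ ((Real.exp 0 : ℝ) : ℂ)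
    rw [Real.exp_zero]
    push_cast
    exact isAlgebraic_one
  add_mem' := by
    intro x y hx hy
    change IsAlgebraic ℚ⟮θ⟯ ((Real.exp (x + y) : ℝ) : ℂ)
    rw [Real.exp_add]
    push_cast
    have h := IsAlgebraic.mul hx hy
    push_cast at h
    exact h
  smul_mem' := by
    intro c y hy
    change IsAlgebraic ℚ⟮θ⟯ ((Real.exp (c • y) : ℝ) : ℂ)
    have hy' : IsAlgebraic ℚ⟮θ⟯ ((Real.exp y : ℝ) : ℂ) := hy
    apply IsAlgebraic.of_pow c.pos
    have h1 : (((Real.exp (c • y) : ℝ) : ℂ)) ^ c.den = ((Real.exp y : ℝ) : ℂ) ^ c.num := by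
      have h2 : (Real.exp (c • y)) ^ c.den = (Real.exp y) ^ c.num := by
        rw [← Real.exp_nat_mul, ← Real.rpow_intCast, ← Real.exp_mul, Rat.smul_def]
        congr 1
        have h3 : (c : ℝ) * c.den = c.num := by exact_mod_cast Rat.mul_den_eq_num c
        calc (c.den : ℝ) * (c * y) = (c * c.den) * y := by ring
          _ = y * c.num := by rw [h3]; ring
      exact_mod_cast congrArg (fun z : ℝ => (z : ℂ)) h2
    rw [h1]
    rcases Int.le_total 0 c.num with h | h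
    · obtain ⟨n, hn⟩ := Int.eq_ofNat_of_zero_le h
      rw [hn, zpow_natCast]
      exact hy'.pow n
    · obtain ⟨n, hn⟩ : ∃ n : ℕ, c.num = -(n : ℤ) := ⟨c.num.natAbs, by omega⟩
      rw [hn, zpow_neg, zpow_natCast]
      exact (hy'.pow n).inv

lemma mem_LA {θ : ℂ} {y : ℝ} : y ∈ LA θ ↔ IsAlgebraic ℚ⟮θ⟯ ((Real.exp y : ℝ) : ℂ) := Iff.rfl

lemma log_mem_LA {θ : ℂ} {x : ℝ} (hx : 0 < x) :
    Real.log x ∈ LA θ ↔ IsAlgebraic ℚ⟮θ⟯ (x : ℂ) := by
  rw [mem_LA, Real.exp_log hx]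

lemma alg_complex {x : ℝ} (h : IsAlgebraic ℚ x) : IsAlgebraic ℚ (x : ℂ) :=
  h.algebraMap

lemma LA_hasAlg (θ : ℂ) : HasAlg (LA θ) := by
  intro x hx h
  rw [log_mem_LA hx]
  exact (alg_complex h).tower_top _

lemma self_alg (θ : ℂ) : IsAlgebraic ℚ⟮θ⟯ θ :=
  isAlgebraic_algebraMap (A := ℂ) (⟨θ, mem_adjoin_simple_self ℚ θ⟩ : ℚ⟮θ⟯)

lemma LA_pi : Real.log Real.pi ∈ LA (Real.pi : ℂ) := by
  rw [log_mem_LA Real.pi_pos]
  exact self_alg _

/-- Theorem A for j = k = 1 and all levels, as a hypothesis -/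
def ThmAll : Prop := ∀ N : ℕ, 3 ≤ N → ∀ (θ : ℂ) (T : Finset ℕ), T ⊆ Un N →
  (∀ t ∈ T, IsAlgebraic ℚ⟮θ⟯ (bet N (at' N 1 t) (at' N 1 t))) → 2 * T.card ≤ N.totient

lemma bet_eq {N t : ℕ} (hN : 3 ≤ N) (h0 : 0 < t) (h1 : t < N) :
    bet N (at' N 1 t) (at' N 1 t) =
      ((Real.Gamma ((t : ℝ) / N) ^ 2 / Real.Gamma (2 * ((t : ℝ) / N)) : ℝ) : ℂ) := by
  have hN' : (0 : ℝ) < N := by
    have : 0 < N := by omega
    exact_mod_cast this
  have ht' : (0 : ℝ) < (t : ℝ) / N := by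
    apply div_pos _ hN'
    exact_mod_cast h0
  have hat : at' N 1 t = t := by
    unfold at'
    rw [mul_one, Nat.mod_eq_of_lt h1]
  rw [hat]
  unfold bet
  have h2 : 0 < ((t : ℂ) / N).re := by
    have : ((t : ℂ) / N) = (((t : ℝ) / N : ℝ) : ℂ) := by push_cast; rfl
    rw [this, Complex.ofReal_re]; exact ht'
  have h3 := Complex.Gamma_mul_Gamma_eq_betaIntegral h2 h2
  have e1 : ((t : ℂ) / N) = (((t : ℝ) / N : ℝ) : ℂ) := by push_cast; rfl
  have e2 : ((t : ℂ) / N) + (t : ℂ) / N = ((2 * ((t : ℝ) / N) : ℝ) : ℂ) := by push_cast; ring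
  rw [e2, e1] at h3
  rw [e1]
  rw [Complex.Gamma_ofReal, Complex.Gamma_ofReal] at h3
  have h4 : (Real.Gamma (2 * ((t : ℝ) / N)) : ℂ) ≠ 0 := by
    have := Real.Gamma_pos_of_pos (show 0 < 2 * ((t : ℝ) / N) by linarith)
    exact_mod_cast this.ne'
  push_cast at h3 h4 ⊢
  rw [eq_div_iff h4, sq, h3]
  ring

lemma thmA_of {θ : ℂ} (hA : ThmAll) {N : ℕ} (hN : 3 ≤ N) : ThmA (LA θ) N := by
  classical
  unfold ThmA
  apply hA N hN θ
  · intro t ht
    rw [mem_filter, mem_Ico] at ht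
    unfold Un
    rw [mem_filter, mem_range]
    exact ⟨ht.1.2, ht.2.1.symm⟩
  · intro t ht
    rw [mem_filter, mem_Ico] at ht
    obtain ⟨⟨h1, h2⟩, _, h4⟩ := ht
    rw [bet_eq hN h1 h2]
    have hN' : (0 : ℝ) < N := by
      have : 0 < N := by omega
      exact_mod_cast this
    have ht' : (0 : ℝ) < (t : ℝ) / N := by
      apply div_pos _ hN'
      exact_mod_cast h1
    have g1 := Real.Gamma_pos_of_pos ht'
    have g2 := Real.Gamma_pos_of_pos (show 0 < 2 * ((t : ℝ) / N) by linarith)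
    rw [← log_mem_LA (by positivity)]
    unfold BadM at h4
    have h5 : Real.log (Real.Gamma ((t : ℝ) / N) ^ 2 / Real.Gamma (2 * ((t : ℝ) / N))) =
        (2 : ℚ) • Real.log (Real.Gamma ((t : ℝ) / N)) -
          Real.log (Real.Gamma (2 * ((t : ℝ) / N))) := by
      rw [Real.log_div (by positivity) g2.ne', Real.log_pow, Rat.smul_def]
      push_cast; rfl
    rw [h5]
    exact h4

/-- pi is transcendental -/
theorem pi_transcendental (hA : ThmAll) : Transcendental ℚ Real.pi := by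
  classical
  intro hpi
  set β : ℝ := Real.Gamma (((1 : ℕ) : ℝ) / 3) ^ 2 / Real.Gamma (2 * (((1 : ℕ) : ℝ) / 3)) with hβ
  have hβ0 : 0 < β := by
    have g1 := Real.Gamma_pos_of_pos (show (0 : ℝ) < ((1 : ℕ) : ℝ) / 3 by norm_num)
    have g2 := Real.Gamma_pos_of_pos (show (0 : ℝ) < 2 * (((1 : ℕ) : ℝ) / 3) by norm_num)
    positivity
  set M := LA (β : ℂ) with hM
  have hMA : HasAlg M := LA_hasAlg _
  have hMpi : Real.log Real.pi ∈ M := hMA _ Real.pi_pos hpi
  have h1 : BadM M ((((1 : ℕ) : ℝ)) / 3) := by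
    unfold BadM
    have h2 : Real.log β ∈ M := by
      rw [hM, log_mem_LA hβ0]
      exact self_alg _
    have g1 := Real.Gamma_pos_of_pos (show (0 : ℝ) < ((1 : ℕ) : ℝ) / 3 by norm_num)
    have g2 := Real.Gamma_pos_of_pos (show (0 : ℝ) < 2 * (((1 : ℕ) : ℝ) / 3) by norm_num)
    rw [hβ, Real.log_div (by positivity) g2.ne', Real.log_pow] at h2
    rw [Rat.smul_def]
    push_cast at h2 ⊢
    exact h2
  have h1' := h1
  have e1 : (((1 : ℕ) : ℝ)) / 3 = (((1 / 3 : ℚ)) : ℝ) := by push_cast; ring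
  rw [e1, badM_iff] at h1
  have e2 : (2 : ℚ) * (1 / 3) = 1 - 1 / 3 := by norm_num
  rw [e2, gc_refl hMA hMpi (by norm_num) (by norm_num)] at h1
  have h2 : (3 : ℚ) • gc M (1 / 3) = 0 := by
    have h20 : (3 : ℚ) • gc M (1 / 3) = (2 : ℚ) • gc M (1 / 3) + gc M (1 / 3) := by
      have : (3 : ℚ) • gc M (1 / 3) = (2 + 1 : ℚ) • gc M (1 / 3) := by norm_num
      rw [this, add_smul, one_smul]
    rw [h20, h1]
    exact neg_add_cancel _
  have h3 : gc M (1 / 3) = 0 := by
    rcases smul_eq_zero.1 h2 with h | h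
    · norm_num at h
    · exact h
  have h4 : BadM M ((((2 : ℕ) : ℝ)) / 3) := by
    have e3 : (((2 : ℕ) : ℝ)) / 3 = (((2 / 3 : ℚ)) : ℝ) := by push_cast; ring
    rw [e3, badM_iff]
    have e4 : (2 : ℚ) * (2 / 3) = 1 / 3 + 1 := by norm_num
    have e5 : (2 / 3 : ℚ) = 1 - 1 / 3 := by norm_num
    rw [e4, gc_succ hMA (by norm_num), e5, gc_refl hMA hMpi (by norm_num) (by norm_num), h3]
    simp
  have h5 := thmA_of (θ := (β : ℂ)) hA (le_refl 3)
  unfold ThmA at h5
  have h6 : ({1, 2} : Finset ℕ) ⊆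
      ((Finset.Ico 1 3).filter fun t : ℕ => Nat.Coprime t 3 ∧ BadM (LA (β : ℂ)) ((t : ℝ) / (3 : ℕ))) := by
    intro t ht
    rw [mem_insert, mem_singleton] at ht
    rw [mem_filter, mem_Ico]
    rcases ht with rfl | rfl
    · refine ⟨by norm_num, by norm_num, ?_⟩
      exact h1'
    · refine ⟨by norm_num, by norm_num, ?_⟩
      exact h4
  have h7 := card_le_card h6
  have h8 : ({1, 2} : Finset ℕ).card = 2 := rfl
  have h9 : Nat.totient 3 = 2 := by decide
  rw [h8] at h7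
  rw [h9] at h5
  omega

open Classical in
/-- Theorem B' for a general field Q(theta) -/
theorem thmB_theta (hA : ThmAll) (θ : ℂ) (D : ℕ) :
    D ≤ 6 * ((Finset.Ico 1 D).filter fun j : ℕ =>
      Transcendental ℚ⟮θ⟯ ((Real.Gamma ((j : ℝ) / D) : ℝ) : ℂ)).card + 2 ∧
    (Odd D → D ≤ 4 * ((Finset.Ico 1 D).filter fun j : ℕ =>
      Transcendental ℚ⟮θ⟯ ((Real.Gamma ((j : ℝ) / D) : ℝ) : ℂ)).card + 1) := by
  have h : good (LA θ) D ⊆ ((Finset.Ico 1 D).filter fun j : ℕ =>
      Transcendental ℚ⟮θ⟯ ((Real.Gamma ((j : ℝ) / D) : ℝ) : ℂ)) := by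
    intro j hj
    unfold good at hj
    rw [mem_filter, mem_Ico] at hj
    rw [mem_filter, mem_Ico]
    refine ⟨hj.1, ?_⟩
    intro hcon
    apply hj.2
    unfold gc
    rw [cl_eq_zero]
    have hD : (0 : ℝ) < D := by
      have : 0 < D := by omega
      exact_mod_cast this
    have hj' : (0 : ℝ) < (j : ℝ) / D := by
      apply div_pos _ hD
      exact_mod_cast hj.1.1
    push_cast
    rw [log_mem_LA (Real.Gamma_pos_of_pos hj')]
    exact hcon
  have h2 := card_le_card h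
  constructor
  · have h1 := good_six (LA_hasAlg θ) D (fun N _ hN => thmA_of hA hN)
    omega
  · intro ho
    have h1 := good_four_odd (LA_hasAlg θ) ho (fun N _ hN => thmA_of hA hN)
    omega

open algebraAdjoinAdjoin in
/-- from transcendence over the field Q(pi) to algebraic independence -/
lemma algInd {x : ℝ} (hpi : Transcendental ℚ Real.pi)
    (hx : Transcendental ℚ⟮(Real.pi : ℂ)⟯ (x : ℂ)) : AlgebraicIndependent ℚ ![Real.pi, x] := by
  have hpi' : Transcendental ℚ (Real.pi : ℂ) := by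
    intro h
    apply hpi
    have h1 : (Real.pi : ℂ) = algebraMap ℝ ℂ Real.pi := rfl
    rw [h1] at h
    exact (isAlgebraic_algebraMap_iff (algebraMap ℝ ℂ).injective).1 h
  have h1 : AlgebraicIndependent ℚ (fun _ : Unit => (Real.pi : ℂ)) := by
    rw [algebraicIndependent_unique_type_iff]
    exact hpi'
  have h2 : Transcendental (Algebra.adjoin ℚ (Set.range fun _ : Unit => (Real.pi : ℂ))) (x : ℂ) := by
    rw [Set.range_const]
    intro hcon
    apply hx
    exact hcon.extendScalars (FaithfulSMul.algebraMap_injective _ _)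
  have h3 := (h1.option_iff_transcendental (x : ℂ)).2 h2
  have h4 : (fun i => ((![Real.pi, x] i : ℝ) : ℂ)) =
      (fun o : Option Unit => o.elim (x : ℂ) fun _ : Unit => (Real.pi : ℂ)) ∘
        (![some (), none] : Fin 2 → Option Unit) := by
    funext i
    fin_cases i <;> rfl
  have h5 : AlgebraicIndependent ℚ (fun i => ((![Real.pi, x] i : ℝ) : ℂ)) := by
    rw [h4]
    apply h3.comp
    intro a b hab
    fin_cases a <;> fin_cases b <;> simp_all
  have h6 : (fun i => ((![Real.pi, x] i : ℝ) : ℂ)) =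
      (Complex.ofRealAm.restrictScalars ℚ : ℝ →ₐ[ℚ] ℂ) ∘ ![Real.pi, x] := rfl
  rw [h6] at h5
  exact AlgebraicIndependent.of_comp _ h5

open Classical in
/-- Theorem B' for pi -/
theorem thmB_pi (hA : ThmAll) (D : ℕ) :
    D ≤ 4 * ((Finset.Ico 1 D).filter fun j : ℕ =>
      AlgebraicIndependent ℚ ![Real.pi, Real.Gamma ((j : ℝ) / D)]).card + 2 := by
  have hpi := pi_transcendental hA
  have h : good (LA (Real.pi : ℂ)) D ⊆ ((Finset.Ico 1 D).filter fun j : ℕ =>
      AlgebraicIndependent ℚ ![Real.pi, Real.Gamma ((j : ℝ) / D)]) := by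
    intro j hj
    unfold good at hj
    rw [mem_filter, mem_Ico] at hj
    rw [mem_filter, mem_Ico]
    refine ⟨hj.1, algInd hpi ?_⟩
    intro hcon
    apply hj.2
    unfold gc
    rw [cl_eq_zero]
    have hD : (0 : ℝ) < D := by
      have : 0 < D := by omega
      exact_mod_cast this
    have hj' : (0 : ℝ) < (j : ℝ) / D := by
      apply div_pos _ hD
      exact_mod_cast hj.1.1
    push_cast
    rw [log_mem_LA (Real.Gamma_pos_of_pos hj')]
    exact hcon
  have h2 := card_le_card h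
  have h1 := good_four (LA_hasAlg _) LA_pi D (fun N _ hN => thmA_of hA hN)
  omega

/-- the product of the gamma values is c times a number algebraic over Q(pi) -/
def PiMult (D : ℕ) (c : ℝ) {r : ℕ} (j : Fin r → ℕ) : Prop :=
  ∃ α : ℝ, IsAlgebraic ℚ⟮(Real.pi : ℂ)⟯ (α : ℂ) ∧ ∏ i, Real.Gamma ((j i : ℝ) / D) = c * α

open Classical in
/-- Theorem C' -/
theorem thmC (hA : ThmAll) (D : ℕ) (hD : 3 ≤ D) (r : ℕ) (c : ℝ) :
    (((Fintype.piFinset fun _ : Fin r => Finset.Icc 1 D).filter fun j => PiMult D c j).card : ℝ) ≤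
      √ (6 / (r + 1)) * (D : ℝ) ^ r := by
  have hDpos : 0 < D := by omega
  apply words (M := LA (Real.pi : ℂ)) (LA_hasAlg _) LA_pi D hD (fun N _ hN => thmA_of hA hN)
  · intro j hj i
    rw [mem_filter, Fintype.mem_piFinset] at hj
    exact hj.1 i
  · intro j hj j' hj'
    have hprod : ∀ j ∈ (Fintype.piFinset fun _ : Fin r => Finset.Icc 1 D).filter
        (fun j => PiMult D c j), 0 < ∏ i, Real.Gamma ((j i : ℝ) / D) := by
      intro j hj
      rw [mem_filter, Fintype.mem_piFinset] at hj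
      apply prod_pos
      intro i _
      apply Real.Gamma_pos_of_pos
      have h1 : (0 : ℝ) < j i := by
        have := mem_Icc.1 (hj.1 i)
        exact_mod_cast this.1
      have h2 : (0 : ℝ) < D := by exact_mod_cast hDpos
      positivity
    have hp := hprod j hj
    have hp' := hprod j' hj'
    rw [← Real.log_div hp.ne' hp'.ne', log_mem_LA (div_pos hp hp')]
    obtain ⟨α, hα, h⟩ := (mem_filter.1 hj).2
    obtain ⟨α', hα', h'⟩ := (mem_filter.1 hj').2
    rw [h'] at hp'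
    have hc : c ≠ 0 := by rintro rfl; simp at hp'
    have hα0 : α' ≠ 0 := by rintro rfl; simp at hp'
    have h3 : (∏ i, Real.Gamma ((j i : ℝ) / D)) / (∏ i, Real.Gamma ((j' i : ℝ) / D)) =
        α * α'⁻¹ := by
      rw [h, h']
      field_simp
    rw [h3]
    push_cast
    exact hα.mul hα'.inv

end Pool.Agent.GP.DedM
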