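import Pool.Agent.GP.DedMd

/-! The only-if half of the question for tuples in the classes of j/D, -j/D, 1/2 and 0. -/

set_option autoImplicit false

namespace Pool.Agent.GP.DedM

open Finset IntermediateField

lemma shift_nat (x : ℚ) (hx : ∀ k : ℕ, x ≠ -(k : ℚ)) (n : ℕ) :
    ∃ q : ℚ, q ≠ 0 ∧ Real.Gamma ((x + n : ℚ) : ℝ) = q * Real.Gamma ((x : ℚ) : ℝ) := by
  induction n with
  | zero => exact ⟨1, one_ne_zero, by simp⟩
  | succ n ih =>
    obtain ⟨q, hq, h⟩ := ih
    have h0 : (x + n : ℚ) ≠ 0 := by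
      intro h1
      exact hx n (by linarith)
    refine ⟨(x + n) * q, mul_ne_zero h0 hq, ?_⟩
    have h1 : ((x + (n + 1 : ℕ) : ℚ) : ℝ) = ((x + n : ℚ) : ℝ) + 1 := by
      push_cast
      ring
    rw [h1, Real.Gamma_add_one (by exact_mod_cast h0), h]
    push_cast
    ring

lemma gamma_shift (x y : ℚ) (hx : ∀ k : ℕ, x ≠ -(k : ℚ)) (hy : ∀ k : ℕ, y ≠ -(k : ℚ))
    (n : ℤ) (h : x = y + n) :
    ∃ q : ℚ, q ≠ 0 ∧ Real.Gamma ((x : ℚ) : ℝ) = q * Real.Gamma ((y : ℚ) : ℝ) := by
  rcases Int.eq_nat_or_neg n with ⟨k, hk | hk⟩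
  · obtain ⟨q, hq, h1⟩ := shift_nat y hy k
    refine ⟨q, hq, ?_⟩
    rw [← h1, h, hk]
    simp
  · obtain ⟨q, hq, h1⟩ := shift_nat x hx k
    refine ⟨q⁻¹, inv_ne_zero hq, ?_⟩
    have h2 : x + k = y := by
      rw [h, hk]
      push_cast
      ring
    rw [h2] at h1
    rw [h1]
    have : (q : ℝ) ≠ 0 := by exact_mod_cast hq
    push_cast
    field_simp

lemma gamma_ne (x : ℚ) (hx : ∀ k : ℕ, x ≠ -(k : ℚ)) : Real.Gamma (x : ℝ) ≠ 0 := by
  apply Real.Gamma_ne_zero
  intro k hk
  exact hx k (by exact_mod_cast hk)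

/-- the normalised class of a gamma value -/
noncomputable def nc (M : Submodule ℚ ℝ) (x : ℚ) : ℝ ⧸ M :=
  cl M (Real.log (Real.Gamma (x : ℝ)) - (1 / 2 : ℚ) • Real.log Real.pi)

variable {M : Submodule ℚ ℝ}

lemma nc_shift (hM : HasAlg M) (x y : ℚ) (hx : ∀ k : ℕ, x ≠ -(k : ℚ)) (hy : 0 < y)
    (n : ℤ) (h : x = y + n) : nc M x = nc M y := by
  have hy' : ∀ k : ℕ, y ≠ -(k : ℚ) := by
    intro k hk
    have : (0 : ℚ) ≤ k := by positivity
    linarith
  obtain ⟨q, hq, h1⟩ := gamma_shift x y hx hy' n h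
  have hy2 : (0 : ℝ) < y := by exact_mod_cast hy
  have g := Real.Gamma_pos_of_pos hy2
  have hq' : (q : ℝ) ≠ 0 := by exact_mod_cast hq
  unfold nc
  rw [cl_eq, h1, Real.log_mul hq' g.ne']
  have e : Real.log (q : ℝ) + Real.log (Real.Gamma (y : ℝ)) - (1 / 2 : ℚ) • Real.log Real.pi -
      (Real.log (Real.Gamma (y : ℝ)) - (1 / 2 : ℚ) • Real.log Real.pi) = Real.log |(q : ℝ)| := by
    rw [Real.log_abs]; ring
  rw [e]
  apply hM _ (abs_pos.2 hq')
  have h2 : |(q : ℝ)| = ((|q| : ℚ) : ℝ) := by push_cast; rfl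
  rw [h2]
  exact isAlgebraic_algebraMap (A := ℝ) |q|

lemma nc_refl (hM : HasAlg M) {x : ℚ} (h0 : 0 < x) (h1 : x < 1) : nc M (1 - x) = - nc M x := by
  have h0' : (0 : ℝ) < x := by exact_mod_cast h0
  have h1' : (x : ℝ) < 1 := by exact_mod_cast h1
  have g1 : 0 < Real.Gamma (x : ℝ) := Real.Gamma_pos_of_pos h0'
  have g2 : 0 < Real.Gamma (1 - (x : ℝ)) := Real.Gamma_pos_of_pos (by linarith)
  have hs : 0 < Real.sin (Real.pi * x) :=
    Real.sin_pos_of_pos_of_lt_pi (by positivity) (by nlinarith [Real.pi_pos])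
  rw [eq_neg_iff_add_eq_zero]
  unfold nc
  rw [← map_add, cl_eq_zero]
  have h3 : Real.log (Real.Gamma ((1 - x : ℚ) : ℝ)) - (1 / 2 : ℚ) • Real.log Real.pi +
      (Real.log (Real.Gamma (x : ℝ)) - (1 / 2 : ℚ) • Real.log Real.pi) =
      - Real.log (Real.sin (Real.pi * x)) := by
    rw [Rat.smul_def]
    push_cast
    have h4 : Real.log (Real.Gamma (1 - (x : ℝ))) + Real.log (Real.Gamma (x : ℝ)) =
        Real.log Real.pi - Real.log (Real.sin (Real.pi * x)) := by
      rw [← Real.log_mul g2.ne' g1.ne', ← Real.log_div Real.pi_ne_zero hs.ne', mul_comm]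
      rw [Real.Gamma_mul_Gamma_one_sub]
    linarith
  rw [h3]
  apply M.neg_mem
  apply hM _ hs
  rw [mul_comm]
  exact (IsFractionRing.isAlgebraic_iff ℤ ℚ ℝ).1 (Real.isAlgebraic_sin_rat_mul_pi x)

lemma nc_half (hM : HasAlg M) : nc M (1 / 2) = 0 := by
  have h := nc_refl hM (x := 1 / 2) (by norm_num) (by norm_num)
  have h2 : (1 : ℚ) - 1 / 2 = 1 / 2 := by norm_num
  rw [h2, eq_neg_iff_add_eq_zero, ← two_smul ℚ] at h
  rcases smul_eq_zero.1 h with h3 | h3
  · norm_num at h3
  · exact h3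

lemma nc_one : nc M 1 = -((1 / 2 : ℚ) • cl M (Real.log Real.pi)) := by
  unfold nc
  push_cast
  rw [Real.Gamma_one, Real.log_one, zero_sub, map_neg, map_smul]

/-- the sum of the normalised classes for an algebraic multiple of pi^(r/2) -/
lemma sum_nc (hM : HasAlg M) {r : ℕ} (a : Fin r → ℚ) (ha : ∀ (i : Fin r) (k : ℕ), a i ≠ -(k : ℚ))
    (h : ∃ α : ℝ, IsAlgebraic ℚ α ∧
      ∏ i, Real.Gamma ((a i : ℚ) : ℝ) = α * Real.pi ^ ((r : ℝ) / 2)) :
    ∑ i, nc M (a i) = 0 := by
  obtain ⟨α, hα, hp⟩ := h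
  have hne : ∏ i, Real.Gamma ((a i : ℚ) : ℝ) ≠ 0 := prod_ne_zero_iff.2 fun i _ => gamma_ne _ (ha i)
  have hα0 : α ≠ 0 := by
    rintro rfl
    rw [zero_mul] at hp
    exact hne hp
  have hpq : Real.pi ^ ((r : ℝ) / 2) ≠ 0 := (Real.rpow_pos_of_pos Real.pi_pos _).ne'
  unfold nc
  rw [← map_sum, cl_eq_zero, sum_sub_distrib, ← Real.log_prod (fun i _ => gamma_ne _ (ha i)), hp,
    Real.log_mul hα0 hpq, Real.log_rpow Real.pi_pos, sum_const, card_univ, Fintype.card_fin]
  have e : Real.log α + (r : ℝ) / 2 * Real.log Real.pi - r • ((1 / 2 : ℚ) • Real.log Real.pi) =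
      Real.log |α| := by
    rw [Rat.smul_def, nsmul_eq_mul, Real.log_abs]
    push_cast; ring
  rw [e]
  apply hM _ (abs_pos.2 hα0)
  rcases abs_choice α with h2 | h2
  · rw [h2]; exact hα
  · rw [h2]; exact hα.neg

/-- the only-if half of the question for the classes of j/D, -j/D, 1/2 and 0 -/
theorem onlyIf (hA : ThmAll) {D j : ℕ} (hj0 : 1 ≤ j) (hjD : j < D)
    (hj : Transcendental ℚ⟮(Real.pi : ℂ)⟯ ((Real.Gamma ((j : ℝ) / D) : ℝ) : ℂ))
    {r : ℕ} (a : Fin r → ℚ) (hnp : ∀ (i : Fin r) (k : ℕ), a i ≠ -(k : ℚ))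
    (ha : ∀ i, ∃ z : ℤ, a i = (j : ℚ) / D + z ∨ a i = -((j : ℚ) / D) + z ∨ a i = z / 2)
    (h : ∃ α : ℝ, IsAlgebraic ℚ α ∧
      ∏ i, Real.Gamma ((a i : ℚ) : ℝ) = α * Real.pi ^ ((r : ℝ) / 2))
    (D' : ℕ) (hD' : ∀ i, ∃ z : ℤ, (D' : ℚ) * a i = z) (m : ℕ) (hm : Nat.Coprime m D') :
    ∑ i, Int.fract ((m : ℚ) * a i) = (r : ℚ) / 2 := by
  classical
  have hpit := pi_transcendental hA
  have hDq : (0 : ℚ) < D := by
    have : 0 < D := by omega
    exact_mod_cast this
  set x : ℚ := (j : ℚ) / D with hx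
  have hx0 : 0 < x := by
    apply div_pos _ hDq
    exact_mod_cast hj0
  have hx1 : x < 1 := by
    rw [hx, div_lt_one hDq]
    exact_mod_cast hjD
  have hxR : (0 : ℝ) < (x : ℝ) := by exact_mod_cast hx0
  have g := Real.Gamma_pos_of_pos hxR
  set M := LA 0 with hMdef
  have hM : HasAlg M := LA_hasAlg _
  -- M is contained in LA pi
  have hbot : ∀ y ∈ M, IsAlgebraic ℚ ((Real.exp y : ℝ) : ℂ) := by
    intro y hy
    rw [hMdef, mem_LA] at hy
    have : Algebra.IsAlgebraic ℚ ℚ⟮(0 : ℂ)⟯ :=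
      isAlgebraic_adjoin_simple (isIntegral_zero)
    exact hy.restrictScalars ℚ
  have hpiM : Real.log Real.pi ∉ M := by
    intro hcon
    have h1 := hbot _ hcon
    rw [Real.exp_log Real.pi_pos] at h1
    apply hpit
    have h2 : (Real.pi : ℂ) = algebraMap ℝ ℂ Real.pi := rfl
    rw [h2] at h1
    exact (isAlgebraic_algebraMap_iff (algebraMap ℝ ℂ).injective).1 h1
  have hclpi : cl M (Real.log Real.pi) ≠ 0 := fun h => hpiM (cl_eq_zero.1 h)
  -- the class of x is not a multiple of the class of pi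
  have hxne : ∀ q : ℚ, nc M x ≠ q • cl M (Real.log Real.pi) := by
    intro q hq
    unfold nc at hq
    rw [← map_smul, cl_eq] at hq
    have h1 := hbot _ hq
    apply hj
    have h2 : Real.log (Real.Gamma (x : ℝ)) ∈ LA (Real.pi : ℂ) := by
      have h3 : Real.log (Real.Gamma (x : ℝ)) - (1 / 2 : ℚ) • Real.log Real.pi -
          q • Real.log Real.pi ∈ LA (Real.pi : ℂ) := by
        rw [mem_LA]
        exact h1.tower_top _
      have h4 : Real.log (Real.Gamma (x : ℝ)) =
          (Real.log (Real.Gamma (x : ℝ)) - (1 / 2 : ℚ) • Real.log Real.pi -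
          q • Real.log Real.pi) + (1 / 2 : ℚ) • Real.log Real.pi + q • Real.log Real.pi := by ring
      rw [h4]
      exact (LA _).add_mem ((LA _).add_mem h3 ((LA _).smul_mem _ LA_pi)) ((LA _).smul_mem _ LA_pi)
    rw [log_mem_LA g] at h2
    have h5 : ((x : ℚ) : ℝ) = (j : ℝ) / D := by rw [hx]; push_cast; rfl
    rw [h5] at h2
    exact h2
  -- the data of an entry: s = sign, e = 1 for integers
  have hs : ∀ i, ∃ (s : ℤ) (e : ℕ),
      nc M (a i) = (s : ℚ) • nc M x - ((e : ℚ) / 2) • cl M (Real.log Real.pi) ∧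
      (e = 0 → Int.fract ((m : ℚ) * a i) = 1 / 2 + s * (Int.fract ((m : ℚ) * x) - 1 / 2)) := by
    intro i
    have hmint : (∀ z : ℤ, a i ≠ z) → Int.fract ((m : ℚ) * a i) ≠ 0 := by
      intro hint h0
      obtain ⟨z, hz⟩ := hD' i
      have h1 := Int.self_sub_fract ((m : ℚ) * a i)
      rw [h0, sub_zero] at h1
      set w := ⌊(m : ℚ) * a i⌋
      have h2 := Nat.isCoprime_iff_coprime.2 hm
      obtain ⟨u, v, huv⟩ := h2
      apply hint (u * w + v * z)
      have h3 : ((u : ℚ) * m + v * D') = 1 := by exact_mod_cast huv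
      push_cast
      rw [← h1, ← hz]
      calc a i = ((u : ℚ) * m + v * D') * a i := by rw [h3, one_mul]
        _ = _ := by ring
    obtain ⟨w, hw | hw | hw⟩ := ha i
    · refine ⟨1, 0, ?_, fun _ => ?_⟩
      · rw [nc_shift hM (a i) x (hnp i) hx0 w hw]
        push_cast; rw [one_smul, zero_div, zero_smul, sub_zero]
      · have h1 : (m : ℚ) * a i = (m : ℚ) * x + ((m * w : ℤ) : ℚ) := by
          rw [hw]; push_cast; ring
        rw [h1, Int.fract_add_intCast]
        push_cast; ring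
    · refine ⟨-1, 0, ?_, fun _ => ?_⟩
      · rw [nc_shift hM (a i) (1 - x) (hnp i) (by linarith) (w - 1) (by rw [hw]; push_cast; ring),
          nc_refl hM hx0 hx1]
        push_cast; rw [neg_smul, one_smul, zero_div, zero_smul, sub_zero]
      · have hint : ∀ z : ℤ, a i ≠ z := by
          intro z hz
          have h1 : x = ((w - z : ℤ) : ℚ) := by push_cast; linarith
          have h2 : (0 : ℚ) < ((w - z : ℤ) : ℚ) := by rw [← h1]; exact hx0
          have h3 : ((w - z : ℤ) : ℚ) < 1 := by rw [← h1]; exact hx1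
          have h4 : 0 < w - z := by exact_mod_cast h2
          have h5 : w - z < 1 := by exact_mod_cast h3
          omega
        have hmint' := hmint hint
        have h1 : (m : ℚ) * a i = -((m : ℚ) * x) + ((m * w : ℤ) : ℚ) := by
          rw [hw]; push_cast; ring
        rw [h1, Int.fract_add_intCast] at hmint' ⊢
        have h2 : Int.fract ((m : ℚ) * x) ≠ 0 := by
          intro h0
          apply hmint'
          have h3 := Int.self_sub_fract ((m : ℚ) * x)
          rw [h0, sub_zero] at h3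
          have h4 : -((m : ℚ) * x) = ((-⌊(m : ℚ) * x⌋ : ℤ) : ℚ) := by
            push_cast; rw [← h3]
          rw [h4]; exact Int.fract_intCast _
        rw [Int.fract_neg h2]
        push_cast; ring
    · rcases Int.even_or_odd' w with ⟨k, hk | hk⟩
      · -- an integer
        refine ⟨0, 1, ?_, fun h => absurd h one_ne_zero⟩
        have h1 : a i = 1 + ((k - 1 : ℤ) : ℚ) := by
          rw [hw, hk]; push_cast; ring
        rw [nc_shift hM (a i) 1 (hnp i) one_pos (k - 1) h1, nc_one]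
        push_cast
        rw [zero_smul, zero_sub]
      · -- a half-integer
        refine ⟨0, 0, ?_, fun _ => ?_⟩
        · have h1 : a i = 1 / 2 + (k : ℚ) := by
            rw [hw, hk]; push_cast; ring
          rw [nc_shift hM (a i) (1 / 2) (hnp i) (by norm_num) k h1, nc_half hM]
          push_cast
          rw [zero_smul, zero_div, zero_smul, sub_zero]
        · have hwk : a i = 1 / 2 + (k : ℚ) := by
            rw [hw, hk]; push_cast; ring
          obtain ⟨z, hz⟩ := hD' i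
          have h1 : ((D' * (1 + 2 * k) : ℤ) : ℚ) = ((2 * z : ℤ) : ℚ) := by
            push_cast
            rw [← hz, hwk]; ring
          have h2 : (D' : ℤ) * (1 + 2 * k) = 2 * z := by exact_mod_cast h1
          have h3 : ¬ Odd (D' : ℤ) := by
            intro ho
            have h4 : Odd ((D' : ℤ) * (1 + 2 * k)) := ho.mul ⟨k, by ring⟩
            rw [h2] at h4
            exact (Int.not_odd_iff_even.2 ⟨z, by ring⟩) h4
          have h4 : Odd m := by
            rw [← Nat.not_even_iff_odd]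
            intro he
            apply h3
            by_contra ho
            rw [Int.not_odd_iff_even] at ho
            have h5 : 2 ∣ D' := by
              have h6 := ho.two_dvd
              exact_mod_cast h6
            have h6 := Nat.dvd_gcd he.two_dvd h5
            rw [Nat.Coprime.gcd_eq_one hm] at h6
            omega
          obtain ⟨l, hl⟩ := h4
          have h5 : (m : ℚ) * a i = 1 / 2 + ((l + m * k : ℤ) : ℚ) := by
            rw [hwk]
            have h6 : (m : ℚ) = 2 * l + 1 := by exact_mod_cast hl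
            push_cast
            rw [h6]; ring
          rw [h5, Int.fract_add_intCast]
          have h6 : Int.fract (1 / 2 : ℚ) = 1 / 2 := by
            rw [Int.fract_eq_self]; norm_num
          rw [h6]; push_cast; ring
  choose s e hs1 hs2 using hs
  have hsum := sum_nc hM a hnp h
  rw [sum_congr rfl fun i _ => hs1 i, sum_sub_distrib, ← sum_smul, ← sum_smul, sub_eq_zero] at hsum
  have hs0 : ∑ i, (s i : ℚ) = 0 := by
    by_contra hne
    apply hxne ((∑ i, (s i : ℚ))⁻¹ * ∑ i, ((e i : ℚ) / 2))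
    rw [mul_smul, ← hsum, smul_smul, inv_mul_cancel₀ hne, one_smul]
  have he0 : ∑ i, ((e i : ℚ) / 2) = 0 := by
    rw [hs0, zero_smul] at hsum
    rcases smul_eq_zero.1 hsum.symm with h1 | h1
    · exact h1
    · exact absurd h1 hclpi
  have he : ∀ i, e i = 0 := by
    intro i
    rw [sum_eq_zero_iff_of_nonneg (fun i _ => by positivity)] at he0
    have h1 := he0 i (mem_univ i)
    have h2 : (e i : ℚ) = 0 := by linarith
    exact_mod_cast h2
  rw [sum_congr rfl fun i _ => hs2 i (he i), sum_add_distrib, ← sum_mul, hs0, zero_mul, add_zero,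
    sum_const, card_univ, Fintype.card_fin, nsmul_eq_mul]
  ring

end Pool.Agent.GP.DedM
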