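import Pool.Agent.GP.DedMe

/-! Reduced fractions: at least a quarter of each level. -/

set_option autoImplicit false

namespace Pool.Agent.GP.DedM

open Finset IntermediateField

variable {M : Submodule ℚ ℝ}

/-- the reduced numerators of level N -/
def uts (N : ℕ) : Finset ℕ := (Finset.Ico 1 N).filter fun t => Nat.Coprime t N

lemma mem_uts {N t : ℕ} : t ∈ uts N ↔ (1 ≤ t ∧ t < N) ∧ Nat.Coprime t N := by
  rw [uts, mem_filter, mem_Ico]

lemma card_uts {N : ℕ} (hN : 2 ≤ N) : (uts N).card = N.totient := by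
  rw [Nat.totient_eq_card_coprime]
  congr 1
  ext t
  rw [mem_uts, mem_filter, mem_range]
  constructor
  · rintro ⟨⟨_, h5⟩, h6⟩; exact ⟨h5, h6.symm⟩
  · rintro ⟨h5, h6⟩
    refine ⟨⟨?_, h5⟩, h6.symm⟩
    rcases Nat.eq_zero_or_pos t with h | h
    · rw [h, Nat.coprime_zero_right] at h6; omega
    · exact h

lemma uts_ne_half {N t : ℕ} (hN : 3 ≤ N) (ht : t ∈ uts N) : 2 * t ≠ N := by
  intro h
  rw [mem_uts] at ht
  have h7 : Nat.gcd t N = t := by
    rw [← h]; exact Nat.gcd_eq_left (Dvd.intro_left 2 rfl)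
  have := ht.2
  rw [Nat.Coprime, h7] at this
  omega

open Classical in
/-- combining for the reduced fractions -/
theorem combine_units {N : ℕ} (hN : 3 ≤ N) (hA : ThmA M N) (e : ℕ → ℕ)
    (he0 : ∀ t ∈ uts N, e t ∈ uts N)
    (he1 : ∀ t ∈ uts N, ¬ BadM M ((t : ℝ) / N) → gc M ((t : ℚ) / N) ≠ 0 ∨
      gc M ((e t : ℚ) / N) ≠ 0)
    (he2 : Set.InjOn e (uts N)) :
    N.totient ≤ 4 * ((uts N).filter fun t : ℕ => gc M ((t : ℚ) / N) ≠ 0).card := by
  set B := (uts N).filter fun t : ℕ => BadM M ((t : ℝ) / N) with hB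
  set Y := (uts N).filter fun t : ℕ => gc M ((t : ℚ) / N) ≠ 0 with hY
  have h0 : 2 * B.card ≤ N.totient := by
    unfold ThmA at hA
    refine le_trans (le_of_eq ?_) hA
    congr 2
    ext t
    rw [hB, uts, mem_filter, mem_filter, mem_filter]
    tauto
  have hsub : uts N \ B ⊆ Y ∪ ((uts N).filter fun t : ℕ => e t ∈ Y) := by
    intro t ht
    rw [mem_sdiff] at ht
    rcases he1 t ht.1 (fun h => ht.2 (mem_filter.2 ⟨ht.1, h⟩)) with h | h
    · exact mem_union.2 (Or.inl (mem_filter.2 ⟨ht.1, h⟩))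
    · exact mem_union.2 (Or.inr (mem_filter.2 ⟨ht.1, mem_filter.2 ⟨he0 t ht.1, h⟩⟩))
  have h1 : (uts N).card ≤ (uts N \ B).card + B.card := by
    have hBs : B ⊆ uts N := filter_subset _ _
    have h2 := card_sdiff_add_card_eq_card hBs
    omega
  have h2 : (uts N \ B).card ≤ Y.card + Y.card := by
    refine (card_le_card hsub).trans ((card_union_le _ _).trans ?_)
    apply Nat.add_le_add_left
    apply card_le_card_of_injOn e
    · intro t ht
      exact (mem_filter.1 ht).2
    · intro t ht t' ht' h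
      exact he2 (mem_filter.1 ht).1 (mem_filter.1 ht').1 h
  rw [card_uts (by omega)] at h1
  omega

open Classical in
/-- odd level, general M -/
theorem units_odd (hM : HasAlg M) {N : ℕ} (hN : 3 ≤ N) (ho : Odd N) (hA : ThmA M N) :
    N.totient ≤ 4 * ((uts N).filter fun t : ℕ => gc M ((t : ℚ) / N) ≠ 0).card := by
  have h2N : Nat.Coprime 2 N := (Nat.coprime_two_left).2 ho
  apply combine_units hN hA (fun t => (2 * t) % N)
  · intro t ht
    have hne := uts_ne_half hN ht
    rw [mem_uts] at ht ⊢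
    refine ⟨⟨mod_pos (by omega) (by omega) hne, Nat.mod_lt _ (by omega)⟩, ?_⟩
    have h1 : Nat.Coprime (2 * t) N := Nat.Coprime.mul_left h2N ht.2
    change Nat.gcd ((2 * t) % N) N = 1
    rw [← Nat.gcd_rec, Nat.gcd_comm]
    exact h1
  · intro t ht h1
    have hne := uts_ne_half hN ht
    have ht' := mem_uts.1 ht
    have hD : 0 < N := by omega
    have hl : t ∈ lets N := by
      rw [lets, mem_filter, mem_Ico]; exact ⟨ht'.1, hne⟩
    rcases dbl_prop hM hl h1 with h | h
    · left; exact (mem_filter.1 h).2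
    · right; exact (mem_filter.1 h).2
  · intro j hj j' hj' h
    rw [Finset.mem_coe, mem_uts] at hj hj'
    simp only at h
    obtain ⟨e, he⟩ := ho
    rcases lt_or_ge (2 * j) N with h1 | h1 <;> rcases lt_or_ge (2 * j') N with h2 | h2
    · rw [Nat.mod_eq_of_lt h1, Nat.mod_eq_of_lt h2] at h; omega
    · rw [Nat.mod_eq_of_lt h1, Nat.mod_eq_sub_mod h2, Nat.mod_eq_of_lt (by omega)] at h; omega
    · rw [Nat.mod_eq_sub_mod h1, Nat.mod_eq_of_lt (by omega), Nat.mod_eq_of_lt h2] at h; omega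
    · rw [Nat.mod_eq_sub_mod h1, Nat.mod_eq_of_lt (by omega), Nat.mod_eq_sub_mod h2,
        Nat.mod_eq_of_lt (by omega)] at h; omega

open Classical in
/-- level divisible by 4, M containing log pi -/
theorem units_four (hM : HasAlg M) (hpi : Real.log Real.pi ∈ M) {N : ℕ} (hN : 3 ≤ N)
    (h4 : 4 ∣ N) (hA : ThmA M N) :
    N.totient ≤ 4 * ((uts N).filter fun t : ℕ => gc M ((t : ℚ) / N) ≠ 0).card := by
  obtain ⟨q, hq⟩ := h4
  set E := 2 * q with hE
  have hNE : N = 2 * E := by omega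
  apply combine_units hN hA (fun t => (t + E) % N)
  · intro t ht
    have hne := uts_ne_half hN ht
    rw [mem_uts] at ht ⊢
    refine ⟨⟨mod_pos (by omega) (by omega) (by omega), Nat.mod_lt _ (by omega)⟩, ?_⟩
    -- a common prime divisor of t + E and N
    have hco : Nat.Coprime (t + E) N := by
      apply Nat.coprime_of_dvd
      intro p hp hp1 hp2
      have hpE : p ∣ E := by
        rcases (Nat.Prime.dvd_mul hp).1 (hNE ▸ hp2) with h | h
        · have : p = 2 := (Nat.prime_dvd_prime_iff_eq hp Nat.prime_two).1 h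
          rw [this, hE]; exact Dvd.intro q rfl
        · exact h
      have hpt : p ∣ t := (Nat.dvd_add_left hpE).1 hp1
      have := Nat.dvd_gcd hpt hp2
      rw [Nat.Coprime.gcd_eq_one ht.2] at this
      exact hp.one_lt.ne' (Nat.dvd_one.1 this)
    change Nat.gcd ((t + E) % N) N = 1
    rw [← Nat.gcd_rec, Nat.gcd_comm]
    exact hco
  · intro t ht h1
    have hne := uts_ne_half hN ht
    have ht' := mem_uts.1 ht
    have hD : 0 < N := by omega
    have hDq : (0 : ℚ) < N := by exact_mod_cast hD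
    have hjq : (0 : ℚ) < (t : ℚ) / N := by
      apply div_pos _ hDq
      exact_mod_cast ht'.1.1
    have h2 := badM_iff (M := M) (x := (t : ℚ) / N)
    push_cast at h2
    rw [h2, ← gc_dup hM hpi hjq, two_smul] at h1
    have h3 : gc M ((t : ℚ) / N + 1 / 2) = gc M ((((t + E) % N : ℕ) : ℚ) / N) := by
      have h4 : (t : ℚ) / N + 1 / 2 = (((t + E : ℕ)) : ℚ) / N := by
        have h5 : (N : ℚ) = 2 * E := by exact_mod_cast hNE
        have h6 : (E : ℚ) ≠ 0 := by
          have : 0 < E := by omega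
          positivity
        rw [h5]; push_cast; field_simp
      rw [h4]
      exact gc_mod hM hD (not_dvd_of (by omega) (by omega) (by omega)) (by omega)
    rw [h3] at h1
    by_contra hcon
    push Not at hcon
    rw [hcon.1, hcon.2] at h1
    exact h1 rfl
  · intro j hj j' hj' h
    rw [Finset.mem_coe, mem_uts] at hj hj'
    simp only at h
    rcases lt_or_ge (j + E) N with h1 | h1 <;> rcases lt_or_ge (j' + E) N with h2 | h2
    · rw [Nat.mod_eq_of_lt h1, Nat.mod_eq_of_lt h2] at h; omega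
    · rw [Nat.mod_eq_of_lt h1, Nat.mod_eq_sub_mod h2, Nat.mod_eq_of_lt (by omega)] at h; omega
    · rw [Nat.mod_eq_sub_mod h1, Nat.mod_eq_of_lt (by omega), Nat.mod_eq_of_lt h2] at h; omega
    · rw [Nat.mod_eq_sub_mod h1, Nat.mod_eq_of_lt (by omega), Nat.mod_eq_sub_mod h2,
        Nat.mod_eq_of_lt (by omega)] at h; omega

lemma trans_of_gc {θ : ℂ} {N t : ℕ} (h1 : 1 ≤ t) (h2 : t < N)
    (h : gc (LA θ) ((t : ℚ) / N) ≠ 0) :
    Transcendental ℚ⟮θ⟯ ((Real.Gamma ((t : ℝ) / N) : ℝ) : ℂ) := by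
  intro hcon
  apply h
  unfold gc
  rw [cl_eq_zero]
  have hD : (0 : ℝ) < N := by
    have : 0 < N := by omega
    exact_mod_cast this
  have hj' : (0 : ℝ) < (t : ℝ) / N := by
    apply div_pos _ hD
    exact_mod_cast h1
  push_cast
  rw [log_mem_LA (Real.Gamma_pos_of_pos hj')]
  exact hcon

open Classical in
/-- reduced fractions with odd denominator, general theta -/
theorem thmU_theta (hA : ThmAll) (θ : ℂ) {N : ℕ} (hN : 3 ≤ N) (ho : Odd N) :
    N.totient ≤ 4 * ((Finset.Ico 1 N).filter fun t : ℕ => Nat.Coprime t N ∧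
      Transcendental ℚ⟮θ⟯ ((Real.Gamma ((t : ℝ) / N) : ℝ) : ℂ)).card := by
  refine (units_odd (LA_hasAlg θ) hN ho (thmA_of hA hN)).trans ?_
  gcongr
  intro t ht
  rw [mem_filter, mem_uts] at ht
  rw [mem_filter, mem_Ico]
  exact ⟨ht.1.1, ht.1.2, trans_of_gc ht.1.1.1 ht.1.1.2 ht.2⟩

open Classical in
/-- reduced fractions, denominators not congruent to 2 mod 4, independence of pi -/
theorem thmU_pi (hA : ThmAll) {N : ℕ} (hN : 3 ≤ N) (h2 : N % 4 ≠ 2) :
    N.totient ≤ 4 * ((Finset.Ico 1 N).filter fun t : ℕ => Nat.Coprime t N ∧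
      AlgebraicIndependent ℚ ![Real.pi, Real.Gamma ((t : ℝ) / N)]).card := by
  have hpi := pi_transcendental hA
  have h1 : N.totient ≤ 4 * ((uts N).filter fun t : ℕ =>
      gc (LA (Real.pi : ℂ)) ((t : ℚ) / N) ≠ 0).card := by
    rcases Nat.even_or_odd N with he | ho
    · have h4 : 4 ∣ N := by
        obtain ⟨k, hk⟩ := he
        omega
      exact units_four (LA_hasAlg _) LA_pi hN h4 (thmA_of hA hN)
    · exact units_odd (LA_hasAlg _) hN ho (thmA_of hA hN)
  refine h1.trans ?_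
  gcongr
  intro t ht
  rw [mem_filter, mem_uts] at ht
  rw [mem_filter, mem_Ico]
  exact ⟨ht.1.1, ht.1.2, algInd hpi (trans_of_gc ht.1.1.1 ht.1.1.2 ht.2)⟩

end Pool.Agent.GP.DedM
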