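import Pool.Agent.GP.Defs
import Pool.Agent.Helper27.GP.Gelfond

/-! Module GELF: Gelfond's criterion in bounded degree (helper27). -/

set_option autoImplicit false

namespace Pool.Agent.GP

open Polynomial

theorem gelfond_criterion (θ : ℂ) (δ : ℕ) (σ Γ : ℝ) (hσ : 0 ≤ σ)
    (hΓ : 10 * δ * σ + 1 ≤ Γ) (A : ℕ → ℤ[X]) (N0 : ℕ)
    (h : ∀ N, N0 ≤ N → A N ≠ 0 ∧ (A N).natDegree ≤ δ ∧
      (∀ i, |((A N).coeff i : ℝ)| ≤ Real.exp (σ * N)) ∧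
      ‖aeval θ (A N)‖ ≤ Real.exp (-(Γ * N))) : IsAlgebraic ℚ θ :=
  Helper27.GP.gelfond_criterion θ δ σ Γ hσ hΓ A N0 h

end Pool.Agent.GP
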