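import Pool.Agent.GP.KeyC
import Pool.Agent.Helper32.GP.Grow

/-!
# Series with exponents in one residue class
-/

namespace GP

open Complex MeasureTheory Set

/-- the coefficients `s k` placed at the exponents `N k + a` -/
noncomputable def cls (N a : ℕ) (s : ℕ → ℂ) (n : ℕ) : ℂ := if n % N = a then s (n / N) else 0

lemma cls_inj {N : ℕ} (hN : 0 < N) (a : ℕ) : Function.Injective fun k : ℕ => N * k + a := by
  intro k l h
  have : N * k = N * l := by simpa using h
  exact Nat.eq_of_mul_eq_mul_left hN this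

lemma cls_apply {N a : ℕ} (ha : a < N) (s : ℕ → ℂ) (k : ℕ) : cls N a s (N * k + a) = s k := by
  have hN : 0 < N := by omega
  have h1 : (N * k + a) % N = a := by
    rw [Nat.mul_add_mod]; exact Nat.mod_eq_of_lt ha
  have h2 : (N * k + a) / N = k := by
    rw [Nat.mul_add_div hN, Nat.div_eq_of_lt ha, add_zero]
  rw [cls, if_pos h1, h2]

lemma cls_support {N a : ℕ} (s : ℕ → ℂ) (f : ℕ → ℂ) :
    Function.support (fun n => cls N a s n * f n) ⊆ Set.range fun k : ℕ => N * k + a := by
  intro n hn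
  have h1 : cls N a s n ≠ 0 := left_ne_zero_of_mul hn
  have h2 : n % N = a := by
    by_contra h
    exact h1 (by rw [cls, if_neg h])
  exact ⟨n / N, by rw [← h2]; exact Nat.div_add_mod n N⟩

lemma isWS_cls {N a : ℕ} (ha0 : 0 < a) (ha : a < N) {s : ℕ → ℂ}
    (hs : ∀ r : ℝ, 0 < r → r < 1 → Summable fun k => ‖s k‖ * r ^ k) : IsWS (cls N a s) := by
  have hN : 0 < N := by omega
  refine ⟨?_, ?_⟩
  · rw [cls, if_neg]; rw [Nat.zero_mod]; omega
  · intro r h0 h1
    have hinj := cls_inj hN a
    have hsup : ∀ n ∉ Set.range (fun k : ℕ => N * k + a), ‖cls N a s n‖ * r ^ n = 0 := by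
      intro n hn
      have : cls N a s n = 0 := by
        by_contra h
        exact hn (cls_support s (fun _ => 1) (by simpa using h))
      rw [this, norm_zero, zero_mul]
    rw [← hinj.summable_iff hsup]
    have h2 : r ^ N < 1 := pow_lt_one₀ h0.le h1 hN.ne'
    refine ((hs (r ^ N) (by positivity) h2).mul_left (r ^ a)).congr ?_
    intro k
    show r ^ a * (‖s k‖ * (r ^ N) ^ k) = ‖cls N a s (N * k + a)‖ * r ^ (N * k + a)
    rw [cls_apply ha, pow_add, pow_mul]
    ring

lemma ws_cls {N a : ℕ} (ha : a < N) (s : ℕ → ℂ) (z : ℂ) :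
    ws N (cls N a s) z = cexp (Real.pi * I * z / N) ^ a * ∑' k : ℕ, s k *
      cexp (Real.pi * I * z) ^ k := by
  have hN : 0 < N := by omega
  have hN' : (N : ℂ) ≠ 0 := by exact_mod_cast hN.ne'
  unfold ws
  rw [← (cls_inj hN a).tsum_eq (cls_support s _), ← tsum_mul_left]
  congr 1
  ext k
  rw [cls_apply ha, ← Complex.exp_nat_mul, ← Complex.exp_nat_mul]
  have e : cexp (Real.pi * I * ((N * k + a : ℕ) : ℂ) * z / ((N : ℝ) : ℂ)) =
      cexp (a * (Real.pi * I * z / N)) * cexp (k * (Real.pi * I * z)) := by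
    rw [← Complex.exp_add]
    congr 1
    push_cast
    field_simp
    ring
  rw [e]; ring

lemma cls_disjoint {N a b : ℕ} {s s' : ℕ → ℂ} {n : ℕ} (h : cls N a s n ≠ 0)
    (h' : cls N b s' n ≠ 0) : a = b := by
  have h1 : n % N = a := by by_contra hc; exact h (by rw [cls, if_neg hc])
  have h2 : n % N = b := by by_contra hc; exact h' (by rw [cls, if_neg hc])
  rw [← h1, h2]

end GP
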