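import Mathlib

/-!
Functions on the unit disc given by a formal power series (helper25, MP_c2409d_nt).
-/

open Finset Metric

namespace GP

/-- `f` is the sum of the power series `F` on the open unit disc. -/
def IsSer (F : PowerSeries ℂ) (f : ℂ → ℂ) : Prop :=
  ∀ w : ℂ, ‖w‖ < 1 → HasSum (fun n => PowerSeries.coeff n F * w ^ n) (f w)

namespace IsSer

theorem congr {F : PowerSeries ℂ} {f g : ℂ → ℂ} (hF : IsSer F f)
    (h : ∀ w : ℂ, ‖w‖ < 1 → f w = g w) : IsSer F g := fun w hw => by
  rw [← h w hw]; exact hF w hw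

theorem add {F G : PowerSeries ℂ} {f g : ℂ → ℂ} (hF : IsSer F f) (hG : IsSer G g) :
    IsSer (F + G) (fun w => f w + g w) := fun w hw => by
  simpa [add_mul] using (hF w hw).add (hG w hw)

theorem const (c : ℂ) : IsSer (PowerSeries.C c) (fun _ => c) := fun w _ => by
  have h := hasSum_single (f := fun n => PowerSeries.coeff n (PowerSeries.C c) * w ^ n) 0
    (fun n hn => by simp [PowerSeries.coeff_C, hn])
  simpa using h

theorem one : IsSer 1 (fun _ => 1) := by
  have := const 1
  simpa using this

theorem zero : IsSer 0 (fun _ => 0) := by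
  have := const 0
  simpa using this

theorem mul {F G : PowerSeries ℂ} {f g : ℂ → ℂ} (hF : IsSer F f) (hG : IsSer G g) :
    IsSer (F * G) (fun w => f w * g w) := fun w hw => by
  have h1 := (hF w hw).summable.norm
  have h2 := (hG w hw).summable.norm
  have h3 := tsum_mul_tsum_eq_tsum_sum_antidiagonal_of_summable_norm h1 h2
  have h4 := summable_norm_sum_mul_antidiagonal_of_summable_norm h1 h2
  rw [(hF w hw).tsum_eq, (hG w hw).tsum_eq] at h3
  have h5 : ∀ n, PowerSeries.coeff n (F * G) * w ^ n = ∑ kl ∈ antidiagonal n,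
      (PowerSeries.coeff kl.1 F * w ^ kl.1) * (PowerSeries.coeff kl.2 G * w ^ kl.2) := by
    intro n
    rw [PowerSeries.coeff_mul, Finset.sum_mul]
    refine Finset.sum_congr rfl fun kl hkl => ?_
    rw [← Finset.HasAntidiagonal.mem_antidiagonal.mp hkl, pow_add]; ring
  simp only
  rw [h3]
  simp_rw [h5]
  exact h4.of_norm.hasSum

theorem pow {F : PowerSeries ℂ} {f : ℂ → ℂ} (hF : IsSer F f) (n : ℕ) :
    IsSer (F ^ n) (fun w => f w ^ n) := by
  induction n with
  | zero => simpa using one
  | succ n ih => simpa [pow_succ] using ih.mul hF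

theorem sum {ι : Type*} (s : Finset ι) {F : ι → PowerSeries ℂ} {f : ι → ℂ → ℂ}
    (h : ∀ i ∈ s, IsSer (F i) (f i)) : IsSer (∑ i ∈ s, F i) (fun w => ∑ i ∈ s, f i w) := by
  classical
  induction s using Finset.induction_on with
  | empty => simpa using zero
  | insert a s ha ih =>
    rw [Finset.sum_insert ha]
    refine ((h a (Finset.mem_insert_self _ _)).add
      (ih fun i hi => h i (Finset.mem_insert_of_mem hi))).congr fun w _ => ?_
    rw [Finset.sum_insert ha]

theorem prod {ι : Type*} (s : Finset ι) {F : ι → PowerSeries ℂ} {f : ι → ℂ → ℂ}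
    (h : ∀ i ∈ s, IsSer (F i) (f i)) : IsSer (∏ i ∈ s, F i) (fun w => ∏ i ∈ s, f i w) := by
  classical
  induction s using Finset.induction_on with
  | empty => simpa using one
  | insert a s ha ih =>
    rw [Finset.prod_insert ha]
    refine ((h a (Finset.mem_insert_self _ _)).mul
      (ih fun i hi => h i (Finset.mem_insert_of_mem hi))).congr fun w _ => ?_
    rw [Finset.prod_insert ha]

/-- Value at zero. -/
theorem apply_zero {F : PowerSeries ℂ} {f : ℂ → ℂ} (hF : IsSer F f) :
    f 0 = PowerSeries.constantCoeff F := by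
  have h := hF 0 (by simp)
  have h2 := hasSum_single (f := fun n => PowerSeries.coeff n F * (0:ℂ) ^ n) 0
    (fun n hn => by simp [hn])
  have := h.unique h2
  simpa using this

/-- The function is analytic on the unit disc. -/
theorem differentiableOn {F : PowerSeries ℂ} {f : ℂ → ℂ} (hF : IsSer F f) :
    DifferentiableOn ℂ f (ball 0 1) := by
  have hser : HasFPowerSeriesOnBall f
      (FormalMultilinearSeries.ofScalars ℂ (fun n => PowerSeries.coeff n F)) 0 1 := by
    refine ⟨?_, one_pos, ?_⟩
    · refine ENNReal.le_of_forall_nnreal_lt fun r hr => ?_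
      apply FormalMultilinearSeries.le_radius_of_summable_norm
      have hr1 : (r : ℝ) < 1 := by exact_mod_cast hr
      have h := (hF (r : ℂ) (by simpa using hr1)).summable.norm
      refine h.congr fun n => ?_
      simp
    · intro w hw
      have hw' : ‖w‖ < 1 := by
        have : w ∈ Metric.eball (0:ℂ) 1 := hw
        rw [show (1 : ENNReal) = ENNReal.ofReal 1 by simp, Metric.eball_ofReal] at this
        simpa using this
      have := hF w hw'
      rw [zero_add]
      simpa [FormalMultilinearSeries.ofScalars_apply_eq, mul_comm] using this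
  have h2 := hser.differentiableOn
  rw [show (1 : ENNReal) = ENNReal.ofReal 1 by simp, Metric.eball_ofReal] at h2
  exact h2

/-- Factorisation by a power of `w`. -/
theorem factor {F : PowerSeries ℂ} {f : ℂ → ℂ} (hF : IsSer F f) {N : ℕ}
    (h : ∀ n < N, PowerSeries.coeff n F = 0) :
    ∃ H : PowerSeries ℂ, ∃ g : ℂ → ℂ, F = PowerSeries.X ^ N * H ∧ IsSer H g ∧
      ∀ w : ℂ, ‖w‖ < 1 → f w = w ^ N * g w := by
  obtain ⟨H, hH⟩ := PowerSeries.X_pow_dvd_iff.mpr h
  have hcoef : ∀ n, PowerSeries.coeff n H = PowerSeries.coeff (n + N) F := by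
    intro n
    rw [hH, PowerSeries.coeff_X_pow_mul]
  have hsum : ∀ w : ℂ, ‖w‖ < 1 → Summable (fun n => PowerSeries.coeff n H * w ^ n) := by
    intro w hw
    by_cases hw0 : w = 0
    · subst hw0
      exact (hasSum_single (f := fun n => PowerSeries.coeff n H * (0:ℂ) ^ n) 0
        (fun n hn => by simp [hn])).summable
    · have h1 := (hF w hw).summable
      have h2 := (summable_nat_add_iff N).mpr h1
      have h3 := h2.mul_left ((w ^ N)⁻¹)
      refine h3.congr fun n => ?_
      rw [hcoef, pow_add]
      field_simp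
  refine ⟨H, fun w => ∑' n, PowerSeries.coeff n H * w ^ n, hH, fun w hw => (hsum w hw).hasSum, ?_⟩
  intro w hw
  have h1 := hF w hw
  have h2 : HasSum (fun n => PowerSeries.coeff (n + N) F * w ^ (n + N)) (f w) := by
    have h3 : ∑ i ∈ range N, PowerSeries.coeff i F * w ^ i = 0 :=
      Finset.sum_eq_zero fun i hi => by rw [h i (Finset.mem_range.mp hi), zero_mul]
    rw [hasSum_nat_add_iff (f := fun n => PowerSeries.coeff n F * w ^ n) N, h3, add_zero]
    exact h1
  have h4 : HasSum (fun n => PowerSeries.coeff (n + N) F * w ^ (n + N))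
      (w ^ N * ∑' n, PowerSeries.coeff n H * w ^ n) := by
    have h5 := (hsum w hw).hasSum.mul_left (w ^ N)
    have h6 : (fun n => PowerSeries.coeff (n + N) F * w ^ (n + N)) =
        (fun n => w ^ N * (PowerSeries.coeff n H * w ^ n)) := by
      funext n
      rw [hcoef, pow_add]; ring
    rw [h6]
    exact h5
  exact h2.unique h4

end IsSer

end GP
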