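import Pool.Agent.GP.Slaw
import Pool.Agent.GP.Coc
import Pool.Agent.GP.Ser
import Pool.Agent.GP.KeyD

/-! Module LAMX: expansions in powers of lambda^(1/p), comparison of the orders. -/

set_option autoImplicit false

namespace Pool.Agent.GP

open Complex Metric Set

/-- the p-th root of lambda as a function of the local parameter -/
noncomputable def xiw (p : ℕ) (w : ℂ) : ℂ :=
  (((16 : ℝ) ^ ((1 : ℝ) / p) : ℝ) : ℂ) * w * cexp ((lW2 (w ^ p) - lW4 (-w ^ p)) / p)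

/-! ### the binomial series -/

lemma binom_hasSum (s : ℂ) {x : ℂ} (hx : ‖x‖ < 1) :
    HasSum (fun k : ℕ => (-1) ^ k * Ring.choose s k * x ^ k) ((1 - x) ^ s) := by
  have h := (Complex.one_add_cpow_hasFPowerSeriesOnBall_zero (a := s)).hasSum (y := -x) (by
    rw [← ENNReal.ofReal_one, Metric.eball_ofReal]
    simpa using hx)
  simp only [binomialSeries_apply, zero_add] at h
  rw [← sub_eq_add_neg] at h
  refine h.congr_fun ?_
  intro k
  show (-1) ^ k * Ring.choose s k * x ^ k = _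
  rw [List.ofFn_const, List.prod_replicate, smul_eq_mul, neg_pow x k]
  ring

/-- the coefficients of the binomial series -/
noncomputable def bs (p b k : ℕ) : ℂ := (-1) ^ k * Ring.choose ((b : ℂ) / p - 1) k

/-- the coefficients of the integrated series -/
noncomputable def bi (p a b k : ℕ) : ℂ := bs p b k / (((p * k + a : ℕ) : ℂ) / p)

lemma rc_eq_cls {p a : ℕ} (ha : a < p) (b ν : ℕ) :
    ((rc p a b ν : ℚ) : ℂ) = _root_.GP.cls p a (bi p a b) ν := by
  have hp : 0 < p := by omega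
  rw [rc, _root_.GP.cls]
  by_cases h : ν % p = a
  · have hdiv : ν = p * (ν / p) + a := by
      have := Nat.div_add_mod ν p
      rw [h] at this; exact this.symm
    have h2 : (ν - a) / p = ν / p := by
      have : ν - a = p * (ν / p) := by omega
      rw [this, Nat.mul_div_cancel_left _ hp]
    rw [if_pos h, if_pos h, h2, bi, bs, ← hdiv]
    push_cast
    have h3 : ((Ring.choose ((b : ℚ) / p - 1) (ν / p) : ℚ) : ℂ) =
        Ring.choose ((b : ℂ) / p - 1) (ν / p) := by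
      have := Ring.map_choose (algebraMap ℚ ℂ) ((b : ℚ) / p - 1) (ν / p)
      simpa using this
    rw [h3]
  · rw [if_neg h, if_neg h, Rat.cast_zero]

lemma norm_bi_le {p a : ℕ} (ha0 : 0 < a) (ha : a < p) (b k : ℕ) :
    ‖bi p a b k‖ ≤ p * ‖bs p b k‖ := by
  have hp : (0 : ℝ) < p := by
    have : 0 < p := by omega
    exact_mod_cast this
  rw [bi, norm_div, norm_div, norm_natCast, norm_natCast]
  have h1 : (1 : ℝ) ≤ ((p * k + a : ℕ) : ℝ) := by
    have : 1 ≤ p * k + a := by omega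
    exact_mod_cast this
  rw [div_div_eq_mul_div, div_le_iff₀ (by linarith)]
  have h2 := norm_nonneg (bs p b k)
  have h3 : 0 ≤ (p : ℝ) * ‖bs p b k‖ := by positivity
  nlinarith

lemma bs_summable (p b : ℕ) {r : ℝ} (h0 : 0 < r) (h1 : r < 1) :
    Summable fun k => ‖bs p b k‖ * r ^ k := by
  have h := (binom_hasSum ((b : ℂ) / p - 1) (x := (r : ℂ)) (by
    rw [norm_real, Real.norm_of_nonneg h0.le]; exact h1)).summable.norm
  refine h.congr ?_
  intro k
  rw [norm_mul, norm_pow, norm_real, Real.norm_of_nonneg h0.le]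
  rfl

lemma rc_isWS {p a : ℕ} (ha0 : 0 < a) (ha : a < p) (b : ℕ) :
    _root_.GP.IsWS fun ν => ((rc p a b ν : ℚ) : ℂ) := by
  have h : (fun ν => ((rc p a b ν : ℚ) : ℂ)) = _root_.GP.cls p a (bi p a b) := by
    ext ν; exact rc_eq_cls ha b ν
  rw [h]
  refine _root_.GP.isWS_cls ha0 ha ?_
  intro r h0 h1
  refine Summable.of_nonneg_of_le (fun k => by positivity) ?_ ((bs_summable p b h0 h1).mul_left (p : ℝ))
  intro k
  have := norm_bi_le ha0 ha b k
  calc ‖bi p a b k‖ * r ^ k ≤ p * ‖bs p b k‖ * r ^ k := by gcongr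
    _ = p * (‖bs p b k‖ * r ^ k) := by ring

/-- the function on the disc of xi -/
noncomputable def Rf (p a b : ℕ) (ξ : ℂ) : ℂ := ∑' ν : ℕ, ((rc p a b ν : ℚ) : ℂ) * ξ ^ ν

lemma rc_summable {p a : ℕ} (ha0 : 0 < a) (ha : a < p) (b : ℕ) {ξ : ℂ} (hξ : ‖ξ‖ < 1) :
    Summable fun ν : ℕ => ‖((rc p a b ν : ℚ) : ℂ) * ξ ^ ν‖ := by
  obtain ⟨r, h1, h2⟩ := exists_between hξ
  have h0 : 0 < r := (norm_nonneg ξ).trans_lt h1
  refine Summable.of_nonneg_of_le (fun ν => norm_nonneg _) ?_ ((rc_isWS ha0 ha b).summ r h0 h2)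
  intro ν
  rw [norm_mul, norm_pow]
  gcongr

lemma Rf_hasSum {p a : ℕ} (ha0 : 0 < a) (ha : a < p) (b : ℕ) {ξ : ℂ} (hξ : ‖ξ‖ < 1) :
    HasSum (fun ν : ℕ => ((rc p a b ν : ℚ) : ℂ) * ξ ^ ν) (Rf p a b ξ) :=
  (rc_summable ha0 ha b hξ).of_norm.hasSum

lemma Rf_isSer {p a : ℕ} (ha0 : 0 < a) (ha : a < p) (b : ℕ) :
    _root_.GP.IsSer (Rs p a b) (Rf p a b) := by
  intro ξ hξ
  simp only [Rs, PowerSeries.coeff_mk]
  exact Rf_hasSum ha0 ha b hξ

lemma Rf_zero {p a : ℕ} (ha0 : 0 < a) (ha : a < p) (b : ℕ) : Rf p a b 0 = 0 := by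
  rw [(Rf_isSer ha0 ha b).apply_zero, Rs, ← PowerSeries.coeff_zero_eq_constantCoeff_apply,
    PowerSeries.coeff_mk]
  exact (rc_isWS ha0 ha b).zero

/-- derivative of the integrated series -/
lemma Rf_hasDerivAt {p a : ℕ} (ha0 : 0 < a) (ha : a < p) (b : ℕ) {ξ : ℂ} (hξ : ‖ξ‖ < 1) :
    HasDerivAt (Rf p a b) (p * ξ ^ (a - 1) * (1 - ξ ^ p) ^ ((b : ℂ) / p - 1)) ξ := by
  have hp : 0 < p := by omega
  have hpC : (p : ℂ) ≠ 0 := by exact_mod_cast hp.ne'
  obtain ⟨r, h1, h2⟩ := exists_between hξ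
  have h0 : 0 < r := (norm_nonneg ξ).trans_lt h1
  have hsum := (rc_isWS ha0 ha b).summ r h0 h2
  have hd : ∀ ν : ℕ, DifferentiableOn ℂ (fun z : ℂ => ((rc p a b ν : ℚ) : ℂ) * z ^ ν)
      (ball 0 r) := fun ν => by fun_prop
  have hle : ∀ (ν : ℕ), ∀ z ∈ ball (0 : ℂ) r, ‖((rc p a b ν : ℚ) : ℂ) * z ^ ν‖ ≤
      ‖((rc p a b ν : ℚ) : ℂ)‖ * r ^ ν := by
    intro ν z hz
    have : ‖z‖ < r := by simpa using hz
    rw [norm_mul, norm_pow]
    gcongr
  have hmem : ξ ∈ ball (0 : ℂ) r := by simpa using h1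
  have hs := hasSum_deriv_of_summable_norm hsum hd isOpen_ball hle hmem
  have hdiff := differentiableOn_tsum_of_summable_norm hsum hd isOpen_ball hle
  have hda : HasDerivAt (Rf p a b) (deriv (Rf p a b) ξ) ξ :=
    (hdiff.differentiableAt (isOpen_ball.mem_nhds hmem)).hasDerivAt
  have hval : deriv (Rf p a b) ξ = p * ξ ^ (a - 1) * (1 - ξ ^ p) ^ ((b : ℂ) / p - 1) := by
    have e1 : deriv (Rf p a b) ξ =
        ∑' ν : ℕ, deriv (fun z : ℂ => ((rc p a b ν : ℚ) : ℂ) * z ^ ν) ξ := hs.tsum_eq.symm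
    rw [e1]
    have e2 : ∀ ν : ℕ, deriv (fun z : ℂ => ((rc p a b ν : ℚ) : ℂ) * z ^ ν) ξ =
        _root_.GP.cls p a (bi p a b) ν * (ν * ξ ^ (ν - 1)) := by
      intro ν
      rw [deriv_const_mul _ (by fun_prop), deriv_pow_field, rc_eq_cls ha]
    simp only [e2]
    rw [← (_root_.GP.cls_inj hp a).tsum_eq (_root_.GP.cls_support _ _)]
    have e3 : ∀ k : ℕ, _root_.GP.cls p a (bi p a b) (p * k + a) *
        (((p * k + a : ℕ) : ℂ) * ξ ^ (p * k + a - 1)) =
        p * ξ ^ (a - 1) * ((-1) ^ k * Ring.choose ((b : ℂ) / p - 1) k * (ξ ^ p) ^ k) := by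
      intro k
      rw [_root_.GP.cls_apply ha, bi, bs]
      have h3 : ((p * k + a : ℕ) : ℂ) ≠ 0 := by
        have : p * k + a ≠ 0 := by omega
        exact_mod_cast this
      have h4 : p * k + a - 1 = (a - 1) + p * k := by omega
      rw [h4, pow_add, pow_mul]
      field_simp
    simp only [e3]
    rw [tsum_mul_left]
    congr 1
    have hξp : ‖ξ ^ p‖ < 1 := by
      rw [norm_pow]
      exact pow_lt_one₀ (norm_nonneg _) hξ hp.ne'
    exact (binom_hasSum _ hξp).tsum_eq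
  rw [← hval]
  exact hda

/-! ### two functions with the same derivative -/

lemma eqOn_of_deriv {f g : ℂ → ℂ} {r : ℝ} (hr : 0 < r) (hf : DifferentiableOn ℂ f (ball 0 r))
    (hg : DifferentiableOn ℂ g (ball 0 r)) (h0 : f 0 = g 0)
    (hd : ∀ w ∈ ball (0 : ℂ) r, w ≠ 0 → deriv f w = deriv g w) :
    ∀ w ∈ ball (0 : ℂ) r, f w = g w := by
  have hh : DifferentiableOn ℂ (f - g) (ball 0 r) := hf.sub hg
  have hdw : ∀ w ∈ ball (0 : ℂ) r, w ≠ 0 → deriv (f - g) w = 0 := by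
    intro w hw hw0
    have h1 := hf.differentiableAt (isOpen_ball.mem_nhds hw)
    have h2 := hg.differentiableAt (isOpen_ball.mem_nhds hw)
    rw [deriv_sub h1 h2, hd w hw hw0, sub_self]
  have hmem0 : (0 : ℂ) ∈ ball (0 : ℂ) r := by simpa using hr
  have hd0 : deriv (f - g) 0 = 0 := by
    have hc : ContinuousAt (deriv (f - g)) 0 :=
      ((hh.deriv isOpen_ball).differentiableAt (isOpen_ball.mem_nhds hmem0)).continuousAt
    have h1 : Filter.Tendsto (deriv (f - g)) (nhdsWithin 0 {0}ᶜ) (nhds (deriv (f - g) 0)) :=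
      hc.tendsto.mono_left nhdsWithin_le_nhds
    have h2 : Filter.Tendsto (deriv (f - g)) (nhdsWithin 0 {0}ᶜ) (nhds 0) := by
      refine Filter.Tendsto.congr' ?_ tendsto_const_nhds
      have h3 : ball (0 : ℂ) r ∈ nhdsWithin (0 : ℂ) {0}ᶜ :=
        mem_nhdsWithin_of_mem_nhds (isOpen_ball.mem_nhds hmem0)
      filter_upwards [h3, self_mem_nhdsWithin] with w hw hw0
      exact (hdw w hw hw0).symm
    exact tendsto_nhds_unique h1 h2
  have hall : ∀ w ∈ ball (0 : ℂ) r, deriv (f - g) w = 0 := by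
    intro w hw
    by_cases h : w = 0
    · rw [h]; exact hd0
    · exact hdw w hw h
  intro w hw
  have h1 := isOpen_ball.is_const_of_deriv_eq_zero (convex_ball 0 r).isPreconnected hh
    (fun x hx => hall x hx) hw hmem0
  have h2 : f w - g w = f 0 - g 0 := h1
  rw [h0, sub_self] at h2
  exact sub_eq_zero.1 h2

/-! ### the function xiw -/

lemma pw_mem_bl {p : ℕ} (hp : 0 < p) {w : ℂ} (hw : w ∈ ball (0 : ℂ) 1) :
    w ^ p ∈ ball (0 : ℂ) 1 := by
  have : ‖w‖ < 1 := by simpa using hw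
  have h2 : ‖w ^ p‖ < 1 := by
    rw [norm_pow]; exact pow_lt_one₀ (norm_nonneg _) this hp.ne'
  simpa using h2

lemma npw_mem_bl {p : ℕ} (hp : 0 < p) {w : ℂ} (hw : w ∈ ball (0 : ℂ) 1) :
    -w ^ p ∈ ball (0 : ℂ) 1 := by
  have := pw_mem_bl hp hw
  simpa using this

lemma diff_lW2p {p : ℕ} (hp : 0 < p) : DifferentiableOn ℂ (fun w => lW2 (w ^ p)) (ball 0 1) :=
  lW2_diff.comp (by fun_prop) fun _ hw => pw_mem_bl hp hw

lemma diff_lW4p {p : ℕ} (hp : 0 < p) : DifferentiableOn ℂ (fun w => lW4 (w ^ p)) (ball 0 1) :=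
  lW4_diff.comp (by fun_prop) fun _ hw => pw_mem_bl hp hw

lemma diff_lW4n {p : ℕ} (hp : 0 < p) : DifferentiableOn ℂ (fun w => lW4 (-w ^ p)) (ball 0 1) :=
  lW4_diff.comp (by fun_prop) fun _ hw => npw_mem_bl hp hw

lemma xiw_diff {p : ℕ} (hp : 0 < p) : DifferentiableOn ℂ (xiw p) (ball 0 1) := by
  unfold xiw
  refine (DifferentiableOn.mul (by fun_prop) ?_)
  exact (((diff_lW2p hp).sub (diff_lW4n hp)).div_const _).cexp

lemma xiw_zero (p : ℕ) : xiw p 0 = 0 := by simp [xiw]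

lemma c16_ne (p : ℕ) : (((16 : ℝ) ^ ((1 : ℝ) / p) : ℝ) : ℂ) ≠ 0 := by
  have : (0 : ℝ) < (16 : ℝ) ^ ((1 : ℝ) / p) := by positivity
  exact_mod_cast this.ne'

lemma c16_pow {p : ℕ} (n : ℕ) :
    (((16 : ℝ) ^ ((1 : ℝ) / p) : ℝ) : ℂ) ^ n = (((16 : ℝ) ^ ((n : ℝ) / p) : ℝ) : ℂ) := by
  have h : ((16 : ℝ) ^ ((1 : ℝ) / p)) ^ n = (16 : ℝ) ^ ((n : ℝ) / p) := by
    rw [← Real.rpow_natCast, ← Real.rpow_mul (by norm_num)]
    congr 1
    ring
  rw [← h]; push_cast; rfl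

lemma xiw_pow {p : ℕ} (hp : 0 < p) (w : ℂ) :
    xiw p w ^ p = 16 * w ^ p * cexp (lW2 (w ^ p) - lW4 (-w ^ p)) := by
  have hpC : (p : ℂ) ≠ 0 := by exact_mod_cast hp.ne'
  have hpR : (p : ℝ) ≠ 0 := by exact_mod_cast hp.ne'
  rw [xiw, mul_pow, mul_pow, c16_pow, ← Complex.exp_nat_mul, div_self hpR, Real.rpow_one]
  have : (p : ℂ) * ((lW2 (w ^ p) - lW4 (-w ^ p)) / p) = lW2 (w ^ p) - lW4 (-w ^ p) := by
    field_simp
  rw [this]
  push_cast
  rfl

lemma xiw_ne_zero (p : ℕ) {w : ℂ} (hw : w ≠ 0) : xiw p w ≠ 0 :=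
  mul_ne_zero (mul_ne_zero (c16_ne p) hw) (Complex.exp_ne_zero _)

/-- every point of the punctured disc is a value of wn -/
lemma lx_exists_wn {p : ℕ} (hp : 0 < p) {w : ℂ} (hw0 : w ≠ 0) (hw : ‖w‖ < 1) :
    ∃ τ : ℂ, 0 < τ.im ∧ wn p τ = w := by
  have hpC : (p : ℂ) ≠ 0 := by exact_mod_cast hp.ne'
  have hpR : (0 : ℝ) < p := by exact_mod_cast hp
  have hpi : (Real.pi : ℂ) ≠ 0 := by exact_mod_cast Real.pi_ne_zero
  refine ⟨Complex.log w * p / (Real.pi * I), ?_, ?_⟩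
  · have e : Complex.log w * p / (Real.pi * I) = ((p / Real.pi : ℝ) : ℂ) * (-I * Complex.log w) := by
      push_cast
      field_simp
      rw [I_sq]; ring
    rw [e, Complex.im_ofReal_mul]
    have h2 : (-I * Complex.log w).im = -Real.log ‖w‖ := by
      rw [neg_mul, neg_im, I_mul_im, log_re]
    rw [h2]
    have h3 : Real.log ‖w‖ < 0 := Real.log_neg (norm_pos_iff.2 hw0) hw
    have := Real.pi_pos
    have h4 : 0 < -Real.log ‖w‖ := by linarith
    positivity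
  · rw [wn]
    have e : (Real.pi : ℂ) * I * (Complex.log w * p / (Real.pi * I)) / p = Complex.log w := by
      field_simp
    rw [e, Complex.exp_log hw0]

lemma wn_hasDerivAt {p : ℕ} (τ : ℂ) : HasDerivAt (wn p) (wn p τ * (Real.pi * I / p)) τ := by
  unfold wn
  have h := ((hasDerivAt_id τ).const_mul (Real.pi * I : ℂ)).div_const (p : ℂ)
  have h2 := h.cexp
  simpa using h2

lemma lam_eq {p : ℕ} (hp : 0 < p) (τ : ℂ) : lam τ = xiw p (wn p τ) ^ p := by
  rw [xiw_pow hp, wn_pow hp, lam, th2, th3, Complex.exp_sub]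
  ring

lemma xiw_hasDerivAt {p : ℕ} (hp : 0 < p) {w : ℂ} (hw0 : w ≠ 0) (hw : ‖w‖ < 1) :
    HasDerivAt (xiw p) (xiw p w * cexp (lW4 (w ^ p)) / w) w := by
  obtain ⟨τ, hτ, rfl⟩ := lx_exists_wn hp hw0 hw
  have hpC : (p : ℂ) ≠ 0 := by exact_mod_cast hp.ne'
  have hpi : (Real.pi : ℂ) ≠ 0 := by exact_mod_cast Real.pi_ne_zero
  have hmem : wn p τ ∈ ball (0 : ℂ) 1 := by simpa using hw
  have hd := ((xiw_diff hp).differentiableAt (isOpen_ball.mem_nhds hmem)).hasDerivAt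
  set D := deriv (xiw p) (wn p τ) with hD
  have h1 : HasDerivAt (fun τ => xiw p (wn p τ) ^ p)
      (p * xiw p (wn p τ) ^ (p - 1) * (D * (wn p τ * (Real.pi * I / p)))) τ :=
    (hd.comp τ (wn_hasDerivAt τ)).pow p
  have h2 : HasDerivAt lam (Real.pi * I * lam τ * th4 τ) τ := lam_hasDerivAt hτ
  have h3 : lam = fun τ => xiw p (wn p τ) ^ p := by ext τ; exact lam_eq hp τ
  rw [h3] at h2
  have h4 := h1.unique h2
  have hξ := xiw_ne_zero p hw0
  have h5 : xiw p (wn p τ) ^ p = xiw p (wn p τ) ^ (p - 1) * xiw p (wn p τ) := by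
    rw [← pow_succ, Nat.sub_add_cancel hp]
  have h6 : th4 τ = cexp (lW4 (wn p τ ^ p)) := by rw [th4, wn_pow hp]
  have h7 : D = xiw p (wn p τ) * cexp (lW4 (wn p τ ^ p)) / wn p τ := by
    simp only at h4
    rw [h5, h6] at h4
    have hξ' : xiw p (wn p τ) ^ (p - 1) ≠ 0 := pow_ne_zero _ hξ
    field_simp at h4 ⊢
    linear_combination h4
  rw [← h7]
  exact hd

lemma Fw_hasDerivAt {p a b : ℕ} (hA : Adm p a b) {w : ℂ} (hw0 : w ≠ 0) (hw : ‖w‖ < 1) :
    HasDerivAt (Fw p a b) (p * (((16 : ℝ) ^ ((a : ℝ) / p) : ℝ) : ℂ) * w ^ a * Sq p a b (w ^ p) / w)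
      w := by
  have hp : 0 < p := by have := hA.ap; omega
  obtain ⟨τ, hτ, rfl⟩ := lx_exists_wn hp hw0 hw
  have hpC : (p : ℂ) ≠ 0 := by exact_mod_cast hp.ne'
  have hpi : (Real.pi : ℂ) ≠ 0 := by exact_mod_cast Real.pi_ne_zero
  have hmem : wn p τ ∈ ball (0 : ℂ) 1 := by simpa using hw
  have hd := ((Fw_diff hA).differentiableAt (isOpen_ball.mem_nhds hmem)).hasDerivAt
  set D := deriv (Fw p a b) (wn p τ) with hD
  have h1 : HasDerivAt (F p a b) (D * (wn p τ * (Real.pi * I / p))) τ :=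
    hd.comp τ (wn_hasDerivAt τ)
  have h2 := F_hasDerivAt hA hτ
  have h4 := h1.unique h2
  have h7 : D = p * (((16 : ℝ) ^ ((a : ℝ) / p) : ℝ) : ℂ) * wn p τ ^ a * Sq p a b (wn p τ ^ p) /
      wn p τ := by
    have h5 : cexp (Real.pi * I * τ * (a / p)) = wn p τ ^ a := by
      rw [wn, ← Complex.exp_nat_mul]; congr 1; ring
    rw [gd, h5, ← wn_pow hp] at h4
    field_simp at h4 ⊢
    linear_combination h4
  rw [← h7]
  exact hd

/-- near the cusp the integral is the binomial series in powers of lambda^(1/p) -/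
theorem Fw_eq_rc {p a b : ℕ} (hA : Adm p a b) :
    ∃ r : ℝ, 0 < r ∧ r < 1 ∧ ∀ w : ℂ, ‖w‖ < r → ‖xiw p w‖ < 1 ∧
      HasSum (fun ν : ℕ => ((rc p a b ν : ℚ) : ℂ) * xiw p w ^ ν) (Fw p a b w) := by
  have hp : 0 < p := by have := hA.ap; omega
  have hpC : (p : ℂ) ≠ 0 := by exact_mod_cast hp.ne'
  have hmem0 : (0 : ℂ) ∈ ball (0 : ℂ) 1 := by simp
  -- a small disc
  have hc1 : ContinuousAt (xiw p) 0 :=
    ((xiw_diff hp).differentiableAt (isOpen_ball.mem_nhds hmem0)).continuousAt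
  have hc2 : ContinuousAt (fun w : ℂ => lW4 (w ^ p) - lW4 (-w ^ p)) 0 :=
    (((diff_lW4p hp).sub (diff_lW4n hp)).differentiableAt
      (isOpen_ball.mem_nhds hmem0)).continuousAt
  have hz2 : lW4 ((0 : ℂ) ^ p) - lW4 (-(0 : ℂ) ^ p) = 0 := by
    rw [zero_pow hp.ne', neg_zero, sub_self]
  have he1 : ∀ᶠ w in nhds (0 : ℂ), ‖xiw p w‖ < 1 := by
    have : Filter.Tendsto (fun w => ‖xiw p w‖) (nhds 0) (nhds ‖xiw p 0‖) := hc1.norm
    rw [xiw_zero, norm_zero] at this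
    exact this.eventually (gt_mem_nhds one_pos)
  have he2 : ∀ᶠ w in nhds (0 : ℂ), ‖lW4 (w ^ p) - lW4 (-w ^ p)‖ < Real.pi := by
    have : Filter.Tendsto (fun w : ℂ => ‖lW4 (w ^ p) - lW4 (-w ^ p)‖) (nhds 0)
        (nhds ‖lW4 ((0 : ℂ) ^ p) - lW4 (-(0 : ℂ) ^ p)‖) := hc2.norm
    rw [hz2, norm_zero] at this
    exact this.eventually (gt_mem_nhds Real.pi_pos)
  obtain ⟨r', hr', hball⟩ := Metric.eventually_nhds_iff_ball.1 (he1.and he2)
  set r := min r' (1 / 2) with hr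
  have hr0 : 0 < r := lt_min hr' (by norm_num)
  have hr1 : r < 1 := (min_le_right _ _).trans_lt (by norm_num)
  have hb : ∀ w ∈ ball (0 : ℂ) r, ‖xiw p w‖ < 1 ∧ ‖lW4 (w ^ p) - lW4 (-w ^ p)‖ < Real.pi := by
    intro w hw
    exact hball w (ball_subset_ball (min_le_left _ _) hw)
  have hsub : ball (0 : ℂ) r ⊆ ball 0 1 := ball_subset_ball hr1.le
  have key : ∀ w ∈ ball (0 : ℂ) r, Fw p a b w = Rf p a b (xiw p w) := by
    refine eqOn_of_deriv hr0 ((Fw_diff hA).mono hsub) ?_ ?_ ?_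
    · refine ((Rf_isSer hA.a0 hA.ap b).differentiableOn).comp ((xiw_diff hp).mono hsub) ?_
      intro w hw
      simpa using (hb w hw).1
    · rw [Fw_zero hA, xiw_zero, Rf_zero hA.a0 hA.ap]
    · intro w hw hw0
      have hw1 : ‖w‖ < 1 := by simpa using hsub hw
      obtain ⟨hξ1, hδ⟩ := hb w hw
      have h1 := (Fw_hasDerivAt hA hw0 hw1).deriv
      have h2 := ((Rf_hasDerivAt hA.a0 hA.ap b hξ1).comp w (xiw_hasDerivAt hp hw0 hw1)).deriv
      have h3 : deriv (fun w => Rf p a b (xiw p w)) w =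
        deriv (Rf p a b ∘ xiw p) w := rfl
      rw [h1, h3, h2]
      -- 1 - lambda
      obtain ⟨τ, hτ, hwτ⟩ := lx_exists_wn hp hw0 hw1
      have hjac := jacobi hτ
      set δ := lW4 (w ^ p) - lW4 (-w ^ p) with hδdef
      have h4 : 1 - xiw p w ^ p = cexp δ := by
        have h5 : xiw p w ^ p = lam τ := by rw [lam_eq hp, hwτ]
        rw [h5, lam, hδdef, Complex.exp_sub]
        have h6 : th4 τ = cexp (lW4 (w ^ p)) := by rw [th4, ← wn_pow hp, hwτ]
        have h7 : th3 τ = cexp (lW4 (-w ^ p)) := by rw [th3, ← wn_pow hp, hwτ]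
        rw [← h6, ← h7]
        have h8 : th3 τ ≠ 0 := th3_ne_zero τ
        field_simp
        rw [hjac]; ring
      have h5 : (1 - xiw p w ^ p) ^ ((b : ℂ) / p - 1) = cexp (δ * ((b : ℂ) / p - 1)) := by
        rw [h4, Complex.cpow_def_of_ne_zero (Complex.exp_ne_zero _), Complex.log_exp]
        · have := (abs_le.1 (abs_im_le_norm δ)).1
          linarith
        · have := (abs_le.1 (abs_im_le_norm δ)).2
          linarith
      have h6 : xiw p w ^ (a - 1) * xiw p w = xiw p w ^ a := by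
        rw [← pow_succ, Nat.sub_add_cancel hA.a0]
      have h7 : xiw p w ^ a = (((16 : ℝ) ^ ((a : ℝ) / p) : ℝ) : ℂ) * w ^ a *
          cexp (a * ((lW2 (w ^ p) - lW4 (-w ^ p)) / p)) := by
        rw [xiw, mul_pow, mul_pow, c16_pow, ← Complex.exp_nat_mul]
      have h8 : (p : ℂ) * xiw p w ^ (a - 1) * (1 - xiw p w ^ p) ^ ((b : ℂ) / p - 1) *
          (xiw p w * cexp (lW4 (w ^ p)) / w) =
          p * (xiw p w ^ (a - 1) * xiw p w) * (cexp (δ * ((b : ℂ) / p - 1)) *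
            cexp (lW4 (w ^ p))) / w := by
        rw [h5]; ring
      rw [h8, h6, h7]
      have h9 : Sq p a b (w ^ p) = cexp (a * ((lW2 (w ^ p) - lW4 (-w ^ p)) / p)) *
          (cexp (δ * ((b : ℂ) / p - 1)) * cexp (lW4 (w ^ p))) := by
        rw [Sq, ← Complex.exp_add, ← Complex.exp_add, hδdef]
        congr 1
        field_simp
        ring
      rw [h9]
      ring
  refine ⟨r, hr0, hr1, ?_⟩
  intro w hw
  have hwm : w ∈ ball (0 : ℂ) r := by simpa using hw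
  refine ⟨(hb w hwm).1, ?_⟩
  rw [key w hwm]
  exact Rf_hasSum hA.a0 hA.ap b (hb w hwm).1

/-! ### comparison of the orders -/

/-- removable singularity -/
lemma exists_quotient {f g₀ : ℂ → ℂ} {r : ℝ} (hr : 0 < r) (M : ℕ)
    (hf : DifferentiableOn ℂ f (ball 0 1)) (hg : DifferentiableOn ℂ g₀ (ball 0 r))
    (h : ∀ w ∈ ball (0 : ℂ) r, f w = w ^ M * g₀ w) :
    ∃ g : ℂ → ℂ, DifferentiableOn ℂ g (ball 0 1) ∧ (∀ w ∈ ball (0 : ℂ) 1, f w = w ^ M * g w) ∧
      g 0 = g₀ 0 := by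
  classical
  have hmem0 : (0 : ℂ) ∈ ball (0 : ℂ) r := by simpa using hr
  refine ⟨fun w => if w = 0 then g₀ 0 else f w / w ^ M, ?_, ?_, by simp⟩
  · intro w hw
    refine DifferentiableAt.differentiableWithinAt ?_
    by_cases hw0 : w = 0
    · subst hw0
      have h1 := hg.differentiableAt (isOpen_ball.mem_nhds hmem0)
      refine h1.congr_of_eventuallyEq ?_
      filter_upwards [isOpen_ball.mem_nhds hmem0] with w hw
      by_cases hw0 : w = 0
      · rw [if_pos hw0, hw0]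
      · rw [if_neg hw0, h w hw, mul_div_cancel_left₀ _ (pow_ne_zero M hw0)]
    · have h1 : DifferentiableAt ℂ (fun w => f w / w ^ M) w :=
        (hf.differentiableAt (isOpen_ball.mem_nhds hw)).div (by fun_prop) (pow_ne_zero M hw0)
      refine h1.congr_of_eventuallyEq ?_
      filter_upwards [isOpen_ne.mem_nhds hw0] with w hw
      rw [if_neg hw]
  · intro w hw
    by_cases hw0 : w = 0
    · subst hw0
      show f 0 = 0 ^ M * (if (0 : ℂ) = 0 then g₀ 0 else f 0 / 0 ^ M)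
      rw [if_pos rfl]
      exact h 0 hmem0
    · show f w = w ^ M * (if w = 0 then g₀ 0 else f w / w ^ M)
      rw [if_neg hw0, mul_div_cancel₀]
      exact pow_ne_zero M hw0

lemma isSer_X : _root_.GP.IsSer PowerSeries.X (fun ξ => ξ) := by
  intro w _
  have h := hasSum_single (f := fun n => PowerSeries.coeff n (PowerSeries.X : PowerSeries ℂ) * w ^ n)
    1 (fun n hn => by simp [PowerSeries.coeff_X, hn])
  simpa using h

/-- the auxiliary function in the variable xi -/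
noncomputable def fxf (p j k : ℕ) (T : Finset ℕ) (L L1 : ℕ)
    (P : Fin (L1 + 1) → (T → Fin L) → ℂ) (u : Fin p.totient → ℤ) (ξ : ℂ) : ℂ :=
  ∑ i : Fin (L1 + 1), ∑ m : T → Fin L, P i m * ξ ^ (p * (i : ℕ))
    * ∏ t : T, (Rf p (at' p j t) (at' p k t) ξ
        + bet p (at' p j t) (at' p k t) * sg p t u) ^ ((m t : Fin L) : ℕ)

lemma fxf_isSer {p j k : ℕ} (hD : Dat p j k) {T : Finset ℕ} (hT : T ⊆ Un p) (L L1 : ℕ)
    (P : Fin (L1 + 1) → (T → Fin L) → ℂ) (u : Fin p.totient → ℤ) :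
    _root_.GP.IsSer (fx p j k T L L1 P u) (fxf p j k T L L1 P u) := by
  unfold fx fxf
  refine _root_.GP.IsSer.sum _ fun i _ => _root_.GP.IsSer.sum _ fun m _ => ?_
  refine ((_root_.GP.IsSer.const _).mul (isSer_X.pow _)).mul ?_
  refine _root_.GP.IsSer.prod _ fun t _ => ?_
  have hA := hD.adm (hT t.2)
  exact ((Rf_isSer hA.a0 hA.ap _).add (_root_.GP.IsSer.const _)).pow _

lemma fw_diff {p j k : ℕ} (hD : Dat p j k) {T : Finset ℕ} (hT : T ⊆ Un p) (L L1 : ℕ)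
    (P : Fin (L1 + 1) → (T → Fin L) → ℂ) (u : Fin p.totient → ℤ) :
    DifferentiableOn ℂ (fw p j k T L L1 P u) (ball 0 1) := by
  have hp : 0 < p := by have := hD.p3; omega
  unfold fw
  refine DifferentiableOn.fun_sum fun i _ => DifferentiableOn.fun_sum fun m _ => ?_
  refine DifferentiableOn.mul (DifferentiableOn.mul (DifferentiableOn.mul (by fun_prop) ?_) ?_) ?_
  · exact (DifferentiableOn.mul (by fun_prop) (diff_lW2p hp).cexp).pow _
  · exact ((diff_lW4n hp).cexp).pow _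
  · refine DifferentiableOn.fun_finsetProd fun t _ => ?_
    exact ((Fw_diff (hD.adm (hT t.2))).add_const _).pow _

/-- the order of vanishing in w and in lambda^(1/p) agree -/
theorem ord_fw {p j k : ℕ} (hD : Dat p j k) {T : Finset ℕ} (hT : T ⊆ Un p) (L L1 : ℕ)
    (P : Fin (L1 + 1) → (T → Fin L) → ℂ) (u : Fin p.totient → ℤ) (M : ℕ)
    (h : ∀ ν < M, PowerSeries.coeff ν (fx p j k T L L1 P u) = 0) :
    ∃ g : ℂ → ℂ, DifferentiableOn ℂ g (ball 0 1) ∧
      (∀ w ∈ ball (0 : ℂ) 1, fw p j k T L L1 P u w = w ^ M * g w) ∧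
      g 0 = (((16 : ℝ) ^ ((M : ℝ) / p) : ℝ) : ℂ)
        * PowerSeries.coeff M (fx p j k T L L1 P u) := by
  classical
  have hp : 0 < p := by have := hD.p3; omega
  have hpC : (p : ℂ) ≠ 0 := by exact_mod_cast hp.ne'
  obtain ⟨H, gH, hH, hHs, hfac⟩ := (fxf_isSer hD hT L L1 P u).factor h
  -- common radius
  have hrad : ∀ t : T, ∃ r : ℝ, 0 < r ∧ r < 1 ∧ ∀ w : ℂ, ‖w‖ < r → ‖xiw p w‖ < 1 ∧
      Fw p (at' p j t) (at' p k t) w = Rf p (at' p j t) (at' p k t) (xiw p w) := by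
    intro t
    have hA := hD.adm (hT t.2)
    obtain ⟨r, hr0, hr1, hr⟩ := Fw_eq_rc hA
    refine ⟨r, hr0, hr1, fun w hw => ?_⟩
    obtain ⟨h1, h2⟩ := hr w hw
    exact ⟨h1, h2.unique (Rf_hasSum hA.a0 hA.ap _ h1)⟩
  choose rt hrt0 hrt1 hrt using hrad
  -- a radius where xiw is small
  have hmem0 : (0 : ℂ) ∈ ball (0 : ℂ) 1 := by simp
  have hc1 : ContinuousAt (xiw p) 0 :=
    ((xiw_diff hp).differentiableAt (isOpen_ball.mem_nhds hmem0)).continuousAt
  have he1 : ∀ᶠ w in nhds (0 : ℂ), ‖xiw p w‖ < 1 := by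
    have : Filter.Tendsto (fun w => ‖xiw p w‖) (nhds 0) (nhds ‖xiw p 0‖) := hc1.norm
    rw [xiw_zero, norm_zero] at this
    exact this.eventually (gt_mem_nhds one_pos)
  have he2 : ∀ᶠ w in nhds (0 : ℂ), ∀ t : T, ‖w‖ < rt t := by
    rw [Filter.eventually_all]
    intro t
    have := isOpen_ball.mem_nhds (show (0 : ℂ) ∈ ball (0 : ℂ) (rt t) by simpa using hrt0 t)
    filter_upwards [this] with w hw
    simpa using hw
  obtain ⟨r', hr', hball⟩ := Metric.eventually_nhds_iff_ball.1 (he1.and he2)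
  set r := min r' (1 / 2) with hr
  have hr0 : 0 < r := lt_min hr' (by norm_num)
  have hr1 : r < 1 := (min_le_right _ _).trans_lt (by norm_num)
  have hb : ∀ w ∈ ball (0 : ℂ) r, ‖xiw p w‖ < 1 ∧ ∀ t : T, ‖w‖ < rt t := by
    intro w hw
    exact hball w (ball_subset_ball (min_le_left _ _) hw)
  have hsub : ball (0 : ℂ) r ⊆ ball 0 1 := ball_subset_ball hr1.le
  set g₀ : ℂ → ℂ := fun w => cexp (lW4 (-w ^ p)) ^ L1 *
    ((((16 : ℝ) ^ ((1 : ℝ) / p) : ℝ) : ℂ) * cexp ((lW2 (w ^ p) - lW4 (-w ^ p)) / p)) ^ M *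
    gH (xiw p w) with hg₀
  have hg₀d : DifferentiableOn ℂ g₀ (ball 0 r) := by
    refine DifferentiableOn.mul (DifferentiableOn.mul ?_ ?_) ?_
    · exact (((diff_lW4n hp).cexp).pow _).mono hsub
    · exact (((((diff_lW2p hp).sub (diff_lW4n hp)).div_const _).cexp.const_mul _).pow _).mono hsub
    · refine hHs.differentiableOn.comp ((xiw_diff hp).mono hsub) ?_
      intro w hw
      simpa using (hb w hw).1
  have hloc : ∀ w ∈ ball (0 : ℂ) r, fw p j k T L L1 P u w = w ^ M * g₀ w := by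
    intro w hw
    obtain ⟨h1, h2⟩ := hb w hw
    have e1 : fw p j k T L L1 P u w = cexp (lW4 (-w ^ p)) ^ L1 * fxf p j k T L L1 P u (xiw p w) := by
      unfold fw fxf
      rw [Finset.mul_sum]
      refine Finset.sum_congr rfl fun i _ => ?_
      rw [Finset.mul_sum]
      refine Finset.sum_congr rfl fun m _ => ?_
      have e2 : ∏ t : T, (Fw p (at' p j t) (at' p k t) w
          + bet p (at' p j t) (at' p k t) * sg p t u) ^ ((m t : Fin L) : ℕ) =
          ∏ t : T, (Rf p (at' p j t) (at' p k t) (xiw p w)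
          + bet p (at' p j t) (at' p k t) * sg p t u) ^ ((m t : Fin L) : ℕ) := by
        refine Finset.prod_congr rfl fun t _ => ?_
        rw [(hrt t w (h2 t)).2]
      rw [e2]
      have e3 : xiw p w ^ (p * (i : ℕ)) = (16 * w ^ p * cexp (lW2 (w ^ p))) ^ (i : ℕ) *
          (cexp (-lW4 (-w ^ p))) ^ (i : ℕ) := by
        rw [pow_mul, xiw_pow hp, ← mul_pow]
        congr 1
        rw [sub_eq_add_neg, Complex.exp_add]
        ring
      have e4 : cexp (lW4 (-w ^ p)) ^ L1 = cexp (lW4 (-w ^ p)) ^ (L1 - (i : ℕ)) *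
          cexp (lW4 (-w ^ p)) ^ (i : ℕ) := by
        rw [← pow_add]
        congr 1
        have := i.2
        omega
      have e5 : cexp (lW4 (-w ^ p)) ^ (i : ℕ) * cexp (-lW4 (-w ^ p)) ^ (i : ℕ) = 1 := by
        rw [← mul_pow, ← Complex.exp_add]
        simp
      rw [e3, e4]
      linear_combination (-(P i m * (16 * w ^ p * cexp (lW2 (w ^ p))) ^ (i : ℕ) *
        cexp (lW4 (-w ^ p)) ^ (L1 - (i : ℕ)) *
        ∏ t : T, (Rf p (at' p j t) (at' p k t) (xiw p w)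
          + bet p (at' p j t) (at' p k t) * sg p t u) ^ ((m t : Fin L) : ℕ))) * e5
    have e6 : xiw p w ^ M = w ^ M * ((((16 : ℝ) ^ ((1 : ℝ) / p) : ℝ) : ℂ) *
        cexp ((lW2 (w ^ p) - lW4 (-w ^ p)) / p)) ^ M := by
      rw [xiw, ← mul_pow]
      congr 1
      ring
    rw [e1, hfac _ h1, e6, hg₀]
    ring
  obtain ⟨g, hg1, hg2, hg3⟩ := exists_quotient hr0 M (fw_diff hD hT L L1 P u) hg₀d hloc
  refine ⟨g, hg1, hg2, ?_⟩
  rw [hg3, hg₀]
  simp only
  rw [zero_pow hp.ne', neg_zero, lW4_zero, lW2_zero, xiw_zero, hHs.apply_zero]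
  have e1 : PowerSeries.coeff M (fx p j k T L L1 P u) = PowerSeries.constantCoeff H := by
    rw [hH]
    have := PowerSeries.coeff_X_pow_mul H M 0
    rw [zero_add] at this
    rw [this, PowerSeries.coeff_zero_eq_constantCoeff_apply]
  rw [e1, sub_zero, zero_div, Complex.exp_zero, one_pow, mul_one, one_mul, c16_pow]

end Pool.Agent.GP
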