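import Pool.Agent.GP.Ext
import Pool.Agent.GP.Lamx
import Pool.Agent.GP.Ari
import Pool.Agent.GP.Zer
import Pool.Agent.GP.Gelf

/-! Module MAIN: the transcendence proof (sections 6 to 8). -/

set_option autoImplicit false

namespace Pool.Agent.GP

open IntermediateField Polynomial Filter

/-- growth comparison: the choice of the degree L -/
theorem exists_L (m n : ℕ) (hmn : m < 2 * n) (D : ℝ) (hD : 1 ≤ D) (ε E : ℝ) (hε : 0 < ε)
    (hE : 0 < E) : ∃ L : ℕ, 2 ≤ L ∧
      E * (1 + D * (L * Real.log (L + 2))) ^ ((m : ℝ) / 2) ≤ ε * (L : ℝ) ^ n := by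
  have h1 : (fun x : ℝ => Real.log x ^ ((m : ℝ) / 2)) =o[atTop] fun x : ℝ => x ^ (1 / 2 : ℝ) :=
    isLittleO_log_rpow_rpow_atTop _ (by norm_num)
  have hK : 0 < ε / (E * (4 * D) ^ ((m : ℝ) / 2)) := by positivity
  have h2 := (h1.def hK).and (eventually_ge_atTop (3 : ℝ))
  obtain ⟨x0, hx0⟩ := eventually_atTop.1 h2
  obtain ⟨L, hL⟩ := exists_nat_ge (max x0 3)
  have hLx : x0 ≤ (L : ℝ) := (le_max_left _ _).trans hL
  have hL3 : (3 : ℝ) ≤ L := (le_max_right _ _).trans hL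
  have hL3' : 3 ≤ L := by exact_mod_cast hL3
  refine ⟨L, by omega, ?_⟩
  obtain ⟨h3, -⟩ := hx0 _ hLx
  have hLpos : (0 : ℝ) < L := by linarith
  have hlog1 : 1 ≤ Real.log L := by
    rw [Real.le_log_iff_exp_le hLpos]
    have := Real.exp_one_lt_d9
    linarith
  have hlog : Real.log (L + 2) ≤ 2 * Real.log L := by
    have : Real.log ((L : ℝ) + 2) ≤ Real.log ((L : ℝ) ^ 2) := by
      apply Real.log_le_log (by linarith)
      nlinarith
    rwa [Real.log_pow] at this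
  have hlogp : 0 ≤ Real.log (L + 2) := Real.log_nonneg (by linarith)
  have h4 : 1 + D * (L * Real.log (L + 2)) ≤ (4 * D) * (L * Real.log L) := by
    have a1 : (L : ℝ) * Real.log (L + 2) ≤ L * (2 * Real.log L) :=
      mul_le_mul_of_nonneg_left hlog hLpos.le
    have a2 : D * (L * Real.log (L + 2)) ≤ D * (L * (2 * Real.log L)) :=
      mul_le_mul_of_nonneg_left a1 (by linarith)
    have a3 : 1 ≤ (L : ℝ) * Real.log L := by nlinarith
    have a4 : 1 ≤ D * (L * Real.log L) := by nlinarith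
    nlinarith
  have hbase : 0 ≤ 1 + D * (L * Real.log (L + 2)) := by positivity
  have h5 : (1 + D * (L * Real.log (L + 2))) ^ ((m : ℝ) / 2)
      ≤ (4 * D) ^ ((m : ℝ) / 2) * ((L : ℝ) ^ ((m : ℝ) / 2) * Real.log L ^ ((m : ℝ) / 2)) := by
    calc (1 + D * (L * Real.log (L + 2))) ^ ((m : ℝ) / 2)
        ≤ ((4 * D) * (L * Real.log L)) ^ ((m : ℝ) / 2) :=
          Real.rpow_le_rpow hbase h4 (by positivity)
      _ = _ := by
          rw [Real.mul_rpow (x := 4 * D) (by positivity) (by positivity),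
            Real.mul_rpow (x := (L : ℝ)) (by positivity) (by positivity)]
  have h6 : Real.log L ^ ((m : ℝ) / 2) ≤
      ε / (E * (4 * D) ^ ((m : ℝ) / 2)) * (L : ℝ) ^ (1 / 2 : ℝ) := by
    have := h3
    rwa [Real.norm_of_nonneg (by positivity), Real.norm_of_nonneg (by positivity)] at this
  have h7 : (L : ℝ) ^ ((m : ℝ) / 2) * (L : ℝ) ^ (1 / 2 : ℝ) ≤ (L : ℝ) ^ n := by
    rw [← Real.rpow_add hLpos, ← Real.rpow_natCast]
    apply Real.rpow_le_rpow_of_exponent_le (by linarith)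
    have : (m : ℝ) + 1 ≤ 2 * n := by exact_mod_cast hmn
    linarith
  have hD4 : 0 < (4 * D) ^ ((m : ℝ) / 2) := by positivity
  have hLm : 0 ≤ (L : ℝ) ^ ((m : ℝ) / 2) := by positivity
  calc E * (1 + D * (L * Real.log (L + 2))) ^ ((m : ℝ) / 2)
      ≤ E * ((4 * D) ^ ((m : ℝ) / 2) * ((L : ℝ) ^ ((m : ℝ) / 2) * Real.log L ^ ((m : ℝ) / 2))) :=
        mul_le_mul_of_nonneg_left h5 hE.le
    _ ≤ E * ((4 * D) ^ ((m : ℝ) / 2) * ((L : ℝ) ^ ((m : ℝ) / 2) *
          (ε / (E * (4 * D) ^ ((m : ℝ) / 2)) * (L : ℝ) ^ (1 / 2 : ℝ)))) := by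
        gcongr
    _ = ε * ((L : ℝ) ^ ((m : ℝ) / 2) * (L : ℝ) ^ (1 / 2 : ℝ)) := by
        field_simp
    _ ≤ ε * (L : ℝ) ^ n := mul_le_mul_of_nonneg_left h7 hε.le

theorem exp_aux {ρ M N : ℝ} (hρ : 0 ≤ ρ) {hM0 : 0 ≤ M} (hMN : M ≤ N) :
    Real.pi * Real.exp (-ρ) * M ≤ Real.pi * N := by
  have h1 : Real.exp (-ρ) ≤ 1 := Real.exp_le_one_iff.2 (by linarith)
  have h3 : Real.pi * Real.exp (-ρ) ≤ Real.pi := by
    nlinarith [Real.pi_pos]
  exact mul_le_mul h3 hMN hM0 Real.pi_pos.le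

theorem fin_aux {lg a X1 C1 x y e f c4 N pi : ℝ} (h : lg ≤ a * N + x + C1 - y + e)
    (e1 : x ≤ c4 * N + X1) (e2 : f ≤ y) (e3 : e ≤ pi * N) (hX : X1 + C1 ≤ N)
    (hf : f = 2 * c4 * N) : lg ≤ (a + pi + 1 - c4) * N := by
  nlinarith

/-- the case of a transcendental theta -/
theorem main_trans {p j k : ℕ} (hD : Dat p j k) {T : Finset ℕ} (hT : T ⊆ Un p) {θ : ℂ}
    (hθ : Transcendental ℚ θ)
    (hβ : ∀ t ∈ T, IsAlgebraic ℚ⟮θ⟯ (bet p (at' p j t) (at' p k t))) :
    2 * T.card ≤ p.totient := by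
  classical
  by_contra hcon
  rw [not_le] at hcon
  have hp3 := hD.p3
  have hp0 : (0 : ℝ) < p := by exact_mod_cast (show 0 < p by omega)
  have hp1 : (1 : ℝ) ≤ p := by exact_mod_cast (show 1 ≤ p by omega)
  obtain ⟨A, c, Cx, ρ0, hA, hc, hCx, hρ0, hext⟩ := ext_ineq hD
  obtain ⟨Ca, hCa, hari⟩ := ari hD hT hθ hβ
  obtain ⟨Cn, hCn, hcard⟩ := nrm_card (p := p) (by omega)
  set ε : ℝ := min (c / (4 * Cx)) (1 / (2 * p)) with hε
  have hεpos : 0 < ε := lt_min (by positivity) (by positivity)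
  have hε1 : ε ≤ c / (4 * Cx) := min_le_left _ _
  have hε2 : ε ≤ 1 / (2 * p) := min_le_right _ _
  set K : ℝ := max ρ0 (4 / c * (10 * Ca ^ 2 + 2 * Ca + 6)) with hK
  have hKρ : ρ0 ≤ K := le_max_left _ _
  have hKc : 4 / c * (10 * Ca ^ 2 + 2 * Ca + 6) ≤ K := le_max_right _ _
  have hK1 : 1 ≤ K := hρ0.trans hKρ
  obtain ⟨L, hL2, hL⟩ := exists_L p.totient T.card hcon (max 1 (A * K)) (le_max_left _ _) ε
    (Ca * Cn) hεpos (by positivity)
  have hLR : (2 : ℝ) ≤ L := by exact_mod_cast hL2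
  have hlog1 : 1 ≤ Real.log ((L : ℝ) + 2) := by
    rw [Real.le_log_iff_exp_le (by linarith)]
    have := Real.exp_one_lt_d9
    linarith
  set lg : ℝ := Real.log ((L : ℝ) + 2) with hlg
  have hLlg : 1 ≤ (L : ℝ) * lg := by nlinarith
  set ρ : ℝ := K * (L * lg) with hρ
  have hρK : K ≤ ρ := by nlinarith
  have hρρ0 : ρ0 ≤ ρ := hKρ.trans hρK
  have hρpos : 0 < ρ := by linarith
  have hAρ : 0 ≤ A * ρ := by positivity
  obtain ⟨S, hS, hScard⟩ := hcard (A * ρ) hAρ
  obtain ⟨B, hB⟩ := zero_est hD hT L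
  obtain ⟨C1, hC1⟩ := hext T hT ρ hρρ0 L B
  obtain ⟨n0, hn0⟩ := hari L S B hL2
  -- the cardinality condition
  have hScard' : Ca * S.card ≤ ε * (L : ℝ) ^ T.card := by
    have h1 : (S.card : ℝ) ≤ Cn * (1 + max 1 (A * K) * (L * lg)) ^ ((p.totient : ℝ) / 2) := by
      refine hScard.trans ?_
      apply mul_le_mul_of_nonneg_left _ hCn.le
      apply Real.rpow_le_rpow (by linarith) _ (by positivity)
      have : A * ρ = (A * K) * (L * lg) := by rw [hρ]; ring
      rw [this]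
      have h2 : A * K ≤ max 1 (A * K) := le_max_right _ _
      have h3 : 0 ≤ (L : ℝ) * lg := by linarith
      have := mul_le_mul_of_nonneg_right h2 h3
      linarith
    calc Ca * S.card ≤ Ca * (Cn * (1 + max 1 (A * K) * (L * lg)) ^ ((p.totient : ℝ) / 2)) :=
          mul_le_mul_of_nonneg_left h1 hCa.le
      _ = Ca * Cn * (1 + max 1 (A * K) * (L * lg)) ^ ((p.totient : ℝ) / 2) := by ring
      _ ≤ _ := hL
  obtain ⟨N1, hN1⟩ := exists_nat_ge (Cx * ρ + C1)
  set δ : ℕ := ⌊Ca * L⌋₊ with hδ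
  set σ : ℝ := Ca * lg with hσ
  have hσ0 : 0 ≤ σ := by positivity
  set Γ : ℝ := 10 * δ * σ + 1 with hΓ
  have hδL : (δ : ℝ) ≤ Ca * L := Nat.floor_le (by positivity)
  -- the main inequality between the constants
  have hmain : Γ ≤ c / 4 * ρ - 2 * (Ca * lg) - Real.pi - 1 := by
    have h1 : (10 * Ca ^ 2 + 2 * Ca + 6) * (L * lg) ≤ c / 4 * ρ := by
      have h2 : 4 / c * (10 * Ca ^ 2 + 2 * Ca + 6) * (L * lg) ≤ K * (L * lg) :=
        mul_le_mul_of_nonneg_right hKc (by linarith)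
      calc (10 * Ca ^ 2 + 2 * Ca + 6) * (L * lg)
          = c / 4 * (4 / c * (10 * Ca ^ 2 + 2 * Ca + 6) * (L * lg)) := by field_simp
        _ ≤ c / 4 * (K * (L * lg)) := mul_le_mul_of_nonneg_left h2 (by positivity)
        _ = c / 4 * ρ := by rw [hρ]
    have h3 : 10 * δ * σ ≤ 10 * Ca ^ 2 * (L * lg) := by
      calc 10 * δ * σ = 10 * σ * δ := by ring
        _ ≤ 10 * σ * (Ca * L) := mul_le_mul_of_nonneg_left hδL (by positivity)
        _ = 10 * Ca ^ 2 * (L * lg) := by rw [hσ]; ring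
    have h4 : 2 * (Ca * lg) ≤ 2 * Ca * (L * lg) := by
      have : Ca * lg ≤ Ca * (L * lg) := by
        apply mul_le_mul_of_nonneg_left _ hCa.le
        nlinarith
      linarith
    have h5 := Real.pi_lt_d2
    have h6 : Real.pi + 2 ≤ 6 * (L * lg) := by linarith
    rw [hΓ]
    nlinarith
  -- the sequence of integer polynomials
  have key : ∀ N : ℕ, max n0 (max N1 1) ≤ N → ∃ Q : ℤ[X], Q ≠ 0 ∧ Q.natDegree ≤ δ ∧
      (∀ i, |(Q.coeff i : ℝ)| ≤ Real.exp (σ * N)) ∧
      ‖aeval θ Q‖ ≤ Real.exp (-(Γ * N)) := by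
    intro N hN
    have hNn0 : n0 ≤ N := (le_max_left _ _).trans hN
    have hNN1 : N1 ≤ N := (le_max_left _ _).trans ((le_max_right _ _).trans hN)
    have hN1' : 1 ≤ N := (le_max_right _ _).trans ((le_max_right _ _).trans hN)
    have hNpos : (0 : ℝ) < N := by exact_mod_cast hN1'
    have hX : Cx * ρ + C1 ≤ N := hN1.trans (by exact_mod_cast hNN1)
    set L1 : ℕ := ⌊ε * N⌋₊ with hL1
    have hL1le : (L1 : ℝ) ≤ ε * N := Nat.floor_le (by positivity)
    have hL1ge : ε * N ≤ (L1 : ℝ) + 1 := (Nat.lt_floor_add_one _).le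
    have hεN : ε * N ≤ N / (2 * p) := by
      have := mul_le_mul_of_nonneg_right hε2 hNpos.le
      calc ε * N ≤ 1 / (2 * p) * N := this
        _ = N / (2 * p) := by ring
    have hpL1 : 2 * (p * L1) ≤ N := by
      have h1 : (2 : ℝ) * (p * L1) ≤ N := by
        have h2 : (L1 : ℝ) ≤ N / (2 * p) := hL1le.trans hεN
        rw [le_div_iff₀ (by positivity)] at h2
        linarith
      exact_mod_cast h1
    have hL1N : L1 ≤ N := by
      have h3 : L1 ≤ p * L1 := Nat.le_mul_of_pos_left _ (by omega)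
      omega
    have hcond : Ca * S.card * N ≤ ((L1 : ℝ) + 1) * (L : ℝ) ^ T.card := by
      have h1 : Ca * S.card * N ≤ ε * (L : ℝ) ^ T.card * N :=
        mul_le_mul_of_nonneg_right hScard' hNpos.le
      have h2 : ε * (L : ℝ) ^ T.card * N = (ε * N) * (L : ℝ) ^ T.card := by ring
      rw [h2] at h1
      exact h1.trans (mul_le_mul_of_nonneg_right hL1ge (by positivity))
    obtain ⟨P, hP0, hPle, hPS, hPA⟩ := hn0 N L1 hNn0 hL1N hcond
    obtain ⟨u0, hu0, ν0, hν0, hcν0⟩ := hB L1 P hP0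
    -- the element of minimal size
    have hB0 : 0 ≤ B := le_trans (Finset.sum_nonneg fun _ _ => by positivity) hu0
    obtain ⟨S', hS', -⟩ := hcard (B + 1) (by linarith)
    set W : Finset (Fin p.totient → ℤ) := S'.filter (fun u => ∃ ν : ℕ, 2 * ν ≤ N ∧
      PowerSeries.coeff ν (fx p j k T L L1 P u) ≠ 0) with hW
    have hWne : W.Nonempty := ⟨u0, by
      rw [hW, Finset.mem_filter, hS']
      exact ⟨by linarith, ν0, by omega, hcν0⟩⟩
    obtain ⟨us, husW, husmin⟩ := W.exists_min_image (nrm p) hWne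
    rw [hW, Finset.mem_filter] at husW
    obtain ⟨-, ν1, hν1, hcν1⟩ := husW
    have husB : nrm p us ≤ B := (husmin u0 (by
      rw [hW, Finset.mem_filter, hS']
      exact ⟨by linarith, ν0, by omega, hcν0⟩)).trans hu0
    have hsmall : ∀ u : Fin p.totient → ℤ, nrm p u < nrm p us → ∀ ν : ℕ, 2 * ν ≤ N →
        PowerSeries.coeff ν (fx p j k T L L1 P u) = 0 := by
      intro u hu ν hν
      by_contra hne
      have : u ∈ W := by
        rw [hW, Finset.mem_filter, hS']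
        exact ⟨by linarith, ν, hν, hne⟩
      exact absurd (husmin u this) (not_le.2 hu)
    -- the first nonzero coefficient
    have hex : ∃ ν : ℕ, PowerSeries.coeff ν (fx p j k T L L1 P us) ≠ 0 := ⟨ν1, hcν1⟩
    set M : ℕ := Nat.find hex with hM
    have hMne : PowerSeries.coeff M (fx p j k T L L1 P us) ≠ 0 := Nat.find_spec hex
    have hMmin : ∀ ν < M, PowerSeries.coeff ν (fx p j k T L L1 P us) = 0 := by
      intro ν hν
      by_contra h
      exact absurd (Nat.find_min' hex h) (not_le.2 hν)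
    have hMν1 : M ≤ ν1 := Nat.find_min' hex hcν1
    have hM2 : 2 * M ≤ N := by omega
    have hMN : M ≤ N := by omega
    have husA : A * ρ ≤ nrm p us := by
      by_contra hlt
      rw [not_le] at hlt
      exact hMne (hPS us ((hS us).2 hlt) M (by omega))
    obtain ⟨g, hgd, hgw, hg0⟩ := ord_fw hD hT L L1 P us M hMmin
    have h16 : 1 ≤ (16 : ℝ) ^ ((M : ℝ) / p) :=
      Real.one_le_rpow (by norm_num) (by positivity)
    have hg0ne : g 0 ≠ 0 := by
      rw [hg0]
      refine mul_ne_zero ?_ hMne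
      exact_mod_cast (by positivity : (16 : ℝ) ^ ((M : ℝ) / p) ≠ 0)
    have hcoefle : ‖PowerSeries.coeff M (fx p j k T L L1 P us)‖ ≤ ‖g 0‖ := by
      rw [hg0, norm_mul, Complex.norm_real, Real.norm_of_nonneg (by positivity)]
      exact le_mul_of_one_le_left (norm_nonneg _) h16
    have hlogg := hC1 (N / 2 + 1) M L1 (Ca * lg * N) P us hPle husA husB
      (fun u hu => by
        obtain ⟨g1, h1, h2, -⟩ := ord_fw hD hT L L1 P u (N / 2 + 1)
          (fun ν hν => hsmall u hu ν (by omega))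
        exact ⟨g1, h1, h2⟩) g hgd hgw hg0ne
    have hN' : (N : ℝ) / 2 ≤ ((N / 2 + 1 : ℕ) : ℝ) := by
      have : N ≤ 2 * (N / 2 + 1) := by omega
      have : (N : ℝ) ≤ 2 * ((N / 2 + 1 : ℕ) : ℝ) := by exact_mod_cast this
      linarith
    have hloggle : Real.log ‖g 0‖ ≤ (Ca * lg + Real.pi + 1 - c / 4 * ρ) * N := by
      have e1 : Cx * ρ * ((L1 : ℝ) + 1) ≤ c / 4 * ρ * N + Cx * ρ := by
        have h1 : Cx * (L1 : ℝ) ≤ c / 4 * N := by
          calc Cx * (L1 : ℝ) ≤ Cx * (c / (4 * Cx) * N) := by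
                apply mul_le_mul_of_nonneg_left _ hCx.le
                exact hL1le.trans (mul_le_mul_of_nonneg_right hε1 hNpos.le)
            _ = c / 4 * N := by field_simp
        have h2 := mul_le_mul_of_nonneg_left h1 hρpos.le
        linarith
      have e2 : c * ρ * ((N : ℝ) / 2) ≤ c * ρ * ((N / 2 + 1 : ℕ) : ℝ) :=
        mul_le_mul_of_nonneg_left hN' (by positivity)
      have e3 : Real.pi * Real.exp (-ρ) * M ≤ Real.pi * N :=
        exp_aux hρpos.le (hM0 := by positivity) (by exact_mod_cast hMN)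
      exact fin_aux hlogg e1 e2 e3 hX (by ring)
    obtain ⟨Q, hQ0, hQd, hQc, hQv⟩ := hPA us husB M hMN hMne
    refine ⟨Q, hQ0, Nat.le_floor hQd, hQc, ?_⟩
    have hg0n : ‖g 0‖ = Real.exp (Real.log ‖g 0‖) :=
      (Real.exp_log (norm_pos_iff.2 hg0ne)).symm
    calc ‖aeval θ Q‖ ≤ Real.exp (Ca * lg * N)
          * ‖PowerSeries.coeff M (fx p j k T L L1 P us)‖ := hQv
      _ ≤ Real.exp (Ca * lg * N) * ‖g 0‖ :=
          mul_le_mul_of_nonneg_left hcoefle (Real.exp_pos _).le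
      _ = Real.exp (Ca * lg * N + Real.log ‖g 0‖) := by
          rw [Real.exp_add, ← hg0n]
      _ ≤ Real.exp (-(Γ * N)) := by
          apply Real.exp_le_exp.2
          have h1 : Γ * N ≤ (c / 4 * ρ - 2 * (Ca * lg) - Real.pi - 1) * N :=
            mul_le_mul_of_nonneg_right hmain hNpos.le
          linarith
  choose! Q hQ using key
  exact hθ (gelfond_criterion θ δ σ Γ hσ0 le_rfl Q (max n0 (max N1 1)) hQ)

/-- there are transcendental complex numbers -/
theorem exists_transcendental : ∃ θ : ℂ, Transcendental ℚ θ := by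
  by_contra h
  push Not at h
  have h2 : ∀ x : ℂ, IsAlgebraic ℚ x := fun x => by
    have := h x
    rwa [Transcendental, not_not] at this
  have h1 : Set.Countable {x : ℂ | IsAlgebraic ℚ x} := Algebraic.countable ℚ ℂ
  have h3 : {x : ℂ | IsAlgebraic ℚ x} = Set.univ := Set.eq_univ_of_forall h2
  rw [h3] at h1
  exact not_countable_complex h1

/-- Theorem A: for every complex theta at most half of the conjugate Beta values are
algebraic over Q(theta) -/
theorem thmA {p j k : ℕ} (hD : Dat p j k) (θ : ℂ) {T : Finset ℕ} (hT : T ⊆ Un p)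
    (hβ : ∀ t ∈ T, IsAlgebraic ℚ⟮θ⟯ (bet p (at' p j t) (at' p k t))) :
    2 * T.card ≤ p.totient := by
  by_cases hθ : IsAlgebraic ℚ θ
  · obtain ⟨θ', hθ'⟩ := exists_transcendental
    refine main_trans hD hT hθ' fun t ht => ?_
    have h1 := hβ t ht
    have : Algebra.IsAlgebraic ℚ ℚ⟮θ⟯ :=
      IntermediateField.isAlgebraic_adjoin_simple hθ.isIntegral
    have h2 : IsAlgebraic ℚ (bet p (at' p j t) (at' p k t)) := h1.restrictScalars ℚ
    exact h2.extendScalars (algebraMap ℚ ℚ⟮θ'⟯).injective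
  · exact main_trans hD hT hθ hβ

end Pool.Agent.GP
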