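import Pool.Agent.GP.DedMf
import Pool.Agent.GP.Main

/-! Consequences of Theorem A, unconditional. -/

set_option autoImplicit false

namespace Pool.Agent.GP.DedM

open Finset IntermediateField

theorem thmAll : ThmAll := fun N hN θ _ hT h =>
  thmA (p := N) (j := 1) (k := 1)
    { p3 := hN
      j0 := Nat.coprime_one_left N
      k0 := fun h => by have := Nat.le_of_dvd one_pos h; omega
      jk := fun h => by have := Nat.le_of_dvd (by norm_num) h; omega } θ hT h

open algebraAdjoinAdjoin in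
/-- two algebraically independent numbers are not both algebraic over ℚ(θ) -/
lemma not_both {x y : ℝ} (h : AlgebraicIndependent ℚ ![x, y]) {θ : ℂ}
    (hx : IsAlgebraic ℚ⟮θ⟯ (x : ℂ)) : Transcendental ℚ⟮θ⟯ (y : ℂ) := by
  intro hy
  have h1 : AlgebraicIndependent ℚ (fun i => ((![x, y] i : ℝ) : ℂ)) := by
    have h6 : (fun i => ((![x, y] i : ℝ) : ℂ)) =
      (Complex.ofRealAm.restrictScalars ℚ : ℝ →ₐ[ℚ] ℂ) ∘ ![x, y] := rfl
    rw [h6]
    exact h.map' (Complex.ofRealAm.restrictScalars ℚ : ℝ →ₐ[ℚ] ℂ).injective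
  have h2 := h1.to_subtype_range
  have h3 : (AlgebraicIndependent.matroid ℚ ℂ).Indep
      (Set.range fun i => ((![x, y] i : ℝ) : ℂ)) := h2
  have h4 : (Set.range fun i => ((![x, y] i : ℝ) : ℂ)) ⊆
      (AlgebraicIndependent.matroid ℚ ℂ).closure {θ} := by
    rw [AlgebraicIndependent.matroid_closure_eq]
    rintro _ ⟨i, rfl⟩
    rw [SetLike.mem_coe, Subalgebra.mem_algebraicClosure]
    fin_cases i
    · exact (IsFractionRing.isAlgebraic_iff (Algebra.adjoin ℚ {θ}) ℚ⟮θ⟯ ℂ).2 hx
    · exact (IsFractionRing.isAlgebraic_iff (Algebra.adjoin ℚ {θ}) ℚ⟮θ⟯ ℂ).2 hy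
  have h5 := h3.encard_le_eRk_of_subset h4
  rw [Matroid.eRk_closure_eq] at h5
  have h6 := h5.trans (Matroid.eRk_le_encard _ _)
  rw [Set.encard_singleton, Set.encard_le_one_iff] at h6
  have h7 := h1.injective (h6 _ _ (Set.mem_range_self 0) (Set.mem_range_self 1))
  exact absurd h7 (by decide)

open Classical in
/-- the bound for every theta -/
theorem thmB_all (θ : ℂ) {D : ℕ} (hD : 3 ≤ D) :
    D ≤ 4 * ((Finset.Ico 1 D).filter fun j : ℕ =>
      Transcendental ℚ⟮θ⟯ ((Real.Gamma ((j : ℝ) / D) : ℝ) : ℂ)).card + 2 := by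
  by_cases hpi : IsAlgebraic ℚ⟮θ⟯ (Real.pi : ℂ)
  · refine (thmB_pi thmAll D).trans ?_
    apply Nat.add_le_add_right
    apply Nat.mul_le_mul_left
    apply card_le_card
    intro j hj
    rw [mem_filter] at hj ⊢
    exact ⟨hj.1, not_both hj.2 hpi⟩
  · set A := (Finset.Ico 1 D).filter fun j : ℕ =>
      Transcendental ℚ⟮θ⟯ ((Real.Gamma ((j : ℝ) / D) : ℝ) : ℂ) with hA
    have h1 : Finset.Ico 1 D ⊆ A ∪ A.image fun j => D - j := by
      intro j hj
      have hj' := mem_Ico.1 hj
      by_contra hcon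
      rw [mem_union, not_or, mem_image, not_exists] at hcon
      have h2 : IsAlgebraic ℚ⟮θ⟯ ((Real.Gamma ((j : ℝ) / D) : ℝ) : ℂ) := by
        by_contra h
        exact hcon.1 (mem_filter.2 ⟨hj, h⟩)
      have h3 : IsAlgebraic ℚ⟮θ⟯ ((Real.Gamma (((D - j : ℕ) : ℝ) / D) : ℝ) : ℂ) := by
        by_contra h
        refine hcon.2 (D - j) ⟨mem_filter.2 ⟨mem_Ico.2 ⟨by omega, by omega⟩, h⟩, by omega⟩
      apply hpi
      have hDR : (0 : ℝ) < D := by
        have : 0 < D := by omega
        exact_mod_cast this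
      set x : ℝ := (j : ℝ) / D with hx
      have hx0 : 0 < x := div_pos (by exact_mod_cast hj'.1) hDR
      have hx1 : x < 1 := by
        rw [hx, div_lt_one hDR]; exact_mod_cast hj'.2
      have h4 : ((D - j : ℕ) : ℝ) / D = 1 - x := by
        rw [Nat.cast_sub hj'.2.le, hx]; field_simp
      rw [h4] at h3
      have hs : 0 < Real.sin (Real.pi * x) :=
        Real.sin_pos_of_pos_of_lt_pi (by positivity) (by nlinarith [Real.pi_pos])
      have h5 : Real.pi = Real.Gamma x * Real.Gamma (1 - x) * Real.sin (Real.pi * x) := by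
        rw [Real.Gamma_mul_Gamma_one_sub]; field_simp
      have h6 : IsAlgebraic ℚ⟮θ⟯ ((Real.sin (Real.pi * x) : ℝ) : ℂ) := by
        have h7 : IsAlgebraic ℚ (Real.sin (Real.pi * x)) := by
          have h8 := (IsFractionRing.isAlgebraic_iff ℤ ℚ ℝ).1
            (Real.isAlgebraic_sin_rat_mul_pi ((j : ℚ) / D))
          have h9 : ((((j : ℚ) / D : ℚ)) : ℝ) * Real.pi = Real.pi * x := by
            rw [hx]; push_cast; ring
          rwa [h9] at h8
        exact (alg_complex h7).tower_top _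
      have h7 := (h2.mul h3).mul h6
      rw [← Complex.ofReal_mul, ← Complex.ofReal_mul, ← h5] at h7
      exact h7
    have h2 := (card_le_card h1).trans (card_union_le _ _)
    rw [Nat.card_Ico] at h2
    have h3 : (A.image fun j => D - j).card ≤ A.card := card_image_le
    omega

end Pool.Agent.GP.DedM
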