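import Pool.Agent.GP.DedMg

/-! The number of tuples of every length r >= 1: at most about three quarters. -/

set_option autoImplicit false

namespace Pool.Agent.GP.DedM

open Finset IntermediateField

variable {M : Submodule ℚ ℝ}

open Classical in
/-- the fibres of the class map on the letters 1..D -/
lemma fibre (hM : HasAlg M) (hpi : Real.log Real.pi ∈ M) (D : ℕ) (hD : 3 ≤ D)
    (hA : ∀ N, N ∣ D → 3 ≤ N → ThmA M N) (v : ℝ ⧸ M) :
    ((Finset.Icc 1 D).filter fun j : ℕ => gc M ((j : ℚ) / D) = v).card ≤ (3 * D + 2) / 4 := by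
  have hg := good_four hM hpi D hA
  have hDq : (0 : ℚ) < D := by
    have : 0 < D := by omega
    exact_mod_cast this
  have hgc1 : gc M ((D : ℚ) / D) = 0 := by
    rw [div_self hDq.ne']; exact gc_one
  rw [Nat.le_div_iff_mul_le (by norm_num)]
  have hgle : (good M D).card ≤ D - 1 := by
    refine (card_le_card (filter_subset _ _)).trans ?_
    rw [Nat.card_Ico]
  by_cases hv : v = 0
  · have h1 : Disjoint ((Finset.Icc 1 D).filter fun j : ℕ => gc M ((j : ℚ) / D) = v)
        (good M D) := by
      rw [disjoint_left]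
      intro j hj hj'
      rw [mem_filter, hv] at hj
      exact (mem_filter.1 hj').2 hj.2
    have h2 : (((Finset.Icc 1 D).filter fun j : ℕ => gc M ((j : ℚ) / D) = v) ∪
        (good M D)) ⊆ Finset.Icc 1 D := by
      apply union_subset (filter_subset _ _)
      intro j hj
      have := mem_Ico.1 (mem_filter.1 hj).1
      rw [mem_Icc]; omega
    have h3 := card_le_card h2
    rw [card_union_of_disjoint h1, Nat.card_Icc] at h3
    omega
  · set F := (Finset.Icc 1 D).filter fun j : ℕ => gc M ((j : ℚ) / D) = v with hF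
    have hF1 : ∀ j ∈ F, 1 ≤ j ∧ j < D ∧ gc M ((j : ℚ) / D) = v := by
      intro j hj
      rw [hF, mem_filter, mem_Icc] at hj
      refine ⟨hj.1.1, lt_of_le_of_ne hj.1.2 ?_, hj.2⟩
      rintro rfl
      rw [hgc1] at hj
      exact hv hj.2.symm
    have hneg : ∀ j ∈ F, gc M (((D - j : ℕ) : ℚ) / D) = -v := by
      intro j hj
      obtain ⟨h1, h2, h3⟩ := hF1 j hj
      rw [Nat.cast_sub h2.le, sub_div, div_self hDq.ne', gc_refl hM hpi, h3]
      · apply div_pos _ hDq
        exact_mod_cast h1
      · rw [div_lt_one hDq]; exact_mod_cast h2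
    have h1 : Disjoint F (F.image fun j => D - j) := by
      rw [disjoint_left]
      intro j hj hj'
      obtain ⟨k, hk, hkj⟩ := mem_image.1 hj'
      have h2 := hneg k hk
      rw [hkj, (hF1 j hj).2.2] at h2
      apply hv
      have h3 : (2 : ℚ) • v = 0 := by
        rw [two_smul]
        nth_rw 1 [h2]
        exact neg_add_cancel v
      rcases smul_eq_zero.1 h3 with h4 | h4
      · norm_num at h4
      · exact h4
    have h2 : F ∪ (F.image fun j => D - j) ⊆ Finset.Icc 1 D := by
      apply union_subset (filter_subset _ _)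
      intro j hj
      obtain ⟨k, hk, rfl⟩ := mem_image.1 hj
      obtain ⟨h1, h2, -⟩ := hF1 k hk
      rw [mem_Icc]; omega
    have h3 := card_le_card h2
    rw [card_union_of_disjoint h1, Nat.card_Icc, card_image_of_injOn] at h3
    · omega
    · intro j hj k hk hjk
      obtain ⟨_, h5, _⟩ := hF1 j hj
      obtain ⟨_, h7, _⟩ := hF1 k hk
      simp only at hjk
      omega

/-- tuples of length r + 1 whose gamma products have the same class -/
theorem words_quarter (hM : HasAlg M) (hpi : Real.log Real.pi ∈ M) (D : ℕ) (hD : 3 ≤ D)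
    (hA : ∀ N, N ∣ D → 3 ≤ N → ThmA M N) (r : ℕ) (T : Finset (Fin (r + 1) → ℕ))
    (hT : ∀ j ∈ T, ∀ i, j i ∈ Finset.Icc 1 D)
    (hcl : ∀ j ∈ T, ∀ j' ∈ T, Real.log (∏ i, Real.Gamma ((j i : ℝ) / D)) -
      Real.log (∏ i, Real.Gamma ((j' i : ℝ) / D)) ∈ M) :
    4 * T.card ≤ (3 * D + 2) * D ^ r := by
  classical
  have hDpos : 0 < D := by omega
  have hcl' : ∀ j ∈ T, ∀ j' ∈ T, ∑ i, gc M ((j i : ℚ) / D) = ∑ i, gc M ((j' i : ℚ) / D) := by
    intro j hj j' hj'
    rw [sum_gc hDpos j (fun i => (mem_Icc.1 (hT j hj i)).1),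
      sum_gc hDpos j' (fun i => (mem_Icc.1 (hT j' hj' i)).1), cl_eq]
    exact hcl j hj j' hj'
  have h1 : T.card ≤ ((3 * D + 2) / 4) * (T.image fun j => Fin.tail j).card := by
    apply card_le_mul_card_image
    intro a ha
    obtain ⟨j0, hj0, rfl⟩ := mem_image.1 ha
    refine le_trans ?_ (fibre hM hpi D hD hA (gc M ((j0 0 : ℚ) / D)))
    apply card_le_card_of_injOn (fun j => j 0)
    · intro j hj
      have hj2 := mem_filter.1 hj
      have h3 := hcl' j hj2.1 j0 hj0
      rw [Fin.sum_univ_succ, Fin.sum_univ_succ] at h3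
      have h4 : ∀ i : Fin r, j i.succ = j0 i.succ := fun i => congrFun hj2.2 i
      rw [sum_congr rfl fun i _ => by rw [h4 i]] at h3
      exact mem_filter.2 ⟨hT j hj2.1 0, add_right_cancel h3⟩
    · intro j hj k hk hjk
      have hj2 := mem_filter.1 hj
      have hk2 := mem_filter.1 hk
      funext i
      refine Fin.cases hjk (fun i => ?_) i
      exact congrFun (hj2.2.trans hk2.2.symm) i
  have h2 : (T.image fun j => Fin.tail j).card ≤ D ^ r := by
    have h3 : (T.image fun j => Fin.tail j) ⊆ Fintype.piFinset fun _ : Fin r => Finset.Icc 1 D := by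
      intro a ha
      obtain ⟨j, hj, rfl⟩ := mem_image.1 ha
      rw [Fintype.mem_piFinset]
      intro i
      exact hT j hj i.succ
    have h4 := card_le_card h3
    rw [Fintype.card_piFinset] at h4
    simpa using h4
  calc 4 * T.card ≤ 4 * (((3 * D + 2) / 4) * D ^ r) := by
        apply Nat.mul_le_mul_left
        exact h1.trans (Nat.mul_le_mul_left _ h2)
    _ = (4 * ((3 * D + 2) / 4)) * D ^ r := by ring
    _ ≤ (3 * D + 2) * D ^ r := Nat.mul_le_mul_right _ (Nat.mul_div_le _ _)

open Classical in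
theorem thmC_quarter (D : ℕ) (hD : 3 ≤ D) (r : ℕ) (hr : 1 ≤ r) (c : ℝ) :
    4 * ((Fintype.piFinset fun _ : Fin r => Finset.Icc 1 D).filter
      fun j => PiMult D c j).card ≤ (3 * D + 2) * D ^ (r - 1) := by
  obtain ⟨r, rfl⟩ : ∃ s, r = s + 1 := ⟨r - 1, by omega⟩
  have hDpos : 0 < D := by omega
  apply words_quarter (M := LA (Real.pi : ℂ)) (LA_hasAlg _) LA_pi D hD
    (fun N _ hN => thmA_of thmAll hN)
  · intro j hj i
    rw [mem_filter, Fintype.mem_piFinset] at hj
    exact hj.1 i
  · intro j hj j' hj'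
    have hprod : ∀ j ∈ (Fintype.piFinset fun _ : Fin (r + 1) => Finset.Icc 1 D).filter
        (fun j => PiMult D c j), 0 < ∏ i, Real.Gamma ((j i : ℝ) / D) := by
      intro j hj
      rw [mem_filter, Fintype.mem_piFinset] at hj
      apply prod_pos
      intro i _
      apply Real.Gamma_pos_of_pos
      have h1 : (0 : ℝ) < j i := by
        have := mem_Icc.1 (hj.1 i)
        exact_mod_cast this.1
      have h2 : (0 : ℝ) < D := by exact_mod_cast hDpos
      positivity
    have hp := hprod j hj
    have hp' := hprod j' hj'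
    rw [← Real.log_div hp.ne' hp'.ne', log_mem_LA (div_pos hp hp')]
    obtain ⟨α, hα, h⟩ := (mem_filter.1 hj).2
    obtain ⟨α', hα', h'⟩ := (mem_filter.1 hj').2
    rw [h'] at hp'
    have hc : c ≠ 0 := by rintro rfl; simp at hp'
    have hα0 : α' ≠ 0 := by rintro rfl; simp at hp'
    have h3 : (∏ i, Real.Gamma ((j i : ℝ) / D)) / (∏ i, Real.Gamma ((j' i : ℝ) / D)) =
        α * α'⁻¹ := by
      rw [h, h']
      field_simp
    rw [h3]
    push_cast
    exact hα.mul hα'.inv

end Pool.Agent.GP.DedM
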