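import Pool.Agent.GP.DedMh

/-! The full equivalence of the question for tuples in the classes of j/D, -j/D, 1/2 and 0. -/

set_option autoImplicit false

namespace Pool.Agent.GP.DedM

open Finset IntermediateField

variable {M : Submodule ℚ ℝ}

/-- multiples by units of non-integers are non-integers -/
lemma fract_ne {a : ℚ} {D m : ℕ} (hm : Nat.Coprime m D) (hD : ∃ z : ℤ, (D : ℚ) * a = z)
    (hint : ∀ z : ℤ, a ≠ z) : Int.fract ((m : ℚ) * a) ≠ 0 := by
  intro h0
  obtain ⟨z, hz⟩ := hD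
  have h1 := Int.self_sub_fract ((m : ℚ) * a)
  rw [h0, sub_zero] at h1
  set w := ⌊(m : ℚ) * a⌋
  have h2 := Nat.isCoprime_iff_coprime.2 hm
  obtain ⟨u, v, huv⟩ := h2
  apply hint (u * w + v * z)
  have h3 : ((u : ℚ) * m + v * D) = 1 := by exact_mod_cast huv
  push_cast
  rw [← h1, ← hz]
  calc a = ((u : ℚ) * m + v * D) * a := by rw [h3, one_mul]
    _ = _ := by ring

/-- the data of an entry: s = sign, e = 1 for integers -/
lemma entry {x a : ℚ} (hx0 : 0 < x) (hx1 : x < 1)
    (hnp : ∀ k : ℕ, a ≠ -(k : ℚ))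
    (ha : ∃ z : ℤ, a = x + z ∨ a = -x + z ∨ a = z / 2)
    {D : ℕ} (hD : ∃ z : ℤ, (D : ℚ) * a = z) :
    ∃ (s : ℤ) (e : ℕ),
      (∀ M : Submodule ℚ ℝ, HasAlg M →
        nc M a = (s : ℚ) • nc M x - ((e : ℚ) / 2) • cl M (Real.log Real.pi)) ∧
      (∀ m : ℕ, Nat.Coprime m D →
        Int.fract ((m : ℚ) * a) = 1 / 2 + s * (Int.fract ((m : ℚ) * x) - 1 / 2) - (e : ℚ) / 2) ∧
      (s = 0 ∨ ∃ z : ℤ, (D : ℚ) * x = z) := by
  obtain ⟨w, hw | hw | hw⟩ := ha
  · refine ⟨1, 0, fun M hM => ?_, fun m _ => ?_, Or.inr ?_⟩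
    · rw [nc_shift hM a x hnp hx0 w hw]
      push_cast; rw [one_smul, zero_div, zero_smul, sub_zero]
    · have h1 : (m : ℚ) * a = (m : ℚ) * x + ((m * w : ℤ) : ℚ) := by
        rw [hw]; push_cast; ring
      rw [h1, Int.fract_add_intCast]
      push_cast; ring
    · obtain ⟨z, hz⟩ := hD
      refine ⟨z - D * w, ?_⟩
      push_cast
      rw [← hz, hw]; ring
  · refine ⟨-1, 0, fun M hM => ?_, fun m hm => ?_, Or.inr ?_⟩
    · rw [nc_shift hM a (1 - x) hnp (by linarith) (w - 1) (by rw [hw]; push_cast; ring),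
        nc_refl hM hx0 hx1]
      push_cast; rw [neg_smul, one_smul, zero_div, zero_smul, sub_zero]
    · have hint : ∀ z : ℤ, a ≠ z := by
        intro z hz
        have h1 : x = ((w - z : ℤ) : ℚ) := by push_cast; linarith
        have h2 : (0 : ℚ) < ((w - z : ℤ) : ℚ) := by rw [← h1]; exact hx0
        have h3 : ((w - z : ℤ) : ℚ) < 1 := by rw [← h1]; exact hx1
        have h4 : 0 < w - z := by exact_mod_cast h2
        have h5 : w - z < 1 := by exact_mod_cast h3
        omega
      have hmint' := fract_ne hm hD hint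
      have h1 : (m : ℚ) * a = -((m : ℚ) * x) + ((m * w : ℤ) : ℚ) := by
        rw [hw]; push_cast; ring
      rw [h1, Int.fract_add_intCast] at hmint' ⊢
      have h2 : Int.fract ((m : ℚ) * x) ≠ 0 := by
        intro h0
        apply hmint'
        have h3 := Int.self_sub_fract ((m : ℚ) * x)
        rw [h0, sub_zero] at h3
        have h4 : -((m : ℚ) * x) = ((-⌊(m : ℚ) * x⌋ : ℤ) : ℚ) := by
          push_cast; rw [← h3]
        rw [h4]; exact Int.fract_intCast _
      rw [Int.fract_neg h2]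
      push_cast; ring
    · obtain ⟨z, hz⟩ := hD
      refine ⟨D * w - z, ?_⟩
      push_cast
      rw [← hz, hw]; ring
  · rcases Int.even_or_odd' w with ⟨k, hk | hk⟩
    · -- an integer
      refine ⟨0, 1, fun M hM => ?_, fun m _ => ?_, Or.inl rfl⟩
      · have h1 : a = 1 + ((k - 1 : ℤ) : ℚ) := by
          rw [hw, hk]; push_cast; ring
        rw [nc_shift hM a 1 hnp one_pos (k - 1) h1, nc_one]
        push_cast
        rw [zero_smul, zero_sub]
      · have h1 : (m : ℚ) * a = ((m * k : ℤ) : ℚ) := by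
          rw [hw, hk]; push_cast; ring
        rw [h1, Int.fract_intCast]
        push_cast; ring
    · -- a half-integer
      refine ⟨0, 0, fun M hM => ?_, fun m hm => ?_, Or.inl rfl⟩
      · have h1 : a = 1 / 2 + (k : ℚ) := by
          rw [hw, hk]; push_cast; ring
        rw [nc_shift hM a (1 / 2) hnp (by norm_num) k h1, nc_half hM]
        push_cast
        rw [zero_smul, zero_div, zero_smul, sub_zero]
      · have hwk : a = 1 / 2 + (k : ℚ) := by
          rw [hw, hk]; push_cast; ring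
        obtain ⟨z, hz⟩ := hD
        have h1 : ((D * (1 + 2 * k) : ℤ) : ℚ) = ((2 * z : ℤ) : ℚ) := by
          push_cast
          rw [← hz, hwk]; ring
        have h2 : (D : ℤ) * (1 + 2 * k) = 2 * z := by exact_mod_cast h1
        have h3 : ¬ Odd (D : ℤ) := by
          intro ho
          have h4 : Odd ((D : ℤ) * (1 + 2 * k)) := ho.mul ⟨k, by ring⟩
          rw [h2] at h4
          exact (Int.not_odd_iff_even.2 ⟨z, by ring⟩) h4
        have h4 : Odd m := by
          rw [← Nat.not_even_iff_odd]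
          intro he
          apply h3
          by_contra ho
          rw [Int.not_odd_iff_even] at ho
          have h5 : 2 ∣ D := by
            have h6 := ho.two_dvd
            exact_mod_cast h6
          have h6 := Nat.dvd_gcd he.two_dvd h5
          rw [Nat.Coprime.gcd_eq_one hm] at h6
          omega
        obtain ⟨l, hl⟩ := h4
        have h5 : (m : ℚ) * a = 1 / 2 + ((l + m * k : ℤ) : ℚ) := by
          rw [hwk]
          have h6 : (m : ℚ) = 2 * l + 1 := by exact_mod_cast hl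
          push_cast
          rw [h6]; ring
        rw [h5, Int.fract_add_intCast]
        have h6 : Int.fract (1 / 2 : ℚ) = 1 / 2 := by
          rw [Int.fract_eq_self]; norm_num
        rw [h6]; push_cast; ring

lemma mem_zero {y : ℝ} (hy : y ∈ LA 0) : IsAlgebraic ℚ (Real.exp y) := by
  rw [mem_LA] at hy
  have : Algebra.IsAlgebraic ℚ ℚ⟮(0 : ℂ)⟯ := isAlgebraic_adjoin_simple (isIntegral_zero)
  have h1 : IsAlgebraic ℚ ((Real.exp y : ℝ) : ℂ) := hy.restrictScalars ℚ
  have h2 : ((Real.exp y : ℝ) : ℂ) = algebraMap ℝ ℂ (Real.exp y) := rfl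
  rw [h2] at h1
  exact (isAlgebraic_algebraMap_iff (algebraMap ℝ ℂ).injective).1 h1

lemma of_sum_nc {r : ℕ} (a : Fin r → ℚ)
    (ha : ∀ (i : Fin r) (k : ℕ), a i ≠ -(k : ℚ)) (h : ∑ i, nc (LA 0) (a i) = 0) :
    ∃ α : ℝ, IsAlgebraic ℚ α ∧
      ∏ i, Real.Gamma ((a i : ℚ) : ℝ) = α * Real.pi ^ ((r : ℝ) / 2) := by
  set P := ∏ i, Real.Gamma ((a i : ℚ) : ℝ) with hP
  have hne : P ≠ 0 := prod_ne_zero_iff.2 fun i _ => gamma_ne _ (ha i)
  have hpq : 0 < Real.pi ^ ((r : ℝ) / 2) := Real.rpow_pos_of_pos Real.pi_pos _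
  refine ⟨P / Real.pi ^ ((r : ℝ) / 2), ?_, by field_simp⟩
  unfold nc at h
  rw [← map_sum, cl_eq_zero, sum_sub_distrib, ← Real.log_prod (fun i _ => gamma_ne _ (ha i)),
    sum_const, card_univ, Fintype.card_fin] at h
  have e : Real.log (∏ i, Real.Gamma ((a i : ℚ) : ℝ)) - r • ((1 / 2 : ℚ) • Real.log Real.pi) =
      Real.log |P / Real.pi ^ ((r : ℝ) / 2)| := by
    rw [Real.log_abs, Real.log_div hne hpq.ne', Real.log_rpow Real.pi_pos, Rat.smul_def,
      nsmul_eq_mul]
    push_cast; ring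
  rw [e] at h
  have h1 := mem_zero h
  rw [Real.exp_log (abs_pos.2 (div_ne_zero hne hpq.ne'))] at h1
  rcases abs_choice (P / Real.pi ^ ((r : ℝ) / 2)) with h2 | h2
  · rwa [h2] at h1
  · rw [h2] at h1
    have h3 := h1.neg
    rwa [neg_neg] at h3

/-- the full equivalence for the classes of j/D, -j/D, 1/2 and 0 -/
theorem iffGood {D j : ℕ} (hj0 : 1 ≤ j) (hjD : j < D)
    (hj : AlgebraicIndependent ℚ ![Real.pi, Real.Gamma ((j : ℝ) / D)])
    {r : ℕ} (a : Fin r → ℚ) (hnp : ∀ (i : Fin r) (k : ℕ), a i ≠ -(k : ℚ))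
    (ha : ∀ i, ∃ z : ℤ, a i = (j : ℚ) / D + z ∨ a i = -((j : ℚ) / D) + z ∨ a i = z / 2)
    (D' : ℕ) (hD0 : 0 < D') (hD' : ∀ i, ∃ z : ℤ, (D' : ℚ) * a i = z) :
    (∃ α : ℝ, IsAlgebraic ℚ α ∧
      ∏ i, Real.Gamma ((a i : ℚ) : ℝ) = α * Real.pi ^ ((r : ℝ) / 2)) ↔
    ∀ m : ℕ, 1 ≤ m → m ≤ D' → Nat.Coprime m D' →
      ∑ i, Int.fract ((m : ℚ) * a i) = (r : ℚ) / 2 := by
  classical
  have hpiC : IsAlgebraic ℚ⟮(Real.pi : ℂ)⟯ (Real.pi : ℂ) := self_alg _
  have hjT := not_both hj hpiC
  constructor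
  · intro h m _ _ hm
    exact onlyIf thmAll hj0 hjD hjT a hnp ha h D' hD' m hm
  · intro h
    have hDq : (0 : ℚ) < D := by
      have : 0 < D := by omega
      exact_mod_cast this
    set x : ℚ := (j : ℚ) / D with hx
    have hx0 : 0 < x := by
      apply div_pos _ hDq
      exact_mod_cast hj0
    have hx1 : x < 1 := by
      rw [hx, div_lt_one hDq]
      exact_mod_cast hjD
    have hxh : x ≠ 1 / 2 := by
      intro hxh
      have h1 : (j : ℝ) / D = ((x : ℚ) : ℝ) := by rw [hx]; push_cast; rfl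
      rw [h1, hxh] at hjT
      apply hjT
      have h2 : Real.Gamma (((1 / 2 : ℚ)) : ℝ) = √Real.pi := by
        rw [← Real.Gamma_one_half_eq]; norm_num
      rw [h2]
      have h3 : IsAlgebraic ℚ⟮(Real.pi : ℂ)⟯ (((√Real.pi : ℝ) : ℂ) ^ 2) := by
        have h4 : (((√Real.pi : ℝ) : ℂ) ^ 2) = (Real.pi : ℂ) := by
          rw [← Complex.ofReal_pow, Real.sq_sqrt Real.pi_pos.le]
        rw [h4]; exact hpiC
      exact h3.of_pow (by norm_num)
    have hen := fun i => entry hx0 hx1 (hnp i) (ha i) (hD' i)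
    choose s e hs1 hs2 hs3 using hen
    set S : ℚ := ∑ i, (s i : ℚ) with hS
    set E : ℚ := ∑ i, ((e i : ℚ) / 2) with hE
    have key : ∀ m : ℕ, 1 ≤ m → m ≤ D' → Nat.Coprime m D' →
        S * (Int.fract ((m : ℚ) * x) - 1 / 2) = E := by
      intro m h1 h2 h3
      have h4 := h m h1 h2 h3
      rw [sum_congr rfl fun i _ => hs2 i m h3, sum_sub_distrib, sum_add_distrib, ← sum_mul,
        sum_const, card_univ, Fintype.card_fin, nsmul_eq_mul] at h4
      linarith
    have k1 := key 1 le_rfl hD0 (Nat.coprime_one_left _)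
    have hf1 : Int.fract (((1 : ℕ) : ℚ) * x) = x := by
      rw [Nat.cast_one, one_mul, Int.fract_eq_self]
      exact ⟨hx0.le, hx1⟩
    rw [hf1] at k1
    have hSE : S = 0 ∧ E = 0 := by
      by_cases hS0 : S = 0
      · refine ⟨hS0, ?_⟩
        rw [hS0, zero_mul] at k1
        exact k1.symm
      · exfalso
        obtain ⟨i, hi⟩ : ∃ i, s i ≠ 0 := by
          by_contra hcon
          push Not at hcon
          apply hS0
          rw [hS]
          apply sum_eq_zero
          intro i _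
          rw [hcon i, Int.cast_zero]
        obtain ⟨z, hz⟩ := (hs3 i).resolve_left hi
        have hD2 : 2 ≤ D' := by
          by_contra hcon
          have h1 : D' = 1 := by omega
          rw [h1, Nat.cast_one, one_mul] at hz
          have h2 : (0 : ℚ) < (z : ℚ) := by rw [← hz]; exact hx0
          have h3 : (z : ℚ) < 1 := by rw [← hz]; exact hx1
          have h4 : 0 < z := by exact_mod_cast h2
          have h5 : z < 1 := by exact_mod_cast h3
          omega
        have hco : Nat.Coprime (D' - 1) D' := by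
          have h1 := (Nat.coprime_self_sub_right (m := 1) (n := D') (by omega)).2
            (Nat.coprime_one_right D')
          exact h1.symm
        have k2 := key (D' - 1) (by omega) (by omega) hco
        have hf2 : Int.fract (((D' - 1 : ℕ) : ℚ) * x) = 1 - x := by
          rw [Nat.cast_sub (by omega), Nat.cast_one]
          have h1 : ((D' : ℚ) - 1) * x = (1 - x) + ((z - 1 : ℤ) : ℚ) := by
            rw [sub_mul, hz]; push_cast; ring
          rw [h1, Int.fract_add_intCast, Int.fract_eq_self]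
          constructor <;> linarith
        rw [hf2] at k2
        have h1 : E = 0 := by linarith
        rw [h1] at k1
        rcases mul_eq_zero.1 k1 with h2 | h2
        · exact hS0 h2
        · apply hxh; linarith
    apply of_sum_nc a hnp
    rw [sum_congr rfl fun i _ => hs1 i (LA 0) (LA_hasAlg 0), sum_sub_distrib, ← sum_smul,
      ← sum_smul, ← hS, ← hE, hSE.1, hSE.2, zero_smul, zero_smul, sub_zero]

end Pool.Agent.GP.DedM
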