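import Pool.Agent.GP.DedMi

/-! Algebraically independent pairs of gamma values. -/

set_option autoImplicit false

namespace Pool.Agent.GP.DedM

open Finset IntermediateField

open algebraAdjoinAdjoin in
/-- from transcendence over a simple extension to algebraic independence -/
lemma algInd2 {z x : ℝ} (hz : Transcendental ℚ z)
    (hx : Transcendental ℚ⟮(z : ℂ)⟯ (x : ℂ)) : AlgebraicIndependent ℚ ![z, x] := by
  have hz' : Transcendental ℚ (z : ℂ) := by
    intro h
    apply hz
    have h1 : (z : ℂ) = algebraMap ℝ ℂ z := rfl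
    rw [h1] at h
    exact (isAlgebraic_algebraMap_iff (algebraMap ℝ ℂ).injective).1 h
  have h1 : AlgebraicIndependent ℚ (fun _ : Unit => (z : ℂ)) := by
    rw [algebraicIndependent_unique_type_iff]
    exact hz'
  have h2 : Transcendental (Algebra.adjoin ℚ (Set.range fun _ : Unit => (z : ℂ))) (x : ℂ) := by
    rw [Set.range_const]
    intro hcon
    apply hx
    exact hcon.extendScalars (FaithfulSMul.algebraMap_injective _ _)
  have h3 := (h1.option_iff_transcendental (x : ℂ)).2 h2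
  have h4 : (fun i => ((![z, x] i : ℝ) : ℂ)) =
      (fun o : Option Unit => o.elim (x : ℂ) fun _ : Unit => (z : ℂ)) ∘
        (![some (), none] : Fin 2 → Option Unit) := by
    funext i
    fin_cases i <;> rfl
  have h5 : AlgebraicIndependent ℚ (fun i => ((![z, x] i : ℝ) : ℂ)) := by
    rw [h4]
    apply h3.comp
    intro a b hab
    fin_cases a <;> fin_cases b <;> simp_all
  have h6 : (fun i => ((![z, x] i : ℝ) : ℂ)) =
      (Complex.ofRealAm.restrictScalars ℚ : ℝ →ₐ[ℚ] ℂ) ∘ ![z, x] := rfl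
  rw [h6] at h5
  exact AlgebraicIndependent.of_comp _ h5

lemma algInd_swap {x y : ℝ} (h : AlgebraicIndependent ℚ ![x, y]) :
    AlgebraicIndependent ℚ ![y, x] := by
  have h1 : ![y, x] = ![x, y] ∘ (![1, 0] : Fin 2 → Fin 2) := by
    funext i
    fin_cases i <;> rfl
  rw [h1]
  apply h.comp
  intro a b hab
  fin_cases a <;> fin_cases b <;> simp_all

/-- reflection: π = Γ(x) Γ(1-x) times an algebraic number -/
lemma pi_eq {D j : ℕ} (h1 : 1 ≤ j) (h2 : j < D) : ∃ s : ℝ, s ≠ 0 ∧ IsAlgebraic ℚ s ∧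
    Real.pi = Real.Gamma ((j : ℝ) / D) * Real.Gamma (((D - j : ℕ) : ℝ) / D) * s := by
  have hDR : (0 : ℝ) < D := by
    have : 0 < D := by omega
    exact_mod_cast this
  set x : ℝ := (j : ℝ) / D with hx
  have hx0 : 0 < x := div_pos (by exact_mod_cast h1) hDR
  have hx1 : x < 1 := by
    rw [hx, div_lt_one hDR]; exact_mod_cast h2
  have h4 : ((D - j : ℕ) : ℝ) / D = 1 - x := by
    rw [Nat.cast_sub h2.le, hx]; field_simp
  have hs : 0 < Real.sin (Real.pi * x) :=
    Real.sin_pos_of_pos_of_lt_pi (by positivity) (by nlinarith [Real.pi_pos])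
  refine ⟨Real.sin (Real.pi * x), hs.ne', ?_, ?_⟩
  · have h8 := (IsFractionRing.isAlgebraic_iff ℤ ℚ ℝ).1
      (Real.isAlgebraic_sin_rat_mul_pi ((j : ℚ) / D))
    have h9 : ((((j : ℚ) / D : ℚ)) : ℝ) * Real.pi = Real.pi * x := by
      rw [hx]; push_cast; ring
    rwa [h9] at h8
  · rw [h4, Real.Gamma_mul_Gamma_one_sub]; field_simp

open Classical in
/-- if π is transcendental over ℚ(θ) then at least half of the gamma values are -/
lemma half_trans {θ : ℂ} (hpi : Transcendental ℚ⟮θ⟯ (Real.pi : ℂ)) {D : ℕ} (hD : 3 ≤ D) :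
    D ≤ 2 * ((Finset.Ico 1 D).filter fun j : ℕ =>
      Transcendental ℚ⟮θ⟯ ((Real.Gamma ((j : ℝ) / D) : ℝ) : ℂ)).card + 1 := by
  set A := (Finset.Ico 1 D).filter fun j : ℕ =>
    Transcendental ℚ⟮θ⟯ ((Real.Gamma ((j : ℝ) / D) : ℝ) : ℂ) with hA
  have h1 : Finset.Ico 1 D ⊆ A ∪ A.image fun j => D - j := by
    intro j hj
    have hj' := mem_Ico.1 hj
    by_contra hcon
    rw [mem_union, not_or, mem_image, not_exists] at hcon
    have h2 : IsAlgebraic ℚ⟮θ⟯ ((Real.Gamma ((j : ℝ) / D) : ℝ) : ℂ) := by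
      by_contra h
      exact hcon.1 (mem_filter.2 ⟨hj, h⟩)
    have h3 : IsAlgebraic ℚ⟮θ⟯ ((Real.Gamma (((D - j : ℕ) : ℝ) / D) : ℝ) : ℂ) := by
      by_contra h
      refine hcon.2 (D - j) ⟨mem_filter.2 ⟨mem_Ico.2 ⟨by omega, by omega⟩, h⟩, by omega⟩
    apply hpi
    obtain ⟨s, _, hs, h5⟩ := pi_eq hj'.1 hj'.2
    have h7 := (h2.mul h3).mul ((alg_complex hs).tower_top ℚ⟮θ⟯)
    rw [← Complex.ofReal_mul, ← Complex.ofReal_mul, ← h5] at h7
    exact h7
  have h2 := (card_le_card h1).trans (card_union_le _ _)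
  rw [Nat.card_Ico] at h2
  have h3 : (A.image fun j => D - j).card ≤ A.card := card_image_le
  omega

open Classical in
/-- many algebraically independent pairs of gamma values -/
theorem pairs {D : ℕ} (hD : 3 ≤ D) :
    7 * (D - 2) ^ 2 ≤ 32 * ((Finset.Ico 1 D ×ˢ Finset.Ico 1 D).filter fun p : ℕ × ℕ =>
      AlgebraicIndependent ℚ ![Real.Gamma ((p.1 : ℝ) / D), Real.Gamma ((p.2 : ℝ) / D)]).card := by
  have hpit := pi_transcendental thmAll
  set G := (Finset.Ico 1 D).filter fun j : ℕ =>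
    AlgebraicIndependent ℚ ![Real.pi, Real.Gamma ((j : ℝ) / D)] with hG
  set T := (Finset.Ico 1 D).filter fun j : ℕ => j ∉ G ∧
    Transcendental ℚ (Real.Gamma ((j : ℝ) / D)) with hT
  set Q : ℕ → ℕ → Prop := fun k j =>
    AlgebraicIndependent ℚ ![Real.Gamma ((k : ℝ) / D), Real.Gamma ((j : ℝ) / D)] with hQ
  have hGb : D ≤ 4 * G.card + 2 := thmB_pi thmAll D
  have hGle : G.card ≤ D - 1 := by
    refine (card_le_card (filter_subset _ _)).trans ?_
    rw [Nat.card_Ico]
  -- the numerators outside G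
  have hTb : D ≤ G.card + 2 * T.card + 1 := by
    have h1 : Finset.Ico 1 D ⊆ (G ∪ T) ∪ T.image fun j => D - j := by
      intro j hj
      have hj' := mem_Ico.1 hj
      by_contra hcon
      rw [mem_union, mem_union, not_or, not_or, mem_image, not_exists] at hcon
      obtain ⟨⟨hcG, hcT⟩, hcI⟩ := hcon
      have h2 : IsAlgebraic ℚ (Real.Gamma ((j : ℝ) / D)) := by
        by_contra h
        exact hcT (mem_filter.2 ⟨hj, hcG, h⟩)
      apply hcI (D - j)
      obtain ⟨s, hs0, hs, h5⟩ := pi_eq hj'.1 hj'.2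
      have hne : Real.Gamma ((j : ℝ) / D) ≠ 0 := by
        intro h0
        rw [h0, zero_mul, zero_mul] at h5
        exact Real.pi_ne_zero h5
      have h6 : Real.Gamma (((D - j : ℕ) : ℝ) / D) =
          Real.pi * (Real.Gamma ((j : ℝ) / D) * s)⁻¹ := by
        rw [h5]; field_simp
      have h7 : IsAlgebraic ℚ (Real.Gamma ((j : ℝ) / D) * s)⁻¹ := (h2.mul hs).inv
      refine ⟨mem_filter.2 ⟨mem_Ico.2 ⟨by omega, by omega⟩, ?_, ?_⟩, by omega⟩
      · intro hg
        have h8 := not_both (mem_filter.1 hg).2 (self_alg (Real.pi : ℂ))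
        apply h8
        rw [h6, Complex.ofReal_mul]
        exact (self_alg _).mul ((alg_complex h7).tower_top _)
      · intro ha
        apply hpit
        rw [h5]
        exact (h2.mul ha).mul hs
    have h2 := (card_le_card h1).trans ((card_union_le _ _).trans
      (Nat.add_le_add_right (card_union_le _ _) _))
    rw [Nat.card_Ico] at h2
    have h3 : (T.image fun j => D - j).card ≤ T.card := card_image_le
    omega
  have hdisj : Disjoint G T := by
    rw [disjoint_left]
    intro j hj hj'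
    exact (mem_filter.1 hj').2.1 hj
  -- rows
  have hrowG : ∀ k ∈ G, D ≤ 2 * ((Finset.Ico 1 D).filter fun j => Q k j).card + 1 := by
    intro k hk
    have hk2 := (mem_filter.1 hk).2
    have hkt : Transcendental ℚ (Real.Gamma ((k : ℝ) / D)) := by
      have := hk2.transcendental 1
      simpa using this
    have hpk : Transcendental ℚ⟮((Real.Gamma ((k : ℝ) / D) : ℝ) : ℂ)⟯ (Real.pi : ℂ) :=
      not_both (algInd_swap hk2) (self_alg _)
    refine (half_trans hpk hD).trans ?_
    apply Nat.add_le_add_right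
    apply Nat.mul_le_mul_left
    apply card_le_card
    intro j hj
    rw [mem_filter] at hj ⊢
    exact ⟨hj.1, algInd2 hkt hj.2⟩
  have hrowT : ∀ k ∈ T, G.card ≤ ((Finset.Ico 1 D).filter fun j => Q k j).card := by
    intro k hk
    obtain ⟨hkI, hkG, hkt⟩ := mem_filter.1 hk
    have hpk : IsAlgebraic ℚ⟮((Real.Gamma ((k : ℝ) / D) : ℝ) : ℂ)⟯ (Real.pi : ℂ) := by
      by_contra h
      apply hkG
      exact mem_filter.2 ⟨hkI, algInd_swap (algInd2 hkt h)⟩
    apply card_le_card
    intro j hj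
    rw [mem_filter] at hj ⊢
    exact ⟨hj.1, algInd2 hkt (not_both hj.2 hpk)⟩
  have hsum : ((Finset.Ico 1 D ×ˢ Finset.Ico 1 D).filter fun p : ℕ × ℕ =>
      AlgebraicIndependent ℚ ![Real.Gamma ((p.1 : ℝ) / D), Real.Gamma ((p.2 : ℝ) / D)]).card =
      ∑ k ∈ Finset.Ico 1 D, ((Finset.Ico 1 D).filter fun j => Q k j).card := by
    rw [card_filter, sum_product]
    apply sum_congr rfl
    intro k _
    rw [card_filter]
  rw [hsum]
  have hle : ∑ k ∈ G, ((Finset.Ico 1 D).filter fun j => Q k j).card +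
      ∑ k ∈ T, ((Finset.Ico 1 D).filter fun j => Q k j).card ≤
      ∑ k ∈ Finset.Ico 1 D, ((Finset.Ico 1 D).filter fun j => Q k j).card := by
    rw [← sum_union hdisj]
    apply sum_le_sum_of_subset
    exact union_subset (filter_subset _ _) (filter_subset _ _)
  have h1 : G.card * (D - 1) ≤ 2 * ∑ k ∈ G, ((Finset.Ico 1 D).filter fun j => Q k j).card := by
    rw [mul_sum, ← smul_eq_mul, ← sum_const]
    apply sum_le_sum
    intro k hk
    have := hrowG k hk
    omega
  have h2 : T.card * G.card ≤ ∑ k ∈ T, ((Finset.Ico 1 D).filter fun j => Q k j).card := by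
    rw [← smul_eq_mul, ← sum_const]
    exact sum_le_sum hrowT
  set P := ∑ k ∈ Finset.Ico 1 D, ((Finset.Ico 1 D).filter fun j => Q k j).card
  obtain ⟨u, rfl⟩ : ∃ u, D = u + 2 := ⟨D - 2, by omega⟩
  have e1 : u + 2 - 1 = u + 1 := rfl
  have e2 : u + 2 - 2 = u := rfl
  rw [e1] at h1 hGle
  rw [e2]
  have h3 : G.card * (u + 1) + 2 * (T.card * G.card) ≤ 2 * P := by omega
  have h4 : u + 1 ≤ G.card + 2 * T.card := by omega
  have h5 : u ≤ 4 * G.card := by omega
  generalize G.card = g at *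
  generalize T.card = t at *
  have h6 : (u + 1) * g ≤ (g + 2 * t) * g := Nat.mul_le_mul_right _ h4
  zify at *
  nlinarith [mul_nonneg (sub_nonneg.2 h5) (sub_nonneg.2 hGle)]

end Pool.Agent.GP.DedM
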