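import Pool.Agent.GP.LW
import Pool.Agent.GP.Bri

/-! Module ETA: transformation laws of the theta functions. -/

set_option autoImplicit false

namespace Pool.Agent.GP

open Complex Metric

theorem nm_ne_zero (τ : ℂ) : nm τ ≠ 0 := Complex.exp_ne_zero _

theorem nm_add_one (τ : ℂ) : nm (τ + 1) = -nm τ := _root_.GP.qq_add_one τ

theorem nm_diff : Differentiable ℂ nm := fun τ => (_root_.GP.hasDerivAt_qq τ).differentiableAt

theorem th2_ne_zero (τ : ℂ) : th2 τ ≠ 0 := by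
  rw [th2]
  exact mul_ne_zero (mul_ne_zero (by norm_num) (nm_ne_zero τ)) (Complex.exp_ne_zero _)

theorem th3_ne_zero (τ : ℂ) : th3 τ ≠ 0 := Complex.exp_ne_zero _

theorem th4_ne_zero (τ : ℂ) : th4 τ ≠ 0 := Complex.exp_ne_zero _

theorem nm_maps : Set.MapsTo nm {τ : ℂ | 0 < τ.im} (ball (0 : ℂ) 1) := fun _ hτ =>
  mem_ball_zero_iff.2 (nm_norm_lt hτ)

theorem neg_nm_maps : Set.MapsTo (fun τ => -nm τ) {τ : ℂ | 0 < τ.im} (ball (0 : ℂ) 1) :=
  fun τ hτ => by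
    rw [mem_ball_zero_iff, norm_neg]
    exact nm_norm_lt hτ

theorem th2_diff : DifferentiableOn ℂ th2 {τ | 0 < τ.im} :=
  (nm_diff.differentiableOn.const_mul 16).mul
    (lW2_diff.comp nm_diff.differentiableOn nm_maps).cexp

theorem th3_diff : DifferentiableOn ℂ th3 {τ | 0 < τ.im} :=
  (lW4_diff.comp nm_diff.differentiableOn.neg neg_nm_maps).cexp

theorem th4_diff : DifferentiableOn ℂ th4 {τ | 0 < τ.im} :=
  (lW4_diff.comp nm_diff.differentiableOn nm_maps).cexp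

theorem th2_add_one (τ : ℂ) : th2 (τ + 1) = -th2 τ := by
  rw [th2, th2, nm_add_one, lW2_neg]
  ring

theorem th3_add_one (τ : ℂ) : th3 (τ + 1) = th4 τ := by
  rw [th3, th4, nm_add_one, neg_neg]

theorem th4_add_one (τ : ℂ) : th4 (τ + 1) = th3 τ := by
  rw [th3, th4, nm_add_one]

theorem th2_S {τ : ℂ} (h : 0 < τ.im) : th2 (-1 / τ) = -τ ^ 2 * th4 τ := by
  rw [_root_.GP.th2_eq' (_root_.GP.neg_one_div_im h), _root_.GP.th4_eq' h,
    _root_.GP.th2_neg_inv h]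

theorem th4_S {τ : ℂ} (h : 0 < τ.im) : th4 (-1 / τ) = -τ ^ 2 * th2 τ := by
  rw [_root_.GP.th4_eq' (_root_.GP.neg_one_div_im h), _root_.GP.th2_eq' h,
    _root_.GP.th4_neg_inv h]

theorem th3_S {τ : ℂ} (h : 0 < τ.im) : th3 (-1 / τ) = -τ ^ 2 * th3 τ := by
  rw [_root_.GP.th3_eq' (_root_.GP.neg_one_div_im h), _root_.GP.th3_eq' h,
    _root_.GP.th3_neg_inv h]

end Pool.Agent.GP
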