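import Pool.Agent.GP.Ser
import Pool.Agent.GP.Zed
import Pool.Agent.Helper32.GP.Jensen

/-!
Module EXT of the project MP_c2409d_nt (helper25), abstract core of the extrapolation.
-/

open Finset Metric Real

namespace GP

/-- The auxiliary function of the variable `w`. -/
noncomputable def afun {κ : Type*} [Fintype κ] [DecidableEq κ] {L1 L : ℕ}
    (X1 X0 : ℂ → ℂ) (g : κ → ℂ → ℂ) (b : κ → ℂ)
    (P : Fin (L1+1) → (κ → Fin L) → ℂ) (w : ℂ) : ℂ :=
  ∑ i : Fin (L1+1), ∑ j : κ → Fin L,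
    P i j * X1 w ^ (i : ℕ) * X0 w ^ (L1 - (i : ℕ)) * ∏ t, (g t w + b t) ^ (j t : ℕ)

theorem isSer_afun {κ : Type*} [Fintype κ] [DecidableEq κ] {L1 L : ℕ}
    {F1 F0 : PowerSeries ℂ} {X1 X0 : ℂ → ℂ} {G : κ → PowerSeries ℂ} {g : κ → ℂ → ℂ}
    (h1 : IsSer F1 X1) (h0 : IsSer F0 X0) (hg : ∀ t, IsSer (G t) (g t)) (b : κ → ℂ)
    (P : Fin (L1+1) → (κ → Fin L) → ℂ) : IsSer (aser F1 F0 G b P) (afun X1 X0 g b P) := by
  unfold aser
  refine IsSer.congr (f := fun w => ∑ i : Fin (L1+1), ∑ j : κ → Fin L,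
    P i j * X1 w ^ (i : ℕ) * X0 w ^ (L1 - (i : ℕ)) * ∏ t, (g t w + b t) ^ (j t : ℕ)) ?_
    (fun w _ => rfl)
  refine IsSer.sum _ fun i _ => ?_
  refine IsSer.sum _ fun j _ => ?_
  refine IsSer.mul (IsSer.mul (IsSer.mul (IsSer.const _) (h1.pow _)) (h0.pow _)) ?_
  refine IsSer.prod _ fun t _ => ?_
  exact IsSer.pow ((hg t).add (IsSer.const _)) _

theorem norm_afun_le {κ : Type*} [Fintype κ] [DecidableEq κ] {L1 L : ℕ}
    {X1 X0 : ℂ → ℂ} {g : κ → ℂ → ℂ} {b : κ → ℂ} {P : Fin (L1+1) → (κ → Fin L) → ℂ}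
    {Hh A D : ℝ} {w : ℂ} (hP : ∀ i j, ‖P i j‖ ≤ Real.exp Hh) (hA : 0 ≤ A) (hD : 1 ≤ D)
    (h1 : ‖X1 w‖ ≤ A) (h0 : ‖X0 w‖ ≤ A) (hg : ∀ t, ‖g t w‖ + ‖b t‖ ≤ D) :
    ‖afun X1 X0 g b P w‖ ≤
      ((L1 : ℝ) + 1) * (L : ℝ) ^ (Fintype.card κ) * (Real.exp Hh * A ^ L1 *
        D ^ (Fintype.card κ * L)) := by
  have hterm : ∀ (i : Fin (L1+1)) (j : κ → Fin L),
      ‖P i j * X1 w ^ (i : ℕ) * X0 w ^ (L1 - (i : ℕ)) * ∏ t, (g t w + b t) ^ (j t : ℕ)‖ ≤
        Real.exp Hh * A ^ L1 * D ^ (Fintype.card κ * L) := by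
    intro i j
    rw [norm_mul, norm_mul, norm_mul, norm_pow, norm_pow, norm_prod]
    have hi : (i : ℕ) + (L1 - (i : ℕ)) = L1 := by have := i.isLt; omega
    have e1 : ‖X1 w‖ ^ (i : ℕ) ≤ A ^ (i : ℕ) := pow_le_pow_left₀ (norm_nonneg _) h1 _
    have e0 : ‖X0 w‖ ^ (L1 - (i : ℕ)) ≤ A ^ (L1 - (i : ℕ)) :=
      pow_le_pow_left₀ (norm_nonneg _) h0 _
    have e2 : ∏ t, ‖(g t w + b t) ^ (j t : ℕ)‖ ≤ D ^ (Fintype.card κ * L) := by
      calc ∏ t, ‖(g t w + b t) ^ (j t : ℕ)‖ ≤ ∏ _t : κ, D ^ L := by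
            refine Finset.prod_le_prod (fun t _ => norm_nonneg _) fun t _ => ?_
            rw [norm_pow]
            calc ‖g t w + b t‖ ^ (j t : ℕ) ≤ D ^ (j t : ℕ) :=
                  pow_le_pow_left₀ (norm_nonneg _) ((norm_add_le _ _).trans (hg t)) _
              _ ≤ D ^ L := pow_le_pow_right₀ hD (j t).isLt.le
        _ = D ^ (Fintype.card κ * L) := by
            rw [Finset.prod_const, Finset.card_univ, ← pow_mul, mul_comm]
    calc ‖P i j‖ * ‖X1 w‖ ^ (i : ℕ) * ‖X0 w‖ ^ (L1 - (i : ℕ)) *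
          ∏ t, ‖(g t w + b t) ^ (j t : ℕ)‖
        ≤ Real.exp Hh * A ^ (i : ℕ) * A ^ (L1 - (i : ℕ)) * D ^ (Fintype.card κ * L) := by
          have := hP i j
          gcongr
      _ = Real.exp Hh * A ^ L1 * D ^ (Fintype.card κ * L) := by
          rw [mul_assoc (Real.exp Hh), ← pow_add, hi]
  unfold afun
  calc ‖∑ i : Fin (L1+1), ∑ j : κ → Fin L,
        P i j * X1 w ^ (i : ℕ) * X0 w ^ (L1 - (i : ℕ)) * ∏ t, (g t w + b t) ^ (j t : ℕ)‖
      ≤ ∑ i : Fin (L1+1), ∑ j : κ → Fin L,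
        ‖P i j * X1 w ^ (i : ℕ) * X0 w ^ (L1 - (i : ℕ)) * ∏ t, (g t w + b t) ^ (j t : ℕ)‖ := by
        refine (norm_sum_le _ _).trans ?_
        exact Finset.sum_le_sum fun i _ => norm_sum_le _ _
    _ ≤ ∑ _i : Fin (L1+1), ∑ _j : κ → Fin L,
          Real.exp Hh * A ^ L1 * D ^ (Fintype.card κ * L) :=
        Finset.sum_le_sum fun i _ => Finset.sum_le_sum fun j _ => hterm i j
    _ = _ := by
        simp only [Finset.sum_const, Finset.card_univ, Fintype.card_fin, Fintype.card_pi,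
          Finset.prod_const, nsmul_eq_mul]
        push_cast
        ring

/-- The exponent of the trivial bound. -/
noncomputable def Ub (n L1 L : ℕ) (Hh C0 D : ℝ) : ℝ :=
  Hh + Real.log ((L1 : ℝ) + 1) + n * Real.log L + L1 * Real.log C0 + (n * L : ℕ) * Real.log D

theorem bound_le_exp {n L1 L : ℕ} {Hh C0 D s : ℝ} (hC0 : 1 ≤ C0) (hD : 1 ≤ D) :
    ((L1 : ℝ) + 1) * (L : ℝ) ^ n * (Real.exp Hh * (C0 * Real.exp s) ^ L1 * D ^ (n * L)) ≤
      Real.exp (Ub n L1 L Hh C0 D + L1 * s) := by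
  have hL : (L : ℝ) ^ n ≤ Real.exp (n * Real.log L) := by
    rcases Nat.eq_zero_or_pos L with h | h
    · subst h
      simp only [Nat.cast_zero, Real.log_zero, mul_zero, Real.exp_zero]
      exact pow_le_one₀ le_rfl zero_le_one
    · have hL0 : (0 : ℝ) < L := by exact_mod_cast h
      rw [mul_comm, Real.exp_mul, Real.exp_log hL0, Real.rpow_natCast]
  have h1 : ((L1 : ℝ) + 1) = Real.exp (Real.log ((L1 : ℝ) + 1)) := by
    rw [Real.exp_log (by positivity)]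
  have h2 : (C0 * Real.exp s) ^ L1 = Real.exp (L1 * Real.log C0 + L1 * s) := by
    have hC : 0 < C0 := by linarith
    rw [← mul_add, mul_comm (L1 : ℝ), Real.exp_mul, Real.exp_add, Real.exp_log hC,
      Real.rpow_natCast]
  have h3 : D ^ (n * L) = Real.exp ((n * L : ℕ) * Real.log D) := by
    have hD0 : 0 < D := by linarith
    rw [mul_comm ((n * L : ℕ) : ℝ), Real.exp_mul, Real.exp_log hD0, Real.rpow_natCast]
  rw [h2, h3]
  calc ((L1 : ℝ) + 1) * (L : ℝ) ^ n * (Real.exp Hh * Real.exp (L1 * Real.log C0 + L1 * s) *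
        Real.exp ((n * L : ℕ) * Real.log D))
      ≤ Real.exp (Real.log ((L1 : ℝ) + 1)) * Real.exp (n * Real.log L) *
        (Real.exp Hh * Real.exp (L1 * Real.log C0 + L1 * s) *
        Real.exp ((n * L : ℕ) * Real.log D)) := by
        rw [← h1]
        gcongr
    _ = Real.exp (Ub n L1 L Hh C0 D + L1 * s) := by
        rw [← Real.exp_add, ← Real.exp_add, ← Real.exp_add, ← Real.exp_add]
        congr 1
        unfold Ub
        ring

/-- Maximum modulus with a zero of high order. -/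
theorem norm_le_of_order {F : PowerSeries ℂ} {f : ℂ → ℂ} (hF : IsSer F f) {N : ℕ}
    (hN : ∀ n < N, PowerSeries.coeff n F = 0) {r S : ℝ} (hr0 : 0 < r) (hr1 : r < 1)
    (hS : ∀ v : ℂ, ‖v‖ = r → ‖f v‖ ≤ S) {w : ℂ} (hw : ‖w‖ ≤ r) :
    ‖f w‖ ≤ (‖w‖ / r) ^ N * S := by
  obtain ⟨H, g, _, hg, hfg⟩ := hF.factor hN
  have hgS : ‖g w‖ ≤ S / r ^ N := by
    apply Complex.norm_le_of_forall_mem_frontier_norm_le (U := ball (0:ℂ) r) isBounded_ball
    · apply DifferentiableOn.diffContOnCl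
      rw [closure_ball _ hr0.ne']
      exact hg.differentiableOn.mono (closedBall_subset_ball hr1)
    · intro v hv
      rw [frontier_ball _ hr0.ne'] at hv
      have hv' : ‖v‖ = r := by simpa using hv
      have h1 := hS v hv'
      rw [hfg v (by rw [hv']; exact hr1), norm_mul, norm_pow, hv'] at h1
      rw [le_div_iff₀ (by positivity), mul_comm]
      exact h1
    · rw [closure_ball _ hr0.ne']
      simpa using hw
  rw [hfg w (lt_of_le_of_lt hw hr1), norm_mul, norm_pow, div_pow]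
  calc ‖w‖ ^ N * ‖g w‖ ≤ ‖w‖ ^ N * (S / r ^ N) := by gcongr
    _ = ‖w‖ ^ N / r ^ N * S := by ring

/-- The parameter `w = exp(pi i z / p)`. -/
noncomputable def wz (p : ℕ) (z : ℂ) : ℂ := Complex.exp (π * Complex.I * z / p)

theorem norm_wz (p : ℕ) (z : ℂ) : ‖wz p z‖ = Real.exp (-(π * z.im / p)) := by
  unfold wz
  rw [Complex.norm_exp]
  congr 1
  have h : (π : ℂ) * Complex.I * z / p = ((π / p : ℝ) : ℂ) * (Complex.I * z) := by
    push_cast; ring
  rw [h, Complex.re_ofReal_mul]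
  simp
  ring

theorem wz_wpar (p : ℕ) (x y : ℝ) : wz p ((x : ℂ) + y * Complex.I) = wpar p x y := rfl

/-- The estimate near the cusp `a / c`. -/
theorem near_cusp {κ : Type*} [Fintype κ] [DecidableEq κ] {L1 L p : ℕ} (hp : 0 < p)
    {F1 F0 : PowerSeries ℂ} {X1 X0 : ℂ → ℂ} {G : κ → PowerSeries ℂ} {g : κ → ℂ → ℂ}
    (h1 : IsSer F1 X1) (h0 : IsSer F0 X0) (hg : ∀ t, IsSer (G t) (g t))
    {P : Fin (L1+1) → (κ → Fin L) → ℂ} {Hh C0 D B ρ : ℝ}
    (hP : ∀ i j, ‖P i j‖ ≤ Real.exp Hh) (hC0 : 1 ≤ C0) (hD : 1 ≤ D)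
    (hr1 : ∀ w, ‖w‖ = Real.exp (-(π / p)) → ‖X1 w‖ ≤ C0)
    (hr0 : ∀ w, ‖w‖ = Real.exp (-(π / p)) → ‖X0 w‖ ≤ C0)
    (hrg : ∀ t w, ‖w‖ = Real.exp (-(π / p)) → ‖g t w‖ + B ≤ D)
    (bs b' : κ → ℂ) (hb' : ∀ t, ‖b' t‖ ≤ B) {N' : ℕ}
    (hN' : ∀ n < N', PowerSeries.coeff n (aser F1 F0 G b' P) = 0)
    {a b c d : ℤ} (k : ℤ) (hc : 0 < c) (hdet : a * d - b * c = 1)
    (hcy : 4 * (c : ℝ) ^ 2 * Real.exp (-ρ) ≤ 1)
    (hlaw : ∀ z : ℂ, 0 < z.im → afun X1 X0 g bs P (wz p (((a : ℂ) * z + b) / (c * z + d))) =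
      ((c : ℂ) * z + d) ^ (2 * L1) * afun X1 X0 g b' P (wz p (z + 2 * k)))
    {x : ℝ} (hx : |x - a / c| ≤ Real.exp (-ρ)) :
    ‖afun X1 X0 g bs P (wpar p x (Real.exp (-ρ)))‖ ≤
      Real.exp (Ub (Fintype.card κ) L1 L Hh C0 D + L1 * (2 * ρ) -
        π * N' / (4 * p * (c : ℝ) ^ 2 * Real.exp (-ρ))) := by
  set y := Real.exp (-ρ) with hy
  have hy0 : 0 < y := Real.exp_pos _
  have hc0 : (0 : ℝ) < c := by exact_mod_cast hc
  have hp0 : (0 : ℝ) < p := by exact_mod_cast hp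
  set z : ℂ := (x : ℂ) + y * Complex.I with hz
  have hzre : z.re = x := by simp [hz]
  have hzim : z.im = y := by simp [hz]
  -- the denominator
  set e : ℂ := (a : ℂ) - c * z with he
  have here : e.re = a - c * x := by simp [he, hzre, hzim]
  have heim : e.im = -(c * y) := by simp [he, hzre, hzim]
  have he0 : e ≠ 0 := by
    intro h
    have : e.im = 0 := by rw [h]; simp
    rw [heim] at this
    have := mul_pos hc0 hy0
    linarith
  have hnsq : Complex.normSq e = (a - c * x) ^ 2 + (c * y) ^ 2 := by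
    rw [Complex.normSq_apply, here, heim]; ring
  have hacx : (a - c * x) ^ 2 ≤ (c * y) ^ 2 := by
    have h2 : a - c * x = -(c * (x - a / c)) := by field_simp; ring
    rw [h2, neg_sq, mul_pow, mul_pow]
    have := sq_le_sq' (by linarith [(abs_le.mp hx).1]) (abs_le.mp hx).2
    gcongr
  have hn_lo : (c * y) ^ 2 ≤ Complex.normSq e := by rw [hnsq]; nlinarith [sq_nonneg ((a:ℝ) - c * x)]
  have hn_hi : Complex.normSq e ≤ 2 * (c * y) ^ 2 := by rw [hnsq]; linarith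
  have hcy2 : 0 < (c * y) ^ 2 := by positivity
  have hn0 : 0 < Complex.normSq e := lt_of_lt_of_le hcy2 hn_lo
  -- the point z'
  set z' : ℂ := ((d : ℂ) * z - b) / e with hz'
  have hdetC : (a : ℂ) * d - b * c = 1 := by exact_mod_cast hdet
  have hcd : (c : ℂ) * z' + d = 1 / e := by
    rw [hz']
    field_simp
    rw [he]
    linear_combination hdetC
  have hgz : ((a : ℂ) * z' + b) / (c * z' + d) = z := by
    rw [hcd, div_div_eq_mul_div, div_one, add_mul, mul_assoc, mul_comm z' e, hz',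
      mul_div_cancel₀ _ he0, he]
    linear_combination z * hdetC
  have hz'im : z'.im = y / Complex.normSq e := by
    have h2 : (e * z').im = ((d : ℂ) * z - b).im := by rw [hz', mul_div_cancel₀ _ he0]
    have h3 : z' = ((d : ℂ) * z - b) * (starRingEnd ℂ e) / Complex.normSq e := by
      rw [hz', Complex.normSq_eq_conj_mul_self]
      have : (starRingEnd ℂ) e ≠ 0 := by simpa using he0
      field_simp
    rw [h3, div_eq_mul_inv, ← Complex.ofReal_inv, Complex.im_mul_ofReal, ← div_eq_mul_inv]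
    congr 1
    simp only [Complex.mul_im, Complex.conj_re, Complex.conj_im, here, heim, Complex.sub_im,
      Complex.sub_re, Complex.mul_re, Complex.intCast_re, Complex.intCast_im, hzre, hzim,
      zero_mul, sub_zero, add_zero]
    have hdetR : (a : ℝ) * d - b * c = 1 := by exact_mod_cast hdet
    linear_combination y * hdetR
  have hY0 : 0 < z'.im := by rw [hz'im]; positivity
  set Y := z'.im with hYdef
  have hYlo : 1 / (2 * (c : ℝ) ^ 2 * y) ≤ Y := by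
    rw [hz'im, div_le_div_iff₀ (by positivity) hn0]
    nlinarith
  have h2le : 2 ≤ 1 / (2 * (c : ℝ) ^ 2 * y) := by
    rw [le_div_iff₀ (by positivity)]
    linarith
  have hY2 : 2 ≤ Y := h2le.trans hYlo
  -- the value
  have hval := hlaw z' hY0
  rw [hgz] at hval
  have hw' : ‖wz p (z' + 2 * k)‖ = Real.exp (-(π * Y / p)) := by
    rw [norm_wz]
    congr 3
    simp [hYdef]
  have hS : ∀ v : ℂ, ‖v‖ = Real.exp (-(π / p)) → ‖afun X1 X0 g b' P v‖ ≤
      Real.exp (Ub (Fintype.card κ) L1 L Hh C0 D) := by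
    intro v hv
    have h2 := norm_afun_le (b := b') hP (by linarith : (0:ℝ) ≤ C0) hD (hr1 v hv) (hr0 v hv)
      (fun t => (add_le_add le_rfl (hb' t)).trans (hrg t v hv))
    have h3 := bound_le_exp (n := Fintype.card κ) (L1 := L1) (L := L) (Hh := Hh) (s := 0) hC0 hD
    rw [Real.exp_zero, mul_one, mul_zero, add_zero] at h3
    exact h2.trans h3
  have hr_lt : Real.exp (-(π / p)) < 1 := by
    rw [Real.exp_lt_one_iff]
    have := Real.pi_pos
    have : 0 < π / p := by positivity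
    linarith
  have hw'le : ‖wz p (z' + 2 * k)‖ ≤ Real.exp (-(π / p)) := by
    rw [hw']
    apply Real.exp_le_exp.mpr
    have h3 : π / p ≤ π * Y / p := by
      have := Real.pi_pos
      gcongr
      nlinarith
    linarith
  have hmax := norm_le_of_order (isSer_afun h1 h0 hg b' P) hN' (Real.exp_pos _) hr_lt hS hw'le
  rw [hw', ← Real.exp_sub, ← Real.exp_nat_mul, ← Real.exp_add] at hmax
  have hcdn : ‖((c : ℂ) * z' + d) ^ (2 * L1)‖ ≤ Real.exp (L1 * (2 * ρ)) := by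
    rw [hcd, norm_pow, norm_div, norm_one, pow_mul]
    have h2 : (1 / ‖e‖) ^ 2 ≤ Real.exp (2 * ρ) := by
      rw [div_pow, one_pow, ← Complex.normSq_eq_norm_sq]
      have hc1 : (1 : ℝ) ≤ c := by exact_mod_cast hc
      have h3 : y ^ 2 ≤ Complex.normSq e := by
        refine le_trans ?_ hn_lo
        rw [mul_pow]
        have : (1:ℝ) ≤ (c:ℝ)^2 := one_le_pow₀ hc1
        nlinarith [sq_nonneg y]
      have h4 : Real.exp (2 * ρ) = 1 / y ^ 2 := by
        rw [hy, ← Real.exp_nat_mul, one_div, ← Real.exp_neg]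
        congr 1
        push_cast; ring
      rw [h4]
      exact one_div_le_one_div_of_le (by positivity) h3
    calc ((1 / ‖e‖) ^ 2) ^ L1 ≤ (Real.exp (2 * ρ)) ^ L1 := by gcongr
      _ = Real.exp (L1 * (2 * ρ)) := by rw [← Real.exp_nat_mul]
  rw [← wz_wpar, ← hz, hval, norm_mul]
  calc ‖((c : ℂ) * z' + d) ^ (2 * L1)‖ * ‖afun X1 X0 g b' P (wz p (z' + 2 * k))‖
      ≤ Real.exp (L1 * (2 * ρ)) * Real.exp (N' * (-(π * Y / p) - -(π / p)) +
        Ub (Fintype.card κ) L1 L Hh C0 D) := by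
        gcongr
    _ = Real.exp (L1 * (2 * ρ) + (N' * (-(π * Y / p) - -(π / p)) +
        Ub (Fintype.card κ) L1 L Hh C0 D)) := by rw [← Real.exp_add]
    _ ≤ _ := by
        apply Real.exp_le_exp.mpr
        have h5 : π * N' / (4 * p * (c : ℝ) ^ 2 * y) ≤ N' * (π * Y / p - π / p) := by
          have h6 : 1 / (4 * (c : ℝ) ^ 2 * y) ≤ Y - 1 := by
            have h7 : 1 / (4 * (c : ℝ) ^ 2 * y) = (1 / (2 * (c : ℝ) ^ 2 * y)) / 2 := by
              field_simp; ring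
            rw [h7]
            linarith
          have h8 : π * N' / (4 * p * (c : ℝ) ^ 2 * y) =
              (N' * (π / p)) * (1 / (4 * (c : ℝ) ^ 2 * y)) := by
            field_simp
          have h9 : N' * (π * Y / p - π / p) = (N' * (π / p)) * (Y - 1) := by
            field_simp
          rw [h8, h9]
          have := Real.pi_pos
          gcongr
        linarith

/-- Rational numbers with small denominators are far apart. -/
theorem cusp_sep {a c a' c' : ℤ} {y : ℝ} (hc : 0 < c) (hc' : 0 < c') (hy : 0 < y)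
    (h1 : 4 * (c : ℝ) ^ 2 * y ≤ 1) (h2 : 4 * (c' : ℝ) ^ 2 * y ≤ 1)
    (hne : (a : ℝ) / c ≠ a' / c') : 4 * y ≤ |(a : ℝ) / c - a' / c'| := by
  have hc0 : (0 : ℝ) < c := by exact_mod_cast hc
  have hc0' : (0 : ℝ) < c' := by exact_mod_cast hc'
  have h3 : (a : ℝ) / c - a' / c' = ((a * c' - a' * c : ℤ) : ℝ) / (c * c') := by
    push_cast; field_simp
  have h4 : (a * c' - a' * c : ℤ) ≠ 0 := by
    intro h
    apply hne
    have h5 : (a : ℝ) / c - a' / c' = 0 := by rw [h3, h]; simp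
    linarith
  have h5 : (1 : ℝ) ≤ |((a * c' - a' * c : ℤ) : ℝ)| := by
    exact_mod_cast Int.one_le_abs h4
  rw [h3, abs_div, abs_of_pos (mul_pos hc0 hc0'), le_div_iff₀ (mul_pos hc0 hc0')]
  refine le_trans ?_ h5
  -- 4 y c c' <= 1
  have h6 : (4 * y * (c * c')) ^ 2 ≤ 1 := by
    have : (4 * y * (c * c')) ^ 2 = (4 * (c : ℝ) ^ 2 * y) * (4 * (c' : ℝ) ^ 2 * y) := by ring
    rw [this]
    calc (4 * (c : ℝ) ^ 2 * y) * (4 * (c' : ℝ) ^ 2 * y) ≤ 1 * 1 := by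
          gcongr
      _ = 1 := by ring
  have h7 : 0 ≤ 4 * y * (c * c') := by positivity
  nlinarith

/-- Coprime pairs with positive second entry and the same quotient are equal. -/
theorem pair_eq {a c a' c' : ℤ} (hc : 0 < c) (hc' : 0 < c') (h : IsCoprime a c)
    (h' : IsCoprime a' c') (he : (a : ℝ) / c = a' / c') : a = a' ∧ c = c' := by
  have hc0 : (c : ℝ) ≠ 0 := by exact_mod_cast hc.ne'
  have hc0' : (c' : ℝ) ≠ 0 := by exact_mod_cast hc'.ne'
  rw [div_eq_div_iff hc0 hc0'] at he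
  have h1 : a * c' = a' * c := by exact_mod_cast he
  have h2 : c ∣ c' := by
    have : c ∣ a * c' := ⟨a', by rw [h1]; ring⟩
    exact h.symm.dvd_of_dvd_mul_left this
  have h3 : c' ∣ c := by
    have : c' ∣ a' * c := ⟨a, by rw [← h1]; ring⟩
    exact h'.symm.dvd_of_dvd_mul_left this
  have h4 : c = c' := Int.dvd_antisymm hc.le hc'.le h2 h3
  refine ⟨?_, h4⟩
  rw [h4] at h1
  exact mul_right_cancel₀ hc'.ne' h1

/-- The abstract extrapolation inequality (section 4). -/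
theorem ext_core {κ : Type*} [Fintype κ] [DecidableEq κ] {L1 L p : ℕ} (hp : 0 < p)
    {F1 F0 : PowerSeries ℂ} {X1 X0 : ℂ → ℂ} {G : κ → PowerSeries ℂ} {g : κ → ℂ → ℂ}
    (h1 : IsSer F1 X1) (h0 : IsSer F0 X0) (hg : ∀ t, IsSer (G t) (g t))
    {P : Fin (L1+1) → (κ → Fin L) → ℂ} {Hh C0 D B ρ : ℝ}
    (hP : ∀ i j, ‖P i j‖ ≤ Real.exp Hh) (hC0 : 1 ≤ C0) (hD : 1 ≤ D)
    -- sizes on the circle of the imaginary part one
    (hr1 : ∀ w, ‖w‖ = Real.exp (-(π / p)) → ‖X1 w‖ ≤ C0)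
    (hr0 : ∀ w, ‖w‖ = Real.exp (-(π / p)) → ‖X0 w‖ ≤ C0)
    (hrg : ∀ t w, ‖w‖ = Real.exp (-(π / p)) → ‖g t w‖ + B ≤ D)
    -- sizes on the small circle
    (hy1 : ∀ w, ‖w‖ = Real.exp (-(π * Real.exp (-ρ) / p)) → ‖X1 w‖ ≤ C0 * Real.exp (2 * ρ))
    (hy0 : ∀ w, ‖w‖ = Real.exp (-(π * Real.exp (-ρ) / p)) → ‖X0 w‖ ≤ C0 * Real.exp (2 * ρ))
    (hyg : ∀ t w, ‖w‖ = Real.exp (-(π * Real.exp (-ρ) / p)) → ‖g t w‖ + B ≤ D)
    (bs : κ → ℂ) (hbs : ∀ t, ‖bs t‖ ≤ B) {M N' : ℕ}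
    (hM : ∀ n < M, PowerSeries.coeff n (aser F1 F0 G bs P) = 0)
    (hM0 : PowerSeries.coeff M (aser F1 F0 G bs P) ≠ 0)
    (CC : Finset (ℤ × ℤ))
    (hCC : ∀ ac ∈ CC, 0 < ac.1 ∧ 0 < ac.2 ∧ (ac.1 : ℝ) < 2 * p * ac.2 ∧
      IsCoprime ac.1 ac.2 ∧ 4 * (ac.2 : ℝ) ^ 2 * Real.exp (-ρ) ≤ 1 ∧
      ∃ (b d k : ℤ) (b' : κ → ℂ), ac.1 * d - b * ac.2 = 1 ∧ (∀ t, ‖b' t‖ ≤ B) ∧
        (∀ n < N', PowerSeries.coeff n (aser F1 F0 G b' P) = 0) ∧
        ∀ z : ℂ, 0 < z.im → afun X1 X0 g bs P (wz p (((ac.1 : ℂ) * z + b) / (ac.2 * z + d))) =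
          ((ac.2 : ℂ) * z + d) ^ (2 * L1) * afun X1 X0 g b' P (wz p (z + 2 * k))) :
    Real.log ‖PowerSeries.coeff M (aser F1 F0 G bs P)‖ - π * Real.exp (-ρ) / p * M ≤
      Ub (Fintype.card κ) L1 L Hh C0 D + L1 * (2 * ρ) -
        π / (4 * (p : ℝ) ^ 2) * N' * ∑ ac ∈ CC, 1 / (ac.2 : ℝ) ^ 2 := by
  set y := Real.exp (-ρ) with hy
  have hypos : 0 < y := Real.exp_pos _
  have hp0 : (0 : ℝ) < p := by exact_mod_cast hp
  set U := Ub (Fintype.card κ) L1 L Hh C0 D + L1 * (2 * ρ) with hU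
  obtain ⟨H, h, hFH, hser, hfact⟩ := (isSer_afun h1 h0 hg bs P).factor hM
  have hh0 : h 0 = PowerSeries.coeff M (aser F1 F0 G bs P) := by
    rw [hser.apply_zero, hFH, PowerSeries.coeff_X_pow_mul', if_pos le_rfl, Nat.sub_self,
      PowerSeries.coeff_zero_eq_constantCoeff_apply]
  have hwn : ∀ x : ℝ, ‖wpar p x y‖ = Real.exp (-(π * y / p)) := by
    intro x
    rw [← wz_wpar, norm_wz]
    congr 3
    simp
  have hwlt : ∀ x : ℝ, ‖wpar p x y‖ < 1 := by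
    intro x
    rw [hwn, Real.exp_lt_one_iff]
    have := Real.pi_pos
    have : 0 < π * y / p := by positivity
    linarith
  have hjen := jensen_horo_gain hp hypos hser.differentiableOn (by rw [hh0]; exact hM0) M CC
    (fun ac => (ac.1 : ℝ) / ac.2 - y) (fun ac => (ac.1 : ℝ) / ac.2 + y)
    (fun ac => π * N' / (4 * p * (ac.2 : ℝ) ^ 2 * y)) ?_ ?_ ?_ ?_ U ?_ ?_
  · rw [hh0] at hjen
    refine hjen.trans (le_of_eq ?_)
    congr 1
    rw [Finset.mul_sum, Finset.mul_sum]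
    refine Finset.sum_congr rfl fun ac hac => ?_
    obtain ⟨ha, hc, _⟩ := hCC ac hac
    have hc0 : (ac.2 : ℝ) ≠ 0 := by exact_mod_cast hc.ne'
    field_simp
    ring
  · -- left end
    intro ac hac
    obtain ⟨ha, hc, _, _, h4, _⟩ := hCC ac hac
    have hc0 : (0 : ℝ) < ac.2 := by exact_mod_cast hc
    have ha1 : (1 : ℝ) ≤ ac.1 := by exact_mod_cast ha
    have hc1 : (1 : ℝ) ≤ ac.2 := by exact_mod_cast hc
    simp only [sub_nonneg]
    rw [le_div_iff₀ hc0]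
    nlinarith
  · intro ac hac
    linarith
  · -- right end
    intro ac hac
    obtain ⟨ha, hc, hlt, _, h4, _⟩ := hCC ac hac
    have hc0 : (0 : ℝ) < ac.2 := by exact_mod_cast hc
    have hc1 : (1 : ℝ) ≤ ac.2 := by exact_mod_cast hc
    have hlt' : ac.1 + 1 ≤ 2 * (p : ℤ) * ac.2 := by
      have : ac.1 < 2 * (p : ℤ) * ac.2 := by exact_mod_cast hlt
      omega
    have hlt2 : (ac.1 : ℝ) + 1 ≤ 2 * p * ac.2 := by exact_mod_cast hlt'
    have h5 : (ac.1 : ℝ) / ac.2 ≤ 2 * p - 1 / ac.2 := by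
      rw [div_le_iff₀ hc0, sub_mul, one_div, inv_mul_cancel₀ hc0.ne']
      linarith
    have h6 : y ≤ 1 / ac.2 := by
      rw [le_div_iff₀ hc0]
      nlinarith
    linarith
  · -- disjointness
    intro ac hac ac' hac' hne
    obtain ⟨ha, hc, _, hcop, h4, _⟩ := hCC ac hac
    obtain ⟨ha', hc', _, hcop', h4', _⟩ := hCC ac' hac'
    have hq : (ac.1 : ℝ) / ac.2 ≠ ac'.1 / ac'.2 := by
      intro heq
      obtain ⟨e1, e2⟩ := pair_eq hc hc' hcop hcop' heq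
      exact hne (Prod.ext e1 e2)
    have hsep := cusp_sep hc hc' hypos h4 h4' hq
    rw [Set.disjoint_left]
    intro x hx hx'
    simp only [Set.mem_Ioc] at hx hx'
    have h5 : |(ac.1 : ℝ) / ac.2 - ac'.1 / ac'.2| ≤ 2 * y := by
      rw [abs_le]
      constructor <;> linarith [hx.1, hx.2, hx'.1, hx'.2]
    linarith
  · -- the trivial bound
    intro x _ _
    rw [← hfact _ (hwlt x)]
    have h2 := norm_afun_le (w := wpar p x y) (b := bs) hP
      (by have := Real.exp_pos (2 * ρ); positivity : (0:ℝ) ≤ C0 * Real.exp (2 * ρ)) hD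
      (hy1 _ (hwn x)) (hy0 _ (hwn x))
      (fun t => (add_le_add le_rfl (hbs t)).trans (hyg t _ (hwn x)))
    exact h2.trans (bound_le_exp hC0 hD)
  · -- near the cusps
    intro ac hac x hx
    obtain ⟨ha, hc, _, _, h4, b, d, k, b', hdet, hb', hord, hlaw⟩ := hCC ac hac
    rw [← hfact _ (hwlt x)]
    apply near_cusp hp h1 h0 hg hP hC0 hD hr1 hr0 hrg bs b' hb' hord k hc hdet h4 hlaw
    rw [abs_le]
    simp only [Set.mem_Ioc] at hx
    constructor <;> linarith [hx.1, hx.2]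

end GP
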