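import Pool.Agent.GP.Key
import Pool.Agent.GP.ExtCore

/-! Module EXT: the extrapolation (section 4). -/

set_option autoImplicit false

namespace Pool.Agent.GP

open Complex Metric MatrixGroups UpperHalfPlane

/-- maximum modulus for a function with a zero of order N at the origin -/
theorem norm_le_of_ord {f g : ℂ → ℂ} {N : ℕ} (hg : DifferentiableOn ℂ g (ball 0 1))
    (hfg : ∀ w ∈ ball (0 : ℂ) 1, f w = w ^ N * g w) {r S : ℝ} (hr0 : 0 < r) (hr1 : r < 1)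
    (hS : ∀ v : ℂ, ‖v‖ = r → ‖f v‖ ≤ S) {w : ℂ} (hw : ‖w‖ ≤ r) :
    ‖f w‖ ≤ (‖w‖ / r) ^ N * S := by
  have hgS : ‖g w‖ ≤ S / r ^ N := by
    apply Complex.norm_le_of_forall_mem_frontier_norm_le (U := ball (0:ℂ) r) isBounded_ball
    · apply DifferentiableOn.diffContOnCl
      rw [closure_ball _ hr0.ne']
      exact hg.mono (closedBall_subset_ball hr1)
    · intro v hv
      rw [frontier_ball _ hr0.ne'] at hv
      have hv' : ‖v‖ = r := by simpa using hv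
      have h1 := hS v hv'
      rw [hfg v (by rw [mem_ball_zero_iff, hv']; exact hr1), norm_mul, norm_pow, hv'] at h1
      rw [le_div_iff₀ (by positivity), mul_comm]
      exact h1
    · rw [closure_ball _ hr0.ne']
      simpa using hw
  rw [hfg w (mem_ball_zero_iff.mpr (lt_of_le_of_lt hw hr1)), norm_mul, norm_pow, div_pow]
  calc ‖w‖ ^ N * ‖g w‖ ≤ ‖w‖ ^ N * (S / r ^ N) := by gcongr
    _ = ‖w‖ ^ N / r ^ N * S := by ring

/-- the estimate near the cusp a/c -/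
theorem near_cusp {p : ℕ} (hp : 0 < p) {fs fb g' : ℂ → ℂ} {N' L1 : ℕ} {V ρ : ℝ}
    (hg' : DifferentiableOn ℂ g' (ball 0 1))
    (hfb : ∀ w ∈ ball (0 : ℂ) 1, fb w = w ^ N' * g' w)
    (hV : ∀ v : ℂ, ‖v‖ = Real.exp (-(Real.pi / p)) → ‖fb v‖ ≤ Real.exp V)
    (γ : SL(2, ℤ)) (hc : 0 < γ 1 0) (hcy : 4 * ((γ 1 0 : ℤ) : ℝ) ^ 2 * Real.exp (-ρ) ≤ 1)
    (kk : ℤ)
    (hlaw : ∀ z : ℍ, fs (wn p ((γ • z : ℍ) : ℂ)) =
      (((γ 1 0 : ℤ) : ℂ) * (z : ℂ) + ((γ 1 1 : ℤ) : ℂ)) ^ (2 * L1) * fb (wn p ((z : ℂ) + 2 * kk)))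
    {x : ℝ} (hx : |x - ((γ 0 0 : ℤ) : ℝ) / ((γ 1 0 : ℤ) : ℝ)| ≤ Real.exp (-ρ)) :
    ‖fs (wn p ((x : ℂ) + Complex.I * (Real.exp (-ρ) : ℝ)))‖ ≤
      Real.exp (V + L1 * (2 * ρ) -
        Real.pi * N' / (4 * p * ((γ 1 0 : ℤ) : ℝ) ^ 2 * Real.exp (-ρ))) := by
  set y := Real.exp (-ρ) with hy
  have hy0 : 0 < y := Real.exp_pos _
  set c : ℝ := ((γ 1 0 : ℤ) : ℝ) with hcdef
  have hc0 : 0 < c := by rw [hcdef]; exact_mod_cast hc
  have hc1 : 1 ≤ c := by rw [hcdef]; exact_mod_cast hc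
  have hp0 : (0 : ℝ) < p := by exact_mod_cast hp
  have hpi := Real.pi_pos
  -- the point
  set z0 : ℍ := ⟨(x : ℂ) + Complex.I * y, by simpa using hy0⟩ with hz0
  set z' : ℍ := γ⁻¹ • z0 with hz'
  have hγz : ((γ • z' : ℍ) : ℂ) = (x : ℂ) + Complex.I * y := by
    rw [hz', smul_inv_smul]
  obtain ⟨hlo, hhi, hcd⟩ := cusp_in γ z' hy0 hc hγz hx
  have h2le : 2 ≤ 1 / (2 * c ^ 2 * y) := by
    rw [le_div_iff₀ (by positivity)]
    linarith
  have hY2 : 2 ≤ z'.im := h2le.trans hlo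
  have hval := hlaw z'
  rw [hγz] at hval
  have hw' : ‖wn p ((z' : ℂ) + 2 * kk)‖ = Real.exp (-(Real.pi * z'.im / p)) := by
    rw [norm_wn hp]
    congr 3
    have : ((2 : ℂ) * (kk : ℂ)).im = 0 := by simp
    rw [Complex.add_im, this, add_zero]
    rfl
  have hr_lt : Real.exp (-(Real.pi / p)) < 1 := by
    rw [Real.exp_lt_one_iff]
    have : 0 < Real.pi / p := by positivity
    linarith
  have hw'le : ‖wn p ((z' : ℂ) + 2 * kk)‖ ≤ Real.exp (-(Real.pi / p)) := by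
    rw [hw']
    apply Real.exp_le_exp.mpr
    have h3 : Real.pi / p ≤ Real.pi * z'.im / p := by
      gcongr
      nlinarith
    linarith
  have hmax := norm_le_of_ord hg' hfb (Real.exp_pos _) hr_lt hV hw'le
  rw [hw', ← Real.exp_sub, ← Real.exp_nat_mul, ← Real.exp_add] at hmax
  have hcdn : ‖(((γ 1 0 : ℤ) : ℂ) * (z' : ℂ) + ((γ 1 1 : ℤ) : ℂ)) ^ (2 * L1)‖ ≤
      Real.exp (L1 * (2 * ρ)) := by
    rw [norm_pow, pow_mul, hcd]
    have h2 : z'.im / y ≤ Real.exp (2 * ρ) := by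
      have h4 : Real.exp (2 * ρ) = 1 / y ^ 2 := by
        rw [hy, ← Real.exp_nat_mul, one_div, ← Real.exp_neg]
        congr 1
        push_cast; ring
      rw [h4]
      have h5 : z'.im ≤ 1 / y := by
        refine hhi.trans ?_
        apply one_div_le_one_div_of_le hy0
        have : 1 ≤ c ^ 2 := one_le_pow₀ hc1
        nlinarith
      calc z'.im / y ≤ (1 / y) / y := by gcongr
        _ = 1 / y ^ 2 := by field_simp
    calc (z'.im / y) ^ L1 ≤ (Real.exp (2 * ρ)) ^ L1 := by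
          have : 0 ≤ z'.im / y := div_nonneg (by linarith) hy0.le
          gcongr
      _ = Real.exp (L1 * (2 * ρ)) := by rw [← Real.exp_nat_mul]
  rw [hval, norm_mul]
  calc ‖(((γ 1 0 : ℤ) : ℂ) * (z' : ℂ) + ((γ 1 1 : ℤ) : ℂ)) ^ (2 * L1)‖ *
        ‖fb (wn p ((z' : ℂ) + 2 * kk))‖
      ≤ Real.exp (L1 * (2 * ρ)) * Real.exp (N' * (-(Real.pi * z'.im / p) - -(Real.pi / p)) + V) := by
        gcongr
    _ = Real.exp (L1 * (2 * ρ) + (N' * (-(Real.pi * z'.im / p) - -(Real.pi / p)) + V)) := by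
        rw [← Real.exp_add]
    _ ≤ _ := by
        apply Real.exp_le_exp.mpr
        have h5 : Real.pi * N' / (4 * p * c ^ 2 * y) ≤
            N' * (Real.pi * z'.im / p - Real.pi / p) := by
          have h6 : 1 / (4 * c ^ 2 * y) ≤ z'.im - 1 := by
            have h7 : 1 / (4 * c ^ 2 * y) = (1 / (2 * c ^ 2 * y)) / 2 := by
              field_simp; ring
            rw [h7]
            linarith
          have h8 : Real.pi * N' / (4 * p * c ^ 2 * y) =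
              (N' * (Real.pi / p)) * (1 / (4 * c ^ 2 * y)) := by
            field_simp
          have h9 : N' * (Real.pi * z'.im / p - Real.pi / p) =
              (N' * (Real.pi / p)) * (z'.im - 1) := by
            field_simp
          rw [h8, h9]
          gcongr
        linarith

theorem wn_wpar (p : ℕ) (x y : ℝ) : wn p ((x : ℂ) + Complex.I * (y : ℝ)) = GP.wpar p x y := by
  unfold wn GP.wpar
  congr 2
  ring

/-- the abstract extrapolation inequality -/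
theorem ext_abs {p : ℕ} (hp : 0 < p) {fs g : ℂ → ℂ} {M N' L1 : ℕ} {V ρ : ℝ}
    (hg : DifferentiableOn ℂ g (ball 0 1))
    (hfs : ∀ w ∈ ball (0 : ℂ) 1, fs w = w ^ M * g w) (hg0 : g 0 ≠ 0)
    (hU : ∀ v : ℂ, ‖v‖ = Real.exp (-(Real.pi * Real.exp (-ρ) / p)) →
      ‖fs v‖ ≤ Real.exp (V + L1 * (2 * ρ)))
    (CC : Finset (ℤ × ℤ))
    (hCC : ∀ ac ∈ CC, 0 < ac.1 ∧ 0 < ac.2 ∧ (ac.1 : ℝ) < 2 * p * ac.2 ∧
      IsCoprime ac.1 ac.2 ∧ 4 * (ac.2 : ℝ) ^ 2 * Real.exp (-ρ) ≤ 1 ∧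
      ∀ x : ℝ, |x - (ac.1 : ℝ) / ac.2| ≤ Real.exp (-ρ) →
        ‖fs (wn p ((x : ℂ) + Complex.I * (Real.exp (-ρ) : ℝ)))‖ ≤ Real.exp (V + L1 * (2 * ρ) -
          Real.pi * N' / (4 * p * (ac.2 : ℝ) ^ 2 * Real.exp (-ρ)))) :
    Real.log ‖g 0‖ - Real.pi * Real.exp (-ρ) / p * M ≤
      V + L1 * (2 * ρ) - Real.pi / (4 * (p : ℝ) ^ 2) * N' * ∑ ac ∈ CC, 1 / (ac.2 : ℝ) ^ 2 := by
  set y := Real.exp (-ρ) with hy
  have hypos : 0 < y := Real.exp_pos _
  have hp0 : (0 : ℝ) < p := by exact_mod_cast hp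
  have hpi := Real.pi_pos
  have hwn : ∀ x : ℝ, ‖GP.wpar p x y‖ = Real.exp (-(Real.pi * y / p)) := by
    intro x
    rw [← wn_wpar, norm_wn hp]
    congr 3
    simp
  have hwlt : ∀ x : ℝ, ‖GP.wpar p x y‖ < 1 := by
    intro x
    rw [hwn, Real.exp_lt_one_iff]
    have : 0 < Real.pi * y / p := by positivity
    linarith
  have hwball : ∀ x : ℝ, GP.wpar p x y ∈ ball (0 : ℂ) 1 := fun x =>
    mem_ball_zero_iff.mpr (hwlt x)
  have hjen := GP.jensen_horo_gain hp hypos hg hg0 M CC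
    (fun ac => (ac.1 : ℝ) / ac.2 - y) (fun ac => (ac.1 : ℝ) / ac.2 + y)
    (fun ac => Real.pi * N' / (4 * p * (ac.2 : ℝ) ^ 2 * y)) ?_ ?_ ?_ ?_ (V + L1 * (2 * ρ)) ?_ ?_
  · refine hjen.trans (le_of_eq ?_)
    congr 1
    rw [Finset.mul_sum, Finset.mul_sum]
    refine Finset.sum_congr rfl fun ac hac => ?_
    obtain ⟨ha, hc, _⟩ := hCC ac hac
    have hc0 : (ac.2 : ℝ) ≠ 0 := by exact_mod_cast hc.ne'
    field_simp
    ring
  · -- left end
    intro ac hac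
    obtain ⟨ha, hc, _, _, h4, _⟩ := hCC ac hac
    have hc0 : (0 : ℝ) < ac.2 := by exact_mod_cast hc
    have ha1 : (1 : ℝ) ≤ ac.1 := by exact_mod_cast ha
    have hc1 : (1 : ℝ) ≤ ac.2 := by exact_mod_cast hc
    simp only [sub_nonneg]
    rw [le_div_iff₀ hc0]
    nlinarith
  · intro ac hac
    linarith
  · -- right end
    intro ac hac
    obtain ⟨ha, hc, hlt, _, h4, _⟩ := hCC ac hac
    have hc0 : (0 : ℝ) < ac.2 := by exact_mod_cast hc
    have hc1 : (1 : ℝ) ≤ ac.2 := by exact_mod_cast hc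
    have hlt' : ac.1 + 1 ≤ 2 * (p : ℤ) * ac.2 := by
      have : ac.1 < 2 * (p : ℤ) * ac.2 := by exact_mod_cast hlt
      omega
    have hlt2 : (ac.1 : ℝ) + 1 ≤ 2 * p * ac.2 := by exact_mod_cast hlt'
    have h5 : (ac.1 : ℝ) / ac.2 ≤ 2 * p - 1 / ac.2 := by
      rw [div_le_iff₀ hc0, sub_mul, one_div, inv_mul_cancel₀ hc0.ne']
      linarith
    have h6 : y ≤ 1 / ac.2 := by
      rw [le_div_iff₀ hc0]
      nlinarith
    linarith
  · -- disjointness
    intro ac hac ac' hac' hne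
    obtain ⟨ha, hc, _, hcop, h4, _⟩ := hCC ac hac
    obtain ⟨ha', hc', _, hcop', h4', _⟩ := hCC ac' hac'
    have hq : (ac.1 : ℝ) / ac.2 ≠ ac'.1 / ac'.2 := by
      intro heq
      obtain ⟨e1, e2⟩ := GP.pair_eq hc hc' hcop hcop' heq
      exact hne (Prod.ext e1 e2)
    have hsep := GP.cusp_sep hc hc' hypos h4 h4' hq
    rw [Set.disjoint_left]
    intro x hx hx'
    simp only [Set.mem_Ioc] at hx hx'
    have h5 : |(ac.1 : ℝ) / ac.2 - ac'.1 / ac'.2| ≤ 2 * y := by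
      rw [abs_le]
      constructor <;> linarith [hx.1, hx.2, hx'.1, hx'.2]
    linarith
  · -- the trivial bound
    intro x _ _
    rw [← hfs _ (hwball x)]
    exact hU _ (hwn x)
  · -- near the cusps
    intro ac hac x hx
    obtain ⟨ha, hc, _, _, h4, hn⟩ := hCC ac hac
    rw [← hfs _ (hwball x), ← wn_wpar]
    apply hn
    rw [abs_le]
    simp only [Set.mem_Ioc] at hx
    constructor <;> linarith [hx.1, hx.2]

/-- fw in terms of the general auxiliary function -/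
theorem fw_eq_afun (p j k : ℕ) (T : Finset ℕ) (L L1 : ℕ) (P : Fin (L1 + 1) → (T → Fin L) → ℂ)
    (u : Fin p.totient → ℤ) (w : ℂ) : fw p j k T L L1 P u w =
      GP.afun (fun w => 16 * w ^ p * cexp (lW2 (w ^ p))) (fun w => cexp (lW4 (-w ^ p)))
        (fun (t : T) w => Fw p (at' p j t) (at' p k t) w)
        (fun t : T => bet p (at' p j t) (at' p k t) * sg p t u) P w := rfl

theorem X1_wn {p : ℕ} (hp : 0 < p) (τ : ℂ) :
    16 * wn p τ ^ p * cexp (lW2 (wn p τ ^ p)) = th2 τ := by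
  rw [wn_pow hp]; rfl

theorem X0_wn {p : ℕ} (hp : 0 < p) (τ : ℂ) : cexp (lW4 (-wn p τ ^ p)) = th3 τ := by
  rw [wn_pow hp]; rfl

/-- fw at a point of the upper half plane -/
theorem fw_wn {p : ℕ} (hp : 0 < p) (j k : ℕ) (T : Finset ℕ) (L L1 : ℕ)
    (P : Fin (L1 + 1) → (T → Fin L) → ℂ) (u : Fin p.totient → ℤ) (τ : ℂ) :
    fw p j k T L L1 P u (wn p τ) = ∑ i : Fin (L1 + 1), ∑ m : T → Fin L,
      P i m * th2 τ ^ (i : ℕ) * th3 τ ^ (L1 - (i : ℕ)) *
        ∏ t : T, (F p (at' p j t) (at' p k t) τ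
          + bet p (at' p j t) (at' p k t) * sg p t u) ^ ((m t : Fin L) : ℕ) := by
  unfold fw
  rw [X1_wn hp, X0_wn hp]
  rfl

theorem nm_add_two (τ : ℂ) (m : ℤ) : nm (τ + 2 * m) = nm τ := by
  unfold nm
  have h : (Real.pi : ℂ) * Complex.I * (τ + 2 * m) = Real.pi * Complex.I * τ + m * (2 * Real.pi * Complex.I) := by ring
  rw [h, Complex.exp_add, Complex.exp_int_mul_two_pi_mul_I, mul_one]

theorem th2_add_two (τ : ℂ) (m : ℤ) : th2 (τ + 2 * m) = th2 τ := by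
  unfold th2; rw [nm_add_two]

theorem th3_add_two (τ : ℂ) (m : ℤ) : th3 (τ + 2 * m) = th3 τ := by
  unfold th3; rw [nm_add_two]

/-- every point of the punctured disc is a value of the local parameter -/
theorem exists_wn {p : ℕ} (hp : 0 < p) {v : ℂ} {h : ℝ}
    (hv : ‖v‖ = Real.exp (-(Real.pi * h / p))) : ∃ τ : ℂ, τ.im = h ∧ wn p τ = v := by
  have hp0 : (p : ℂ) ≠ 0 := by exact_mod_cast hp.ne'
  have hpR : (p : ℝ) ≠ 0 := by exact_mod_cast hp.ne'
  have hv0 : v ≠ 0 := by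
    intro h0
    rw [h0, norm_zero] at hv
    exact (Real.exp_pos _).ne hv
  have hpi : (Real.pi : ℂ) ≠ 0 := by exact_mod_cast Real.pi_ne_zero
  refine ⟨Complex.log v * p / (Real.pi * Complex.I), ?_, ?_⟩
  · have h1 : Complex.log v * p / (Real.pi * Complex.I) = ((p / Real.pi : ℝ) : ℂ) * (-Complex.I * Complex.log v) := by
      push_cast
      field_simp
      rw [Complex.I_sq]
      ring
    rw [h1, Complex.im_ofReal_mul]
    have h2 : (-Complex.I * Complex.log v).im = -(Complex.log v).re := by simp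
    rw [h2, Complex.log_re, hv, Real.log_exp]
    field_simp
  · unfold wn
    have h1 : (Real.pi : ℂ) * Complex.I * (Complex.log v * p / (Real.pi * Complex.I)) / p = Complex.log v := by
      field_simp
    rw [h1, Complex.exp_log hv0]

/-- the transformation law (1.4) -/
theorem fw_law {p j k : ℕ} (hD : Dat p j k) {T : Finset ℕ} (hT : T ⊆ Un p) (L L1 : ℕ)
    (P : Fin (L1 + 1) → (T → Fin L) → ℂ) (us u : Fin p.totient → ℤ) {γ : SL(2, ℤ)}
    (hγ : γ ∈ Gam) {κ : ℕ} (hC : Coc p j k γ κ u) : ∃ kk : ℤ, ∀ z : ℍ,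
      fw p j k T L L1 P us (wn p ((γ • z : ℍ) : ℂ)) =
      (((γ 1 0 : ℤ) : ℂ) * (z : ℂ) + ((γ 1 1 : ℤ) : ℂ)) ^ (2 * L1) *
        fw p j k T L L1 P (us + u) (wn p ((z : ℂ) + 2 * kk)) := by
  have hp3 := hD.p3
  have hp : 0 < p := by omega
  -- an inverse of j modulo p
  obtain ⟨kk, hkk⟩ : ∃ kk : ℕ, (j * kk) % p = κ % p := by
    have hj := hD.j0
    obtain ⟨m, hm⟩ := Nat.exists_mul_mod_eq_one_of_coprime hj (by omega : 1 < p)
    refine ⟨m * κ, ?_⟩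
    rw [← mul_assoc, Nat.mul_mod, hm.2, one_mul, Nat.mod_mod]
  refine ⟨(kk : ℤ), fun z => ?_⟩
  have hz : 0 < (z : ℂ).im := z.im_pos
  rw [fw_wn hp, fw_wn hp, Finset.mul_sum]
  obtain ⟨h2, h3, _⟩ := th_Gam hγ z
  refine Finset.sum_congr rfl fun i _ => ?_
  rw [Finset.mul_sum]
  refine Finset.sum_congr rfl fun m _ => ?_
  rw [h2, h3, th2_add_two, th3_add_two]
  have hprod : ∀ t : T, F p (at' p j t) (at' p k t) ((γ • z : ℍ) : ℂ)
      + bet p (at' p j t) (at' p k t) * sg p t us =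
      F p (at' p j t) (at' p k t) ((z : ℂ) + 2 * (kk : ℤ))
      + bet p (at' p j t) (at' p k t) * sg p t (us + u) := by
    intro t
    have hA := hD.adm (hT t.2)
    rw [hC z t (hT t.2), F_add_two_mul hA hz, sg_add]
    have hz2 : zet p ^ ((t : ℕ) * κ) = (zet p ^ at' p j t) ^ (kk : ℤ) := by
      have hprim : zet p ^ p = 1 := by
        unfold zet
        rw [← Complex.exp_nat_mul]
        have : (p : ℂ) ≠ 0 := by exact_mod_cast hp.ne'
        rw [show (p : ℂ) * (2 * Real.pi * Complex.I / p) = 2 * Real.pi * Complex.I by field_simp]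
        exact Complex.exp_two_pi_mul_I
      have hmod : ∀ n : ℕ, zet p ^ n = zet p ^ (n % p) := fun n => by
        conv_lhs => rw [← Nat.mod_add_div n p, pow_add, pow_mul, hprim, one_pow, mul_one]
      rw [zpow_natCast, ← pow_mul, hmod, hmod (at' p j t * kk)]
      congr 1
      unfold at'
      rw [Nat.mul_mod (t : ℕ) κ, ← hkk, ← Nat.mul_mod, ← mul_assoc, Nat.mul_mod ((t : ℕ) * j % p),
        Nat.mod_mod, ← Nat.mul_mod]
    rw [hz2]
    ring
  rw [Finset.prod_congr rfl (fun t _ => by rw [hprod t])]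
  have hi : (i : ℕ) + (L1 - (i : ℕ)) = L1 := by have := i.isLt; omega
  have hpow : (((γ 1 0 : ℤ) : ℂ) * (z : ℂ) + ((γ 1 1 : ℤ) : ℂ)) ^ (2 * L1) =
      ((((γ 1 0 : ℤ) : ℂ) * (z : ℂ) + ((γ 1 1 : ℤ) : ℂ)) ^ 2) ^ (i : ℕ) *
      ((((γ 1 0 : ℤ) : ℂ) * (z : ℂ) + ((γ 1 1 : ℤ) : ℂ)) ^ 2) ^ (L1 - (i : ℕ)) := by
    rw [← pow_add, hi, ← pow_mul]
  rw [hpow, mul_pow, mul_pow]
  ring

theorem norm_sg_le (p : ℕ) {t : ℕ} (ht : t ∈ Un p) (u : Fin p.totient → ℤ) {B : ℝ}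
    (hB : nrm p u ≤ B) : ‖sg p t u‖ ≤ Real.sqrt B := by
  apply Real.le_sqrt_of_sq_le
  refine le_trans ?_ hB
  exact Finset.single_le_sum (f := fun t => ‖sg p t u‖ ^ 2) (fun t _ => by positivity) ht

theorem ext_ineq {p j k : ℕ} (hD : Dat p j k) : ∃ A c C ρ0 : ℝ, 0 < A ∧ 0 < c ∧ 0 < C ∧
    1 ≤ ρ0 ∧ ∀ T : Finset ℕ, T ⊆ Un p → ∀ ρ : ℝ, ρ0 ≤ ρ → ∀ (L : ℕ) (B : ℝ), ∃ C1 : ℝ,
    ∀ (N' M L1 : ℕ) (H : ℝ) (P : Fin (L1 + 1) → (T → Fin L) → ℂ) (us : Fin p.totient → ℤ),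
      (∀ i m, ‖P i m‖ ≤ Real.exp H) → A * ρ ≤ nrm p us → nrm p us ≤ B →
      (∀ u : Fin p.totient → ℤ, nrm p u < nrm p us → ∃ g : ℂ → ℂ,
        DifferentiableOn ℂ g (ball 0 1) ∧
        ∀ w ∈ ball (0 : ℂ) 1, fw p j k T L L1 P u w = w ^ N' * g w) →
      ∀ g : ℂ → ℂ, DifferentiableOn ℂ g (ball 0 1) →
      (∀ w ∈ ball (0 : ℂ) 1, fw p j k T L L1 P us w = w ^ M * g w) → g 0 ≠ 0 →
      Real.log ‖g 0‖ ≤ H + C * ρ * (L1 + 1) + C1 - c * ρ * N'
        + Real.pi * Real.exp (-ρ) * M := by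
  have hp3 := hD.p3
  have hp : 0 < p := by omega
  have hp0 : (0 : ℝ) < p := by exact_mod_cast hp
  have hp1 : (1 : ℝ) ≤ p := by exact_mod_cast hp
  have hpi := Real.pi_pos
  obtain ⟨A, c, ρ0, hA, hc, hρ0, hkey⟩ := key hD
  obtain ⟨C0, hC0, hth⟩ := th_norm_le
  have hlogC0 : 0 ≤ Real.log C0 := Real.log_nonneg hC0
  refine ⟨A, Real.pi / (4 * (p : ℝ) ^ 2) * c, 3 + Real.log C0, ρ0, hA, by positivity,
    by positivity, hρ0, ?_⟩
  intro T hT ρ hρ L B
  have hρ1 : 1 ≤ ρ := hρ0.trans hρ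
  set y := Real.exp (-ρ) with hy
  have hy0 : 0 < y := Real.exp_pos _
  have hy1 : y ≤ 1 := by rw [hy, Real.exp_le_one_iff]; linarith
  -- a common bound for the integrals
  have hFb : ∀ t : T, ∃ D : ℝ, 0 < D ∧ ∀ τ : ℂ, y ≤ τ.im →
      ‖F p (at' p j t) (at' p k t) τ‖ ≤ D := by
    intro t
    obtain ⟨D, hD0, hF⟩ := F_decay (hD.adm (hT t.2)) hy0
    refine ⟨D, hD0, fun τ hτ => (hF τ hτ).trans ?_⟩
    have : Real.exp (-(Real.pi * τ.im / p)) ≤ 1 := by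
      rw [Real.exp_le_one_iff]
      have : 0 ≤ Real.pi * τ.im / p := by
        have : 0 ≤ τ.im := hy0.le.trans hτ
        positivity
      linarith
    nlinarith
  choose Df hDf0 hDf using hFb
  set D : ℝ := 1 + ∑ t : T, (Df t + ‖bet p (at' p j t) (at' p k t)‖ * Real.sqrt B) with hDdef
  have hDnn : ∀ t : T, 0 ≤ Df t + ‖bet p (at' p j t) (at' p k t)‖ * Real.sqrt B := fun t => by
    have := (hDf0 t).le
    positivity
  have hD1 : 1 ≤ D := by
    rw [hDdef]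
    have := Finset.sum_nonneg (s := Finset.univ) (fun t _ => hDnn t)
    linarith
  have hDt : ∀ t : T, Df t + ‖bet p (at' p j t) (at' p k t)‖ * Real.sqrt B ≤ D := by
    intro t
    rw [hDdef]
    have := Finset.single_le_sum (f := fun t : T => Df t +
      ‖bet p (at' p j t) (at' p k t)‖ * Real.sqrt B) (fun t _ => hDnn t) (Finset.mem_univ t)
    linarith
  refine ⟨(Fintype.card T : ℕ) * Real.log L + (Fintype.card T * L : ℕ) * Real.log D, ?_⟩
  intro N' M L1 H P us hP hus husB hsmall g hg hfg hg0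
  obtain ⟨CC, hCC, hsum⟩ := hkey ρ hρ us hus
  -- the trivial bound on the circle of height h, y <= h <= 1
  have htriv : ∀ (u : Fin p.totient → ℤ), nrm p u ≤ B → ∀ h : ℝ, y ≤ h → h ≤ 1 → ∀ s : ℝ,
      h⁻¹ ^ 2 ≤ Real.exp s → ∀ v : ℂ, ‖v‖ = Real.exp (-(Real.pi * h / p)) →
      ‖fw p j k T L L1 P u v‖ ≤ Real.exp (GP.Ub (Fintype.card T) L1 L H C0 D + L1 * s) := by
    intro u hu h hh1 hh2 s hs v hv
    obtain ⟨τ, hτ, rfl⟩ := exists_wn hp hv
    have hh0 : 0 < h := hy0.trans_le hh1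
    have hτ0 : 0 < τ.im := by rw [hτ]; exact hh0
    obtain ⟨b2, b3, _⟩ := hth τ hτ0 (by rw [hτ]; exact hh2)
    have hle : C0 / τ.im ^ 2 ≤ C0 * Real.exp s := by
      rw [hτ, div_eq_mul_inv, ← inv_pow]
      gcongr
    rw [fw_eq_afun]
    refine le_trans ?_ (GP.bound_le_exp (n := Fintype.card T) (L1 := L1) (L := L) (Hh := H)
      (s := s) hC0 hD1)
    apply GP.norm_afun_le hP (by positivity) hD1
    · rw [X1_wn hp]; exact b2.trans hle
    · rw [X0_wn hp]; exact b3.trans hle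
    · intro t
      have h1 : ‖Fw p (at' p j t) (at' p k t) (wn p τ)‖ ≤ Df t :=
        hDf t τ (by rw [hτ]; exact hh1)
      have h2 : ‖bet p (at' p j t) (at' p k t) * sg p t u‖ ≤
          ‖bet p (at' p j t) (at' p k t)‖ * Real.sqrt B := by
        rw [norm_mul]
        gcongr
        exact norm_sg_le p (hT t.2) u hu
      exact (add_le_add h1 h2).trans (hDt t)
  have hmain := ext_abs (M := M) (N' := N') (L1 := L1)
    (V := GP.Ub (Fintype.card T) L1 L H C0 D) (ρ := ρ) hp hg hfg hg0 ?_ CC ?_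
  · -- the final computation
    have h1 : Real.pi * Real.exp (-ρ) / p * M ≤ Real.pi * Real.exp (-ρ) * M := by
      have : Real.pi * Real.exp (-ρ) / p ≤ Real.pi * Real.exp (-ρ) := by
        apply div_le_self _ hp1
        positivity
      gcongr
    have h2 : Real.log ((L1 : ℝ) + 1) ≤ L1 := by
      have := Real.log_le_sub_one_of_pos (by positivity : (0 : ℝ) < (L1 : ℝ) + 1)
      linarith
    have h3 : Real.pi / (4 * (p : ℝ) ^ 2) * c * ρ * N' ≤
        Real.pi / (4 * (p : ℝ) ^ 2) * N' * ∑ ac ∈ CC, 1 / (ac.2 : ℝ) ^ 2 := by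
      have : Real.pi / (4 * (p : ℝ) ^ 2) * N' * (c * ρ) ≤
          Real.pi / (4 * (p : ℝ) ^ 2) * N' * ∑ ac ∈ CC, 1 / (ac.2 : ℝ) ^ 2 := by
        gcongr
      linarith
    have h4 : (L1 : ℝ) * Real.log C0 ≤ Real.log C0 * ρ * (L1 + 1) := by
      have hL : (0 : ℝ) ≤ L1 := by positivity
      have : (L1 : ℝ) * Real.log C0 * 1 ≤ (L1 * Real.log C0) * ρ := by
        gcongr
      have h5 : 0 ≤ Real.log C0 * ρ := by positivity
      nlinarith
    have h6 : (L1 : ℝ) + L1 * (2 * ρ) ≤ 3 * ρ * (L1 + 1) := by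
      have hL : (0 : ℝ) ≤ L1 := by positivity
      nlinarith
    unfold GP.Ub at hmain
    nlinarith
  · -- the trivial bound
    intro v hv
    apply htriv us husB y le_rfl hy1 (2 * ρ) _ v hv
    rw [hy, ← Real.exp_neg, ← Real.exp_nat_mul]
    apply le_of_eq
    congr 1
    push_cast; ring
  · intro ac hac
    obtain ⟨hcop, hc2, ha, hlt, hcy, γ, hγ, hγa, hγc, κ, u, hcoc, hnrm⟩ := hCC ac hac
    have hc0 : 0 < ac.2 := by omega
    refine ⟨ha, hc0, by exact_mod_cast hlt, hcop, hcy, ?_⟩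
    intro x hx
    obtain ⟨kk, hlaw⟩ := fw_law hD hT L L1 P us u hγ hcoc
    obtain ⟨g', hg', hfg'⟩ := hsmall (us + u) hnrm
    have hn := near_cusp (fs := fw p j k T L L1 P us) (fb := fw p j k T L L1 P (us + u))
      (V := GP.Ub (Fintype.card T) L1 L H C0 D) (ρ := ρ) hp hg' hfg' ?_ γ
      (by rw [hγc]; exact hc0) (by rw [hγc]; exact hcy) kk hlaw (x := x)
      (by rw [hγa, hγc]; exact hx)
    · rw [hγc] at hn
      exact hn
    · intro v hv
      have h1 := htriv (us + u) (hnrm.le.trans husB) 1 hy1 le_rfl 0 (by simp) v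
        (by rw [hv, mul_one])
      rw [mul_zero, add_zero] at h1
      exact h1

end Pool.Agent.GP
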