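import Mathlib

/-!
# Gelfond's criterion in fixed degree

If integer polynomials of bounded degree and heights `≤ exp (σ N)` take values `≤ exp (-Γ N)` at
`θ` for all large `N`, with `Γ > 3 d σ`, then `θ` is algebraic.
-/

namespace GP

open Polynomial Finset

section Resultant

/-- a determinant with small entries in one row -/
theorem norm_det_le {n : ℕ} (N : Matrix (Fin n) (Fin n) ℂ) (r : Fin n → ℝ) (i0 : Fin n) (t : ℝ)
    (h1 : ∀ i j, i ≠ i0 → ‖N i j‖ ≤ r j) (h0 : ∀ j, ‖N i0 j‖ ≤ t * r j) :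
    ‖N.det‖ ≤ n.factorial * (t * ∏ j, r j) := by
  have key : ∀ s : Equiv.Perm (Fin n), ‖Equiv.Perm.sign s • ∏ j, N (s j) j‖ ≤ t * ∏ j, r j := by
    intro s
    have e1 : ‖Equiv.Perm.sign s • ∏ j, N (s j) j‖ = ∏ j, ‖N (s j) j‖ := by
      rcases Int.units_eq_one_or (Equiv.Perm.sign s) with h | h <;> simp [h, norm_prod]
    have e2 : ∏ j, ‖N (s j) j‖ ≤ ∏ j, ((if s j = i0 then t else 1) * r j) := by
      refine Finset.prod_le_prod (fun _ _ => norm_nonneg _) fun j _ => ?_
      split_ifs with h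
      · rw [h]; exact h0 j
      · rw [one_mul]; exact h1 _ _ h
    have e3 : ∏ j, (if s j = i0 then t else 1) = t := by
      rw [Equiv.prod_comp s (fun i => if i = i0 then t else 1)]
      simp
    rw [e1]
    refine e2.trans (le_of_eq ?_)
    rw [Finset.prod_mul_distrib, e3]
  rw [Matrix.det_apply]
  refine (norm_sum_le _ _).trans ?_
  refine (Finset.sum_le_sum fun s _ => key s).trans (le_of_eq ?_)
  rw [Finset.sum_const, Finset.card_univ, Fintype.card_perm, Fintype.card_fin, nsmul_eq_mul]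

theorem sum_shift (g : ℂ[X]) (θ : ℂ) {j n k : ℕ} (hg : g.natDegree ≤ n) (hk : j + n < k) :
    ∑ i : Fin k, θ ^ (i : ℕ) * (if (i : ℕ) ∈ Set.Icc j (j + n) then g.coeff (i - j) else 0) =
      θ ^ j * g.eval θ := by
  rw [Fin.sum_univ_eq_sum_range (fun i => θ ^ i *
    (if i ∈ Set.Icc j (j + n) then g.coeff (i - j) else 0)) k]
  have e1 : ∑ i ∈ range k, θ ^ i * (if i ∈ Set.Icc j (j + n) then g.coeff (i - j) else 0) =
      ∑ i ∈ (range k).filter (fun i => i ∈ Set.Icc j (j + n)), θ ^ i * g.coeff (i - j) := by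
    rw [Finset.sum_filter]
    refine Finset.sum_congr rfl fun i _ => ?_
    split_ifs <;> simp
  have e2 : (range k).filter (fun i => i ∈ Set.Icc j (j + n)) =
      (range (n + 1)).map (addLeftEmbedding j) := by
    ext i
    simp only [Finset.mem_filter, Finset.mem_range, Set.mem_Icc, Finset.mem_map,
      addLeftEmbedding_apply]
    constructor
    · rintro ⟨_, h2, h3⟩
      exact ⟨i - j, by omega, by omega⟩
    · rintro ⟨a, ha, rfl⟩
      omega
  rw [e1, e2, Finset.sum_map, eval_eq_sum_range' (Nat.lt_succ_of_le hg), Finset.mul_sum]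
  refine Finset.sum_congr rfl fun i _ => ?_
  simp only [addLeftEmbedding_apply, Nat.add_sub_cancel_left]
  ring

theorem norm_resultant_le (f g : ℂ[X]) {m n : ℕ} (hf : f.natDegree ≤ m) (hg : g.natDegree ≤ n)
    (hmn : 0 < m + n) (θ : ℂ) {F G E : ℝ} (hF : 1 ≤ F) (hG : 1 ≤ G)
    (hfF : ∀ i, ‖f.coeff i‖ ≤ F) (hgG : ∀ i, ‖g.coeff i‖ ≤ G) (hfE : ‖f.eval θ‖ ≤ E)
    (hgE : ‖g.eval θ‖ ≤ E) :
    ‖resultant f g m n‖ ≤
      (m + n).factorial * (max 1 ‖θ‖ ^ (m + n) * E * (G ^ m * F ^ n)) := by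
  have hE : 0 ≤ E := (norm_nonneg _).trans hfE
  have hT : 1 ≤ max 1 ‖θ‖ := le_max_left _ _
  have hpow : ∀ k ≤ m + n, ‖θ‖ ^ k ≤ max 1 ‖θ‖ ^ (m + n) := fun k hk =>
    (pow_le_pow_left₀ (norm_nonneg _) (le_max_right _ _) k).trans (pow_le_pow_right₀ hT hk)
  have hT' : 0 ≤ max 1 ‖θ‖ ^ (m + n) := by positivity
  set i0 : Fin (m + n) := ⟨0, hmn⟩ with hi0
  set S := sylvester f g m n with hS
  have hdet : (S.updateRow i0 (∑ k : Fin (m + n), θ ^ (k : ℕ) • S k)).det = S.det := by
    rw [Matrix.det_updateRow_sum]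
    simp [hi0]
  have hres : resultant f g m n = S.det := rfl
  rw [hres, ← hdet]
  set r : Fin (m + n) → ℝ := fun j => Fin.addCases (fun _ => G) (fun _ => F) j with hr
  have hprod : ∏ j, r j = G ^ m * F ^ n := by
    rw [Fin.prod_univ_add]
    simp [hr]
  rw [← hprod]
  refine norm_det_le _ r i0 _ ?_ ?_
  · intro i j hij
    rw [Matrix.updateRow_ne hij]
    simp only [hS, sylvester, Matrix.of_apply, hr]
    refine Fin.addCases (fun j => ?_) (fun j => ?_) j
    · simp only [Fin.addCases_left]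
      split_ifs
      · exact hgG _
      · rw [norm_zero]; linarith
    · simp only [Fin.addCases_right]
      split_ifs
      · exact hfF _
      · rw [norm_zero]; linarith
  · intro j
    rw [Matrix.updateRow_self, Finset.sum_apply]
    simp only [Pi.smul_apply, smul_eq_mul, hS, sylvester, Matrix.of_apply, hr]
    refine Fin.addCases (fun j => ?_) (fun j => ?_) j
    · simp only [Fin.addCases_left]
      rw [sum_shift g θ hg (by omega), norm_mul, norm_pow]
      calc ‖θ‖ ^ (j : ℕ) * ‖g.eval θ‖ ≤ max 1 ‖θ‖ ^ (m + n) * E := by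
            gcongr
            exact hpow _ (by omega)
        _ ≤ max 1 ‖θ‖ ^ (m + n) * E * G := le_mul_of_one_le_right (by positivity) hG
    · simp only [Fin.addCases_right]
      rw [sum_shift f θ hf (by omega), norm_mul, norm_pow]
      calc ‖θ‖ ^ (j : ℕ) * ‖f.eval θ‖ ≤ max 1 ‖θ‖ ^ (m + n) * E := by
            gcongr
            exact hpow _ (by omega)
        _ ≤ max 1 ‖θ‖ ^ (m + n) * E * F := le_mul_of_one_le_right (by positivity) hF

end Resultant

section Coprime

open scoped nonZeroDivisors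

theorem isCoprime_map_of_isRelPrime {f g : ℤ[X]} (h : IsRelPrime f g) :
    IsCoprime (f.map (Int.castRingHom ℚ)) (g.map (Int.castRingHom ℚ)) := by
  have hinj : Function.Injective (Int.castRingHom ℚ) := Int.cast_injective
  refine isCoprime_of_irreducible_dvd ?_ ?_
  · rintro ⟨h1, h2⟩
    rw [Polynomial.map_eq_zero_iff hinj] at h1 h2
    subst h1
    subst h2
    exact not_isUnit_zero (isRelPrime_self.1 h)
  · intro z hz hzf hzg
    obtain ⟨b, hb, hq⟩ := IsLocalization.integerNormalization_spec ℤ⁰ z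
    set q := IsLocalization.integerNormalization ℤ⁰ z with hqd
    have hb0 : (b : ℚ) ≠ 0 := by
      have := mem_nonZeroDivisors_iff_ne_zero.1 hb
      exact_mod_cast this
    have hq' : q.map (Int.castRingHom ℚ) = C (b : ℚ) * z := by
      have : q.map (algebraMap ℤ ℚ) = b • z := hq
      rw [show Int.castRingHom ℚ = algebraMap ℤ ℚ from rfl, this, zsmul_eq_mul]
      simp
    have hq0 : q ≠ 0 := by
      intro h0
      rw [h0, Polynomial.map_zero] at hq'
      exact (mul_ne_zero (by simpa using hb0) hz.ne_zero) hq'.symm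
    have hc0 : (q.content : ℚ) ≠ 0 := by
      have : q.content ≠ 0 := by rwa [Ne, content_eq_zero_iff]
      exact_mod_cast this
    have hp' : C (q.content : ℚ) * q.primPart.map (Int.castRingHom ℚ) = C (b : ℚ) * z := by
      rw [← hq']
      conv_rhs => rw [q.eq_C_content_mul_primPart]
      rw [Polynomial.map_mul, map_C]
      rfl
    have hu : IsUnit (C (q.content : ℚ)) := isUnit_C.2 (isUnit_iff_ne_zero.2 hc0)
    have hu' : IsUnit (C (b : ℚ)) := isUnit_C.2 (isUnit_iff_ne_zero.2 hb0)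
    have hass : Associated (q.primPart.map (Int.castRingHom ℚ)) z := by
      have h1 : Associated (C (q.content : ℚ) * q.primPart.map (Int.castRingHom ℚ))
          (q.primPart.map (Int.castRingHom ℚ)) :=
        (associated_isUnit_mul_left_iff hu).2 (Associated.refl _)
      have h2 : Associated (C (b : ℚ) * z) z :=
        (associated_isUnit_mul_left_iff hu').2 (Associated.refl _)
      rw [hp'] at h1
      exact h1.symm.trans h2
    have h1 : q.primPart ∣ f :=
      (IsPrimitive.Int.dvd_iff_map_cast_dvd_map_cast _ _ q.isPrimitive_primPart).2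
        (hass.dvd.trans hzf)
    have h2 : q.primPart ∣ g :=
      (IsPrimitive.Int.dvd_iff_map_cast_dvd_map_cast _ _ q.isPrimitive_primPart).2
        (hass.dvd.trans hzg)
    have h3 : IsUnit (q.primPart.map (Int.castRingHom ℚ)) :=
      (h h1 h2).map (mapRingHom (Int.castRingHom ℚ))
    exact hz.not_isUnit (hass.isUnit h3)

theorem one_le_norm_resultant {f g : ℤ[X]} (h : IsRelPrime f g) :
    1 ≤ ‖resultant (f.map (Int.castRingHom ℂ)) (g.map (Int.castRingHom ℂ))
      f.natDegree g.natDegree‖ := by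
  rw [resultant_map_map]
  have h1 : resultant f g f.natDegree g.natDegree ≠ 0 := by
    intro h0
    have h2 := resultant_map_map (R := ℤ) f g f.natDegree g.natDegree (Int.castRingHom ℚ)
    rw [h0, map_zero] at h2
    have h3 : resultant (f.map (Int.castRingHom ℚ)) (g.map (Int.castRingHom ℚ)) = 0 := by
      have e1 : (f.map (Int.castRingHom ℚ)).natDegree = f.natDegree :=
        natDegree_map_eq_of_injective Int.cast_injective f
      have e2 : (g.map (Int.castRingHom ℚ)).natDegree = g.natDegree :=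
        natDegree_map_eq_of_injective Int.cast_injective g
      rw [e1, e2]
      exact h2
    exact (resultant_eq_zero_iff.1 h3).2 (isCoprime_map_of_isRelPrime h)
  simp only [eq_intCast, Complex.norm_intCast]
  exact_mod_cast Int.one_le_abs h1

end Coprime

section Bound

/-- the Mahler measure of an integer polynomial -/
noncomputable def mm (f : ℤ[X]) : ℝ := (f.map (Int.castRingHom ℂ)).mahlerMeasure

theorem one_le_mm {f : ℤ[X]} (hf : f ≠ 0) : 1 ≤ mm f := one_le_mahlerMeasure_of_ne_zero hf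

theorem mm_mul (f g : ℤ[X]) : mm (f * g) = mm f * mm g := by
  unfold mm
  rw [Polynomial.map_mul, mahlerMeasure_mul]

theorem norm_coeff_le_mm (f : ℤ[X]) (i : ℕ) :
    ‖(f.map (Int.castRingHom ℂ)).coeff i‖ ≤ 2 ^ f.natDegree * mm f := by
  refine (norm_coeff_le_choose_mul_mahlerMeasure i _).trans ?_
  have e1 : (f.map (Int.castRingHom ℂ)).natDegree = f.natDegree :=
    natDegree_map_eq_of_injective Int.cast_injective f
  rw [e1]
  have h : ((f.natDegree.choose i : ℕ) : ℝ) ≤ 2 ^ f.natDegree := by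
    exact_mod_cast Nat.choose_le_two_pow _ _
  exact mul_le_mul_of_nonneg_right h (mahlerMeasure_nonneg _)

theorem mm_le {f : ℤ[X]} {d : ℕ} {H : ℝ} (hd : f.natDegree ≤ d)
    (hH : ∀ i, |(f.coeff i : ℝ)| ≤ H) : mm f ≤ (d + 1) * H := by
  have hH0 : 0 ≤ H := (abs_nonneg _).trans (hH 0)
  refine (mahlerMeasure_le_sum_norm_coeff _).trans ?_
  rw [Polynomial.sum_over_range' _ (fun _ => norm_zero) (d + 1)]
  · refine (Finset.sum_le_card_nsmul _ _ H fun i _ => ?_).trans (le_of_eq ?_)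
    · rw [coeff_map, eq_intCast, Complex.norm_intCast]
      exact hH i
    · rw [Finset.card_range, nsmul_eq_mul]
      push_cast
      ring
  · exact Nat.lt_succ_of_le (natDegree_map_le.trans hd)

/-- the constant of the estimate -/
noncomputable def KK (θ : ℂ) (d : ℕ) : ℝ :=
  (2 * d).factorial * (max 1 ‖θ‖ ^ (2 * d) * 4 ^ (d * d))

theorem one_le_KK (θ : ℂ) (d : ℕ) : 1 ≤ KK θ d := by
  unfold KK
  have h1 : (1 : ℝ) ≤ (2 * d).factorial := by exact_mod_cast (2 * d).factorial_pos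
  have h2 : (1 : ℝ) ≤ max 1 ‖θ‖ ^ (2 * d) := one_le_pow₀ (le_max_left _ _)
  have h3 : (1 : ℝ) ≤ 4 ^ (d * d) := one_le_pow₀ (by norm_num)
  exact one_le_mul_of_one_le_of_one_le h1 (one_le_mul_of_one_le_of_one_le h2 h3)

/-- two coprime integer polynomials are not both small at `θ` -/
theorem one_le_of_isRelPrime (θ : ℂ) {d : ℕ} {f g : ℤ[X]} (hf0 : f ≠ 0) (hg0 : g ≠ 0)
    (h : IsRelPrime f g) (hf : f.natDegree ≤ d) (hg : g.natDegree ≤ d) {E : ℝ}
    (hfE : ‖aeval θ f‖ ≤ E) (hgE : ‖aeval θ g‖ ≤ E) : 1 ≤ KK θ d * (mm f * mm g) ^ d * E := by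
  have hE : 0 ≤ E := (norm_nonneg _).trans hfE
  have hK := one_le_KK θ d
  have hMf := one_le_mm hf0
  have hMg := one_le_mm hg0
  have hM : 1 ≤ (mm f * mm g) ^ d := one_le_pow₀ (one_le_mul_of_one_le_of_one_le hMf hMg)
  by_cases h0 : 0 < f.natDegree + g.natDegree
  · have h1 := one_le_norm_resultant h
    have ef : ‖(f.map (Int.castRingHom ℂ)).eval θ‖ ≤ E := by
      rw [eval_map]
      exact hfE
    have eg : ‖(g.map (Int.castRingHom ℂ)).eval θ‖ ≤ E := by
      rw [eval_map]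
      exact hgE
    have hF : 1 ≤ 2 ^ f.natDegree * mm f :=
      one_le_mul_of_one_le_of_one_le (one_le_pow₀ (by norm_num)) hMf
    have hG : 1 ≤ 2 ^ g.natDegree * mm g :=
      one_le_mul_of_one_le_of_one_le (one_le_pow₀ (by norm_num)) hMg
    have h2 := norm_resultant_le (f.map (Int.castRingHom ℂ)) (g.map (Int.castRingHom ℂ))
      (m := f.natDegree) (n := g.natDegree) natDegree_map_le natDegree_map_le h0 θ hF hG
      (norm_coeff_le_mm f) (norm_coeff_le_mm g) ef eg
    refine h1.trans (h2.trans ?_)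
    set m := f.natDegree
    set n := g.natDegree
    have c1 : ((m + n).factorial : ℝ) ≤ (2 * d).factorial := by
      exact_mod_cast Nat.factorial_le (by omega)
    have c2 : max 1 ‖θ‖ ^ (m + n) ≤ max 1 ‖θ‖ ^ (2 * d) :=
      pow_le_pow_right₀ (le_max_left _ _) (by omega)
    have c3 : (2 ^ n * mm g) ^ m * (2 ^ m * mm f) ^ n ≤ 4 ^ (d * d) * (mm f * mm g) ^ d := by
      have e1 : (2 ^ n * mm g) ^ m * (2 ^ m * mm f) ^ n = 4 ^ (m * n) * (mm f ^ n * mm g ^ m) := by
        rw [mul_pow, mul_pow, ← pow_mul, ← pow_mul, show (4 : ℝ) = 2 ^ 2 by norm_num, ← pow_mul]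
        ring
      rw [e1, mul_pow]
      have d1 : (4 : ℝ) ^ (m * n) ≤ 4 ^ (d * d) :=
        pow_le_pow_right₀ (by norm_num) (Nat.mul_le_mul hf hg)
      have d2 : mm f ^ n ≤ mm f ^ d := pow_le_pow_right₀ hMf hg
      have d3 : mm g ^ m ≤ mm g ^ d := pow_le_pow_right₀ hMg hf
      gcongr
    have c4 : 0 ≤ (2 ^ n * mm g) ^ m * (2 ^ m * mm f) ^ n := by positivity
    calc ((m + n).factorial : ℝ) *
          (max 1 ‖θ‖ ^ (m + n) * E * ((2 ^ n * mm g) ^ m * (2 ^ m * mm f) ^ n))
        ≤ (2 * d).factorial * (max 1 ‖θ‖ ^ (2 * d) * E * (4 ^ (d * d) * (mm f * mm g) ^ d)) := by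
          gcongr
      _ = KK θ d * (mm f * mm g) ^ d * E := by unfold KK; ring
  · have h1 : f.natDegree = 0 := by omega
    obtain ⟨c, rfl⟩ := natDegree_eq_zero.1 h1
    have hc : c ≠ 0 := by
      rintro rfl
      exact hf0 (by simp)
    have h2 : 1 ≤ ‖aeval θ (C c)‖ := by
      rw [aeval_C]
      simp only [algebraMap_int_eq, eq_intCast, Complex.norm_intCast]
      exact_mod_cast Int.one_le_abs hc
    have h3 : 1 ≤ E := h2.trans hfE
    exact one_le_mul_of_one_le_of_one_le (one_le_mul_of_one_le_of_one_le hK hM) h3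

end Bound

section Split

/-- a polynomial that is very small at `θ` has a prime power factor that is small at `θ` -/
theorem exists_prime_pow {A : ℤ[X]} (hA : A ≠ 0) (θ : ℂ) {e : ℝ} (he0 : 0 < e) (he1 : e ≤ 1)
    (hs : ‖aeval θ A‖ < e ^ 3)
    (H : ∀ f g : ℤ[X], f * g = A → IsRelPrime f g → e ≤ max ‖aeval θ f‖ ‖aeval θ g‖) :
    ∃ (p : ℤ[X]) (i : ℕ) (D : ℤ[X]), Prime p ∧ p ^ i * D = A ∧ ‖aeval θ (p ^ i)‖ < e ∧
      ‖aeval θ (p ^ i)‖ * e ≤ ‖aeval θ A‖ := by
  have key : ∀ x : ℤ[X], ∀ c : ℤ[X], x * c = A → IsRelPrime x c → ‖aeval θ x‖ < e →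
      ∃ (p : ℤ[X]) (i : ℕ) (D : ℤ[X]), Prime p ∧ p ^ i * D = A ∧ IsRelPrime (p ^ i) D ∧
        ‖aeval θ (p ^ i)‖ < e := by
    intro x
    induction x using UniqueFactorizationMonoid.induction_on_coprime with
    | h0 =>
      intro c hc
      rw [zero_mul] at hc
      exact absurd hc.symm hA
    | h1 hx =>
      intro c _ _ hlt
      exfalso
      obtain ⟨u, hu, rfl⟩ := Polynomial.isUnit_iff.1 hx
      rw [aeval_C] at hlt
      rcases Int.isUnit_iff.1 hu with rfl | rfl
      · simp at hlt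
        linarith
      · simp at hlt
        linarith
    | hpr i hp =>
      intro c hc hrel hlt
      exact ⟨_, i, c, hp, hc, hrel, hlt⟩
    | hcp hxy hx hy =>
      rename_i x y
      intro c hc hrel hlt
      have h1 : IsRelPrime x c := hrel.of_mul_left_left
      have h2 : IsRelPrime y c := hrel.of_mul_left_right
      by_cases hxe : ‖aeval θ x‖ < e
      · exact hx (y * c) (by rw [← hc]; ring) (hxy.mul_right h1) hxe
      by_cases hye : ‖aeval θ y‖ < e
      · exact hy (x * c) (by rw [← hc]; ring) (hxy.symm.mul_right h2) hye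
      exfalso
      push Not at hxe hye
      have hce : e ≤ ‖aeval θ c‖ := by
        rcases le_max_iff.1 (H _ _ hc hrel) with h | h
        · exact absurd hlt (not_lt.2 h)
        · exact h
      rw [← hc, map_mul, map_mul, norm_mul, norm_mul] at hs
      have : e ^ 3 ≤ ‖aeval θ x‖ * ‖aeval θ y‖ * ‖aeval θ c‖ := by
        calc e ^ 3 = e * e * e := by ring
          _ ≤ ‖aeval θ x‖ * ‖aeval θ y‖ * ‖aeval θ c‖ := by gcongr
      linarith
  have hs1 : ‖aeval θ A‖ < e := by
    refine hs.trans_le ?_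
    calc e ^ 3 = e * (e * e) := by ring
      _ ≤ e * 1 := by
        gcongr
        exact mul_le_one₀ he1 he0.le he1
      _ = e := mul_one e
  obtain ⟨p, i, D, hp, hD, hrel, hlt⟩ := key A 1 (mul_one A) isRelPrime_one_right hs1
  refine ⟨p, i, D, hp, hD, hlt, ?_⟩
  have hDe : e ≤ ‖aeval θ D‖ := by
    rcases le_max_iff.1 (H _ _ hD hrel) with h | h
    · exact absurd hlt (not_lt.2 h)
    · exact h
  rw [← hD, map_mul, norm_mul]
  gcongr

end Split

/-- Gelfond's criterion in fixed degree -/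
theorem gelfond (θ : ℂ) (d : ℕ) (sg Ga : ℝ) (hsg : 0 < sg) (hGa : 3 * d * sg < Ga) (N₀ : ℕ)
    (h : ∀ N : ℕ, N₀ ≤ N → ∃ A : ℤ[X], A ≠ 0 ∧ A.natDegree ≤ d ∧
      (∀ i, |(A.coeff i : ℝ)| ≤ Real.exp (sg * N)) ∧ ‖aeval θ A‖ ≤ Real.exp (-(Ga * N))) :
    IsAlgebraic ℚ θ := by
  choose! A hA0 hAd hAc hAθ using h
  -- constants
  set W : ℝ := KK θ d * (d + 1) ^ d with hW
  have hd1 : (1 : ℝ) ≤ (d + 1) ^ d := one_le_pow₀ (by have : (0 : ℝ) ≤ d := by positivity
                                                      linarith)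
  have hW1 : 1 ≤ W := one_le_mul_of_one_le_of_one_le (one_le_KK θ d) hd1
  have hW0 : 0 < W := by linarith
  set w : ℕ → ℝ := fun N => W * Real.exp (d * sg * N) with hw
  have hw1 : ∀ N, 1 ≤ w N := fun N => by
    refine one_le_mul_of_one_le_of_one_le hW1 (Real.one_le_exp (by positivity))
  have hmA : ∀ N, N₀ ≤ N → mm (A N) ≤ (d + 1) * Real.exp (sg * N) := fun N hN =>
    mm_le (hAd N hN) (hAc N hN)
  -- the small values tend to 0
  have hlim : ∀ C c : ℝ, 0 < c → Filter.Tendsto (fun N : ℕ => C * Real.exp (-(c * N)))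
      Filter.atTop (nhds 0) := by
    intro C c hc
    have h1 : Filter.Tendsto (fun N : ℕ => c * (N : ℝ)) Filter.atTop Filter.atTop :=
      tendsto_natCast_atTop_atTop.const_mul_atTop hc
    have h2 := (Real.tendsto_exp_neg_atTop_nhds_zero.comp h1).const_mul C
    simpa using h2
  have hdsg : 0 ≤ (d : ℝ) * sg := by positivity
  -- prime powers
  have hpp : ∃ N₁, N₀ ≤ N₁ ∧ ∀ N, N₁ ≤ N → ∃ (p : ℤ[X]) (i : ℕ) (D : ℤ[X]), Prime p ∧
      p ^ i * D = A N ∧ ‖aeval θ (p ^ i)‖ < 1 ∧
      ‖aeval θ (p ^ i)‖ ≤ W * Real.exp (-((Ga - d * sg) * N)) := by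
    have hev : ∀ᶠ N : ℕ in Filter.atTop, W ^ 3 * Real.exp (-((Ga - 3 * d * sg) * N)) < 1 :=
      (hlim (W ^ 3) (Ga - 3 * d * sg) (by linarith)).eventually (gt_mem_nhds one_pos)
    obtain ⟨N₁, hN₁⟩ := Filter.eventually_atTop.1 hev
    refine ⟨max N₀ N₁, le_max_left _ _, fun N hN => ?_⟩
    have hN0 : N₀ ≤ N := (le_max_left _ _).trans hN
    have hs := hN₁ N ((le_max_right _ _).trans hN)
    have hwp : 0 < w N := zero_lt_one.trans_le (hw1 N)
    have he0 : 0 < (w N)⁻¹ := inv_pos.2 hwp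
    have he1 : (w N)⁻¹ ≤ 1 := inv_le_one_of_one_le₀ (hw1 N)
    have hsm : ‖aeval θ (A N)‖ < (w N)⁻¹ ^ 3 := by
      refine (hAθ N hN0).trans_lt ?_
      rw [inv_pow, lt_inv_comm₀ (Real.exp_pos _) (by positivity), ← Real.exp_neg, neg_neg]
      have e1 : w N ^ 3 = W ^ 3 * Real.exp (-((Ga - 3 * d * sg) * N)) * Real.exp (Ga * N) := by
        simp only [hw]
        rw [mul_pow, ← Real.exp_nat_mul, mul_assoc (W ^ 3), ← Real.exp_add]
        congr 2
        push_cast
        ring
      rw [e1]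
      exact mul_lt_of_lt_one_left (Real.exp_pos _) hs
    have hH : ∀ f g : ℤ[X], f * g = A N → IsRelPrime f g →
        (w N)⁻¹ ≤ max ‖aeval θ f‖ ‖aeval θ g‖ := by
      intro f g hfg hrel
      have hfg0 : f * g ≠ 0 := by rw [hfg]; exact hA0 N hN0
      have hf0 : f ≠ 0 := left_ne_zero_of_mul hfg0
      have hg0 : g ≠ 0 := right_ne_zero_of_mul hfg0
      have hdeg : f.natDegree + g.natDegree ≤ d := by
        rw [← natDegree_mul hf0 hg0, hfg]
        exact hAd N hN0
      have h1 := one_le_of_isRelPrime θ hf0 hg0 hrel (d := d) (by omega) (by omega)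
        (le_max_left ‖aeval θ f‖ ‖aeval θ g‖) (le_max_right ‖aeval θ f‖ ‖aeval θ g‖)
      have h2 : (mm f * mm g) ^ d ≤ (d + 1) ^ d * Real.exp (d * sg * N) := by
        rw [← mm_mul, hfg]
        have h3 : mm (A N) ^ d ≤ ((d + 1) * Real.exp (sg * N)) ^ d :=
          pow_le_pow_left₀ (zero_le_one.trans (one_le_mm (hA0 N hN0))) (hmA N hN0) d
        rw [mul_pow, ← Real.exp_nat_mul] at h3
        rwa [show (d : ℝ) * (sg * N) = d * sg * N by ring] at h3
      have hm0 : 0 ≤ max ‖aeval θ f‖ ‖aeval θ g‖ := (norm_nonneg _).trans (le_max_left _ _)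
      rw [inv_le_iff_one_le_mul₀ hwp]
      refine h1.trans ?_
      have hK0 : 0 ≤ KK θ d := zero_le_one.trans (one_le_KK θ d)
      calc KK θ d * (mm f * mm g) ^ d * max ‖aeval θ f‖ ‖aeval θ g‖
          ≤ KK θ d * ((d + 1) ^ d * Real.exp (d * sg * N)) * max ‖aeval θ f‖ ‖aeval θ g‖ := by
            gcongr
        _ = max ‖aeval θ f‖ ‖aeval θ g‖ * w N := by simp only [hw, hW]; ring
    obtain ⟨p, i, D, hp, hD, hlt, hle⟩ := exists_prime_pow (hA0 N hN0) θ he0 he1 hsm hH
    refine ⟨p, i, D, hp, hD, hlt.trans_le he1, ?_⟩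
    rw [← div_eq_mul_inv, div_le_iff₀ hwp] at hle
    refine hle.trans ?_
    calc ‖aeval θ (A N)‖ * w N ≤ Real.exp (-(Ga * N)) * w N := by
          gcongr
          exact hAθ N hN0
      _ = W * Real.exp (-((Ga - d * sg) * N)) := by
          simp only [hw]
          rw [mul_left_comm, ← Real.exp_add]
          congr 2
          ring
  obtain ⟨N₁, hN₀₁, hN₁⟩ := hpp
  choose! p i D hp hD hlt hle using hN₁
  have hq0 : ∀ N, N₁ ≤ N → p N ^ i N ≠ 0 := fun N hN => pow_ne_zero _ (hp N hN).ne_zero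
  have hqd : ∀ N, N₁ ≤ N → (p N ^ i N).natDegree ≤ d := fun N hN => by
    have h1 : (p N ^ i N) * D N ≠ 0 := by rw [hD N hN]; exact hA0 N (hN₀₁.trans hN)
    have h2 := natDegree_mul (hq0 N hN) (right_ne_zero_of_mul h1)
    rw [hD N hN] at h2
    have := hAd N (hN₀₁.trans hN)
    omega
  have hqm : ∀ N, N₁ ≤ N → mm (p N ^ i N) ≤ (d + 1) * Real.exp (sg * N) := fun N hN => by
    have h1 : (p N ^ i N) * D N ≠ 0 := by rw [hD N hN]; exact hA0 N (hN₀₁.trans hN)
    have h2 := mm_mul (p N ^ i N) (D N)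
    rw [hD N hN] at h2
    have h3 := one_le_mm (right_ne_zero_of_mul h1)
    have h4 := one_le_mm (hq0 N hN)
    refine le_trans ?_ (hmA N (hN₀₁.trans hN))
    rw [h2]
    exact le_mul_of_one_le_right (zero_le_one.trans h4) h3
  -- consecutive primes are associated
  have hcons : ∃ N₂, N₁ ≤ N₂ ∧ ∀ N, N₂ ≤ N → Associated (p N) (p (N + 1)) := by
    set Cc : ℝ := KK θ d * ((d + 1) * ((d + 1) * Real.exp sg)) ^ d * W with hCc
    have hev : ∀ᶠ N : ℕ in Filter.atTop, Cc * Real.exp (-((Ga - 3 * d * sg) * N)) < 1 :=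
      (hlim Cc (Ga - 3 * d * sg) (by linarith)).eventually (gt_mem_nhds one_pos)
    obtain ⟨N₂, hN₂⟩ := Filter.eventually_atTop.1 hev
    refine ⟨max N₁ N₂, le_max_left _ _, fun N hN => ?_⟩
    have hNa : N₁ ≤ N := (le_max_left _ _).trans hN
    have hNb : N₁ ≤ N + 1 := by omega
    by_contra hnot
    have hrel : IsRelPrime (p N ^ i N) (p (N + 1) ^ i (N + 1)) := by
      have h1 : IsRelPrime (p N) (p (N + 1)) := by
        have h2 := (hp N hNa).irreducible
        have h3 := (hp (N + 1) hNb).irreducible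
        rw [h2.isRelPrime_iff_not_dvd]
        intro hdvd
        exact hnot (h2.associated_of_dvd h3 hdvd)
      exact h1.pow
    have hE1 : ‖aeval θ (p N ^ i N)‖ ≤ W * Real.exp (-((Ga - d * sg) * N)) := hle N hNa
    have hE2 : ‖aeval θ (p (N + 1) ^ i (N + 1))‖ ≤ W * Real.exp (-((Ga - d * sg) * N)) := by
      refine (hle (N + 1) hNb).trans ?_
      have : 0 ≤ Ga - d * sg := by linarith
      have h2 : -((Ga - d * sg) * ((N + 1 : ℕ) : ℝ)) ≤ -((Ga - d * sg) * N) := by
        push_cast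
        nlinarith
      gcongr
    have h1 := one_le_of_isRelPrime θ (hq0 N hNa) (hq0 (N + 1) hNb) hrel (hqd N hNa)
      (hqd (N + 1) hNb) hE1 hE2
    have h2 : mm (p N ^ i N) * mm (p (N + 1) ^ i (N + 1)) ≤
        (d + 1) * Real.exp (sg * N) * ((d + 1) * Real.exp (sg * (N + 1 : ℕ))) :=
      mul_le_mul (hqm N hNa) (hqm (N + 1) hNb) (mahlerMeasure_nonneg _) (by positivity)
    have h2' : 0 ≤ mm (p N ^ i N) * mm (p (N + 1) ^ i (N + 1)) :=
      mul_nonneg (mahlerMeasure_nonneg _) (mahlerMeasure_nonneg _)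
    have hK0 : 0 ≤ KK θ d := zero_le_one.trans (one_le_KK θ d)
    have h3 : KK θ d * (mm (p N ^ i N) * mm (p (N + 1) ^ i (N + 1))) ^ d *
        (W * Real.exp (-((Ga - d * sg) * N))) ≤ Cc * Real.exp (-((Ga - 3 * d * sg) * N)) := by
      calc _ ≤ KK θ d * ((d + 1) * Real.exp (sg * N) * ((d + 1) * Real.exp (sg * (N + 1 : ℕ)))) ^ d
            * (W * Real.exp (-((Ga - d * sg) * N))) := by gcongr
        _ = Cc * Real.exp (-((Ga - 3 * d * sg) * N)) := by
          have e1 : ((d : ℝ) + 1) * Real.exp (sg * N) * ((d + 1) * Real.exp (sg * (N + 1 : ℕ))) =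
              (d + 1) * ((d + 1) * Real.exp sg) * Real.exp (2 * sg * N) := by
            have : Real.exp (sg * (N + 1 : ℕ)) = Real.exp sg * Real.exp (sg * N) := by
              rw [← Real.exp_add]
              congr 1
              push_cast
              ring
            rw [this, show 2 * sg * (N : ℝ) = sg * N + sg * N by ring, Real.exp_add]
            ring
          rw [e1, mul_pow, ← Real.exp_nat_mul]
          have e2 : Real.exp (-((Ga - 3 * d * sg) * N)) =
              Real.exp ((d : ℝ) * (2 * sg * N)) * Real.exp (-((Ga - d * sg) * N)) := by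
            rw [← Real.exp_add]
            congr 1
            ring
          rw [e2, hCc]
          ring
    linarith [hN₂ N ((le_max_right _ _).trans hN)]
  obtain ⟨N₂, hN₁₂, hN₂⟩ := hcons
  have hass : ∀ N, N₂ ≤ N → Associated (p N₂) (p N) := by
    intro N hN
    induction N, hN using Nat.le_induction with
    | base => exact Associated.refl _
    | succ N hN ih => exact ih.trans (hN₂ N hN)
  have hnorm : ∀ N, N₂ ≤ N → ‖aeval θ (p N ^ i N)‖ = ‖aeval θ (p N₂)‖ ^ i N := by
    intro N hN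
    rw [map_pow, norm_pow]
    congr 1
    obtain ⟨u, hu⟩ := hass N hN
    rw [← hu, map_mul, norm_mul]
    obtain ⟨c, hc, hcu⟩ := Polynomial.isUnit_iff.1 u.isUnit
    rw [← hcu, aeval_C]
    rcases Int.isUnit_iff.1 hc with rfl | rfl <;> simp
  -- the prime is not constant
  have hpd : 0 < (p N₂).natDegree := by
    rw [Nat.pos_iff_ne_zero]
    intro h0
    obtain ⟨c, hc⟩ := natDegree_eq_zero.1 h0
    have hc0 : c ≠ 0 := by
      rintro rfl
      exact (hp N₂ hN₁₂).ne_zero (by rw [← hc]; simp)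
    have h1 : 1 ≤ ‖aeval θ (p N₂)‖ := by
      rw [← hc, aeval_C]
      simp only [algebraMap_int_eq, eq_intCast, Complex.norm_intCast]
      exact_mod_cast Int.one_le_abs hc0
    have h2 := hlt N₂ hN₁₂
    rw [hnorm N₂ le_rfl] at h2
    exact absurd h2 (not_lt.2 (one_le_pow₀ h1))
  have hi : ∀ N, N₂ ≤ N → i N ≤ d := by
    intro N hN
    have h1 := hqd N (hN₁₂.trans hN)
    rw [natDegree_pow] at h1
    have h2 : (p N).natDegree = (p N₂).natDegree :=
      (natDegree_eq_of_degree_eq (degree_eq_degree_of_associated (hass N hN))).symm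
    rw [h2] at h1
    exact (Nat.le_mul_of_pos_right _ hpd).trans h1
  -- conclusion
  by_cases hz : aeval θ (p N₂) = 0
  · have h1 : IsAlgebraic ℤ θ := ⟨p N₂, (hp N₂ hN₁₂).ne_zero, hz⟩
    exact (IsFractionRing.isAlgebraic_iff ℤ ℚ ℂ).1 h1
  · exfalso
    set η : ℝ := (min 1 ‖aeval θ (p N₂)‖) ^ d with hη
    have hmin : 0 < min 1 ‖aeval θ (p N₂)‖ := lt_min one_pos (norm_pos_iff.2 hz)
    have hη0 : 0 < η := pow_pos hmin d
    have hge : ∀ N, N₂ ≤ N → η ≤ ‖aeval θ (p N ^ i N)‖ := by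
      intro N hN
      rw [hnorm N hN]
      calc η ≤ (min 1 ‖aeval θ (p N₂)‖) ^ i N :=
            pow_le_pow_of_le_one hmin.le (min_le_left _ _) (hi N hN)
        _ ≤ ‖aeval θ (p N₂)‖ ^ i N := pow_le_pow_left₀ hmin.le (min_le_right _ _) _
    have hev : ∀ᶠ N : ℕ in Filter.atTop, W * Real.exp (-((Ga - d * sg) * N)) < η :=
      (hlim W (Ga - d * sg) (by linarith)).eventually (gt_mem_nhds hη0)
    obtain ⟨N₃, hN₃⟩ := Filter.eventually_atTop.1 hev
    have h1 := hge (max N₂ N₃) (le_max_left _ _)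
    have h2 := hle (max N₂ N₃) (hN₁₂.trans (le_max_left _ _))
    have h3 := hN₃ (max N₂ N₃) (le_max_right _ _)
    linarith

end GP
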