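import Pool.Agent.GP.Eta

/-! Module JAC: Jacobi's identity and the derivative of the lambda function. -/

set_option autoImplicit false

namespace Pool.Agent.GP

open Complex

theorem jacobi {τ : ℂ} (h : 0 < τ.im) : th3 τ = th2 τ + th4 τ := by
  rw [_root_.GP.th3_eq' h, _root_.GP.th2_eq' h, _root_.GP.th4_eq' h, _root_.GP.jacobi h]

theorem lam_hasDerivAt {τ : ℂ} (h : 0 < τ.im) :
    HasDerivAt lam (Real.pi * I * lam τ * th4 τ) τ := by
  have h1 := _root_.GP.hasDerivAt_lam h
  rw [_root_.GP.lam_eq' h, _root_.GP.th4_eq' h]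
  refine (h1.congr_of_eventuallyEq ?_).congr_deriv (by ring)
  filter_upwards [_root_.GP.isOpen_im_pos.mem_nhds h] with z hz
  exact _root_.GP.lam_eq' hz

end Pool.Agent.GP
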