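import Pool.Agent.GP.LW
import Pool.Agent.Helper32.GP.Jensen

/-! Module JEN: Jensen's inequality on a horocycle. -/

set_option autoImplicit false

namespace Pool.Agent.GP

open Complex Metric MeasureTheory

theorem wn_eq_wpar (p : ℕ) (x y : ℝ) : wn p ((x : ℂ) + I * y) = _root_.GP.wpar p x y := by
  unfold wn _root_.GP.wpar
  rw [mul_comm (y : ℂ) I]

theorem jen {p : ℕ} (hp : 0 < p) (g : ℂ → ℂ) (hg : DifferentiableOn ℂ g (ball 0 1))
    (h0 : g 0 ≠ 0) (M : ℕ) {y : ℝ} (hy : 0 < y) (U : ℝ → ℝ)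
    (hU : IntervalIntegrable U volume 0 (2 * p))
    (h : ∀ x ∈ Set.Icc (0 : ℝ) (2 * p), g (wn p ((x : ℂ) + I * y)) ≠ 0 →
      Real.log ‖wn p ((x : ℂ) + I * y) ^ M * g (wn p ((x : ℂ) + I * y))‖ ≤ U x) :
    Real.log ‖g 0‖ - Real.pi * y * M / p ≤ (1 / (2 * p)) * ∫ x in (0 : ℝ)..(2 * p), U x := by
  have key := _root_.GP.jensen_horo hp hy hg h0 M hU (by
    intro x hx0 hx1
    rw [← wn_eq_wpar]
    by_cases hz : g (wn p ((x : ℂ) + I * y)) = 0
    · rw [hz, mul_zero, norm_zero]; exact (Real.exp_pos _).le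
    · have h1 := h x ⟨hx0, hx1⟩ hz
      have hne : wn p ((x : ℂ) + I * y) ^ M * g (wn p ((x : ℂ) + I * y)) ≠ 0 :=
        mul_ne_zero (pow_ne_zero _ (Complex.exp_ne_zero _)) hz
      exact (Real.log_le_iff_le_exp (norm_pos_iff.mpr hne)).mp h1)
  have e1 : Real.pi * y * M / p = Real.pi * y / p * M := by ring
  have e2 : (1 / (2 * (p:ℝ))) = (2 * (p:ℝ))⁻¹ := one_div _
  rw [e1, e2]
  exact key

end Pool.Agent.GP
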