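import Pool.Agent.GP.KeyD

/-!
# The Bloch property and the lower bound for the derivative
-/

namespace GP

open Complex MeasureTheory Set ModularGroup
open UpperHalfPlane hiding I
open scoped MatrixGroups

lemma prod_vv (α : Fin 3 → ℝ) (hs : ∑ i, α i = 1) (z : ℍ) :
    ∏ i, (vv i z) ^ (α i) = (∏ i, ‖thv i (z : ℂ)‖ ^ (α i)) * z.im := by
  have h1 : ∀ i, (vv i z) ^ (α i) = ‖thv i (z : ℂ)‖ ^ (α i) * z.im ^ (α i) := by
    intro i
    rw [vv, Real.mul_rpow (norm_nonneg _) z.im_pos.le]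
  simp only [h1]
  rw [Finset.prod_mul_distrib]
  congr 1
  rw [← Real.rpow_sum_of_pos z.im_pos, hs, Real.rpow_one]

theorem bloch_low {N : ℕ} (hN : 0 < N) (α : Fin 3 → ℝ) (hα : ∀ i, 0 < α i) (hs : ∑ i, α i = 1)
    {b : ℝ} (hb : 0 < b) : ∃ C > 0, ∃ c > 0, ∀ g : ℕ → ℂ, IsWS g →
      (∀ z : ℂ, 0 < z.im → ‖ws N (dws N g) z‖ = b * ∏ i, ‖thv i z‖ ^ (α i)) →
      Bloch N g C ∧ ∀ h : ℝ, 0 < h → h ≤ 1 → c / h ^ 2 ≤ Q N (dws N g) h := by
  have hN' : (0 : ℝ) < N := by exact_mod_cast hN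
  have hpr := mu_prob hN'
  obtain ⟨C, hC, hCle⟩ := exists_prod_le α hα hs
  obtain ⟨c, hc, hcge⟩ := exists_prod_ge α hα hs 6
  refine ⟨b * C, by positivity, (b * c) ^ 2 * (1 / 2), by positivity, ?_⟩
  intro g hg hder
  have hnorm : ∀ z : ℍ, ‖ws N (dws N g) z‖ * z.im = b * ∏ i, (vv i z) ^ (α i) := by
    intro z
    rw [hder z z.im_pos, prod_vv α hs]
    ring
  refine ⟨?_, ?_⟩
  · intro z hz
    have h1 := hnorm ⟨z, hz⟩
    have h2 := hCle ⟨z, hz⟩
    have h3 : ‖ws N (dws N g) z‖ * z.im = b * ∏ i, (vv i ⟨z, hz⟩) ^ (α i) := h1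
    rw [h3]
    gcongr
  · intro h hh hh1
    set D : Set ℝ := {x : ℝ | b * c ≤ ‖ws N (dws N g) (x + h * I)‖ * h} with hD
    have hcont := continuous_ws hN' hh (isWS_dws (p := N) hg)
    have hDm : MeasurableSet D :=
      measurableSet_le measurable_const (hcont.norm.mul continuous_const).measurable
    refine Q_lower_of_thick hN' hh (isWS_dws hg) (by positivity) hDm ?_ (fun x hx => hx)
    -- the complement of the deep part
    have h1 := volume_deep_le hN hh hh1 (by norm_num : (1 : ℝ) ≤ 6)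
    have h2 : (mu N).real (deep N h 6) ≤ (2 * (N : ℝ))⁻¹ * volume.real (deep N h 6) := by
      rw [mu, measureReal_ennreal_smul_apply, ENNReal.toReal_inv,
        ENNReal.toReal_ofReal (by linarith)]
      refine mul_le_mul_of_nonneg_left ?_ (by positivity)
      refine ENNReal.toReal_mono (lt_of_le_of_lt h1 ENNReal.ofReal_lt_top).ne
        (Measure.restrict_apply_le _ _)
    have h3 : volume.real (deep N h 6) ≤ 6 * N / 6 :=
      ENNReal.toReal_le_of_le_ofReal (by positivity) h1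
    have h4 : (mu N).real (deep N h 6) ≤ 1 / 2 := by
      refine h2.trans ?_
      calc (2 * (N : ℝ))⁻¹ * volume.real (deep N h 6) ≤ (2 * (N : ℝ))⁻¹ * (6 * N / 6) := by gcongr
        _ = 1 / 2 := by field_simp
    -- almost everything lies in one of the two sets
    have h5 : (mu N).real (Ioc 0 (2 * (N : ℝ))) = 1 := by
      rw [mu_real_apply hN' measurableSet_Ioc, inter_self, measureReal_def, Real.volume_Ioc,
        ENNReal.toReal_ofReal (by linarith), sub_zero]
      field_simp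
    have h6 : Ioc 0 (2 * (N : ℝ)) ⊆ D ∪ deep N h 6 := by
      intro x hx
      by_cases hxd : x ∈ deep N h 6
      · exact Or.inr hxd
      · left
        have hpos : 0 < (x + h * I : ℂ).im := by simpa using hh
        have h7 := im_smul_le_of_not_deep hx.1.le hx.2 hxd ⟨x + h * I, hpos⟩
          (by show (x + h * I : ℂ).re = x; simp) (by show (x + h * I : ℂ).im = h; simp)
        have h8 := hcge _ h7
        have h9 := hnorm ⟨x + h * I, hpos⟩
        have h10 : (⟨x + h * I, hpos⟩ : ℍ).im = h := by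
          show (x + h * I : ℂ).im = h; simp
        rw [h10] at h9
        show b * c ≤ ‖ws N (dws N g) (x + h * I)‖ * h
        have h11 : ‖ws N (dws N g) (x + h * I)‖ * h = b * ∏ i, (vv i ⟨x + h * I, hpos⟩) ^ (α i) := h9
        rw [h11]
        gcongr
    have h7 := (measureReal_mono h6).trans (measureReal_union_le (μ := mu N) _ _)
    rw [h5] at h7
    linarith

lemma mu_deep_le {N : ℕ} (hN : 0 < N) {h K : ℝ} (hh : 0 < h) (hh1 : h ≤ 1) (hK : 1 ≤ K) :
    (mu N).real (deep N h K) ≤ 3 / K := by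
  have hN' : (0 : ℝ) < N := by exact_mod_cast hN
  have hK0 : 0 < K := by linarith
  have h1 := volume_deep_le hN hh hh1 hK
  have h2 : (mu N).real (deep N h K) ≤ (2 * (N : ℝ))⁻¹ * volume.real (deep N h K) := by
    rw [mu, measureReal_ennreal_smul_apply, ENNReal.toReal_inv,
      ENNReal.toReal_ofReal (by linarith)]
    refine mul_le_mul_of_nonneg_left ?_ (by positivity)
    refine ENNReal.toReal_mono (lt_of_le_of_lt h1 ENNReal.ofReal_lt_top).ne
      (Measure.restrict_apply_le _ _)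
  have h3 : volume.real (deep N h K) ≤ 6 * N / K :=
    ENNReal.toReal_le_of_le_ofReal (by positivity) h1
  refine h2.trans ?_
  calc (2 * (N : ℝ))⁻¹ * volume.real (deep N h K) ≤ (2 * (N : ℝ))⁻¹ * (6 * N / K) := by gcongr
    _ = 3 / K := by field_simp; ring

/-- lower bound for the mean square from a lower bound on the thick part -/
lemma Q_lower_of_thick' {N : ℕ} (hN : 0 < N) {h : ℝ} (hh : 0 < h) (hh1 : h ≤ 1) {g : ℕ → ℂ}
    (hg : IsWS g) {c1 : ℝ} (hc1 : 0 ≤ c1)
    (hlow : ∀ z : ℍ, (∀ γ : SL(2, ℤ), (γ • z).im ≤ 6) → z.im = h → c1 ≤ ‖ws N g z‖ * h) :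
    c1 ^ 2 * (1 / 2) / h ^ 2 ≤ Q N g h := by
  have hN' : (0 : ℝ) < N := by exact_mod_cast hN
  have hpr := mu_prob hN'
  set D : Set ℝ := {x : ℝ | c1 ≤ ‖ws N g (x + h * I)‖ * h} with hD
  have hcont := continuous_ws hN' hh hg
  have hDm : MeasurableSet D :=
    measurableSet_le measurable_const (hcont.norm.mul continuous_const).measurable
  refine Q_lower_of_thick hN' hh hg hc1 hDm ?_ (fun x hx => hx)
  have h4 : (mu N).real (deep N h 6) ≤ 1 / 2 :=
    (mu_deep_le hN hh hh1 (by norm_num)).trans (by norm_num)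
  have h5 : (mu N).real (Ioc 0 (2 * (N : ℝ))) = 1 := by
    rw [mu_real_apply hN' measurableSet_Ioc, inter_self, measureReal_def, Real.volume_Ioc,
      ENNReal.toReal_ofReal (by linarith), sub_zero]
    field_simp
  have h6 : Ioc 0 (2 * (N : ℝ)) ⊆ D ∪ deep N h 6 := by
    intro x hx
    by_cases hxd : x ∈ deep N h 6
    · exact Or.inr hxd
    · left
      have hpos : 0 < (x + h * I : ℂ).im := by simpa using hh
      have h7 := im_smul_le_of_not_deep hx.1.le hx.2 hxd ⟨x + h * I, hpos⟩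
        (by show (x + h * I : ℂ).re = x; simp) (by show (x + h * I : ℂ).im = h; simp)
      exact hlow ⟨x + h * I, hpos⟩ h7 (by show (x + h * I : ℂ).im = h; simp)
  have h7 := (measureReal_mono h6).trans (measureReal_union_le (μ := mu N) _ _)
  rw [h5] at h7
  linarith

end GP
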