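import Pool.Agent.GP.Blo
import Pool.Agent.GP.Cusp
import Pool.Agent.GP.KeyE

/-! Module KEY: many cusps reduce a given large element (section 3.5). -/

set_option autoImplicit false

namespace Pool.Agent.GP

open Complex MatrixGroups UpperHalfPlane MeasureTheory

noncomputable section

/-- the coefficients of `F_t / beta_t` -/
def gt (p j k t : ℕ) (ν : ℕ) : ℂ :=
  fc p (at' p j t) (at' p k t) ν / bet p (at' p j t) (at' p k t)

lemma wn_real {p : ℕ} (hp : 0 < p) {r : ℝ} (h0 : 0 < r) (h1 : r < 1) :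
    ∃ τ : ℂ, 0 < τ.im ∧ wn p τ = r := by
  refine ⟨Complex.I * ((-(Real.log r) * p / Real.pi : ℝ) : ℂ), ?_, ?_⟩
  · have hlog : Real.log r < 0 := Real.log_neg h0 h1
    have hpi := Real.pi_pos
    have hp' : (0 : ℝ) < p := by exact_mod_cast hp
    rw [Complex.mul_im]
    simp only [Complex.I_re, Complex.ofReal_im, zero_mul, Complex.I_im, Complex.ofReal_re, one_mul,
      zero_add]
    have : 0 < -(Real.log r) * p := by nlinarith
    positivity
  · have hp' : (p : ℂ) ≠ 0 := by exact_mod_cast hp.ne'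
    have hpi : (Real.pi : ℂ) ≠ 0 := by exact_mod_cast Real.pi_ne_zero
    rw [wn]
    have e : (Real.pi : ℂ) * Complex.I * (Complex.I * ((-(Real.log r) * p / Real.pi : ℝ) : ℂ)) / p =
        ((Real.log r : ℝ) : ℂ) := by
      push_cast
      field_simp
      rw [Complex.I_sq]
      ring
    rw [e, ← Complex.ofReal_exp, Real.exp_log h0]

lemma isWS_gt {p j k : ℕ} (hD : Dat p j k) {t : ℕ} (ht : t ∈ Un p) :
    _root_.GP.IsWS (gt p j k t) := by
  have hA := hD.adm ht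
  refine ⟨?_, ?_⟩
  · rw [gt, fc_eq_zero, zero_div]
    rw [Nat.zero_mod]
    exact hA.a0.ne
  · intro r h0 h1
    have h2 := Fw_summable hA (w := (r : ℂ)) (by
      rw [Complex.norm_real, Real.norm_of_nonneg h0.le]; exact h1)
    refine (h2.mul_right (‖bet p (at' p j t) (at' p k t)‖⁻¹)).congr ?_
    intro ν
    rw [gt, norm_div, norm_mul, norm_pow, Complex.norm_real, Real.norm_of_nonneg h0.le]
    ring

lemma ws_gt {p j k : ℕ} (t : ℕ) (z : ℂ) :
    _root_.GP.ws p (gt p j k t) z = F p (at' p j t) (at' p k t) z /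
      bet p (at' p j t) (at' p k t) := by
  rw [_root_.GP.ws, F, Fw, ← tsum_div_const]
  congr 1
  ext ν
  rw [gt, wn, ← Complex.exp_nat_mul]
  have e : (Real.pi : ℂ) * Complex.I * ν * z / ((p : ℝ) : ℂ) =
      ν * (Real.pi * Complex.I * z / p) := by
    push_cast; ring
  rw [e]
  ring

lemma ws_dws_gt {p j k : ℕ} (hD : Dat p j k) {t : ℕ} (ht : t ∈ Un p) {z : ℂ} (hz : 0 < z.im) :
    _root_.GP.ws p (_root_.GP.dws p (gt p j k t)) z = gd p (at' p j t) (at' p k t) z /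
      bet p (at' p j t) (at' p k t) := by
  have hA := hD.adm ht
  have hp : (0 : ℝ) < p := by
    have := hD.p3
    have : 0 < p := by omega
    exact_mod_cast this
  symm
  refine _root_.GP.deriv_of_eq hp (isWS_gt hD ht)
    (F := fun z => F p (at' p j t) (at' p k t) z / bet p (at' p j t) (at' p k t))
    (F' := fun z => gd p (at' p j t) (at' p k t) z / bet p (at' p j t) (at' p k t)) ?_ ?_ hz
  · intro z _
    exact (ws_gt t z).symm
  · intro z hz
    exact (F_hasDerivAt hA hz).div_const _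

/-- the group elements with a positive denominator, with their automorphy data -/
def KG (p j k : ℕ) : Type :=
  {y : SL(2, ℤ) × ℕ × (Fin p.totient → ℤ) // y.1 ∈ Gam ∧ 0 < y.1 1 0 ∧ Coc p j k y.1 y.2.1 y.2.2}

lemma GamPM_le_Gam : _root_.GP.GamPM ≤ Gam := by
  unfold _root_.GP.GamPM Gam
  rw [Subgroup.closure_le]
  intro x hx
  simp only [Set.mem_insert_iff, Set.mem_singleton_iff] at hx
  refine Subgroup.subset_closure ?_
  simp only [Set.mem_insert_iff, Set.mem_singleton_iff]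
  rcases hx with h | h | h
  · left; exact h
  · right; left
    rw [h]
    decide
  · right; right; exact h

theorem key {p j k : ℕ} (hD : Dat p j k) : ∃ A c ρ0 : ℝ, 0 < A ∧ 0 < c ∧ 1 ≤ ρ0 ∧
    ∀ ρ : ℝ, ρ0 ≤ ρ → ∀ us : Fin p.totient → ℤ, A * ρ ≤ nrm p us →
    ∃ CC : Finset (ℤ × ℤ), (∀ x ∈ CC, IsCoprime x.1 x.2 ∧ 2 ≤ x.2 ∧ 0 < x.1 ∧
        x.1 < 2 * p * x.2 ∧ 4 * (x.2 : ℝ) ^ 2 * Real.exp (-ρ) ≤ 1 ∧
        ∃ γ ∈ Gam, γ 0 0 = x.1 ∧ γ 1 0 = x.2 ∧ ∃ (κ : ℕ) (u : Fin p.totient → ℤ),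
          Coc p j k γ κ u ∧ nrm p (us + u) < nrm p us) ∧
      c * ρ ≤ ∑ x ∈ CC, 1 / (x.2 : ℝ) ^ 2 := by
  classical
  have hp0 : 0 < p := by have := hD.p3; omega
  have hpR : (0 : ℝ) < p := by exact_mod_cast hp0
  have hPU : ∀ t : Phi p j k, (t : ℕ) ∈ Un p := fun t => (Finset.mem_filter.1 t.2).1
  have hPl : ∀ t : Phi p j k, at' p j t + at' p k t < p := fun t => (Finset.mem_filter.1 t.2).2
  -- the index set is not empty
  have hne : Nonempty (Phi p j k) := by
    have h1 : 1 ∈ Un p := mem_Un.2 ⟨by have := hD.p3; omega, Nat.coprime_one_right p⟩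
    by_cases h : 1 ∈ Phi p j k
    · exact ⟨⟨1, h⟩⟩
    · have h2 : p - 1 ∈ Un p := by
        refine mem_Un.2 ⟨by omega, ?_⟩
        have := (Nat.coprime_self_sub_right (show 1 ≤ p by omega)).2 (Nat.coprime_one_right p)
        exact this
      have h3 := Phi_neg hD h2
      have h4 : p - (p - 1) = 1 := by omega
      rw [h4] at h3
      exact ⟨⟨p - 1, h3.2 h⟩⟩
  have hbet : ∀ t : Phi p j k, bet p (at' p j t) (at' p k t) ≠ 0 :=
    fun t => bet_ne_zero (hD.adm (hPU t))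
  -- constants
  have hBl : ∀ t : Phi p j k, ∃ C : ℝ, 0 < C ∧ _root_.GP.Bloch p (gt p j k t) C := by
    intro t
    obtain ⟨C, hC, h⟩ := gd_le (hD.adm (hPU t)) (hPl t)
    refine ⟨C / ‖bet p (at' p j t) (at' p k t)‖, div_pos hC (norm_pos_iff.2 (hbet t)), ?_⟩
    intro z hz
    rw [ws_dws_gt hD (hPU t) hz, norm_div, div_mul_eq_mul_div]
    exact div_le_div_of_nonneg_right (h z hz) (norm_nonneg _)
  choose C₀ hC₀ hBl using hBl
  have hLo : ∀ t : Phi p j k, ∃ c : ℝ, 0 < c ∧ ∀ h : ℝ, 0 < h → h ≤ 1 →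
      c / h ^ 2 ≤ _root_.GP.Q p (_root_.GP.dws p (gt p j k t)) h := by
    intro t
    obtain ⟨c, hc, hge⟩ := gd_ge (hD.adm (hPU t)) 6
    have hb := norm_pos_iff.2 (hbet t)
    refine ⟨(c / ‖bet p (at' p j t) (at' p k t)‖) ^ 2 * (1 / 2), by positivity, ?_⟩
    intro h hh hh1
    refine _root_.GP.Q_lower_of_thick' hp0 hh hh1 (_root_.GP.isWS_dws (isWS_gt hD (hPU t)))
      (by positivity) ?_
    intro z hz him
    rw [ws_dws_gt hD (hPU t) z.im_pos, norm_div, div_mul_eq_mul_div, ← him]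
    exact div_le_div_of_nonneg_right (hge z hz) (norm_nonneg _)
  choose c₀ hc₀ hLo using hLo
  obtain ⟨C, hC, hCle⟩ : ∃ C : ℝ, 0 < C ∧ ∀ t, C₀ t ≤ C := by
    obtain ⟨t0⟩ := hne
    refine ⟨∑ t, C₀ t, Finset.sum_pos (fun t _ => hC₀ t) ⟨t0, Finset.mem_univ _⟩, fun t => ?_⟩
    exact Finset.single_le_sum (fun t _ => (hC₀ t).le) (Finset.mem_univ t)
  obtain ⟨c₁, hc₁, hcle⟩ : ∃ c : ℝ, 0 < c ∧ ∀ t, c ≤ c₀ t := by
    obtain ⟨t1, -, ht1⟩ := Finset.exists_min_image Finset.univ c₀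
      (by obtain ⟨t0⟩ := hne; exact ⟨t0, Finset.mem_univ _⟩)
    exact ⟨c₀ t1, hc₀ t1, fun t => ht1 t (Finset.mem_univ t)⟩
  obtain ⟨A, hA, cs, hcs, ρ₀, hρ₀, hkey⟩ := _root_.GP.key_abs (ι := Phi p j k) hp0
    (Γ := KG p j k) (fun y => y.1.1 0 0) (fun y => (y.1.1 1 0).toNat)
    (fun y t => sg p t y.1.2.2) (g := fun t => gt p j k t) (fun t => isWS_gt hD (hPU t))
    (by
      intro t t' n h1 h2
      have h3 : n % p = at' p j t := by
        by_contra hcon; exact h1 (by rw [gt, fc_eq_zero hcon, zero_div])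
      have h4 : n % p = at' p j t' := by
        by_contra hcon; exact h2 (by rw [gt, fc_eq_zero hcon, zero_div])
      exact Subtype.ext (at_inj hD (hPU t) (hPU t') (h3.symm.trans h4)))
    hC (fun t z hz => (hBl t z hz).trans (hCle t)) hc₁ one_pos
    (by
      intro t h hh hh1
      refine le_trans ?_ (hLo t h hh hh1)
      have := hcle t
      gcongr)
    (by
      rintro ⟨⟨γ, κ, u⟩, h1, h2, h3⟩ m
      have hmul := _root_.GP.T_zpow_mul_col γ (2 * (p : ℤ) * m)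
      have hmem : ModularGroup.T ^ (2 * (p : ℤ) * m) * γ ∈ Gam := by
        rw [mul_assoc]
        exact Gam.mul_mem (T2_mem _) h1
      have hc : (γ 1 0).toNat = γ 1 0 := Int.toNat_of_nonneg h2.le
      refine ⟨⟨⟨ModularGroup.T ^ (2 * (p : ℤ) * m) * γ, κ, u⟩, hmem, ?_, Coc_T hD h3 m⟩, ?_, ?_,
        rfl⟩
      · show 0 < (ModularGroup.T ^ (2 * (p : ℤ) * m) * γ) 1 0
        rw [hmul.2]; exact h2
      · show (ModularGroup.T ^ (2 * (p : ℤ) * m) * γ) 0 0 = γ 0 0 + 2 * p * (γ 1 0).toNat * m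
        rw [hmul.1, hc]; ring
      · show ((ModularGroup.T ^ (2 * (p : ℤ) * m) * γ) 1 0).toNat = (γ 1 0).toNat
        rw [hmul.2])
    (by
      intro δ hδ
      obtain ⟨K₁, hK₁, hK₁δ⟩ : ∃ K₁ : ℝ, 1 ≤ K₁ ∧ 3 / K₁ ≤ δ := by
        refine ⟨max 1 (3 / δ), le_max_left _ _, ?_⟩
        have h1 : 0 < max 1 (3 / δ) := lt_of_lt_of_le one_pos (le_max_left _ _)
        rw [div_le_iff₀ h1]
        have h2 : 3 / δ ≤ max 1 (3 / δ) := le_max_right _ _
        rw [div_le_iff₀ hδ] at h2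
        linarith
      have hK0 : 0 < K₁ := by linarith
      refine ⟨2 * K₁, by linarith,
        ∑ t : Phi p j k, ∑' n, ‖_root_.GP.co p (gt p j k t) (1 / (4 * K₁)) n‖,
        min 1 (1 / (4 * K₁)), lt_min one_pos (by positivity), ?_⟩
      intro h hh hh1
      have hle1 : h ≤ 1 := (hh1.trans_le (min_le_left _ _)).le
      have hsmall : h < 1 / (4 * K₁) := hh1.trans_le (min_le_right _ _)
      refine ⟨_root_.GP.deep p h K₁, (_root_.GP.mu_deep_le hp0 hh hle1 hK₁).trans hK₁δ, ?_⟩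
      intro x hx0 hx1 hx
      set z : ℍ := ⟨x + h * Complex.I, by simpa using hh⟩ with hz
      have hzre : z.re = x := by
        show (x + h * Complex.I : ℂ).re = x
        simp
      have hzim : z.im = h := by
        show (x + h * Complex.I : ℂ).im = h
        simp
      have h1 := _root_.GP.im_smul_le_of_not_deep hx0.le hx1 hx z hzre hzim
      obtain ⟨γ₀, hγ₀, z', e₀, -, h2, -⟩ := _root_.GP.thick_point hK₁ z h1
      obtain ⟨h3, -, -⟩ := _root_.GP.cusp_facts e₀ hK₁ h2 (by rw [hzim]; exact hsmall)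
      -- make the denominator positive
      obtain ⟨γ, hγ, e, hpos⟩ : ∃ γ ∈ Gam, z = γ • z' ∧ 0 < γ 1 0 := by
        have hγ₀' : γ₀ ∈ Gam := GamPM_le_Gam (_root_.GP.Gam_le hγ₀)
        rcases lt_or_gt_of_ne h3 with hneg | hpos
        · refine ⟨-γ₀, ?_, ?_, ?_⟩
          · have : -γ₀ = (-1) * γ₀ := by simp
            rw [this]
            exact Gam.mul_mem (Subgroup.subset_closure (by simp)) hγ₀'
          · rw [e₀]
            exact (ModularGroup.SL_neg_smul γ₀ z').symm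
          · show 0 < (-γ₀) 1 0
            have : (-γ₀) 1 0 = -(γ₀ 1 0) := by
              simp [Matrix.SpecialLinearGroup.coe_neg]
            rw [this]; omega
        · exact ⟨γ₀, hγ₀', e₀, hpos⟩
      obtain ⟨h3, h4, h5⟩ := _root_.GP.cusp_facts e hK₁ h2 (by rw [hzim]; exact hsmall)
      rw [hzre, hzim] at h4
      rw [hzim] at h5
      obtain ⟨κ, u, hcoc⟩ := exists_Coc hD hγ
      have hcN : ((γ 1 0).toNat : ℤ) = γ 1 0 := Int.toNat_of_nonneg hpos.le
      have hcR : ((γ 1 0).toNat : ℝ) = (γ 1 0 : ℝ) := by exact_mod_cast hcN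
      have heven := (Gam_entries hγ).2.2.1
      refine ⟨⟨⟨γ, κ, u⟩, hγ, hpos, hcoc⟩,
        fun t => zet p ^ ((t : ℕ) * κ) * _root_.GP.ws p (gt p j k t) z', ?_, ?_, ?_, ?_, ?_, ?_⟩
      · intro t
        have hzet : ‖zet p‖ = 1 := by
          rw [zet]
          have : (2 * Real.pi * Complex.I / p : ℂ) = ((2 * Real.pi / p : ℝ) : ℂ) * Complex.I := by
            push_cast; ring
          rw [this, Complex.norm_exp_ofReal_mul_I]
        rw [norm_mul, norm_pow, hzet, one_pow, one_mul]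
        refine (_root_.GP.norm_ws_le_of_im hpR (isWS_gt hD (hPU t)) (by positivity) h2).trans ?_
        exact Finset.single_le_sum
          (f := fun t : Phi p j k => ∑' n, ‖_root_.GP.co p (gt p j k t) (1 / (4 * K₁)) n‖)
          (fun t _ => tsum_nonneg fun n => norm_nonneg _) (Finset.mem_univ t)
      · intro t
        have hz2 : ((z : ℍ) : ℂ) = x + h * Complex.I := rfl
        have hb := hbet t
        show _root_.GP.ws p (gt p j k t) (x + h * Complex.I) =
          zet p ^ ((t : ℕ) * κ) * _root_.GP.ws p (gt p j k t) z' + sg p t u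
        rw [← hz2, e, ws_gt, ws_gt, hcoc z' t (hPU t)]
        field_simp
      · show 2 ≤ (γ 1 0).toNat
        obtain ⟨m, hm⟩ := heven
        omega
      · show Int.gcd (γ 0 0) ((γ 1 0).toNat : ℤ) = 1
        rw [hcN]
        exact Int.isCoprime_iff_gcd_eq_one.1 (_root_.GP.col_coprime γ)
      · show (((γ 1 0).toNat : ℕ) : ℝ) ^ 2 ≤ _
        rw [le_div_iff₀ hh, hcR]
        refine h5.trans_eq (by ring)
      · show |x - (γ 0 0 : ℝ) / (((γ 1 0).toNat : ℕ) : ℝ)| ≤ _ / (((γ 1 0).toNat : ℕ) : ℝ)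
        rw [hcR]
        have hposR : (0 : ℝ) < (γ 1 0 : ℝ) := by exact_mod_cast hpos
        rw [abs_of_pos hposR] at h4
        refine h4.trans_eq ?_
        congr 2
        ring)
  refine ⟨2 * A, cs, max 1 ρ₀, by positivity, hcs, le_max_left _ _, ?_⟩
  intro ρ hρ us hus
  have hρ' : ρ₀ ≤ ρ := (le_max_right _ _).trans hρ
  have hsumP : ∀ f : ℕ → ℝ, ∑ t ∈ Phi p j k, f t = ∑ t : Phi p j k, f t := by
    intro f
    exact (Finset.sum_coe_sort (Phi p j k) f).symm
  have hv : A * ρ ≤ ∑ t : Phi p j k, ‖sg p t us‖ ^ 2 := by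
    rw [nrm_eq hD, hsumP (fun t => ‖sg p t us‖ ^ 2)] at hus
    linarith
  obtain ⟨CC, h1, h2⟩ := hkey ρ hρ' (fun t => sg p t us) hv
  refine ⟨CC.image (fun y => (y.1, (y.2 : ℤ))), ?_, ?_⟩
  · intro x hx
    obtain ⟨y, hy, rfl⟩ := Finset.mem_image.1 hx
    obtain ⟨h3, h4, h5, h6, h7, ⟨⟨γ, κ, u⟩, hγ, hpos, hcoc⟩, h8, h9, h10⟩ := h1 y hy
    have h8' : γ 0 0 = y.1 := h8
    have h9' : (γ 1 0).toNat = y.2 := h9
    have h5' : (2 : ℤ) ≤ (y.2 : ℤ) := by exact_mod_cast h5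
    refine ⟨Int.isCoprime_iff_gcd_eq_one.2 h6, h5', h3, h4, ?_, γ, hγ, h8', ?_,
      κ, u, hcoc, ?_⟩
    · rw [Real.exp_neg, ← div_eq_mul_inv, div_le_one (Real.exp_pos _)]
      push_cast
      exact h7
    · rw [← h9']
      exact (Int.toNat_of_nonneg hpos.le).symm
    · rw [nrm_eq hD, nrm_eq hD, hsumP (fun t => ‖sg p t (us + u)‖ ^ 2),
        hsumP (fun t => ‖sg p t us‖ ^ 2)]
      have h11 : ∑ t : Phi p j k, ‖sg p t us + sg p t u‖ ^ 2 <
          ∑ t : Phi p j k, ‖sg p t us‖ ^ 2 := h10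
      simp only [sg_add]
      linarith
  · rw [Finset.sum_image]
    · refine h2.trans_eq (Finset.sum_congr rfl fun y _ => ?_)
      rw [Int.cast_natCast]
    · intro y _ y' _ h
      have h3 := Prod.ext_iff.1 h
      refine Prod.ext h3.1 ?_
      have h4 : (y.2 : ℤ) = (y'.2 : ℤ) := h3.2
      exact_mod_cast h4

end

end Pool.Agent.GP
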