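import Pool.Agent.GP.MomG

/-!
# Counting good cusps
-/

namespace GP

open Complex MeasureTheory Set

/-- the interval of radius `r / c` around `a / c` -/
def near (r : ℝ) (a : ℤ) (c : ℕ) : Set ℝ := Icc ((a : ℝ) / c - r / c) ((a : ℝ) / c + r / c)

lemma measurableSet_near (r : ℝ) (a : ℤ) (c : ℕ) : MeasurableSet (near r a c) := measurableSet_Icc

lemma volume_near {r : ℝ} (hr : 0 ≤ r) (a : ℤ) (c : ℕ) :
    volume.real (near r a c) = 2 * (r / c) := by
  rw [near, measureReal_def, Real.volume_Icc, ENNReal.toReal_ofReal]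
  · ring
  · have : 0 ≤ r / c := by positivity
    linarith

/-- the pairs in a box -/
noncomputable def box (p : ℕ) (M : ℕ) : Finset (ℤ × ℕ) :=
  (Finset.Icc (0 : ℤ) (2 * p * M)) ×ˢ (Finset.Icc 1 M)

lemma geom_bound (S : Finset ℕ) {y : ℝ} (hy : 0 < y) (hS : ∀ s ∈ S, y ≤ Real.exp s) :
    ∑ s ∈ S, Real.exp (-(s / 2 : ℝ)) ≤ 3 / Real.sqrt y := by
  rcases S.eq_empty_or_nonempty with h | h
  · subst h; simp; positivity
  · set m := S.min' h with hm
    have hq0 : 0 ≤ Real.exp (-(1 / 2 : ℝ)) := (Real.exp_pos _).le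
    have hq1 : Real.exp (-(1 / 2 : ℝ)) < 1 := by rw [Real.exp_lt_one_iff]; norm_num
    have hq2 : Real.exp (-(1 / 2 : ℝ)) ≤ 2 / 3 := by
      have h1 : (3 : ℝ) / 2 ≤ Real.exp (1 / 2) := by
        have := Real.add_one_le_exp (1 / 2 : ℝ); linarith
      rw [Real.exp_neg]
      have := inv_anti₀ (by norm_num : (0 : ℝ) < 3 / 2) h1
      linarith [show ((3 : ℝ) / 2)⁻¹ = 2 / 3 by norm_num]
    have e : ∀ s : ℕ, Real.exp (-(s / 2 : ℝ)) = Real.exp (-(1 / 2 : ℝ)) ^ s := by
      intro s; rw [← Real.exp_nat_mul]; congr 1; ring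
    have hsub : S ⊆ (Finset.range (S.max' h - m + 1)).image (fun i => m + i) := by
      intro s hs
      rw [Finset.mem_image]
      refine ⟨s - m, ?_, ?_⟩
      · rw [Finset.mem_range]
        have := Finset.le_max' S s hs
        omega
      · have := Finset.min'_le S s hs
        omega
    have h2 : ∑ s ∈ S, Real.exp (-(s / 2 : ℝ)) ≤
        ∑ i ∈ Finset.range (S.max' h - m + 1), Real.exp (-(1 / 2 : ℝ)) ^ (m + i) := by
      simp only [e]
      refine (Finset.sum_le_sum_of_subset_of_nonneg hsub fun s _ _ => by positivity).trans_eq ?_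
      rw [Finset.sum_image]
      intro i _ j _ hij
      simpa using hij
    have h3 : ∑ i ∈ Finset.range (S.max' h - m + 1), Real.exp (-(1 / 2 : ℝ)) ^ (m + i) ≤
        Real.exp (-(1 / 2 : ℝ)) ^ m * 3 := by
      simp only [pow_add]
      rw [← Finset.mul_sum]
      refine mul_le_mul_of_nonneg_left ?_ (by positivity)
      have h4 := (summable_geometric_of_lt_one hq0 hq1).sum_le_tsum
        (Finset.range (S.max' h - m + 1)) (fun i _ => by positivity)
      rw [tsum_geometric_of_lt_one hq0 hq1] at h4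
      refine h4.trans ?_
      have h5 : (1 : ℝ) / 3 ≤ 1 - Real.exp (-(1 / 2 : ℝ)) := by linarith
      have := inv_anti₀ (by norm_num : (0 : ℝ) < 1 / 3) h5
      linarith [show ((1 : ℝ) / 3)⁻¹ = 3 by norm_num]
    have h6 : Real.exp (-(1 / 2 : ℝ)) ^ m ≤ 1 / Real.sqrt y := by
      have h7 := hS m (S.min'_mem h)
      rw [← e, Real.exp_neg, one_div]
      refine inv_anti₀ (Real.sqrt_pos.2 hy) ?_
      rw [Real.sqrt_le_left (Real.exp_pos _).le, ← Real.exp_nat_mul]
      refine h7.trans_eq ?_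
      congr 1
      push_cast
      ring
    calc ∑ s ∈ S, Real.exp (-(s / 2 : ℝ)) ≤ Real.exp (-(1 / 2 : ℝ)) ^ m * 3 := h2.trans h3
      _ ≤ 1 / Real.sqrt y * 3 := by gcongr
      _ = 3 / Real.sqrt y := by ring

/-- Covering lemma: if for every integer `s` of a finite set `S` the good cusps `a / c` with
`c² ≤ 2 K e^s` cover, with radius `√(2K) e^{-s/2} / c`, a set of probability at least `q`, then the
sum of `1 / c²` over the good cusps is at least proportional to the number of elements of `S`. -/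
theorem count_cusps {p : ℕ} (hp : 0 < p) {K : ℝ} (hK : 1 ≤ K) {q : ℝ} (Good : ℤ → ℕ → Prop)
    (hcop : ∀ a c, Good a c → Int.gcd a c = 1 ∧ 2 ≤ c)
    (hper : ∀ a c (k : ℤ), Good a c → Good (a + 2 * p * c * k) c)
    {ρ : ℝ} (S : Finset ℕ) (hS : ∀ s ∈ S, 8 * K * Real.exp s ≤ Real.exp ρ)
    (hS' : ∀ s ∈ S, 2 * K ≤ Real.exp s)
    (hcov : ∀ s ∈ S, ∃ D : Set ℝ, q ≤ (mu p).real D ∧ ∀ x ∈ D, 0 < x → x ≤ 2 * p →
      ∃ a c, Good a c ∧ (c : ℝ) ^ 2 ≤ 2 * K * Real.exp s ∧
        |x - a / c| ≤ Real.sqrt (2 * K) * Real.exp (-(s / 2 : ℝ)) / c) :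
    ∃ CC : Finset (ℤ × ℕ), (∀ y ∈ CC, Good y.1 y.2 ∧ 0 < y.1 ∧ y.1 < 2 * p * y.2 ∧
      4 * (y.2 : ℝ) ^ 2 ≤ Real.exp ρ) ∧
      q * p * S.card / (18 * K) ≤ ∑ y ∈ CC, 1 / (y.2 : ℝ) ^ 2 := by
  classical
  have hp' : (0 : ℝ) < p := by exact_mod_cast hp
  set M : ℕ := ⌊Real.exp ρ⌋₊ with hM
  set CC : Finset (ℤ × ℕ) := (box p M).filter
    (fun y => Good y.1 y.2 ∧ 0 < y.1 ∧ y.1 < 2 * p * y.2 ∧ 4 * (y.2 : ℝ) ^ 2 ≤ Real.exp ρ)
    with hCC
  refine ⟨CC, fun y hy => (Finset.mem_filter.1 hy).2, ?_⟩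
  -- one value of s
  have hone : ∀ s ∈ S, q * (2 * p) ≤ ∑ y ∈ CC.filter (fun y => (y.2 : ℝ) ^ 2 ≤ 2 * K * Real.exp s),
      6 * (Real.sqrt (2 * K) * Real.exp (-(s / 2 : ℝ)) / y.2) := by
    intro s hs
    obtain ⟨D, hqD, hD⟩ := hcov s hs
    set r : ℝ := Real.sqrt (2 * K) * Real.exp (-(s / 2 : ℝ)) with hr
    have hr0 : 0 ≤ r := by positivity
    have hr1 : r ≤ 1 := by
      have h1 := hS' s hs
      have h2 : Real.sqrt (2 * K) ≤ Real.exp (s / 2 : ℝ) := by
        rw [Real.sqrt_le_left (Real.exp_pos _).le, ← Real.exp_nat_mul]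
        refine h1.trans_eq ?_
        congr 1
        push_cast
        ring
      calc r ≤ Real.exp (s / 2 : ℝ) * Real.exp (-(s / 2 : ℝ)) := by rw [hr]; gcongr
        _ = 1 := by rw [← Real.exp_add]; simp
    set CS := CC.filter (fun y => (y.2 : ℝ) ^ 2 ≤ 2 * K * Real.exp s) with hCS
    -- the covering
    have hcover : D ∩ Ioc 0 (2 * (p : ℝ)) ⊆ ⋃ y ∈ CS, (near r y.1 y.2 ∪
        near r (y.1 + 2 * p * y.2) y.2 ∪ near r (y.1 - 2 * p * y.2) y.2) := by
      intro x hx
      obtain ⟨a, c, hG, hc, hxa⟩ := hD x hx.1 hx.2.1 hx.2.2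
      obtain ⟨hg1, hc2⟩ := hcop a c hG
      have hc0 : (0 : ℝ) < c := by
        have : (2 : ℝ) ≤ c := by exact_mod_cast hc2
        linarith
      have hc2' : (2 : ℝ) ≤ c := by exact_mod_cast hc2
      -- reduce a modulo 2pc
      set n : ℤ := 2 * p * c with hn
      have hn0 : 0 < n := by rw [hn]; positivity
      set b : ℤ := a % n with hb
      set k : ℤ := a / n with hk
      have hab : a = b + n * k := (Int.emod_add_mul_ediv a n).symm
      have hb0 : 0 ≤ b := Int.emod_nonneg _ hn0.ne'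
      have hb1 : b < n := Int.emod_lt_of_pos _ hn0
      have hGb : Good b c := by
        have := hper a c (-k) hG
        have e : a + 2 * p * c * (-k) = b := by rw [hab, hn]; ring
        rwa [e] at this
      have hbne : b ≠ 0 := by
        intro h0
        have := (hcop b c hGb).1
        rw [h0] at this
        simp at this
        omega
      have hbpos : 0 < b := lt_of_le_of_ne hb0 (Ne.symm hbne)
      have hcexp : 4 * (c : ℝ) ^ 2 ≤ Real.exp ρ := by
        have := hS s hs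
        linarith
      have hcM : c ≤ M := by
        rw [hM]
        refine Nat.le_floor ?_
        nlinarith
      have hmem : (b, c) ∈ CS := by
        rw [hCS, Finset.mem_filter, hCC, Finset.mem_filter, box, Finset.mem_product,
          Finset.mem_Icc, Finset.mem_Icc]
        refine ⟨⟨⟨⟨hb0, ?_⟩, by omega, hcM⟩, hGb, hbpos, hb1, hcexp⟩, hc⟩
        have h1 : n ≤ 2 * p * M := by
          rw [hn]
          have : (c : ℤ) ≤ M := by exact_mod_cast hcM
          gcongr
        exact hb1.le.trans h1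
      -- bound for k
      have hac : (a : ℝ) / c = b / c + 2 * p * k := by
        rw [hab, hn]; push_cast; field_simp
      have hrc : r / c ≤ 1 / 2 := by
        rw [div_le_iff₀ hc0]; linarith
      have hbc0 : 0 ≤ (b : ℝ) / c := by positivity
      have hbc1 : (b : ℝ) / c < 2 * p := by
        rw [div_lt_iff₀ hc0]
        have : (b : ℝ) < n := by exact_mod_cast hb1
        rw [hn] at this
        push_cast at this
        exact this
      have hxa' := abs_le.1 hxa
      have hp1 : (1 : ℝ) ≤ p := by exact_mod_cast hp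
      have hk1 : (-2 : ℝ) < k := by
        by_contra hcon
        have hcon' := not_lt.1 hcon
        have : 2 * (p : ℝ) * k ≤ 2 * p * (-2) := by gcongr
        have h3 := hx.2.1
        linarith [hxa'.2]
      have hk2 : (k : ℝ) < 2 := by
        by_contra hcon
        have hcon' := not_lt.1 hcon
        have : 2 * (p : ℝ) * 2 ≤ 2 * p * k := by gcongr
        have h3 := hx.2.2
        linarith [hxa'.1]
      have hk1' : -2 < k := by exact_mod_cast hk1
      have hk2' : k < 2 := by exact_mod_cast hk2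
      rw [mem_iUnion₂]
      refine ⟨(b, c), hmem, ?_⟩
      have hnear : ∀ b' : ℤ, (b' : ℝ) / c = a / c → x ∈ near r b' c := by
        intro b' hb'
        rw [near, hb', mem_Icc]
        constructor <;> linarith [hxa'.1, hxa'.2]
      have hk3 : k = -1 ∨ k = 0 ∨ k = 1 := by omega
      rcases hk3 with h | h | h
      · right
        refine hnear _ ?_
        rw [hac, h]; push_cast; field_simp; try ring
      · left; left
        refine hnear _ ?_
        rw [hac, h]; push_cast; ring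
      · left; right
        refine hnear _ ?_
        rw [hac, h]; push_cast; field_simp; try ring
    -- measures
    have hfin : volume (⋃ y ∈ CS, (near r y.1 y.2 ∪
        near r (y.1 + 2 * p * y.2) y.2 ∪ near r (y.1 - 2 * p * y.2) y.2)) ≠ ⊤ := by
      refine (lt_of_le_of_lt (measure_biUnion_finset_le _ _) ?_).ne
      refine ENNReal.sum_lt_top.2 fun y _ => ?_
      refine lt_of_le_of_lt (measure_union_le _ _) (ENNReal.add_lt_top.2
        ⟨lt_of_le_of_lt (measure_union_le _ _) (ENNReal.add_lt_top.2 ⟨?_, ?_⟩), ?_⟩) <;>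
      · rw [near, Real.volume_Icc]; exact ENNReal.ofReal_lt_top
    have hvol : volume.real (D ∩ Ioc 0 (2 * (p : ℝ))) ≤ ∑ y ∈ CS, 6 * (r / y.2) := by
      refine (measureReal_mono hcover hfin).trans ?_
      refine (measureReal_biUnion_finset_le _ _).trans ?_
      refine Finset.sum_le_sum fun y _ => ?_
      refine (measureReal_union_le _ _).trans ?_
      have h1 := measureReal_union_le (μ := volume) (near r y.1 y.2)
        (near r (y.1 + 2 * p * y.2) y.2)
      rw [volume_near hr0, volume_near hr0] at h1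
      rw [volume_near hr0]
      linarith
    have hmuD : (mu p).real D ≤ (2 * (p : ℝ))⁻¹ * volume.real (D ∩ Ioc 0 (2 * (p : ℝ))) := by
      rw [mu, measureReal_ennreal_smul_apply, ENNReal.toReal_inv,
        ENNReal.toReal_ofReal (by linarith)]
      refine mul_le_mul_of_nonneg_left ?_ (by positivity)
      rw [measureReal_def, measureReal_def, Measure.restrict_apply' measurableSet_Ioc]
    have h1 : q * (2 * p) ≤ volume.real (D ∩ Ioc 0 (2 * (p : ℝ))) := by
      have h2 := hqD.trans hmuD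
      rwa [inv_mul_eq_div, le_div_iff₀ (by positivity)] at h2
    exact h1.trans hvol
  -- sum over s
  have hsum : ∑ s ∈ S, q * (2 * p) ≤ ∑ s ∈ S,
      ∑ y ∈ CC.filter (fun y => (y.2 : ℝ) ^ 2 ≤ 2 * K * Real.exp s),
        6 * (Real.sqrt (2 * K) * Real.exp (-(s / 2 : ℝ)) / y.2) :=
    Finset.sum_le_sum hone
  rw [Finset.sum_const, nsmul_eq_mul] at hsum
  have hswap : ∑ s ∈ S, ∑ y ∈ CC.filter (fun y => (y.2 : ℝ) ^ 2 ≤ 2 * K * Real.exp s),
        6 * (Real.sqrt (2 * K) * Real.exp (-(s / 2 : ℝ)) / y.2) =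
      ∑ y ∈ CC, ∑ s ∈ S.filter (fun s : ℕ => (y.2 : ℝ) ^ 2 ≤ 2 * K * Real.exp (s : ℝ)),
        6 * (Real.sqrt (2 * K) * Real.exp (-(s / 2 : ℝ)) / y.2) := by
    simp only [Finset.sum_filter]
    rw [Finset.sum_comm]
  rw [hswap] at hsum
  have hin : ∀ y ∈ CC, ∑ s ∈ S.filter (fun s : ℕ => (y.2 : ℝ) ^ 2 ≤ 2 * K * Real.exp (s : ℝ)),
        6 * (Real.sqrt (2 * K) * Real.exp (-(s / 2 : ℝ)) / y.2) ≤ 36 * K * (1 / (y.2 : ℝ) ^ 2) := by
    intro y hy
    have hG := (Finset.mem_filter.1 hy).2.1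
    have hc2 : (2 : ℝ) ≤ y.2 := by exact_mod_cast (hcop _ _ hG).2
    have hc0 : (0 : ℝ) < y.2 := by linarith
    have e : ∑ s ∈ S.filter (fun s : ℕ => (y.2 : ℝ) ^ 2 ≤ 2 * K * Real.exp (s : ℝ)),
        6 * (Real.sqrt (2 * K) * Real.exp (-(s / 2 : ℝ)) / y.2) =
        6 * Real.sqrt (2 * K) / y.2 *
          ∑ s ∈ S.filter (fun s : ℕ => (y.2 : ℝ) ^ 2 ≤ 2 * K * Real.exp (s : ℝ)),
            Real.exp (-(s / 2 : ℝ)) := by
      rw [Finset.mul_sum]
      refine Finset.sum_congr rfl fun s _ => ?_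
      ring
    rw [e]
    have h1 := geom_bound (S.filter (fun s : ℕ => (y.2 : ℝ) ^ 2 ≤ 2 * K * Real.exp (s : ℝ)))
      (y := (y.2 : ℝ) ^ 2 / (2 * K)) (by positivity) (by
        intro s hs
        have := (Finset.mem_filter.1 hs).2
        rw [div_le_iff₀ (by positivity)]
        linarith)
    have h2 : Real.sqrt ((y.2 : ℝ) ^ 2 / (2 * K)) = y.2 / Real.sqrt (2 * K) := by
      rw [Real.sqrt_div (by positivity), Real.sqrt_sq hc0.le]
    rw [h2] at h1
    have hs0 : 0 < Real.sqrt (2 * K) := Real.sqrt_pos.2 (by positivity)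
    have hss : Real.sqrt (2 * K) * Real.sqrt (2 * K) = 2 * K := Real.mul_self_sqrt (by positivity)
    calc 6 * Real.sqrt (2 * K) / y.2 *
          ∑ s ∈ S.filter (fun s : ℕ => (y.2 : ℝ) ^ 2 ≤ 2 * K * Real.exp (s : ℝ)),
            Real.exp (-(s / 2 : ℝ))
        ≤ 6 * Real.sqrt (2 * K) / y.2 * (3 / (y.2 / Real.sqrt (2 * K))) := by gcongr
      _ = 18 * (Real.sqrt (2 * K) * Real.sqrt (2 * K)) / (y.2 : ℝ) ^ 2 := by
          field_simp
          ring
      _ = 36 * K * (1 / (y.2 : ℝ) ^ 2) := by rw [hss]; ring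
  have hfin : (S.card : ℝ) * (q * (2 * p)) ≤ 36 * K * ∑ y ∈ CC, 1 / (y.2 : ℝ) ^ 2 := by
    rw [Finset.mul_sum]
    exact hsum.trans (Finset.sum_le_sum hin)
  rw [div_le_iff₀ (by positivity)]
  linarith

end GP
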