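import Pool.Agent.GP.KeyA

/-!
# The sum over good cusps is large
-/

namespace GP

open Complex MeasureTheory Set

section

variable {ι : Type*} [Fintype ι]

/-- linear algebra: adding `X` shortens the long vector `v` -/
lemma norm_drop {v G W X : ι → ℂ} {κ A₁ B s V n : ℝ} (hn : n = Fintype.card ι) (hV : 0 < V)
    (hv : ∑ t, ‖v t‖ ^ 2 = V ^ 2) (hX : ∀ t, G t = W t + X t) (hW : ∀ t, ‖W t‖ ≤ B) (hs : 0 < s)
    (hκ : 0 < κ) (hB : 0 ≤ B)
    (h1 : (∑ t, (starRingEnd ℂ) (v t / V) * G t).re ≤ -(κ * Real.sqrt s))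
    (h2 : ∑ t, ‖G t‖ ^ 2 ≤ A₁ * s) (hs1 : 2 * n * B ≤ κ * Real.sqrt s)
    (hs2 : 2 * n * B ^ 2 ≤ A₁ * s) (hVs : 3 * A₁ * Real.sqrt s < κ * V) :
    ∑ t, ‖v t + X t‖ ^ 2 < ∑ t, ‖v t‖ ^ 2 := by
  have hsq : Real.sqrt s * Real.sqrt s = s := Real.mul_self_sqrt hs.le
  have hsq0 : 0 < Real.sqrt s := Real.sqrt_pos.2 hs
  -- expansion
  have e1 : ∀ t, ‖v t + X t‖ ^ 2 = ‖v t‖ ^ 2 + 2 * ((starRingEnd ℂ) (v t) * X t).re +
      ‖X t‖ ^ 2 := by
    intro t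
    rw [← normSq_eq_norm_sq, ← normSq_eq_norm_sq, ← normSq_eq_norm_sq, normSq_add]
    have : (v t * (starRingEnd ℂ) (X t)).re = ((starRingEnd ℂ) (v t) * X t).re := by
      simp [mul_re]
    rw [this]; ring
  -- norms of e
  have he : ∀ t, ‖v t / V‖ ≤ 1 := by
    intro t
    rw [norm_div, norm_real, Real.norm_of_nonneg hV.le, div_le_one hV]
    have h3 : ‖v t‖ ^ 2 ≤ V ^ 2 := by
      rw [← hv]
      exact Finset.single_le_sum (f := fun t => ‖v t‖ ^ 2) (fun t _ => by positivity)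
        (Finset.mem_univ t)
    exact (pow_le_pow_iff_left₀ (norm_nonneg _) hV.le two_ne_zero).1 h3
  have h3 : (∑ t, (starRingEnd ℂ) (v t / V) * X t).re ≤ -(κ / 2 * Real.sqrt s) := by
    have e2 : ∑ t, (starRingEnd ℂ) (v t / V) * X t =
        ∑ t, (starRingEnd ℂ) (v t / V) * G t - ∑ t, (starRingEnd ℂ) (v t / V) * W t := by
      rw [← Finset.sum_sub_distrib]
      refine Finset.sum_congr rfl fun t _ => ?_
      rw [hX t]; ring
    have e3 : ‖∑ t, (starRingEnd ℂ) (v t / V) * W t‖ ≤ n * B := by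
      refine (norm_sum_le _ _).trans ?_
      calc ∑ t, ‖(starRingEnd ℂ) (v t / V) * W t‖ ≤ ∑ _t : ι, 1 * B := by
            refine Finset.sum_le_sum fun t _ => ?_
            rw [norm_mul, RCLike.norm_conj]
            have := he t
            have := hW t
            gcongr
        _ = n * B := by simp [hn]
    have e4 := (abs_re_le_norm (∑ t, (starRingEnd ℂ) (v t / V) * W t)).trans e3
    have e5 := (abs_le.1 e4).1
    rw [e2, sub_re]
    linarith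
  have h4 : (∑ t, (starRingEnd ℂ) (v t) * X t).re ≤ -(κ / 2 * Real.sqrt s) * V := by
    have e2 : ∑ t, (starRingEnd ℂ) (v t) * X t =
        (V : ℂ) * ∑ t, (starRingEnd ℂ) (v t / V) * X t := by
      rw [Finset.mul_sum]
      refine Finset.sum_congr rfl fun t _ => ?_
      have hV' : (V : ℂ) ≠ 0 := by exact_mod_cast hV.ne'
      rw [map_div₀, conj_ofReal]
      field_simp
    rw [e2, re_ofReal_mul, mul_comm]
    gcongr
  have h5 : ∑ t, ‖X t‖ ^ 2 ≤ 3 * A₁ * s := by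
    have e2 : ∀ t, ‖X t‖ ^ 2 ≤ 2 * ‖G t‖ ^ 2 + 2 * B ^ 2 := by
      intro t
      have e3 : X t = G t - W t := by rw [hX t]; ring
      have e4 : ‖X t‖ ≤ ‖G t‖ + B := by
        rw [e3]
        exact (norm_sub_le _ _).trans (by linarith [hW t])
      have e5 := norm_nonneg (X t)
      nlinarith [sq_nonneg (‖G t‖ - B), norm_nonneg (G t)]
    calc ∑ t, ‖X t‖ ^ 2 ≤ ∑ t, (2 * ‖G t‖ ^ 2 + 2 * B ^ 2) := Finset.sum_le_sum fun t _ => e2 t
      _ = 2 * ∑ t, ‖G t‖ ^ 2 + n * (2 * B ^ 2) := by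
          rw [Finset.sum_add_distrib, ← Finset.mul_sum]
          simp [hn]
      _ ≤ 3 * A₁ * s := by linarith
  have e6 : ∑ t, ‖v t + X t‖ ^ 2 = ∑ t, ‖v t‖ ^ 2 + 2 * (∑ t, (starRingEnd ℂ) (v t) * X t).re +
      ∑ t, ‖X t‖ ^ 2 := by
    simp only [e1]
    rw [Finset.sum_add_distrib, Finset.sum_add_distrib, ← Finset.mul_sum, re_sum]
  rw [e6]
  have h6 : 3 * A₁ * s < κ * Real.sqrt s * V := by
    calc 3 * A₁ * s = 3 * A₁ * Real.sqrt s * Real.sqrt s := by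
          rw [mul_assoc (3 * A₁), hsq]
      _ < κ * V * Real.sqrt s := by gcongr
      _ = κ * Real.sqrt s * V := by ring
  nlinarith

/-- **KEY**, abstract form. `g t` are the coefficients of `F_t / β_t`; `γ : Γ` has the cusp
`a γ / c γ` and the period vector `X γ`. -/
theorem key_abs [Nonempty ι] {N : ℕ} (hN : 0 < N) {Γ : Type*} (a : Γ → ℤ) (c : Γ → ℕ)
    (X : Γ → ι → ℂ) {g : ι → ℕ → ℂ} (hg : ∀ t, IsWS (g t))
    (hd : ∀ t t' n, g t n ≠ 0 → g t' n ≠ 0 → t = t') {C : ℝ} (hC : 0 < C)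
    (hB : ∀ t, Bloch N (g t) C) {c₁ h0 : ℝ} (hc₁ : 0 < c₁) (hh0 : 0 < h0)
    (hlow : ∀ t h, 0 < h → h ≤ h0 → c₁ / h ^ 2 ≤ Q N (dws N (g t)) h)
    (hper : ∀ γ, ∀ k : ℤ, ∃ γ', a γ' = a γ + 2 * N * c γ * k ∧ c γ' = c γ ∧ X γ' = X γ)
    (hthick : ∀ δ : ℝ, 0 < δ → ∃ K : ℝ, 1 ≤ K ∧ ∃ B : ℝ, ∃ h1 : ℝ, 0 < h1 ∧
      ∀ h : ℝ, 0 < h → h < h1 → ∃ Bad : Set ℝ, (mu N).real Bad ≤ δ ∧
        ∀ x : ℝ, 0 < x → x ≤ 2 * N → x ∉ Bad → ∃ γ : Γ, ∃ W : ι → ℂ, (∀ t, ‖W t‖ ≤ B) ∧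
          (∀ t, ws N (g t) (x + h * I) = W t + X γ t) ∧ 2 ≤ c γ ∧ Int.gcd (a γ) (c γ) = 1 ∧
          (c γ : ℝ) ^ 2 ≤ 2 * K / h ∧ |x - a γ / c γ| ≤ Real.sqrt (2 * K * h) / c γ) :
    ∃ A > 0, ∃ cs > 0, ∃ ρ₀ > 0, ∀ ρ : ℝ, ρ₀ ≤ ρ → ∀ v : ι → ℂ, A * ρ ≤ ∑ t, ‖v t‖ ^ 2 →
      ∃ CC : Finset (ℤ × ℕ), (∀ y ∈ CC, 0 < y.1 ∧ y.1 < 2 * N * y.2 ∧ 2 ≤ y.2 ∧
        Int.gcd y.1 y.2 = 1 ∧ 4 * (y.2 : ℝ) ^ 2 ≤ Real.exp ρ ∧
        ∃ γ, a γ = y.1 ∧ c γ = y.2 ∧ ∑ t, ‖v t + X γ t‖ ^ 2 < ∑ t, ‖v t‖ ^ 2) ∧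
        cs * ρ ≤ ∑ y ∈ CC, 1 / (y.2 : ℝ) ^ 2 := by
  have hN' : (0 : ℝ) < N := by exact_mod_cast hN
  have hpr := mu_prob hN'
  obtain ⟨κ, hκ, A₁, hA₁, c₂, hc₂, s₀, hs₀, hkey⟩ := key_prob (ι := ι) hN' hC hc₁ hh0
  obtain ⟨K, hK, B', h1, hh1, hbad⟩ := hthick c₂ hc₂
  obtain ⟨B, hB0, hBB⟩ : ∃ B : ℝ, 0 ≤ B ∧ B' ≤ B := ⟨max B' 0, le_max_right _ _, le_max_left _ _⟩
  obtain ⟨n, hn⟩ : ∃ n : ℝ, n = Fintype.card ι := ⟨_, rfl⟩
  have hn0 : 0 ≤ n := by rw [hn]; positivity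
  set A : ℝ := (3 * A₁ / κ) ^ 2 + 1 with hA
  set C0 : ℝ := Real.log (8 * K) with hC0
  -- threshold for s
  set s₁ : ℝ := max (max s₀ ((2 * n * B / κ) ^ 2)) (max (2 * n * B ^ 2 / A₁)
    (max (Real.log (2 * K)) (max 1 (-Real.log h1 + 1)))) with hs₁
  set ρ₀ : ℝ := max (2 * s₁) (4 * (C0 + 1)) with hρ₀
  have hs₁1 : 1 ≤ s₁ :=
    (le_max_left _ _).trans ((le_max_right _ _).trans ((le_max_right _ _).trans (le_max_right _ _)))
  refine ⟨A, by positivity, c₂ * N / (72 * K), by positivity, ρ₀, ?_, ?_⟩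
  · exact lt_of_lt_of_le (by linarith) (le_max_left _ _)
  intro ρ hρ v hv
  have hρ1 : 2 * s₁ ≤ ρ := (le_max_left _ _).trans hρ
  have hρ2 : 4 * (C0 + 1) ≤ ρ := (le_max_right _ _).trans hρ
  have hρ0 : 0 < ρ := by linarith
  set V : ℝ := Real.sqrt (∑ t, ‖v t‖ ^ 2) with hVdef
  have hsum0 : 0 < ∑ t, ‖v t‖ ^ 2 := lt_of_lt_of_le (by positivity) hv
  have hV : 0 < V := Real.sqrt_pos.2 hsum0
  have hV2 : ∑ t, ‖v t‖ ^ 2 = V ^ 2 := (Real.sq_sqrt hsum0.le).symm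
  set S : Finset ℕ := Finset.Icc ⌈ρ / 2⌉₊ ⌊ρ - C0⌋₊ with hS
  have hSlow : ∀ s ∈ S, ρ / 2 ≤ s := fun s hs => Nat.ceil_le.1 (Finset.mem_Icc.1 hs).1
  have hShigh : ∀ s ∈ S, (s : ℝ) ≤ ρ - C0 := by
    intro s hs
    have h2 := (Finset.mem_Icc.1 hs).2
    have h3 := hSlow s hs
    by_cases h4 : 0 ≤ ρ - C0
    · exact (Nat.le_floor_iff h4).1 h2
    · exfalso
      have h5 : ⌊ρ - C0⌋₊ = 0 := Nat.floor_of_nonpos (not_le.1 h4).le
      rw [h5] at h2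
      have h6 : s = 0 := by omega
      rw [h6] at h3
      simp at h3
      linarith
  have hcard : ρ / 4 ≤ S.card := by
    rw [hS, Nat.card_Icc]
    have h2 : (⌈ρ / 2⌉₊ : ℝ) < ρ / 2 + 1 := Nat.ceil_lt_add_one (by linarith)
    have h3 : ρ - C0 < ⌊ρ - C0⌋₊ + 1 := Nat.lt_floor_add_one _
    have h4 : ((⌊ρ - C0⌋₊ + 1 : ℕ) : ℝ) ≤ ((⌊ρ - C0⌋₊ + 1 - ⌈ρ / 2⌉₊ : ℕ) : ℝ) + ⌈ρ / 2⌉₊ := by
      have : ⌊ρ - C0⌋₊ + 1 ≤ (⌊ρ - C0⌋₊ + 1 - ⌈ρ / 2⌉₊) + ⌈ρ / 2⌉₊ := by omega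
      exact_mod_cast this
    push_cast at h4
    linarith
  have hgood := count_cusps (p := N) hN hK (q := c₂)
    (fun x y => (Int.gcd x y = 1 ∧ 2 ≤ y) ∧ ∃ γ, a γ = x ∧ c γ = y ∧
      ∑ t, ‖v t + X γ t‖ ^ 2 < ∑ t, ‖v t‖ ^ 2)
    (fun x y h => h.1)
    (by
      rintro x y k ⟨⟨hg1, hg2⟩, γ, h3, h4, h5⟩
      obtain ⟨γ', h6, h7, h8⟩ := hper γ k
      refine ⟨⟨?_, hg2⟩, γ', ?_, h7.trans h4, ?_⟩
      · have e : x + 2 * N * y * k = x + (2 * N * k) * y := by ring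
        rw [e, Int.gcd_add_mul_right_left]
        exact hg1
      · rw [h6, h3, h4]
      · rw [h8]; exact h5)
    (ρ := ρ) S
    (by
      intro s hs
      have h2 := hShigh s hs
      have hK8 : 0 < 8 * K := by linarith
      calc 8 * K * Real.exp s = Real.exp (C0 + s) := by
            rw [Real.exp_add, hC0, Real.exp_log hK8]
        _ ≤ Real.exp ρ := Real.exp_le_exp.2 (by linarith))
    (by
      intro s hs
      have h2 := hSlow s hs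
      have hK2 : 0 < 2 * K := by linarith
      rw [← Real.log_le_iff_le_exp hK2]
      have h3 : Real.log (2 * K) ≤ s₁ := (le_max_left _ _).trans
        ((le_max_right _ _).trans (le_max_right _ _))
      linarith)
    (by
      intro s hs
      have hsl := hSlow s hs
      have hsh := hShigh s hs
      have hss₁ : s₁ ≤ s := by linarith
      have hs1 : (1 : ℝ) ≤ s := hs₁1.trans hss₁
      have hs0 : (0 : ℝ) < s := by linarith
      have t1 : s₀ ≤ s := ((le_max_left _ _).trans (le_max_left _ _)).trans hss₁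
      have t2 : (2 * n * B / κ) ^ 2 ≤ s := ((le_max_right _ _).trans (le_max_left _ _)).trans hss₁
      have t3 : 2 * n * B ^ 2 / A₁ ≤ s := ((le_max_left _ _).trans (le_max_right _ _)).trans hss₁
      have t4 : -Real.log h1 + 1 ≤ s := ((le_max_right _ _).trans ((le_max_right _ _).trans
        ((le_max_right _ _).trans (le_max_right _ _)))).trans hss₁
      have hexp0 : 0 < Real.exp (-(s : ℝ)) := Real.exp_pos _
      have hexp1 : Real.exp (-(s : ℝ)) < h1 := by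
        rw [← Real.lt_log_iff_exp_lt hh1]; linarith
      obtain ⟨Bad, hBad1, hBad2⟩ := hbad (Real.exp (-(s : ℝ))) hexp0 hexp1
      have hunit : ∑ t, ‖v t / V‖ ^ 2 = 1 := by
        have e : ∀ t, ‖v t / V‖ ^ 2 = ‖v t‖ ^ 2 / V ^ 2 := by
          intro t
          rw [norm_div, div_pow, norm_real, Real.norm_of_nonneg hV.le]
        simp only [e]
        rw [← Finset.sum_div, hV2, div_self (by positivity)]
      have hk := hkey g hg hd hB hlow (fun t => v t / V) hunit s t1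
      set D₀ : Set ℝ := {x : ℝ |
          (∑ t, (starRingEnd ℂ) (v t / V) * ws N (g t) (x + Real.exp (-(s : ℝ)) * I)).re ≤
            -(κ * Real.sqrt s) ∧
          ∑ t, ‖ws N (g t) (x + Real.exp (-(s : ℝ)) * I)‖ ^ 2 ≤ A₁ * s} with hD₀
      refine ⟨D₀ \ Bad, ?_, ?_⟩
      · have h3 : (mu N).real D₀ ≤ (mu N).real (D₀ \ Bad) + (mu N).real Bad := by
          refine (measureReal_mono (fun x hx => ?_)).trans (measureReal_union_le _ _)
          by_cases h : x ∈ Bad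
          · exact Or.inr h
          · exact Or.inl ⟨hx, h⟩
        linarith
      · intro x hx hx0 hx1
        obtain ⟨γ, W, hW, hWX, hc2, hgcd, hc3, hxa⟩ := hBad2 x hx0 hx1 hx.2
        refine ⟨a γ, c γ, ⟨⟨hgcd, hc2⟩, γ, rfl, rfl, ?_⟩, ?_, ?_⟩
        · have hsqrt1 : 2 * n * B ≤ κ * Real.sqrt s := by
            have : 2 * n * B / κ ≤ Real.sqrt s := Real.le_sqrt_of_sq_le t2
            rw [div_le_iff₀ hκ] at this
            linarith
          have hsqrt2 : 2 * n * B ^ 2 ≤ A₁ * s := by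
            rw [div_le_iff₀ hA₁] at t3
            linarith
          refine norm_drop hn hV hV2 hWX (fun t => (hW t).trans hBB) hs0 hκ hB0 hx.1.1 hx.1.2
            hsqrt1 hsqrt2 ?_
          have h6 : Real.sqrt s * (3 * A₁ / κ) < V := by
            refine (pow_lt_pow_iff_left₀ (by positivity) hV.le two_ne_zero).1 ?_
            rw [mul_pow, Real.sq_sqrt hs0.le, ← hV2]
            refine lt_of_lt_of_le ?_ hv
            have h7 : (s : ℝ) ≤ ρ := by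
              have : 0 ≤ C0 := Real.log_nonneg (by linarith)
              linarith
            have h8 : (s : ℝ) * (3 * A₁ / κ) ^ 2 ≤ ρ * (3 * A₁ / κ) ^ 2 := by gcongr
            rw [hA]
            nlinarith
          have h9 : Real.sqrt s * (3 * A₁ / κ) = 3 * A₁ * Real.sqrt s / κ := by ring
          rw [h9, div_lt_iff₀ hκ] at h6
          linarith
        · refine hc3.trans_eq ?_
          rw [div_eq_mul_inv, ← Real.exp_neg, neg_neg]
        · refine hxa.trans_eq ?_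
          congr 1
          rw [Real.sqrt_mul (by positivity)]
          congr 1
          rw [Real.sqrt_eq_iff_mul_self_eq (Real.exp_pos _).le (Real.exp_pos _).le,
            ← Real.exp_add]
          congr 1
          ring)
  obtain ⟨CC, h2, h3⟩ := hgood
  refine ⟨CC, ?_, ?_⟩
  · intro y hy
    obtain ⟨⟨⟨h4, h5⟩, h6⟩, h7, h8, h9⟩ := h2 y hy
    exact ⟨h7, h8, h5, h4, h9, h6⟩
  · refine le_trans ?_ h3
    calc c₂ * N / (72 * K) * ρ = c₂ * N * (ρ / 4) / (18 * K) := by ring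
      _ ≤ c₂ * N * S.card / (18 * K) := by gcongr

end

end GP
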