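import Pool.Agent.GP.KeyB
import Pool.Agent.Helper32.GP.Cusp4

/-!
# KEY for the group generated by `T²` and `S T² S⁻¹`
-/

namespace GP

open Complex MeasureTheory Set ModularGroup
open UpperHalfPlane hiding I
open scoped MatrixGroups

section

variable {ι : Type*} [Fintype ι]

lemma norm_ws_le_of_im {p : ℝ} {g : ℕ → ℂ} (hp : 0 < p) (hg : IsWS g) {y : ℝ} (hy : 0 < y) {z : ℂ}
    (hz : y ≤ z.im) : ‖ws p g z‖ ≤ ∑' n, ‖co p g y n‖ := by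
  have hz0 : 0 < z.im := hy.trans_le hz
  refine (norm_tsum_le_tsum_norm (summable_ws hp hg hz0)).trans ?_
  refine (summable_ws hp hg hz0).tsum_le_tsum ?_ (summable_co hp hy hg)
  intro n
  rw [norm_term_ws, norm_co]
  have hpi := Real.pi_pos
  gcongr

lemma T_zpow_even_mem (m : ℤ) : T ^ (2 * m) ∈ Gam := by
  rw [zpow_mul]
  exact Gam.zpow_mem (by exact_mod_cast T2_mem) m

/-- the group elements with a finite cusp -/
def GamFin : Type := {γ : SL(2, ℤ) // γ ∈ Gam ∧ γ 1 0 ≠ 0}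

/-- numerator of the cusp -/
noncomputable def cuspA (γ : GamFin) : ℤ := Int.sign (γ.1 1 0) * γ.1 0 0

/-- denominator of the cusp -/
noncomputable def cuspC (γ : GamFin) : ℕ := (γ.1 1 0).natAbs

lemma cuspC_cast (γ : GamFin) : (cuspC γ : ℤ) = Int.sign (γ.1 1 0) * γ.1 1 0 := by
  rw [cuspC, Int.sign_mul_self_eq_natAbs]

lemma cusp_cases (γ : GamFin) : (γ.1 0 0 = cuspA γ ∧ γ.1 1 0 = cuspC γ) ∨
    (γ.1 0 0 = -cuspA γ ∧ γ.1 1 0 = -cuspC γ) := by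
  rcases lt_or_gt_of_ne γ.2.2 with h | h
  · right
    rw [cuspC_cast, cuspA, Int.sign_eq_neg_one_of_neg h]
    constructor <;> ring
  · left
    rw [cuspC_cast, cuspA, Int.sign_eq_one_of_pos h]
    constructor <;> ring

lemma cuspC_ge (γ : GamFin) : 2 ≤ cuspC γ := by
  have h1 := (Gam_parity (Gam_le γ.2.1)).2.2.1
  have h2 : (γ.1 1 0).natAbs ≠ 0 := Int.natAbs_ne_zero.2 γ.2.2
  have h3 : Even (γ.1 1 0).natAbs := Int.natAbs_even.2 h1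
  obtain ⟨k, hk⟩ := h3
  rw [cuspC]
  omega

lemma cusp_gcd (γ : GamFin) : Int.gcd (cuspA γ) (cuspC γ) = 1 := by
  have h := Int.isCoprime_iff_gcd_eq_one.1 (col_coprime γ.1)
  rcases cusp_cases γ with ⟨h1, h2⟩ | ⟨h1, h2⟩
  · rw [h1, h2] at h; exact h
  · rw [h1, h2] at h
    simpa using h

lemma cusp_div (γ : GamFin) : (cuspA γ : ℝ) / cuspC γ = (γ.1 0 0 : ℝ) / (γ.1 1 0 : ℝ) := by
  rcases cusp_cases γ with ⟨h1, h2⟩ | ⟨h1, h2⟩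
  · rw [h1, h2]; push_cast; rfl
  · rw [h1, h2]; push_cast; rw [neg_div_neg_eq]

lemma cuspC_abs (γ : GamFin) : (cuspC γ : ℝ) = |(γ.1 1 0 : ℝ)| := by
  rw [cuspC, Nat.cast_natAbs, Int.cast_abs]

/-- **KEY** for the group `Gam`, for functions with the transformation law
`G_t(γ z) = ξ G_t(z) + X γ t`, `|ξ| = 1`. -/
theorem key_gam [Nonempty ι] {N : ℕ} (hN : 0 < N) {g : ι → ℕ → ℂ} (hg : ∀ t, IsWS (g t))
    (hd : ∀ t t' n, g t n ≠ 0 → g t' n ≠ 0 → t = t') {C : ℝ} (hC : 0 < C)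
    (hB : ∀ t, Bloch N (g t) C) {c₁ h0 : ℝ} (hc₁ : 0 < c₁) (hh0 : 0 < h0)
    (hlow : ∀ t h, 0 < h → h ≤ h0 → c₁ / h ^ 2 ≤ Q N (dws N (g t)) h)
    (X : SL(2, ℤ) → ι → ℂ)
    (hlaw : ∀ γ ∈ Gam, ∀ z : ℍ, ∀ t, ∃ ξ : ℂ, ‖ξ‖ = 1 ∧
      ws N (g t) ((γ • z : ℍ) : ℂ) = ξ * ws N (g t) z + X γ t)
    (hXper : ∀ γ ∈ Gam, ∀ k : ℤ, X (T ^ (2 * (N * k)) * γ) = X γ) :
    ∃ A > 0, ∃ cs > 0, ∃ ρ₀ > 0, ∀ ρ : ℝ, ρ₀ ≤ ρ → ∀ v : ι → ℂ, A * ρ ≤ ∑ t, ‖v t‖ ^ 2 →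
      ∃ CC : Finset (ℤ × ℕ), (∀ y ∈ CC, 0 < y.1 ∧ y.1 < 2 * N * y.2 ∧ 2 ≤ y.2 ∧
        Int.gcd y.1 y.2 = 1 ∧ 4 * (y.2 : ℝ) ^ 2 ≤ Real.exp ρ ∧
        ∃ γ ∈ Gam, ((γ 0 0 = y.1 ∧ γ 1 0 = y.2) ∨ (γ 0 0 = -y.1 ∧ γ 1 0 = -y.2)) ∧
          ∑ t, ‖v t + X γ t‖ ^ 2 < ∑ t, ‖v t‖ ^ 2) ∧
        cs * ρ ≤ ∑ y ∈ CC, 1 / (y.2 : ℝ) ^ 2 := by
  have hN' : (0 : ℝ) < N := by exact_mod_cast hN
  have hper : ∀ γ : GamFin, ∀ k : ℤ, ∃ γ' : GamFin, cuspA γ' = cuspA γ + 2 * N * cuspC γ * k ∧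
      cuspC γ' = cuspC γ ∧ X γ'.1 = X γ.1 := by
    intro γ k
    obtain ⟨c1, c2⟩ := T_zpow_mul_col γ.1 (2 * (N * k))
    have hmem : T ^ (2 * (N * k)) * γ.1 ∈ Gam := Gam.mul_mem (T_zpow_even_mem _) γ.2.1
    refine ⟨⟨T ^ (2 * (N * k)) * γ.1, hmem, by rw [c2]; exact γ.2.2⟩, ?_, ?_, ?_⟩
    · rw [cuspC_cast]
      show Int.sign ((T ^ (2 * (N * k)) * γ.1) 1 0) * (T ^ (2 * (N * k)) * γ.1) 0 0 =
        Int.sign (γ.1 1 0) * γ.1 0 0 + _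
      rw [c1, c2]
      ring
    · show ((T ^ (2 * (N * k)) * γ.1) 1 0).natAbs = (γ.1 1 0).natAbs
      rw [c2]
    · exact hXper γ.1 γ.2.1 k
  have hthick : ∀ δ : ℝ, 0 < δ → ∃ K : ℝ, 1 ≤ K ∧ ∃ B : ℝ, ∃ h1 : ℝ, 0 < h1 ∧
      ∀ h : ℝ, 0 < h → h < h1 → ∃ Bad : Set ℝ, (mu N).real Bad ≤ δ ∧
        ∀ x : ℝ, 0 < x → x ≤ 2 * N → x ∉ Bad → ∃ γ : GamFin, ∃ W : ι → ℂ, (∀ t, ‖W t‖ ≤ B) ∧
          (∀ t, ws N (g t) (x + h * I) = W t + X γ.1 t) ∧ 2 ≤ cuspC γ ∧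
          Int.gcd (cuspA γ) (cuspC γ) = 1 ∧ (cuspC γ : ℝ) ^ 2 ≤ 2 * K / h ∧
          |x - cuspA γ / cuspC γ| ≤ Real.sqrt (2 * K * h) / cuspC γ := by
    intro δ hδ
    obtain ⟨K₁, hK₁, hK₁δ⟩ : ∃ K₁ : ℝ, 1 ≤ K₁ ∧ 3 / K₁ ≤ δ := by
      refine ⟨max 1 (3 / δ), le_max_left _ _, ?_⟩
      have h1 : 0 < max 1 (3 / δ) := lt_of_lt_of_le one_pos (le_max_left _ _)
      rw [div_le_iff₀ h1]
      have h2 : 3 / δ ≤ max 1 (3 / δ) := le_max_right _ _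
      rw [div_le_iff₀ hδ] at h2
      linarith
    have hK0 : 0 < K₁ := by linarith
    refine ⟨2 * K₁, by linarith, ∑ t, ∑' n, ‖co N (g t) (1 / (4 * K₁)) n‖,
      min 1 (1 / (4 * K₁)), lt_min one_pos (by positivity), ?_⟩
    intro h hh hh1
    have hle1 : h ≤ 1 := (hh1.trans_le (min_le_left _ _)).le
    have hsmall : h < 1 / (4 * K₁) := hh1.trans_le (min_le_right _ _)
    refine ⟨deep N h K₁, ?_, ?_⟩
    · have h1 := volume_deep_le hN hh hle1 hK₁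
      have h2 : (mu N).real (deep N h K₁) ≤ (2 * (N : ℝ))⁻¹ * volume.real (deep N h K₁) := by
        rw [mu, measureReal_ennreal_smul_apply, ENNReal.toReal_inv,
          ENNReal.toReal_ofReal (by linarith)]
        refine mul_le_mul_of_nonneg_left ?_ (by positivity)
        refine ENNReal.toReal_mono (lt_of_le_of_lt h1 ENNReal.ofReal_lt_top).ne
          (Measure.restrict_apply_le _ _)
      have h3 : volume.real (deep N h K₁) ≤ 6 * N / K₁ :=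
        ENNReal.toReal_le_of_le_ofReal (by positivity) h1
      refine h2.trans ?_
      calc (2 * (N : ℝ))⁻¹ * volume.real (deep N h K₁) ≤ (2 * (N : ℝ))⁻¹ * (6 * N / K₁) := by gcongr
        _ = 3 / K₁ := by field_simp; ring
        _ ≤ δ := hK₁δ
    · intro x hx0 hx1 hx
      set z : ℍ := ⟨x + h * I, by simpa using hh⟩ with hz
      have hzre : z.re = x := by
        show (x + h * I : ℂ).re = x
        simp
      have hzim : z.im = h := by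
        show (x + h * I : ℂ).im = h
        simp
      have h1 := im_smul_le_of_not_deep hx0.le hx1 hx z hzre hzim
      obtain ⟨γ, hγ, z', e, -, h2, -⟩ := thick_point hK₁ z h1
      obtain ⟨h3, h4, h5⟩ := cusp_facts e hK₁ h2 (by rw [hzim]; exact hsmall)
      rw [hzre, hzim] at h4
      rw [hzim] at h5
      choose ξ hξ hξl using hlaw γ hγ z'
      set γ' : GamFin := ⟨γ, hγ, h3⟩ with hγ'
      refine ⟨γ', fun t => ξ t * ws N (g t) z', ?_, ?_, cuspC_ge _, cusp_gcd _, ?_, ?_⟩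
      · intro t
        rw [norm_mul, hξ, one_mul]
        refine (norm_ws_le_of_im hN' (hg t) (by positivity) h2).trans ?_
        exact Finset.single_le_sum (f := fun t => ∑' n, ‖co N (g t) (1 / (4 * K₁)) n‖)
          (fun t _ => tsum_nonneg fun n => norm_nonneg _) (Finset.mem_univ t)
      · intro t
        have : ((z : ℍ) : ℂ) = x + h * I := rfl
        rw [← this, e, hξl]
      · rw [le_div_iff₀ hh, cuspC_abs, sq_abs]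
        refine h5.trans_eq (by ring)
      · rw [cusp_div, cuspC_abs]
        refine h4.trans_eq ?_
        congr 2
        ring
  obtain ⟨A, hA, cs, hcs, ρ₀, hρ₀, hkey⟩ := key_abs hN cuspA cuspC
    (fun γ => X γ.1) hg hd hC hB hc₁ hh0 hlow hper hthick
  refine ⟨A, hA, cs, hcs, ρ₀, hρ₀, fun ρ hρ v hv => ?_⟩
  obtain ⟨CC, h1, h2⟩ := hkey ρ hρ v hv
  refine ⟨CC, fun y hy => ?_, h2⟩
  obtain ⟨h3, h4, h5, h6, h7, γ, h8, h9, h10⟩ := h1 y hy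
  refine ⟨h3, h4, h5, h6, h7, γ.1, γ.2.1, ?_, h10⟩
  have := cusp_cases γ
  rw [h8, h9] at this
  exact this

end

end GP
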