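import Mathlib

/-!
# Counting cyclotomic integers

`x t v = ∑ v i ζ^(t i)` are the conjugates of the cyclotomic integer with coordinates
`v : Fin (p - 1) → ℤ`.
-/

namespace GP

open Finset

/-- the conjugates of `∑ v i ζ ^ i` -/
noncomputable def cj (p : ℕ) (ζ : ℂ) (t : ℕ) (v : Fin (p - 1) → ℤ) : ℂ :=
  ∑ i, (v i : ℂ) * ζ ^ (t * i)

/-- the sum of the squares of the absolute values of the conjugates -/
noncomputable def nr (p : ℕ) (ζ : ℂ) (v : Fin (p - 1) → ℤ) : ℝ :=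
  ∑ t ∈ Ico 1 p, ‖cj p ζ t v‖ ^ 2

theorem nr_nonneg (p : ℕ) (ζ : ℂ) (v : Fin (p - 1) → ℤ) : 0 ≤ nr p ζ v :=
  Finset.sum_nonneg fun _ _ => by positivity

variable {p : ℕ} {ζ : ℂ}

theorem sum_root (hp : 0 < p) (hζ : IsPrimitiveRoot ζ p) {i j : ℕ} (hi : i < p) (hj : j < p) :
    ∑ t ∈ range p, ζ ^ (t * i) * (starRingEnd ℂ) (ζ ^ (t * j)) = if i = j then (p : ℂ) else 0 := by
  have h1 : ‖ζ‖ = 1 := hζ.norm'_eq_one hp.ne'
  have hζ0 : ζ ≠ 0 := by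
    intro h
    rw [h, norm_zero] at h1
    exact zero_ne_one h1
  have hc : (starRingEnd ℂ) ζ = ζ⁻¹ := by
    rw [Complex.inv_def, Complex.normSq_eq_norm_sq, h1]
    simp
  have h2 : ∀ t, ζ ^ (t * i) * (starRingEnd ℂ) (ζ ^ (t * j)) = (ζ ^ i * (ζ ^ j)⁻¹) ^ t := by
    intro t
    rw [map_pow, hc, mul_pow, ← pow_mul, inv_pow, ← inv_pow, ← inv_pow, mul_comm i t,
      ← pow_mul, mul_comm j t]
  simp only [h2]
  split_ifs with h
  · subst h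
    rw [mul_inv_cancel₀ (pow_ne_zero _ hζ0)]
    simp
  · have hne : ζ ^ i * (ζ ^ j)⁻¹ ≠ 1 := by
      intro he
      rw [← div_eq_mul_inv, div_eq_one_iff_eq (pow_ne_zero _ hζ0)] at he
      exact h (hζ.pow_inj hi hj he)
    rw [geom_sum_eq hne]
    have : (ζ ^ i * (ζ ^ j)⁻¹) ^ p = 1 := by
      rw [mul_pow, ← pow_mul, inv_pow, ← pow_mul, mul_comm i, mul_comm j, pow_mul, pow_mul,
        hζ.pow_eq_one]
      simp
    rw [this, sub_self, zero_div]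

theorem parseval (hp : 0 < p) (hζ : IsPrimitiveRoot ζ p) (v : Fin (p - 1) → ℤ) :
    ∑ t ∈ range p, ‖cj p ζ t v‖ ^ 2 = p * ∑ i, (v i : ℝ) ^ 2 := by
  have h1 : ((∑ t ∈ range p, ‖cj p ζ t v‖ ^ 2 : ℝ) : ℂ) = ((p * ∑ i, (v i : ℝ) ^ 2 : ℝ) : ℂ) := by
    push_cast
    have h2 : ∀ t, (‖cj p ζ t v‖ : ℂ) ^ 2 = ∑ i, ∑ j, (v i : ℂ) * (v j : ℂ) *
        (ζ ^ (t * (i : ℕ)) * (starRingEnd ℂ) (ζ ^ (t * (j : ℕ)))) := by
      intro t
      rw [← Complex.mul_conj']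
      unfold cj
      rw [map_sum, Finset.sum_mul_sum]
      refine Finset.sum_congr rfl fun i _ => Finset.sum_congr rfl fun j _ => ?_
      rw [map_mul, map_intCast]
      ring
    simp only [h2]
    rw [Finset.sum_comm]
    rw [Finset.mul_sum]
    refine Finset.sum_congr rfl fun i _ => ?_
    rw [Finset.sum_comm]
    have h3 : ∀ j : Fin (p - 1), ∑ t ∈ range p, (v i : ℂ) * (v j : ℂ) *
        (ζ ^ (t * (i : ℕ)) * (starRingEnd ℂ) (ζ ^ (t * (j : ℕ)))) =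
        if i = j then (v i : ℂ) * (v j : ℂ) * p else 0 := by
      intro j
      rw [← Finset.mul_sum, sum_root hp hζ (by omega) (by omega)]
      by_cases hij : i = j
      · simp [hij]
      · have : (i : ℕ) ≠ j := fun h => hij (Fin.ext h)
        simp [hij, this]
    simp only [h3]
    rw [Finset.sum_ite_eq]
    simp
    ring
  exact_mod_cast h1

theorem nr_eq (hp : 0 < p) (hζ : IsPrimitiveRoot ζ p) (v : Fin (p - 1) → ℤ) :
    nr p ζ v = p * ∑ i, (v i : ℝ) ^ 2 - (∑ i, (v i : ℝ)) ^ 2 := by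
  have h1 := parseval hp hζ v
  rw [Finset.range_eq_Ico, Finset.sum_eq_sum_Ico_succ_bot hp] at h1
  have h2 : ‖cj p ζ 0 v‖ ^ 2 = (∑ i, (v i : ℝ)) ^ 2 := by
    have : cj p ζ 0 v = ((∑ i, (v i : ℝ) : ℝ) : ℂ) := by
      unfold cj
      push_cast
      simp
    rw [this, Complex.norm_real, Real.norm_eq_abs, sq_abs]
  rw [h2] at h1
  unfold nr
  linarith

theorem sum_sq_le_nr (hp : 0 < p) (hζ : IsPrimitiveRoot ζ p) (v : Fin (p - 1) → ℤ) :
    ∑ i, (v i : ℝ) ^ 2 ≤ nr p ζ v := by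
  rw [nr_eq hp hζ]
  have h := sq_sum_le_card_mul_sum_sq (s := (univ : Finset (Fin (p - 1))))
    (f := fun i => (v i : ℝ))
  rw [Finset.card_univ, Fintype.card_fin] at h
  have h2 : ((p - 1 : ℕ) : ℝ) = p - 1 := by
    rw [Nat.cast_sub hp]
    simp
  rw [h2] at h
  linarith

theorem nr_le (hp : 0 < p) (hζ : IsPrimitiveRoot ζ p) (v : Fin (p - 1) → ℤ) :
    nr p ζ v ≤ p * ∑ i, (v i : ℝ) ^ 2 := by
  rw [nr_eq hp hζ]
  nlinarith [sq_nonneg (∑ i, (v i : ℝ))]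

/-- the box containing all `v` with `nr v ≤ r` -/
theorem mem_box (hp : 0 < p) (hζ : IsPrimitiveRoot ζ p) {r : ℝ} {v : Fin (p - 1) → ℤ}
    (h : nr p ζ v ≤ r) : v ∈ Fintype.piFinset
      (fun _ : Fin (p - 1) => Finset.Icc (-(⌊Real.sqrt r⌋₊ : ℤ)) (⌊Real.sqrt r⌋₊ : ℤ)) := by
  rw [Fintype.mem_piFinset]
  intro i
  have h1 : (v i : ℝ) ^ 2 ≤ r := by
    refine le_trans ?_ ((sum_sq_le_nr hp hζ v).trans h)
    exact Finset.single_le_sum (f := fun i => (v i : ℝ) ^ 2) (fun _ _ => sq_nonneg _)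
      (Finset.mem_univ i)
  have h2 : |(v i : ℝ)| ≤ Real.sqrt r := Real.abs_le_sqrt h1
  have h3 : ((v i).natAbs : ℝ) ≤ Real.sqrt r := by
    rw [Nat.cast_natAbs]
    exact_mod_cast h2
  have h4 : (v i).natAbs ≤ ⌊Real.sqrt r⌋₊ := Nat.le_floor h3
  rw [Finset.mem_Icc]
  omega

/-- the number of cyclotomic integers of bounded norm -/
theorem card_nr_le (hp : 0 < p) (hζ : IsPrimitiveRoot ζ p) (r : ℝ) :
    {v : Fin (p - 1) → ℤ | nr p ζ v ≤ r}.Finite ∧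
      (0 ≤ r → (({v : Fin (p - 1) → ℤ | nr p ζ v ≤ r}.ncard : ℕ) : ℝ) ^ 2 ≤
        (8 * (1 + r)) ^ (p - 1)) := by
  set s := Fintype.piFinset
    (fun _ : Fin (p - 1) => Finset.Icc (-(⌊Real.sqrt r⌋₊ : ℤ)) (⌊Real.sqrt r⌋₊ : ℤ)) with hs
  have hsub : {v : Fin (p - 1) → ℤ | nr p ζ v ≤ r} ⊆ (s : Set (Fin (p - 1) → ℤ)) :=
    fun v hv => mem_box hp hζ hv
  refine ⟨s.finite_toSet.subset hsub, fun hr => ?_⟩
  have h1 : {v : Fin (p - 1) → ℤ | nr p ζ v ≤ r}.ncard ≤ s.card := by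
    rw [← Set.ncard_coe_finset]
    exact Set.ncard_le_ncard hsub s.finite_toSet
  have h2 : s.card = (2 * ⌊Real.sqrt r⌋₊ + 1) ^ (p - 1) := by
    rw [hs, Fintype.card_piFinset]
    simp only [Int.card_Icc, Finset.prod_const, Finset.card_univ, Fintype.card_fin]
    congr 1
    omega
  have h3 : (({v : Fin (p - 1) → ℤ | nr p ζ v ≤ r}.ncard : ℕ) : ℝ) ≤
      (2 * Real.sqrt r + 1) ^ (p - 1) := by
    calc (({v : Fin (p - 1) → ℤ | nr p ζ v ≤ r}.ncard : ℕ) : ℝ) ≤ (s.card : ℝ) := by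
          exact_mod_cast h1
      _ = (2 * (⌊Real.sqrt r⌋₊ : ℝ) + 1) ^ (p - 1) := by
          rw [h2]
          push_cast
          ring
      _ ≤ (2 * Real.sqrt r + 1) ^ (p - 1) := by
          have := Nat.floor_le (Real.sqrt_nonneg r)
          gcongr
  calc (({v : Fin (p - 1) → ℤ | nr p ζ v ≤ r}.ncard : ℕ) : ℝ) ^ 2
      ≤ ((2 * Real.sqrt r + 1) ^ (p - 1)) ^ 2 := by gcongr
    _ = ((2 * Real.sqrt r + 1) ^ 2) ^ (p - 1) := pow_right_comm _ _ _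
    _ ≤ (8 * (1 + r)) ^ (p - 1) := by
        have hsq := Real.sq_sqrt hr
        have h4 : (2 * Real.sqrt r + 1) ^ 2 ≤ 8 * (1 + r) := by
          nlinarith [sq_nonneg (2 * Real.sqrt r - 1), Real.sqrt_nonneg r]
        gcongr

end GP
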