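import Mathlib

/-!
# Mean values of trigonometric series with non-negative frequencies
-/

namespace GP

open Complex MeasureTheory

/-- normalised Lebesgue measure on a period `(0, 2p]` -/
noncomputable def mu (p : ℝ) : Measure ℝ :=
  (ENNReal.ofReal (2 * p))⁻¹ • volume.restrict (Set.Ioc 0 (2 * p))

lemma mu_prob {p : ℝ} (hp : 0 < p) : IsProbabilityMeasure (mu p) := by
  constructor
  have h : volume (Set.Ioc 0 (2 * p)) = ENNReal.ofReal (2 * p) := by
    rw [Real.volume_Ioc, sub_zero]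
  rw [mu, Measure.smul_apply, Measure.restrict_apply MeasurableSet.univ, Set.univ_inter, h,
    smul_eq_mul]
  exact ENNReal.inv_mul_cancel (by simpa using hp) ENNReal.ofReal_ne_top

lemma mu_integral {E : Type*} [NormedAddCommGroup E] [NormedSpace ℝ E] {p : ℝ} (hp : 0 < p)
    (f : ℝ → E) : ∫ x, f x ∂(mu p) = (2 * p)⁻¹ • ∫ x in (0 : ℝ)..(2 * p), f x := by
  rw [mu, integral_smul_measure, intervalIntegral.integral_of_le (by linarith)]
  congr 1
  rw [ENNReal.toReal_inv, ENNReal.toReal_ofReal (by linarith)]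

lemma mu_real_apply {p : ℝ} (hp : 0 < p) {D : Set ℝ} (hD : MeasurableSet D) :
    (mu p).real D = (2 * p)⁻¹ * volume.real (D ∩ Set.Ioc 0 (2 * p)) := by
  rw [mu, measureReal_ennreal_smul_apply, ENNReal.toReal_inv, ENNReal.toReal_ofReal (by linarith)]
  congr 1
  rw [measureReal_restrict_apply hD]

/-- the basic exponentials -/
noncomputable def ex (p : ℝ) (n : ℤ) (x : ℝ) : ℂ := cexp (Real.pi * I * n * x / p)

lemma ex_eq (p : ℝ) (n : ℤ) (x : ℝ) : ex p n x = cexp ((Real.pi * n * x / p : ℝ) * I) := by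
  rw [ex]; congr 1; push_cast; ring

lemma norm_ex (p : ℝ) (n : ℤ) (x : ℝ) : ‖ex p n x‖ = 1 := by
  rw [ex_eq, norm_exp_ofReal_mul_I]

lemma continuous_ex (p : ℝ) (n : ℤ) : Continuous (ex p n) := by
  unfold ex; fun_prop

lemma ex_add (p : ℝ) (m n : ℤ) (x : ℝ) : ex p (m + n) x = ex p m x * ex p n x := by
  rw [ex, ex, ex, ← Complex.exp_add]; congr 1; push_cast; ring

lemma ex_zero (p : ℝ) (x : ℝ) : ex p 0 x = 1 := by simp [ex]

lemma conj_ex (p : ℝ) (n : ℤ) (x : ℝ) : (starRingEnd ℂ) (ex p n x) = ex p (-n) x := by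
  rw [ex_eq, ex_eq, ← Complex.exp_conj, map_mul, conj_I, conj_ofReal]
  congr 1; push_cast; ring

lemma integral_ex {p : ℝ} (hp : 0 < p) (n : ℤ) :
    ∫ x, ex p n x ∂(mu p) = if n = 0 then 1 else 0 := by
  split_ifs with h
  · subst h
    have := mu_prob hp
    simp [ex_zero]
  · rw [mu_integral hp]
    have hc : (Real.pi * I * n / p : ℂ) ≠ 0 := by
      have h1 : (Real.pi : ℂ) ≠ 0 := by exact_mod_cast Real.pi_ne_zero
      have h2 : (n : ℂ) ≠ 0 := by exact_mod_cast h
      have h3 : (p : ℂ) ≠ 0 := by exact_mod_cast hp.ne'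
      exact div_ne_zero (mul_ne_zero (mul_ne_zero h1 I_ne_zero) h2) h3
    have e : ∀ x : ℝ, ex p n x = cexp ((Real.pi * I * n / p : ℂ) * x) := by
      intro x; rw [ex]; congr 1; ring
    simp_rw [e]
    rw [integral_exp_mul_complex hc]
    have e2 : cexp ((Real.pi * I * n / p : ℂ) * ((2 * p : ℝ) : ℂ)) = 1 := by
      rw [Complex.exp_eq_one_iff]
      refine ⟨n, ?_⟩
      have h3 : (p : ℂ) ≠ 0 := by exact_mod_cast hp.ne'
      push_cast
      field_simp
    rw [e2]
    simp

/-- trigonometric series -/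
noncomputable def tp (p : ℝ) (a : ℕ → ℂ) (x : ℝ) : ℂ := ∑' n : ℕ, a n * ex p n x

lemma norm_term (p : ℝ) (a : ℕ → ℂ) (n : ℕ) (x : ℝ) : ‖a n * ex p n x‖ = ‖a n‖ := by
  rw [norm_mul, norm_ex, mul_one]

lemma summable_term {p : ℝ} {a : ℕ → ℂ} (ha : Summable fun n => ‖a n‖) (x : ℝ) :
    Summable fun n : ℕ => a n * ex p n x :=
  Summable.of_norm (by simpa only [norm_term] using ha)

lemma continuous_tp {p : ℝ} {a : ℕ → ℂ} (ha : Summable fun n => ‖a n‖) :
    Continuous (tp p a) := by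
  unfold tp
  refine continuous_tsum (fun n => continuous_const.mul (continuous_ex p n)) ha ?_
  intro n x
  rw [norm_term]

lemma norm_tp_le {p : ℝ} {a : ℕ → ℂ} (ha : Summable fun n => ‖a n‖) (x : ℝ) :
    ‖tp p a x‖ ≤ ∑' n, ‖a n‖ := by
  unfold tp
  refine (norm_tsum_le_tsum_norm ?_).trans_eq ?_
  · simpa only [norm_term] using ha
  · simp only [norm_term]

lemma integrable_of_bdd {E : Type*} [NormedAddCommGroup E] {p : ℝ} (hp : 0 < p) {f : ℝ → E}
    (hf : Continuous f) (C : ℝ) (hC : ∀ x, ‖f x‖ ≤ C) : Integrable f (mu p) := by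
  have := mu_prob hp
  exact (integrable_const C).mono' hf.aestronglyMeasurable (Filter.Eventually.of_forall hC)

lemma integral_tp_mul_ex {p : ℝ} (hp : 0 < p) {a : ℕ → ℂ} (ha : Summable fun n => ‖a n‖) (m : ℤ) :
    ∫ x, tp p a x * ex p (-m) x ∂(mu p) = if 0 ≤ m then a m.toNat else 0 := by
  have hpr := mu_prob hp
  have hint : ∀ n : ℕ, Integrable (fun x => a n * ex p n x * ex p (-m) x) (mu p) := by
    intro n
    refine integrable_of_bdd hp ((continuous_const.mul (continuous_ex p n)).mul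
      (continuous_ex p _)) ‖a n‖ ?_
    intro x
    rw [norm_mul, norm_term, norm_ex, mul_one]
  have hs := hasSum_integral_of_summable_integral_norm hint (by
    have : ∀ n : ℕ, ∫ x, ‖a n * ex p n x * ex p (-m) x‖ ∂(mu p) = ‖a n‖ := by
      intro n
      simp only [norm_mul, norm_ex, mul_one]
      simp
    simpa only [this] using ha)
  have e1 : ∀ x, ∑' n : ℕ, a n * ex p n x * ex p (-m) x = tp p a x * ex p (-m) x := by
    intro x; rw [tp, tsum_mul_right]
  simp only [e1] at hs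
  rw [← hs.tsum_eq]
  have e2 : ∀ n : ℕ, ∫ x, a n * ex p n x * ex p (-m) x ∂(mu p) = if (n : ℤ) = m then a n else 0 := by
    intro n
    have : ∀ x, a n * ex p n x * ex p (-m) x = a n * ex p (n - m) x := by
      intro x; rw [mul_assoc, ← ex_add, ← sub_eq_add_neg]
    simp only [this]
    rw [integral_const_mul, integral_ex hp]
    by_cases h : (n : ℤ) = m
    · simp [h]
    · rw [if_neg (by omega), if_neg h, mul_zero]
  simp only [e2]
  split_ifs with hm
  · rw [tsum_eq_single m.toNat]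
    · rw [if_pos (Int.toNat_of_nonneg hm)]
    · intro n hn
      rw [if_neg]
      omega
  · have : ∀ n : ℕ, (if (n : ℤ) = m then a n else 0) = 0 := by
      intro n; rw [if_neg]; omega
    simp [this]

/-- Parseval -/
lemma parseval {p : ℝ} (hp : 0 < p) {a b : ℕ → ℂ} (ha : Summable fun n => ‖a n‖)
    (hb : Summable fun n => ‖b n‖) :
    ∫ x, tp p a x * (starRingEnd ℂ) (tp p b x) ∂(mu p) = ∑' n, a n * (starRingEnd ℂ) (b n) := by
  have hpr := mu_prob hp
  have hcb : Continuous fun x => (starRingEnd ℂ) (tp p b x) :=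
    continuous_conj.comp (continuous_tp hb)
  have hint : ∀ n : ℕ, Integrable (fun x => a n * ex p n x * (starRingEnd ℂ) (tp p b x)) (mu p) := by
    intro n
    refine integrable_of_bdd hp ((continuous_const.mul (continuous_ex p n)).mul hcb)
      (‖a n‖ * ∑' n, ‖b n‖) ?_
    intro x
    rw [norm_mul, norm_term, RCLike.norm_conj]
    gcongr
    exact norm_tp_le hb x
  have hs := hasSum_integral_of_summable_integral_norm hint (by
    refine Summable.of_nonneg_of_le (fun n => integral_nonneg fun x => norm_nonneg _) ?_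
      (ha.mul_right (∑' n, ‖b n‖))
    intro n
    have : ∫ x, ‖a n * ex p n x * (starRingEnd ℂ) (tp p b x)‖ ∂(mu p) ≤
        ∫ x, (‖a n‖ * ∑' n, ‖b n‖) ∂(mu p) := by
      refine integral_mono (hint n).norm (integrable_const _) ?_
      intro x
      simp only
      rw [norm_mul, norm_term, RCLike.norm_conj]
      gcongr
      exact norm_tp_le hb x
    simpa using this)
  have e1 : ∀ x, ∑' n : ℕ, a n * ex p n x * (starRingEnd ℂ) (tp p b x) =
      tp p a x * (starRingEnd ℂ) (tp p b x) := by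
    intro x; rw [tsum_mul_right]; rfl
  simp only [e1] at hs
  rw [← hs.tsum_eq]
  congr 1
  ext n
  have e2 : ∀ x, a n * ex p n x * (starRingEnd ℂ) (tp p b x) =
      a n * (starRingEnd ℂ) (tp p b x * ex p (-n) x) := by
    intro x
    rw [map_mul, conj_ex, neg_neg]; ring
  simp only [e2]
  rw [integral_const_mul, integral_conj, integral_tp_mul_ex hp hb]
  simp

lemma parseval_norm {p : ℝ} (hp : 0 < p) {a : ℕ → ℂ} (ha : Summable fun n => ‖a n‖) :
    ∫ x, ‖tp p a x‖ ^ 2 ∂(mu p) = ∑' n, ‖a n‖ ^ 2 := by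
  have h := parseval hp ha ha
  have e : ∀ z : ℂ, z * (starRingEnd ℂ) z = ((‖z‖ ^ 2 : ℝ) : ℂ) := by
    intro z; rw [mul_conj, normSq_eq_norm_sq]
  simp only [e] at h
  rw [← ofReal_tsum] at h
  have h2 := integral_ofReal (𝕜 := ℂ) (μ := mu p) (f := fun x => ‖tp p a x‖ ^ 2)
  exact Complex.ofReal_injective (h2.symm.trans h)

lemma mean_tp {p : ℝ} (hp : 0 < p) {a : ℕ → ℂ} (ha : Summable fun n => ‖a n‖) :
    ∫ x, tp p a x ∂(mu p) = a 0 := by
  have h := integral_tp_mul_ex hp ha 0
  simpa [ex_zero] using h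

end GP
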