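import Pool.Agent.GP.MomA

/-!
# Power series in `exp (π i z / p)` on the upper half plane
-/

namespace GP

open Complex MeasureTheory

/-- the function `∑ g_ν exp (π i ν z / p)` -/
noncomputable def ws (p : ℝ) (g : ℕ → ℂ) (z : ℂ) : ℂ :=
  ∑' n : ℕ, g n * cexp (Real.pi * I * n * z / p)

/-- no constant term, and convergence on the upper half plane -/
structure IsWS (g : ℕ → ℂ) : Prop where
  zero : g 0 = 0
  summ : ∀ r : ℝ, 0 < r → r < 1 → Summable fun n => ‖g n‖ * r ^ n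

/-- coefficients of the derivative -/
noncomputable def dws (p : ℝ) (g : ℕ → ℂ) (n : ℕ) : ℂ := (Real.pi * I * n / p) * g n

/-- coefficients on the horocycle of height `h` -/
noncomputable def co (p : ℝ) (g : ℕ → ℂ) (h : ℝ) (n : ℕ) : ℂ :=
  g n * (Real.exp (-(Real.pi * h / p)) ^ n : ℝ)

/-- coefficients of the square -/
noncomputable def sq (g : ℕ → ℂ) (n : ℕ) : ℂ := ∑ k ∈ Finset.range (n + 1), g k * g (n - k)

/-- the mean value of the square of the absolute value at height `h` -/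
noncomputable def Q (p : ℝ) (g : ℕ → ℂ) (h : ℝ) : ℝ :=
  ∑' n : ℕ, ‖g n‖ ^ 2 * Real.exp (-(2 * Real.pi * h / p) * n)

lemma exp_lt_one {p h : ℝ} (hp : 0 < p) (hh : 0 < h) : Real.exp (-(Real.pi * h / p)) < 1 := by
  rw [Real.exp_lt_one_iff]
  have : 0 < Real.pi * h / p := by positivity
  linarith

lemma norm_co (p : ℝ) (g : ℕ → ℂ) (h : ℝ) (n : ℕ) :
    ‖co p g h n‖ = ‖g n‖ * Real.exp (-(Real.pi * h / p)) ^ n := by
  rw [co, norm_mul, norm_real, Real.norm_of_nonneg (by positivity)]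

lemma summable_co {p h : ℝ} {g : ℕ → ℂ} (hp : 0 < p) (hh : 0 < h) (hg : IsWS g) :
    Summable fun n => ‖co p g h n‖ := by
  simp only [norm_co]
  exact hg.summ _ (Real.exp_pos _) (exp_lt_one hp hh)

lemma norm_term_ws (p : ℝ) (g : ℕ → ℂ) (z : ℂ) (n : ℕ) :
    ‖g n * cexp (Real.pi * I * n * z / p)‖ = ‖g n‖ * Real.exp (-(Real.pi * z.im / p)) ^ n := by
  rw [norm_mul, norm_exp, ← Real.exp_nat_mul]
  congr 2
  have : (Real.pi * I * n * z / p : ℂ) = ((Real.pi * n / p : ℝ) : ℂ) * (I * z) := by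
    push_cast; ring
  rw [this, re_ofReal_mul]
  simp
  ring

lemma ws_eq_tp (p : ℝ) (g : ℕ → ℂ) (x h : ℝ) :
    ws p g (x + h * I) = tp p (co p g h) x := by
  unfold ws tp
  congr 1
  ext n
  have hI : I * I = -1 := I_mul_I
  have e : cexp (Real.pi * I * n * (x + h * I) / p) =
      ((Real.exp (-(Real.pi * h / p)) ^ n : ℝ) : ℂ) * cexp (Real.pi * I * (n : ℤ) * x / p) := by
    rw [← Real.exp_nat_mul, ofReal_exp, ← Complex.exp_add]
    congr 1
    push_cast
    linear_combination (Real.pi * n * h / p : ℂ) * hI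
  rw [co, ex, e]
  ring

lemma Q_eq {p h : ℝ} {g : ℕ → ℂ} (hp : 0 < p) (hh : 0 < h) (hg : IsWS g) :
    ∫ x : ℝ, ‖ws p g (x + h * I)‖ ^ 2 ∂(mu p) = Q p g h := by
  simp only [ws_eq_tp]
  rw [parseval_norm hp (summable_co hp hh hg), Q]
  congr 1
  ext n
  rw [norm_co, mul_pow, ← Real.exp_nat_mul, ← Real.exp_nat_mul]
  congr 2
  push_cast
  ring

lemma mean_ws {p h : ℝ} {g : ℕ → ℂ} (hp : 0 < p) (hh : 0 < h) (hg : IsWS g) :
    ∫ x : ℝ, ws p g (x + h * I) ∂(mu p) = 0 := by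
  simp only [ws_eq_tp]
  rw [mean_tp hp (summable_co hp hh hg), co, hg.zero, zero_mul]

lemma continuous_ws {p h : ℝ} {g : ℕ → ℂ} (hp : 0 < p) (hh : 0 < h) (hg : IsWS g) :
    Continuous fun x : ℝ => ws p g (x + h * I) := by
  simp only [ws_eq_tp]
  exact continuous_tp (summable_co hp hh hg)

lemma norm_ws_le {p h : ℝ} {g : ℕ → ℂ} (hp : 0 < p) (hh : 0 < h) (hg : IsWS g) (x : ℝ) :
    ‖ws p g (x + h * I)‖ ≤ ∑' n, ‖co p g h n‖ := by
  simp only [ws_eq_tp]
  exact norm_tp_le (summable_co hp hh hg) x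

lemma summable_norm_sq {a : ℕ → ℂ} (ha : Summable fun n => ‖a n‖) :
    Summable fun n => ‖a n‖ ^ 2 := by
  refine Summable.of_nonneg_of_le (fun n => by positivity) ?_ (ha.mul_right (∑' n, ‖a n‖))
  intro n
  rw [pow_two]
  exact mul_le_mul_of_nonneg_left (ha.le_tsum n fun j _ => norm_nonneg _) (norm_nonneg _)

lemma summable_Q {p h : ℝ} {g : ℕ → ℂ} (hp : 0 < p) (hh : 0 < h) (hg : IsWS g) :
    Summable fun n : ℕ => ‖g n‖ ^ 2 * Real.exp (-(2 * Real.pi * h / p) * n) := by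
  have h1 := summable_norm_sq (summable_co hp hh hg)
  refine h1.congr ?_
  intro n
  rw [norm_co, mul_pow, ← Real.exp_nat_mul, ← Real.exp_nat_mul]
  congr 2
  push_cast
  ring

lemma Q_nonneg (p : ℝ) (g : ℕ → ℂ) (h : ℝ) : 0 ≤ Q p g h :=
  tsum_nonneg fun n => by positivity

/-! ### Squares -/

lemma isWS_sq {g : ℕ → ℂ} (hg : IsWS g) : IsWS (sq g) := by
  refine ⟨by simp [sq, hg.zero], ?_⟩
  intro r h0 h1
  have hs : Summable fun n => ‖g n * (r : ℂ) ^ n‖ := by
    refine (hg.summ r h0 h1).congr ?_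
    intro n
    rw [norm_mul, norm_pow, norm_real, Real.norm_of_nonneg h0.le]
  have h2 := summable_norm_sum_mul_range_of_summable_norm hs hs
  refine h2.congr ?_
  intro n
  have : ∑ k ∈ Finset.range (n + 1), g k * (r : ℂ) ^ k * (g (n - k) * (r : ℂ) ^ (n - k)) =
      sq g n * (r : ℂ) ^ n := by
    rw [sq, Finset.sum_mul]
    refine Finset.sum_congr rfl ?_
    intro k hk
    have hk' : k ≤ n := by simpa [Nat.lt_succ_iff] using hk
    have e : (r : ℂ) ^ n = (r : ℂ) ^ k * (r : ℂ) ^ (n - k) := by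
      rw [← pow_add, Nat.add_sub_cancel' hk']
    rw [e]; ring
  rw [this, norm_mul, norm_pow, norm_real, Real.norm_of_nonneg h0.le]

lemma summable_ws {p : ℝ} {g : ℕ → ℂ} (hp : 0 < p) (hg : IsWS g) {z : ℂ} (hz : 0 < z.im) :
    Summable fun n : ℕ => ‖g n * cexp (Real.pi * I * n * z / p)‖ := by
  simp only [norm_term_ws]
  exact hg.summ _ (Real.exp_pos _) (exp_lt_one hp hz)

lemma ws_sq {p : ℝ} {g : ℕ → ℂ} (hp : 0 < p) (hg : IsWS g) {z : ℂ} (hz : 0 < z.im) :
    ws p (sq g) z = ws p g z ^ 2 := by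
  have hs := summable_ws hp hg hz
  rw [pow_two, ws, ws, tsum_mul_tsum_eq_tsum_sum_range_of_summable_norm hs hs]
  congr 1
  ext n
  rw [sq, Finset.sum_mul]
  refine Finset.sum_congr rfl ?_
  intro k hk
  have hk' : k ≤ n := by simpa [Nat.lt_succ_iff] using hk
  have e : cexp (Real.pi * I * n * z / p) =
      cexp (Real.pi * I * k * z / p) * cexp (Real.pi * I * (n - k : ℕ) * z / p) := by
    rw [← Complex.exp_add, Nat.cast_sub hk']; congr 1; ring
  rw [e]; ring

/-! ### Derivatives -/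

lemma isWS_dws {p : ℝ} {g : ℕ → ℂ} (hg : IsWS g) : IsWS (dws p g) := by
  refine ⟨by simp [dws], ?_⟩
  intro r h0 h1
  set s := Real.sqrt r with hs
  have hs0 : 0 < s := Real.sqrt_pos.2 h0
  have hs1 : s < 1 := by
    rw [hs, Real.sqrt_lt' one_pos]; simpa using h1
  have hss : s * s = r := Real.mul_self_sqrt h0.le
  have hb := (tendsto_self_mul_const_pow_of_lt_one hs0.le hs1).bddAbove_range
  obtain ⟨B, hB⟩ := hb
  have hB' : ∀ n : ℕ, (n : ℝ) * s ^ n ≤ B := fun n => hB ⟨n, rfl⟩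
  refine Summable.of_nonneg_of_le (fun n => by positivity) ?_
    ((hg.summ s hs0 hs1).mul_left (‖(Real.pi / p : ℂ)‖ * B))
  intro n
  rw [dws, norm_mul]
  have e1 : ‖(Real.pi * I * n / p : ℂ)‖ = ‖(Real.pi / p : ℂ)‖ * n := by
    have : (Real.pi * I * n / p : ℂ) = (Real.pi / p : ℂ) * n * I := by ring
    rw [this, norm_mul, norm_mul, norm_I, mul_one, norm_natCast]
  have e2 : r ^ n = s ^ n * s ^ n := by rw [← hss, mul_pow]
  rw [e1, e2]
  calc ‖(Real.pi / p : ℂ)‖ * n * ‖g n‖ * (s ^ n * s ^ n)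
      = ‖(Real.pi / p : ℂ)‖ * (n * s ^ n) * (‖g n‖ * s ^ n) := by ring
    _ ≤ ‖(Real.pi / p : ℂ)‖ * B * (‖g n‖ * s ^ n) := by
        gcongr
        exact hB' n

lemma hasDerivAt_ws {p : ℝ} {g : ℕ → ℂ} (hp : 0 < p) (hg : IsWS g) {z : ℂ} (hz : 0 < z.im) :
    HasDerivAt (ws p g) (ws p (dws p g) z) z := by
  set U : Set ℂ := {w | z.im / 2 < w.im} with hU
  have hUo : IsOpen U := isOpen_lt continuous_const continuous_im
  have hzU : z ∈ U := by show z.im / 2 < z.im; linarith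
  have hd : ∀ n : ℕ, Differentiable ℂ fun w => g n * cexp (Real.pi * I * n * w / p) := by
    intro n; fun_prop
  have hb : ∀ (n : ℕ), ∀ w ∈ U, ‖g n * cexp (Real.pi * I * n * w / p)‖ ≤
      ‖g n‖ * Real.exp (-(Real.pi * (z.im / 2) / p)) ^ n := by
    intro n w hw
    rw [norm_term_ws]
    have : z.im / 2 < w.im := hw
    gcongr
  have hsu := hg.summ _ (Real.exp_pos _) (exp_lt_one hp (half_pos hz))
  have h1 := hasSum_deriv_of_summable_norm hsu (fun n => (hd n).differentiableOn) hUo hb hzU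
  have h2 := differentiableOn_tsum_of_summable_norm hsu (fun n => (hd n).differentiableOn) hUo hb
  have h3 : DifferentiableAt ℂ (ws p g) z := (h2.differentiableAt (hUo.mem_nhds hzU))
  have h4 := h3.hasDerivAt
  have h5 : deriv (ws p g) z = ws p (dws p g) z := by
    have h6 := h1.tsum_eq
    have h7 : deriv (ws p g) z =
        deriv (fun w => ∑' n : ℕ, g n * cexp (Real.pi * I * n * w / p)) z := rfl
    rw [h7, ← h6, ws]
    congr 1
    ext n
    have h8 : HasDerivAt (fun w : ℂ => g n * cexp (Real.pi * I * n * w / p))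
        (g n * (cexp (Real.pi * I * n * z / p) * (Real.pi * I * n / p))) z := by
      refine HasDerivAt.const_mul _ (HasDerivAt.cexp ?_)
      have h9 := (hasDerivAt_id z).const_mul (Real.pi * I * n : ℂ)
      have h10 := h9.div_const (p : ℂ)
      simpa using h10
    rw [h8.deriv, dws]
    ring
  rwa [h5] at h4

lemma ws_dws_sq {p : ℝ} {g : ℕ → ℂ} (hp : 0 < p) (hg : IsWS g) {z : ℂ} (hz : 0 < z.im) :
    ws p (dws p (sq g)) z = 2 * ws p g z * ws p (dws p g) z := by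
  have h1 := hasDerivAt_ws hp (isWS_sq hg) hz
  have h2 := (hasDerivAt_ws hp hg hz).pow 2
  have h3 : ws p (sq g) =ᶠ[nhds z] fun w => ws p g w ^ 2 := by
    have ho : IsOpen {w : ℂ | 0 < w.im} := isOpen_lt continuous_const continuous_im
    filter_upwards [ho.mem_nhds hz] with w hw
    exact ws_sq hp hg hw
  have h4 := h1.congr_of_eventuallyEq h3.symm
  have h5 := h4.unique h2
  rw [h5]
  simp

end GP
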