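import Pool.Agent.GP.MomB

/-!
# The mean square of a function and of its derivative
-/

namespace GP

open Complex MeasureTheory Set
open scoped ENNReal

/-- `∫_h^∞ (t - h) e^{-bt} dt = e^{-bh} / b²` -/
lemma lintegral_lin_exp {b : ℝ} (hb : 0 < b) (h : ℝ) :
    ∫⁻ t in Ioi h, ENNReal.ofReal ((t - h) * Real.exp (-(b * t))) =
      ENNReal.ofReal (Real.exp (-(b * h)) / b ^ 2) := by
  have hI : IntegrableOn (fun u : ℝ => u * Real.exp (-(b * u))) (Ioi 0) := by
    have h1 := integrableOn_rpow_mul_exp_neg_mul_rpow (p := 1) (s := 1) (b := b) (by norm_num)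
      (by norm_num) hb
    refine h1.congr_fun ?_ measurableSet_Ioi
    intro x _
    simp only [Real.rpow_one]
    ring_nf
  have hv : ∫ u in Ioi (0 : ℝ), u * Real.exp (-(b * u)) = 1 / b ^ 2 := by
    have h1 := Real.integral_rpow_mul_exp_neg_mul_Ioi (a := 2) (r := b) (by norm_num) hb
    have h2 : ∀ t : ℝ, t ^ ((2 : ℝ) - 1) = t := by
      intro t; norm_num
    simp only [h2] at h1
    rw [h1, Real.Gamma_two, mul_one]
    norm_num
  have e0 : ∫⁻ t in Ioi h, ENNReal.ofReal ((t - h) * Real.exp (-(b * t))) =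
      ∫⁻ u in Ioi (0 : ℝ), ENNReal.ofReal (u * Real.exp (-(b * (u + h)))) := by
    rw [← lintegral_indicator measurableSet_Ioi, ← lintegral_indicator measurableSet_Ioi]
    refine Eq.trans ?_ (lintegral_sub_right_eq_self
      (fun u => (Ioi (0 : ℝ)).indicator
        (fun u => ENNReal.ofReal (u * Real.exp (-(b * (u + h))))) u) h)
    congr 1
    ext t
    simp only [indicator, mem_Ioi, sub_pos, sub_add_cancel]
  rw [e0]
  have e1 : ∀ u : ℝ, u * Real.exp (-(b * (u + h))) =
      Real.exp (-(b * h)) * (u * Real.exp (-(b * u))) := by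
    intro u
    rw [mul_add, neg_add, Real.exp_add]; ring
  simp only [e1]
  rw [← ofReal_integral_eq_lintegral_ofReal]
  · rw [integral_const_mul, hv]
    congr 1
    ring
  · exact hI.const_mul _
  · refine (ae_restrict_iff' measurableSet_Ioi).2 (Filter.Eventually.of_forall ?_)
    intro u hu
    have : (0 : ℝ) < u := hu
    show 0 ≤ _
    positivity

lemma norm_dws_sq (p : ℝ) (g : ℕ → ℂ) (n : ℕ) :
    ‖dws p g n‖ ^ 2 = (Real.pi * n / p) ^ 2 * ‖g n‖ ^ 2 := by
  rw [dws, norm_mul, mul_pow]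
  congr 1
  have : (Real.pi * I * n / p : ℂ) = ((Real.pi * n / p : ℝ) : ℂ) * I := by push_cast; ring
  rw [this, norm_mul, norm_I, mul_one, norm_real, Real.norm_eq_abs, sq_abs]

lemma summable_Q' {p t : ℝ} {g : ℕ → ℂ} (hp : 0 < p) (ht : 0 < t) (hg : IsWS g) :
    Summable fun n : ℕ => ‖dws p g n‖ ^ 2 * Real.exp (-(2 * Real.pi * t / p) * n) :=
  summable_Q hp ht (isWS_dws hg)

/-- `Q_g(h) = 4 ∫_h^∞ (t - h) Q_{g'}(t) dt` -/
lemma Q_eq_lintegral {p h : ℝ} {g : ℕ → ℂ} (hp : 0 < p) (hh : 0 < h) (hg : IsWS g) :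
    ENNReal.ofReal (Q p g h) =
      ∫⁻ t in Ioi h, ENNReal.ofReal (4 * ((t - h) * Q p (dws p g) t)) := by
  have e1 : ∀ t ∈ Ioi h, ENNReal.ofReal (4 * ((t - h) * Q p (dws p g) t)) =
      ∑' n : ℕ, ENNReal.ofReal (4 * ‖dws p g n‖ ^ 2 * ((t - h) *
        Real.exp (-(2 * Real.pi * n / p * t)))) := by
    intro t ht
    have ht0 : 0 < t := hh.trans ht
    have hth : 0 ≤ t - h := by have : h < t := ht; linarith
    rw [← ENNReal.ofReal_tsum_of_nonneg]
    · congr 1
      rw [Q, ← tsum_mul_left, ← tsum_mul_left]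
      congr 1
      ext n
      have : -(2 * Real.pi * t / p) * n = -(2 * Real.pi * n / p * t) := by ring
      rw [this]; ring
    · intro n; positivity
    · refine ((summable_Q' hp ht0 hg).mul_left (4 * (t - h))).congr ?_
      intro n
      have : -(2 * Real.pi * t / p) * n = -(2 * Real.pi * n / p * t) := by ring
      rw [this]; ring
  rw [setLIntegral_congr_fun measurableSet_Ioi e1, lintegral_tsum]
  · rw [Q, ENNReal.ofReal_tsum_of_nonneg (fun n => by positivity) (summable_Q hp hh hg)]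
    congr 1
    ext n
    have e2 : ∀ t : ℝ, ENNReal.ofReal (4 * ‖dws p g n‖ ^ 2 * ((t - h) *
        Real.exp (-(2 * Real.pi * n / p * t)))) = ENNReal.ofReal (4 * ‖dws p g n‖ ^ 2) *
        ENNReal.ofReal ((t - h) * Real.exp (-(2 * Real.pi * n / p * t))) := by
      intro t
      rw [ENNReal.ofReal_mul (by positivity)]
    simp only [e2]
    rw [lintegral_const_mul]
    · rcases Nat.eq_zero_or_pos n with hn | hn
      · subst hn
        simp [hg.zero, dws]
      · have hn' : (0 : ℝ) < n := by exact_mod_cast hn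
        rw [lintegral_lin_exp (by positivity), ← ENNReal.ofReal_mul (by positivity), norm_dws_sq]
        congr 1
        have : -(2 * Real.pi * h / p) * n = -(2 * Real.pi * n / p * h) := by ring
        rw [this]
        have hpi := Real.pi_pos
        field_simp
        ring
    · fun_prop
  · intro n
    fun_prop

lemma Q_anti {p : ℝ} {g : ℕ → ℂ} (hp : 0 < p) (hg : IsWS g) {s t : ℝ} (hs : 0 < s) (hst : s ≤ t) :
    Q p g t ≤ Q p g s := by
  unfold Q
  refine (summable_Q hp (hs.trans_le hst) hg).tsum_le_tsum ?_ (summable_Q hp hs hg)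
  intro n
  have hpi := Real.pi_pos
  gcongr

/-- exponential decay -/
lemma Q_decay {p : ℝ} {g : ℕ → ℂ} (hp : 0 < p) (hg : IsWS g) {t : ℝ} (ht : 1 ≤ t) :
    Q p g t ≤ Q p g 1 * Real.exp (-(2 * Real.pi / p * (t - 1))) := by
  have hpi := Real.pi_pos
  unfold Q
  rw [← tsum_mul_right]
  refine (summable_Q hp (by linarith) hg).tsum_le_tsum ?_ ((summable_Q hp one_pos hg).mul_right _)
  intro n
  rcases Nat.eq_zero_or_pos n with hn | hn
  · subst hn; simp [hg.zero]
  · have hn' : (1 : ℝ) ≤ n := by exact_mod_cast hn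
    rw [mul_assoc (‖g n‖ ^ 2), ← Real.exp_add]
    refine mul_le_mul_of_nonneg_left (Real.exp_le_exp.2 ?_) (by positivity)
    have h1 : 0 ≤ 2 * Real.pi / p * (t - 1) * (n - 1) := by
      have : 0 ≤ t - 1 := by linarith
      have : 0 ≤ (n : ℝ) - 1 := by linarith
      positivity
    have h2 : -(2 * Real.pi * t / p) * n = -(2 * Real.pi * 1 / p) * n +
        -(2 * Real.pi / p * (t - 1)) - 2 * Real.pi / p * (t - 1) * (n - 1) := by
      ring
    rw [h2]
    linarith

end GP
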