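import Pool.Agent.GP.MomC

/-!
# Logarithmic upper and lower bounds for mean squares
-/

namespace GP

open Complex MeasureTheory Set
open scoped ENNReal

/-- the constant in the upper bounds -/
noncomputable def bb (p : ℝ) : ℝ := 2 * Real.exp (Real.pi / p) / (2 * Real.pi / p) ^ 2

lemma bb_nonneg (p : ℝ) : 0 ≤ bb p := by unfold bb; positivity

lemma lintegral_inv {h : ℝ} (hh : 0 < h) (h1 : h ≤ 1) {D : ℝ} (hD : 0 ≤ D) :
    ∫⁻ t in Ioc h 1, ENNReal.ofReal (D / t) = ENNReal.ofReal (D * Real.log (1 / h)) := by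
  have hc : ContinuousOn (fun t : ℝ => D / t) (uIcc h 1) := by
    rw [uIcc_of_le h1]
    refine continuousOn_const.div continuousOn_id ?_
    intro t ht
    exact (hh.trans_le ht.1).ne'
  have hi : IntegrableOn (fun t : ℝ => D / t) (Ioc h 1) := by
    have := hc.intervalIntegrable (μ := volume)
    rwa [intervalIntegrable_iff_integrableOn_Ioc_of_le h1] at this
  rw [← ofReal_integral_eq_lintegral_ofReal hi]
  · congr 1
    rw [← intervalIntegral.integral_of_le h1]
    simp only [div_eq_mul_inv]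
    rw [intervalIntegral.integral_const_mul, integral_inv_of_pos hh one_pos]
    simp
  · refine (ae_restrict_iff' measurableSet_Ioc).2 (Filter.Eventually.of_forall ?_)
    intro t ht
    have : 0 < t := hh.trans ht.1
    show 0 ≤ _
    positivity

lemma Q_upper {p h : ℝ} {g : ℕ → ℂ} (hp : 0 < p) (hg : IsWS g) {D : ℝ} (hD : 0 ≤ D) (hh : 0 < h)
    (h1 : h ≤ 1) (hb : ∀ t, h ≤ t → t ≤ 1 → Q p (dws p g) t ≤ D / t ^ 2) :
    Q p g h ≤ 4 * D * (Real.log (1 / h) + bb p) := by
  have hpi := Real.pi_pos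
  have hlog : 0 ≤ Real.log (1 / h) := Real.log_nonneg (by rw [le_div_iff₀ hh]; linarith)
  have hbb := bb_nonneg p
  rw [← ENNReal.ofReal_le_ofReal_iff (by positivity), Q_eq_lintegral hp hh hg]
  have hsplit : Ioi h = Ioc h 1 ∪ Ioi 1 := (Ioc_union_Ioi_eq_Ioi h1).symm
  rw [hsplit]
  refine (lintegral_union_le _ _ _).trans ?_
  have hA : ∫⁻ t in Ioc h 1, ENNReal.ofReal (4 * ((t - h) * Q p (dws p g) t)) ≤
      ENNReal.ofReal (4 * D * Real.log (1 / h)) := by
    rw [← lintegral_inv hh h1 (by positivity)]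
    refine setLIntegral_mono' measurableSet_Ioc ?_
    intro t ht
    refine ENNReal.ofReal_le_ofReal ?_
    have ht0 : 0 < t := hh.trans ht.1
    have h2 := hb t ht.1.le ht.2
    have h3 : t * Q p (dws p g) t ≤ D / t := by
      calc t * Q p (dws p g) t ≤ t * (D / t ^ 2) := by gcongr
        _ = D / t := by field_simp
    have h4 : (t - h) * Q p (dws p g) t ≤ t * Q p (dws p g) t := by
      have := Q_nonneg p (dws p g) t
      nlinarith
    calc 4 * ((t - h) * Q p (dws p g) t) ≤ 4 * (D / t) := by linarith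
      _ = 4 * D / t := by ring
  have hB : ∫⁻ t in Ioi (1 : ℝ), ENNReal.ofReal (4 * ((t - h) * Q p (dws p g) t)) ≤
      ENNReal.ofReal (4 * D * bb p) := by
    set b : ℝ := 2 * Real.pi / p with hbdef
    have hb0 : 0 < b := by positivity
    have e : ENNReal.ofReal (4 * D * bb p) =
        ∫⁻ t in Ioi (1 / 2 : ℝ), ENNReal.ofReal (8 * D * Real.exp b) *
          ENNReal.ofReal ((t - 1 / 2) * Real.exp (-(b * t))) := by
      rw [lintegral_const_mul _ (by fun_prop), lintegral_lin_exp hb0,
        ← ENNReal.ofReal_mul (by positivity)]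
      congr 1
      have h5 : Real.exp (Real.pi / p) = Real.exp b * Real.exp (-(b * (1 / 2))) := by
        rw [← Real.exp_add]; congr 1; rw [hbdef]; ring
      rw [bb, h5]
      ring
    rw [e]
    refine (setLIntegral_mono' measurableSet_Ioi ?_).trans
      (lintegral_mono_set (Ioi_subset_Ioi (by norm_num : (1 / 2 : ℝ) ≤ 1)))
    intro t ht
    have ht1 : (1 : ℝ) < t := ht
    rw [← ENNReal.ofReal_mul (by positivity)]
    refine ENNReal.ofReal_le_ofReal ?_
    have h6 := Q_decay hp (isWS_dws (p := p) hg) ht1.le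
    have h7 : Q p (dws p g) 1 ≤ D := by simpa using hb 1 h1 le_rfl
    have h8 : Real.exp (-(2 * Real.pi / p * (t - 1))) = Real.exp b * Real.exp (-(b * t)) := by
      rw [← Real.exp_add]; congr 1; rw [hbdef]; ring
    rw [h8] at h6
    have h9 : Q p (dws p g) t ≤ D * (Real.exp b * Real.exp (-(b * t))) :=
      h6.trans (by gcongr)
    have h10 : t - h ≤ 2 * (t - 1 / 2) := by linarith
    have h11 := Q_nonneg p (dws p g) t
    calc 4 * ((t - h) * Q p (dws p g) t)
        ≤ 4 * (2 * (t - 1 / 2) * Q p (dws p g) t) := by gcongr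
      _ ≤ 4 * (2 * (t - 1 / 2) * (D * (Real.exp b * Real.exp (-(b * t))))) := by
          have : 0 ≤ t - 1 / 2 := by linarith
          gcongr
      _ = 8 * D * Real.exp b * ((t - 1 / 2) * Real.exp (-(b * t))) := by ring
  refine (add_le_add hA hB).trans_eq ?_
  rw [← ENNReal.ofReal_add (by positivity) (by positivity)]
  congr 1
  ring

lemma integral_lower {h h0 : ℝ} (hh : 0 < h) (h1 : h ≤ h0) :
    ∫ t in h..h0, (t - h) / t ^ 2 = Real.log (h0 / h) - 1 + h / h0 := by
  have h0' : 0 < h0 := hh.trans_le h1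
  have hd : ∀ t ∈ uIcc h h0, HasDerivAt (fun t => Real.log t + h * t⁻¹) ((t - h) / t ^ 2) t := by
    intro t ht
    rw [uIcc_of_le h1] at ht
    have ht0 : 0 < t := hh.trans_le ht.1
    have h2 := (Real.hasDerivAt_log ht0.ne').add ((hasDerivAt_inv ht0.ne').const_mul h)
    have h3 : t⁻¹ + h * -(t ^ 2)⁻¹ = (t - h) / t ^ 2 := by
      rw [sub_div, pow_two, div_mul_cancel_left₀ ht0.ne', mul_neg, ← sub_eq_add_neg,
        div_eq_mul_inv]
    rw [h3] at h2
    exact h2
  rw [intervalIntegral.integral_eq_sub_of_hasDerivAt hd]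
  · rw [Real.log_div h0'.ne' hh.ne']
    field_simp
    ring
  · refine ContinuousOn.intervalIntegrable ?_
    rw [uIcc_of_le h1]
    refine (continuousOn_id.sub continuousOn_const).div (continuousOn_id.pow 2) ?_
    intro t ht
    have ht0 : 0 < t := hh.trans_le ht.1
    exact (pow_pos ht0 2).ne'

lemma Q_lower {p h h0 : ℝ} {g : ℕ → ℂ} (hp : 0 < p) (hg : IsWS g) {c : ℝ} (hc : 0 ≤ c) (hh : 0 < h)
    (h1 : h ≤ h0) (hb : ∀ t, h ≤ t → t ≤ h0 → c / t ^ 2 ≤ Q p (dws p g) t) :
    4 * c * (Real.log (h0 / h) - 1) ≤ Q p g h := by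
  have h0' : 0 < h0 := hh.trans_le h1
  have key : 4 * c * (Real.log (h0 / h) - 1 + h / h0) ≤ Q p g h := by
    rw [← ENNReal.ofReal_le_ofReal_iff (Q_nonneg _ _ _), Q_eq_lintegral hp hh hg]
    have hi : IntervalIntegrable (fun t : ℝ => 4 * c * ((t - h) / t ^ 2)) volume h h0 := by
      refine ContinuousOn.intervalIntegrable ?_
      rw [uIcc_of_le h1]
      refine continuousOn_const.mul
        ((continuousOn_id.sub continuousOn_const).div (continuousOn_id.pow 2) ?_)
      intro t ht
      have ht0 : 0 < t := hh.trans_le ht.1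
      exact (pow_pos ht0 2).ne'
    have e : 4 * c * (Real.log (h0 / h) - 1 + h / h0) =
        ∫ t in Ioc h h0, 4 * c * ((t - h) / t ^ 2) := by
      rw [← intervalIntegral.integral_of_le h1, intervalIntegral.integral_const_mul,
        integral_lower hh h1]
    rw [e, ofReal_integral_eq_lintegral_ofReal]
    · refine (setLIntegral_mono' measurableSet_Ioc ?_).trans
        (lintegral_mono_set (Ioc_subset_Ioi_self))
      intro t ht
      refine ENNReal.ofReal_le_ofReal ?_
      have h2 := hb t ht.1.le ht.2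
      have h3 : 0 ≤ t - h := by have := ht.1; linarith
      calc 4 * c * ((t - h) / t ^ 2) = 4 * ((t - h) * (c / t ^ 2)) := by ring
        _ ≤ 4 * ((t - h) * Q p (dws p g) t) := by gcongr
    · rwa [intervalIntegrable_iff_integrableOn_Ioc_of_le h1] at hi
    · refine (ae_restrict_iff' measurableSet_Ioc).2 (Filter.Eventually.of_forall ?_)
      intro t ht
      have h3 : 0 ≤ t - h := by have := ht.1; linarith
      show 0 ≤ _
      positivity
  have h2 : 0 ≤ 4 * c * (h / h0) := by positivity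
  nlinarith

end GP
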