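import Pool.Agent.GP.MomD

/-!
# Second and fourth moments give a lower bound for a tail probability
-/

namespace GP

open Complex MeasureTheory Set

lemma abs_ge_poly {a : ℝ} (ha : 0 ≤ a) (z : ℝ) : a * z ^ 2 - 4 / 27 * a ^ 3 * z ^ 4 ≤ |z| := by
  have h1 : z ^ 2 = |z| ^ 2 := (sq_abs z).symm
  have h2 : z ^ 4 = |z| ^ 4 := by rw [show (4 : ℕ) = 2 * 2 by norm_num, pow_mul, pow_mul, sq_abs]
  rw [h1, h2]
  set x := |z|
  have hx : 0 ≤ x := abs_nonneg z
  have h3 : x - (a * x ^ 2 - 4 / 27 * a ^ 3 * x ^ 4) =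
      x * ((1 - 2 * (a * x) / 3) ^ 2 * (1 + a * x / 3)) := by ring
  have h4 : 0 ≤ x * ((1 - 2 * (a * x) / 3) ^ 2 * (1 + a * x / 3)) := by positivity
  linarith

/-- the constant -/
noncomputable def kap (m2 m4 : ℝ) : ℝ := min 1 (m2 / m4) * m2 / 4

lemma kap_pos {m2 m4 : ℝ} (h2 : 0 < m2) (h4 : 0 < m4) : 0 < kap m2 m4 := by
  unfold kap
  have : 0 < min 1 (m2 / m4) := lt_min one_pos (by positivity)
  positivity

lemma prob_lower {Ω : Type*} [MeasurableSpace Ω] {P : Measure Ω} [IsProbabilityMeasure P]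
    {Z : Ω → ℝ} (hZ : Measurable Z) {B : ℝ} (hB : ∀ x, |Z x| ≤ B) (h0 : ∫ x, Z x ∂P = 0)
    {v m2 M2 m4 : ℝ} (hv : 0 < v) (hm2 : 0 < m2) (hM2 : 0 < M2) (hm4 : 0 < m4)
    (h2 : m2 * v ^ 2 ≤ ∫ x, Z x ^ 2 ∂P) (h2' : ∫ x, Z x ^ 2 ∂P ≤ M2 * v ^ 2)
    (h4 : ∫ x, Z x ^ 4 ∂P ≤ m4 * v ^ 4) :
    kap m2 m4 ^ 2 / (4 * M2) ≤ P.real {x | Z x ≤ -(kap m2 m4 / 2 * v)} := by
  have hk := kap_pos hm2 hm4
  set k := kap m2 m4 with hkdef
  have hint : ∀ {f : Ω → ℝ}, Measurable f → (∃ C, ∀ x, |f x| ≤ C) → Integrable f P := by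
    intro f hf ⟨C, hC⟩
    exact (integrable_const C).mono' hf.aestronglyMeasurable (Filter.Eventually.of_forall hC)
  have hB0 : ∀ x, 0 ≤ B := fun x => (abs_nonneg _).trans (hB x)
  have i1 : Integrable Z P := hint hZ ⟨B, hB⟩
  have ia : Integrable (fun x => |Z x|) P := i1.abs
  have i2 : Integrable (fun x => Z x ^ 2) P := by
    refine hint (hZ.pow_const 2) ⟨B ^ 2, fun x => ?_⟩
    rw [abs_pow]
    exact pow_le_pow_left₀ (abs_nonneg _) (hB x) 2
  have i4 : Integrable (fun x => Z x ^ 4) P := by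
    refine hint (hZ.pow_const 4) ⟨B ^ 4, fun x => ?_⟩
    rw [abs_pow]
    exact pow_le_pow_left₀ (abs_nonneg _) (hB x) 4
  set D : Set Ω := {x | Z x ≤ -(k / 2 * v)} with hD
  have hDm : MeasurableSet D := measurableSet_le hZ measurable_const
  -- lower bound for the mean of |Z|
  set t := min 1 (m2 / m4) with ht
  have ht0 : 0 < t := lt_min one_pos (by positivity)
  have ht2 : t ^ 2 * m4 ≤ m2 := by
    have a1 : t ≤ 1 := min_le_left _ _
    have a2 : t * m4 ≤ m2 := by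
      have : t ≤ m2 / m4 := min_le_right _ _
      rwa [le_div_iff₀ hm4] at this
    nlinarith
  have hk4 : 4 * k = t * m2 := by rw [hkdef, kap]; ring
  have hlow : 2 * k * v ≤ ∫ x, |Z x| ∂P := by
    have a1 : ∫ x, (t / v * Z x ^ 2 - 4 / 27 * (t / v) ^ 3 * Z x ^ 4) ∂P ≤ ∫ x, |Z x| ∂P := by
      refine integral_mono ((i2.const_mul _).sub (i4.const_mul _)) ia ?_
      intro x
      exact abs_ge_poly (by positivity) (Z x)
    rw [integral_sub (i2.const_mul _) (i4.const_mul _), integral_const_mul,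
      integral_const_mul] at a1
    have a2 : t / v * (m2 * v ^ 2) ≤ t / v * ∫ x, Z x ^ 2 ∂P := by gcongr
    have a3 : 4 / 27 * (t / v) ^ 3 * ∫ x, Z x ^ 4 ∂P ≤ 4 / 27 * (t / v) ^ 3 * (m4 * v ^ 4) := by
      gcongr
    have a4 : t / v * (m2 * v ^ 2) = t * m2 * v := by field_simp
    have a5 : 4 / 27 * (t / v) ^ 3 * (m4 * v ^ 4) = 4 / 27 * (t * (t ^ 2 * m4)) * v := by
      field_simp
    have a6 : 4 / 27 * (t * (t ^ 2 * m4)) * v ≤ 4 / 27 * (t * m2) * v := by gcongr
    have a7 : 0 < t * m2 * v := by positivity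
    nlinarith
  -- upper bound for the negative part
  have hpt : ∀ x, (|Z x| - Z x) / 2 ≤ k / 2 * v + k / (4 * M2) / v * Z x ^ 2 +
      v * M2 / k * D.indicator (fun _ => (1 : ℝ)) x := by
    intro x
    by_cases hx : x ∈ D
    · rw [indicator_of_mem hx]
      have hx' : Z x ≤ -(k / 2 * v) := hx
      have hneg : Z x < 0 := by
        have : 0 < k / 2 * v := by positivity
        linarith
      rw [abs_of_neg hneg]
      have e : k / (4 * M2) / v * Z x ^ 2 + v * M2 / k * 1 - -Z x =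
          (k * Z x / (2 * M2) + v) ^ 2 * (M2 / (k * v)) := by
        field_simp
        ring
      have e2 : 0 ≤ (k * Z x / (2 * M2) + v) ^ 2 * (M2 / (k * v)) := by positivity
      have e3 : 0 < k / 2 * v := by positivity
      linarith
    · rw [indicator_of_notMem hx]
      have hx' : -(k / 2 * v) < Z x := not_le.1 hx
      have e1 : 0 ≤ k / (4 * M2) / v * Z x ^ 2 := by positivity
      have e3 : 0 < k / 2 * v := by positivity
      rcases le_total 0 (Z x) with h | h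
      · rw [abs_of_nonneg h]; linarith
      · rw [abs_of_nonpos h]; linarith
  have iD : Integrable (D.indicator (fun _ => (1 : ℝ))) P :=
    (integrable_const 1).indicator hDm
  have hup := integral_mono ((ia.sub i1).div_const 2)
    (((integrable_const (k / 2 * v)).add (i2.const_mul (k / (4 * M2) / v))).add
      (iD.const_mul (v * M2 / k))) hpt
  have e1 : ∫ x, ((fun x => |Z x|) - Z) x / 2 ∂P = (∫ x, |Z x| ∂P) / 2 := by
    rw [integral_div]
    congr 1
    have : ∫ x, ((fun x => |Z x|) - Z) x ∂P = (∫ x, |Z x| ∂P) - ∫ x, Z x ∂P :=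
      integral_sub ia i1
    rw [this, h0, sub_zero]
  have e2 : ∫ x, (k / 2 * v + k / (4 * M2) / v * Z x ^ 2 +
      v * M2 / k * D.indicator (fun _ => (1 : ℝ)) x) ∂P =
      k / 2 * v + k / (4 * M2) / v * ∫ x, Z x ^ 2 ∂P + v * M2 / k * P.real D := by
    have b1 := integral_add (μ := P) ((integrable_const (k / 2 * v)).add
      (i2.const_mul (k / (4 * M2) / v))) (iD.const_mul (v * M2 / k))
    have b2 := integral_add (μ := P) (integrable_const (k / 2 * v))
      (i2.const_mul (k / (4 * M2) / v))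
    have b3 : ∫ x, D.indicator (fun _ => (1 : ℝ)) x ∂P = P.real D := by
      rw [integral_indicator hDm]; simp
    simp only [Pi.add_apply] at b1
    rw [b1, b2, integral_const, integral_const_mul (k / (4 * M2) / v),
      integral_const_mul (v * M2 / k), b3]
    simp
  have hup' : (∫ x, |Z x| ∂P) / 2 ≤ k / 2 * v + k / (4 * M2) / v * ∫ x, Z x ^ 2 ∂P +
      v * M2 / k * P.real D := by
    rw [← e1, ← e2]; exact hup
  have f1 : k / (4 * M2) / v * ∫ x, Z x ^ 2 ∂P ≤ k / 4 * v := by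
    calc k / (4 * M2) / v * ∫ x, Z x ^ 2 ∂P ≤ k / (4 * M2) / v * (M2 * v ^ 2) := by gcongr
      _ = k / 4 * v := by field_simp
  have f2 : k / 4 * v ≤ v * M2 / k * P.real D := by linarith
  have f3 : k ^ 2 / (4 * M2) = k / 4 * v * (k / (v * M2)) := by field_simp
  rw [f3]
  calc k / 4 * v * (k / (v * M2)) ≤ v * M2 / k * P.real D * (k / (v * M2)) := by gcongr
    _ = P.real D := by field_simp

end GP
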