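import Pool.Agent.GP.MomE

/-!
# Distribution on horocycles: one function
-/

namespace GP

open Complex MeasureTheory Set

/-- the derivative is `O (1 / Im z)` -/
def Bloch (p : ℝ) (g : ℕ → ℂ) (C : ℝ) : Prop :=
  ∀ z : ℂ, 0 < z.im → ‖ws p (dws p g) z‖ * z.im ≤ C

lemma Bloch.Q_le {p : ℝ} {g : ℕ → ℂ} {C : ℝ} (hp : 0 < p) (hg : IsWS g) (hB : Bloch p g C) {t : ℝ}
    (ht : 0 < t) : Q p (dws p g) t ≤ C ^ 2 / t ^ 2 := by
  have hpr := mu_prob hp
  rw [← Q_eq hp ht (isWS_dws hg)]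
  have : ∫ x : ℝ, ‖ws p (dws p g) (x + t * I)‖ ^ 2 ∂(mu p) ≤ ∫ x : ℝ, C ^ 2 / t ^ 2 ∂(mu p) := by
    refine integral_mono ?_ (integrable_const _) ?_
    · have hc := continuous_ws hp ht (isWS_dws (p := p) hg)
      refine integrable_of_bdd hp (hc.norm.pow 2) ((∑' n, ‖co p (dws p g) t n‖) ^ 2) ?_
      intro x
      rw [norm_pow, norm_norm]
      exact pow_le_pow_left₀ (norm_nonneg _) (norm_ws_le hp ht (isWS_dws hg) x) 2
    · intro x
      have h1 := hB (x + t * I) (by simpa using ht)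
      have h2 : (x + t * I : ℂ).im = t := by simp
      rw [h2, ← le_div_iff₀ ht] at h1
      show ‖ws p (dws p g) (x + t * I)‖ ^ 2 ≤ C ^ 2 / t ^ 2
      rw [← div_pow]
      exact pow_le_pow_left₀ (norm_nonneg _) h1 2
  simpa using this

lemma Bloch.nonneg {p : ℝ} {g : ℕ → ℂ} {C : ℝ} (hB : Bloch p g C) : 0 ≤ C := by
  have := hB I (by simp)
  refine le_trans ?_ this
  have : (0 : ℝ) ≤ I.im := by simp
  positivity

lemma Bloch.second {p h : ℝ} {g : ℕ → ℂ} {C : ℝ} (hp : 0 < p) (hg : IsWS g) (hB : Bloch p g C)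
    (hh : 0 < h) (h1 : h ≤ 1) : Q p g h ≤ 4 * C ^ 2 * (Real.log (1 / h) + bb p) :=
  Q_upper hp hg (by positivity) hh h1 fun t ht _ => hB.Q_le hp hg (hh.trans_le ht)

lemma Bloch.fourth {p h : ℝ} {g : ℕ → ℂ} {C : ℝ} (hp : 0 < p) (hg : IsWS g) (hB : Bloch p g C)
    (hh : 0 < h) (h1 : h ≤ 1) : Q p (sq g) h ≤ 64 * C ^ 4 * (Real.log (1 / h) + bb p) ^ 2 := by
  have hpr := mu_prob hp
  have hlog : 0 ≤ Real.log (1 / h) := Real.log_nonneg (by rw [le_div_iff₀ hh]; linarith)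
  have hbb := bb_nonneg p
  have key : ∀ t, h ≤ t → t ≤ 1 → Q p (dws p (sq g)) t ≤ (4 * C ^ 2 * Q p g h) / t ^ 2 := by
    intro t ht _
    have ht0 : 0 < t := hh.trans_le ht
    rw [← Q_eq hp ht0 (isWS_dws (isWS_sq hg))]
    have : ∫ x : ℝ, ‖ws p (dws p (sq g)) (x + t * I)‖ ^ 2 ∂(mu p) ≤
        ∫ x : ℝ, 4 * C ^ 2 / t ^ 2 * ‖ws p g (x + t * I)‖ ^ 2 ∂(mu p) := by
      refine integral_mono ?_ ?_ ?_
      · have hc := continuous_ws hp ht0 (isWS_dws (p := p) (isWS_sq hg))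
        refine integrable_of_bdd hp (hc.norm.pow 2) ((∑' n, ‖co p (dws p (sq g)) t n‖) ^ 2) ?_
        intro x
        rw [norm_pow, norm_norm]
        exact pow_le_pow_left₀ (norm_nonneg _) (norm_ws_le hp ht0 (isWS_dws (isWS_sq hg)) x) 2
      · have hc := continuous_ws hp ht0 hg
        refine (integrable_of_bdd hp (hc.norm.pow 2) ((∑' n, ‖co p g t n‖) ^ 2) ?_).const_mul _
        intro x
        show ‖‖ws p g (x + t * I)‖ ^ 2‖ ≤ _
        rw [norm_pow, norm_norm]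
        exact pow_le_pow_left₀ (norm_nonneg _) (norm_ws_le hp ht0 hg x) 2
      · intro x
        have hz : 0 < (x + t * I : ℂ).im := by simpa using ht0
        have h2 := hB (x + t * I) hz
        have h3 : (x + t * I : ℂ).im = t := by simp
        rw [h3, ← le_div_iff₀ ht0] at h2
        show ‖ws p (dws p (sq g)) (x + t * I)‖ ^ 2 ≤ 4 * C ^ 2 / t ^ 2 * ‖ws p g (x + t * I)‖ ^ 2
        rw [ws_dws_sq hp hg hz, norm_mul, norm_mul]
        have h4 : ‖(2 : ℂ)‖ = 2 := by simp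
        rw [h4, mul_pow, mul_pow]
        have h5 : ‖ws p (dws p g) (x + t * I)‖ ^ 2 ≤ (C / t) ^ 2 :=
          pow_le_pow_left₀ (norm_nonneg _) h2 2
        calc (2 : ℝ) ^ 2 * ‖ws p g (x + t * I)‖ ^ 2 * ‖ws p (dws p g) (x + t * I)‖ ^ 2
            ≤ (2 : ℝ) ^ 2 * ‖ws p g (x + t * I)‖ ^ 2 * (C / t) ^ 2 := by gcongr
          _ = 4 * C ^ 2 / t ^ 2 * ‖ws p g (x + t * I)‖ ^ 2 := by
              rw [div_pow]; ring
    refine this.trans ?_
    rw [integral_const_mul, Q_eq hp ht0 hg]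
    calc 4 * C ^ 2 / t ^ 2 * Q p g t ≤ 4 * C ^ 2 / t ^ 2 * Q p g h := by
          have := Q_anti hp hg hh ht
          gcongr
      _ = 4 * C ^ 2 * Q p g h / t ^ 2 := by ring
  have hQ := Q_nonneg p g h
  have h2 := Q_upper hp (isWS_sq hg) (by positivity) hh h1 key
  refine h2.trans ?_
  have h3 := hB.second hp hg hh h1
  calc 4 * (4 * C ^ 2 * Q p g h) * (Real.log (1 / h) + bb p)
      ≤ 4 * (4 * C ^ 2 * (4 * C ^ 2 * (Real.log (1 / h) + bb p))) * (Real.log (1 / h) + bb p) := by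
        gcongr
    _ = 64 * C ^ 4 * (Real.log (1 / h) + bb p) ^ 2 := by ring

lemma Q_sq_eq {p h : ℝ} {g : ℕ → ℂ} (hp : 0 < p) (hh : 0 < h) (hg : IsWS g) :
    ∫ x : ℝ, ‖ws p g (x + h * I)‖ ^ 4 ∂(mu p) = Q p (sq g) h := by
  rw [← Q_eq hp hh (isWS_sq hg)]
  congr 1
  ext x
  rw [ws_sq hp hg (by simpa using hh), norm_pow, ← pow_mul]

/-- the mean of the square of the real part is half the mean of the square of the norm -/
lemma mean_re_sq {p h : ℝ} {g : ℕ → ℂ} (hp : 0 < p) (hh : 0 < h) (hg : IsWS g) :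
    ∫ x : ℝ, (ws p g (x + h * I)).re ^ 2 ∂(mu p) = Q p g h / 2 := by
  have h1 := mean_ws hp hh (isWS_sq hg)
  have h2 : ∀ x : ℝ, ws p (sq g) (x + h * I) = ws p g (x + h * I) ^ 2 :=
    fun x => ws_sq hp hg (by simpa using hh)
  have hc := continuous_ws hp hh hg
  have hb := norm_ws_le hp hh hg
  have i1 : Integrable (fun x : ℝ => ws p (sq g) (x + h * I)) (mu p) :=
    integrable_of_bdd hp (continuous_ws hp hh (isWS_sq hg)) _ (norm_ws_le hp hh (isWS_sq hg))
  have h3 : ∫ x : ℝ, (ws p (sq g) (x + h * I)).re ∂(mu p) = 0 := by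
    have := integral_re i1
    simp only [RCLike.re_to_complex] at this
    rw [this, h1, zero_re]
  have i2 : Integrable (fun x : ℝ => ‖ws p g (x + h * I)‖ ^ 2) (mu p) := by
    refine integrable_of_bdd hp (hc.norm.pow 2) ((∑' n, ‖co p g h n‖) ^ 2) ?_
    intro x
    rw [norm_pow, norm_norm]
    exact pow_le_pow_left₀ (norm_nonneg _) (hb x) 2
  have i3 : Integrable (fun x : ℝ => (ws p (sq g) (x + h * I)).re) (mu p) := i1.re
  have e : ∀ x : ℝ, (ws p g (x + h * I)).re ^ 2 =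
      (‖ws p g (x + h * I)‖ ^ 2 + (ws p (sq g) (x + h * I)).re) / 2 := by
    intro x
    rw [h2, ← normSq_eq_norm_sq, normSq_apply, pow_two (ws p g (x + h * I)), mul_re]
    ring
  simp only [e]
  rw [integral_div, integral_add i2 i3, h3, add_zero, Q_eq hp hh hg]

/-- One function: a tail probability on horocycles. -/
theorem one_fun {p : ℝ} (hp : 0 < p) {C c h0 : ℝ} (hC : 0 < C) (hc : 0 < c) (hh0 : 0 < h0)
    {g : ℕ → ℂ} (hg : IsWS g) (hB : Bloch p g C)
    (hlow : ∀ h, 0 < h → h ≤ h0 → c / h ^ 2 ≤ Q p (dws p g) h)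
    {s : ℝ} (hs1 : 1 ≤ s) (hs2 : bb p ≤ s) (hs3 : 2 * (1 - Real.log h0) ≤ s) :
    kap c (256 * C ^ 4) ^ 2 / (4 * (4 * C ^ 2)) ≤ (mu p).real
      {x : ℝ | (ws p g (x + Real.exp (-s) * I)).re ≤
        -(kap c (256 * C ^ 4) / 2 * Real.sqrt s)} ∧
    Q p g (Real.exp (-s)) ≤ 8 * C ^ 2 * s := by
  have hpr := mu_prob hp
  have hh : 0 < Real.exp (-s) := Real.exp_pos _
  have h1 : Real.exp (-s) ≤ 1 := by rw [Real.exp_le_one_iff]; linarith
  have hlog : Real.log (1 / Real.exp (-s)) = s := by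
    rw [one_div, ← Real.exp_neg, neg_neg, Real.log_exp]
  have hb0 := bb_nonneg p
  have hsec := hB.second hp hg hh h1
  have hfou := hB.fourth hp hg hh h1
  rw [hlog] at hsec hfou
  have hsec' : Q p g (Real.exp (-s)) ≤ 8 * C ^ 2 * s := by
    refine hsec.trans ?_
    have : 4 * C ^ 2 * (s + bb p) ≤ 4 * C ^ 2 * (s + s) := by gcongr
    linarith
  have hfou' : Q p (sq g) (Real.exp (-s)) ≤ 256 * C ^ 4 * s ^ 2 := by
    refine hfou.trans ?_
    have : 64 * C ^ 4 * (s + bb p) ^ 2 ≤ 64 * C ^ 4 * (s + s) ^ 2 := by gcongr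
    calc _ ≤ _ := this
      _ = 256 * C ^ 4 * s ^ 2 := by ring
  have hle : Real.exp (-s) ≤ h0 := by
    rw [← Real.log_le_log_iff hh hh0, Real.log_exp]; linarith
  have hlo := Q_lower hp hg hc.le hh hle fun t ht ht' => hlow t (hh.trans_le ht) ht'
  have hlo' : 2 * c * s ≤ Q p g (Real.exp (-s)) := by
    refine le_trans ?_ hlo
    rw [Real.log_div hh0.ne' hh.ne', Real.log_exp]
    nlinarith
  refine ⟨?_, hsec'⟩
  have hcont := continuous_ws hp hh hg
  have hbd := norm_ws_le hp hh hg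
  have hsq : Real.sqrt s ^ 2 = s := Real.sq_sqrt (by linarith)
  have hsq4 : Real.sqrt s ^ 4 = s ^ 2 := by
    rw [show (4 : ℕ) = 2 * 2 by norm_num, pow_mul, hsq]
  have hZc : Continuous fun x : ℝ => (ws p g (x + Real.exp (-s) * I)).re :=
    continuous_re.comp hcont
  refine prob_lower (P := mu p) (Z := fun x : ℝ => (ws p g (x + Real.exp (-s) * I)).re)
    hZc.measurable (B := ∑' n, ‖co p g (Real.exp (-s)) n‖)
    (fun x => (abs_re_le_norm _).trans (hbd x)) ?_ (v := Real.sqrt s)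
    (Real.sqrt_pos.2 (by linarith)) hc (by positivity) (by positivity) ?_ ?_ ?_
  · have i1 : Integrable (fun x : ℝ => ws p g (x + Real.exp (-s) * I)) (mu p) :=
      integrable_of_bdd hp hcont _ hbd
    have := integral_re i1
    simp only [RCLike.re_to_complex] at this
    rw [this, mean_ws hp hh hg, zero_re]
  · rw [hsq, mean_re_sq hp hh hg]
    linarith
  · rw [hsq, mean_re_sq hp hh hg]
    linarith
  · rw [hsq4]
    refine le_trans ?_ hfou'
    rw [← Q_sq_eq hp hh hg]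
    refine integral_mono ?_ ?_ ?_
    · refine integrable_of_bdd hp (hZc.pow 4) ((∑' n, ‖co p g (Real.exp (-s)) n‖) ^ 4) ?_
      intro x
      rw [norm_pow]
      exact pow_le_pow_left₀ (norm_nonneg _)
        (((Real.norm_eq_abs _).trans_le (abs_re_le_norm _)).trans (hbd x)) 4
    · refine integrable_of_bdd hp (hcont.norm.pow 4) ((∑' n, ‖co p g (Real.exp (-s)) n‖) ^ 4) ?_
      intro x
      rw [norm_pow, norm_norm]
      exact pow_le_pow_left₀ (norm_nonneg _) (hbd x) 4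
    · intro x
      show (ws p g (x + Real.exp (-s) * I)).re ^ 4 ≤ ‖ws p g (x + Real.exp (-s) * I)‖ ^ 4
      rw [← abs_of_nonneg (show (0 : ℝ) ≤ (ws p g (x + Real.exp (-s) * I)).re ^ 4 by positivity),
        abs_pow]
      exact pow_le_pow_left₀ (abs_nonneg _) (abs_re_le_norm _) 4

/-- lower bound for the mean square from a lower bound on a set of positive proportion -/
lemma Q_lower_of_thick {p h : ℝ} {g : ℕ → ℂ} (hp : 0 < p) (hh : 0 < h) (hg : IsWS g) {c1 q : ℝ}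
    (hc1 : 0 ≤ c1) {D : Set ℝ} (hD : MeasurableSet D) (hP : q ≤ (mu p).real D)
    (hlow : ∀ x ∈ D, c1 ≤ ‖ws p g (x + h * I)‖ * h) : c1 ^ 2 * q / h ^ 2 ≤ Q p g h := by
  have hpr := mu_prob hp
  have hc := continuous_ws hp hh hg
  rw [← Q_eq hp hh hg]
  have i2 : Integrable (fun x : ℝ => ‖ws p g (x + h * I)‖ ^ 2) (mu p) := by
    refine integrable_of_bdd hp (hc.norm.pow 2) ((∑' n, ‖co p g h n‖) ^ 2) ?_
    intro x
    rw [norm_pow, norm_norm]
    exact pow_le_pow_left₀ (norm_nonneg _) (norm_ws_le hp hh hg x) 2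
  have h1 : ∫ x : ℝ, D.indicator (fun _ => c1 ^ 2 / h ^ 2) x ∂(mu p) ≤
      ∫ x : ℝ, ‖ws p g (x + h * I)‖ ^ 2 ∂(mu p) := by
    refine integral_mono ((integrable_const _).indicator hD) i2 ?_
    intro x
    by_cases hx : x ∈ D
    · show D.indicator (fun _ => c1 ^ 2 / h ^ 2) x ≤ ‖ws p g (x + h * I)‖ ^ 2
      rw [indicator_of_mem hx, ← div_pow]
      have := hlow x hx
      rw [← div_le_iff₀ hh] at this
      exact pow_le_pow_left₀ (by positivity) this 2
    · show D.indicator (fun _ => c1 ^ 2 / h ^ 2) x ≤ ‖ws p g (x + h * I)‖ ^ 2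
      rw [indicator_of_notMem hx]
      positivity
  refine le_trans ?_ h1
  rw [integral_indicator hD]
  simp only [integral_const, smul_eq_mul, measureReal_restrict_apply_univ]
  calc c1 ^ 2 * q / h ^ 2 = q * (c1 ^ 2 / h ^ 2) := by ring
    _ ≤ (mu p).real D * (c1 ^ 2 / h ^ 2) := by gcongr

end GP
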