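import Pool.Agent.GP.MomF

/-!
# Distribution on horocycles: several functions
-/

namespace GP

open Complex MeasureTheory Set

section Comb

variable {ι : Type*} [Fintype ι]

/-- the coefficients of a linear combination -/
noncomputable def lc (e : ι → ℂ) (g : ι → ℕ → ℂ) (n : ℕ) : ℂ :=
  ∑ t, (starRingEnd ℂ) (e t) * g t n

lemma isWS_lc {e : ι → ℂ} {g : ι → ℕ → ℂ} (hg : ∀ t, IsWS (g t)) : IsWS (lc e g) := by
  refine ⟨by simp [lc, (hg _).zero], ?_⟩
  intro r h0 h1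
  have hs : Summable fun n => ∑ t, ‖e t‖ * (‖g t n‖ * r ^ n) :=
    summable_sum fun t _ => ((hg t).summ r h0 h1).mul_left _
  refine Summable.of_nonneg_of_le (fun n => by positivity) ?_ hs
  intro n
  rw [lc]
  calc ‖∑ t, (starRingEnd ℂ) (e t) * g t n‖ * r ^ n
      ≤ (∑ t, ‖(starRingEnd ℂ) (e t) * g t n‖) * r ^ n := by
        gcongr; exact norm_sum_le _ _
    _ = ∑ t, ‖e t‖ * (‖g t n‖ * r ^ n) := by
        rw [Finset.sum_mul]
        refine Finset.sum_congr rfl ?_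
        intro t _
        rw [norm_mul, RCLike.norm_conj]; ring

lemma ws_lc {p : ℝ} (hp : 0 < p) {e : ι → ℂ} {g : ι → ℕ → ℂ} (hg : ∀ t, IsWS (g t)) {z : ℂ}
    (hz : 0 < z.im) : ws p (lc e g) z = ∑ t, (starRingEnd ℂ) (e t) * ws p (g t) z := by
  have h1 : ∀ t, Summable fun n : ℕ => (starRingEnd ℂ) (e t) *
      (g t n * cexp (Real.pi * I * n * z / p)) :=
    fun t => (Summable.of_norm (summable_ws hp (hg t) hz)).mul_left _
  have h2 : ∀ t, (starRingEnd ℂ) (e t) * ws p (g t) z =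
      ∑' n : ℕ, (starRingEnd ℂ) (e t) * (g t n * cexp (Real.pi * I * n * z / p)) := by
    intro t; rw [ws, tsum_mul_left]
  simp only [h2]
  rw [← Summable.tsum_finsetSum fun t _ => h1 t, ws]
  congr 1
  ext n
  rw [lc, Finset.sum_mul]
  refine Finset.sum_congr rfl ?_
  intro t _
  ring

lemma dws_lc (p : ℝ) (e : ι → ℂ) (g : ι → ℕ → ℂ) :
    dws p (lc e g) = lc e fun t => dws p (g t) := by
  ext n
  rw [dws, lc, lc, Finset.mul_sum]
  refine Finset.sum_congr rfl ?_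
  intro t _
  rw [dws]; ring

lemma norm_lc_sq {e : ι → ℂ} {g : ι → ℕ → ℂ}
    (hd : ∀ t t' n, g t n ≠ 0 → g t' n ≠ 0 → t = t') (n : ℕ) :
    ‖lc e g n‖ ^ 2 = ∑ t, ‖e t‖ ^ 2 * ‖g t n‖ ^ 2 := by
  by_cases h : ∃ t, g t n ≠ 0
  · obtain ⟨t, ht⟩ := h
    have h0 : ∀ t', t' ≠ t → g t' n = 0 := by
      intro t' ht'
      by_contra h
      exact ht' (hd t' t n h ht)
    rw [lc, Finset.sum_eq_single t, Finset.sum_eq_single t]
    · rw [norm_mul, RCLike.norm_conj, mul_pow]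
    · intro t' _ ht'; simp [h0 t' ht']
    · intro h; exact absurd (Finset.mem_univ t) h
    · intro t' _ ht'; simp [h0 t' ht']
    · intro h; exact absurd (Finset.mem_univ t) h
  · have h' : ∀ t, g t n = 0 := by
      intro t
      by_contra ht
      exact h ⟨t, ht⟩
    simp [lc, h']

lemma Q_lc {p h : ℝ} (hp : 0 < p) (hh : 0 < h) {e : ι → ℂ} {g : ι → ℕ → ℂ}
    (hg : ∀ t, IsWS (g t)) (hd : ∀ t t' n, g t n ≠ 0 → g t' n ≠ 0 → t = t') :
    Q p (lc e g) h = ∑ t, ‖e t‖ ^ 2 * Q p (g t) h := by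
  have h1 : ∀ t, ‖e t‖ ^ 2 * Q p (g t) h = ∑' n : ℕ, ‖e t‖ ^ 2 *
      (‖g t n‖ ^ 2 * Real.exp (-(2 * Real.pi * h / p) * n)) := by
    intro t; rw [Q, tsum_mul_left]
  simp only [h1]
  rw [← Summable.tsum_finsetSum fun t _ => (summable_Q hp hh (hg t)).mul_left _, Q]
  congr 1
  ext n
  rw [norm_lc_sq hd, Finset.sum_mul]
  refine Finset.sum_congr rfl ?_
  intro t _
  ring

lemma norm_le_one {e : ι → ℂ} (he : ∑ t, ‖e t‖ ^ 2 = 1) (t : ι) : ‖e t‖ ≤ 1 := by
  have h1 : ‖e t‖ ^ 2 ≤ ∑ t, ‖e t‖ ^ 2 :=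
    Finset.single_le_sum (f := fun t => ‖e t‖ ^ 2) (fun t _ => by positivity) (Finset.mem_univ t)
  rw [he] at h1
  nlinarith [norm_nonneg (e t)]

lemma bloch_lc {p : ℝ} (hp : 0 < p) {e : ι → ℂ} {g : ι → ℕ → ℂ} (hg : ∀ t, IsWS (g t))
    (he : ∑ t, ‖e t‖ ^ 2 = 1) {C : ℝ} (hB : ∀ t, Bloch p (g t) C) :
    Bloch p (lc e g) (Fintype.card ι * C) := by
  intro z hz
  rw [dws_lc, ws_lc hp (fun t => isWS_dws (hg t)) hz]
  calc ‖∑ t, (starRingEnd ℂ) (e t) * ws p (dws p (g t)) z‖ * z.im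
      ≤ (∑ t, ‖(starRingEnd ℂ) (e t) * ws p (dws p (g t)) z‖) * z.im := by
        gcongr; exact norm_sum_le _ _
    _ = ∑ t, ‖e t‖ * (‖ws p (dws p (g t)) z‖ * z.im) := by
        rw [Finset.sum_mul]
        refine Finset.sum_congr rfl ?_
        intro t _
        rw [norm_mul, RCLike.norm_conj]; ring
    _ ≤ ∑ t : ι, 1 * C := by
        refine Finset.sum_le_sum ?_
        intro t _
        have := norm_le_one he t
        have h2 := hB t z hz
        gcongr
    _ = Fintype.card ι * C := by simp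

/-- Several functions with disjoint frequencies: at height `e^{-s}` the vector of values lies, with
probability bounded below, in the half space opposite to any given unit vector `e`, at distance at
least `κ √s`, and has length at most `√(A₁ s)`. -/
theorem key_prob [Nonempty ι] {p : ℝ} (hp : 0 < p) {C c h0 : ℝ} (hC : 0 < C) (hc : 0 < c)
    (hh0 : 0 < h0) :
    ∃ κ > 0, ∃ A₁ > 0, ∃ c₂ > 0, ∃ s₀ > 0, ∀ g : ι → ℕ → ℂ, (∀ t, IsWS (g t)) →
      (∀ t t' n, g t n ≠ 0 → g t' n ≠ 0 → t = t') → (∀ t, Bloch p (g t) C) →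
      (∀ t h, 0 < h → h ≤ h0 → c / h ^ 2 ≤ Q p (dws p (g t)) h) →
      ∀ e : ι → ℂ, ∑ t, ‖e t‖ ^ 2 = 1 → ∀ s : ℝ, s₀ ≤ s →
        2 * c₂ ≤ (mu p).real {x : ℝ |
          (∑ t, (starRingEnd ℂ) (e t) * ws p (g t) (x + Real.exp (-s) * I)).re ≤
            -(κ * Real.sqrt s) ∧
          ∑ t, ‖ws p (g t) (x + Real.exp (-s) * I)‖ ^ 2 ≤ A₁ * s} := by
  have hpr := mu_prob hp
  obtain ⟨N, hN⟩ : ∃ N : ℝ, N = (Fintype.card ι : ℝ) := ⟨_, rfl⟩
  have hN0 : 0 < N := by rw [hN]; exact_mod_cast Fintype.card_pos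
  set C' : ℝ := N * C with hC'
  have hC'0 : 0 < C' := by positivity
  have hNC : (Fintype.card ι : ℝ) * C = C' := by rw [hC', hN]
  set k : ℝ := kap c (256 * C' ^ 4) with hk
  have hk0 : 0 < k := kap_pos hc (by positivity)
  set c₃ : ℝ := k ^ 2 / (4 * (4 * C' ^ 2)) with hc₃
  have hc₃0 : 0 < c₃ := by positivity
  set A₁ : ℝ := 2 * (N * (8 * C ^ 2)) / c₃ with hA₁
  have hA₁0 : 0 < A₁ := by positivity
  set s₀ : ℝ := max 1 (max (bb p) (2 * (1 - Real.log h0))) with hs₀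
  refine ⟨k / 2, by positivity, A₁, hA₁0, c₃ / 4, by positivity, s₀,
    lt_of_lt_of_le one_pos (le_max_left _ _), ?_⟩
  intro g hg hd hB hlow e he s hs
  have hs1 : 1 ≤ s := (le_max_left _ _).trans hs
  have hs2 : bb p ≤ s := ((le_max_left _ _).trans (le_max_right _ _)).trans hs
  have hs3 : 2 * (1 - Real.log h0) ≤ s := ((le_max_right _ _).trans (le_max_right _ _)).trans hs
  have hh : 0 < Real.exp (-s) := Real.exp_pos _
  have hd' : ∀ t t' n, dws p (g t) n ≠ 0 → dws p (g t') n ≠ 0 → t = t' := by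
    intro t t' n h1 h2
    exact hd t t' n (right_ne_zero_of_mul h1) (right_ne_zero_of_mul h2)
  have h1 := (one_fun hp hC'0 hc hh0 (isWS_lc (e := e) hg)
    (hNC ▸ bloch_lc hp hg he hB) (by
    intro h hh' hle
    rw [dws_lc, Q_lc hp hh' (fun t => isWS_dws (hg t)) hd']
    calc c / h ^ 2 = ∑ t, ‖e t‖ ^ 2 * (c / h ^ 2) := by rw [← Finset.sum_mul, he, one_mul]
      _ ≤ ∑ t, ‖e t‖ ^ 2 * Q p (dws p (g t)) h := by
          refine Finset.sum_le_sum fun t _ => ?_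
          have := hlow t h hh' hle
          gcongr) hs1 hs2 hs3).1
  have h2 : ∀ t, Q p (g t) (Real.exp (-s)) ≤ 8 * C ^ 2 * s := fun t =>
    (one_fun hp hC hc hh0 (hg t) (hB t) (hlow t) hs1 hs2 hs3).2
  have ez : ∀ x : ℝ, ws p (lc e g) (x + Real.exp (-s) * I) =
      ∑ t, (starRingEnd ℂ) (e t) * ws p (g t) (x + Real.exp (-s) * I) :=
    fun x => ws_lc hp hg (by
      have e0 : ((x : ℂ) + (Real.exp (-s) : ℝ) * I).im = Real.exp (-s) := by
        rw [add_im, ofReal_im, im_ofReal_mul, I_im, mul_one, zero_add]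
      rw [e0]; exact hh)
  simp only [ez] at h1
  set D₁ : Set ℝ := {x : ℝ | (∑ t, (starRingEnd ℂ) (e t) *
    ws p (g t) (x + Real.exp (-s) * I)).re ≤ -(k / 2 * Real.sqrt s)} with hD₁
  set D₂ : Set ℝ := {x : ℝ | A₁ * s < ∑ t, ‖ws p (g t) (x + Real.exp (-s) * I)‖ ^ 2} with hD₂
  have hct : ∀ t, Continuous fun x : ℝ => ws p (g t) (x + Real.exp (-s) * I) :=
    fun t => continuous_ws hp hh (hg t)
  have hcs : Continuous fun x : ℝ => ∑ t, ‖ws p (g t) (x + Real.exp (-s) * I)‖ ^ 2 :=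
    continuous_finsetSum _ fun t _ => (hct t).norm.pow 2
  have hD₂m : MeasurableSet D₂ := measurableSet_lt measurable_const hcs.measurable
  -- Chebyshev
  have hch : (mu p).real D₂ ≤ c₃ / 2 := by
    have hi : ∀ t, Integrable (fun x : ℝ => ‖ws p (g t) (x + Real.exp (-s) * I)‖ ^ 2) (mu p) := by
      intro t
      refine integrable_of_bdd hp ((hct t).norm.pow 2)
        ((∑' n, ‖co p (g t) (Real.exp (-s)) n‖) ^ 2) ?_
      intro x
      rw [norm_pow, norm_norm]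
      exact pow_le_pow_left₀ (norm_nonneg _) (norm_ws_le hp hh (hg t) x) 2
    have e1 : ∫ x : ℝ, ∑ t, ‖ws p (g t) (x + Real.exp (-s) * I)‖ ^ 2 ∂(mu p) =
        ∑ t, Q p (g t) (Real.exp (-s)) := by
      rw [integral_finsetSum _ fun t _ => hi t]
      exact Finset.sum_congr rfl fun t _ => Q_eq hp hh (hg t)
    have e2 : ∑ t, Q p (g t) (Real.exp (-s)) ≤ N * (8 * C ^ 2) * s := by
      calc ∑ t, Q p (g t) (Real.exp (-s)) ≤ ∑ _t : ι, 8 * C ^ 2 * s :=
            Finset.sum_le_sum fun t _ => h2 t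
        _ = N * (8 * C ^ 2) * s := by simp [hN]; ring
    have e3 : ∫ x : ℝ, D₂.indicator (fun _ => A₁ * s) x ∂(mu p) ≤
        ∫ x : ℝ, ∑ t, ‖ws p (g t) (x + Real.exp (-s) * I)‖ ^ 2 ∂(mu p) := by
      refine integral_mono ((integrable_const _).indicator hD₂m)
        (integrable_finsetSum _ fun t _ => hi t) ?_
      intro x
      by_cases hx : x ∈ D₂
      · show D₂.indicator (fun _ => A₁ * s) x ≤ _
        rw [indicator_of_mem hx]
        exact le_of_lt hx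
      · show D₂.indicator (fun _ => A₁ * s) x ≤ _
        rw [indicator_of_notMem hx]
        positivity
    rw [integral_indicator hD₂m, e1] at e3
    simp only [integral_const, smul_eq_mul, measureReal_restrict_apply_univ] at e3
    have e4 : (mu p).real D₂ * (A₁ * s) ≤ N * (8 * C ^ 2) * s := e3.trans e2
    have hs0 : 0 < s := by linarith
    have e5 : (mu p).real D₂ ≤ N * (8 * C ^ 2) * s / (A₁ * s) := by
      rwa [le_div_iff₀ (by positivity)]
    refine e5.trans_eq ?_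
    rw [hA₁]
    field_simp
  have hsub : D₁ \ D₂ ⊆ {x : ℝ |
          (∑ t, (starRingEnd ℂ) (e t) * ws p (g t) (x + Real.exp (-s) * I)).re ≤
            -(k / 2 * Real.sqrt s) ∧
          ∑ t, ‖ws p (g t) (x + Real.exp (-s) * I)‖ ^ 2 ≤ A₁ * s} := by
    intro x hx
    exact ⟨hx.1, not_lt.1 hx.2⟩
  refine le_trans ?_ (measureReal_mono hsub)
  have h3 : (mu p).real D₁ ≤ (mu p).real (D₁ \ D₂) + (mu p).real D₂ := by
    refine (measureReal_mono (fun x hx => ?_)).trans (measureReal_union_le _ _)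
    by_cases h : x ∈ D₂
    · exact Or.inr h
    · exact Or.inl ⟨hx, h⟩
  have h4 : c₃ ≤ (mu p).real D₁ := h1
  linarith

end Comb

/-- a holomorphic function given by the series has the series of its derivative -/
lemma deriv_of_eq {p : ℝ} (hp : 0 < p) {g : ℕ → ℂ} (hg : IsWS g) {F F' : ℂ → ℂ}
    (hF : ∀ z : ℂ, 0 < z.im → F z = ws p g z)
    (hF' : ∀ z : ℂ, 0 < z.im → HasDerivAt F (F' z) z) {z : ℂ} (hz : 0 < z.im) :
    F' z = ws p (dws p g) z := by
  have h1 := hasDerivAt_ws hp hg hz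
  have h2 : F =ᶠ[nhds z] ws p g := by
    have ho : IsOpen {w : ℂ | 0 < w.im} := isOpen_lt continuous_const continuous_im
    filter_upwards [ho.mem_nhds hz] with w hw
    exact hF w hw
  exact (hF' z hz).unique (h1.congr_of_eventuallyEq h2)

end GP
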