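import Pool.Agent.GP.Eta
import Pool.Agent.Helper32.GP.Cusp4

/-! Module PERM: the modular group permutes the functions |theta_i^4| Im; growth. -/

set_option autoImplicit false

namespace Pool.Agent.GP

open Complex MatrixGroups UpperHalfPlane

theorem mt_zero (z : ℂ) : mt 0 z = ‖th2 z‖ * z.im := rfl
theorem mt_one (z : ℂ) : mt 1 z = ‖th3 z‖ * z.im := rfl
theorem mt_two (z : ℂ) : mt 2 z = ‖th4 z‖ * z.im := rfl

theorem mt_pos (i : Fin 3) (z : ℍ) : 0 < mt i (z : ℂ) := by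
  have hz : 0 < (z : ℂ).im := z.im_pos
  fin_cases i
  · exact mul_pos (norm_pos_iff.mpr (th2_ne_zero _)) hz
  · exact mul_pos (norm_pos_iff.mpr (th3_ne_zero _)) hz
  · exact mul_pos (norm_pos_iff.mpr (th4_ne_zero _)) hz

/-- permutation of the three functions under `S` -/
def pS : Equiv.Perm (Fin 3) := Equiv.swap 0 2
/-- permutation of the three functions under `T` -/
def pT : Equiv.Perm (Fin 3) := Equiv.swap 1 2

theorem mt_T (i : Fin 3) (z : ℍ) :
    mt i ((ModularGroup.T • z : ℍ) : ℂ) = mt (pT i) (z : ℂ) := by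
  have h1 : ((ModularGroup.T • z : ℍ) : ℂ) = (z : ℂ) + 1 := by
    have := ModularGroup.coe_T_zpow_smul_eq z (n := 1)
    simpa using this
  have h2 : ((z : ℂ) + 1).im = (z : ℂ).im := by simp
  rw [h1]
  fin_cases i
  · show mt 0 _ = mt (pT 0) _
    have : pT 0 = 0 := by decide
    rw [this, mt_zero, mt_zero, th2_add_one, norm_neg, h2]
  · show mt 1 _ = mt (pT 1) _
    have : pT 1 = 2 := by decide
    rw [this, mt_one, mt_two, th3_add_one, h2]
  · show mt 2 _ = mt (pT 2) _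
    have : pT 2 = 1 := by decide
    rw [this, mt_one, mt_two, th4_add_one, h2]

theorem mt_S (i : Fin 3) (z : ℍ) :
    mt i ((ModularGroup.S • z : ℍ) : ℂ) = mt (pS i) (z : ℂ) := by
  have hz : 0 < (z : ℂ).im := z.im_pos
  have hz0 : (z : ℂ) ≠ 0 := z.ne_zero
  have h1 : ((ModularGroup.S • z : ℍ) : ℂ) = -1 / (z : ℂ) := by
    rw [UpperHalfPlane.modular_S_smul]
    show (-(z : ℂ))⁻¹ = _
    rw [neg_div, one_div, inv_neg]
  have h2 : (-1 / (z : ℂ)).im = (z : ℂ).im / ‖(z : ℂ)‖ ^ 2 := by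
    have h3 : ((ModularGroup.S • z : ℍ) : ℂ).im = (ModularGroup.S • z).im := rfl
    rw [← h1, h3, ModularGroup.im_smul_eq_div_normSq, ModularGroup.denom_S,
      Complex.normSq_eq_norm_sq]
    rfl
  have hn : ‖(z : ℂ)‖ ≠ 0 := norm_ne_zero_iff.mpr hz0
  have key : ∀ w : ℂ, ‖-(z : ℂ) ^ 2 * w‖ * ((z : ℂ).im / ‖(z : ℂ)‖ ^ 2) = ‖w‖ * (z : ℂ).im := by
    intro w
    rw [norm_mul, norm_neg, norm_pow]
    field_simp
  rw [h1]
  fin_cases i
  · show mt 0 _ = mt (pS 0) _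
    have : pS 0 = 2 := by decide
    rw [this, mt_zero, mt_two, th2_S hz, h2, key]
  · show mt 1 _ = mt (pS 1) _
    have : pS 1 = 1 := by decide
    rw [this, mt_one, mt_one, th3_S hz, h2, key]
  · show mt 2 _ = mt (pS 2) _
    have : pS 2 = 0 := by decide
    rw [this, mt_zero, mt_two, th4_S hz, h2, key]

theorem mt_perm (g : SL(2, ℤ)) : ∃ σ : Equiv.Perm (Fin 3), ∀ z : ℍ, ∀ i : Fin 3,
    mt i ((g • z : ℍ) : ℂ) = mt (σ i) (z : ℂ) := by
  have hg : g ∈ Subgroup.closure ({ModularGroup.S, ModularGroup.T} : Set SL(2, ℤ)) := by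
    rw [SpecialLinearGroup.SL2Z_generators]; trivial
  induction hg using Subgroup.closure_induction with
  | mem x hx =>
    simp only [Set.mem_insert_iff, Set.mem_singleton_iff] at hx
    rcases hx with rfl | rfl
    · exact ⟨pS, fun z i => mt_S i z⟩
    · exact ⟨pT, fun z i => mt_T i z⟩
  | one => exact ⟨1, fun z i => by simp⟩
  | mul x y _ _ hx hy =>
    obtain ⟨σ, hσ⟩ := hx
    obtain ⟨τ, hτ⟩ := hy
    refine ⟨τ * σ, fun z i => ?_⟩
    rw [mul_smul, hσ, hτ]; rfl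
  | inv x _ hx =>
    obtain ⟨σ, hσ⟩ := hx
    refine ⟨σ⁻¹, fun z i => ?_⟩
    have h1 := hσ (x⁻¹ • z) (σ⁻¹ i)
    rw [smul_inv_smul] at h1
    have h2 : σ (σ⁻¹ i) = i := by simp
    rw [h2] at h1
    exact h1.symm

/-- bounds away from the real axis, decay of th2 -/
theorem th_norm_le_of_im_ge {c : ℝ} (hc : 0 < c) : ∃ C : ℝ, 1 ≤ C ∧ ∀ z : ℂ, c ≤ z.im →
    ‖th2 z‖ ≤ C * Real.exp (-(Real.pi * z.im)) ∧ ‖th3 z‖ ≤ C ∧ ‖th4 z‖ ≤ C := by
  have hpi := Real.pi_pos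
  have hr : Real.exp (-(Real.pi * c)) < 1 := by
    rw [Real.exp_lt_one_iff]; have := mul_pos hpi hc; linarith
  have hsub : Metric.closedBall (0:ℂ) (Real.exp (-(Real.pi * c))) ⊆ Metric.ball 0 1 :=
    Metric.closedBall_subset_ball hr
  obtain ⟨C1, h1⟩ := (isCompact_closedBall (0:ℂ) (Real.exp (-(Real.pi * c)))).exists_bound_of_continuousOn
    (lW4_diff.continuousOn.mono hsub)
  obtain ⟨C2, h2⟩ := (isCompact_closedBall (0:ℂ) (Real.exp (-(Real.pi * c)))).exists_bound_of_continuousOn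
    (lW2_diff.continuousOn.mono hsub)
  refine ⟨max 1 (max (Real.exp C1) (16 * Real.exp C2)), le_max_left _ _, fun z hz => ?_⟩
  have hle : ‖nm z‖ ≤ Real.exp (-(Real.pi * c)) := by
    rw [norm_nm]
    apply Real.exp_le_exp.mpr
    nlinarith
  have hq : nm z ∈ Metric.closedBall (0:ℂ) (Real.exp (-(Real.pi * c))) := by
    rw [mem_closedBall_zero_iff]; exact hle
  have hq' : -nm z ∈ Metric.closedBall (0:ℂ) (Real.exp (-(Real.pi * c))) := by
    rw [mem_closedBall_zero_iff, norm_neg]; exact hle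
  have hexp : ∀ (x : ℂ) (D : ℝ), ‖x‖ ≤ D → ‖cexp x‖ ≤ Real.exp D := by
    intro x D hx
    rw [Complex.norm_exp]
    exact Real.exp_le_exp.mpr ((Complex.re_le_norm x).trans hx)
  refine ⟨?_, ?_, ?_⟩
  · unfold th2
    rw [norm_mul, norm_mul, norm_nm]
    have h3 := hexp _ _ (h2 _ hq)
    have h4 : ‖(16:ℂ)‖ = 16 := by norm_num
    rw [h4]
    have h5 : 16 * Real.exp C2 ≤ max 1 (max (Real.exp C1) (16 * Real.exp C2)) :=
      (le_max_right _ _).trans (le_max_right _ _)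
    have he := Real.exp_pos (-(Real.pi * z.im))
    nlinarith [mul_le_mul_of_nonneg_right h5 he.le, mul_le_mul_of_nonneg_right h3 he.le]
  · exact (hexp _ _ (h1 _ hq')).trans ((le_max_left _ _).trans (le_max_right _ _))
  · exact (hexp _ _ (h1 _ hq)).trans ((le_max_left _ _).trans (le_max_right _ _))

theorem fd_im {w : ℍ} (hw : w ∈ ModularGroup.fd) : (5:ℝ) / 6 ≤ w.im := by
  have hw3 := ModularGroup.three_le_four_mul_im_sq_of_mem_fd hw
  by_contra hlt
  push Not at hlt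
  nlinarith [w.im_pos]

/-- values on the standard domain -/
theorem mt_bound_high : ∃ C : ℝ, 1 ≤ C ∧ ∀ w : ℍ, 1 / 2 ≤ w.im →
    mt 0 (w : ℂ) ≤ C * w.im * Real.exp (-(Real.pi * w.im)) ∧ ∀ i, mt i (w : ℂ) ≤ C * w.im := by
  obtain ⟨C, hC, h⟩ := th_norm_le_of_im_ge (c := 1 / 2) (by norm_num)
  refine ⟨C, hC, fun w hw => ?_⟩
  obtain ⟨h2, h3, h4⟩ := h (w : ℂ) hw
  have him := w.im_pos
  have him' : (w : ℂ).im = w.im := rfl
  rw [him'] at h2
  have he : Real.exp (-(Real.pi * w.im)) ≤ 1 := by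
    rw [Real.exp_le_one_iff]; have := Real.pi_pos; nlinarith
  constructor
  · rw [mt_zero, him']
    nlinarith [mul_le_mul_of_nonneg_right h2 him.le]
  · intro i
    fin_cases i
    · show mt 0 _ ≤ _
      rw [mt_zero, him']
      apply mul_le_mul_of_nonneg_right _ him.le
      refine h2.trans ?_
      nlinarith
    · show mt 1 _ ≤ _
      rw [mt_one, him']
      exact mul_le_mul_of_nonneg_right h3 him.le
    · show mt 2 _ ≤ _
      rw [mt_two, him']
      exact mul_le_mul_of_nonneg_right h4 him.le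

theorem mt_le_of_bound : ∃ C : ℝ, 1 ≤ C ∧ ∀ (K : ℝ) (z : ℍ), (∀ g : SL(2, ℤ), (g • z).im ≤ K) →
    ∀ i, mt i (z : ℂ) ≤ C * K := by
  obtain ⟨C, hC, h⟩ := mt_bound_high
  refine ⟨C, hC, fun K z hK i => ?_⟩
  obtain ⟨g, hg⟩ := ModularGroup.exists_smul_mem_fd z
  obtain ⟨σ, hσ⟩ := mt_perm g⁻¹
  have h1 := hσ (g • z) i
  rw [inv_smul_smul] at h1
  rw [h1]
  refine ((h (g • z) (by linarith [fd_im hg])).2 (σ i)).trans ?_
  exact mul_le_mul_of_nonneg_left (hK g) (by linarith)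

theorem im_smul_le_max (g : SL(2, ℤ)) (z : ℍ) : (g • z).im ≤ max z.im z.im⁻¹ := by
  have hz := z.im_pos
  rw [_root_.GP.im_smul_eq']
  by_cases hc : g 1 0 = 0
  · refine le_trans ?_ (le_max_left _ _)
    have hdet := g.det_coe
    rw [Matrix.det_fin_two] at hdet
    have hc2 : (g : Matrix (Fin 2) (Fin 2) ℤ) 1 0 = 0 := hc
    have h4 : g 0 0 * g 1 1 = 1 := by rw [hc2] at hdet; linarith
    have hd : g 1 1 = 1 ∨ g 1 1 = -1 :=
      Int.isUnit_iff.mp (IsUnit.of_mul_eq_one _ (by rw [mul_comm]; exact h4))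
    rw [hc]
    rcases hd with hd | hd <;> rw [hd] <;> push_cast <;> simp
  · refine le_trans ?_ (le_max_right _ _)
    have h1 : (1:ℝ) ≤ (g 1 0 : ℝ) ^ 2 := by
      have : (1:ℤ) ≤ (g 1 0) ^ 2 := by
        have := Int.one_le_abs hc
        nlinarith [sq_abs (g 1 0)]
      exact_mod_cast this
    have hden : z.im ^ 2 ≤ ((g 1 0 : ℝ) * z.re + g 1 1) ^ 2 + ((g 1 0 : ℝ) * z.im) ^ 2 := by
      nlinarith [sq_nonneg ((g 1 0 : ℝ) * z.re + g 1 1),
        mul_le_mul_of_nonneg_right h1 (sq_nonneg z.im)]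
    have hden0 : 0 < ((g 1 0 : ℝ) * z.re + g 1 1) ^ 2 + ((g 1 0 : ℝ) * z.im) ^ 2 := by
      have : 0 < z.im ^ 2 := by positivity
      linarith
    rw [← one_div, div_le_div_iff₀ hden0 hz, one_mul]
    nlinarith

theorem mt_le : ∃ C : ℝ, 0 < C ∧ ∀ (i : Fin 3) (z : ℍ),
    mt i (z : ℂ) ≤ C * max z.im z.im⁻¹ := by
  obtain ⟨C, hC, h⟩ := mt_le_of_bound
  exact ⟨C, by linarith, fun i z => h _ z (fun g => im_smul_le_max g z) i⟩

/-- growth near the real axis -/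
theorem th_norm_le : ∃ C : ℝ, 1 ≤ C ∧ ∀ z : ℂ, 0 < z.im → z.im ≤ 1 →
    ‖th2 z‖ ≤ C / z.im ^ 2 ∧ ‖th3 z‖ ≤ C / z.im ^ 2 ∧ ‖th4 z‖ ≤ C / z.im ^ 2 := by
  obtain ⟨C, hC, h⟩ := mt_le_of_bound
  refine ⟨C, hC, fun z hz hz1 => ?_⟩
  have hmax : max z.im z.im⁻¹ = z.im⁻¹ := by
    apply max_eq_right
    rw [← one_div, le_div_iff₀ hz]
    nlinarith
  have h1 : ∀ i, mt i z ≤ C * z.im⁻¹ := by
    intro i
    have := h _ ⟨z, hz⟩ (fun g => im_smul_le_max g ⟨z, hz⟩) i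
    have e : (⟨z, hz⟩ : ℍ).im = z.im := rfl
    rw [e, hmax] at this
    exact this
  have h2 : ∀ x : ℝ, x * z.im ≤ C * z.im⁻¹ → x ≤ C / z.im ^ 2 := by
    intro x hx
    rw [le_div_iff₀ (by positivity)]
    calc x * z.im ^ 2 = (x * z.im) * z.im := by ring
      _ ≤ (C * z.im⁻¹) * z.im := mul_le_mul_of_nonneg_right hx hz.le
      _ = C := by field_simp
  exact ⟨h2 _ (h1 0), h2 _ (h1 1), h2 _ (h1 2)⟩

theorem mt_continuous (i : Fin 3) : Continuous (fun z : ℍ => mt i (z : ℂ)) := by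
  have h1 : ∀ f : ℂ → ℂ, DifferentiableOn ℂ f {τ | 0 < τ.im} →
      Continuous (fun z : ℍ => ‖f (z : ℂ)‖ * (z : ℂ).im) := by
    intro f hf
    apply Continuous.mul
    · apply Continuous.norm
      rw [continuous_iff_continuousAt]
      intro z
      have hz : 0 < (z : ℂ).im := z.im_pos
      have h2 : ContinuousAt f (z : ℂ) :=
        (hf.differentiableAt ((isOpen_lt continuous_const Complex.continuous_im).mem_nhds hz)).continuousAt
      exact ContinuousAt.comp (f := fun z : ℍ => (z : ℂ)) h2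
        (UpperHalfPlane.continuous_coe.continuousAt)
    · exact Complex.continuous_im.comp UpperHalfPlane.continuous_coe
  fin_cases i
  · exact h1 th2 th2_diff
  · exact h1 th3 th3_diff
  · exact h1 th4 th4_diff

end Pool.Agent.GP
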