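import Pool.Agent.GP.Jac
import Pool.Agent.GP.FW

/-! Module SLAW: the functional equation of the integrals under tau -> -1/tau. -/

set_option autoImplicit false

namespace Pool.Agent.GP

open Complex

theorem bet_ne_zero {p a b : ℕ} (hA : Adm p a b) : bet p a b ≠ 0 := by
  have e : ∀ c : ℕ, ((c : ℂ) / p).re = (c : ℝ) / p := fun c => by
    rw [show ((c : ℂ) / p) = (((c : ℝ) / p : ℝ) : ℂ) by push_cast; rfl, Complex.ofReal_re]
  have h1 := div_pos' hA
  have h2 := div_pos' hA.symm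
  have ha : 0 < ((a : ℂ) / p).re := by rw [e]; exact h1
  have hb : 0 < ((b : ℂ) / p).re := by rw [e]; exact h2
  have h := Complex.Gamma_mul_Gamma_eq_betaIntegral ha hb
  intro h0
  rw [bet] at h0
  rw [h0, mul_zero] at h
  rcases mul_eq_zero.1 h with h3 | h3
  · exact Complex.Gamma_ne_zero_of_re_pos ha h3
  · exact Complex.Gamma_ne_zero_of_re_pos hb h3

theorem F_S {p a b : ℕ} (hA : Adm p a b) {τ : ℂ} (hτ : 0 < τ.im) :
    F p a b (-1 / τ) + F p b a τ = bet p a b := by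
  rw [F_eq_FF hA (_root_.GP.neg_one_div_im hτ), F_eq_FF hA.symm hτ,
    _root_.GP.FF_neg_inv hA.pos.ne' hA.a0 hA.b0 hτ, bet]
  ring

/-- the values on the imaginary axis are incomplete beta integrals -/
theorem F_limit {p a b : ℕ} (hA : Adm p a b) :
    Filter.Tendsto (fun y : ℝ => F p a b (I * y)) (nhdsWithin 0 (Set.Ioi 0))
      (nhds (bet p a b)) := by
  have h1 : Filter.Tendsto (fun y : ℝ => _root_.GP.FF p b a (I * ((y⁻¹ : ℝ) : ℂ)))
      (nhdsWithin 0 (Set.Ioi 0)) (nhds 0) :=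
    (_root_.GP.tendsto_FF_I hA.pos.ne' hA.b0).comp tendsto_inv_nhdsGT_zero
  have h2 := h1.const_sub (bet p a b)
  rw [sub_zero] at h2
  refine h2.congr' ?_
  filter_upwards [self_mem_nhdsWithin] with y hy
  have hy' : (0 : ℝ) < y := hy
  have hi : 0 < (I * ((y⁻¹ : ℝ) : ℂ)).im := _root_.GP.im_I_mul (inv_pos.2 hy')
  have h3 := F_S hA hi
  have hy0 : (y : ℂ) ≠ 0 := by exact_mod_cast hy'.ne'
  have e : -1 / (I * ((y⁻¹ : ℝ) : ℂ)) = I * y := by
    push_cast
    field_simp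
    rw [I_sq]
  rw [e, F_eq_FF hA.symm hi] at h3
  rw [← h3]
  ring

end Pool.Agent.GP
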