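import Pool.Agent.GP.Main

/-! Module SYM: the symmetric form of Theorem A, with quotients of values of the real
Gamma function. -/

set_option autoImplicit false

namespace Pool.Agent.GP

open IntermediateField

/-- Euler's Beta function on positive real numbers, through the Gamma function -/
noncomputable def gq (x y : ℝ) : ℝ := Real.Gamma x * Real.Gamma y / Real.Gamma (x + y)

theorem gq_comm (x y : ℝ) : gq x y = gq y x := by
  unfold gq
  rw [mul_comm, add_comm]

theorem bet_gq {D a b : ℕ} (hD : 0 < D) (ha : 0 < a) (hb : 0 < b) :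
    bet D a b = ((gq ((a : ℝ) / D) ((b : ℝ) / D) : ℝ) : ℂ) := by
  have hD' : (0 : ℝ) < D := by exact_mod_cast hD
  have ha' : (0 : ℝ) < (a : ℝ) / D := div_pos (by exact_mod_cast ha) hD'
  have hb' : (0 : ℝ) < (b : ℝ) / D := div_pos (by exact_mod_cast hb) hD'
  have e1 : ((a : ℂ) / D) = (((a : ℝ) / D : ℝ) : ℂ) := by push_cast; rfl
  have e2 : ((b : ℂ) / D) = (((b : ℝ) / D : ℝ) : ℂ) := by push_cast; rfl
  unfold bet gq
  have h2 : 0 < ((a : ℂ) / D).re := by rw [e1, Complex.ofReal_re]; exact ha'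
  have h2' : 0 < ((b : ℂ) / D).re := by rw [e2, Complex.ofReal_re]; exact hb'
  have h3 := Complex.Gamma_mul_Gamma_eq_betaIntegral h2 h2'
  rw [e1, e2] at h3
  rw [e1, e2]
  rw [← Complex.ofReal_add, Complex.Gamma_ofReal, Complex.Gamma_ofReal,
    Complex.Gamma_ofReal] at h3
  have h4 : (Real.Gamma ((a : ℝ) / D + (b : ℝ) / D) : ℂ) ≠ 0 := by
    have := Real.Gamma_pos_of_pos (show 0 < (a : ℝ) / D + (b : ℝ) / D by linarith)
    exact_mod_cast this.ne'
  have h5 : ∀ u v w : ℝ, ((u * v / w : ℝ) : ℂ) = (u : ℂ) * v / w := fun u v w => by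
    push_cast; rfl
  rw [h5, eq_div_iff h4, h3]
  ring

/-- reflection: the Beta values at (x, y) and at (-x-y, y) differ by an algebraic factor -/
theorem gq_refl {x y : ℚ} (hx0 : 0 < x) (hx1 : x < 1) (hy0 : 0 < y) (hy1 : y < 1)
    (hxy : x + y ≠ 1) : ∃ r : ℝ, IsAlgebraic ℚ r ∧ r ≠ 0 ∧
      gq ((if x + y < 1 then 1 - (x + y) else 2 - (x + y) : ℚ) : ℝ) y = r * gq x y := by
  have hx0' : (0 : ℝ) < x := by exact_mod_cast hx0
  have hx1' : (x : ℝ) < 1 := by exact_mod_cast hx1
  have hy0' : (0 : ℝ) < y := by exact_mod_cast hy0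
  have hy1' : (y : ℝ) < 1 := by exact_mod_cast hy1
  have hxy' : (x : ℝ) + y ≠ 1 := by exact_mod_cast hxy
  have hxg := Real.Gamma_pos_of_pos hx0'
  have hsg := Real.Gamma_pos_of_pos (show (0 : ℝ) < x + y by linarith)
  have hxs : 0 < Real.sin (Real.pi * x) :=
    Real.sin_pos_of_pos_of_lt_pi (by positivity) (by nlinarith [Real.pi_pos])
  have hss : Real.sin (Real.pi * (x + y)) ≠ 0 := by
    intro h
    rw [Real.sin_eq_zero_iff] at h
    obtain ⟨n, hn⟩ := h
    have hn' : (n : ℝ) = x + y := by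
      have h1 : Real.pi * (n : ℝ) = Real.pi * (x + y) := by rw [← hn]; ring
      exact mul_left_cancel₀ Real.pi_ne_zero h1
    have h1 : (0 : ℝ) < n := by rw [hn']; linarith
    have h2 : (n : ℝ) < 2 := by rw [hn']; linarith
    have h3 : (0 : ℤ) < n := by exact_mod_cast h1
    have h4 : n < (2 : ℤ) := by exact_mod_cast h2
    have h5 : n = 1 := by omega
    rw [h5] at hn'
    exact hxy' (by rw [← hn']; simp)
  have e1 := Real.Gamma_mul_Gamma_one_sub (x : ℝ)
  have e2 := Real.Gamma_mul_Gamma_one_sub ((x : ℝ) + y)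
  have g1 : Real.Gamma (1 - (x : ℝ)) = Real.pi / (Real.sin (Real.pi * x) * Real.Gamma x) := by
    rw [eq_div_iff (by positivity)]
    have : Real.sin (Real.pi * x) * (Real.Gamma x * Real.Gamma (1 - (x : ℝ))) = Real.pi := by
      rw [e1]; field_simp
    linarith
  have g2 : Real.Gamma (1 - ((x : ℝ) + y)) =
      Real.pi / (Real.sin (Real.pi * (x + y)) * Real.Gamma (x + y)) := by
    rw [eq_div_iff (mul_ne_zero hss hsg.ne')]
    have : Real.sin (Real.pi * (x + y)) *
        (Real.Gamma (x + y) * Real.Gamma (1 - ((x : ℝ) + y))) = Real.pi := by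
      rw [e2]; field_simp
    linarith
  have a1 : IsAlgebraic ℚ (Real.sin (Real.pi * x)) := by
    rw [mul_comm]
    exact (IsFractionRing.isAlgebraic_iff ℤ ℚ ℝ).1 (Real.isAlgebraic_sin_rat_mul_pi x)
  have a2 : IsAlgebraic ℚ (Real.sin (Real.pi * ((x : ℝ) + y))) := by
    have := (IsFractionRing.isAlgebraic_iff ℤ ℚ ℝ).1 (Real.isAlgebraic_sin_rat_mul_pi (x + y))
    rw [mul_comm]
    push_cast at this
    exact this
  by_cases h : x + y < 1
  · refine ⟨Real.sin (Real.pi * x) * (Real.sin (Real.pi * (x + y)))⁻¹, a1.mul a2.inv,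
      mul_ne_zero hxs.ne' (inv_ne_zero hss), ?_⟩
    rw [if_pos h]
    unfold gq
    push_cast
    rw [show (1 : ℝ) - (x + y) + y = 1 - x by ring, g1, g2]
    have := Real.pi_ne_zero
    have := hxg.ne'
    have := hsg.ne'
    have := hxs.ne'
    field_simp
  · have h1 : (1 : ℝ) - (x + y) ≠ 0 := by
      intro h2
      exact hxy' (by linarith)
    have h2 : (1 : ℝ) - x ≠ 0 := by linarith
    have a3 : IsAlgebraic ℚ ((1 : ℝ) - (x + y)) := by
      have : (1 : ℝ) - (x + y) = algebraMap ℚ ℝ (1 - (x + y)) := by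
        push_cast [eq_ratCast]; ring
      rw [this]; exact isAlgebraic_algebraMap _
    have a4 : IsAlgebraic ℚ ((1 : ℝ) - x) := by
      have : (1 : ℝ) - x = algebraMap ℚ ℝ (1 - x) := by
        push_cast [eq_ratCast]; ring
      rw [this]; exact isAlgebraic_algebraMap _
    refine ⟨(1 - (x + y)) * (1 - (x : ℝ))⁻¹ *
      (Real.sin (Real.pi * x) * (Real.sin (Real.pi * (x + y)))⁻¹),
      (a3.mul a4.inv).mul (a1.mul a2.inv),
      mul_ne_zero (mul_ne_zero h1 (inv_ne_zero h2)) (mul_ne_zero hxs.ne' (inv_ne_zero hss)), ?_⟩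
    rw [if_neg h]
    unfold gq
    push_cast
    rw [show (2 : ℝ) - (x + y) = (1 - (x + y)) + 1 by ring, Real.Gamma_add_one h1,
      show (1 : ℝ) - (x + y) + 1 + y = (1 - x) + 1 by ring, Real.Gamma_add_one h2, g1, g2]
    have := Real.pi_ne_zero
    have := hxg.ne'
    have := hsg.ne'
    have := hxs.ne'
    field_simp

theorem at_pos {D j t : ℕ} (hj : ¬ D ∣ j) (ht : t.Coprime D) : 0 < at' D j t := by
  unfold at'
  rw [Nat.pos_iff_ne_zero]
  intro h
  have h1 : D ∣ t * j := Nat.dvd_of_mod_eq_zero h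
  exact hj (ht.symm.dvd_of_dvd_mul_left h1)

theorem at_lt {D j t : ℕ} (hD : 3 ≤ D) : at' D j t < D := Nat.mod_lt _ (by omega)

/-- the third index -/
theorem at_third {D j k t : ℕ} (hD : 3 ≤ D) (hjk : ¬ D ∣ j + k) (ht : t.Coprime D) :
    at' D ((D - 1) * (j + k)) t =
      if at' D j t + at' D k t < D then D - (at' D j t + at' D k t)
      else 2 * D - (at' D j t + at' D k t) := by
  have hsum : D ∣ at' D ((D - 1) * (j + k)) t + (at' D j t + at' D k t) := by
    unfold at'
    have h0 : (t * ((D - 1) * (j + k)) % D + (t * j % D + t * k % D)) ≡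
        t * ((D - 1) * (j + k)) + (t * j + t * k) [MOD D] :=
      (Nat.mod_modEq _ _).add ((Nat.mod_modEq _ _).add (Nat.mod_modEq _ _))
    have h1 : t * ((D - 1) * (j + k)) + (t * j + t * k) = D * (t * (j + k)) := by
      obtain ⟨E, rfl⟩ : ∃ E, D = E + 1 := ⟨D - 1, by omega⟩
      rw [Nat.add_sub_cancel]
      ring
    rw [h1] at h0
    exact (Nat.modEq_zero_iff_dvd).1 (h0.trans ((Nat.modEq_zero_iff_dvd).2 (dvd_mul_right _ _)))
  have hne : ¬ D ∣ at' D j t + at' D k t := by
    intro h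
    unfold at' at h
    have h0 : (t * j % D + t * k % D) ≡ t * j + t * k [MOD D] :=
      (Nat.mod_modEq _ _).add (Nat.mod_modEq _ _)
    have h1 : D ∣ t * j + t * k :=
      (Nat.modEq_zero_iff_dvd).1 (h0.symm.trans ((Nat.modEq_zero_iff_dvd).2 h))
    rw [← mul_add] at h1
    exact hjk (ht.symm.dvd_of_dvd_mul_left h1)
  have h1 : at' D ((D - 1) * (j + k)) t < D := at_lt hD
  have h2 : at' D j t < D := at_lt hD
  have h3 : at' D k t < D := at_lt hD
  have h4 : at' D j t + at' D k t ≠ 0 := fun h => hne (by rw [h]; exact dvd_zero _)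
  have h5 : at' D j t + at' D k t ≠ D := fun h => hne (by rw [h])
  obtain ⟨m, hm⟩ := hsum
  have hm3 : m < 3 := by
    by_contra hcon
    have : D * 3 ≤ D * m := Nat.mul_le_mul_left _ (by omega)
    omega
  have hm0 : m ≠ 0 := by
    intro h
    rw [h] at hm
    omega
  split_ifs with h
  · have hm1 : m = 1 := by
      by_contra hcon
      have : D * 2 ≤ D * m := Nat.mul_le_mul_left _ (by omega)
      omega
    rw [hm1] at hm
    omega
  · have hm2 : m = 2 := by
      by_contra hcon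
      have : m = 1 := by omega
      rw [this] at hm
      omega
    rw [hm2] at hm
    omega

open scoped Classical in
/-- Theorem A for the pair (j, k), with j prime to the level, through Gamma values -/
theorem thmA_gq (D j k : ℕ) (hD : 3 ≤ D) (hk0 : ¬ D ∣ k) (hjk : ¬ D ∣ j + k)
    (h : j.Coprime D) (θ : ℂ) :
    2 * ((Finset.range D).filter fun t => t.Coprime D ∧ IsAlgebraic ℚ⟮θ⟯
      ((gq ((at' D j t : ℝ) / D) ((at' D k t : ℝ) / D) : ℝ) : ℂ)).card ≤ D.totient := by
  have hj0 : ¬ D ∣ j := by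
    intro hd
    have := Nat.Coprime.eq_one_of_dvd h.symm hd
    omega
  refine thmA (p := D) (j := j) (k := k) ⟨hD, h, hk0, hjk⟩ θ ?_ ?_
  · intro t ht
    rw [Finset.mem_filter] at ht
    unfold Un
    rw [Finset.mem_filter]
    exact ⟨ht.1, ht.2.1.symm⟩
  · intro t ht
    rw [Finset.mem_filter] at ht
    rw [bet_gq (by omega) (at_pos hj0 ht.2.1) (at_pos hk0 ht.2.1)]
    exact ht.2.2

/-- algebraic factors -/
theorem alg_factor {θ : ℂ} {r x : ℝ} (hr : IsAlgebraic ℚ r) (hx : IsAlgebraic ℚ⟮θ⟯ (x : ℂ)) :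
    IsAlgebraic ℚ⟮θ⟯ ((r * x : ℝ) : ℂ) := by
  rw [Complex.ofReal_mul]
  refine IsAlgebraic.mul ?_ hx
  have h1 : IsAlgebraic ℚ (r : ℂ) := hr.algebraMap
  exact h1.extendScalars (algebraMap ℚ ℚ⟮θ⟯).injective

open scoped Classical in
/-- Theorem A in its symmetric form -/
theorem thmA_sym (D j k : ℕ) (hD : 3 ≤ D) (hj0 : ¬ D ∣ j) (hk0 : ¬ D ∣ k) (hjk : ¬ D ∣ j + k)
    (h : j.Coprime D ∨ k.Coprime D ∨ (j + k).Coprime D) (θ : ℂ) :
    2 * ((Finset.range D).filter fun t => t.Coprime D ∧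
      IsAlgebraic (IntermediateField.adjoin ℚ {θ})
        (((Real.Gamma ((t * j % D : ℕ) / D) * Real.Gamma ((t * k % D : ℕ) / D) /
          Real.Gamma ((t * j % D : ℕ) / D + (t * k % D : ℕ) / D) : ℝ)) : ℂ)).card
      ≤ D.totient := by
  rcases h with h | h | h
  · exact thmA_gq D j k hD hk0 hjk h θ
  · have h1 := thmA_gq D k j hD hj0 (by rwa [add_comm]) h θ
    refine le_trans (Nat.mul_le_mul_left _ (Finset.card_le_card ?_)) h1
    intro t ht
    rw [Finset.mem_filter] at ht ⊢
    refine ⟨ht.1, ht.2.1, ?_⟩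
    rw [gq_comm]
    exact ht.2.2
  · have hc : ((D - 1) * (j + k)).Coprime D := by
      refine Nat.Coprime.mul_left ?_ h
      obtain ⟨E, rfl⟩ : ∃ E, D = E + 1 := ⟨D - 1, by omega⟩
      rw [Nat.add_sub_cancel]
      exact Nat.coprime_self_add_right.2 (Nat.coprime_one_right _)
    have hs : ¬ D ∣ (D - 1) * (j + k) + k := by
      intro hd
      apply hj0
      have e : (D - 1) * (j + k) + k + j = D * (j + k) := by
        obtain ⟨E, rfl⟩ : ∃ E, D = E + 1 := ⟨D - 1, by omega⟩
        rw [Nat.add_sub_cancel]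
        ring
      exact (Nat.dvd_add_right hd).1 (by rw [e]; exact dvd_mul_right _ _)
    have h1 := thmA_gq D ((D - 1) * (j + k)) k hD hk0 hs hc θ
    refine le_trans (Nat.mul_le_mul_left _ (Finset.card_le_card ?_)) h1
    intro t ht
    rw [Finset.mem_filter] at ht ⊢
    refine ⟨ht.1, ht.2.1, ?_⟩
    have ha0 := at_pos hj0 ht.2.1
    have hb0 := at_pos hk0 ht.2.1
    have ha1 : at' D j t < D := at_lt hD
    have hb1 : at' D k t < D := at_lt hD
    have hDQ : (0 : ℚ) < D := by exact_mod_cast (show 0 < D by omega)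
    have hthird := at_third (t := t) hD hjk ht.2.1
    have hc1 : at' D ((D - 1) * (j + k)) t < D := at_lt hD
    have hc0 : 0 < at' D ((D - 1) * (j + k)) t := by
      apply at_pos _ ht.2.1
      intro hd
      have := Nat.Coprime.eq_one_of_dvd hc.symm hd
      omega
    have hne : at' D j t + at' D k t ≠ D := by
      intro h2
      rw [if_neg (by omega)] at hthird
      omega
    obtain ⟨r, hr, -, hr1⟩ := gq_refl (x := (at' D j t : ℚ) / D) (y := (at' D k t : ℚ) / D)
      (div_pos (by exact_mod_cast ha0) hDQ) ((div_lt_one hDQ).2 (by exact_mod_cast ha1))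
      (div_pos (by exact_mod_cast hb0) hDQ) ((div_lt_one hDQ).2 (by exact_mod_cast hb1))
      (by
        rw [← add_div]
        intro h2
        rw [div_eq_one_iff_eq hDQ.ne'] at h2
        exact hne (by exact_mod_cast h2))
    have hz : ((if (at' D j t : ℚ) / D + (at' D k t : ℚ) / D < 1
          then 1 - ((at' D j t : ℚ) / D + (at' D k t : ℚ) / D)
          else 2 - ((at' D j t : ℚ) / D + (at' D k t : ℚ) / D) : ℚ) : ℝ)
        = (at' D ((D - 1) * (j + k)) t : ℝ) / D := by
      have hDR : (D : ℝ) ≠ 0 := by exact_mod_cast (show D ≠ 0 by omega)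
      have hcase : (at' D j t : ℚ) / D + (at' D k t : ℚ) / D < 1 ↔ at' D j t + at' D k t < D := by
        rw [← add_div, div_lt_one hDQ]
        exact_mod_cast Iff.rfl
      rw [hthird]
      by_cases h2 : at' D j t + at' D k t < D
      · rw [if_pos (hcase.2 h2), if_pos h2, Nat.cast_sub h2.le]
        push_cast
        field_simp
      · rw [if_neg (fun h3 => h2 (hcase.1 h3)), if_neg h2, Nat.cast_sub (by omega)]
        push_cast
        field_simp
    rw [hz] at hr1
    push_cast at hr1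
    rw [hr1]
    exact alg_factor hr ht.2.2

end Pool.Agent.GP
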